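import Mathlib

/-!
# Complete vertex lists: definition
-/

set_option autoImplicit false

namespace Pool.Agent.RFN

open Module

variable {V : Type} [AddCommGroup V] [Module ℚ V] [FiniteDimensional ℚ V] {M : ℕ}

/-- The cone `{x : p i x ≥ 0}` at its ray `v`: the facets through `v` (`C i ≠ 0`) are grouped in
`k` components `C i = 1, ..., k`, with positive weights `m i` such that the weighted sum over a
component does not depend on the component, and every edge of the product of simplices is realized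
by an element of `S`. -/
structure LocalOK (p : Fin M → V →ₗ[ℚ] ℚ) (S : Set V) (v : V) (k : ℕ) (C m : Fin M → ℕ) : Prop where
  k_pos : 1 ≤ k
  C_le : ∀ i, C i ≤ k
  C_zero : ∀ i, C i = 0 ↔ p i v ≠ 0
  surj : ∀ j, 1 ≤ j → j ≤ k → ∃ i, C i = j
  card : (Finset.univ.filter (fun i => C i ≠ 0)).card + 2 = finrank ℚ V + k
  m_pos : ∀ i, C i ≠ 0 → 0 < m i
  rel : ∀ j, 1 ≤ j → j ≤ k → ∀ x : V, ∑ i ∈ Finset.univ.filter (fun i => C i = j),
    (m i : ℚ) * p i x = ∑ i ∈ Finset.univ.filter (fun i => C i = 1), (m i : ℚ) * p i x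
  edge : ∀ t : ℕ → Fin M, (∀ j, 1 ≤ j → j ≤ k → C (t j) = j) → ∃ u ∈ S,
    (∀ i, C i ≠ 0 → (∀ j, 1 ≤ j → j ≤ k → i ≠ t j) → p i u = 0) ∧
      ∀ j, 1 ≤ j → j ≤ k → 0 < p (t j) u

end Pool.Agent.RFN
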