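import Mathlib
import Pool.Agent.Lib.MP_dcc566_gt_R.FvA0

/-!
# The facets through a vertex
-/

set_option autoImplicit false

namespace Pool.Agent.RFN

open Module

variable {V : Type} [AddCommGroup V] [Module ℚ V] [FiniteDimensional ℚ V] {M : ℕ}

/-- The facets through `v` meet only in the line of `v`.

PROOF.  Choose (`surj`) `d : ℕ → Fin M` with `C (d j) = j` for `1 ≤ j ≤ k`.  Let `I` be the set of
all `i` with `C i ≠ 0`, `i ≠ d j` for `2 ≤ j ≤ k`: it has
`finrank ℚ V + k - 2 - (k-1) = finrank ℚ V - 1` elements.  The linear map `P : V → (I → ℚ)`,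
`x ↦ (p i x)_i`, is surjective: `edge` for `t = d` gives
`u₀` with `p i u₀ = 0` for `i ∈ I`, `i ≠ d 1`, and `p (d 1) u₀ > 0`; for `i ∈ I`, `i ≠ d 1`, `edge`
for `t = d` changed at the component `j = C i` to
`t j = i` gives `u_i` with `p i u_i > 0`, `p i' u_i = 0` for all `i' ∈ I`, `i' ≠ i`, `i' ≠ d 1`.
So a multiple of `P u₀` is the basis vector of `d 1` and
a combination of `P u_i`, `P u₀` is the basis vector of `i`.  So the kernel of `P` has dimension 1
(rank-nullity); it contains `v ≠ 0`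
(`C_zero`) and `x`. -/
theorem local_ker {p : Fin M → V →ₗ[ℚ] ℚ} {S : Set V} {v : V} {k : ℕ} {C m : Fin M → ℕ}
    (h : LocalOK p S v k C m) (hv : v ≠ 0) {x : V} (hx : ∀ i, C i ≠ 0 → p i x = 0) :
    ∃ c : ℚ, x = c • v := by
  classical
  obtain ⟨i0, _⟩ := h.surj 1 le_rfl h.k_pos
  have _ : Nonempty (Fin M) := ⟨i0⟩
  have hsj : ∀ j, ∃ i : Fin M, 1 ≤ j → j ≤ k → C i = j := by
    intro j
    by_cases hj : 1 ≤ j ∧ j ≤ k
    · obtain ⟨i, hi⟩ := h.surj j hj.1 hj.2
      exact ⟨i, fun _ _ => hi⟩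
    · exact ⟨i0, fun h1 h2 => absurd ⟨h1, h2⟩ hj⟩
  choose d hd using hsj
  have hk := h.k_pos
  set A : Finset (Fin M) := Finset.univ.filter (fun i => C i ≠ 0) with hA
  set D : Finset (Fin M) := (Finset.Icc 2 k).image d with hD
  have hDA : D ⊆ A := by
    intro i hi
    rw [hD, Finset.mem_image] at hi
    obtain ⟨j, hj, rfl⟩ := hi
    rw [Finset.mem_Icc] at hj
    rw [hA, Finset.mem_filter]
    refine ⟨Finset.mem_univ _, ?_⟩
    rw [hd j (by omega) hj.2]
    omega
  have hDc : D.card = k - 1 := by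
    rw [hD, Finset.card_image_of_injOn, Nat.card_Icc]
    · omega
    · intro a ha b hb hab
      have ha' := Finset.mem_Icc.1 (Finset.mem_coe.1 ha)
      have hb' := Finset.mem_Icc.1 (Finset.mem_coe.1 hb)
      have h1 := hd a (by omega) ha'.2
      have h2 := hd b (by omega) hb'.2
      rw [hab] at h1
      omega
  have hcard := h.card
  rw [← hA] at hcard
  have hIc : (A \ D).card + 1 = finrank ℚ V := by
    have h1 := Finset.card_sdiff_add_card_eq_card hDA
    omega
  -- membership in the index set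
  have hmem : ∀ i, i ∈ A \ D → C i ≠ 0 ∧ ∀ j, 2 ≤ j → j ≤ k → i ≠ d j := by
    intro i hi
    rw [Finset.mem_sdiff, hA, Finset.mem_filter, hD, Finset.mem_image] at hi
    refine ⟨hi.1.2, fun j hj1 hj2 hij => hi.2 ⟨j, Finset.mem_Icc.2 ⟨hj1, hj2⟩, hij.symm⟩⟩
  obtain ⟨u0, _, hu01, hu02⟩ := h.edge d (fun j h1 h2 => hd j h1 h2)
  have hu0 : 0 < p (d 1) u0 := hu02 1 le_rfl hk
  have hu0z : ∀ i ∈ A \ D, i ≠ d 1 → p i u0 = 0 := by
    intro i hi hi1
    obtain ⟨h1, h2⟩ := hmem i hi
    refine hu01 i h1 (fun j hj1 hj2 => ?_)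
    rcases Nat.lt_or_ge j 2 with h3 | h3
    · have : j = 1 := by omega
      rw [this]
      exact hi1
    · exact h2 j h3 hj2
  have hw : ∀ i : {i // i ∈ A \ D}, ∃ w : V, p i w ≠ 0 ∧
      ∀ i' : {i // i ∈ A \ D}, i' ≠ i → p i' w = 0 := by
    rintro ⟨i, hi⟩
    by_cases hi1 : i = d 1
    · subst hi1
      refine ⟨u0, hu0.ne', ?_⟩
      rintro ⟨i', hi'⟩ hne
      exact hu0z i' hi' (fun hh => hne (Subtype.ext hh))
    · obtain ⟨hCi, hid⟩ := hmem i hi
      have hCk := h.C_le i
      obtain ⟨u, _, hu1, hu2⟩ := h.edge (Function.update d (C i) i) (by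
        intro j hj1 hj2
        by_cases hj : j = C i
        · rw [hj, Function.update_self]
        · rw [Function.update_of_ne hj]
          exact hd j hj1 hj2)
      have hui : 0 < p i u := by
        have := hu2 (C i) (by omega) hCk
        rwa [Function.update_self] at this
      have huz : ∀ i' ∈ A \ D, i' ≠ i → i' ≠ d 1 → p i' u = 0 := by
        intro i' hi' hne hne1
        obtain ⟨h1, h2⟩ := hmem i' hi'
        refine hu1 i' h1 (fun j hj1 hj2 => ?_)
        by_cases hj : j = C i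
        · rw [hj, Function.update_self]
          exact hne
        · rw [Function.update_of_ne hj]
          rcases Nat.lt_or_ge j 2 with h3 | h3
          · have : j = 1 := by omega
            rw [this]
            exact hne1
          · exact h2 j h3 hj2
      refine ⟨u - (p (d 1) u / p (d 1) u0) • u0, ?_, ?_⟩
      · rw [map_sub, map_smul, hu0z i hi hi1, smul_zero, sub_zero]
        exact hui.ne'
      · rintro ⟨i', hi'⟩ hne
        have hne' : i' ≠ i := fun hh => hne (Subtype.ext hh)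
        change p i' (u - (p (d 1) u / p (d 1) u0) • u0) = 0
        rw [map_sub, map_smul, smul_eq_mul]
        by_cases h1 : i' = d 1
        · subst h1
          rw [div_mul_cancel₀ _ hu0.ne', sub_self]
        · rw [hu0z i' hi' h1, huz i' hi' hne' h1, mul_zero, sub_zero]
  choose w hw1 hw2 using hw
  set P : V →ₗ[ℚ] ({i // i ∈ A \ D} → ℚ) := LinearMap.pi (fun i => p i) with hP
  have hsurj : Function.Surjective P := by
    intro y
    refine ⟨∑ i, (y i / p i (w i)) • w i, ?_⟩
    funext i'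
    rw [hP, LinearMap.pi_apply, map_sum, Finset.sum_eq_single i']
    · rw [map_smul, smul_eq_mul, div_mul_cancel₀ _ (hw1 i')]
    · intro i _ hne
      rw [map_smul, hw2 i i' (Ne.symm hne), smul_zero]
    · intro hh
      exact absurd (Finset.mem_univ _) hh
  have hrn := P.finrank_range_add_finrank_ker
  rw [LinearMap.range_eq_top.2 hsurj, finrank_top, Module.finrank_fintype_fun_eq_card,
    Fintype.card_coe] at hrn
  have hker : finrank ℚ (LinearMap.ker P) = 1 := by omega
  have hvk : v ∈ LinearMap.ker P := by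
    rw [LinearMap.mem_ker]
    funext i
    have h1 := (hmem i.1 i.2).1
    change p i.1 v = 0
    by_contra h2
    exact h1 ((h.C_zero i.1).2 h2)
  have hxk : x ∈ LinearMap.ker P := by
    rw [LinearMap.mem_ker]
    funext i
    exact hx i.1 (hmem i.1 i.2).1
  have hv' : (⟨v, hvk⟩ : LinearMap.ker P) ≠ 0 := by
    intro hh
    exact hv (congrArg Subtype.val hh)
  obtain ⟨c, hc⟩ := (finrank_eq_one_iff_of_nonzero' _ hv').1 hker ⟨x, hxk⟩
  exact ⟨c, (congrArg Subtype.val hc).symm⟩

end Pool.Agent.RFN
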