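import Mathlib
import Pool.Agent.Lib.MP_dcc566_gt_R.FvA1

/-!
# The cone at a vertex
-/

set_option autoImplicit false

namespace Pool.Agent.RFN

open Module

variable {V : Type} [AddCommGroup V] [Module ℚ V] [FiniteDimensional ℚ V] {M : ℕ}

/-- PROOF.  Strong induction on the number of `i` with `C i ≠ 0` and `p i x ≠ 0`.  If it is 0: `local_ker`, `φ x = c φ v = 0`.  Otherwise some `p i x > 0` with
`C i ≠ 0`, so the weighted sum over the component `C i` is positive (all terms `≥ 0`), so by `rel` for every component `j`, so for every `1 ≤ j ≤ k` there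
is `t j` with `C (t j) = j` and `p (t j) x > 0`.  Take `u` from `edge` and `τ = min_j p (t j) x / p (t j) u > 0`, attained at `j₀`.  `x' = x - τ u`: for `i` with
`C i ≠ 0`, `i` not of the form `t j`: `p i x' = p i x`; `p (t j) x' ≥ 0`, and `p (t j₀) x' = 0`.  So `x'` satisfies the hypothesis and the number drops (if
`p i x = 0`, `C i ≠ 0`, then `i` is not a `t j` and `p i x' = 0`).  `φ x = φ x' + τ φ u ≥ 0`. -/
theorem local_cone {p : Fin M → V →ₗ[ℚ] ℚ} {S : Set V} {v : V} {k : ℕ} {C m : Fin M → ℕ}
    (h : LocalOK p S v k C m) (hv : v ≠ 0) {φ : V →ₗ[ℚ] ℚ} (hφ : ∀ s ∈ S, 0 ≤ φ s)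
    (hφv : φ v = 0) {x : V} (hx : ∀ i, p i v = 0 → 0 ≤ p i x) : 0 ≤ φ x := by
  have main : ∀ N : ℕ, ∀ x : V, (∀ i, p i v = 0 → 0 ≤ p i x) →
      (Finset.univ.filter (fun i => C i ≠ 0 ∧ p i x ≠ 0)).card ≤ N → 0 ≤ φ x := by
    have hCv : ∀ i, C i ≠ 0 → p i v = 0 := by
      intro i hi
      by_contra h0
      exact hi ((h.C_zero i).2 h0)
    intro N
    induction N with
    | zero =>
      intro x hx hN
      have h0 : ∀ i, C i ≠ 0 → p i x = 0 := by
        intro i hi
        by_contra h1
        have h2 := Finset.card_eq_zero.1 (Nat.le_zero.1 hN)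
        have h3 : i ∈ Finset.univ.filter (fun i => C i ≠ 0 ∧ p i x ≠ 0) := by
          simp only [Finset.mem_filter, Finset.mem_univ, true_and]
          exact ⟨hi, h1⟩
        rw [h2] at h3
        exact absurd h3 (Finset.notMem_empty i)
      obtain ⟨c, hc⟩ := local_ker h hv h0
      rw [hc, map_smul, hφv, smul_zero]
    | succ N ih =>
      intro x hx hN
      by_cases h0 : ∀ i, C i ≠ 0 → p i x = 0
      · obtain ⟨c, hc⟩ := local_ker h hv h0
        rw [hc, map_smul, hφv, smul_zero]
      · push Not at h0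
        obtain ⟨i₀, hi₀, hpi₀⟩ := h0
        have hpos₀ : 0 < p i₀ x := lt_of_le_of_ne (hx i₀ (hCv i₀ hi₀)) (Ne.symm hpi₀)
        -- the weighted sums are positive
        have hnn : ∀ j, 1 ≤ j → ∀ i ∈ Finset.univ.filter (fun i => C i = j),
            0 ≤ (m i : ℚ) * p i x := by
          intro j hj i hi
          simp only [Finset.mem_filter, Finset.mem_univ, true_and] at hi
          exact mul_nonneg (Nat.cast_nonneg _) (hx i (hCv i (by omega)))
        have hW₀ : 0 < ∑ i ∈ Finset.univ.filter (fun i => C i = C i₀), (m i : ℚ) * p i x := by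
          refine Finset.sum_pos' (hnn (C i₀) (Nat.one_le_iff_ne_zero.2 hi₀)) ⟨i₀, ?_, ?_⟩
          · exact Finset.mem_filter.2 ⟨Finset.mem_univ _, rfl⟩
          · exact mul_pos (by exact_mod_cast h.m_pos i₀ hi₀) hpos₀
        rw [h.rel (C i₀) (Nat.one_le_iff_ne_zero.2 hi₀) (h.C_le i₀) x] at hW₀
        have hex : ∀ j, 1 ≤ j → j ≤ k → ∃ i, C i = j ∧ 0 < p i x := by
          intro j h1 h2
          have hWj : 0 < ∑ i ∈ Finset.univ.filter (fun i => C i = j), (m i : ℚ) * p i x := by
            rw [h.rel j h1 h2 x]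
            exact hW₀
          by_contra hcon
          push Not at hcon
          have h3 : ∑ i ∈ Finset.univ.filter (fun i => C i = j), (m i : ℚ) * p i x ≤ 0 := by
            refine Finset.sum_nonpos fun i hi => ?_
            simp only [Finset.mem_filter, Finset.mem_univ, true_and] at hi
            exact mul_nonpos_of_nonneg_of_nonpos (Nat.cast_nonneg _) (hcon i hi)
          exact absurd hWj (not_lt.2 h3)
        have : Nonempty (Fin M) := ⟨i₀⟩
        choose! t ht using hex
        have ht1 : ∀ j, 1 ≤ j → j ≤ k → C (t j) = j := fun j h1 h2 => (ht j h1 h2).1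
        have ht2 : ∀ j, 1 ≤ j → j ≤ k → 0 < p (t j) x := fun j h1 h2 => (ht j h1 h2).2
        obtain ⟨u, huS, hu1, hu2⟩ := h.edge t ht1
        obtain ⟨j₀, hj₀, hmin⟩ := Finset.exists_min_image (Finset.Icc 1 k)
          (fun j => p (t j) x / p (t j) u) ⟨1, Finset.mem_Icc.2 ⟨le_rfl, h.k_pos⟩⟩
        rw [Finset.mem_Icc] at hj₀
        obtain ⟨τ, hτ⟩ : ∃ τ : ℚ, τ = p (t j₀) x / p (t j₀) u := ⟨_, rfl⟩
        have hτ0 : 0 ≤ τ := by
          rw [hτ]
          exact (div_pos (ht2 j₀ hj₀.1 hj₀.2) (hu2 j₀ hj₀.1 hj₀.2)).le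
        have hpx : ∀ i, p i (x - τ • u) = p i x - τ * p i u := by
          intro i
          rw [map_sub, map_smul, smul_eq_mul]
        have hother : ∀ i, C i ≠ 0 → (∀ j, 1 ≤ j → j ≤ k → i ≠ t j) →
            p i (x - τ • u) = p i x := by
          intro i hi hij
          rw [hpx, hu1 i hi hij, mul_zero, sub_zero]
        have htj : ∀ j, 1 ≤ j → j ≤ k → 0 ≤ p (t j) (x - τ • u) := by
          intro j h1 h2
          have h3 := hmin j (Finset.mem_Icc.2 ⟨h1, h2⟩)
          rw [← hτ, le_div_iff₀ (hu2 j h1 h2)] at h3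
          rw [hpx]
          linarith
        have hj0 : p (t j₀) (x - τ • u) = 0 := by
          rw [hpx, hτ, div_mul_cancel₀ _ (hu2 j₀ hj₀.1 hj₀.2).ne', sub_self]
        have hx' : ∀ i, p i v = 0 → 0 ≤ p i (x - τ • u) := by
          intro i hi
          have hCi : C i ≠ 0 := fun h5 => (h.C_zero i).1 h5 hi
          by_cases h4 : ∃ j, 1 ≤ j ∧ j ≤ k ∧ i = t j
          · obtain ⟨j, h1, h2, rfl⟩ := h4
            exact htj j h1 h2
          · push Not at h4
            rw [hother i hCi h4]
            exact hx i hi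
        have hlt : (Finset.univ.filter (fun i => C i ≠ 0 ∧ p i (x - τ • u) ≠ 0)).card <
            (Finset.univ.filter (fun i => C i ≠ 0 ∧ p i x ≠ 0)).card := by
          refine Finset.card_lt_card ⟨?_, ?_⟩
          · intro i hi
            simp only [Finset.mem_filter, Finset.mem_univ, true_and] at hi ⊢
            refine ⟨hi.1, fun h5 => hi.2 ?_⟩
            have h6 : ∀ j, 1 ≤ j → j ≤ k → i ≠ t j := by
              intro j h1 h2 h7
              have h8 := ht2 j h1 h2
              rw [← h7, h5] at h8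
              exact lt_irrefl _ h8
            rw [hother i hi.1 h6, h5]
          · intro hsub
            have h6 : t j₀ ∈ Finset.univ.filter (fun i => C i ≠ 0 ∧ p i x ≠ 0) := by
              simp only [Finset.mem_filter, Finset.mem_univ, true_and]
              refine ⟨?_, (ht2 j₀ hj₀.1 hj₀.2).ne'⟩
              rw [ht1 j₀ hj₀.1 hj₀.2]
              omega
            have h7 := hsub h6
            simp only [Finset.mem_filter, Finset.mem_univ, true_and] at h7
            exact h7.2 hj0
        have hfin := ih (x - τ • u) hx' (by omega)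
        have hsum : φ x = φ (x - τ • u) + τ * φ u := by
          rw [map_sub, map_smul, smul_eq_mul]
          ring
        rw [hsum]
        exact add_nonneg hfin (mul_nonneg hτ0 (hφ u huS))
  exact main _ x hx le_rfl

end Pool.Agent.RFN
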