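import Mathlib
import Pool.Agent.Lib.MP_dcc566_gt_R.FvA2

/-!
# Polyhedral cones with a complete list of vertices
-/

set_option autoImplicit false

namespace Pool.Agent.RFN

open Module

variable {V : Type} [AddCommGroup V] [Module ℚ V] [FiniteDimensional ℚ V] {M : ℕ}

/-- A cone with a complete list of rays.

PROOF.  `ψ = ∑ i, p i`: `ψ s > 0` for `s ∈ S` (`hS`, `hsep`, `s ≠ 0`).  Let `v ∈ S` minimize `φ s / ψ s` over the finite nonempty set `S`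
(`Set.exists_min_image`), `c = φ v / ψ v ≥ 0`, `φ' = φ - c ψ`: `φ' ≥ 0` on `S`, `φ' v = 0`.  `local_cone` at `v`: `φ' x ≥ 0`, so `φ x ≥ c ψ x ≥ 0`. -/
theorem global_cone {p : Fin M → V →ₗ[ℚ] ℚ} {S : Set V} (hfin : S.Finite) (hne : S.Nonempty)
    (hS : ∀ s ∈ S, s ≠ 0 ∧ ∀ i, 0 ≤ p i s) (hsep : ∀ x : V, (∀ i, p i x = 0) → x = 0)
    (hloc : ∀ s ∈ S, ∃ k C m, LocalOK p S s k C m) {φ : V →ₗ[ℚ] ℚ} (hφ : ∀ s ∈ S, 0 ≤ φ s)
    {x : V} (hx : ∀ i, 0 ≤ p i x) : 0 ≤ φ x := by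
  obtain ⟨ψ, hψd⟩ : ∃ ψ : V →ₗ[ℚ] ℚ, ψ = ∑ i, p i := ⟨_, rfl⟩
  have hψ : ∀ x, ψ x = ∑ i, p i x := by
    intro x
    rw [hψd, LinearMap.sum_apply]
  have hψpos : ∀ s ∈ S, 0 < ψ s := by
    intro s hs
    rw [hψ]
    have h0 : 0 ≤ ∑ i, p i s := Finset.sum_nonneg fun i _ => (hS s hs).2 i
    refine lt_of_le_of_ne h0 fun h => (hS s hs).1 (hsep s fun i => ?_)
    exact (Finset.sum_eq_zero_iff_of_nonneg fun i _ => (hS s hs).2 i).1 h.symm i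
      (Finset.mem_univ i)
  obtain ⟨v, hv, hvmin⟩ := Set.exists_min_image S (fun s => φ s / ψ s) hfin hne
  obtain ⟨c, hc⟩ : ∃ c, c = φ v / ψ v := ⟨_, rfl⟩
  have hc0 : 0 ≤ c := by
    rw [hc]
    exact div_nonneg (hφ v hv) (hψpos v hv).le
  obtain ⟨k, C, m, hok⟩ := hloc v hv
  have h1 : ∀ s ∈ S, 0 ≤ (φ - c • ψ) s := by
    intro s hs
    have h2 := hvmin s hs
    rw [LinearMap.sub_apply, LinearMap.smul_apply, smul_eq_mul, sub_nonneg, hc]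
    exact (le_div_iff₀ (hψpos s hs)).1 h2
  have h2 : (φ - c • ψ) v = 0 := by
    rw [LinearMap.sub_apply, LinearMap.smul_apply, smul_eq_mul, hc,
      div_mul_cancel₀ _ (hψpos v hv).ne', sub_self]
  have h3 := local_cone hok (hS v hv).1 h1 h2 (x := x) (fun i _ => hx i)
  rw [LinearMap.sub_apply, LinearMap.smul_apply, smul_eq_mul] at h3
  have h4 : 0 ≤ ψ x := by
    rw [hψ]
    exact Finset.sum_nonneg fun i _ => hx i
  have h5 := mul_nonneg hc0 h4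
  linarith

end Pool.Agent.RFN
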