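import Mathlib

/-!
# Rational quadratic spaces and even lattices: definitions of the classification `n = 19`

`V` is a rational vector space, a form is `V →ₗ[ℚ] V →ₗ[ℚ] ℚ`, a lattice is an additive subgroup.
-/

set_option autoImplicit false

namespace Pool.Agent.RFN

open Module

/-- A bilinear form on a rational vector space. -/
abbrev Frm (V : Type) [AddCommGroup V] [Module ℚ V] : Type := V →ₗ[ℚ] V →ₗ[ℚ] ℚ

/-- `q` is an integer. -/
def IsZ (q : ℚ) : Prop := ∃ n : ℤ, q = n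

/-- `q` is an integral multiple of `k`. -/
def Dv (k : ℤ) (q : ℚ) : Prop := ∃ n : ℤ, q = k * n

section

variable {V : Type} [AddCommGroup V] [Module ℚ V]

/-- A symmetric nondegenerate form. -/
structure Nd (B : Frm V) : Prop where
  symm : ∀ x y, B x y = B y x
  nd : ∀ x, (∀ y, B x y = 0) → x = 0

/-- A positive definite symmetric form. -/
structure Pd (B : Frm V) : Prop where
  symm : ∀ x y, B x y = B y x
  pos : ∀ x, x ≠ 0 → 0 < B x x

/-- Signature `(n, 1)`: some vector has negative norm and the form is positive definite on its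
orthogonal complement. -/
def Hyp (B : Frm V) : Prop := (∀ x y, B x y = B y x) ∧
  ∃ p : V, B p p < 0 ∧ ∀ v, B v p = 0 → v ≠ 0 → 0 < B v v

/-- `L` is even for `B`. -/
def EvL (B : Frm V) (L : AddSubgroup V) : Prop := ∀ x ∈ L, Dv 2 (B x x)

/-- `L` spans `V`. -/
def FullL (L : AddSubgroup V) : Prop := ∀ v : V, ∃ n : ℕ, 0 < n ∧ (n : ℚ) • v ∈ L

/-- A maximal even lattice. -/
structure MaxE (B : Frm V) (L : AddSubgroup V) : Prop where
  even : EvL B L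
  full : FullL L
  max : ∀ x, (∀ y ∈ L, IsZ (B x y)) → Dv 2 (B x x) → x ∈ L

/-- `φ` is an isometry. -/
def IsIso {V' : Type} [AddCommGroup V'] [Module ℚ V'] (B : Frm V) (B' : Frm V')
    (φ : V ≃ₗ[ℚ] V') : Prop := ∀ x y, B' (φ x) (φ y) = B x y

/-- `φ` maps `L` onto `L'`. -/
def MapsL {V' : Type} [AddCommGroup V'] [Module ℚ V'] (φ : V ≃ₗ[ℚ] V') (L : AddSubgroup V)
    (L' : AddSubgroup V') : Prop := ∀ x, φ x ∈ L' ↔ x ∈ L

/-- `X` is invariant under the isometry group of the lattice `L`. -/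
def Inv (B : Frm V) (L X : AddSubgroup V) : Prop :=
  ∀ g : V ≃ₗ[ℚ] V, IsIso B B g → MapsL g L L → MapsL g X X

/-- Minimality of an even lattice among the lattices invariant under its isometry group:
`m1`: no invariant even overlattice; `mp`: an invariant overlattice `X` on which `p B` is even has
index at most `p^{n/2}`. -/
structure MinL (B : Frm V) (L : AddSubgroup V) : Prop where
  even : EvL B L
  full : FullL L
  m1 : ∀ X : AddSubgroup V, L ≤ X → Inv B L X → EvL B X → X = L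
  mp : ∀ p : ℕ, p.Prime → ∀ X : AddSubgroup V, L ≤ X → Inv B L X →
    (∀ x ∈ X, Dv 2 ((p : ℚ) * B x x)) → (L.relIndex X) ^ 2 ≤ p ^ (finrank ℚ V)

/-- A bad cusp, formulated with the reflections which preserve `L`. -/
def BadR (B : Frm V) (L : AddSubgroup V) : Prop :=
  ∃ e t : V, e ≠ 0 ∧ B e e = 0 ∧ B t e = 0 ∧ 0 < B t t ∧
    ∀ r : V, 0 < B r r → (∀ x ∈ L, x - (2 * B r x / B r r) • r ∈ L) → B r e = 0 → B r t = 0

/-- A bad cusp of an even lattice, formulated with its roots. -/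
def BadE (B : Frm V) (L : AddSubgroup V) : Prop :=
  ∃ e t : V, e ≠ 0 ∧ B e e = 0 ∧ B t e = 0 ∧ 0 < B t t ∧
    ∀ r ∈ L, ∀ κ : ℤ, 0 < κ → B r r = 2 * κ → (∀ x ∈ L, Dv κ (B r x)) → B r e = 0 → B r t = 0

/-- A bad cusp which splits off a hyperbolic plane: `e, f` are isotropic, `(e, f) = 1`. -/
def BadS (B : Frm V) (L : AddSubgroup V) : Prop :=
  ∃ e ∈ L, ∃ f ∈ L, ∃ t : V, B e e = 0 ∧ B f f = 0 ∧ B e f = 1 ∧ B t e = 0 ∧ 0 < B t t ∧
    ∀ r ∈ L, ∀ κ : ℤ, 0 < κ → B r r = 2 * κ → (∀ x ∈ L, Dv κ (B r x)) → B r e = 0 → B r t = 0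

/-- `f 0, ..., f (j-1)` is a totally singular family of `Λ` modulo `p`, linearly independent modulo
the radical of `Λ/pΛ`. -/
structure TS (B : Frm V) (Λ : AddSubgroup V) (p j : ℕ) (f : ℕ → V) : Prop where
  mem : ∀ i < j, f i ∈ Λ
  pair : ∀ i < j, ∀ k < j, Dv p (B (f i) (f k))
  norm : ∀ i < j, Dv (2 * p) (B (f i) (f i))
  ind : ∀ c : ℕ → ℤ, (∀ x ∈ Λ, Dv p (B (∑ i ∈ Finset.range j, (c i : ℚ) • f i) x)) →
    ∀ i < j, (p : ℤ) ∣ c i

/-- The form of `Λ` modulo `p` has rank at least `r`: there are `r` vectors of `Λ` independent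
modulo the radical. -/
def RkGe (B : Frm V) (Λ : AddSubgroup V) (p r : ℕ) : Prop :=
  ∃ u : ℕ → V, (∀ i < r, u i ∈ Λ) ∧
    ∀ c : ℕ → ℤ, (∀ x ∈ Λ, Dv p (B (∑ i ∈ Finset.range r, (c i : ℚ) • u i) x)) →
      ∀ i < r, (p : ℤ) ∣ c i

theorem Dv.add {k : ℤ} {a b : ℚ} (ha : Dv k a) (hb : Dv k b) : Dv k (a + b) := by
  obtain ⟨m, rfl⟩ := ha
  obtain ⟨n, rfl⟩ := hb
  exact ⟨m + n, by push_cast; ring⟩

theorem Dv.neg {k : ℤ} {a : ℚ} (ha : Dv k a) : Dv k (-a) := by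
  obtain ⟨m, rfl⟩ := ha
  exact ⟨-m, by push_cast; ring⟩

theorem Dv.zero (k : ℤ) : Dv k 0 := ⟨0, by simp⟩

/-- The vectors of `Λ` orthogonal modulo `p` to `f p 0, ..., f p (j p - 1)` for all `p ∈ S`. -/
def Cut (B : Frm V) (Λ : AddSubgroup V) (S : Finset ℕ) (j : ℕ → ℕ) (f : ℕ → ℕ → V) :
    AddSubgroup V where
  carrier := {x | x ∈ Λ ∧ ∀ p ∈ S, ∀ i < j p, Dv p (B (f p i) x)}
  add_mem' := fun {a b} ha hb => ⟨Λ.add_mem ha.1 hb.1, fun p hp i hi => by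
    rw [map_add]; exact (ha.2 p hp i hi).add (hb.2 p hp i hi)⟩
  zero_mem' := ⟨Λ.zero_mem, fun p _ i _ => by rw [map_zero]; exact Dv.zero _⟩
  neg_mem' := fun {a} ha => ⟨Λ.neg_mem ha.1, fun p hp i hi => by
    rw [map_neg]; exact (ha.2 p hp i hi).neg⟩

/-- `Λ` has totally singular families of `i p` vectors, `p ∈ S`, such that the lattice cut out by
them has a split bad cusp. -/
def Conf (B : Frm V) (Λ : AddSubgroup V) (S : Finset ℕ) (i : ℕ → ℕ) : Prop :=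
  ∃ f : ℕ → ℕ → V, (∀ p ∈ S, TS B Λ p (i p) (f p)) ∧ BadS B (Cut B Λ S i f)

end

section models

/-- The form on `ℚ^k` with integral Gram matrix `C`. -/
noncomputable def mF {k : ℕ} (C : Matrix (Fin k) (Fin k) ℤ) : Frm (Fin k → ℚ) :=
  Matrix.toLinearMap₂' ℚ (C.map (Int.cast : ℤ → ℚ))

/-- The lattice `ℤ^k` in `ℚ^k`. -/
def Zk (k : ℕ) : AddSubgroup (Fin k → ℚ) where
  carrier := {x | ∃ u : Fin k → ℤ, x = fun i => (u i : ℚ)}
  add_mem' := by
    rintro _ _ ⟨u, rfl⟩ ⟨v, rfl⟩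
    exact ⟨u + v, by funext i; simp⟩
  zero_mem' := ⟨0, by funext i; simp⟩
  neg_mem' := by
    rintro _ ⟨u, rfl⟩
    exact ⟨-u, by funext i; simp⟩

/-- The hyperbolic plane. -/
noncomputable def HF : Frm (ℚ × ℚ) :=
  LinearMap.mk₂ ℚ (fun x y => x.1 * y.2 + x.2 * y.1) (by intros; simp; ring)
    (by intros; simp; ring) (by intros; simp; ring) (by intros; simp; ring)

/-- The lattice `ℤ²` in the hyperbolic plane. -/
def ZZ : AddSubgroup (ℚ × ℚ) where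
  carrier := {x | IsZ x.1 ∧ IsZ x.2}
  add_mem' := by
    rintro ⟨a, b⟩ ⟨c, d⟩ ⟨⟨m, hm⟩, ⟨n, hn⟩⟩ ⟨⟨m', hm'⟩, ⟨n', hn'⟩⟩
    simp only at hm hn hm' hn'
    subst hm hn hm' hn'
    exact ⟨⟨m + m', by push_cast; rfl⟩, ⟨n + n', by push_cast; rfl⟩⟩
  zero_mem' := ⟨⟨0, by simp⟩, ⟨0, by simp⟩⟩
  neg_mem' := by
    rintro ⟨a, b⟩ ⟨⟨m, hm⟩, ⟨n, hn⟩⟩
    simp only at hm hn
    subst hm hn
    exact ⟨⟨-m, by push_cast; rfl⟩, ⟨-n, by push_cast; rfl⟩⟩

variable {V₁ V₂ : Type} [AddCommGroup V₁] [Module ℚ V₁] [AddCommGroup V₂] [Module ℚ V₂]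

/-- The orthogonal sum of two forms. -/
noncomputable def sF (B₁ : Frm V₁) (B₂ : Frm V₂) : Frm (V₁ × V₂) :=
  LinearMap.mk₂ ℚ (fun x y => B₁ x.1 y.1 + B₂ x.2 y.2) (by intros; simp; ring)
    (by intros; simp; ring) (by intros; simp; ring) (by intros; simp; ring)

theorem sF_apply (B₁ : Frm V₁) (B₂ : Frm V₂) (x y : V₁ × V₂) :
    sF B₁ B₂ x y = B₁ x.1 y.1 + B₂ x.2 y.2 := rfl

theorem HF_apply (x y : ℚ × ℚ) : HF x y = x.1 * y.2 + x.2 * y.1 := rfl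

theorem mF_apply {k : ℕ} (C : Matrix (Fin k) (Fin k) ℤ) (x y : Fin k → ℚ) :
    mF C x y = ∑ i, ∑ j, x i * (C i j : ℚ) * y j := by
  simp [mF, Matrix.toLinearMap₂'_apply, mul_comm, mul_left_comm]

/-- The `E₈` form. -/
noncomputable abbrev F8 : Frm (Fin 8 → ℚ) := mF CartanMatrix.E₈

/-- The space `U ⊕ E₈ ⊕ X`. -/
abbrev PV (X : Type) : Type := (ℚ × ℚ) × ((Fin 8 → ℚ) × X)

variable {X : Type} [AddCommGroup X] [Module ℚ X]

/-- The form of `U ⊕ E₈ ⊕ X`. -/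
noncomputable abbrev PF (BX : Frm X) : Frm (PV X) := sF HF (sF F8 BX)

/-- The lattice `U ⊕ E₈ ⊕ N`. -/
abbrev PL (N : AddSubgroup X) : AddSubgroup (PV X) := ZZ.prod ((Zk 8).prod N)

end models

end Pool.Agent.RFN
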