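import Mathlib
import Pool.Agent.Lib.MP_dcc566_gt_R.Defs
import Pool.Agent.Lib.MP_dcc566_gt.E8C
import Pool.Agent.Lib.MP_dcc566_gt.Cusp

/-!
# Basic lemmas for the bad configurations
-/

set_option autoImplicit false

namespace Pool.Agent.RFN

open MP_dcc566_gt (bf)

section arith

theorem Dv_int {k n : ℤ} : Dv k (n : ℚ) ↔ k ∣ n := by
  constructor
  · rintro ⟨m, hm⟩
    exact ⟨m, by exact_mod_cast hm⟩
  · rintro ⟨m, rfl⟩
    exact ⟨m, by push_cast; ring⟩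

theorem Dv.sub {k : ℤ} {a b : ℚ} (ha : Dv k a) (hb : Dv k b) : Dv k (a - b) := by
  rw [sub_eq_add_neg]
  exact ha.add hb.neg

theorem Dv.mul_int {k : ℤ} {a : ℚ} (ha : Dv k a) (m : ℤ) : Dv k ((m : ℚ) * a) := by
  obtain ⟨n, rfl⟩ := ha
  exact ⟨m * n, by push_cast; ring⟩

theorem Dv.self_mul (k m : ℤ) : Dv k ((k : ℚ) * m) := ⟨m, rfl⟩

theorem Dv.mul_left {k : ℤ} {a : ℚ} (m : ℤ) (ha : Dv k a) : Dv (m * k) ((m : ℚ) * a) := by
  obtain ⟨n, rfl⟩ := ha
  exact ⟨n, by push_cast; ring⟩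

theorem Dv.of_mul {m k : ℤ} (hm : m ≠ 0) {a : ℚ} (ha : Dv (m * k) ((m : ℚ) * a)) : Dv k a := by
  obtain ⟨n, hn⟩ := ha
  refine ⟨n, ?_⟩
  have hm' : (m : ℚ) ≠ 0 := by exact_mod_cast hm
  have : (m : ℚ) * a = m * (k * n) := by rw [hn]; push_cast; ring
  exact mul_left_cancel₀ hm' this

theorem Dv.of_dvd {k l : ℤ} (h : k ∣ l) {a : ℚ} (ha : Dv l a) : Dv k a := by
  obtain ⟨n, rfl⟩ := ha
  obtain ⟨c, rfl⟩ := h
  exact ⟨c * n, by push_cast; ring⟩

theorem Dv.isZ {k : ℤ} {a : ℚ} (ha : Dv k a) : IsZ a := by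
  obtain ⟨n, rfl⟩ := ha
  exact ⟨k * n, by push_cast; ring⟩

theorem Dv_one {a : ℚ} : Dv 1 a ↔ IsZ a := by
  constructor
  · exact fun h => h.isZ
  · rintro ⟨n, rfl⟩
    exact ⟨n, by simp⟩

theorem IsZ.add {a b : ℚ} (ha : IsZ a) (hb : IsZ b) : IsZ (a + b) := by
  obtain ⟨m, rfl⟩ := ha
  obtain ⟨n, rfl⟩ := hb
  exact ⟨m + n, by push_cast; ring⟩

theorem IsZ.sub {a b : ℚ} (ha : IsZ a) (hb : IsZ b) : IsZ (a - b) := by
  obtain ⟨m, rfl⟩ := ha
  obtain ⟨n, rfl⟩ := hb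
  exact ⟨m - n, by push_cast; ring⟩

theorem IsZ.neg {a : ℚ} (ha : IsZ a) : IsZ (-a) := by
  obtain ⟨m, rfl⟩ := ha
  exact ⟨-m, by push_cast; ring⟩

theorem IsZ.mul {a b : ℚ} (ha : IsZ a) (hb : IsZ b) : IsZ (a * b) := by
  obtain ⟨m, rfl⟩ := ha
  obtain ⟨n, rfl⟩ := hb
  exact ⟨m * n, by push_cast; ring⟩

theorem IsZ.int (n : ℤ) : IsZ (n : ℚ) := ⟨n, rfl⟩

end arith

section vec

variable {k : ℕ}

/-- An integral vector as a rational vector. -/
def cz (u : Fin k → ℤ) : Fin k → ℚ := fun i => (u i : ℚ)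

theorem cz_add (u v : Fin k → ℤ) : cz (u + v) = cz u + cz v := by funext i; simp [cz]
theorem cz_sub (u v : Fin k → ℤ) : cz (u - v) = cz u - cz v := by funext i; simp [cz]
theorem cz_neg (u : Fin k → ℤ) : cz (-u) = -cz u := by funext i; simp [cz]
theorem cz_zero : cz (0 : Fin k → ℤ) = 0 := by funext i; simp [cz]
theorem cz_smul (m : ℤ) (u : Fin k → ℤ) : cz (m • u) = (m : ℚ) • cz u := by funext i; simp [cz]

theorem cz_injective : Function.Injective (cz : (Fin k → ℤ) → (Fin k → ℚ)) := by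
  intro u v h
  funext i
  have := congrFun h i
  simpa [cz] using this

theorem cz_eq_zero {u : Fin k → ℤ} : cz u = 0 ↔ u = 0 := by
  rw [← cz_zero]
  exact cz_injective.eq_iff

theorem mem_Zk {x : Fin k → ℚ} : x ∈ Zk k ↔ ∃ u : Fin k → ℤ, x = cz u := Iff.rfl

theorem cz_mem (u : Fin k → ℤ) : cz u ∈ Zk k := ⟨u, rfl⟩

theorem mF_cz (C : Matrix (Fin k) (Fin k) ℤ) (u v : Fin k → ℤ) :
    mF C (cz u) (cz v) = ((bf C u v : ℤ) : ℚ) := by
  rw [mF_apply, MP_dcc566_gt.bf_eq_sum]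
  push_cast
  rfl

/-- Every rational vector has an integral multiple. -/
theorem exists_cz (x : Fin k → ℚ) : ∃ (n : ℕ) (u : Fin k → ℤ), 0 < n ∧ (n : ℚ) • x = cz u := by
  refine ⟨∏ i, (x i).den, fun i => (∏ j ∈ Finset.univ.erase i, ((x j).den : ℤ)) * (x i).num,
    Finset.prod_pos fun i _ => (x i).den_pos, ?_⟩
  funext i
  have h1 : ((∏ j, (x j).den : ℕ) : ℚ) =
      (x i).den * ∏ j ∈ Finset.univ.erase i, ((x j).den : ℚ) := by
    rw [← Finset.mul_prod_erase Finset.univ _ (Finset.mem_univ i)]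
    push_cast
    rfl
  have h2 : ((x i).den : ℚ) * x i = (x i).num := by
    rw [mul_comm]
    exact Rat.mul_den_eq_num (x i)
  simp only [Pi.smul_apply, smul_eq_mul, cz]
  rw [h1]
  push_cast
  rw [← h2]
  ring

theorem mF_symm {C : Matrix (Fin k) (Fin k) ℤ} (hC : C.IsSymm) (x y : Fin k → ℚ) :
    mF C x y = mF C y x := by
  rw [mF_apply, mF_apply, Finset.sum_comm]
  refine Finset.sum_congr rfl fun i _ => Finset.sum_congr rfl fun j _ => ?_
  rw [show C j i = C i j from hC.apply i j]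
  ring

/-- Positivity over `ℚ` from positivity over `ℤ`. -/
theorem Pd_mF {C : Matrix (Fin k) (Fin k) ℤ} (hC : C.IsSymm)
    (hpos : ∀ u : Fin k → ℤ, u ≠ 0 → 0 < bf C u u) : Pd (mF C) where
  symm := mF_symm hC
  pos := by
    intro x hx
    obtain ⟨n, u, hn, hu⟩ := exists_cz x
    have hn' : (0 : ℚ) < n := by exact_mod_cast hn
    have hu0 : u ≠ 0 := by
      rintro rfl
      rw [cz_zero] at hu
      rcases smul_eq_zero.1 hu with h | h
      · exact hn'.ne' h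
      · exact hx h
    have h1 : mF C ((n : ℚ) • x) ((n : ℚ) • x) = (n : ℚ) * (n * mF C x x) := by
      simp only [map_smul, LinearMap.smul_apply, smul_eq_mul]
    rw [hu, mF_cz] at h1
    have h2 : (0 : ℚ) < ((bf C u u : ℤ) : ℚ) := by exact_mod_cast hpos u hu0
    rw [h1] at h2
    exact (mul_pos_iff_of_pos_left hn').1 ((mul_pos_iff_of_pos_left hn').1 h2)

theorem EvL_mF {C : Matrix (Fin k) (Fin k) ℤ} (h : ∀ u : Fin k → ℤ, Even (bf C u u)) :
    EvL (mF C) (Zk k) := by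
  rintro _ ⟨u, rfl⟩
  obtain ⟨m, hm⟩ := h u
  exact ⟨m, by
    change mF C (cz u) (cz u) = _
    rw [mF_cz, hm]
    push_cast
    ring⟩

theorem Pd_F8 : Pd F8 := Pd_mF CartanMatrix.E₈_isSymm MP_dcc566_gt.E8_pos

theorem EvL_F8 : EvL F8 (Zk 8) := EvL_mF MP_dcc566_gt.E8_even

theorem FullL_Zk : FullL (Zk k) := by
  intro x
  obtain ⟨n, u, hn, hu⟩ := exists_cz x
  exact ⟨n, hn, ⟨u, hu⟩⟩

end vec

section forms

variable {V : Type} [AddCommGroup V] [Module ℚ V] {B : Frm V} {L : AddSubgroup V}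

theorem Pd.nonneg (hB : Pd B) (x : V) : 0 ≤ B x x := by
  by_cases h : x = 0
  · rw [h, map_zero]
  · exact (hB.pos x h).le

theorem Pd.eq_zero (hB : Pd B) {x : V} (h : B x x = 0) : x = 0 := by
  by_contra hx
  exact (hB.pos x hx).ne' h

/-- Expansion of the norm of `a x + b y`. -/
theorem norm_lin (hs : ∀ x y, B x y = B y x) (a b : ℚ) (x y : V) :
    B (a • x + b • y) (a • x + b • y) =
      a ^ 2 * B x x + 2 * a * b * B x y + b ^ 2 * B y y := by
  simp only [map_add, map_smul, LinearMap.add_apply, LinearMap.smul_apply, smul_eq_mul]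
  rw [hs y x]
  ring

theorem norm_sub_lin (hs : ∀ x y, B x y = B y x) (a b : ℚ) (x y : V) :
    B (a • x - b • y) (a • x - b • y) =
      a ^ 2 * B x x - 2 * a * b * B x y + b ^ 2 * B y y := by
  simp only [map_sub, map_smul, LinearMap.sub_apply, LinearMap.smul_apply, smul_eq_mul]
  rw [hs y x]
  ring

/-- Cauchy–Schwarz. -/
theorem Pd.cs (hB : Pd B) (x y : V) : (B x y) ^ 2 ≤ B x x * B y y := by
  by_cases hy : y = 0
  · rw [hy]
    simp
  · have h0 := hB.pos y hy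
    have h1 := hB.nonneg (B y y • x - B x y • y)
    rw [norm_sub_lin hB.symm] at h1
    have h2 : 0 ≤ B y y * (B x x * B y y - (B x y) ^ 2) := by
      nlinarith [h1]
    have h3 := (mul_nonneg_iff_of_pos_left h0).1 h2
    linarith

theorem EvL.isZ (hB : ∀ x y, B x y = B y x) (hL : EvL B L) {x y : V} (hx : x ∈ L) (hy : y ∈ L) :
    IsZ (B x y) := by
  obtain ⟨a, ha⟩ := hL x hx
  obtain ⟨b, hb⟩ := hL y hy
  obtain ⟨c, hc⟩ := hL (x + y) (L.add_mem hx hy)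
  refine ⟨c - a - b, ?_⟩
  have h : B (x + y) (x + y) = B x x + 2 * B x y + B y y := by
    simp only [map_add, LinearMap.add_apply]
    rw [hB y x]
    ring
  rw [hc, ha, hb] at h
  push_cast at h ⊢
  linarith

variable {V' : Type} [AddCommGroup V'] [Module ℚ V'] {B' : Frm V'} {L' : AddSubgroup V'}

theorem Pd.sF (h : Pd B) (h' : Pd B') : Pd (sF B B') where
  symm := by
    intro x y
    rw [sF_apply, sF_apply, h.symm, h'.symm]
  pos := by
    rintro ⟨x, y⟩ hxy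
    rw [sF_apply]
    by_cases hx : x = 0
    · have hy : y ≠ 0 := by
        rintro rfl
        exact hxy (by rw [hx]; rfl)
      have h1 := h.nonneg x
      have h2 := h'.pos y hy
      exact add_pos_of_nonneg_of_pos h1 h2
    · have h1 := h.pos x hx
      have h2 := h'.nonneg y
      exact add_pos_of_pos_of_nonneg h1 h2

theorem EvL.prod (h : EvL B L) (h' : EvL B' L') : EvL (Pool.Agent.RFN.sF B B') (L.prod L') := by
  rintro ⟨x, y⟩ ⟨hx, hy⟩
  rw [sF_apply]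
  exact (h x hx).add (h' y hy)

theorem sF_symm (h : ∀ x y, B x y = B y x) (h' : ∀ x y, B' x y = B' y x) (x y : V × V') :
    sF B B' x y = sF B B' y x := by
  rw [sF_apply, sF_apply, h, h']

theorem HF_symm (x y : ℚ × ℚ) : HF x y = HF y x := by
  rw [HF_apply, HF_apply]
  ring

theorem EvL_HF : EvL HF ZZ := by
  rintro ⟨a, b⟩ ⟨⟨m, hm⟩, ⟨n, hn⟩⟩
  simp only at hm hn
  subst hm hn
  exact ⟨m * n, by rw [HF_apply]; push_cast; ring⟩

end forms

/-- `E₈` is unimodular, rational formulation. -/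
theorem F8_unimod {k : ℤ} {x : Fin 8 → ℚ} (hx : x ∈ Zk 8) (h : ∀ y ∈ Zk 8, Dv k (F8 x y)) :
    ∃ u : Fin 8 → ℤ, x = (k : ℚ) • cz u := by
  obtain ⟨v, rfl⟩ := hx
  obtain ⟨u, hu⟩ := MP_dcc566_gt.E8_unimod (k := k) (u := v) (fun w => by
    have := h (cz w) (cz_mem w)
    rw [show (fun i => ((v i : ℤ) : ℚ)) = cz v from rfl, mF_cz] at this
    exact Dv_int.1 this)
  exact ⟨u, by rw [← cz_smul, ← hu]; rfl⟩

end Pool.Agent.RFN
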