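import Mathlib
import Pool.Agent.Lib.MP_dcc566_gt_R.Bas
import Pool.Agent.Lib.MP_dcc566_gt_P1.Mx
import Pool.Agent.Lib.MP_dcc566_gt.LorA
import Pool.Agent.Lib.MP_dcc566_gt.Fin

/-!
# Roots
-/

set_option autoImplicit false

namespace Pool.Agent.RFN

open Matrix Module
open Pool.Agent.RFL (toR W OZ IsRefl)
open MP_dcc566_gt (rv bf Lor rB)

variable {n M : ℕ} {G : Matrix (Fin n) (Fin n) ℤ}

/-- `e` is a root: a vector of positive norm whose reflection preserves `ℤ^n`. -/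
def Rt (G : Matrix (Fin n) (Fin n) ℤ) (e : Fin n → ℤ) : Prop :=
  0 < bf G e e ∧ ∀ x, bf G e e ∣ 2 * bf G e x

end Pool.Agent.RFN
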