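import Mathlib
import Pool.Agent.Lib.MP_dcc566_gt_R.FvB0

/-!
# Bounded height in the chamber
-/

set_option autoImplicit false

namespace Pool.Agent.RFN

open Matrix Module
open Pool.Agent.RFL (toR W OZ IsRefl)
open MP_dcc566_gt (rv bf Lor rB)

variable {n M : ℕ} {G : Matrix (Fin n) (Fin n) ℤ}

/-- PROOF.  `s ∈ S` is `cz u` with `bf u u ≤ 0`, `bf u q < 0`; `z` is timelike with `bf z q < 0`; so `bf z u < 0` (if `bf u u < 0`: `ALor.trans` with `rv q` in the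
middle; if `bf u u = 0`: `bf z u ≠ 0` by `ALor.iso_ne`, and the sign: otherwise `bf z u > 0`, then `u + t z`.. or use `ALor.trans` for `u' = u + ε q`-like integral
vectors: `u' = N u + q` is timelike with `bf u' q < 0`, so `bf z u' < 0` for all `N ≥ 0`, i.e. `N bf z u < - bf z q` for all `N`, so `bf z u ≤ 0`), hence
`bf z u ≤ -1`.  Let `m` be the maximum over the finite set `S` of `-bf u q` (`≥ 1`).  `φ x = - mF G z x + (1/m) mF G q x` is `≥ 0` on `S`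
(`-bf z u ≥ 1 ≥ (-bf q u)/m`), so by `hcone` `0 ≤ φ (cz z) = - bf z z + bf q z / m`: `-bf z q ≤ m * (- bf z z)`. -/
theorem bounded_of_cone {q : Fin n → ℤ} (hL : Lor G (rv q)) {e : Fin M → Fin n → ℤ}
    {S : Set (Fin n → ℚ)} (hfin : S.Finite)
    (hS : ∀ s ∈ S, ∃ u : Fin n → ℤ, s = cz u ∧ u ≠ 0 ∧ bf G u u ≤ 0 ∧ bf G u q < 0)
    (hcone : ∀ φ : (Fin n → ℚ) →ₗ[ℚ] ℚ, (∀ s ∈ S, 0 ≤ φ s) →
      ∀ x, (∀ i, 0 ≤ mF G (cz (e i)) x) → 0 ≤ φ x) :
    ∃ m : ℤ, ∀ z : Fin n → ℤ, bf G z z < 0 → bf G z q < 0 → (∀ i, 0 ≤ bf G (e i) z) →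
      - bf G z q ≤ m * (- bf G z z) := by
  have hG := hL.symm
  have hA := hL.alor
  have hqq : bf G q q < 0 := by
    have h := hL.neg
    rw [MP_dcc566_gt.rB_rv] at h
    exact_mod_cast h
  have key : ∀ z u : Fin n → ℤ, bf G z z < 0 → bf G z q < 0 → u ≠ 0 → bf G u u ≤ 0 →
      bf G u q < 0 → bf G z u ≤ -1 := by
    intro z u hzz hzq hu huu huq
    have hz' : rB G (rv z) (rv z) < 0 := by rw [MP_dcc566_gt.rB_rv]; exact_mod_cast hzz
    have hne : bf G z u ≠ 0 := by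
      intro h0
      have h1 : rB G (rv u) (rv z) = 0 := by
        rw [MP_dcc566_gt.rB_rv, MP_dcc566_gt.bf_comm G hG u z, h0]
        simp
      have hu' : rv u ≠ 0 := by
        intro h
        rw [← MP_dcc566_gt.rv_zero] at h
        exact hu (MP_dcc566_gt.rv_injective h)
      have h2 := hA.pos' hz' h1 hu'
      rw [MP_dcc566_gt.rB_rv] at h2
      have h3 : 0 < bf G u u := by exact_mod_cast h2
      omega
    have hle : bf G z u ≤ 0 := by
      by_contra hcon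
      rw [not_le] at hcon
      set N : ℤ := - bf G z q with hN
      have hN0 : 0 < N := by omega
      have hu'u' : bf G (N • u + q) (N • u + q) < 0 := by
        rw [MP_dcc566_gt.bf_add_left, MP_dcc566_gt.bf_add_right, MP_dcc566_gt.bf_add_right,
          MP_dcc566_gt.bf_smul_left, MP_dcc566_gt.bf_smul_left, MP_dcc566_gt.bf_smul_right,
          MP_dcc566_gt.bf_smul_right, MP_dcc566_gt.bf_comm G hG q u]
        have h1 : N * (N * bf G u u) ≤ 0 :=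
          mul_nonpos_of_nonneg_of_nonpos hN0.le (mul_nonpos_of_nonneg_of_nonpos hN0.le huu)
        have h2 : N * bf G u q < 0 := mul_neg_of_pos_of_neg hN0 huq
        linarith
      have hqu' : bf G q (N • u + q) < 0 := by
        rw [MP_dcc566_gt.bf_add_right, MP_dcc566_gt.bf_smul_right,
          MP_dcc566_gt.bf_comm G hG q u]
        have h2 : N * bf G u q < 0 := mul_neg_of_pos_of_neg hN0 huq
        linarith
      have h3 : rB G (rv z) (rv (N • u + q)) < 0 :=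
        hA.trans hz' (y := rv q) (by rw [MP_dcc566_gt.rB_rv]; exact_mod_cast hqq)
          (by rw [MP_dcc566_gt.rB_rv]; exact_mod_cast hu'u') (by rw [MP_dcc566_gt.rB_rv]; exact_mod_cast hzq)
          (by rw [MP_dcc566_gt.rB_rv]; exact_mod_cast hqu')
      rw [MP_dcc566_gt.rB_rv] at h3
      have h4 : bf G z (N • u + q) < 0 := by exact_mod_cast h3
      rw [MP_dcc566_gt.bf_add_right, MP_dcc566_gt.bf_smul_right] at h4
      have h5 : N * 1 ≤ N * bf G z u := mul_le_mul_of_nonneg_left (by omega) hN0.le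
      linarith
    omega
  obtain ⟨m₀, hm₀⟩ := (hfin.image fun s => - mF G s (cz q)).bddAbove
  obtain ⟨m, hm1, hm⟩ : ∃ m : ℤ, 1 ≤ m ∧ m₀ ≤ m :=
    ⟨max 1 ⌈m₀⌉, le_max_left _ _, (Int.le_ceil m₀).trans (by
      exact_mod_cast le_max_right (1 : ℤ) ⌈m₀⌉)⟩
  refine ⟨m, fun z hzz hzq hze => ?_⟩
  have hmQ : (0 : ℚ) < m := by exact_mod_cast (by omega : 0 < m)
  have h := hcone (-(mF G (cz z)) + (m : ℚ)⁻¹ • mF G (cz q)) (fun s hs => by
    obtain ⟨u, rfl, hu, huu, huq⟩ := hS s hs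
    have h1 := key z u hzz hzq hu huu huq
    have h2 : - mF G (cz u) (cz q) ≤ m₀ := hm₀ ⟨cz u, hs, rfl⟩
    rw [mF_cz] at h2
    simp only [LinearMap.add_apply, LinearMap.neg_apply, LinearMap.smul_apply, smul_eq_mul]
    rw [mF_cz, mF_cz, MP_dcc566_gt.bf_comm G hG q u]
    have h3 : ((bf G z u : ℤ) : ℚ) ≤ -1 := by exact_mod_cast h1
    have h4 : -(m : ℚ) ≤ ((bf G u q : ℤ) : ℚ) := by linarith
    have h5 : (m : ℚ)⁻¹ * (-(m : ℚ)) ≤ (m : ℚ)⁻¹ * ((bf G u q : ℤ) : ℚ) :=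
      mul_le_mul_of_nonneg_left h4 (inv_nonneg.2 hmQ.le)
    have h6 : (m : ℚ)⁻¹ * (-(m : ℚ)) = -1 := by
      rw [mul_neg, inv_mul_cancel₀ hmQ.ne']
    linarith) (cz z) (fun i => by
      rw [mF_cz]
      exact_mod_cast hze i)
  simp only [LinearMap.add_apply, LinearMap.neg_apply, LinearMap.smul_apply, smul_eq_mul] at h
  rw [mF_cz, mF_cz, MP_dcc566_gt.bf_comm G hG q z] at h
  have h1 : 0 ≤ (m : ℚ) * (-((bf G z z : ℤ) : ℚ) + (m : ℚ)⁻¹ * ((bf G z q : ℤ) : ℚ)) :=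
    mul_nonneg hmQ.le h
  have h2 : (m : ℚ) * (-((bf G z z : ℤ) : ℚ) + (m : ℚ)⁻¹ * ((bf G z q : ℤ) : ℚ)) =
      (m : ℚ) * (-((bf G z z : ℤ) : ℚ)) + ((bf G z q : ℤ) : ℚ) := by
    rw [mul_add, ← mul_assoc, mul_inv_cancel₀ hmQ.ne', one_mul]
  rw [h2] at h1
  have h3 : (-((bf G z q : ℤ) : ℚ)) ≤ (m : ℚ) * (-((bf G z z : ℤ) : ℚ)) := by linarith
  exact_mod_cast h3

end Pool.Agent.RFN
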