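import Mathlib
import Pool.Agent.Lib.MP_dcc566_gt_R.FvB0

/-!
# Reflections as elements of the reflection group
-/

set_option autoImplicit false

namespace Pool.Agent.RFN

open Matrix Module
open Pool.Agent.RFL (toR W OZ IsRefl)
open MP_dcc566_gt (rv bf Lor rB)

variable {n M : ℕ} {G : Matrix (Fin n) (Fin n) ℤ}

private theorem FvB1_mulVec {R : Type} [CommRing R] (e c x : Fin n → R) :
    (1 - vecMulVec e c) *ᵥ x = x - (c ⬝ᵥ x) • e := by
  rw [sub_mulVec, one_mulVec]
  congr 1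
  ext i
  simp only [mulVec, dotProduct, vecMulVec_apply, Pi.smul_apply, smul_eq_mul, Finset.sum_mul]
  refine Finset.sum_congr rfl fun j _ => ?_
  ring

private theorem FvB1_sq (e c : Fin n → ℤ) (h : c ⬝ᵥ e = 2) :
    (1 - vecMulVec e c) * (1 - vecMulVec e c) = 1 := by
  apply Matrix.ext_of_mulVec_single
  intro i
  rw [← mulVec_mulVec, FvB1_mulVec, FvB1_mulVec, one_mulVec, dotProduct_sub, dotProduct_smul, h,
    smul_eq_mul]
  ext j
  simp only [Pi.sub_apply, Pi.smul_apply, smul_eq_mul]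
  ring

private theorem FvB1_iso (hG : G.IsSymm) {e c : Fin n → ℤ} (h0 : bf G e e ≠ 0)
    (hc : ∀ x, bf G e e * (c ⬝ᵥ x) = 2 * bf G e x) :
    (1 - vecMulVec e c)ᵀ * G * (1 - vecMulVec e c) = G := by
  have key : ∀ x y : Fin n → ℤ, bf G ((1 - vecMulVec e c) *ᵥ x) ((1 - vecMulVec e c) *ᵥ y) =
      bf G x y := by
    intro x y
    rw [FvB1_mulVec, FvB1_mulVec]
    apply mul_left_cancel₀ h0
    rw [MP_dcc566_gt.bf_sub_left, MP_dcc566_gt.bf_sub_right, MP_dcc566_gt.bf_sub_right,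
      MP_dcc566_gt.bf_smul_left, MP_dcc566_gt.bf_smul_left, MP_dcc566_gt.bf_smul_right,
      MP_dcc566_gt.bf_smul_right, MP_dcc566_gt.bf_comm G hG x e]
    have h1 := hc x
    have h2 := hc y
    linear_combination (c ⬝ᵥ y * bf G e e) * h1 + bf G e x * h2 - bf G e y * h1
  ext i j
  have := key (Pi.single i 1) (Pi.single j 1)
  have h3 : ∀ x y : Fin n → ℤ, bf G ((1 - vecMulVec e c) *ᵥ x) ((1 - vecMulVec e c) *ᵥ y) =
      x ⬝ᵥ (((1 - vecMulVec e c)ᵀ * G * (1 - vecMulVec e c)) *ᵥ y) := by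
    intro x y
    rw [bf, Matrix.mul_assoc, ← mulVec_mulVec, dotProduct_mulVec x,
      vecMul_transpose, ← mulVec_mulVec]
  rw [h3, bf] at this
  simpa using this

/-- The reflection in a root, as an element of `W G`.

PROOF.  Let `c x = 2 * bf G e x / bf G e e` (exact division), an additive function `ℤ^n → ℤ`.  The integral matrix `A` with
`A *ᵥ x = x - c x • e` (columns: images of the standard basis) satisfies `A * A = 1` (`c e = 2`) and `Aᵀ * G * A = G`; so it defines elements of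
`GL (Fin n) ℤ` and `GL (Fin n) ℝ` (`Matrix.GeneralLinearGroup.map`), in `OZ G`, and `IsRefl (toR G) g (rv e)`: on real vectors
`g x = x - (2 bl e x / bl e e) e` by linearity (both sides linear in `x`, equal on the standard basis).  So `g ∈ W G` (`Subgroup.subset_closure`). -/
theorem exists_refl_mem (hG : G.IsSymm) {e : Fin n → ℤ} (he : Rt G e) :
    ∃ g ∈ W G, ∀ x : Fin n → ℤ, ∃ c : ℤ, c * bf G e e = 2 * bf G e x ∧
      g.val *ᵥ (rv x) = rv (x - c • e) := by
  obtain ⟨hpos, hdv⟩ := he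
  have h0 : bf G e e ≠ 0 := hpos.ne'
  choose c' hc' using fun j : Fin n => hdv (Pi.single j 1)
  have hvec : ∀ j, (e ᵥ* G) j = bf G e (Pi.single j 1) := by
    intro j
    rw [bf, dotProduct_mulVec]
    simp
  have hc : ∀ x, bf G e e * (c' ⬝ᵥ x) = 2 * bf G e x := by
    intro x
    rw [bf, bf, dotProduct_mulVec, dotProduct_mulVec]
    have h1 : bf G e e • c' = (2 : ℤ) • (e ᵥ* G) := by
      ext j
      rw [Pi.smul_apply, Pi.smul_apply, smul_eq_mul, smul_eq_mul, hvec, hc']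
    rw [← dotProduct_mulVec, ← bf, ← smul_eq_mul, ← smul_dotProduct, h1, smul_dotProduct,
      smul_eq_mul]
  have hce : c' ⬝ᵥ e = 2 := by
    have := hc e
    rw [mul_comm 2] at this
    exact mul_left_cancel₀ h0 this
  have hsq := FvB1_sq e c' hce
  have hiso := FvB1_iso hG h0 hc
  let AZ : GL (Fin n) ℤ := ⟨1 - vecMulVec e c', 1 - vecMulVec e c', hsq, hsq⟩
  let g : GL (Fin n) ℝ := Matrix.GeneralLinearGroup.map (n := Fin n) (Int.castRingHom ℝ) AZ
  have hgv : g.val = toR (1 - vecMulVec e c') := rfl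
  have hgv2 : g.val = 1 - vecMulVec (rv e) (rv c') := by
    rw [hgv]
    ext i j
    have h7 : (1 : Matrix (Fin n) (Fin n) ℝ) i j =
        (((1 : Matrix (Fin n) (Fin n) ℤ) i j : ℤ) : ℝ) := by
      rw [Matrix.one_apply, Matrix.one_apply]
      split_ifs <;> simp
    simp only [toR, Matrix.map_apply, Matrix.sub_apply, vecMulVec_apply, rv, h7]
    push_cast
    ring
  have hbl : Pool.Agent.RFL.bl (toR G) (rv e) (rv e) = ((bf G e e : ℤ) : ℝ) := by
    simp [Pool.Agent.RFL.bl, bf, toR, rv, mulVec, dotProduct]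
  have hposR : (0 : ℝ) < ((bf G e e : ℤ) : ℝ) := by exact_mod_cast hpos
  refine ⟨g, Subgroup.subset_closure ⟨⟨?_, ⟨AZ, rfl⟩⟩, rv e, ?_, ?_⟩, ?_⟩
  · change g.valᵀ * toR G * g.val = toR G
    rw [hgv]
    have h1 : (toR (1 - vecMulVec e c'))ᵀ * toR G * toR (1 - vecMulVec e c') =
        toR ((1 - vecMulVec e c')ᵀ * G * (1 - vecMulVec e c')) := by
      generalize 1 - vecMulVec e c' = A
      ext i j
      simp [toR, Matrix.mul_apply]
    rw [h1, hiso]
  · rw [hbl]
    exact hposR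
  · intro x
    rw [hgv2, FvB1_mulVec, hbl]
    congr 2
    rw [eq_div_iff hposR.ne', mul_comm, Pool.Agent.RFL.bl, dotProduct_mulVec]
    have h1 : ((bf G e e : ℤ) : ℝ) • rv c' = (2 : ℝ) • (rv e ᵥ* toR G) := by
      ext j
      have h2 := hc' j
      have h3 : (rv e ᵥ* toR G) j = (((e ᵥ* G) j : ℤ) : ℝ) := by
        simp [rv, toR, vecMul, dotProduct]
      rw [Pi.smul_apply, Pi.smul_apply, smul_eq_mul, smul_eq_mul, h3, hvec]
      simp only [rv]
      exact_mod_cast h2.symm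
    rw [← smul_eq_mul, ← smul_dotProduct, h1, smul_dotProduct, smul_eq_mul]
  · intro x
    refine ⟨c' ⬝ᵥ x, by rw [mul_comm, hc], ?_⟩
    rw [hgv2, FvB1_mulVec]
    ext i
    simp only [rv, Pi.sub_apply, Pi.smul_apply, smul_eq_mul, dotProduct]
    push_cast
    ring

end Pool.Agent.RFN
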