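import Mathlib
import Pool.Agent.Lib.MP_dcc566_gt_R.FvB1

/-!
# Descent into the chamber
-/

set_option autoImplicit false

namespace Pool.Agent.RFN

open Matrix Module
open Pool.Agent.RFL (toR W OZ IsRefl)
open MP_dcc566_gt (rv bf Lor rB)

variable {n M : ℕ} {G : Matrix (Fin n) (Fin n) ℤ}

/-- PROOF.  Strong induction on `(-bf G y q).toNat`.  If all `bf G (e i) y ≥ 0` take `g = 1`, `z = y`.  Otherwise `bf G (e i) y < 0` for some `i`; let `g₁` be the
reflection (`exists_refl_mem`), `y' = y - c • e i`, `c < 0`.  `bf y' y' = bf y y`; `bf y' q = bf y q - c bf (e i) q > bf y q`.  `y'` is in the same cone as `y`: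
`ALor.sr_cone` (real form `rB G`; `rv y' = sr (rB G) (rv (e i)) (rv y)`) gives `bf y y' < 0`; with `bf y q < 0` and `ALor.trans` (`LorA.lean`, for
`rv y', rv y, rv q`) `bf y' q < 0`.  Induction hypothesis for `y'`; compose the elements of `W G`. -/
theorem descend {q : Fin n → ℤ} (hL : Lor G (rv q)) {e : Fin M → Fin n → ℤ}
    (he : ∀ i, Rt G (e i)) (hq : ∀ i, 0 < bf G (e i) q) (y : Fin n → ℤ) (hy : bf G y y < 0)
    (hyq : bf G y q < 0) : ∃ g ∈ W G, ∃ z : Fin n → ℤ, g.val *ᵥ (rv y) = rv z ∧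
      bf G z z = bf G y y ∧ bf G z q < 0 ∧ ∀ i, 0 ≤ bf G (e i) z := by
  have hG : G.IsSymm := hL.symm
  have hA := hL.alor
  obtain ⟨N, hN⟩ : ∃ N : ℕ, (-bf G y q).toNat = N := ⟨_, rfl⟩
  induction N using Nat.strong_induction_on generalizing y with
  | _ N ih =>
    by_cases hall : ∀ i, 0 ≤ bf G (e i) y
    · refine ⟨1, Subgroup.one_mem _, y, ?_, rfl, hyq, hall⟩
      rw [Units.val_one, Matrix.one_mulVec]
    · push Not at hall
      obtain ⟨i, hi⟩ := hall
      obtain ⟨g₁, hg₁, hgx⟩ := exists_refl_mem hG (he i)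
      obtain ⟨c, hc, hgy⟩ := hgx y
      have hee : 0 < bf G (e i) (e i) := (he i).1
      have hc0 : c < 0 := by
        by_contra hcon
        rw [not_lt] at hcon
        have := mul_nonneg hcon hee.le
        linarith
      obtain ⟨y', hy'⟩ : ∃ y' : Fin n → ℤ, y' = y - c • e i := ⟨_, rfl⟩
      rw [← hy'] at hgy
      have hsr : rv y' = MP_dcc566_gt.sr (rB G) (rv (e i)) (rv y) := by
        have h1 : (2 * rB G (rv (e i)) (rv y) / rB G (rv (e i)) (rv (e i)) : ℝ) = c := by
          rw [MP_dcc566_gt.rB_rv, MP_dcc566_gt.rB_rv, div_eq_iff (by exact_mod_cast hee.ne')]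
          exact_mod_cast hc.symm
        rw [MP_dcc566_gt.sr, h1, hy', MP_dcc566_gt.rv_sub, MP_dcc566_gt.rv_smul]
      have hy0 : rB G (rv y) (rv y) < 0 := by
        rw [MP_dcc566_gt.rB_rv]
        exact_mod_cast hy
      have he0 : 0 < rB G (rv (e i)) (rv (e i)) := by
        rw [MP_dcc566_gt.rB_rv]
        exact_mod_cast hee
      have hcone := hA.sr_cone hy0 he0
      rw [← hsr] at hcone
      have hq0 : rB G (rv y) (rv q) < 0 := by
        rw [MP_dcc566_gt.rB_rv]
        exact_mod_cast hyq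
      have hy'q : bf G y' q < 0 := by
        have h1 := hA.trans hcone.1 hy0 hL.neg (by rw [hA.symm]; exact hcone.2) hq0
        rw [MP_dcc566_gt.rB_rv] at h1
        exact_mod_cast h1
      have hyy : bf G y' y' = bf G y y := by
        rw [hy', MP_dcc566_gt.bf_sub_left, MP_dcc566_gt.bf_sub_right, MP_dcc566_gt.bf_sub_right,
          MP_dcc566_gt.bf_smul_left, MP_dcc566_gt.bf_smul_right, MP_dcc566_gt.bf_smul_left,
          MP_dcc566_gt.bf_smul_right, MP_dcc566_gt.bf_comm G hG y (e i)]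
        linear_combination c * hc
      have hlt : bf G y q < bf G y' q := by
        rw [hy', MP_dcc566_gt.bf_sub_left, MP_dcc566_gt.bf_smul_left]
        have := mul_pos (neg_pos.2 hc0) (hq i)
        linarith
      obtain ⟨g, hg, z, hz1, hz2, hz3, hz4⟩ := ih (-bf G y' q).toNat (by omega) y'
        (by rw [hyy]; exact hy) hy'q rfl
      refine ⟨g * g₁, Subgroup.mul_mem _ hg hg₁, z, ?_, hz2.trans hyy, hz3, hz4⟩
      rw [Units.val_mul, ← Matrix.mulVec_mulVec, hgy, hz1]

end Pool.Agent.RFN
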