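import Mathlib
import Pool.Agent.Lib.MP_dcc566_gt_R.FvB2

/-!
# Finite index from bounded height
-/

set_option autoImplicit false

namespace Pool.Agent.RFN

open Matrix Module
open Pool.Agent.RFL (toR W OZ IsRefl)
open MP_dcc566_gt (rv bf Lor rB)

variable {n M : ℕ} {G : Matrix (Fin n) (Fin n) ℤ}

private theorem FvB4_rv_mulVec (A : Matrix (Fin n) (Fin n) ℤ) (x : Fin n → ℤ) :
    (A.map (Int.cast : ℤ → ℝ)) *ᵥ (rv x) = rv (A *ᵥ x) := by
  ext i
  simp [rv, mulVec, dotProduct]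

/-- Integral automorphisms. -/
private theorem FvB4_int {g : GL (Fin n) ℝ} (hg : g ∈ OZ G) :
    ∃ A : Matrix (Fin n) (Fin n) ℤ, g.val = A.map (Int.cast : ℤ → ℝ) ∧
      ∀ x y, bf G (A *ᵥ x) (A *ᵥ y) = bf G x y := by
  obtain ⟨h1, h2⟩ := hg
  obtain ⟨A, hA⟩ := Pool.Agent.RFL.mem_GLZ.1 h2
  refine ⟨A.val, hA, fun x y => ?_⟩
  have h3 : g.valᵀ * toR G * g.val = toR G := h1
  have h4 : (A.val)ᵀ * G * A.val = G := by
    have h5 : ((A.val)ᵀ * G * A.val).map (Int.cast : ℤ → ℝ) = G.map (Int.cast : ℤ → ℝ) := by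
      rw [hA] at h3
      have h6 : (A.val.map (Int.cast : ℤ → ℝ))ᵀ * toR G * A.val.map (Int.cast : ℤ → ℝ) =
          ((A.val)ᵀ * G * A.val).map (Int.cast : ℤ → ℝ) := by
        ext i j
        simp [toR, Matrix.mul_apply]
      rw [← h6]
      exact h3
    exact Matrix.map_injective Int.cast_injective h5
  conv_rhs => rw [← h4]
  simp only [bf]
  rw [← Matrix.mulVec_mulVec, ← Matrix.mulVec_mulVec, Matrix.dotProduct_mulVec x,
    Matrix.vecMul_transpose]

/-- PROOF.  Let `F` be the set of all `z : ℤ^n` with `bf z z = bf q q` and `|bf z q| ≤ m (- bf q q)`: finite (`finite_bdd`, `Fin.lean`, with `x = rv q`).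
For `g ∈ OZ G` there is an integral matrix `A` with `g = A.map`, `Aᵀ G A = G`; `y = A q` has `bf y y = bf q q < 0`, and `bf y q ≠ 0`
(`ALor.time_ne`).  `descend` for `y` or `-y`: `w ∈ W G` with `w g q ∈ F` (up to sign; `F = -F`).  The set `T` of all `h ∈ OZ G` with `h q ∈ F` is finite:
`h` is determined by the integral vectors `h b_k` (`b_k` standard basis), and `bf (h b_k) (h b_k) = bf b_k b_k`,
`bf (h b_k) (h q) = bf b_k q`, so `h b_k` is in a finite set for each of the finitely many `h q ∈ F` (`finite_bdd` with `x = rv (h q)`, timelike).  So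
`OZ G` is the union of the finitely many cosets `(W G) t`, `t ∈ T`, so the index is finite. -/
theorem index_of_chamber {q : Fin n → ℤ} (hL : Lor G (rv q)) {e : Fin M → Fin n → ℤ}
    (he : ∀ i, Rt G (e i)) (hq : ∀ i, 0 < bf G (e i) q) {m : ℤ}
    (hm : ∀ z : Fin n → ℤ, bf G z z < 0 → bf G z q < 0 → (∀ i, 0 ≤ bf G (e i) z) →
      - bf G z q ≤ m * (- bf G z z)) :
    (W G).relIndex (OZ G) ≠ 0 := by
  have hG : G.IsSymm := hL.symm
  have hA := hL.alor
  have hqq : bf G q q < 0 := by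
    have h1 := hL.neg
    rw [MP_dcc566_gt.rB_rv] at h1
    exact_mod_cast h1
  obtain ⟨D, hD⟩ : ∃ D : ℤ, D = m * (- bf G q q) := ⟨_, rfl⟩
  -- the finite set of images of `q`
  obtain ⟨F, hF⟩ : ∃ F : Set (Fin n → ℤ), F = {z | bf G z z = bf G q q ∧ |bf G z q| ≤ D} :=
    ⟨_, rfl⟩
  have hFfin : F.Finite := by
    refine (MP_dcc566_gt.finite_bdd hL hL.neg ((bf G q q : ℤ) : ℝ) (D : ℝ)).subset ?_
    intro z hz
    rw [hF] at hz
    obtain ⟨h1, h2⟩ := hz
    refine ⟨by rw [h1], ?_⟩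
    rw [MP_dcc566_gt.rB_rv]
    exact_mod_cast h2
  -- descent
  have hdesc : ∀ g ∈ OZ G, ∃ w ∈ W G, ∃ z ∈ F, (w * g).val *ᵥ rv q = rv z := by
    intro g hg
    obtain ⟨A, hgA, hbf⟩ := FvB4_int hg
    have hy : g.val *ᵥ rv q = rv (A *ᵥ q) := by rw [hgA, FvB4_rv_mulVec]
    have hyy : bf G (A *ᵥ q) (A *ᵥ q) = bf G q q := hbf q q
    have hyy0 : bf G (A *ᵥ q) (A *ᵥ q) < 0 := by rw [hyy]; exact hqq
    have hyq : bf G (A *ᵥ q) q ≠ 0 := by
      intro h0
      have hy0 : rB G (rv (A *ᵥ q)) (rv (A *ᵥ q)) < 0 := by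
        rw [MP_dcc566_gt.rB_rv]
        exact_mod_cast hyy0
      apply hA.time_ne hy0 hL.neg
      rw [MP_dcc566_gt.rB_rv, h0]
      norm_num
    rcases lt_or_gt_of_ne hyq with hlt | hgt
    · obtain ⟨w, hw, z, hz, hzz, hzq, hzi⟩ := descend hL he hq (A *ᵥ q) hyy0 hlt
      refine ⟨w, hw, z, ?_, ?_⟩
      · rw [hF]
        have h1 := hm z (by rw [hzz]; exact hyy0) hzq hzi
        rw [hzz, hyy, ← hD] at h1
        refine ⟨by rw [hzz, hyy], ?_⟩
        rw [abs_of_neg hzq]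
        exact h1
      · rw [Units.val_mul, ← Matrix.mulVec_mulVec, hy, hz]
    · have hneg : bf G (-(A *ᵥ q)) (-(A *ᵥ q)) = bf G (A *ᵥ q) (A *ᵥ q) := by
        rw [MP_dcc566_gt.bf_neg_left, MP_dcc566_gt.bf_neg_right, neg_neg]
      obtain ⟨w, hw, z, hz, hzz, hzq, hzi⟩ := descend hL he hq (-(A *ᵥ q))
        (by rw [hneg]; exact hyy0) (by rw [MP_dcc566_gt.bf_neg_left]; linarith)
      refine ⟨w, hw, -z, ?_, ?_⟩
      · rw [hF]
        have h1 := hm z (by rw [hzz, hneg]; exact hyy0) hzq hzi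
        rw [hzz, hneg, hyy, ← hD] at h1
        refine ⟨?_, ?_⟩
        · rw [MP_dcc566_gt.bf_neg_left, MP_dcc566_gt.bf_neg_right, neg_neg, hzz, hneg, hyy]
        · rw [MP_dcc566_gt.bf_neg_left, abs_neg, abs_of_neg hzq]
          exact h1
      · rw [Units.val_mul, ← Matrix.mulVec_mulVec, hy]
        have h2 : (rv (A *ᵥ q) : Fin n → ℝ) = -rv (-(A *ᵥ q)) := by
          ext i
          simp [rv]
        rw [h2, Matrix.mulVec_neg, hz]
        ext i
        simp [rv]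
  -- the finite set of automorphisms
  obtain ⟨T, hT⟩ : ∃ T : Set (GL (Fin n) ℝ),
      T = {h | h ∈ OZ G ∧ ∃ z ∈ F, h.val *ᵥ rv q = rv z} := ⟨_, rfl⟩
  obtain ⟨S, hS⟩ : ∃ S : Set (Fin n → ℤ), S = ⋃ z ∈ F, ⋃ k : Fin n,
      {r : Fin n → ℤ | ((bf G r r : ℤ) : ℝ) ≤ ((bf G (Pi.single k 1) (Pi.single k 1) : ℤ) : ℝ) ∧
        |rB G (rv r) (rv z)| ≤ |((bf G (Pi.single k 1) q : ℤ) : ℝ)|} := ⟨_, rfl⟩
  have hSfin : S.Finite := by
    rw [hS]
    refine hFfin.biUnion fun z hz => Set.finite_iUnion fun k => ?_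
    refine MP_dcc566_gt.finite_bdd hL ?_ _ _
    rw [hF] at hz
    rw [MP_dcc566_gt.rB_rv, hz.1]
    exact_mod_cast hqq
  have hTfin : T.Finite := by
    refine Set.Finite.of_injOn (f := fun h : GL (Fin n) ℝ => fun k i : Fin n => ⌊h.val i k⌋)
      (t := Set.pi Set.univ fun _ : Fin n => S) ?_ ?_ (Set.Finite.pi fun _ => hSfin)
    · intro h hh k _
      rw [hT] at hh
      obtain ⟨hO, z, hz, hzq⟩ := hh
      obtain ⟨A, hgA, hbf⟩ := FvB4_int hO
      have hcol : (fun i : Fin n => ⌊h.val i k⌋) = A *ᵥ (Pi.single k 1) := by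
        ext i
        rw [hgA, Matrix.map_apply, Int.floor_intCast]
        simp
      have hzA : z = A *ᵥ q := by
        rw [hgA, FvB4_rv_mulVec] at hzq
        ext i
        have h1 := congrFun hzq i
        simp only [rv] at h1
        exact_mod_cast h1.symm
      show (fun i : Fin n => ⌊h.val i k⌋) ∈ S
      rw [hcol, hS]
      refine Set.mem_biUnion hz (Set.mem_iUnion.2 ⟨k, ?_, ?_⟩)
      · rw [hbf]
      · rw [MP_dcc566_gt.rB_rv, hzA, hbf]
    · intro h hh h' hh' heq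
      rw [hT] at hh hh'
      obtain ⟨A, hgA, -⟩ := FvB4_int hh.1
      obtain ⟨A', hgA', -⟩ := FvB4_int hh'.1
      ext i k
      have h1 : ⌊h.val i k⌋ = ⌊h'.val i k⌋ := congrFun (congrFun heq k) i
      rw [hgA, hgA', Matrix.map_apply, Matrix.map_apply, Int.floor_intCast, Int.floor_intCast]
        at h1
      rw [hgA, hgA', Matrix.map_apply, Matrix.map_apply, h1]
  -- the index
  have hfin : Finite (OZ G ⧸ (W G).subgroupOf (OZ G)) := by
    have : Finite T := hTfin.to_subtype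
    have hTO' : ∀ t ∈ T, t ∈ OZ G := by
      intro t ht
      rw [hT] at ht
      exact ht.1
    have hTO : ∀ t : T, t.1 ∈ OZ G := fun t => hTO' t.1 t.2
    refine Finite.of_surjective
      (fun t : T => (QuotientGroup.mk (⟨t.1, hTO t⟩⁻¹ : OZ G) : OZ G ⧸ (W G).subgroupOf (OZ G)))
      ?_
    intro x
    obtain ⟨⟨g, hg⟩, rfl⟩ := QuotientGroup.mk_surjective x
    obtain ⟨w, hw, z, hz, hzq⟩ := hdesc g⁻¹ (inv_mem hg)
    have hwO : w ∈ OZ G := Pool.Agent.RFL.W_le G hw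
    have hmem : w * g⁻¹ ∈ T := by
      rw [hT]
      exact ⟨mul_mem hwO (inv_mem hg), z, hz, hzq⟩
    refine ⟨⟨w * g⁻¹, hmem⟩, ?_⟩
    rw [QuotientGroup.eq, Subgroup.mem_subgroupOf]
    simp only [inv_inv, Subgroup.coe_mul]
    have : w * g⁻¹ * g = w := by group
    rw [this]
    exact hw
  exact Subgroup.index_ne_zero_of_finite

end Pool.Agent.RFN
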