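import Mathlib
import Pool.Agent.Lib.MP_dcc566_gt_R.FvB3
import Pool.Agent.Lib.MP_dcc566_gt_R.FvB4

/-!
# Finite index of a reflection group from a chamber
-/
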