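import Mathlib
import Pool.Agent.Lib.MP_dcc566_gt_R.FvA
import Pool.Agent.Lib.MP_dcc566_gt_R.FvB

/-!
# Vertices up to symmetries of the Gram matrix
-/

set_option autoImplicit false

namespace Pool.Agent.RFN

open MP_dcc566_gt (bf)

variable {n M K : ℕ}

/-- `σ` preserves the Gram matrix of the vectors `e i`. -/
def GP (G : Matrix (Fin n) (Fin n) ℤ) (e : Fin M → Fin n → ℤ) (σ : Fin M → Fin M) : Prop :=
  ∀ i j, bf G (e (σ i)) (e (σ j)) = bf G (e i) (e j)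

/-- The facet normals `e i` and representatives `r k` of the rays. -/
structure Chb (G : Matrix (Fin n) (Fin n) ℤ) (e : Fin M → Fin n → ℤ) (r : Fin K → Fin n → ℤ) :
    Prop where
  symm : G.IsSymm
  det : G.det ≠ 0
  norm : ∀ i, 0 < bf G (e i) (e i)
  obt : ∀ i j, i ≠ j → bf G (e i) (e j) ≤ 0
  span : ∀ x : Fin n → ℤ, ∃ a : Fin M → ℤ, x = ∑ j, a j • e j
  nz : ∀ k, r k ≠ 0
  pos : ∀ k i, 0 ≤ bf G (e i) (r k)
  tl : ∀ k, bf G (r k) (r k) ≤ 0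

/-- The local structure at the representative `r k`. -/
structure LocR (G : Matrix (Fin n) (Fin n) ℤ) (e : Fin M → Fin n → ℤ) (r : Fin K → Fin n → ℤ)
    (k : Fin K) (c : ℕ) (C m : Fin M → ℕ) : Prop where
  k_pos : 1 ≤ c
  C_le : ∀ i, C i ≤ c
  C_zero : ∀ i, C i = 0 ↔ bf G (e i) (r k) ≠ 0
  surj : ∀ j, 1 ≤ j → j ≤ c → ∃ i, C i = j
  card : (Finset.univ.filter (fun i => C i ≠ 0)).card + 2 = n + c
  m_pos : ∀ i, C i ≠ 0 → 0 < m i
  rel : ∀ j, 1 ≤ j → j ≤ c → ∑ i ∈ Finset.univ.filter (fun i => C i = j),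
    (m i : ℤ) • e i = ∑ i ∈ Finset.univ.filter (fun i => C i = 1), (m i : ℤ) • e i
  edge : ∀ t : ℕ → Fin M, (∀ j, 1 ≤ j → j ≤ c → C (t j) = j) → ∃ (k' : Fin K) (σ : Fin M → Fin M),
    GP G e σ ∧ (∀ i, C i ≠ 0 → (∀ j, 1 ≤ j → j ≤ c → i ≠ t j) → bf G (e (σ i)) (r k') = 0) ∧
      ∀ j, 1 ≤ j → j ≤ c → 0 < bf G (e (σ (t j))) (r k')

/-- All rays: the images of the representatives under the symmetries. -/
def Rays (G : Matrix (Fin n) (Fin n) ℤ) (e : Fin M → Fin n → ℤ) (r : Fin K → Fin n → ℤ) :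
    Set (Fin n → ℚ) :=
  {x | ∃ u : Fin n → ℤ, x = cz u ∧ ∃ (k : Fin K) (σ : Fin M → Fin M), GP G e σ ∧
    ∀ i, bf G (e i) u = bf G (e (σ i)) (r k)}

theorem GP_id {G : Matrix (Fin n) (Fin n) ℤ} {e : Fin M → Fin n → ℤ} : GP G e id :=
  fun _ _ => rfl

theorem GP.comp {G : Matrix (Fin n) (Fin n) ℤ} {e : Fin M → Fin n → ℤ} {σ τ : Fin M → Fin M}
    (hσ : GP G e σ) (hτ : GP G e τ) : GP G e (σ ∘ τ) := fun i j => by
  rw [Function.comp_apply, Function.comp_apply, hσ, hτ]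

end Pool.Agent.RFN
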