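import Mathlib
import Pool.Agent.Lib.MP_dcc566_gt_R.Bas

/-!
# Isometries of a lattice and congruences: basic facts
-/

set_option autoImplicit false

namespace Pool.Agent.RFN

variable {V : Type} [AddCommGroup V] [Module ℚ V]

/-- `g` is an isometry of the lattice `Λ`. -/
def OL (B : Frm V) (Λ : AddSubgroup V) (g : V ≃ₗ[ℚ] V) : Prop := IsIso B B g ∧ MapsL g Λ Λ

/-- `x ≡ y` modulo `k Λ`. -/
def Cg (Λ : AddSubgroup V) (k : ℤ) (x y : V) : Prop := ∃ w ∈ Λ, x - y = (k : ℚ) • w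

/-- `z 0, ..., z (k-1)` are vectors of `Λ`, independent modulo `p` and the radical. -/
def Ind (B : Frm V) (Λ : AddSubgroup V) (p k : ℕ) (z : ℕ → V) : Prop :=
  (∀ i < k, z i ∈ Λ) ∧
    ∀ c : ℕ → ℤ, (∀ x ∈ Λ, Dv p (B (∑ i ∈ Finset.range k, (c i : ℚ) • z i) x)) →
      ∀ i < k, (p : ℤ) ∣ c i

theorem RkGe_iff {B : Frm V} {Λ : AddSubgroup V} {p r : ℕ} :
    RkGe B Λ p r ↔ ∃ u, Ind B Λ p r u := Iff.rfl

variable {B : Frm V} {Λ : AddSubgroup V} {k : ℤ}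

theorem TS.toInd {p j : ℕ} {f : ℕ → V} (h : TS B Λ p j f) : Ind B Λ p j f := ⟨h.mem, h.ind⟩

theorem zs_mem {x : V} (hx : x ∈ Λ) (n : ℤ) : (n : ℚ) • x ∈ Λ := by
  rw [Int.cast_smul_eq_zsmul]
  exact Λ.zsmul_mem hx n

theorem sum_mem_L {n : ℕ} {z : ℕ → V} (hz : ∀ i < n, z i ∈ Λ) (c : ℕ → ℤ) :
    ∑ i ∈ Finset.range n, (c i : ℚ) • z i ∈ Λ :=
  Λ.sum_mem fun i hi => zs_mem (hz i (Finset.mem_range.1 hi)) _

theorem Cg.refl (x : V) : Cg Λ k x x := ⟨0, Λ.zero_mem, by simp⟩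

theorem Cg.symm {x y : V} (h : Cg Λ k x y) : Cg Λ k y x := by
  obtain ⟨w, hw, h⟩ := h
  exact ⟨-w, Λ.neg_mem hw, by rw [smul_neg, ← h]; abel⟩

theorem Cg.trans {x y z : V} (h : Cg Λ k x y) (h' : Cg Λ k y z) : Cg Λ k x z := by
  obtain ⟨w, hw, h⟩ := h
  obtain ⟨w', hw', h'⟩ := h'
  exact ⟨w + w', Λ.add_mem hw hw', by rw [smul_add, ← h, ← h']; abel⟩

theorem Cg.add {x y x' y' : V} (h : Cg Λ k x y) (h' : Cg Λ k x' y') :
    Cg Λ k (x + x') (y + y') := by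
  obtain ⟨w, hw, h⟩ := h
  obtain ⟨w', hw', h'⟩ := h'
  exact ⟨w + w', Λ.add_mem hw hw', by rw [smul_add, ← h, ← h']; abel⟩

theorem Cg.sub {x y x' y' : V} (h : Cg Λ k x y) (h' : Cg Λ k x' y') :
    Cg Λ k (x - x') (y - y') := by
  obtain ⟨w, hw, h⟩ := h
  obtain ⟨w', hw', h'⟩ := h'
  exact ⟨w - w', Λ.sub_mem hw hw', by rw [smul_sub, ← h, ← h']; abel⟩

theorem Cg.zsmul {x y : V} (h : Cg Λ k x y) (n : ℤ) : Cg Λ k ((n : ℚ) • x) ((n : ℚ) • y) := by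
  obtain ⟨w, hw, h⟩ := h
  exact ⟨(n : ℚ) • w, zs_mem hw n, by rw [← smul_sub, h, smul_smul, smul_smul, mul_comm]⟩

/-- Coefficients may be changed by multiples of `k`. -/
theorem Cg.coef {a b : ℤ} (hab : k ∣ a - b) {x : V} (hx : x ∈ Λ) :
    Cg Λ k ((a : ℚ) • x) ((b : ℚ) • x) := by
  obtain ⟨c, hc⟩ := hab
  refine ⟨(c : ℚ) • x, zs_mem hx c, ?_⟩
  rw [← sub_smul, smul_smul, ← Int.cast_sub, hc]
  push_cast
  rfl

theorem Cg.sum {n : ℕ} {x y : ℕ → V} (h : ∀ i < n, Cg Λ k (x i) (y i)) (c : ℕ → ℤ) :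
    Cg Λ k (∑ i ∈ Finset.range n, (c i : ℚ) • x i) (∑ i ∈ Finset.range n, (c i : ℚ) • y i) := by
  induction n with
  | zero => simpa using Cg.refl 0
  | succ n ih =>
    rw [Finset.sum_range_succ, Finset.sum_range_succ]
    exact (ih fun i hi => h i (hi.trans n.lt_succ_self)).add ((h n n.lt_succ_self).zsmul _)

theorem Cg.of_dvd {l : ℤ} (hl : l ∣ k) {x y : V} (h : Cg Λ k x y) : Cg Λ l x y := by
  obtain ⟨w, hw, h⟩ := h
  obtain ⟨c, rfl⟩ := hl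
  exact ⟨(c : ℚ) • w, zs_mem hw c, by rw [h, smul_smul]; push_cast; rfl⟩

theorem Cg.mem {x y : V} (h : Cg Λ k x y) (hy : y ∈ Λ) : x ∈ Λ := by
  obtain ⟨w, hw, h⟩ := h
  rw [show x = (x - y) + y by abel, h]
  exact Λ.add_mem (zs_mem hw k) hy

/-- Pairings of congruent vectors are congruent. -/
theorem Cg.dv (hs : ∀ x y, B x y = B y x) (hE : EvL B Λ) {x y w : V} (h : Cg Λ k x y)
    (hw : w ∈ Λ) : Dv k (B x w - B y w) := by
  obtain ⟨v, hv, h⟩ := h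
  rw [← LinearMap.sub_apply, ← map_sub, h, map_smul, LinearMap.smul_apply, smul_eq_mul]
  obtain ⟨n, hn⟩ := EvL.isZ hs hE hv hw
  exact ⟨n, by rw [hn]⟩

theorem Cg.dv_iff (hs : ∀ x y, B x y = B y x) (hE : EvL B Λ) {x y w : V} (h : Cg Λ k x y)
    (hw : w ∈ Λ) : Dv k (B x w) ↔ Dv k (B y w) := by
  have h1 := h.dv hs hE hw
  constructor
  · intro h2
    have := h2.sub h1
    rwa [sub_sub_cancel] at this
  · intro h2
    have := h2.add h1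
    rwa [add_sub_cancel] at this

/-- Norms of congruent vectors are congruent modulo `2 k`. -/
theorem Cg.norm (hs : ∀ x y, B x y = B y x) (hE : EvL B Λ) {x y : V} (h : Cg Λ k x y)
    (hy : y ∈ Λ) : Dv (2 * k) (B x x - B y y) := by
  obtain ⟨v, hv, h⟩ := h
  obtain ⟨n, hn⟩ := EvL.isZ hs hE hv hy
  obtain ⟨m, hm⟩ := hE v hv
  have h1 : x = y + (k : ℚ) • v := by rw [← h]; abel
  refine ⟨n + k * m, ?_⟩
  rw [h1]
  simp only [map_add, map_smul, LinearMap.add_apply, LinearMap.smul_apply, smul_eq_mul]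
  rw [hs y v, hn, hm]
  push_cast
  ring

theorem OL.refl (B : Frm V) (Λ : AddSubgroup V) : OL B Λ (LinearEquiv.refl ℚ V) :=
  ⟨fun _ _ => rfl, fun _ => Iff.rfl⟩

theorem OL.trans {g h : V ≃ₗ[ℚ] V} (hg : OL B Λ g) (hh : OL B Λ h) : OL B Λ (g.trans h) :=
  ⟨fun x y => by rw [LinearEquiv.trans_apply, LinearEquiv.trans_apply, hh.1, hg.1],
    fun x => by rw [LinearEquiv.trans_apply, hh.2, hg.2]⟩

theorem OL.symm {g : V ≃ₗ[ℚ] V} (hg : OL B Λ g) : OL B Λ g.symm :=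
  ⟨fun x y => by rw [← hg.1, LinearEquiv.apply_symm_apply, LinearEquiv.apply_symm_apply],
    fun x => by rw [← hg.2, LinearEquiv.apply_symm_apply]⟩

theorem OL.mem {g : V ≃ₗ[ℚ] V} (hg : OL B Λ g) {x : V} (hx : x ∈ Λ) : g x ∈ Λ := (hg.2 x).2 hx

theorem Cg.map {g : V ≃ₗ[ℚ] V} (hg : OL B Λ g) {x y : V} (h : Cg Λ k x y) :
    Cg Λ k (g x) (g y) := by
  obtain ⟨w, hw, h⟩ := h
  exact ⟨g w, hg.mem hw, by rw [← map_sub, h, map_smul]⟩

theorem TS.map {g : V ≃ₗ[ℚ] V} (hg : OL B Λ g) {p j : ℕ} {f : ℕ → V} (h : TS B Λ p j f) :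
    TS B Λ p j (fun i => g (f i)) where
  mem := fun i hi => hg.mem (h.mem i hi)
  pair := fun i hi l hl => by rw [hg.1]; exact h.pair i hi l hl
  norm := fun i hi => by rw [hg.1]; exact h.norm i hi
  ind := fun c hc i hi => h.ind c (fun x hx => by
    have h1 := hc (g x) (hg.mem hx)
    have h2 : ∑ i ∈ Finset.range j, (c i : ℚ) • g (f i) =
        g (∑ i ∈ Finset.range j, (c i : ℚ) • f i) := by
      rw [map_sum]
      exact Finset.sum_congr rfl fun i _ => by rw [map_smul]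
    rwa [h2, hg.1] at h1) i hi

end Pool.Agent.RFN
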