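import Mathlib
import Pool.Agent.Lib.MP_dcc566_gt_R.LTa

/-!
# A full even lattice in a nondegenerate space has a `ℤ`-basis
-/

set_option autoImplicit false

namespace Pool.Agent.RFN

open Module

variable {V : Type} [AddCommGroup V] [Module ℚ V]

/-- BASIS OF A LATTICE.

PROOF.  Let `v : Basis ι ℚ V` be a basis (`finBasis ℚ V`); by `FullL` there are positive integers `n i` with
`n i • v i ∈ Λ`; so `w i = (n i : ℚ) • v i` is a basis of `V` contained in `Λ` (`Basis.unitsSMul` or `Basis.isUnitSMul`).
`B` is nondegenerate (`hB.nd`, `hB.symm`): the linear map `T : V →ₗ[ℚ] (ι → ℚ)`, `x ↦ (i ↦ B x (w i))`, is injective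
(`B x (w i) = 0` for all `i` gives `B x = 0` by `Basis.ext`, so `x = 0`).  For `x ∈ Λ` all `B x (w i)` are integers
(`EvL.isZ hB.symm hE`).  So the `ℤ`-module `M = Λ.toIntSubmodule` (`AddSubgroup.toIntSubmodule Λ`) embeds into `ι → ℤ` by a
`ℤ`-linear injective map (take the integer `n` with `B x (w i) = n`, e.g. `(B x (w i)).num`), so `M` is finitely
generated (`Module.Finite.of_injective` over the noetherian ring `ℤ`) and torsion free, so free
(`Module.free_of_finite_type_torsion_free'` or the instance for principal ideal domains).  Let `b : Basis κ ℤ M`,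
`κ` finite.  The family `(b k : V)` is linearly independent over `ℤ`, so over `ℚ`
(`LinearIndependent.iff_fractionRing (R := ℤ) (K := ℚ)`), and spans `V` over `ℚ` (`FullL`: `n • v ∈ Λ` is an integral
combination of the `b k`, so `v` is a rational combination).  So it is a basis `b'` of `V` (`Basis.mk`), `κ` has
`finrank ℚ V` elements (`Module.finrank_eq_card_basis`), reindex by `Fin (finrank ℚ V)`.
If `x ∈ Λ`: `x = ∑ (b.repr x k) • b k`, so `b'.repr x k` is the integer `b.repr x k`.  Conversely an integral
combination of elements of `Λ` is in `Λ`. -/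
theorem exists_zbasis [FiniteDimensional ℚ V] {B : Frm V} (hB : Nd B) {Λ : AddSubgroup V}
    (hE : EvL B Λ) (hF : FullL Λ) :
    ∃ b : Basis (Fin (finrank ℚ V)) ℚ V, ∀ x, x ∈ Λ ↔ ∀ i, IsZ (b.repr x i) := by
  classical
  -- a rational basis contained in the lattice
  let v : Basis (Fin (finrank ℚ V)) ℚ V := finBasis ℚ V
  choose n hn hnm using fun i => hF (v i)
  let w : Fin (finrank ℚ V) → V := fun i => (n i : ℚ) • v i
  have hw : ∀ i, w i ∈ Λ := hnm
  choose z hz using fun (x : (AddSubgroup.toIntSubmodule Λ)) (i : Fin (finrank ℚ V)) =>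
    EvL.isZ hB.symm hE (x := (x : V)) (y := w i) x.2 (hw i)
  have hinj0 : ∀ x : V, (∀ i, B x (w i) = 0) → x = 0 := by
    intro x hx
    apply hB.nd
    intro y
    have h0 : B x = 0 := by
      apply v.ext
      intro i
      have h1 := hx i
      have h2 : B x (w i) = (n i : ℚ) * B x (v i) := by
        show B x ((n i : ℚ) • v i) = _
        rw [map_smul, smul_eq_mul]
      rw [h2] at h1
      have h3 : (n i : ℚ) ≠ 0 := by
        have := hn i
        positivity
      rcases mul_eq_zero.1 h1 with h | h
      · exact absurd h h3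
      · simpa using h
    rw [h0]
    rfl
  let T0 : (AddSubgroup.toIntSubmodule Λ) →+ (Fin (finrank ℚ V) → ℤ) :=
    { toFun := z
      map_zero' := by
        funext i
        have h := hz 0 i
        have h' : ((z 0 i : ℤ) : ℚ) = 0 := by
          rw [← h]
          simp
        exact_mod_cast h'
      map_add' := by
        intro x y
        funext i
        have h' : ((z (x + y) i : ℤ) : ℚ) = ((z x i + z y i : ℤ) : ℚ) := by
          rw [← hz (x + y) i, Int.cast_add, ← hz x i, ← hz y i]
          simp
        have := Int.cast_injective h'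
        simpa using this }
  let T : (AddSubgroup.toIntSubmodule Λ) →ₗ[ℤ] (Fin (finrank ℚ V) → ℤ) := T0.toIntLinearMap
  have hT : Function.Injective T := by
    rw [injective_iff_map_eq_zero]
    intro x hx
    have hx0 : (x : V) = 0 := by
      apply hinj0
      intro i
      rw [hz x i]
      have h1 : z x i = 0 := congrFun hx i
      rw [h1]
      simp
    exact Subtype.ext hx0
  obtain ⟨m, bR⟩ := Submodule.basisOfPid (Pi.basisFun ℤ (Fin (finrank ℚ V))) (LinearMap.range T)
  let b : Basis (Fin m) ℤ (AddSubgroup.toIntSubmodule Λ) := bR.map (LinearEquiv.ofInjective T hT).symm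
  have hli : LinearIndependent ℤ (fun k => ((b k : (AddSubgroup.toIntSubmodule Λ)) : V)) := by
    have := b.linearIndependent.map' (AddSubgroup.toIntSubmodule Λ).subtype
      (Submodule.ker_subtype _)
    exact this
  have hliQ : LinearIndependent ℚ (fun k => ((b k : (AddSubgroup.toIntSubmodule Λ)) : V)) :=
    (LinearIndependent.iff_fractionRing ℤ ℚ).1 hli
  have hsum : ∀ x : V, ∀ hx : x ∈ Λ, x = ∑ k, ((b.repr ⟨x, hx⟩ k : ℤ) : ℚ) •
      ((b k : (AddSubgroup.toIntSubmodule Λ)) : V) := by
    intro x hx
    have h := b.sum_repr (⟨x, hx⟩ : (AddSubgroup.toIntSubmodule Λ))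
    have h2 : ((∑ i, (b.repr ⟨x, hx⟩) i • b i : (AddSubgroup.toIntSubmodule Λ)) : V) = x :=
      congrArg (fun y : (AddSubgroup.toIntSubmodule Λ) => (y : V)) h
    refine h2.symm.trans ?_
    refine (Submodule.coe_sum _ _ _).trans ?_
    refine Finset.sum_congr rfl fun k _ => ?_
    rw [Submodule.coe_smul, Int.cast_smul_eq_zsmul]
  have hspan : ⊤ ≤ Submodule.span ℚ (Set.range fun k =>
      ((b k : (AddSubgroup.toIntSubmodule Λ)) : V)) := by
    intro x _
    obtain ⟨N, hN, hNx⟩ := hF x
    have hN0 : (N : ℚ) ≠ 0 := by positivity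
    have h1 : (N : ℚ) • x ∈ Submodule.span ℚ (Set.range fun k =>
        ((b k : (AddSubgroup.toIntSubmodule Λ)) : V)) := by
      rw [hsum _ hNx]
      exact Submodule.sum_mem _ fun k _ => Submodule.smul_mem _ _
        (Submodule.subset_span ⟨k, rfl⟩)
    have h2 : x = (N : ℚ)⁻¹ • ((N : ℚ) • x) := by
      rw [smul_smul, inv_mul_cancel₀ hN0, one_smul]
    rw [h2]
    exact Submodule.smul_mem _ _ h1
  let b' : Basis (Fin m) ℚ V := Basis.mk hliQ hspan
  have hm : m = finrank ℚ V := by
    have := Module.finrank_eq_card_basis b'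
    rw [this, Fintype.card_fin]
  have hb' : ∀ k, b' k = ((b k : (AddSubgroup.toIntSubmodule Λ)) : V) := fun k => by
    simp [b']
  have key : ∀ x, x ∈ Λ ↔ ∀ i, IsZ (b'.repr x i) := by
    intro x
    constructor
    · intro hx i
      refine ⟨b.repr ⟨x, hx⟩ i, ?_⟩
      have h3 : x = ∑ k, ((b.repr ⟨x, hx⟩ k : ℤ) : ℚ) • b' k := by
        refine (hsum x hx).trans ?_
        refine Finset.sum_congr rfl fun k _ => ?_
        rw [hb' k]
      have h4 := b'.repr_sum_self (fun k => ((b.repr ⟨x, hx⟩ k : ℤ) : ℚ))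
      rw [← h3] at h4
      rw [h4]
    · intro h
      choose c hc using h
      rw [← b'.sum_repr x]
      refine Λ.sum_mem fun k _ => ?_
      rw [hc k, hb' k, Int.cast_smul_eq_zsmul]
      exact Λ.zsmul_mem (b k).2 _
  subst hm
  exact ⟨b', key⟩

end Pool.Agent.RFN
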