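import Mathlib
import Pool.Agent.Lib.MP_dcc566_gt_R.LKe

/-!
# Structure of minimal lattices: definitions

`Du B L` is the dual lattice, `Rp B L p` the vectors of `L` with all products divisible by `p`,
`Lk B L m` the vectors `x` of the dual lattice with `m x ∈ L`.
-/

set_option autoImplicit false

namespace Pool.Agent.RFN

open Module

variable {V : Type} [AddCommGroup V] [Module ℚ V]

/-- The dual lattice. -/
def Du (B : Frm V) (L : AddSubgroup V) : AddSubgroup V where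
  carrier := {x | ∀ y ∈ L, IsZ (B x y)}
  add_mem' := fun {a b} ha hb y hy => by
    rw [map_add, LinearMap.add_apply]
    exact (ha y hy).add (hb y hy)
  zero_mem' := fun y _ => by
    rw [map_zero, LinearMap.zero_apply]
    exact ⟨0, by simp⟩
  neg_mem' := fun {a} ha y hy => by
    rw [map_neg, LinearMap.neg_apply]
    exact (ha y hy).neg

/-- The vectors of `L` with all products divisible by `p`. -/
def Rp (B : Frm V) (L : AddSubgroup V) (p : ℕ) : AddSubgroup V where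
  carrier := {x | x ∈ L ∧ ∀ y ∈ L, Dv p (B x y)}
  add_mem' := fun {a b} ha hb => ⟨L.add_mem ha.1 hb.1, fun y hy => by
    rw [map_add, LinearMap.add_apply]
    exact (ha.2 y hy).add (hb.2 y hy)⟩
  zero_mem' := ⟨L.zero_mem, fun y _ => by
    rw [map_zero, LinearMap.zero_apply]
    exact Dv.zero _⟩
  neg_mem' := fun {a} ha => ⟨L.neg_mem ha.1, fun y hy => by
    rw [map_neg, LinearMap.neg_apply]
    exact (ha.2 y hy).neg⟩

/-- The vectors `x` of the dual lattice with `m x ∈ L`. -/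
def Lk (B : Frm V) (L : AddSubgroup V) (m : ℕ) : AddSubgroup V where
  carrier := {x | x ∈ Du B L ∧ (m : ℚ) • x ∈ L}
  add_mem' := fun {a b} ha hb => ⟨(Du B L).add_mem ha.1 hb.1, by
    rw [smul_add]
    exact L.add_mem ha.2 hb.2⟩
  zero_mem' := ⟨(Du B L).zero_mem, by
    rw [smul_zero]
    exact L.zero_mem⟩
  neg_mem' := fun {a} ha => ⟨(Du B L).neg_mem ha.1, by
    rw [smul_neg]
    exact L.neg_mem ha.2⟩

/-- `X` has a `ℤ`-basis which is a basis of `V`. -/
def HasZB [FiniteDimensional ℚ V] (X : AddSubgroup V) : Prop :=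
  ∃ b : Basis (Fin (finrank ℚ V)) ℚ V, ∀ x, x ∈ X ↔ ∀ i, IsZ (b.repr x i)

theorem mem_Du {B : Frm V} {L : AddSubgroup V} {x : V} :
    x ∈ Du B L ↔ ∀ y ∈ L, IsZ (B x y) := Iff.rfl

theorem mem_Rp {B : Frm V} {L : AddSubgroup V} {p : ℕ} {x : V} :
    x ∈ Rp B L p ↔ x ∈ L ∧ ∀ y ∈ L, Dv p (B x y) := Iff.rfl

theorem mem_Lk {B : Frm V} {L : AddSubgroup V} {m : ℕ} {x : V} :
    x ∈ Lk B L m ↔ x ∈ Du B L ∧ (m : ℚ) • x ∈ L := Iff.rfl

theorem zn_mem {L : AddSubgroup V} {x : V} (hx : x ∈ L) (n : ℕ) : (n : ℚ) • x ∈ L := by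
  have := zs_mem hx (n : ℤ)
  simpa using this

theorem le_Du {B : Frm V} (hs : ∀ x y, B x y = B y x) {L : AddSubgroup V} (hE : EvL B L) :
    L ≤ Du B L := fun _ hx _ hy => EvL.isZ hs hE hx hy

theorem le_Lk {B : Frm V} (hs : ∀ x y, B x y = B y x) {L : AddSubgroup V} (hE : EvL B L) (m : ℕ) :
    L ≤ Lk B L m := fun _ hx => ⟨le_Du hs hE hx, zn_mem hx m⟩

theorem Du_anti {B : Frm V} {L L' : AddSubgroup V} (h : L ≤ L') : Du B L' ≤ Du B L :=
  fun _ hx y hy => hx y (h hy)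

/-- Only one direction has to be checked for invariance. -/
theorem inv_of {B : Frm V} {L X : AddSubgroup V}
    (h : ∀ g : V ≃ₗ[ℚ] V, IsIso B B g → MapsL g L L → ∀ x ∈ X, g x ∈ X) : Inv B L X := by
  intro g hg hgL x
  refine ⟨fun hx => ?_, h g hg hgL x⟩
  have h1 := h g.symm (fun x y => by
    have := hg (g.symm x) (g.symm y)
    rw [g.apply_symm_apply, g.apply_symm_apply] at this
    exact this.symm) (fun x => by
    have := hgL (g.symm x)
    rw [g.apply_symm_apply] at this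
    exact this.symm) (g x) hx
  rwa [g.symm_apply_apply] at h1

theorem map_Du {B : Frm V} {L : AddSubgroup V} {g : V ≃ₗ[ℚ] V} (hg : IsIso B B g)
    (hgL : MapsL g L L) {x : V} (hx : x ∈ Du B L) : g x ∈ Du B L := by
  intro y hy
  have h1 : g.symm y ∈ L := by
    rw [← hgL, g.apply_symm_apply]
    exact hy
  have h2 := hx _ h1
  rw [← hg, g.apply_symm_apply] at h2
  exact h2

theorem map_Rp {B : Frm V} {L : AddSubgroup V} {g : V ≃ₗ[ℚ] V} (hg : IsIso B B g)
    (hgL : MapsL g L L) {p : ℕ} {x : V} (hx : x ∈ Rp B L p) : g x ∈ Rp B L p := by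
  refine ⟨(hgL x).2 hx.1, fun y hy => ?_⟩
  have h1 : g.symm y ∈ L := by
    rw [← hgL, g.apply_symm_apply]
    exact hy
  have h2 := hx.2 _ h1
  rw [← hg, g.apply_symm_apply] at h2
  exact h2

theorem map_Lk {B : Frm V} {L : AddSubgroup V} {g : V ≃ₗ[ℚ] V} (hg : IsIso B B g)
    (hgL : MapsL g L L) {m : ℕ} {x : V} (hx : x ∈ Lk B L m) : g x ∈ Lk B L m := by
  refine ⟨map_Du hg hgL hx.1, ?_⟩
  rw [← map_smul]
  exact (hgL _).2 hx.2

end Pool.Agent.RFN
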