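import Mathlib
import Pool.Agent.Lib.MP_dcc566_gt_R.LSa

/-!
# The index of `L` in `Lk B L p` in coordinates, and the rank
-/

set_option autoImplicit false

namespace Pool.Agent.RFN

open Module

variable {V : Type} [AddCommGroup V] [Module ℚ V]

/-- The radical modulo `p` of an integral Gram matrix. -/
def RadM {n : ℕ} (p : ℕ) (G : Fin n → Fin n → ℤ) : Submodule (ZMod p) (Fin n → ZMod p) where
  carrier := {c | ∀ j, ∑ i, c i * (G i j : ZMod p) = 0}
  add_mem' := fun {c c'} hc hc' j => by
    simp only [Pi.add_apply, add_mul, Finset.sum_add_distrib]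
    rw [hc j, hc' j, add_zero]
  zero_mem' := fun j => by simp
  smul_mem' := fun t c hc j => by
    simp only [Pi.smul_apply, smul_eq_mul, mul_assoc]
    rw [← Finset.mul_sum, hc j, mul_zero]

theorem mem_RadM {n : ℕ} {p : ℕ} {G : Fin n → Fin n → ℤ} {c : Fin n → ZMod p} :
    c ∈ RadM p G ↔ ∀ j, ∑ i, c i * (G i j : ZMod p) = 0 := Iff.rfl

end Pool.Agent.RFN
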