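import Mathlib
import Pool.Agent.Lib.MP_dcc566_gt_R.LSe

/-!
# The index of `L` in `Lk B L p`
-/

set_option autoImplicit false

namespace Pool.Agent.RFN

open Module

variable {V : Type} [AddCommGroup V] [Module ℚ V]

private theorem num_add {q r : ℚ} (hq : IsZ q) (hr : IsZ r) : (q + r).num = q.num + r.num := by
  obtain ⟨m, rfl⟩ := hq
  obtain ⟨n, rfl⟩ := hr
  rw [← Int.cast_add, Rat.num_intCast, Rat.num_intCast, Rat.num_intCast]

private theorem num_cast {q : ℚ} (hq : IsZ q) : ((q.num : ℤ) : ℚ) = q := by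
  obtain ⟨m, rfl⟩ := hq
  rw [Rat.num_intCast]

private theorem IsZ_sum {ι : Type} (s : Finset ι) (f : ι → ℚ) (h : ∀ i ∈ s, IsZ (f i)) :
    IsZ (∑ i ∈ s, f i) := by
  classical
  induction s using Finset.induction_on with
  | empty => exact ⟨0, by simp⟩
  | insert a s ha ih =>
    rw [Finset.sum_insert ha]
    exact (h a (Finset.mem_insert_self a s)).add
      (ih fun i hi => h i (Finset.mem_insert_of_mem hi))

/-- PROOF.  For `x ∈ Lk B L p` we have `p x ∈ L`, with integral coordinates `m i` (`b.repr (p x) i = m i`).  `φ : Lk B L p →+ (Fin n → ZMod p)`,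
`x ↦ (i ↦ m i)`, is an additive homomorphism.  Kernel: `L.addSubgroupOf (Lk B L p)` (all `m i` divisible by `p` iff `b.repr x i ∈ ℤ` iff `x ∈ L`).
Range: the additive subgroup of `RadM p G`: `B (p x) (b j) = ∑ m i G i j` and `B (p x) (b j) = p B x (b j)` with `B x (b j) ∈ ℤ`, so
`φ x ∈ RadM p G`; conversely for `c ∈ RadM p G` lift to integers `m i` and put `x = p⁻¹ ∑ m i b i`: `B x (b j) = (∑ m i G i j)/p ∈ ℤ`, so `x ∈ Du B L`
(elements of `L` are integral combinations of the `b j`), `p x ∈ L`.  So `L.relIndex (Lk B L p) = index of φ.ker = Nat.card φ.range`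
(`AddSubgroup.relIndex`, `AddSubgroup.index_ker`) `= Nat.card (RadM p G) = p ^ finrank` (`Module.card_eq_pow_finrank` / `Module.natCard_eq_pow_finrank`,
`Fact p.Prime`). -/
theorem index_rad {B : Frm V} (hs : ∀ x y, B x y = B y x) {L : AddSubgroup V} (hE : EvL B L)
    {n : ℕ} {b : Basis (Fin n) ℚ V} (hb : ∀ x, x ∈ L ↔ ∀ i, IsZ (b.repr x i))
    {G : Fin n → Fin n → ℤ} (hG : ∀ i j, B (b i) (b j) = (G i j : ℚ)) {p : ℕ} (hp : p.Prime) :
    L.relIndex (Lk B L p) = p ^ (finrank (ZMod p) (RadM p G)) := by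
  classical
  have : Fact p.Prime := ⟨hp⟩
  have hp0 : (p : ℚ) ≠ 0 := by exact_mod_cast hp.ne_zero
  have hbL : ∀ j, b j ∈ L := by
    intro j
    rw [hb]
    intro i
    rw [Basis.repr_self, Finsupp.single_apply]
    split_ifs
    · exact ⟨1, by simp⟩
    · exact ⟨0, by simp⟩
  have hZ : ∀ x : Lk B L p, ∀ i, IsZ (b.repr ((p : ℚ) • (x : V)) i) := fun x i =>
    (hb _).1 x.2.2 i
  let φ : Lk B L p →+ (Fin n → ZMod p) :=
    AddMonoidHom.mk' (fun x i => (((b.repr ((p : ℚ) • (x : V)) i).num : ℤ) : ZMod p)) (by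
      intro x y
      funext i
      rw [Pi.add_apply, ← Int.cast_add, ← num_add (hZ x i) (hZ y i)]
      rw [AddSubgroup.coe_add, smul_add, map_add, Finsupp.add_apply])
  have hφ : ∀ (x : Lk B L p) i, φ x i = (((b.repr ((p : ℚ) • (x : V)) i).num : ℤ) : ZMod p) :=
    fun _ _ => rfl
  -- the kernel
  have hker : φ.ker = L.addSubgroupOf (Lk B L p) := by
    ext x
    rw [AddMonoidHom.mem_ker, AddSubgroup.mem_addSubgroupOf, hb]
    constructor
    · intro h i
      have h1 := congrFun h i
      rw [hφ, Pi.zero_apply, ZMod.intCast_zmod_eq_zero_iff_dvd] at h1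
      obtain ⟨k, hk⟩ := h1
      have h2 := num_cast (hZ x i)
      rw [hk, map_smul, Finsupp.smul_apply, smul_eq_mul] at h2
      push_cast at h2
      exact ⟨k, (mul_left_cancel₀ hp0 h2).symm⟩
    · intro h
      funext i
      rw [hφ, Pi.zero_apply, ZMod.intCast_zmod_eq_zero_iff_dvd]
      obtain ⟨k, hk⟩ := h i
      refine ⟨k, ?_⟩
      have h2 := num_cast (hZ x i)
      rw [map_smul, Finsupp.smul_apply, smul_eq_mul, hk] at h2
      rw [map_smul, Finsupp.smul_apply, smul_eq_mul, hk]
      exact_mod_cast h2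
  -- expansions
  have hexp : ∀ (m : Fin n → ℤ) (j : Fin n),
      B (∑ i, (m i : ℚ) • b i) (b j) = ((∑ i, m i * G i j : ℤ) : ℚ) := by
    intro m j
    rw [map_sum, LinearMap.sum_apply]
    push_cast
    refine Finset.sum_congr rfl fun i _ => ?_
    rw [map_smul, LinearMap.smul_apply, smul_eq_mul, hG]
  have hrange : φ.range = (RadM p G).toAddSubgroup := by
    ext c
    rw [AddMonoidHom.mem_range, Submodule.mem_toAddSubgroup, mem_RadM]
    constructor
    · rintro ⟨x, rfl⟩ j
      have h1 : (p : ℚ) • (x : V) =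
          ∑ i, (((b.repr ((p : ℚ) • (x : V)) i).num : ℤ) : ℚ) • b i := by
        conv_lhs => rw [← b.sum_repr ((p : ℚ) • (x : V))]
        exact Finset.sum_congr rfl fun i _ => by rw [num_cast (hZ x i)]
      have h2 := hexp (fun i => (b.repr ((p : ℚ) • (x : V)) i).num) j
      rw [← h1, map_smul, LinearMap.smul_apply, smul_eq_mul] at h2
      obtain ⟨z, hz⟩ := x.2.1 (b j) (hbL j)
      rw [hz] at h2
      have h3 : ∑ i, (b.repr ((p : ℚ) • (x : V)) i).num * G i j = p * z := by
        exact_mod_cast h2.symm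
      have h4 : ∑ i, φ x i * (G i j : ZMod p) =
          ((∑ i, (b.repr ((p : ℚ) • (x : V)) i).num * G i j : ℤ) : ZMod p) := by
        push_cast
        rfl
      rw [h4, h3]
      push_cast
      rw [ZMod.natCast_self, zero_mul]
    · intro hc
      choose m hm using fun i => ZMod.intCast_surjective (c i)
      set x : V := (p : ℚ)⁻¹ • ∑ i, (m i : ℚ) • b i with hx
      have hpx : (p : ℚ) • x = ∑ i, (m i : ℚ) • b i := by
        rw [hx, smul_smul, mul_inv_cancel₀ hp0, one_smul]
      have hrep : ∀ i, b.repr ((p : ℚ) • x) i = (m i : ℚ) := by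
        intro i
        rw [hpx, Basis.repr_sum_self]
      have hdu : ∀ j, IsZ (B x (b j)) := by
        intro j
        have h1 : ((∑ i, m i * G i j : ℤ) : ZMod p) = 0 := by
          push_cast
          rw [← hc j]
          exact Finset.sum_congr rfl fun i _ => by rw [hm]
        rw [ZMod.intCast_zmod_eq_zero_iff_dvd] at h1
        obtain ⟨k, hk⟩ := h1
        refine ⟨k, ?_⟩
        rw [hx, map_smul, LinearMap.smul_apply, smul_eq_mul, hexp, hk]
        push_cast
        rw [inv_mul_cancel_left₀ hp0]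
      have hxm : x ∈ Lk B L p := by
        refine ⟨?_, ?_⟩
        · intro y hy
          rw [← b.sum_repr y, map_sum]
          refine IsZ_sum _ _ fun j _ => ?_
          rw [map_smul, smul_eq_mul]
          exact ((hb y).1 hy j).mul (hdu j)
        · rw [hb]
          intro i
          exact ⟨m i, hrep i⟩
      refine ⟨⟨x, hxm⟩, ?_⟩
      funext i
      rw [hφ]
      simp only
      rw [hrep, Rat.num_intCast, hm]
  have h1 : L.relIndex (Lk B L p) = Nat.card φ.range := by
    rw [← AddSubgroup.index_ker, hker]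
    rfl
  rw [h1, hrange]
  have h2 : Nat.card (RadM p G) = Nat.card (ZMod p) ^ finrank (ZMod p) (RadM p G) :=
    Module.natCard_eq_pow_finrank
  rw [Nat.card_zmod] at h2
  exact h2

end Pool.Agent.RFN
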