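import Mathlib
import Pool.Agent.Lib.MP_dcc566_gt_R.LSe

/-!
# The rank modulo `p` from the radical of the Gram matrix
-/

set_option autoImplicit false

namespace Pool.Agent.RFN

open Module

variable {V : Type} [AddCommGroup V] [Module ℚ V]

section aux

/-- `r` linearly independent vectors of a subspace, indexed by `ℕ` -/
private theorem LSe2_fam {F : Type} [Field F] {n r : ℕ} (S : Submodule F (Fin n → F))
    (h : r ≤ finrank F S) : ∃ k : ℕ → Fin n → F, (∀ j, k j ∈ S) ∧
      ∀ c : ℕ → F, ∑ j ∈ Finset.range r, c j • k j = 0 → ∀ j < r, c j = 0 := by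
  classical
  let bs := finBasis F S
  let k : ℕ → Fin n → F := fun j => if h : j < finrank F S then (bs ⟨j, h⟩ : Fin n → F) else 0
  refine ⟨k, fun j => ?_, fun c hc j hj => ?_⟩
  · by_cases h1 : j < finrank F S
    · have h2 : k j = (bs ⟨j, h1⟩ : Fin n → F) := dif_pos h1
      rw [h2]
      exact (bs ⟨j, h1⟩).2
    · have h2 : k j = 0 := dif_neg h1
      rw [h2]
      exact S.zero_mem
  · have h1 : LinearIndependent F fun j : Fin r => k j := by
      have h2 : (fun j : Fin r => k j) = S.subtype ∘ bs ∘ Fin.castLE h := by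
        funext j
        exact dif_pos (lt_of_lt_of_le j.2 h)
      rw [h2]
      exact (bs.linearIndependent.comp _ (Fin.castLE_injective h)).map' _ S.ker_subtype
    rw [Finset.sum_range fun j => c j • k j] at hc
    exact Fintype.linearIndependent_iff.1 h1 (fun j => c j) hc ⟨j, hj⟩

variable {n : ℕ} (b : Basis (Fin n) ℚ V)

/-- the vector with the integral coordinates `m` -/
private noncomputable def LSe2_v (m : Fin n → ℤ) : V := ∑ i, (m i : ℚ) • b i

private theorem LSe2_repr (m : Fin n → ℤ) (i : Fin n) : b.repr (LSe2_v b m) i = m i := by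
  unfold LSe2_v
  rw [Basis.repr_sum_self]

private theorem LSe2_sum (r : ℕ) (c : ℕ → ℤ) (m : ℕ → Fin n → ℤ) :
    ∑ j ∈ Finset.range r, (c j : ℚ) • LSe2_v b (m j) =
      LSe2_v b (fun i => ∑ j ∈ Finset.range r, c j * m j i) := by
  apply b.repr.injective
  ext i
  rw [LSe2_repr, map_sum, Finsupp.finsetSum_apply]
  push_cast
  refine Finset.sum_congr rfl fun j _ => ?_
  rw [map_smul, Finsupp.smul_apply, LSe2_repr, smul_eq_mul]

variable {b} {Λ : AddSubgroup V}

private theorem LSe2_mem (hb : ∀ x, x ∈ Λ ↔ ∀ i, IsZ (b.repr x i)) (m : Fin n → ℤ) :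
    LSe2_v b m ∈ Λ := (hb _).2 fun i => ⟨m i, LSe2_repr b m i⟩

private theorem LSe2_b (hb : ∀ x, x ∈ Λ ↔ ∀ i, IsZ (b.repr x i)) (j : Fin n) : b j ∈ Λ := by
  rw [hb]
  intro i
  rw [Basis.repr_self, Finsupp.single_apply]
  split_ifs
  · exact ⟨1, by simp⟩
  · exact ⟨0, by simp⟩

private theorem LSe2_rad {B : Frm V} (hb : ∀ x, x ∈ Λ ↔ ∀ i, IsZ (b.repr x i))
    {G : Fin n → Fin n → ℤ} (hG : ∀ i j, B (b i) (b j) = (G i j : ℚ)) {p : ℕ} (m : Fin n → ℤ) :
    (∀ x ∈ Λ, Dv p (B (LSe2_v b m) x)) ↔ (fun i => (m i : ZMod p)) ∈ RadM p G := by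
  have hval : ∀ j, B (LSe2_v b m) (b j) = ((∑ i, m i * G i j : ℤ) : ℚ) := by
    intro j
    unfold LSe2_v
    rw [map_sum, LinearMap.sum_apply]
    push_cast
    refine Finset.sum_congr rfl fun i _ => ?_
    rw [map_smul, LinearMap.smul_apply, hG, smul_eq_mul]
  constructor
  · intro h j
    have h1 := h (b j) (LSe2_b hb j)
    rw [hval] at h1
    have h2 := (ZMod.intCast_zmod_eq_zero_iff_dvd _ p).2 (Dv_int.1 h1)
    push_cast at h2
    exact h2
  · intro h x hx
    have hx' := (hb x).1 hx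
    choose y hy using hx'
    have h1 : ∀ j, ∃ t : ℤ, ∑ i, m i * G i j = p * t := by
      intro j
      have h2 : ((∑ i, m i * G i j : ℤ) : ZMod p) = 0 := by
        push_cast
        exact h j
      exact (ZMod.intCast_zmod_eq_zero_iff_dvd _ p).1 h2
    choose t ht using h1
    refine ⟨∑ j, y j * t j, ?_⟩
    rw [← b.sum_repr x, map_sum]
    push_cast
    rw [Finset.mul_sum]
    refine Finset.sum_congr rfl fun j _ => ?_
    rw [map_smul, hval, ht, hy, smul_eq_mul]
    push_cast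
    ring

end aux

/-- PROOF.  (Compare `LKf.lean`, `rad3`, complete; its private lemmas can be copied.)  `RadM p G` has a complement `C` in `Fin n → ZMod p`
(`Submodule.exists_isCompl`), `finrank C ≥ r`; take `r` linearly independent vectors `c l` of `C` and integer lifts `m l i`; `u l = ∑ i, m l i • b i ∈ L`.
If `∑ d l • u l` has all products with `L` divisible by `p`, then (products with the `b j`) `∑ l, d l • c l ∈ RadM p G`, and it is in `C`, so it is 0,
so all `d l = 0` in `ZMod p`. -/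
theorem rk_of_rad {B : Frm V} (hs : ∀ x y, B x y = B y x) {L : AddSubgroup V} (hE : EvL B L)
    {n : ℕ} {b : Basis (Fin n) ℚ V} (hb : ∀ x, x ∈ L ↔ ∀ i, IsZ (b.repr x i))
    {G : Fin n → Fin n → ℤ} (hG : ∀ i j, B (b i) (b j) = (G i j : ℚ)) {p : ℕ} (hp : p.Prime)
    {r : ℕ} (h : finrank (ZMod p) (RadM p G) + r ≤ n) : RkGe B L p r := by
  classical
  have : Fact p.Prime := ⟨hp⟩
  have hcomb : ∀ (k : ℕ → Fin n → ZMod p) (r : ℕ) (c : ℕ → ℤ),
      (fun i => ((∑ j ∈ Finset.range r, c j * ((k j i).val : ℤ) : ℤ) : ZMod p)) =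
        ∑ j ∈ Finset.range r, (c j : ZMod p) • k j := by
    intro k r c
    funext i
    rw [Finset.sum_apply]
    push_cast
    refine Finset.sum_congr rfl fun j _ => ?_
    rw [ZMod.natCast_zmod_val, Pi.smul_apply, smul_eq_mul]
  obtain ⟨K, hK⟩ := Submodule.exists_isCompl (RadM p G)
  have h1 := Submodule.finrank_add_eq_of_isCompl hK
  rw [Module.finrank_fin_fun] at h1
  obtain ⟨k, hk1, hk2⟩ := LSe2_fam (r := r) K (by omega)
  refine ⟨fun j => LSe2_v b fun i => ((k j i).val : ℤ), fun j _ => LSe2_mem hb _,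
    fun c hc j hj => ?_⟩
  rw [LSe2_sum b, LSe2_rad hb hG, hcomb] at hc
  have h2 : ∑ j ∈ Finset.range r, (c j : ZMod p) • k j ∈ K :=
    K.sum_mem fun j _ => K.smul_mem _ (hk1 j)
  have h3 := (Submodule.disjoint_def.1 hK.disjoint) _ hc h2
  exact (ZMod.intCast_zmod_eq_zero_iff_dvd _ p).1 (hk2 (fun j => (c j : ZMod p)) h3 j hj)

end Pool.Agent.RFN
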