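import Mathlib
import Pool.Agent.Lib.MP_dcc566_gt_R.LSe

/-!
# The rank of an alternating form is even
-/

set_option autoImplicit false

namespace Pool.Agent.RFN

open Module

/-- Splitting off a hyperbolic plane: the rank drops by two. -/
private theorem LSf_step {F W : Type} [Field F] [AddCommGroup W] [Module F W]
    [FiniteDimensional F W] (β : W →ₗ[F] W →ₗ[F] F) (hβ : ∀ x, β x x = 0) {x y : W}
    (hxy : β x y = 1) : ∃ β₁ : W →ₗ[F] W →ₗ[F] F, (∀ x, β₁ x x = 0) ∧
      finrank F (LinearMap.ker β₁) = finrank F (LinearMap.ker β) + 2 := by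
  have hs : ∀ u v, β u v = -β v u := by
    intro u v
    have h := hβ (u + v)
    simp only [map_add, LinearMap.add_apply, hβ, zero_add, add_zero] at h
    first
      | exact eq_neg_of_add_eq_zero_left h
      | exact eq_neg_of_add_eq_zero_right h
  have hyx : β y x = -1 := by rw [hs, hxy]
  let β₁ : W →ₗ[F] W →ₗ[F] F := LinearMap.mk₂ F
    (fun u v => β u v - β x u * β y v + β y u * β x v)
    (fun u u' v => by simp only [map_add, LinearMap.add_apply]; ring)
    (fun t u v => by simp only [map_smul, LinearMap.smul_apply, smul_eq_mul]; ring)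
    (fun u v v' => by simp only [map_add]; ring)
    (fun t u v => by simp only [map_smul, smul_eq_mul]; ring)
  have hβ₁ : ∀ u v, β₁ u v = β u v - β x u * β y v + β y u * β x v := fun _ _ => rfl
  refine ⟨β₁, fun u => by rw [hβ₁, hβ]; ring, ?_⟩
  have hker : ∀ k ∈ LinearMap.ker β, ∀ v, β k v = 0 ∧ β v k = 0 := by
    intro k hk v
    have h1 : β k v = 0 := by rw [LinearMap.mem_ker.1 hk]; rfl
    exact ⟨h1, by rw [hs, h1, neg_zero]⟩
  let Ψ : (LinearMap.ker β × F × F) →ₗ[F] W := (LinearMap.ker β).subtype.coprod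
    ((LinearMap.toSpanSingleton F W x).coprod (LinearMap.toSpanSingleton F W y))
  have hΨ : ∀ p, Ψ p = (p.1 : W) + (p.2.1 • x + p.2.2 • y) := fun _ => rfl
  have hmem : ∀ p, Ψ p ∈ LinearMap.ker β₁ := by
    intro p
    rw [LinearMap.mem_ker, hΨ]
    ext v
    obtain ⟨h1, -⟩ := hker p.1 p.1.2 v
    obtain ⟨-, h2⟩ := hker p.1 p.1.2 x
    obtain ⟨-, h3⟩ := hker p.1 p.1.2 y
    rw [hβ₁]
    simp only [map_add, map_smul, LinearMap.add_apply, LinearMap.smul_apply, smul_eq_mul,
      LinearMap.zero_apply, h1, h2, h3, hβ, hxy, hyx]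
    ring
  let Φ : (LinearMap.ker β × F × F) →ₗ[F] LinearMap.ker β₁ :=
    LinearMap.codRestrict (LinearMap.ker β₁) Ψ hmem
  have hΦ : ∀ p, (Φ p : W) = (p.1 : W) + (p.2.1 • x + p.2.2 • y) := fun _ => rfl
  have hbij : Function.Bijective Φ := by
    constructor
    · rw [injective_iff_map_eq_zero]
      intro p hp
      have h0 : (p.1 : W) + (p.2.1 • x + p.2.2 • y) = 0 := by
        rw [← hΦ, hp]
        rfl
      obtain ⟨-, h2⟩ := hker p.1 p.1.2 x
      obtain ⟨-, h3⟩ := hker p.1 p.1.2 y
      have h4 := congrArg (β x) h0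
      have h5 := congrArg (β y) h0
      simp only [map_add, map_smul, smul_eq_mul, h2, h3, hβ, hxy, hyx, map_zero] at h4 h5
      have e2 : p.2.2 = 0 := by linear_combination h4
      have e1 : p.2.1 = 0 := by linear_combination -h5
      rw [e1, e2, zero_smul, zero_smul, add_zero, add_zero] at h0
      exact Prod.ext (Subtype.ext h0) (Prod.ext e1 e2)
    · rintro ⟨u, hu⟩
      have hu' : ∀ v, β u v - β x u * β y v + β y u * β x v = 0 := by
        intro v
        rw [← hβ₁, LinearMap.mem_ker.1 hu]
        rfl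
      have hk : u - β x u • y + β y u • x ∈ LinearMap.ker β := by
        rw [LinearMap.mem_ker]
        ext v
        simp only [map_add, map_sub, map_smul, LinearMap.add_apply, LinearMap.sub_apply,
          LinearMap.smul_apply, smul_eq_mul, LinearMap.zero_apply]
        exact hu' v
      refine ⟨(⟨_, hk⟩, -(β y u), β x u), Subtype.ext ?_⟩
      rw [hΦ]
      show u - β x u • y + β y u • x + (-(β y u) • x + β x u • y) = u
      rw [neg_smul]
      abel
  rw [← (LinearEquiv.ofBijective Φ hbij).finrank_eq, Module.finrank_prod, Module.finrank_prod,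
    Module.finrank_self]

/-- PROOF.  (First look whether Mathlib has it: alternating forms, `LinearMap.IsAlt`, symplectic basis, `Matrix` Pfaffian ...)  Strong induction on
`n`.  `β x y = - β y x`.  If `β = 0`: the kernel is everything, `n - n = 0`.  Otherwise there are `x y` with `β x y = 1` (scale).  Let
`U = {w : β x w = 0 ∧ β y w = 0} = ker (β x) ⊓ ker (β y)`.  Every `w` is uniquely `w = a x + b y + u`, `u ∈ U` (`β x w = b`, `β y w = -a`), so
`finrank U = n - 2`.  The restriction `β'` of `β` to `U` is alternating, and `ker β'` and `ker β` have the same dimension: `ker β ≤ U`, and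
`u ∈ U` with `β u u' = 0` for all `u' ∈ U` satisfies `β u w = 0` for all `w` (decompose `w`; `β u x = - β x u = 0`).  So the linear map
`ker β' → ker β` induced by the inclusion is an equivalence.  Induction hypothesis for `U`. -/
theorem alt_parity {F : Type} [Field F] (n : ℕ) : ∀ {W : Type} [AddCommGroup W] [Module F W]
    [FiniteDimensional F W] (β : W →ₗ[F] W →ₗ[F] F), (∀ x, β x x = 0) → finrank F W = n →
    Even (n - finrank F (LinearMap.ker β)) := by
  intro W _ _ _
  suffices key : ∀ (m : ℕ) (β : W →ₗ[F] W →ₗ[F] F), (∀ x, β x x = 0) → finrank F W = n →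
      n - finrank F (LinearMap.ker β) = m → Even m from
    fun β hβ hn => key _ β hβ hn rfl
  intro m
  induction m using Nat.strong_induction_on with
  | _ m ih =>
    intro β hβ hn hm
    by_cases h0 : β = 0
    · have h1 : LinearMap.ker β = ⊤ := by rw [h0, LinearMap.ker_zero]
      rw [h1, finrank_top, hn, Nat.sub_self] at hm
      rw [← hm]
      exact Even.zero
    · obtain ⟨x, y, hxy⟩ : ∃ x y, β x y ≠ 0 := by
        by_contra hne
        apply h0
        ext x y
        by_contra h1
        exact hne ⟨x, y, h1⟩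
      obtain ⟨β₁, h1, h2⟩ := LSf_step β hβ (x := x) (y := (β x y)⁻¹ • y) (by
        rw [map_smul, smul_eq_mul, inv_mul_cancel₀ hxy])
      have h3 := Submodule.finrank_le (LinearMap.ker β₁)
      rw [hn, h2] at h3
      have h4 := ih (m - 2) (by omega) β₁ h1 hn (by omega)
      have h5 : m = m - 2 + 2 := by omega
      rw [h5]
      exact h4.add even_two

/-- PROOF.  `β c d = ∑ i, ∑ j, c i * G i j * d j` on `Fin n → ZMod 2` (`Matrix.toLinearMap₂'`) is alternating: `β c c = ∑_{i<j} 2 c i c j G i j + ∑ c i² G i i`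
and `G i i` is even.  (With `β c d = β d c` the function `c ↦ β c c` is additive in characteristic 2, and `β (Pi.single i t) (Pi.single i t) = 0`.)
`ker β = RadM 2 G`.  `alt_parity`. -/
theorem radM_parity {n : ℕ} (G : Fin n → Fin n → ℤ) (hs : ∀ i j, G i j = G j i)
    (he : ∀ i, Even (G i i)) : Even (n - finrank (ZMod 2) (RadM 2 G)) := by
  let β : (Fin n → ZMod 2) →ₗ[ZMod 2] (Fin n → ZMod 2) →ₗ[ZMod 2] ZMod 2 :=
    LinearMap.mk₂ (ZMod 2) (fun c d => ∑ j, (∑ i, c i * (G i j : ZMod 2)) * d j)
      (fun c c' d => by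
        simp only [Pi.add_apply, add_mul, Finset.sum_add_distrib])
      (fun t c d => by
        simp only [Pi.smul_apply, smul_eq_mul, mul_assoc, ← Finset.mul_sum])
      (fun c d d' => by
        simp only [Pi.add_apply, mul_add, Finset.sum_add_distrib])
      (fun t c d => by
        simp only [Pi.smul_apply, smul_eq_mul, Finset.mul_sum]
        exact Finset.sum_congr rfl fun j _ => by ring)
  have hβ : ∀ c d, β c d = ∑ j, (∑ i, c i * (G i j : ZMod 2)) * d j := fun _ _ => rfl
  have halt : ∀ c, β c c = 0 := by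
    intro c
    have h1 : β c c = ∑ p : Fin n × Fin n, c p.2 * (G p.2 p.1 : ZMod 2) * c p.1 := by
      rw [hβ, Fintype.sum_prod_type]
      exact Finset.sum_congr rfl fun j _ => by rw [Finset.sum_mul]
    rw [h1]
    refine Finset.sum_involution (fun p _ => (p.2, p.1)) ?_ ?_ ?_ ?_
    · rintro ⟨i, j⟩ _
      show c j * (G j i : ZMod 2) * c i + c i * (G i j : ZMod 2) * c j = 0
      rw [hs j i]
      have h2 : c j * (G i j : ZMod 2) * c i + c i * (G i j : ZMod 2) * c j =
          2 * (c j * (G i j : ZMod 2) * c i) := by ring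
      have h3 : (2 : ZMod 2) = 0 := by decide
      rw [h2, h3, zero_mul]
    · rintro ⟨i, j⟩ _ hne heq
      apply hne
      have h2 : j = i := congrArg Prod.fst heq
      subst h2
      have h3 : (G j j : ZMod 2) = 0 := by
        rw [ZMod.intCast_zmod_eq_zero_iff_dvd]
        exact_mod_cast (he j).two_dvd
      show c j * (G j j : ZMod 2) * c j = 0
      rw [h3, mul_zero, zero_mul]
    · intro p _
      exact Finset.mem_univ _
    · rintro ⟨i, j⟩ _
      rfl
  have hker : LinearMap.ker β = RadM 2 G := by
    ext c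
    rw [LinearMap.mem_ker, mem_RadM]
    constructor
    · intro h j
      have h1 : β c (Pi.single j 1) = 0 := by rw [h]; rfl
      rw [hβ] at h1
      simpa [Pi.single_apply] using h1
    · intro h
      refine LinearMap.ext fun d => ?_
      rw [hβ]
      refine Finset.sum_eq_zero fun j _ => ?_
      rw [h j, zero_mul]
  have h := alt_parity (F := ZMod 2) n β halt (by rw [Module.finrank_fin_fun])
  rwa [hker] at h

end Pool.Agent.RFN
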