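import Mathlib

/-!
# Quadratic forms in three variables over the field with `p` elements
-/

set_option autoImplicit false

namespace Pool.Agent.RFN

/-- A quadratic form in three variables has a nontrivial zero modulo `p`.

PROOF.  Chevalley–Warning (`char_dvd_card_solutions` of Mathlib, file
`Mathlib/FieldTheory/ChevalleyWarning.lean`) with
`K = ZMod p`, `σ = Fin 3` and the polynomial
`P = C a * X 0 ^ 2 + C b * X 1 ^ 2 + C c * X 2 ^ 2 + C d * X 0 * X 1 + C e * X 1 * X 2 + C f * X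
2 * X 0`, whose total degree is
`≤ 2 < 3` (`MvPolynomial.totalDegree_add`, `totalDegree_mul`, `totalDegree_C`,
`totalDegree_X_pow` ...): the number of zeros
in `(ZMod p)^3` is divisible by `p`, and `0` is a zero, so there is a second zero `(x,y,z) ≠ 0`
(`Fintype.card ≥ p > 1`, `Fintype.exists_ne_of_one_lt_card`).  Lift it to integers
(`ZMod.intCast_surjective` or
`ZMod.intCast_zmod_cast`) and use `ZMod.intCast_zmod_eq_zero_iff_dvd` / `ZMod.intCast_cast`. -/
theorem cw3 {p : ℕ} (hp : p.Prime) (a b c d e f : ℤ) :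
    ∃ x y z : ℤ, ¬ ((p : ℤ) ∣ x ∧ (p : ℤ) ∣ y ∧ (p : ℤ) ∣ z) ∧
      (p : ℤ) ∣ a * x ^ 2 + b * y ^ 2 + c * z ^ 2 + d * x * y + e * y * z + f * z * x := by
  classical
  haveI : Fact p.Prime := ⟨hp⟩
  have hT : ∀ (k : ZMod p) (i j : Fin 3),
      (MvPolynomial.C k * MvPolynomial.X i * MvPolynomial.X j :
        MvPolynomial (Fin 3) (ZMod p)).totalDegree ≤ 2 := by
    intro k i j
    refine (MvPolynomial.totalDegree_mul _ _).trans ?_
    have h1 := MvPolynomial.totalDegree_mul (MvPolynomial.C k : MvPolynomial (Fin 3) (ZMod p))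
      (MvPolynomial.X i)
    rw [MvPolynomial.totalDegree_C, MvPolynomial.totalDegree_X] at h1
    rw [MvPolynomial.totalDegree_X]
    omega
  set P : MvPolynomial (Fin 3) (ZMod p) :=
    MvPolynomial.C (a : ZMod p) * MvPolynomial.X 0 * MvPolynomial.X 0 +
    MvPolynomial.C (b : ZMod p) * MvPolynomial.X 1 * MvPolynomial.X 1 +
    MvPolynomial.C (c : ZMod p) * MvPolynomial.X 2 * MvPolynomial.X 2 +
    MvPolynomial.C (d : ZMod p) * MvPolynomial.X 0 * MvPolynomial.X 1 +
    MvPolynomial.C (e : ZMod p) * MvPolynomial.X 1 * MvPolynomial.X 2 +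
    MvPolynomial.C (f : ZMod p) * MvPolynomial.X 2 * MvPolynomial.X 0 with hP
  have hadd : ∀ A B : MvPolynomial (Fin 3) (ZMod p), A.totalDegree ≤ 2 → B.totalDegree ≤ 2 →
      (A + B).totalDegree ≤ 2 := fun A B hA hB =>
    (MvPolynomial.totalDegree_add A B).trans (max_le hA hB)
  have hdeg : P.totalDegree ≤ 2 := by
    rw [hP]
    exact hadd _ _ (hadd _ _ (hadd _ _ (hadd _ _ (hadd _ _ (hT _ _ _) (hT _ _ _))
      (hT _ _ _)) (hT _ _ _)) (hT _ _ _)) (hT _ _ _)
  have hdvd := char_dvd_card_solutions p (f := P) (by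
    rw [Fintype.card_fin]
    omega)
  have hev : ∀ v : Fin 3 → ZMod p, MvPolynomial.eval v P =
      (a : ZMod p) * v 0 ^ 2 + b * v 1 ^ 2 + c * v 2 ^ 2 + d * v 0 * v 1 + e * v 1 * v 2 +
        f * v 2 * v 0 := by
    intro v
    rw [hP]
    simp only [map_add, map_mul, MvPolynomial.eval_C, MvPolynomial.eval_X]
    ring
  have h0 : MvPolynomial.eval (0 : Fin 3 → ZMod p) P = 0 := by
    rw [hev]
    simp
  have hcard : 1 < Fintype.card {x : Fin 3 → ZMod p // MvPolynomial.eval x P = 0} := by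
    have h1 : 0 < Fintype.card {x : Fin 3 → ZMod p // MvPolynomial.eval x P = 0} :=
      Fintype.card_pos_iff.2 ⟨⟨0, h0⟩⟩
    exact lt_of_lt_of_le hp.one_lt (Nat.le_of_dvd h1 hdvd)
  obtain ⟨⟨v, hv⟩, hne⟩ := Fintype.exists_ne_of_one_lt_card hcard ⟨0, h0⟩
  obtain ⟨x, hx⟩ := ZMod.intCast_surjective (v 0)
  obtain ⟨y, hy⟩ := ZMod.intCast_surjective (v 1)
  obtain ⟨z, hz⟩ := ZMod.intCast_surjective (v 2)
  refine ⟨x, y, z, ?_, ?_⟩
  · rintro ⟨h1, h2, h3⟩
    apply hne
    apply Subtype.ext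
    funext i
    rw [← ZMod.intCast_zmod_eq_zero_iff_dvd] at h1 h2 h3
    rw [hx] at h1
    rw [hy] at h2
    rw [hz] at h3
    fin_cases i
    · exact h1
    · exact h2
    · exact h3
  · rw [← ZMod.intCast_zmod_eq_zero_iff_dvd]
    push_cast
    rw [hx, hy, hz, ← hev, hv]

end Pool.Agent.RFN
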