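import Mathlib
import Pool.Agent.Lib.MP_dcc566_gt_R.LTa

/-!
# Three independent vectors orthogonal to a given family
-/

set_option autoImplicit false

namespace Pool.Agent.RFN

variable {V : Type} [AddCommGroup V] [Module ℚ V]

section linalg

variable {F C E : Type} [Field F] [AddCommGroup C] [Module F C] [AddCommGroup E] [Module F E]
  [FiniteDimensional F C] [FiniteDimensional F E]

private theorem lin_three {k : ℕ} (hC : Module.finrank F C = 2 * k + 3)
    (hE : Module.finrank F E = k) (T : C →ₗ[F] E) (P : Submodule F (C × E))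
    (hP : ∀ c, (c, (0 : E)) ∈ P → c = 0) :
    ∃ c : Fin 3 → C, (∀ j, T (c j) = 0) ∧
      ∀ (a : Fin 3 → F) (e : E), (∑ j, a j • c j, e) ∈ P → ∀ j, a j = 0 := by
  set D : Submodule F C := P.map (LinearMap.fst F C E) with hD
  have hPk : Module.finrank F P ≤ k := by
    rw [← hE]
    refine LinearMap.finrank_le_finrank_of_injective
      (f := (LinearMap.snd F C E).comp P.subtype) ?_
    rw [← LinearMap.ker_eq_bot, LinearMap.ker_eq_bot']
    rintro ⟨⟨c, e⟩, hce⟩ h0
    have he : e = 0 := h0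
    subst he
    have := hP c hce
    subst this
    rfl
  have hDk : Module.finrank F D ≤ k := (Submodule.finrank_map_le _ _).trans hPk
  have hK : k + 3 ≤ Module.finrank F (LinearMap.ker T) := by
    have h1 := LinearMap.finrank_range_add_finrank_ker T
    have h2 := Submodule.finrank_le (LinearMap.range T)
    omega
  set f : LinearMap.ker T →ₗ[F] C ⧸ D := D.mkQ.comp (LinearMap.ker T).subtype with hf
  have hfa : ∀ y : LinearMap.ker T, f y = Submodule.Quotient.mk (y : C) := fun _ => rfl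
  have hker : Module.finrank F (LinearMap.ker f) ≤ k := by
    refine le_trans ?_ hDk
    have hm : ∀ y : LinearMap.ker f, ((y : LinearMap.ker T) : C) ∈ D := by
      intro y
      have h1 : f y = 0 := y.2
      rw [hfa, Submodule.Quotient.mk_eq_zero] at h1
      exact h1
    refine LinearMap.finrank_le_finrank_of_injective
      (f := LinearMap.codRestrict D
        ((LinearMap.ker T).subtype.comp (LinearMap.ker f).subtype) hm) ?_
    intro y z hyz
    have h1 := congrArg (fun t : D => (t : C)) hyz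
    exact Subtype.ext (Subtype.ext h1)
  have hran : 3 ≤ Module.finrank F (LinearMap.range f) := by
    have h1 := LinearMap.finrank_range_add_finrank_ker f
    omega
  set b := Module.finBasis F (LinearMap.range f) with hb
  have hex : ∀ j : Fin 3, ∃ y : LinearMap.ker T, f y = (b (Fin.castLE hran j) : C ⧸ D) := by
    intro j
    exact (b (Fin.castLE hran j)).2
  choose y hy using hex
  refine ⟨fun j => (y j : C), fun j => (y j).2, ?_⟩
  intro a e hae
  have h1 : (∑ j, a j • (y j : C)) ∈ D := ⟨_, hae, rfl⟩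
  have h2 : f (∑ j, a j • y j) = 0 := by
    rw [hf, LinearMap.comp_apply, Submodule.mkQ_apply, Submodule.Quotient.mk_eq_zero]
    have h3 : (LinearMap.ker T).subtype (∑ j, a j • y j) = ∑ j, a j • (y j : C) := by
      rw [map_sum]
      rfl
    rw [h3]
    exact h1
  have h4 : ∑ j, a j • b (Fin.castLE hran j) = 0 := by
    apply Subtype.ext
    rw [map_sum] at h2
    have h5 : ((∑ j, a j • b (Fin.castLE hran j) : LinearMap.range f) : C ⧸ D) =
        ∑ j, a j • (b (Fin.castLE hran j) : C ⧸ D) := by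
      rw [← Submodule.subtype_apply, map_sum]
      rfl
    rw [h5]
    rw [Submodule.coe_zero, ← h2]
    refine Finset.sum_congr rfl fun j _ => ?_
    rw [map_smul, hy]
  have h6 : LinearIndependent F (fun j : Fin 3 => b (Fin.castLE hran j)) :=
    b.linearIndependent.comp _ (Fin.castLE_injective hran)
  exact Fintype.linearIndependent_iff.1 h6 a h4

end linalg

section pairing

private noncomputable def qq (B : Frm V) (p : ℕ) (x y : V) : ZMod p := ((B x y).num : ZMod p)

variable {B : Frm V} {p : ℕ}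

private theorem qq_eq {x y : V} {n : ℤ} (h : B x y = n) : qq B p x y = (n : ZMod p) := by
  unfold qq
  rw [h, Rat.num_intCast]

private theorem qq_dv {x y : V} (h : IsZ (B x y)) : Dv p (B x y) ↔ qq B p x y = 0 := by
  obtain ⟨n, hn⟩ := h
  rw [qq_eq hn, hn, Dv_int, ZMod.intCast_zmod_eq_zero_iff_dvd]

private theorem qq_add {x y w : V} (hx : IsZ (B x w)) (hy : IsZ (B y w)) :
    qq B p (x + y) w = qq B p x w + qq B p y w := by
  obtain ⟨m, hm⟩ := hx
  obtain ⟨n, hn⟩ := hy
  have h : B (x + y) w = ((m + n : ℤ) : ℚ) := by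
    rw [map_add, LinearMap.add_apply, hm, hn]
    push_cast
    rfl
  rw [qq_eq h, qq_eq hm, qq_eq hn]
  push_cast
  rfl

private theorem qq_smul {x w : V} (hx : IsZ (B x w)) (c : ℤ) :
    qq B p ((c : ℚ) • x) w = (c : ZMod p) * qq B p x w := by
  obtain ⟨m, hm⟩ := hx
  have h : B ((c : ℚ) • x) w = ((c * m : ℤ) : ℚ) := by
    rw [map_smul, LinearMap.smul_apply, hm, smul_eq_mul]
    push_cast
    rfl
  rw [qq_eq h, qq_eq hm]
  push_cast
  rfl

private theorem isZ_smul {x w : V} (hx : IsZ (B x w)) (c : ℤ) : IsZ (B ((c : ℚ) • x) w) := by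
  rw [map_smul, LinearMap.smul_apply, smul_eq_mul]
  exact (IsZ.int c).mul hx

private theorem isZ_add {x y w : V} (hx : IsZ (B x w)) (hy : IsZ (B y w)) :
    IsZ (B (x + y) w) := by
  rw [map_add, LinearMap.add_apply]
  exact hx.add hy

private theorem isZ_sum {w : V} (m : ℕ) (c : ℕ → ℤ) (y : ℕ → V)
    (hy : ∀ i < m, IsZ (B (y i) w)) :
    IsZ (B (∑ i ∈ Finset.range m, (c i : ℚ) • y i) w) := by
  induction m with
  | zero => exact ⟨0, by simp⟩
  | succ m ih =>
    rw [Finset.sum_range_succ]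
    exact isZ_add (ih fun i hi => hy i (hi.trans m.lt_succ_self))
      (isZ_smul (hy m m.lt_succ_self) _)

private theorem qq_sum {w : V} (m : ℕ) (c : ℕ → ℤ) (y : ℕ → V)
    (hy : ∀ i < m, IsZ (B (y i) w)) :
    qq B p (∑ i ∈ Finset.range m, (c i : ℚ) • y i) w =
      ∑ i ∈ Finset.range m, (c i : ZMod p) * qq B p (y i) w := by
  induction m with
  | zero =>
    rw [Finset.sum_range_zero, Finset.sum_range_zero]
    have h : B (0 : V) w = ((0 : ℤ) : ℚ) := by simp
    rw [qq_eq h]
    simp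
  | succ m ih =>
    have hy' : ∀ i < m, IsZ (B (y i) w) := fun i hi => hy i (hi.trans m.lt_succ_self)
    rw [Finset.sum_range_succ, Finset.sum_range_succ,
      qq_add (isZ_sum m c y hy') (isZ_smul (hy m m.lt_succ_self) _), ih hy',
      qq_smul (hy m m.lt_succ_self)]

end pairing

/-- THREE VECTORS.  If the rank modulo `p` is at least `2 k + 3` and `x 0, ..., x (k-1) ∈ Λ`, there are three vectors
`v 0, v 1, v 2` of `Λ`, orthogonal to all `x i` modulo `p` and independent modulo the radical and the `x i`.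

PROOF.  Let `n = 2 k + 3`, `u = u 0, ..., u (n-1)` the independent family.  All pairings of vectors of `Λ` are integers
(`EvL.isZ hs hE`); write `[x,y] : ZMod p` for the class of the integer `B x y`, `x, y ∈ Λ`
(e.g. `[x,y] = ((B x y).num : ZMod p)`); it is biadditive on `Λ`, and `[x,y] = 0 ↔ Dv p (B x y)`.
Let `F = ZMod p`, `C = Fin n → F`, `E = Fin k → F` (finite dimensional spaces of dimensions `n`, `k`).
* `C0 : Submodule F C := {c | ∀ l < k, ∑ i, c i * [u i, x l] = 0}`, the kernel of a linear map `C → E`, so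
  `finrank C0 ≥ n - k = k + 3` (`LinearMap.finrank_range_add_finrank_ker`, `finrank range ≤ k`).
* `P : Submodule F (C × E) := {(c,b) | ∀ w ∈ Λ, ∑ i, c i * [u i, w] + ∑ l, b l * [x l, w] = 0}`.  The projection `P → E` is
  injective: if `(c,0) ∈ P`, take integers `c' i` lifting `c i`; then `Dv p (B (∑ c' i • u i) w)` for all `w ∈ Λ`, so `p ∣ c' i`,
  `c = 0`.  So `finrank P ≤ k`, and `D := P.map (LinearMap.fst F C E)` has `finrank D ≤ k` (`Submodule.finrank_map_le`).
* So there are three vectors `c⁰, c¹, c²` of `C0` linearly independent modulo `D`: the quotient map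
  `C → C ⧸ D` restricted to `C0` has range of dimension `≥ (k + 3) - k = 3` (`finrank (C0 ⊓ D) ≤ k`); choose three linearly
  independent vectors in this range (`exists_linearIndependent_...` / a basis `Module.finBasis` of the range, first three)
  and preimages in `C0`.
Lift to integers: `v j = ∑ i < n, c'ʲ i • u i ∈ Λ`.  `c^j ∈ C0` gives `Dv p (B (x l) (v j))` (symmetry).  If
`∑ a j • v j + ∑ c l • x l` pairs with all `w ∈ Λ` into `p ℤ` then `(∑ a j c^j, (c l)) ∈ P`, so `∑ a j c^j ∈ D`, so all `a j = 0` in `F`.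
(Working with functions `ℕ → ℤ` versus `Fin n → ZMod p`: extend by `0`, use `Finset.sum_range`.) -/
theorem three_vec {B : Frm V} (hs : ∀ x y, B x y = B y x) {Λ : AddSubgroup V} (hE : EvL B Λ)
    {p : ℕ} (hp : p.Prime) {k : ℕ} (hr : RkGe B Λ p (2 * k + 3)) {x : ℕ → V}
    (hx : ∀ i < k, x i ∈ Λ) :
    ∃ v0 ∈ Λ, ∃ v1 ∈ Λ, ∃ v2 ∈ Λ,
      (∀ l < k, Dv p (B (x l) v0) ∧ Dv p (B (x l) v1) ∧ Dv p (B (x l) v2)) ∧
      ∀ (a0 a1 a2 : ℤ) (c : ℕ → ℤ),
        (∀ w ∈ Λ, Dv p (B ((a0 : ℚ) • v0 + (a1 : ℚ) • v1 + (a2 : ℚ) • v2 +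
          ∑ i ∈ Finset.range k, (c i : ℚ) • x i) w)) →
        (p : ℤ) ∣ a0 ∧ (p : ℤ) ∣ a1 ∧ (p : ℤ) ∣ a2 := by
  have : Fact p.Prime := ⟨hp⟩
  obtain ⟨u, hu, hind⟩ := hr
  set n := 2 * k + 3 with hn
  choose L hL using ZMod.intCast_surjective (n := p)
  have hZ : ∀ y ∈ Λ, ∀ w ∈ Λ, IsZ (B y w) := fun y hy w hw => EvL.isZ hs hE hy hw
  -- the two linear objects
  let T : (Fin n → ZMod p) →ₗ[ZMod p] (Fin k → ZMod p) :=
    { toFun := fun c l => ∑ i, c i * qq B p (u i) (x l)
      map_add' := fun a b => by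
        funext l
        simp only [Pi.add_apply, add_mul, Finset.sum_add_distrib]
      map_smul' := fun a b => by
        funext l
        simp only [Pi.smul_apply, smul_eq_mul, RingHom.id_apply, Finset.mul_sum, mul_assoc] }
  let P : Submodule (ZMod p) ((Fin n → ZMod p) × (Fin k → ZMod p)) :=
    { carrier := {cb | ∀ w ∈ Λ, ∑ i, cb.1 i * qq B p (u i) w +
        ∑ l, cb.2 l * qq B p (x l) w = 0}
      add_mem' := fun {a b} ha hb w hw => by
        have h1 := ha w hw
        have h2 := hb w hw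
        simp only [Prod.fst_add, Prod.snd_add, Pi.add_apply, add_mul, Finset.sum_add_distrib]
        linear_combination h1 + h2
      zero_mem' := fun w _ => by simp
      smul_mem' := fun a b hb w hw => by
        have h1 := hb w hw
        simp only [Prod.smul_fst, Prod.smul_snd, Pi.smul_apply, smul_eq_mul, mul_assoc,
          ← Finset.mul_sum]
        linear_combination a * h1 }
  -- integral lifts
  let ce : (Fin n → ZMod p) → ℕ → ℤ := fun c i => if h : i < n then L (c ⟨i, h⟩) else 0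
  have hce : ∀ (c : Fin n → ZMod p) (g : ℕ → ZMod p),
      ∑ i ∈ Finset.range n, (ce c i : ZMod p) * g i = ∑ i : Fin n, c i * g i := by
    intro c g
    rw [Finset.sum_range]
    refine Finset.sum_congr rfl fun i _ => ?_
    have h1 : ce c i = L (c i) := by
      simp only [ce]
      rw [dif_pos i.2]
    rw [h1, hL]
  have hP0 : ∀ c, (c, (0 : Fin k → ZMod p)) ∈ P → c = 0 := by
    intro c hc
    have h1 : ∀ w ∈ Λ, Dv p (B (∑ i ∈ Finset.range n, (ce c i : ℚ) • u i) w) := by
      intro w hw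
      have hZu : ∀ i < n, IsZ (B (u i) w) := fun i hi => hZ _ (hu i hi) w hw
      rw [qq_dv (isZ_sum n _ u hZu), qq_sum n _ u hZu, hce c (fun i => qq B p (u i) w)]
      have h2 := hc w hw
      simpa using h2
    funext i
    have h2 := hind _ h1 i i.2
    rw [← ZMod.intCast_zmod_eq_zero_iff_dvd] at h2
    have h3 : ce c i = L (c i) := by
      simp only [ce]
      rw [dif_pos i.2]
    rw [h3, hL] at h2
    exact h2
  obtain ⟨c, hc0, hc1⟩ := lin_three (k := k) (F := ZMod p) (C := Fin n → ZMod p)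
    (E := Fin k → ZMod p) (by rw [Module.finrank_fin_fun]) (by rw [Module.finrank_fin_fun])
    T P hP0
  let v : Fin 3 → V := fun j => ∑ i ∈ Finset.range n, (ce (c j) i : ℚ) • u i
  have hv : ∀ j, v j ∈ Λ := fun j => sum_mem_L hu _
  have hqv : ∀ j, ∀ w ∈ Λ, qq B p (v j) w = ∑ i : Fin n, c j i * qq B p (u i) w := by
    intro j w hw
    have hZu : ∀ i < n, IsZ (B (u i) w) := fun i hi => hZ _ (hu i hi) w hw
    simp only [v]
    rw [qq_sum n _ u hZu, hce (c j) (fun i => qq B p (u i) w)]
  have horth : ∀ j, ∀ l < k, Dv p (B (x l) (v j)) := by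
    intro j l hl
    rw [hs, qq_dv (hZ _ (hv j) _ (hx l hl)), hqv j _ (hx l hl)]
    have h1 := congrFun (hc0 j) ⟨l, hl⟩
    exact h1
  refine ⟨v 0, hv 0, v 1, hv 1, v 2, hv 2,
    fun l hl => ⟨horth 0 l hl, horth 1 l hl, horth 2 l hl⟩, ?_⟩
  intro a0 a1 a2 b hb
  have hmem : (∑ j, (![(a0 : ZMod p), (a1 : ZMod p), (a2 : ZMod p)] : Fin 3 → ZMod p) j • c j,
      (fun l : Fin k => (b l : ZMod p))) ∈ P := by
    intro w hw
    have h1 := hb w hw
    have hZx : ∀ i < k, IsZ (B (x i) w) := fun i hi => hZ _ (hx i hi) w hw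
    have z0 := hZ _ (hv 0) w hw
    have z1 := hZ _ (hv 1) w hw
    have z2 := hZ _ (hv 2) w hw
    have s0 := isZ_smul z0 a0
    have s1 := isZ_smul z1 a1
    have s2 := isZ_smul z2 a2
    have s3 := isZ_sum k b x hZx
    rw [qq_dv (isZ_add (isZ_add (isZ_add s0 s1) s2) s3), qq_add (isZ_add (isZ_add s0 s1) s2) s3,
      qq_add (isZ_add s0 s1) s2, qq_add s0 s1, qq_smul z0, qq_smul z1, qq_smul z2,
      qq_sum k b x hZx, hqv 0 w hw, hqv 1 w hw, hqv 2 w hw, Finset.sum_range] at h1
    have h2 : ∑ i : Fin n, (∑ j, (![(a0 : ZMod p), (a1 : ZMod p), (a2 : ZMod p)] :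
        Fin 3 → ZMod p) j • c j) i * qq B p (u i) w =
        (a0 : ZMod p) * ∑ i : Fin n, c 0 i * qq B p (u i) w +
        (a1 : ZMod p) * ∑ i : Fin n, c 1 i * qq B p (u i) w +
        (a2 : ZMod p) * ∑ i : Fin n, c 2 i * qq B p (u i) w := by
      rw [Finset.mul_sum, Finset.mul_sum, Finset.mul_sum, ← Finset.sum_add_distrib,
        ← Finset.sum_add_distrib]
      refine Finset.sum_congr rfl fun i _ => ?_
      simp [Fin.sum_univ_three]
      ring
    change ∑ i : Fin n, (∑ j, (![(a0 : ZMod p), (a1 : ZMod p), (a2 : ZMod p)] :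
        Fin 3 → ZMod p) j • c j) i * qq B p (u i) w +
        ∑ l : Fin k, (b l : ZMod p) * qq B p (x l) w = 0
    rw [h2]
    exact h1
  have h3 := hc1 _ _ hmem
  have e0 : (a0 : ZMod p) = 0 := by simpa using h3 0
  have e1 : (a1 : ZMod p) = 0 := by simpa using h3 1
  have e2 : (a2 : ZMod p) = 0 := by simpa using h3 2
  rw [ZMod.intCast_zmod_eq_zero_iff_dvd] at e0 e1 e2
  exact ⟨e0, e1, e2⟩

end Pool.Agent.RFN
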