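import Mathlib
import Pool.Agent.Lib.MP_dcc566_gt_R.LKa
import Pool.Agent.Lib.MP_dcc566_gt_R.LKc

/-!
# Singular vectors orthogonal to a given family (Chevalley–Warning)
-/

set_option autoImplicit false

namespace Pool.Agent.RFN

variable {V : Type} [AddCommGroup V] [Module ℚ V]

/-- The norm of an integral combination of three vectors of an even lattice. -/
theorem norm3 {B : Frm V} (hs : ∀ x y, B x y = B y x) {v0 v1 v2 : V} {n0 n1 n2 m01 m12 m20 : ℤ}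
    (h0 : B v0 v0 = 2 * n0) (h1 : B v1 v1 = 2 * n1) (h2 : B v2 v2 = 2 * n2)
    (h01 : B v0 v1 = m01) (h12 : B v1 v2 = m12) (h20 : B v2 v0 = m20) (x y z : ℤ) :
    B ((x : ℚ) • v0 + (y : ℚ) • v1 + (z : ℚ) • v2) ((x : ℚ) • v0 + (y : ℚ) • v1 + (z : ℚ) • v2) =
      2 * ((n0 * x ^ 2 + n1 * y ^ 2 + n2 * z ^ 2 + m01 * x * y + m12 * y * z + m20 * z * x : ℤ) :
        ℚ) := by
  simp only [map_add, map_smul, LinearMap.add_apply, LinearMap.smul_apply, smul_eq_mul]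
  rw [hs v1 v0, hs v2 v1, hs v0 v2, h0, h1, h2, h01, h12, h20]
  push_cast
  ring

/-- CHV: a singular vector, orthogonal to the `x i` and outside the radical plus the span of the `x i`. -/
theorem chv {B : Frm V} (hs : ∀ x y, B x y = B y x) {Λ : AddSubgroup V} (hE : EvL B Λ)
    {p : ℕ} (hp : p.Prime) {k : ℕ} (hr : RkGe B Λ p (2 * k + 3)) (x : ℕ → V)
    (hx : ∀ i < k, x i ∈ Λ) :
    ∃ z ∈ Λ, (∀ i < k, Dv p (B (x i) z)) ∧ Dv (2 * p) (B z z) ∧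
      ∀ (a : ℤ) (c : ℕ → ℤ), (∀ w ∈ Λ, Dv p (B ((a : ℚ) • z +
        ∑ i ∈ Finset.range k, (c i : ℚ) • x i) w)) → (p : ℤ) ∣ a := by
  obtain ⟨v0, hv0, v1, hv1, v2, hv2, hort, hind⟩ := three_vec hs hE hp hr hx
  obtain ⟨n0, hn0⟩ := hE v0 hv0
  obtain ⟨n1, hn1⟩ := hE v1 hv1
  obtain ⟨n2, hn2⟩ := hE v2 hv2
  obtain ⟨m01, hm01⟩ := EvL.isZ hs hE hv0 hv1
  obtain ⟨m12, hm12⟩ := EvL.isZ hs hE hv1 hv2
  obtain ⟨m20, hm20⟩ := EvL.isZ hs hE hv2 hv0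
  obtain ⟨s0, s1, s2, hs0, hdvd⟩ := cw3 hp n0 n1 n2 m01 m12 m20
  refine ⟨(s0 : ℚ) • v0 + (s1 : ℚ) • v1 + (s2 : ℚ) • v2,
    Λ.add_mem (Λ.add_mem (zs_mem hv0 _) (zs_mem hv1 _)) (zs_mem hv2 _), ?_, ?_, ?_⟩
  · intro i hi
    obtain ⟨h0, h1, h2⟩ := hort i hi
    simp only [map_add, map_smul, smul_eq_mul]
    exact ((h0.mul_int _).add (h1.mul_int _)).add (h2.mul_int _)
  · obtain ⟨q, hq⟩ := hdvd
    rw [norm3 hs (by exact_mod_cast hn0) (by exact_mod_cast hn1) (by exact_mod_cast hn2)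
      hm01 hm12 hm20, hq]
    exact ⟨q, by push_cast; ring⟩
  · intro a c h
    by_contra hpa
    refine hs0 ?_
    have hp' : Prime (p : ℤ) := Nat.prime_iff_prime_int.1 hp
    have h1 := hind (a * s0) (a * s1) (a * s2) c (by
      intro w hw
      have h2 := h w hw
      have h3 : ((a * s0 : ℤ) : ℚ) • v0 + ((a * s1 : ℤ) : ℚ) • v1 + ((a * s2 : ℤ) : ℚ) • v2 =
          (a : ℚ) • ((s0 : ℚ) • v0 + (s1 : ℚ) • v1 + (s2 : ℚ) • v2) := by
        push_cast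
        simp only [smul_add, smul_smul]
      rw [h3]
      exact h2)
    exact ⟨(hp'.dvd_or_dvd h1.1).resolve_left hpa, (hp'.dvd_or_dvd h1.2.1).resolve_left hpa,
      (hp'.dvd_or_dvd h1.2.2).resolve_left hpa⟩

end Pool.Agent.RFN
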