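import Mathlib
import Pool.Agent.Lib.MP_dcc566_gt_R.LKe

/-!
# Three radical vectors if the rank modulo `p` is small
-/

set_option autoImplicit false

namespace Pool.Agent.RFN

open Module

variable {V : Type} [AddCommGroup V] [Module ℚ V]

section aux

/-- `r` linearly independent vectors of a subspace, indexed by `ℕ` -/
private theorem LKf_fam {F : Type} [Field F] {n r : ℕ} (S : Submodule F (Fin n → F))
    (h : r ≤ finrank F S) : ∃ k : ℕ → Fin n → F, (∀ j, k j ∈ S) ∧
      ∀ c : ℕ → F, ∑ j ∈ Finset.range r, c j • k j = 0 → ∀ j < r, c j = 0 := by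
  classical
  let bs := finBasis F S
  let k : ℕ → Fin n → F := fun j => if h : j < finrank F S then (bs ⟨j, h⟩ : Fin n → F) else 0
  refine ⟨k, fun j => ?_, fun c hc j hj => ?_⟩
  · by_cases h1 : j < finrank F S
    · have h2 : k j = (bs ⟨j, h1⟩ : Fin n → F) := dif_pos h1
      rw [h2]
      exact (bs ⟨j, h1⟩).2
    · have h2 : k j = 0 := dif_neg h1
      rw [h2]
      exact S.zero_mem
  · have h1 : LinearIndependent F fun j : Fin r => k j := by
      have h2 : (fun j : Fin r => k j) = S.subtype ∘ bs ∘ Fin.castLE h := by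
        funext j
        exact dif_pos (lt_of_lt_of_le j.2 h)
      rw [h2]
      exact (bs.linearIndependent.comp _ (Fin.castLE_injective h)).map' _ S.ker_subtype
    rw [Finset.sum_range fun j => c j • k j] at hc
    exact Fintype.linearIndependent_iff.1 h1 (fun j => c j) hc ⟨j, hj⟩

variable {n : ℕ} (b : Basis (Fin n) ℚ V)

/-- the vector with the integral coordinates `m` -/
private noncomputable def LKf_v (m : Fin n → ℤ) : V := ∑ i, (m i : ℚ) • b i

private theorem LKf_repr (m : Fin n → ℤ) (i : Fin n) : b.repr (LKf_v b m) i = m i := by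
  unfold LKf_v
  rw [Basis.repr_sum_self]

private theorem LKf_sum (r : ℕ) (c : ℕ → ℤ) (m : ℕ → Fin n → ℤ) :
    ∑ j ∈ Finset.range r, (c j : ℚ) • LKf_v b (m j) =
      LKf_v b (fun i => ∑ j ∈ Finset.range r, c j * m j i) := by
  apply b.repr.injective
  ext i
  rw [LKf_repr, map_sum, Finsupp.finsetSum_apply]
  push_cast
  refine Finset.sum_congr rfl fun j _ => ?_
  rw [map_smul, Finsupp.smul_apply, LKf_repr, smul_eq_mul]

/-- the radical modulo `p` in coordinates -/
private def LKf_R (p : ℕ) (G : Fin n → Fin n → ℤ) : Submodule (ZMod p) (Fin n → ZMod p) where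
  carrier := {c | ∀ j, ∑ i, c i * (G i j : ZMod p) = 0}
  add_mem' := fun {c c'} hc hc' j => by
    simp only [Pi.add_apply, add_mul, Finset.sum_add_distrib]
    rw [hc j, hc' j, add_zero]
  zero_mem' := fun j => by simp
  smul_mem' := fun t c hc j => by
    simp only [Pi.smul_apply, smul_eq_mul, mul_assoc]
    rw [← Finset.mul_sum, hc j, mul_zero]

variable {b} {Λ : AddSubgroup V}

private theorem LKf_mem (hb : ∀ x, x ∈ Λ ↔ ∀ i, IsZ (b.repr x i)) (m : Fin n → ℤ) :
    LKf_v b m ∈ Λ := (hb _).2 fun i => ⟨m i, LKf_repr b m i⟩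

private theorem LKf_b (hb : ∀ x, x ∈ Λ ↔ ∀ i, IsZ (b.repr x i)) (j : Fin n) : b j ∈ Λ := by
  rw [hb]
  intro i
  rw [Basis.repr_self, Finsupp.single_apply]
  split_ifs
  · exact ⟨1, by simp⟩
  · exact ⟨0, by simp⟩

private theorem LKf_rad {B : Frm V} (hb : ∀ x, x ∈ Λ ↔ ∀ i, IsZ (b.repr x i))
    {G : Fin n → Fin n → ℤ} (hG : ∀ i j, B (b i) (b j) = (G i j : ℚ)) {p : ℕ} (m : Fin n → ℤ) :
    (∀ x ∈ Λ, Dv p (B (LKf_v b m) x)) ↔ (fun i => (m i : ZMod p)) ∈ LKf_R p G := by
  have hval : ∀ j, B (LKf_v b m) (b j) = ((∑ i, m i * G i j : ℤ) : ℚ) := by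
    intro j
    unfold LKf_v
    rw [map_sum, LinearMap.sum_apply]
    push_cast
    refine Finset.sum_congr rfl fun i _ => ?_
    rw [map_smul, LinearMap.smul_apply, hG, smul_eq_mul]
  constructor
  · intro h j
    have h1 := h (b j) (LKf_b hb j)
    rw [hval] at h1
    have h2 := (ZMod.intCast_zmod_eq_zero_iff_dvd _ p).2 (Dv_int.1 h1)
    push_cast at h2
    exact h2
  · intro h x hx
    have hx' := (hb x).1 hx
    choose y hy using hx'
    have h1 : ∀ j, ∃ t : ℤ, ∑ i, m i * G i j = p * t := by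
      intro j
      have h2 : ((∑ i, m i * G i j : ℤ) : ZMod p) = 0 := by
        push_cast
        exact h j
      exact (ZMod.intCast_zmod_eq_zero_iff_dvd _ p).1 h2
    choose t ht using h1
    refine ⟨∑ j, y j * t j, ?_⟩
    rw [← b.sum_repr x, map_sum]
    push_cast
    rw [Finset.mul_sum]
    refine Finset.sum_congr rfl fun j _ => ?_
    rw [map_smul, hval, ht, hy, smul_eq_mul]
    push_cast
    ring

end aux

/-- THREE RADICAL VECTORS.  If the rank of `Λ` modulo `p` is not at least `n - 2`, `n = dim V`, there are three vectors of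
the radical of `Λ` modulo `p` which are independent modulo `p Λ`.

PROOF.  Let `n = finrank ℚ V`, `b` the basis of `exists_zbasis hB hE hF`; `b i ∈ Λ`.  Pairings of vectors of `Λ` are integers;
`[x,y] : ZMod p` denotes the class of `B x y` for `x, y ∈ Λ` (biadditive on `Λ`).  Let `F = ZMod p`, `C = Fin n → F`,
`R : Submodule F C := {c | ∀ w ∈ Λ, ∑ i, c i * [b i, w] = 0}`.
If `finrank F R ≤ 2`: let `K` be a complement of `R` (`Submodule.exists_isCompl`), `finrank K ≥ n - 2`; take `n - 2` linearly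
independent vectors `k j` of `K` and integers lifting them, `u j = ∑ i, k' j i • b i ∈ Λ`.  `Ind B Λ p (n - 2) u`: if
`∑ c j • u j` pairs with `Λ` into `p ℤ` then `∑ (c j : F) • k j ∈ R ⊓ K = ⊥`, so all `(c j : F) = 0`.  So `RkGe B Λ p (n - 2)`,
contradiction.
So `finrank F R ≥ 3`: take three linearly independent vectors `ρ 0, ρ 1, ρ 2` of `R`, lift them to integers `ρ' j i`, and let
`r j = ∑ i, ρ' j i • b i ∈ Λ`.  `ρ j ∈ R` gives `Dv p (B (r j) x)` for `x ∈ Λ`.  If `∑ c j • r j = p • w`, `w ∈ Λ`, then comparing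
the coordinates in the basis `b` (those of `w` are integers): `∑ j, c j * ρ' j i ∈ p ℤ` for all `i`, so
`∑ (c j : F) • ρ j = 0` and `p ∣ c j`. -/
theorem rad3 [FiniteDimensional ℚ V] {B : Frm V} (hB : Nd B) {Λ : AddSubgroup V}
    (hE : EvL B Λ) (hF : FullL Λ) {p : ℕ} (hp : p.Prime) (h : ¬ RkGe B Λ p (finrank ℚ V - 2)) :
    ∃ r : ℕ → V, (∀ i < 3, r i ∈ Λ ∧ ∀ x ∈ Λ, Dv p (B (r i) x)) ∧
      ∀ c : ℕ → ℤ, (∃ w ∈ Λ, ∑ i ∈ Finset.range 3, (c i : ℚ) • r i = (p : ℚ) • w) →
        ∀ i < 3, (p : ℤ) ∣ c i := by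
  classical
  have : Fact p.Prime := ⟨hp⟩
  obtain ⟨b, hb⟩ := exists_zbasis hB hE hF
  have hG : ∀ i j, ∃ g : ℤ, B (b i) (b j) = (g : ℚ) := fun i j =>
    EvL.isZ hB.symm hE (LKf_b hb i) (LKf_b hb j)
  choose G hG using hG
  -- lifting a family of vectors modulo `p`
  have hlift : ∀ k : ℕ → Fin (finrank ℚ V) → ZMod p, ∀ j,
      (fun i => ((((k j i).val : ℤ)) : ZMod p)) = k j := by
    intro k j
    funext i
    rw [Int.cast_natCast, ZMod.natCast_zmod_val]
  have hcomb : ∀ (k : ℕ → Fin (finrank ℚ V) → ZMod p) (r : ℕ) (c : ℕ → ℤ),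
      (fun i => ((∑ j ∈ Finset.range r, c j * ((k j i).val : ℤ) : ℤ) : ZMod p)) =
        ∑ j ∈ Finset.range r, (c j : ZMod p) • k j := by
    intro k r c
    funext i
    rw [Finset.sum_apply]
    push_cast
    refine Finset.sum_congr rfl fun j _ => ?_
    rw [ZMod.natCast_zmod_val, Pi.smul_apply, smul_eq_mul]
  have hR : 3 ≤ finrank (ZMod p) (LKf_R p G) := by
    by_contra hlt
    apply h
    obtain ⟨K, hK⟩ := Submodule.exists_isCompl (LKf_R p G)
    have h1 := Submodule.finrank_add_eq_of_isCompl hK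
    rw [Module.finrank_fin_fun] at h1
    obtain ⟨k, hk1, hk2⟩ := LKf_fam (r := finrank ℚ V - 2) K (by omega)
    refine ⟨fun j => LKf_v b fun i => ((k j i).val : ℤ), fun j _ => LKf_mem hb _,
      fun c hc j hj => ?_⟩
    rw [LKf_sum b, LKf_rad hb hG, hcomb] at hc
    have h2 : ∑ j ∈ Finset.range (finrank ℚ V - 2), (c j : ZMod p) • k j ∈ K :=
      K.sum_mem fun j _ => K.smul_mem _ (hk1 j)
    have h3 := (Submodule.disjoint_def.1 hK.disjoint) _ hc h2
    exact (ZMod.intCast_zmod_eq_zero_iff_dvd _ p).1 (hk2 (fun j => (c j : ZMod p)) h3 j hj)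
  obtain ⟨ρ, hρ1, hρ2⟩ := LKf_fam _ hR
  refine ⟨fun j => LKf_v b fun i => ((ρ j i).val : ℤ), fun j _ => ⟨LKf_mem hb _, ?_⟩,
    fun c hc j hj => ?_⟩
  · rw [LKf_rad hb hG, hlift]
    exact hρ1 j
  · obtain ⟨w, hw, hc⟩ := hc
    rw [LKf_sum b] at hc
    have h1 : ∑ j ∈ Finset.range 3, (c j : ZMod p) • ρ j = 0 := by
      rw [← hcomb]
      funext i
      obtain ⟨t, ht⟩ := (hb w).1 hw i
      have h2 := congrArg (fun v => b.repr v i) hc
      simp only [map_smul, Finsupp.smul_apply, smul_eq_mul] at h2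
      rw [LKf_repr, ht] at h2
      have h3 : ∑ j ∈ Finset.range 3, c j * ((ρ j i).val : ℤ) = p * t := by exact_mod_cast h2
      exact (ZMod.intCast_zmod_eq_zero_iff_dvd _ p).2 ⟨t, h3⟩
    exact (ZMod.intCast_zmod_eq_zero_iff_dvd _ p).1 (hρ2 (fun j => (c j : ZMod p)) h1 j hj)

end Pool.Agent.RFN
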