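import Mathlib
import Pool.Agent.Lib.MP_dcc566_gt_R.LK
import Pool.Agent.Lib.MP_dcc566_gt_R.LKf

/-!
# The rank of a maximal even lattice modulo an odd prime
-/

set_option autoImplicit false

namespace Pool.Agent.RFN

open Module

variable {V : Type} [AddCommGroup V] [Module ℚ V]

/-- RK, general dimension.

PROOF.  Suppose not; let `r 0, r 1, r 2` be the vectors of `rad3 hB hM.even hM.full hp h`.  `B (r i) (r i) = 2 m` (`hM.even`)
and `= p m'` (radical), `p` odd: `B (r i) (r i) = 2 (p n_i)` with an integer `n_i`; for `i ≠ l`: `B (r i) (r l) = p m_il`.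
`cw3 hp n_0 n_1 n_2 m_01 m_12 m_20` gives integers `x, y, z`, not all divisible by `p`, with
`n_0 x² + n_1 y² + n_2 z² + m_01 x y + m_12 y z + m_20 z x = p q`.  Let `v = x r 0 + y r 1 + z r 2 ∈ Λ`:
`norm3` with `p n_i`, `p m_il` gives `B v v = 2 p (p q) = 2 p² q`, and `Dv p (B v w)` for `w ∈ Λ`.
Let `v' = (1/p) • v`: `B v' w` is an integer for all `w ∈ Λ`, `B v' v' = 2 q`.  So `v' ∈ Λ` (`hM.max`), `v = p • v'`, so by the last
property of `rad3` (`c 0 = x`, `c 1 = y`, `c 2 = z`; `Finset.sum_range_succ`) `p` divides `x, y, z`: contradiction. -/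
theorem rk_max_gen [FiniteDimensional ℚ V] {B : Frm V} (hB : Nd B) {Λ : AddSubgroup V}
    (hM : MaxE B Λ) {p : ℕ} (hp : p.Prime) (hp2 : p ≠ 2) : RkGe B Λ p (finrank ℚ V - 2) := by
  by_contra h
  obtain ⟨r, hr, hi⟩ := rad3 hB hM.even hM.full hp h
  have hp' : Prime (p : ℤ) := Nat.prime_iff_prime_int.1 hp
  have hp0 : (p : ℚ) ≠ 0 := by exact_mod_cast hp.ne_zero
  have hn : ∀ i < 3, ∃ n : ℤ, B (r i) (r i) = 2 * ((p * n : ℤ) : ℚ) := by
    intro i hi3
    obtain ⟨h1, h2⟩ := hr i hi3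
    obtain ⟨m, hm⟩ := hM.even _ h1
    obtain ⟨m', hm'⟩ := h2 _ h1
    have h3 : 2 * m = p * m' := by
      rw [hm] at hm'
      exact_mod_cast hm'
    have h4 : (p : ℤ) ∣ m := by
      have h5 : (p : ℤ) ∣ 2 * m := ⟨m', h3⟩
      rcases hp'.dvd_or_dvd h5 with h6 | h6
      · exfalso
        have h7 : p ∣ 2 := by exact_mod_cast h6
        exact hp2 ((Nat.prime_dvd_prime_iff_eq hp Nat.prime_two).1 h7)
      · exact h6
    obtain ⟨n, rfl⟩ := h4
    exact ⟨n, by rw [hm]; norm_num⟩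
  obtain ⟨n0, hn0⟩ := hn 0 (by norm_num)
  obtain ⟨n1, hn1⟩ := hn 1 (by norm_num)
  obtain ⟨n2, hn2⟩ := hn 2 (by norm_num)
  obtain ⟨m01, hm01⟩ := (hr 0 (by norm_num)).2 _ (hr 1 (by norm_num)).1
  obtain ⟨m12, hm12⟩ := (hr 1 (by norm_num)).2 _ (hr 2 (by norm_num)).1
  obtain ⟨m20, hm20⟩ := (hr 2 (by norm_num)).2 _ (hr 0 (by norm_num)).1
  obtain ⟨x, y, z, hxyz, q, hq⟩ := cw3 hp n0 n1 n2 m01 m12 m20
  refine hxyz ?_
  obtain ⟨v, hv⟩ : ∃ v, v = (x : ℚ) • r 0 + (y : ℚ) • r 1 + (z : ℚ) • r 2 := ⟨_, rfl⟩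
  have hvv : B v v = (p : ℚ) * (p * (2 * q)) := by
    rw [hv, norm3 hB.symm (n0 := p * n0) (n1 := p * n1) (n2 := p * n2) (m01 := p * m01)
      (m12 := p * m12) (m20 := p * m20) hn0 hn1 hn2 (by rw [hm01]; push_cast; rfl)
      (by rw [hm12]; push_cast; rfl) (by rw [hm20]; push_cast; rfl)]
    have h1 : p * n0 * x ^ 2 + p * n1 * y ^ 2 + p * n2 * z ^ 2 + p * m01 * x * y +
        p * m12 * y * z + p * m20 * z * x = p * (p * q) := by
      rw [← hq]
      ring
    rw [h1]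
    push_cast
    ring
  have hvw : ∀ w ∈ Λ, Dv p (B v w) := by
    intro w hw
    rw [hv]
    simp only [map_add, map_smul, LinearMap.add_apply, LinearMap.smul_apply, smul_eq_mul]
    exact ((((hr 0 (by norm_num)).2 w hw).mul_int x).add
      (((hr 1 (by norm_num)).2 w hw).mul_int y)).add (((hr 2 (by norm_num)).2 w hw).mul_int z)
  have hv' : (1 / (p : ℚ)) • v ∈ Λ := by
    refine hM.max _ (fun w hw => ?_) ?_
    · obtain ⟨k, hk⟩ := hvw w hw
      refine ⟨k, ?_⟩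
      rw [map_smul, LinearMap.smul_apply, smul_eq_mul, hk, Int.cast_natCast]
      field_simp
    · refine ⟨q, ?_⟩
      simp only [map_smul, LinearMap.smul_apply, smul_eq_mul]
      rw [hvv]
      push_cast
      field_simp
  have h1 := hi (fun i => if i = 0 then x else if i = 1 then y else z) ⟨_, hv', by
    rw [smul_smul, mul_one_div_cancel hp0, one_smul, hv]
    simp [Finset.sum_range_succ]⟩
  exact ⟨by simpa using h1 0 (by norm_num), by simpa using h1 1 (by norm_num),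
    by simpa using h1 2 (by norm_num)⟩

/-- RK. -/
theorem rk_max [FiniteDimensional ℚ V] {B : Frm V} {Λ : AddSubgroup V} (hM : MaxE B Λ)
    (hB : Nd B) (hV : finrank ℚ V = 20) {p : ℕ} (hp : p.Prime) (hp2 : p ≠ 2) :
    RkGe B Λ p 18 := by
  have h := rk_max_gen hB hM hp hp2
  rwa [hV] at h

end Pool.Agent.RFN
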