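import Mathlib
import Pool.Agent.Lib.MP_dcc566_gt_R.LSa

/-!
# Dual basis
-/

set_option autoImplicit false

namespace Pool.Agent.RFN

open Module

variable {V : Type} [AddCommGroup V] [Module ℚ V] [FiniteDimensional ℚ V]

private theorem LSb1_sum {ι : Type} (s : Finset ι) (f : ι → ℚ) (h : ∀ i ∈ s, IsZ (f i)) :
    IsZ (∑ i ∈ s, f i) := by
  classical
  induction s using Finset.induction_on with
  | empty => exact ⟨0, by simp⟩
  | insert a s ha ih =>
    rw [Finset.sum_insert ha]
    exact (h a (Finset.mem_insert_self a s)).add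
      (ih fun i hi => h i (Finset.mem_insert_of_mem hi))

omit [FiniteDimensional ℚ V] in
private theorem LSb1_right {B : Frm V} (b : Basis (Fin (finrank ℚ V)) ℚ V) (x y : V) :
    B x y = ∑ i, b.repr y i * B x (b i) := by
  conv_lhs => rw [← b.sum_repr y, map_sum]
  exact Finset.sum_congr rfl fun i _ => by rw [map_smul, smul_eq_mul]

omit [FiniteDimensional ℚ V] in
private theorem LSb1_left {B : Frm V} (b : Basis (Fin (finrank ℚ V)) ℚ V) (x y : V) :
    B x y = ∑ i, b.repr x i * B (b i) y := by
  conv_lhs => rw [← b.sum_repr x, map_sum, LinearMap.sum_apply]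
  exact Finset.sum_congr rfl fun i _ => by rw [map_smul, LinearMap.smul_apply, smul_eq_mul]

/-- The dual basis.

PROOF.  Let `b` be the basis of `X`, `n = finrank ℚ V`.  The linear map `T : V → (Fin n → ℚ)`, `x ↦ (i ↦ B (b i) x)`, is injective
(`Nd`: `B (b i) x = 0` for all `i` gives `B v x = 0` for all `v`, so `B x v = 0` and `x = 0`) and both sides have dimension `n`, so it is a
linear equivalence (`LinearEquiv.ofInjectiveEndo`-like: `LinearMap.linearEquivOfInjective`), and `d = Basis.ofEquivFun T` is a basis of `V` with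
`(d.repr x) i = B (b i) x` (so `B (b i) (d k) = 1` if `i = k`, else 0).  `x ∈ Du B X` iff `B x (b i) ∈ ℤ` for all `i` (elements of `X` are
integral combinations of the `b i`, and `b i ∈ X`), iff the coordinates `d.repr x i` are integers: this is `HasZB (Du B X)`.
`x ∈ Du B (Du B X)` iff `B x (d k) ∈ ℤ` for all `k` (same argument for the basis `d`), and `B x (d k) = ∑ (b.repr x i) B (b i) (d k) = b.repr x k`:
iff `x ∈ X`. -/
theorem zb_dual {B : Frm V} (hB : Nd B) {X : AddSubgroup V} (hX : HasZB X) :
    HasZB (Du B X) ∧ Du B (Du B X) = X := by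
  classical
  obtain ⟨b, hb⟩ := hX
  let T : V →ₗ[ℚ] (Fin (finrank ℚ V) → ℚ) := LinearMap.pi fun i => B (b i)
  have hT : ∀ x i, T x i = B (b i) x := fun x i => rfl
  have hinj : Function.Injective T := by
    rw [injective_iff_map_eq_zero]
    intro x hx
    apply hB.nd
    intro y
    rw [hB.symm, LSb1_left b y x]
    refine Finset.sum_eq_zero fun i _ => ?_
    rw [← hT x i, hx]
    simp
  let e := T.linearEquivOfInjective hinj (by simp)
  let d : Basis (Fin (finrank ℚ V)) ℚ V := Basis.ofEquivFun e
  have hd : ∀ x i, d.repr x i = B (b i) x := fun x i => by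
    rw [Basis.ofEquivFun_repr_apply]
    rfl
  have hbX : ∀ i, b i ∈ X := by
    intro i
    rw [hb]
    intro j
    rw [b.repr_self_apply]
    split_ifs
    · exact ⟨1, by simp⟩
    · exact ⟨0, by simp⟩
  have key : ∀ x, x ∈ Du B X ↔ ∀ i, IsZ (d.repr x i) := by
    intro x
    constructor
    · intro hx i
      rw [hd, hB.symm]
      exact hx (b i) (hbX i)
    · intro hx y hy
      rw [LSb1_right b x y]
      refine LSb1_sum _ _ fun i _ => ((hb y).1 hy i).mul ?_
      rw [hB.symm, ← hd]
      exact hx i
  refine ⟨⟨d, key⟩, ?_⟩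
  ext x
  constructor
  · intro hx
    rw [hb]
    intro k
    have h1 : d k ∈ Du B X := by
      rw [key]
      intro j
      rw [d.repr_self_apply]
      split_ifs
      · exact ⟨1, by simp⟩
      · exact ⟨0, by simp⟩
    have h2 : b.repr x k = B x (d k) := by
      rw [LSb1_left b x (d k), Finset.sum_eq_single k]
      · rw [← hd, d.repr_self_apply, if_pos rfl, mul_one]
      · intro i _ hik
        rw [← hd, d.repr_self_apply, if_neg (Ne.symm hik), mul_zero]
      · intro h
        exact absurd (Finset.mem_univ k) h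
    rw [h2]
    exact hx (d k) h1
  · intro hx y hy
    rw [hB.symm]
    exact hy x hx

/-- PROOF.  `exists_zbasis` and `zb_dual`. -/
theorem du_du {B : Frm V} (hB : Nd B) {L : AddSubgroup V} (hE : EvL B L) (hF : FullL L) :
    Du B (Du B L) = L := by
  exact (zb_dual hB (exists_zbasis hB hE hF)).2

end Pool.Agent.RFN
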