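import Mathlib
import Pool.Agent.Lib.MP_dcc566_gt_R.LSa

/-!
# Lattices with a multiple in an even lattice
-/

set_option autoImplicit false

namespace Pool.Agent.RFN

open Module

variable {V : Type} [AddCommGroup V] [Module ℚ V] [FiniteDimensional ℚ V]

/-- A full subgroup with a multiple in an even lattice has a `ℤ`-basis.

PROOF.  `X' = {N x : x ∈ X}` (`X.map` of the multiplication by `N`) is contained in `L`, so even,
and full.  `exists_zbasis` gives a basis `b'`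
of `X'`; `b = b'/N` (`Basis.isUnitSMul` or `b'.map` of the linear equivalence `x ↦ N⁻¹ x`):
`b.repr x i = b'.repr (N x) i`.  `x ∈ X` iff `N x ∈ X'`. -/
theorem zb_of_smul {B : Frm V} (hB : Nd B) {L X : AddSubgroup V} (hE : EvL B L) (hF : FullL X)
    {N : ℕ} (hN : 0 < N) (h : ∀ x ∈ X, (N : ℚ) • x ∈ L) : HasZB X := by
  have hN' : (N : ℚ) ≠ 0 := by exact_mod_cast hN.ne'
  let X' : AddSubgroup V := X.comap ((N : ℚ)⁻¹ • (LinearMap.id : V →ₗ[ℚ] V)).toAddMonoidHom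
  have hm : ∀ y, y ∈ X' ↔ (N : ℚ)⁻¹ • y ∈ X := fun y => Iff.rfl
  have hm2 : ∀ x, x ∈ X ↔ (N : ℚ) • x ∈ X' := fun x => by
    rw [hm, smul_smul, inv_mul_cancel₀ hN', one_smul]
  have hE' : EvL B X' := by
    intro y hy
    have h1 := h _ ((hm y).1 hy)
    rw [smul_smul, mul_inv_cancel₀ hN', one_smul] at h1
    exact hE y h1
  have hF' : FullL X' := by
    intro v
    obtain ⟨n, hn, hnv⟩ := hF v
    refine ⟨N * n, Nat.mul_pos hN hn, ?_⟩
    rw [hm, smul_smul]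
    push_cast
    rw [← mul_assoc, inv_mul_cancel₀ hN', one_mul]
    exact hnv
  obtain ⟨b', hb'⟩ := exists_zbasis hB hE' hF'
  let e : V ≃ₗ[ℚ] V := LinearEquiv.smulOfNeZero ℚ V (N : ℚ) hN'
  refine ⟨b'.map e.symm, fun x => ?_⟩
  rw [hm2, hb', Basis.map_repr]
  exact Iff.rfl

/-- PROOF.  `b` a basis of `X`; `n i > 0` with `n i • b i ∈ L`; `N = ∏ n i`: `N • b i ∈ L`, so `N
x ∈ L` for all integral combinations `x`. -/
theorem exists_mul {L X : AddSubgroup V} (hX : HasZB X) (hF : FullL L) :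
    ∃ N : ℕ, 0 < N ∧ ∀ x ∈ X, (N : ℚ) • x ∈ L := by
  classical
  obtain ⟨b, hb⟩ := hX
  choose n hn hnm using fun i => hF (b i)
  refine ⟨∏ i, n i, Finset.prod_pos fun i _ => hn i, fun x hx => ?_⟩
  rw [hb] at hx
  rw [← b.sum_repr x, Finset.smul_sum]
  refine L.sum_mem fun i _ => ?_
  obtain ⟨z, hz⟩ := hx i
  obtain ⟨k, hk⟩ := Finset.dvd_prod_of_mem n (Finset.mem_univ i)
  rw [hz, hk, smul_smul]
  have h1 : ((n i * k : ℕ) : ℚ) * (z : ℚ) = ((k * z : ℤ) : ℚ) * (n i : ℚ) := by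
    push_cast
    ring
  rw [h1, ← smul_smul]
  exact zs_mem (hnm i) _

end Pool.Agent.RFN
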