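import Mathlib
import Pool.Agent.Lib.MP_dcc566_gt_R.LSb1
import Pool.Agent.Lib.MP_dcc566_gt_R.LSb2

/-!
# The dual of a sum
-/

set_option autoImplicit false

namespace Pool.Agent.RFN

open Module

variable {V : Type} [AddCommGroup V] [Module ℚ V] [FiniteDimensional ℚ V]

/-- PROOF.  Let `X = {l + 2 h : l ∈ L, h ∈ Du B L}` (`L ⊔ (Du B L).map (2 • ·)`).  `X` contains `L`, so is full; `X ⊆ Du B L` (`le_Du`), and by
`zb_dual`, `exists_mul` there is `N > 0` with `N • Du B L ⊆ L`; so `HasZB X` (`zb_of_smul`) and `Du B (Du B X) = X` (`zb_dual`).  Let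
`z ∈ Du B X`: `z ∈ Du B L` (as `L ≤ X`), and `B (2 z) h = B z (2 h) ∈ ℤ` for all `h ∈ Du B L`, so `2 z ∈ Du B (Du B L) = L` (`du_du`): `z ∈ Lk B L 2`.
So `B x z ∈ ℤ` for all `z ∈ Du B X`, i.e. `x ∈ Du B (Du B X) = X`. -/
theorem dual_sum {B : Frm V} (hB : Nd B) {L : AddSubgroup V} (hE : EvL B L) (hF : FullL L)
    {x : V} (hx : ∀ z ∈ Lk B L 2, IsZ (B x z)) : ∃ l ∈ L, ∃ h ∈ Du B L, x = l + (2 : ℚ) • h := by
  have hLD : L ≤ Du B L := le_Du hB.symm hE
  let X : AddSubgroup V :=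
    { carrier := {x | ∃ l ∈ L, ∃ h ∈ Du B L, x = l + (2 : ℚ) • h}
      add_mem' := by
        rintro _ _ ⟨l, hl, h, hh, rfl⟩ ⟨l', hl', h', hh', rfl⟩
        refine ⟨l + l', L.add_mem hl hl', h + h', (Du B L).add_mem hh hh', ?_⟩
        rw [smul_add]
        abel
      zero_mem' := ⟨0, L.zero_mem, 0, (Du B L).zero_mem, by rw [smul_zero, add_zero]⟩
      neg_mem' := by
        rintro _ ⟨l, hl, h, hh, rfl⟩
        refine ⟨-l, L.neg_mem hl, -h, (Du B L).neg_mem hh, ?_⟩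
        rw [smul_neg]
        abel }
  have hLX : L ≤ X := fun l hl => ⟨l, hl, 0, (Du B L).zero_mem, by rw [smul_zero, add_zero]⟩
  have hXD : X ≤ Du B L := by
    rintro _ ⟨l, hl, h, hh, rfl⟩
    exact (Du B L).add_mem (hLD hl) (by
      have := zn_mem hh 2
      simpa using this)
  have hFX : FullL X := fun v => by
    obtain ⟨n, hn, hv⟩ := hF v
    exact ⟨n, hn, hLX hv⟩
  obtain ⟨hZD, -⟩ := zb_dual hB (exists_zbasis hB hE hF)
  obtain ⟨N, hN, hNL⟩ := exists_mul hZD hF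
  have hZX : HasZB X := zb_of_smul hB hE hFX hN fun x hx => hNL x (hXD hx)
  have hDD := (zb_dual hB hZX).2
  have hxX : x ∈ X := by
    rw [← hDD]
    intro z hz
    refine hx z ⟨Du_anti hLX hz, ?_⟩
    rw [← du_du hB hE hF]
    intro h hh
    have h1 : (2 : ℚ) • h ∈ X := ⟨0, L.zero_mem, h, hh, by rw [zero_add]⟩
    have h2 := hz _ h1
    rw [map_smul] at h2
    rw [map_smul, LinearMap.smul_apply]
    exact h2
  exact hxX

end Pool.Agent.RFN
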