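import Mathlib
import Pool.Agent.Lib.MP_dcc566_gt_R.LSa

/-!
# Odd parts
-/

set_option autoImplicit false

namespace Pool.Agent.RFN

open Module

variable {V : Type} [AddCommGroup V] [Module ℚ V]

/-- PROOF.  `FullL` gives `N > 0` with `N x ∈ L`; `N = p ^ k * n` with `p ∤ n` (`Nat.exists_eq_pow_mul_and_not_dvd`). -/
theorem odd_part {L : AddSubgroup V} (hF : FullL L) {p : ℕ} (hp : p.Prime) (x : V) :
    ∃ n k : ℕ, ¬ p ∣ n ∧ ((p : ℚ) ^ k) • ((n : ℚ) • x) ∈ L := by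
  obtain ⟨N, hN, hx⟩ := hF x
  obtain ⟨k, n, hn, he⟩ := Nat.exists_eq_pow_mul_and_not_dvd hN.ne' p hp.ne_one
  refine ⟨n, k, hn, ?_⟩
  rw [smul_smul]
  have h : (p : ℚ) ^ k * (n : ℚ) = (N : ℚ) := by
    rw [he]
    push_cast
    ring
  rw [h]
  exact hx

/-- PROOF.  `odd_part` with `p = 2`: `n` odd; if `n % 4 = 1` take `n`, if `n % 4 = 3` take `3 n`. -/
theorem odd_part4 {L : AddSubgroup V} (hF : FullL L) (x : V) :
    ∃ n k : ℕ, n % 4 = 1 ∧ ((2 : ℚ) ^ k) • ((n : ℚ) • x) ∈ L := by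
  obtain ⟨n, k, hn, h⟩ := odd_part hF Nat.prime_two x
  have h2 : n % 4 = 1 ∨ n % 4 = 3 := by omega
  rcases h2 with h2 | h2
  · exact ⟨n, k, h2, by exact_mod_cast h⟩
  · refine ⟨3 * n, k, by omega, ?_⟩
    have e : ((2 : ℚ) ^ k) • (((3 * n : ℕ) : ℚ) • x) =
        (3 : ℕ) • ((((2 : ℕ) : ℚ) ^ k) • ((n : ℚ) • x)) := by
      rw [← Nat.cast_smul_eq_nsmul ℚ, smul_smul, smul_smul, smul_smul]
      congr 1
      push_cast
      ring
    rw [e]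
    exact L.nsmul_mem h 3

end Pool.Agent.RFN
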