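import Mathlib
import Pool.Agent.Lib.MP_dcc566_gt_R.LSa

/-!
# Exponents, odd primes
-/

set_option autoImplicit false

namespace Pool.Agent.RFN

open Module

variable {V : Type} [AddCommGroup V] [Module ℚ V]

/-- PROOF.  Induction on `k` (`k = 0, 1` are clear): let `k ≥ 2`, `p ^ k x ∈ L`.  `X = {p^(k-1) x' + l : x' ∈ Du B L, p^k x' ∈ L, l ∈ L}` is a
subgroup containing `L`, `Inv B L X` (`inv_of`, `map_Du`), and even: with `v = p^(k-1) x'`: `v² = p^(k-2) (p^k x', x')` is an integer,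
`p² v² = (p^k x')²` is even and `p` is odd, so `v²` is even; `(v + l)² = v² + 2 (v,l) + l²`, `(v,l) = p^(k-1) (x',l)` integer.  `hM.m1`: `X = L`, so
`p^(k-1) x ∈ L`, and the induction hypothesis applies. -/
theorem s1_odd {B : Frm V} (hB : Nd B) {L : AddSubgroup V} (hM : MinL B L) {p : ℕ} (hp : p.Prime)
    (hp2 : p ≠ 2) {k : ℕ} {x : V} (hx : x ∈ Du B L) (hk : ((p : ℚ) ^ k) • x ∈ L) :
    (p : ℚ) • x ∈ L := by
  induction k with
  | zero =>
    rw [pow_zero, one_smul] at hk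
    exact zn_mem hk p
  | succ k ih =>
    rcases Nat.eq_zero_or_pos k with hk0 | hk0
    · rw [hk0, zero_add, pow_one] at hk
      exact hk
    obtain ⟨j, rfl⟩ : ∃ j, k = j + 1 := ⟨k - 1, by omega⟩
    refine ih ?_
    -- the subgroup `X`
    obtain ⟨X, hX⟩ : ∃ X : AddSubgroup V, X =
        (Lk B L (p ^ (j + 1 + 1))).map (DistribSMul.toAddMonoidHom V ((p : ℚ) ^ (j + 1))) ⊔ L :=
      ⟨_, rfl⟩
    have hmem : ∀ v, v ∈ X ↔ ∃ x' ∈ Lk B L (p ^ (j + 1 + 1)), ∃ l ∈ L,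
        ((p : ℚ) ^ (j + 1)) • x' + l = v := by
      intro v
      rw [hX, AddSubgroup.mem_sup]
      constructor
      · rintro ⟨y, ⟨x', hx', rfl⟩, l, hl, hv⟩
        exact ⟨x', hx', l, hl, hv⟩
      · rintro ⟨x', hx', l, hl, hv⟩
        exact ⟨_, ⟨x', hx', rfl⟩, l, hl, hv⟩
    have hLX : L ≤ X := by
      rw [hX]
      exact le_sup_right
    have hInv : Inv B L X := by
      refine inv_of fun g hg hgL v hv => ?_
      obtain ⟨x', hx', l, hl, rfl⟩ := (hmem v).1 hv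
      refine (hmem _).2 ⟨g x', map_Lk hg hgL hx', g l, (hgL l).2 hl, ?_⟩
      rw [map_add, map_smul]
    have hpQ : (p : ℚ) ≠ 0 := by exact_mod_cast hp.ne_zero
    have hodd : ¬ (2 : ℤ) ∣ (p : ℤ) := by
      intro h
      have h1 : (2 : ℕ) ∣ p := by exact_mod_cast h
      exact hp2 ((Nat.prime_dvd_prime_iff_eq Nat.prime_two hp).1 h1).symm
    have hEv : EvL B X := by
      intro v hv
      obtain ⟨x', ⟨hx1, hx2⟩, l, hl, rfl⟩ := (hmem v).1 hv
      push_cast at hx2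
      -- the integer `m`
      obtain ⟨a, ha⟩ := hx1 _ hx2
      obtain ⟨b, hb⟩ := hM.even _ hx2
      obtain ⟨c, hc⟩ := hx1 l hl
      obtain ⟨d, hd⟩ := hM.even l hl
      rw [map_smul, smul_eq_mul] at ha
      rw [map_smul, map_smul, LinearMap.smul_apply, smul_eq_mul, smul_eq_mul] at hb
      have hnl : B (((p : ℚ) ^ (j + 1)) • x' + l) (((p : ℚ) ^ (j + 1)) • x' + l) =
          (p : ℚ) ^ j * a + 2 * ((p : ℚ) ^ (j + 1) * c) + 2 * d := by
        have h1 := norm_lin hB.symm ((p : ℚ) ^ (j + 1)) 1 x' l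
        rw [one_smul] at h1
        rw [h1, hc, hd, ← ha]
        push_cast
        ring
      have hev : (2 : ℤ) ∣ (p : ℤ) ^ j * a := by
        have h1 : ((p : ℤ) ^ 2 * ((p : ℤ) ^ j * a) : ℤ) = 2 * b := by
          have h2 : ((p : ℚ) ^ 2 * ((p : ℚ) ^ j * a)) = 2 * b := by
            rw [← ha]
            push_cast at hb
            rw [← hb]
            ring
          exact_mod_cast h2
        have h3 : (2 : ℤ) ∣ (p : ℤ) ^ 2 * ((p : ℤ) ^ j * a) := ⟨b, h1⟩
        rcases Int.prime_two.dvd_or_dvd h3 with h4 | h4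
        · exact absurd (Int.prime_two.dvd_of_dvd_pow h4) hodd
        · exact h4
      obtain ⟨m, hm⟩ := hev
      rw [hnl]
      refine ⟨m + (p : ℤ) ^ (j + 1) * c + d, ?_⟩
      have h5 : ((p : ℚ) ^ j * a) = 2 * m := by exact_mod_cast hm
      rw [h5]
      push_cast
      ring
    have hXL := hM.m1 X hLX hInv hEv
    rw [← hXL]
    refine (hmem _).2 ⟨x, ⟨hx, ?_⟩, 0, L.zero_mem, add_zero _⟩
    push_cast
    exact hk

end Pool.Agent.RFN
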