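import Mathlib
import Pool.Agent.Lib.MP_dcc566_gt_R.LSa

/-!
# Exponents, prime 2
-/

set_option autoImplicit false

namespace Pool.Agent.RFN

open Module

variable {V : Type} [AddCommGroup V] [Module ℚ V]

/-- The common argument: `X = c Y + L` is an invariant even overlattice. -/
private theorem c3_key {B : Frm V} (hB : Nd B) {L : AddSubgroup V} (hM : MinL B L)
    (c : ℤ) (Y : AddSubgroup V) (hY : ∀ y ∈ Y, y ∈ Du B L)
    (hI : ∀ g : V ≃ₗ[ℚ] V, IsIso B B g → MapsL g L L → ∀ y ∈ Y, g y ∈ Y)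
    (hE : ∀ y ∈ Y, Dv 2 (B ((c : ℚ) • y) ((c : ℚ) • y))) {y : V} (hy : y ∈ Y) :
    (c : ℚ) • y ∈ L := by
  let X : AddSubgroup V :=
    { carrier := {v | ∃ x ∈ Y, ∃ l ∈ L, v = (c : ℚ) • x + l}
      add_mem' := by
        rintro a b ⟨x, hx, l, hl, rfl⟩ ⟨x', hx', l', hl', rfl⟩
        refine ⟨x + x', Y.add_mem hx hx', l + l', L.add_mem hl hl', ?_⟩
        rw [smul_add]
        abel
      zero_mem' := ⟨0, Y.zero_mem, 0, L.zero_mem, by rw [smul_zero, add_zero]⟩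
      neg_mem' := by
        rintro a ⟨x, hx, l, hl, rfl⟩
        refine ⟨-x, Y.neg_mem hx, -l, L.neg_mem hl, ?_⟩
        rw [smul_neg]
        abel }
  have hLX : L ≤ X := fun l hl => ⟨0, Y.zero_mem, l, hl, by rw [smul_zero, zero_add]⟩
  have hXinv : Inv B L X := by
    apply inv_of
    rintro g hg hgL _ ⟨x, hx, l, hl, rfl⟩
    exact ⟨g x, hI g hg hgL x hx, g l, (hgL l).2 hl, by rw [map_add, map_smul]⟩
  have hXe : EvL B X := by
    rintro _ ⟨x, hx, l, hl, rfl⟩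
    have h1 : B ((c : ℚ) • x + l) ((c : ℚ) • x + l) =
        B ((c : ℚ) • x) ((c : ℚ) • x) + (2 : ℤ) * ((c : ℚ) * B x l) + B l l := by
      simp only [map_add, map_smul, LinearMap.add_apply, LinearMap.smul_apply, smul_eq_mul]
      rw [hB.symm l x]
      push_cast
      ring
    rw [h1]
    refine ((hE x hx).add ?_).add (hM.even l hl)
    obtain ⟨n, hn⟩ := hY x hx l hl
    rw [hn]
    exact ⟨c * n, by push_cast; ring⟩
  have hXL := hM.m1 X hLX hXinv hXe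
  rw [← hXL]
  exact ⟨y, hy, 0, L.zero_mem, by rw [add_zero]⟩

private theorem c3_step {B : Frm V} (hB : Nd B) {L : AddSubgroup V} (hM : MinL B L)
    (j : ℕ) {x : V} (hx : x ∈ Du B L) (hk : ((2 : ℚ) ^ (j + 3)) • x ∈ L) :
    ((2 : ℚ) ^ (j + 2)) • x ∈ L := by
  have hc : (((2 : ℤ) ^ (j + 2) : ℤ) : ℚ) = (2 : ℚ) ^ (j + 2) := by push_cast; ring
  have hm : (((2 : ℕ) ^ (j + 3) : ℕ) : ℚ) = (2 : ℚ) ^ (j + 3) := by push_cast; ring
  have h := c3_key hB hM ((2 : ℤ) ^ (j + 2)) (Lk B L (2 ^ (j + 3))) (fun y hy => hy.1)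
    (fun g hg hgL y hy => map_Lk hg hgL hy) ?_ (y := x) ⟨hx, by rw [hm]; exact hk⟩
  · rwa [hc] at h
  · rintro y ⟨hy1, hy2⟩
    rw [hm] at hy2
    rw [hc]
    obtain ⟨n, hn⟩ := hy1 _ hy2
    have h1 : B (((2 : ℚ) ^ (j + 2)) • y) (((2 : ℚ) ^ (j + 2)) • y) =
        (2 : ℚ) * ((2 : ℚ) ^ j * B y (((2 : ℚ) ^ (j + 3)) • y)) := by
      simp only [map_smul, LinearMap.smul_apply, smul_eq_mul]
      ring
    rw [h1, hn]
    exact ⟨2 ^ j * n, by push_cast; ring⟩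

private theorem c3_ind {B : Frm V} (hB : Nd B) {L : AddSubgroup V} (hM : MinL B L)
    {x : V} (hx : x ∈ Du B L) : ∀ j : ℕ, ((2 : ℚ) ^ (j + 2)) • x ∈ L → (4 : ℚ) • x ∈ L
  | 0, h => by
    have : ((2 : ℚ) ^ (0 + 2)) = 4 := by norm_num
    rwa [this] at h
  | j + 1, h => c3_ind hB hM hx j (c3_step hB hM j hx h)

/-- PROOF.  As `s1_odd`, for `k ≥ 3` (`k ≤ 2` clear): `v = 2^(k-1) x'`: `v² = 2^(k-2) (2^k x', x')` is even. -/
theorem s1_two {B : Frm V} (hB : Nd B) {L : AddSubgroup V} (hM : MinL B L)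
    {k : ℕ} {x : V} (hx : x ∈ Du B L) (hk : ((2 : ℚ) ^ k) • x ∈ L) :
    (4 : ℚ) • x ∈ L := by
  apply c3_ind hB hM hx k
  have h := zn_mem hk 4
  rw [smul_smul] at h
  have h2 : ((4 : ℕ) : ℚ) * 2 ^ k = 2 ^ (k + 2) := by push_cast; ring
  rwa [h2] at h

/-- PROOF.  `X = {2 x' + l : x' ∈ Du B L, 4 x' ∈ L, (2 x')² even, l ∈ L}`: closed under addition: `(2x'+2x'')² = (2x')² + (2x'')² + 2 (4x',x'')` and
`(4x',x'') ∈ ℤ`; closed under negation; contains `L` (`x' = 0`); `Inv` (`inv_of`, `map_Du`, `IsIso`); even: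
`(2x'+l)² = (2x')² + 4 (x',l) + l²`.  `hM.m1`: `X = L`. -/
theorem s2 {B : Frm V} (hB : Nd B) {L : AddSubgroup V} (hM : MinL B L)
    {x : V} (hx : x ∈ Du B L) (h4 : (4 : ℚ) • x ∈ L)
    (he : Dv 2 (B ((2 : ℚ) • x) ((2 : ℚ) • x))) : (2 : ℚ) • x ∈ L := by
  let Y : AddSubgroup V :=
    { carrier := {y | y ∈ Du B L ∧ (4 : ℚ) • y ∈ L ∧ Dv 2 (B ((2 : ℚ) • y) ((2 : ℚ) • y))}
      add_mem' := by
        rintro a b ⟨ha, ha4, hae⟩ ⟨hb, hb4, hbe⟩
        refine ⟨(Du B L).add_mem ha hb, ?_, ?_⟩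
        · rw [smul_add]
          exact L.add_mem ha4 hb4
        · have h1 : B ((2 : ℚ) • (a + b)) ((2 : ℚ) • (a + b)) =
              B ((2 : ℚ) • a) ((2 : ℚ) • a) + B ((2 : ℚ) • b) ((2 : ℚ) • b) +
                (2 : ℚ) * B a ((4 : ℚ) • b) := by
            simp only [map_add, map_smul, LinearMap.add_apply, LinearMap.smul_apply, smul_eq_mul]
            rw [hB.symm b a]
            ring
          rw [h1]
          obtain ⟨n, hn⟩ := ha _ hb4
          rw [hn]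
          exact (hae.add hbe).add ⟨n, by push_cast; ring⟩
      zero_mem' := ⟨(Du B L).zero_mem, by rw [smul_zero]; exact L.zero_mem, by
        rw [smul_zero, map_zero]
        exact Dv.zero _⟩
      neg_mem' := by
        rintro a ⟨ha, ha4, hae⟩
        refine ⟨(Du B L).neg_mem ha, ?_, ?_⟩
        · rw [smul_neg]
          exact L.neg_mem ha4
        · have h1 : B ((2 : ℚ) • (-a)) ((2 : ℚ) • (-a)) = B ((2 : ℚ) • a) ((2 : ℚ) • a) := by
            simp only [smul_neg, map_neg, LinearMap.neg_apply, neg_neg]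
          rw [h1]
          exact hae }
  have hc : ((2 : ℤ) : ℚ) = 2 := by norm_num
  have h := c3_key hB hM 2 Y (fun y hy => hy.1)
    (fun g hg hgL y hy => ⟨map_Du hg hgL hy.1, by
      rw [← map_smul]
      exact (hgL _).2 hy.2.1, by
      rw [← map_smul, hg]
      exact hy.2.2⟩) (fun y hy => by rw [hc]; exact hy.2.2) (y := x) ⟨hx, h4, he⟩
  rwa [hc] at h

end Pool.Agent.RFN
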