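import Mathlib
import Pool.Agent.Lib.MP_dcc566_gt_R.LSc1
import Pool.Agent.Lib.MP_dcc566_gt_R.LSc2
import Pool.Agent.Lib.MP_dcc566_gt_R.LSc3

/-!
# Exponents: `odd_part`, `odd_part4` (`LSc1`), `s1_odd` (`LSc2`), `s1_two`, `s2` (`LSc3`)
-/
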