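import Mathlib
import Pool.Agent.Lib.MP_dcc566_gt_R.LSb
import Pool.Agent.Lib.MP_dcc566_gt_R.LSc

/-!
# Characteristic vectors, definition
-/

set_option autoImplicit false

namespace Pool.Agent.RFN

open Module

variable {V : Type} [AddCommGroup V] [Module ℚ V]

/-- `c ∈ Lk B L 4` with `(x,c) = (x,x)` modulo 1 for all `x ∈ Lk B L 2`. -/
def Chr (B : Frm V) (L : AddSubgroup V) (c : V) : Prop :=
  c ∈ Lk B L 4 ∧ ∀ x ∈ Lk B L 2, IsZ (B x c - B x x)

end Pool.Agent.RFN
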