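import Mathlib
import Pool.Agent.Lib.MP_dcc566_gt_R.LSb
import Pool.Agent.Lib.MP_dcc566_gt_R.LSc

/-!
# Odd multiples
-/

set_option autoImplicit false

namespace Pool.Agent.RFN

open Module

variable {V : Type} [AddCommGroup V] [Module ℚ V]

/-- PROOF.  `odd_part4` gives `n, k` with `2^k (n x) ∈ L`, and `n x ∈ Du B L`; `s1_two`. -/
theorem to_A {B : Frm V} (hB : Nd B) {L : AddSubgroup V} (hM : MinL B L) {x : V}
    (hx : x ∈ Du B L) : ∃ n : ℕ, n % 4 = 1 ∧ (n : ℚ) • x ∈ Lk B L 4 := by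
  obtain ⟨n, k, hn, hk⟩ := odd_part4 hM.full x
  have h1 : (n : ℚ) • x ∈ Du B L := zn_mem hx n
  have h2 := s1_two hB hM h1 hk
  refine ⟨n, hn, mem_Lk.2 ⟨h1, ?_⟩⟩
  rw [Nat.cast_ofNat]
  exact h2

/-- PROOF.  `x ∈ Du B L` because `Λ` is integral and `L ≤ Λ`.  `to_A`: `n x ∈ Lk B L 4`.
`(2 n x)² = 4 n² x²` is even.  `s2` for `n x`: `2 n x ∈ L`. -/
theorem lam_two {B : Frm V} (hB : Nd B) {L Λ : AddSubgroup V} (hM : MinL B L) (hE : EvL B Λ)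
    (hle : L ≤ Λ) {x : V} (hx : x ∈ Λ) : ∃ n : ℕ, n % 4 = 1 ∧ (n : ℚ) • x ∈ Lk B L 2 := by
  have hxD : x ∈ Du B L := fun y hy => EvL.isZ hB.symm hE hx (hle hy)
  obtain ⟨n, hn, hA⟩ := to_A hB hM hxD
  obtain ⟨h1, h4⟩ := mem_Lk.1 hA
  rw [Nat.cast_ofNat] at h4
  have h2 : (2 : ℚ) • ((n : ℚ) • x) ∈ Λ := by
    have h3 := zn_mem (zn_mem hx n) 2
    rwa [Nat.cast_ofNat] at h3
  refine ⟨n, hn, mem_Lk.2 ⟨h1, ?_⟩⟩
  rw [Nat.cast_ofNat]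
  exact s2 hB hM h1 h4 (hE _ h2)

end Pool.Agent.RFN
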