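import Mathlib
import Pool.Agent.Lib.MP_dcc566_gt_R.LSi0
import Pool.Agent.Lib.MP_dcc566_gt_R.LSi1

/-!
# Existence of characteristic vectors
-/

set_option autoImplicit false

namespace Pool.Agent.RFN

open Module

variable {V : Type} [AddCommGroup V] [Module ℚ V]

private theorem exists_pre [FiniteDimensional ℚ V] {B : Frm V} (hB : Nd B)
    (b : Basis (Fin (finrank ℚ V)) ℚ V) : ∃ c, ∀ i, B (b i) c = B (b i) (b i) := by
  have hinj : Function.Injective (LinearMap.pi fun i => B (b i) : V →ₗ[ℚ] _) := by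
    rw [← LinearMap.ker_eq_bot, LinearMap.ker_eq_bot']
    intro x hx
    have h1 : B.flip x = 0 := by
      refine b.ext fun i => ?_
      have := congrFun hx i
      simpa using this
    refine hB.nd x fun y => ?_
    rw [hB.symm]
    have := LinearMap.congr_fun h1 y
    simpa using this
  have hsurj := (LinearMap.injective_iff_surjective_of_finrank_eq_finrank
    (by rw [finrank_fintype_fun_eq_card, Fintype.card_fin])).1 hinj
  obtain ⟨c, hc⟩ := hsurj fun i => B (b i) (b i)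
  exact ⟨c, fun i => by
    have := congrFun hc i
    simpa using this⟩

/-- PROOF.  `Lk B L 2` has a `ℤ`-basis `b` (`zb_of_smul` with `N = 2`; it contains `L`, so is full).  There is `c₀` with `B (b i) c₀ = B (b i) (b i)` for all
`i` (the map `x ↦ (i ↦ B (b i) x)` is injective by `Nd`, so bijective).  For `x, y ∈ Lk B L 2`: `2 (x,y) = (2x,y) ∈ ℤ`.  The set
`{x ∈ Lk B L 2 : (x,c₀) - x² ∈ ℤ}` is a subgroup (`(x+y)² = x² + y² + 2 (x,y)`; `(-x,c₀) - x² = -((x,c₀) - x²) - 2 x²`) containing the `b i`, so it is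
everything.  For `l ∈ L ≤ Lk B L 2` this gives `(l,c₀) ∈ ℤ`, so `c₀ ∈ Du B L`.  `to_A`: `n % 4 = 1`, `n c₀ ∈ Lk B L 4`; `c = n c₀`:
`(x,c) - x² = (n-1)(x,c₀) + ((x,c₀) - x²)`, `4 ∣ n-1` and `2 (x,c₀) = (2x,c₀) ∈ ℤ` (`2x ∈ L`). -/
theorem exists_chr [FiniteDimensional ℚ V] {B : Frm V} (hB : Nd B) {L : AddSubgroup V}
    (hM : MinL B L) : ∃ c, Chr B L c := by
  have hfull : FullL (Lk B L 2) := fun v => by
    obtain ⟨n, hn, hv⟩ := hM.full v
    exact ⟨n, hn, le_Lk hB.symm hM.even 2 hv⟩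
  obtain ⟨b, hb⟩ := zb_of_smul hB hM.even hfull (N := 2) (by norm_num) (fun x hx => hx.2)
  obtain ⟨c₀, hc₀⟩ := exists_pre hB b
  have h2 : ∀ x ∈ Lk B L 2, ∀ y ∈ Du B L, IsZ (2 * B x y) := by
    intro x hx y hy
    have h3 := hy _ hx.2
    rw [map_smul, smul_eq_mul, hB.symm y x] at h3
    simpa using h3
  let S : AddSubgroup V :=
    { carrier := {x | x ∈ Lk B L 2 ∧ IsZ (B x c₀ - B x x)}
      add_mem' := fun {x y} hx hy => ⟨(Lk B L 2).add_mem hx.1 hy.1, by
        have h3 := (hx.2.add hy.2).sub (h2 x hx.1 y hy.1.1)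
        have h4 : B (x + y) c₀ - B (x + y) (x + y) =
            B x c₀ - B x x + (B y c₀ - B y y) - 2 * B x y := by
          simp only [map_add, LinearMap.add_apply]
          rw [hB.symm y x]
          ring
        rw [h4]
        exact h3⟩
      zero_mem' := ⟨(Lk B L 2).zero_mem, by
        rw [map_zero, LinearMap.zero_apply, LinearMap.zero_apply, sub_zero]
        exact ⟨0, by simp⟩⟩
      neg_mem' := fun {x} hx => ⟨(Lk B L 2).neg_mem hx.1, by
        have h3 := hx.2.neg.sub (h2 x hx.1 x hx.1.1)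
        have h4 : B (-x) c₀ - B (-x) (-x) = -(B x c₀ - B x x) - 2 * B x x := by
          simp only [map_neg, LinearMap.neg_apply]
          ring
        rw [h4]
        exact h3⟩ }
  have hbS : ∀ i, b i ∈ S := by
    intro i
    refine ⟨(hb _).2 fun j => ?_, ?_⟩
    · rw [b.repr_self]
      by_cases hij : i = j
      · rw [hij, Finsupp.single_eq_same]
        exact ⟨1, by simp⟩
      · rw [Finsupp.single_eq_of_ne (Ne.symm hij)]
        exact ⟨0, by simp⟩
    · rw [hc₀ i, sub_self]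
      exact ⟨0, by simp⟩
  have hS : ∀ x ∈ Lk B L 2, IsZ (B x c₀ - B x x) := by
    intro x hx
    have h3 : x ∈ S := by
      rw [← b.sum_repr x]
      refine S.sum_mem fun i _ => ?_
      obtain ⟨n, hn⟩ := (hb x).1 hx i
      rw [hn]
      exact zs_mem (hbS i) n
    exact h3.2
  have hD : c₀ ∈ Du B L := by
    intro l hl
    have h3 := (hS l (le_Lk hB.symm hM.even 2 hl)).add (EvL.isZ hB.symm hM.even hl hl)
    rw [sub_add_cancel, hB.symm] at h3
    exact h3
  obtain ⟨n, hn, hnL⟩ := to_A hB hM hD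
  obtain ⟨m, rfl⟩ : ∃ m, n = 4 * m + 1 := ⟨n / 4, by omega⟩
  refine ⟨((4 * m + 1 : ℕ) : ℚ) • c₀, hnL, fun x hx => ?_⟩
  have h4 := (((h2 x hx c₀ hD).mul (IsZ.int (2 * (m : ℤ)))).add (hS x hx))
  have h5 : B x (((4 * m + 1 : ℕ) : ℚ) • c₀) - B x x =
      2 * B x c₀ * ((2 * (m : ℤ) : ℤ) : ℚ) + (B x c₀ - B x x) := by
    rw [map_smul, smul_eq_mul]
    push_cast
    ring
  rw [h5]
  exact h4

end Pool.Agent.RFN
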