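import Mathlib
import Pool.Agent.Lib.MP_dcc566_gt_R.LSi0
import Pool.Agent.Lib.MP_dcc566_gt_R.LSi1

/-!
# Properties of characteristic vectors
-/

set_option autoImplicit false

namespace Pool.Agent.RFN

open Module

variable {V : Type} [AddCommGroup V] [Module ℚ V]

private theorem isZ_odd {n : ℕ} (hn : n % 4 = 1) {q : ℚ} (h1 : IsZ ((n : ℚ) * q))
    (h2 : IsZ (2 * q)) : IsZ q := by
  obtain ⟨a, ha⟩ := h1
  obtain ⟨b, hb⟩ := h2
  obtain ⟨k, hk⟩ : ∃ k : ℕ, n = 4 * k + 1 := ⟨n / 4, by omega⟩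
  refine ⟨a - 2 * k * b, ?_⟩
  push_cast
  rw [← ha, ← hb, hk]
  push_cast
  ring

/-- PROOF.  By `du_du` it is enough that `(2c,y) ∈ ℤ` for all `y ∈ Du B L`.  `to_A`: `n y ∈ Lk B L 4`, `n % 4 = 1`; put `x = 2 n y`: `x ∈ Du B L`, `2x = 4 n y ∈ L`, so
`x ∈ Lk B L 2`, and `x² = (4 n y, n y) ∈ ℤ`.  So `(x,c) ∈ ℤ`, i.e. `n (2c,y) ∈ ℤ`.  And `2 (2c,y) = (4c,y) ∈ ℤ`.  `n` is odd, so `(2c,y) ∈ ℤ`. -/
theorem chr_two [FiniteDimensional ℚ V] {B : Frm V} (hB : Nd B) {L : AddSubgroup V}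
    (hM : MinL B L) {c : V} (hc : Chr B L c) : (2 : ℚ) • c ∈ L := by
  have hs := hB.symm
  rw [← du_du hB hM.even hM.full]
  intro y hy
  obtain ⟨n, hn, hny⟩ := to_A hB hM hy
  obtain ⟨h1, h2⟩ := hny
  have hx : (2 : ℚ) • ((n : ℚ) • y) ∈ Lk B L 2 := by
    refine ⟨by simpa using zn_mem h1 2, ?_⟩
    rw [smul_smul]
    have h3 : ((2 : ℕ) : ℚ) * 2 = ((4 : ℕ) : ℚ) := by norm_num
    rw [h3]
    exact h2
  have h4 := hc.2 _ hx
  have h5 : IsZ (B ((2 : ℚ) • ((n : ℚ) • y)) ((2 : ℚ) • ((n : ℚ) • y))) := by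
    have h6 := h1 _ h2
    have h7 : B ((2 : ℚ) • ((n : ℚ) • y)) ((2 : ℚ) • ((n : ℚ) • y)) =
        B ((n : ℚ) • y) (((4 : ℕ) : ℚ) • ((n : ℚ) • y)) := by
      simp only [map_smul, LinearMap.smul_apply, smul_eq_mul]
      push_cast
      ring
    rw [h7]
    exact h6
  have h8 : IsZ (B ((2 : ℚ) • ((n : ℚ) • y)) c) := by
    have h9 := h4.add h5
    rwa [sub_add_cancel] at h9
  have h10 : IsZ ((n : ℚ) * B ((2 : ℚ) • c) y) := by
    have h11 : (n : ℚ) * B ((2 : ℚ) • c) y = B ((2 : ℚ) • ((n : ℚ) • y)) c := by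
      simp only [map_smul, LinearMap.smul_apply, smul_eq_mul]
      rw [hs c y]
      ring
    rw [h11]
    exact h8
  have h12 : IsZ (2 * B ((2 : ℚ) • c) y) := by
    have h13 := hy _ hc.1.2
    have h14 : 2 * B ((2 : ℚ) • c) y = B y (((4 : ℕ) : ℚ) • c) := by
      simp only [map_smul, LinearMap.smul_apply, smul_eq_mul]
      rw [hs c y]
      push_cast
      ring
    rw [h14]
    exact h13
  exact isZ_odd hn h10 h12

/-- PROOF.  `lam_two`: `n x ∈ Lk B L 2`; `(n x, c) - (n x)² ∈ ℤ` and `(n x)² = n² x² ∈ ℤ`: `n (x,c) ∈ ℤ`; `2 (c,x) = (2c,x) ∈ ℤ` as `2c ∈ L ≤ Λ` (`chr_two`);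
`n` is odd. -/
theorem chr_lam [FiniteDimensional ℚ V] {B : Frm V} (hB : Nd B) {L Λ : AddSubgroup V}
    (hM : MinL B L) (hE : EvL B Λ) (hle : L ≤ Λ) {c : V} (hc : Chr B L c) {x : V} (hx : x ∈ Λ) :
    IsZ (B c x) := by
  have hs := hB.symm
  obtain ⟨n, hn, hnx⟩ := lam_two hB hM hE hle hx
  have h1 := hc.2 _ hnx
  have h2 : IsZ (B ((n : ℚ) • x) ((n : ℚ) • x)) := by
    have h3 : B ((n : ℚ) • x) ((n : ℚ) • x) = ((n : ℤ) : ℚ) * (((n : ℤ) : ℚ) * B x x) := by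
      simp only [map_smul, LinearMap.smul_apply, smul_eq_mul]
      push_cast
      ring
    rw [h3]
    exact (IsZ.int _).mul ((IsZ.int _).mul (hE x hx).isZ)
  have h4 : IsZ (B ((n : ℚ) • x) c) := by
    have h5 := h1.add h2
    rwa [sub_add_cancel] at h5
  have h6 : IsZ ((n : ℚ) * B c x) := by
    have h7 : (n : ℚ) * B c x = B ((n : ℚ) • x) c := by
      simp only [map_smul, LinearMap.smul_apply, smul_eq_mul]
      rw [hs c x]
    rw [h7]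
    exact h4
  have h8 : IsZ (2 * B c x) := by
    have h9 := EvL.isZ hs hE (hle (chr_two hB hM hc)) hx
    have h10 : 2 * B c x = B ((2 : ℚ) • c) x := by
      simp only [map_smul, LinearMap.smul_apply, smul_eq_mul]
    rw [h10]
    exact h9
  exact isZ_odd hn h6 h8

end Pool.Agent.RFN
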