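import Mathlib
import Pool.Agent.Lib.MP_dcc566_gt_R.LSi2
import Pool.Agent.Lib.MP_dcc566_gt_R.LSi3

/-!
# Characteristic vectors: `Chr` (`LSi0`), `to_A`, `lam_two` (`LSi1`), `exists_chr` (`LSi2`), `chr_two`, `chr_lam` (`LSi3`)
-/
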