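import Mathlib
import Pool.Agent.Lib.MP_dcc566_gt_R.LSi

/-!
# Characteristic vectors of nonintegral norm and of even norm
-/

set_option autoImplicit false

namespace Pool.Agent.RFN

open Module

variable {V : Type} [AddCommGroup V] [Module ℚ V] [FiniteDimensional ℚ V]

/-- PROOF.  `r = 2c ∈ L ≤ Λ` (`chr_two`), `(r,x) = 2 (c,x)` even for `x ∈ Λ` (`chr_lam`), `r² = 4 c²`. -/
theorem chr_case1 {B : Frm V} (hB : Nd B) {L Λ : AddSubgroup V} (hM : MinL B L) (hE : EvL B Λ)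
    (hle : L ≤ Λ) {c : V} (hc : Chr B L c) (h : ¬ IsZ (B c c)) :
    ∃ r ∈ Rp B Λ 2, ¬ Dv 4 (B r r) := by
  refine ⟨(2 : ℚ) • c, ⟨hle (chr_two hB hM hc), fun y hy => ?_⟩, ?_⟩
  · obtain ⟨m, hm⟩ := chr_lam hB hM hE hle hc hy
    refine ⟨m, ?_⟩
    rw [map_smul, LinearMap.smul_apply, smul_eq_mul, hm]
    push_cast
    rfl
  · rintro ⟨m, hm⟩
    apply h
    refine ⟨m, ?_⟩
    rw [map_smul, map_smul, LinearMap.smul_apply, smul_eq_mul, smul_eq_mul] at hm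
    push_cast at hm
    linarith

/-- PROOF.  `h = c' - c ∈ Lk B L 4` and `(h,x) ∈ ℤ` for `x ∈ Lk B L 2`; `dual_sum`: `h = l + 2h'`, `l ∈ L`, `h' ∈ Du B L`.  `8 h' = 4h - 4l ∈ L`, so `4 h' ∈ L`
(`s1_two`, `k = 3`).  If `2h' ∈ L`: done.  Otherwise `(2h')² = (4h',h')` is an integer and not even (`s2`).  `2h' ∈ Lk B L 2`, so
`(2h',c) - (2h')² ∈ ℤ`, `(2h',c) ∈ ℤ`.  `c'² = (c + 2h')² + 2 (c + 2h', l) + l²`, `(c+2h',l) ∈ ℤ`, `l²` even, and
`(c+2h')² = c² + 2 (c,2h') + (2h')²` is even + even + odd.  So `c'²` is odd, contradiction. -/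
theorem chr_same {B : Frm V} (hB : Nd B) {L : AddSubgroup V} (hM : MinL B L) {c c' : V}
    (hc : Chr B L c) (hc' : Chr B L c') (h : Dv 2 (B c c)) (h' : Dv 2 (B c' c')) :
    c' - c ∈ L := by
  have h1 : ∀ z ∈ Lk B L 2, IsZ (B (c' - c) z) := by
    intro z hz
    have h2 := (hc'.2 z hz).sub (hc.2 z hz)
    have h3 : B (c' - c) z = B z c' - B z z - (B z c - B z z) := by
      rw [map_sub, LinearMap.sub_apply, hB.symm c' z, hB.symm c z]
      ring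
    rw [h3]
    exact h2
  obtain ⟨l, hl, w, hw, heq⟩ := dual_sum hB hM.even hM.full h1
  have h4 : (4 : ℚ) • w ∈ L := by
    refine s1_two hB hM (k := 3) hw ?_
    have h5 := ((Lk B L 4).sub_mem hc'.1 hc.1).2
    have h6 := L.sub_mem h5 (zn_mem hl 4)
    have h7 : ((4 : ℕ) : ℚ) • (c' - c) - ((4 : ℕ) : ℚ) • l = ((2 : ℚ) ^ 3) • w := by
      rw [heq, smul_add, add_sub_cancel_left, smul_smul]
      norm_num
    rwa [h7] at h6
  by_cases h2w : (2 : ℚ) • w ∈ L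
  · rw [heq]
    exact L.add_mem hl h2w
  exfalso
  apply h2w
  refine s2 hB hM hw h4 ?_
  have hw2 : (2 : ℚ) • w ∈ Du B L := by
    have := zn_mem hw 2
    simpa using this
  have hLk : (2 : ℚ) • w ∈ Lk B L 2 := by
    refine ⟨hw2, ?_⟩
    rw [smul_smul]
    norm_num
    exact h4
  obtain ⟨m, hm⟩ : IsZ (B ((2 : ℚ) • w) ((2 : ℚ) • w)) := by
    have h5 := hw _ h4
    have h6 : B ((2 : ℚ) • w) ((2 : ℚ) • w) = B w ((4 : ℚ) • w) := by
      simp only [map_smul, LinearMap.smul_apply, smul_eq_mul]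
      ring
    rw [h6]
    exact h5
  obtain ⟨b, hb⟩ : IsZ (B ((2 : ℚ) • w) c) := by
    have h5 := (hc.2 _ hLk).add ⟨m, hm⟩
    rwa [sub_add_cancel] at h5
  obtain ⟨d, hd⟩ : IsZ (B (c + (2 : ℚ) • w) l) :=
    ((Du B L).add_mem hc.1.1 hw2) l hl
  obtain ⟨a, ha⟩ := h
  obtain ⟨f, hf⟩ := h'
  obtain ⟨e, he⟩ := hM.even l hl
  have hcc : c' = c + (2 : ℚ) • w + l := by
    have h5 := sub_eq_iff_eq_add.1 heq
    rw [h5]
    abel
  have h5 : B c' c' = B c c + 2 * B ((2 : ℚ) • w) c + B ((2 : ℚ) • w) ((2 : ℚ) • w) +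
      2 * B (c + (2 : ℚ) • w) l + B l l := by
    rw [hcc]
    generalize (2 : ℚ) • w = y
    simp only [map_add, LinearMap.add_apply]
    rw [hB.symm c y, hB.symm l y, hB.symm l c]
    ring
  rw [hf, ha, hb, hd, he] at h5
  refine ⟨f - a - b - d - e, ?_⟩
  push_cast at h5 ⊢
  linarith

end Pool.Agent.RFN
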