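import Mathlib
import Pool.Agent.Lib.MP_dcc566_gt_R.LSj1

/-!
# Characteristic vectors of even norm
-/

set_option autoImplicit false

namespace Pool.Agent.RFN

open Module

variable {V : Type} [AddCommGroup V] [Module ℚ V] [FiniteDimensional ℚ V]

/-- PROOF.  `X = {l + m c : l ∈ L, m ∈ ℤ}` (`L ⊔ AddSubgroup.zmultiples c`).  For an isometry `g` with `g L = L` also `g c` satisfies `Chr` (`map_Lk`,
and for `g.symm`), `(g c)² = c²`, so `g c - c ∈ L` (`chr_same`): `X` is `Inv` (`inv_of`).  Even: `(l + m c)² = l² + 2 m (l,c) + m² c²`, `(l,c) ∈ ℤ`.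
`hM.m1`: `X = L`. -/
theorem chr_even {B : Frm V} (hB : Nd B) {L : AddSubgroup V} (hM : MinL B L) {c : V}
    (hc : Chr B L c) (h : Dv 2 (B c c)) : c ∈ L := by
  have hs := hB.symm
  have hcD : ∀ y ∈ L, IsZ (B c y) := hc.1.1
  -- the images of `c` are congruent to `c`
  have hg : ∀ g : V ≃ₗ[ℚ] V, IsIso B B g → MapsL g L L → g c - c ∈ L := by
    intro g hg hgL
    have hg' : IsIso B B g.symm := by
      intro x y
      have := hg (g.symm x) (g.symm y)
      rw [g.apply_symm_apply, g.apply_symm_apply] at this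
      exact this.symm
    have hgL' : MapsL g.symm L L := by
      intro x
      have := hgL (g.symm x)
      rw [g.apply_symm_apply] at this
      exact this.symm
    refine chr_same hB hM hc ⟨map_Lk hg hgL hc.1, fun x hx => ?_⟩ h (by rw [hg]; exact h)
    have h1 := hc.2 _ (map_Lk hg' hgL' hx)
    rw [hg'] at h1
    have h2 : B (g.symm x) c = B x (g c) := by
      have := hg (g.symm x) c
      rw [g.apply_symm_apply] at this
      exact this.symm
    rwa [h2] at h1
  have hX : L ⊔ AddSubgroup.zmultiples c = L := by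
    refine hM.m1 _ le_sup_left (inv_of fun g hgi hgL x hx => ?_) ?_
    · obtain ⟨l, hl, z, hz, rfl⟩ := AddSubgroup.mem_sup.1 hx
      obtain ⟨m, rfl⟩ := AddSubgroup.mem_zmultiples_iff.1 hz
      have h1 : g (l + m • c) = (g l + m • (g c - c)) + m • c := by
        rw [map_add, map_zsmul, smul_sub]
        abel
      rw [h1]
      exact AddSubgroup.mem_sup.2 ⟨_, L.add_mem ((hgL l).2 hl) (L.zsmul_mem (hg g hgi hgL) m),
        _, AddSubgroup.mem_zmultiples_iff.2 ⟨m, rfl⟩, rfl⟩
    · intro x hx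
      obtain ⟨l, hl, z, hz, rfl⟩ := AddSubgroup.mem_sup.1 hx
      obtain ⟨m, rfl⟩ := AddSubgroup.mem_zmultiples_iff.1 hz
      obtain ⟨a, ha⟩ := hM.even l hl
      obtain ⟨b, hb⟩ := hcD l hl
      obtain ⟨d, hd⟩ := h
      refine ⟨a + m * b + m ^ 2 * d, ?_⟩
      have h1 : B (l + m • c) (l + m • c) = B l l + 2 * m * B c l + (m : ℚ) ^ 2 * B c c := by
        rw [← Int.cast_smul_eq_zsmul ℚ m c]
        simp only [map_add, map_smul, LinearMap.add_apply, LinearMap.smul_apply, smul_eq_mul]
        rw [hs l c]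
        ring
      rw [h1, ha, hb, hd]
      push_cast
      ring
  rw [← hX]
  exact AddSubgroup.mem_sup_right (AddSubgroup.mem_zmultiples c)

end Pool.Agent.RFN
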