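import Mathlib
import Pool.Agent.Lib.MP_dcc566_gt_R.LSi

/-!
# Characteristic vectors of odd norm
-/

set_option autoImplicit false

namespace Pool.Agent.RFN

open Module

variable {V : Type} [AddCommGroup V] [Module ℚ V] [FiniteDimensional ℚ V]

private theorem LSj3_odd {q : ℚ} (h : IsZ q) (h2 : ¬ Dv 2 q) : ∃ m : ℤ, q = 2 * m + 1 := by
  obtain ⟨a, rfl⟩ := h
  rcases Int.even_or_odd a with ⟨m, hm⟩ | ⟨m, hm⟩
  · exact absurd ⟨m, by rw [hm]; push_cast; ring⟩ h2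
  · exact ⟨m, by rw [hm]; push_cast; ring⟩

/-- PROOF.  Take `c` (`exists_chr`).  `c² ` is an integer and not even, so `c ∉ Λ`;
`Λ = Du B (Du B Λ)` (`du_du`, `hΛ.full`), so there is `z ∈ Du B Λ` with
`(c,z) ∉ ℤ`.  `z ∈ Du B L` (`Du_anti`).  `to_A`: `n z ∈ Lk B L 4`, `n % 4 = 1`;
`2 (c,z) = (2c,z) ∈ ℤ` (`chr_two`), so `n (c,z) ∉ ℤ`; replace `z` by `n z`
(still in `Du B Λ`).  If `2z ∈ L`: `z ∈ Lk B L 2`, `(z,c) - z² ∈ ℤ`, so `z² ∉ ℤ`; `r = 2z ∈ L ≤ Λ`,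
`(r,x) = 2 (z,x)`, `r² = 4 z²` not in `4ℤ`.
If `2z ∉ L`: `(2z)² = (4z,z)` is an integer and not even (`s2`).  Put `h = 2z`: `h ∈ Lk B L 4`,
`h ∈ Lk B L 2`, and for `x ∈ Lk B L 2`:
`(x,h) = (2x,z) ∈ ℤ` (`2x ∈ L ≤ Λ`).  So `c + h` satisfies `Chr`, and `(c+h)² = c² + 2 (c,h) + h²`
with `(h,c) - h² ∈ ℤ`, so `(c,h) ∈ ℤ`: odd + even +
odd is even: contradiction to `hodd`. -/
theorem chr_odd {B : Frm V} (hB : Nd B) {L Λ : AddSubgroup V} (hM : MinL B L) (hΛ : MaxE B Λ)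
    (hle : L ≤ Λ) (hodd : ∀ c, Chr B L c → IsZ (B c c) ∧ ¬ Dv 2 (B c c)) :
    ∃ r ∈ Rp B Λ 2, ¬ Dv 4 (B r r) := by
  obtain ⟨c, hc⟩ := exists_chr hB hM
  obtain ⟨hcZ, hc2⟩ := hodd c hc
  have h2c := chr_two hB hM hc
  have hcΛ : c ∉ Λ := fun h => hc2 (hΛ.even c h)
  -- a vector of the dual lattice of `Λ` with nonintegral product
  obtain ⟨z, hz, hcz⟩ : ∃ z ∈ Du B Λ, ¬ IsZ (B c z) := by
    by_contra hcon
    push Not at hcon
    apply hcΛ
    rw [← du_du hB hΛ.even hΛ.full]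
    exact mem_Du.2 hcon
  obtain ⟨n, hn, hnz⟩ := to_A hB hM (Du_anti hle hz)
  obtain ⟨w, hw⟩ : ∃ w, w = (n : ℚ) • z := ⟨_, rfl⟩
  rw [← hw] at hnz
  have hwΛ : w ∈ Du B Λ := by
    rw [hw]
    exact zn_mem hz n
  have hcw : ¬ IsZ (B c w) := by
    intro h
    apply hcz
    obtain ⟨a, ha⟩ := h
    obtain ⟨b, hb⟩ := mem_Du.1 hz _ (hle h2c)
    obtain ⟨k, hk⟩ : ∃ k : ℕ, n = 4 * k + 1 := ⟨n / 4, by omega⟩
    refine ⟨a - 2 * k * b, ?_⟩
    rw [hw, map_smul, smul_eq_mul, hk] at ha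
    rw [map_smul, smul_eq_mul, hB.symm z c] at hb
    push_cast at ha ⊢
    rw [← ha, ← hb]
    ring
  have hwL : w ∈ Du B L := hnz.1
  have h4w : (4 : ℚ) • w ∈ L := by
    have := hnz.2
    rwa [Nat.cast_ofNat] at this
  by_cases h2w : (2 : ℚ) • w ∈ L
  · have hLk : w ∈ Lk B L 2 := mem_Lk.2 ⟨hwL, by rw [Nat.cast_ofNat]; exact h2w⟩
    have hw2 : ¬ IsZ (B w w) := by
      intro h
      apply hcw
      have h1 := (hc.2 w hLk).add h
      rwa [sub_add_cancel, hB.symm] at h1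
    refine ⟨(2 : ℚ) • w, mem_Rp.2 ⟨hle h2w, fun y hy => ?_⟩, ?_⟩
    · obtain ⟨m, hm⟩ := mem_Du.1 hwΛ y hy
      refine ⟨m, ?_⟩
      rw [map_smul, LinearMap.smul_apply, smul_eq_mul, hm]
      push_cast
      rfl
    · rintro ⟨m, hm⟩
      apply hw2
      refine ⟨m, ?_⟩
      rw [map_smul, map_smul, LinearMap.smul_apply, smul_eq_mul, smul_eq_mul] at hm
      push_cast at hm
      linarith
  · exfalso
    obtain ⟨h, hh⟩ : ∃ h, h = (2 : ℚ) • w := ⟨_, rfl⟩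
    have hhL : h ∈ Du B L := by
      rw [hh]
      have := zn_mem hwL 2
      simpa using this
    have hhZ : IsZ (B h h) := by
      have h5 := mem_Du.1 hwL _ h4w
      have h6 : B h h = B w ((4 : ℚ) • w) := by
        rw [hh]
        simp only [map_smul, LinearMap.smul_apply, smul_eq_mul]
        ring
      rw [h6]
      exact h5
    have hhodd : ¬ Dv 2 (B h h) := by
      intro h5
      apply h2w
      refine s2 hB hM hwL h4w ?_
      rw [← hh]
      exact h5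
    have hhLk : h ∈ Lk B L 2 := by
      refine mem_Lk.2 ⟨hhL, ?_⟩
      rw [hh, smul_smul, Nat.cast_ofNat]
      have h5 : (2 : ℚ) * 2 = 4 := by norm_num
      rw [h5]
      exact h4w
    have hhLk4 : h ∈ Lk B L 4 := by
      refine mem_Lk.2 ⟨hhL, ?_⟩
      have h5 := zn_mem h4w 2
      rw [smul_smul] at h5
      rw [hh, smul_smul]
      have h6 : ((4 : ℕ) : ℚ) * 2 = ((2 : ℕ) : ℚ) * 4 := by norm_num
      rw [h6]
      exact h5
    have hchr : Chr B L (c + h) := by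
      refine ⟨(Lk B L 4).add_mem hc.1 hhLk4, fun x hx => ?_⟩
      have h5 : IsZ (B x h) := by
        have h6 := mem_Du.1 hwL _ (mem_Lk.1 hx).2
        have h7 : B x h = B w (((2 : ℕ) : ℚ) • x) := by
          rw [hh]
          simp only [map_smul, smul_eq_mul]
          rw [hB.symm x w]
          push_cast
          ring
        rw [h7]
        exact h6
      have h6 := (hc.2 x hx).add h5
      have h7 : B x (c + h) - B x x = B x c - B x x + B x h := by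
        rw [map_add]
        ring
      rw [h7]
      exact h6
    obtain ⟨h1, h2⟩ := hodd _ hchr
    obtain ⟨a, ha⟩ := LSj3_odd hcZ hc2
    obtain ⟨b, hb⟩ := LSj3_odd hhZ hhodd
    obtain ⟨d, hd⟩ : IsZ (B h c) := by
      have h5 := (hc.2 h hhLk).add hhZ
      rwa [sub_add_cancel] at h5
    apply h2
    refine ⟨a + b + 1 + d, ?_⟩
    have h5 : B (c + h) (c + h) = B c c + 2 * B h c + B h h := by
      simp only [map_add, LinearMap.add_apply]
      rw [hB.symm c h]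
      ring
    rw [h5, ha, hb, hd]
    push_cast
    ring

end Pool.Agent.RFN
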