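import Mathlib
import Pool.Agent.Lib.MP_dcc566_gt_R.LSj2
import Pool.Agent.Lib.MP_dcc566_gt_R.LSj3

/-!
# Odd radical vectors modulo 2
-/

set_option autoImplicit false

namespace Pool.Agent.RFN

open Module

variable {V : Type} [AddCommGroup V] [Module ℚ V] [FiniteDimensional ℚ V]

/-- PROOF.  If some `c` with `Chr` has `c² ∉ ℤ`: `chr_case1`.  Otherwise, if some `c` with `Chr` has
even norm: `c ∈ L` (`chr_even`); `x = y/2` is in
`Lk B L 2` (`y ∈ Rp B L 2`), so `(x,c) - x² ∈ ℤ`, `(x,c) ∈ ℤ`, so `x² = y²/4 ∈ ℤ`: against `h`. 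
Otherwise `chr_odd`. -/
theorem s6 {B : Frm V} (hB : Nd B) {L Λ : AddSubgroup V} (hM : MinL B L) (hΛ : MaxE B Λ)
    (hle : L ≤ Λ) {y : V} (hy : y ∈ Rp B L 2) (h : ¬ Dv 4 (B y y)) :
    ∃ r ∈ Rp B Λ 2, ¬ Dv 4 (B r r) := by
  by_cases h1 : ∃ c, Chr B L c ∧ ¬ IsZ (B c c)
  · obtain ⟨c, hc, hc1⟩ := h1
    exact chr_case1 hB hM hΛ.even hle hc hc1
  · push Not at h1
    by_cases h2 : ∃ c, Chr B L c ∧ Dv 2 (B c c)
    · obtain ⟨c, hc, hc2⟩ := h2
      have hcL := chr_even hB hM hc hc2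
      exfalso
      apply h
      have hx : (1 / 2 : ℚ) • y ∈ Lk B L 2 := by
        refine mem_Lk.2 ⟨mem_Du.2 fun z hz => ?_, ?_⟩
        · obtain ⟨n, hn⟩ := (mem_Rp.1 hy).2 z hz
          refine ⟨n, ?_⟩
          rw [map_smul, LinearMap.smul_apply, smul_eq_mul, hn]
          push_cast
          ring
        · rw [smul_smul]
          have h3 : ((2 : ℕ) : ℚ) * (1 / 2) = 1 := by norm_num
          rw [h3, one_smul]
          exact (mem_Rp.1 hy).1
      have h3 := hc.2 _ hx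
      have h4 : IsZ (B ((1 / 2 : ℚ) • y) c) := (mem_Du.1 (mem_Lk.1 hx).1) c hcL
      have h5 : IsZ (B ((1 / 2 : ℚ) • y) ((1 / 2 : ℚ) • y)) := by
        have h6 := h4.sub h3
        rwa [sub_sub_cancel] at h6
      obtain ⟨n, hn⟩ := h5
      refine ⟨n, ?_⟩
      have h6 : B ((1 / 2 : ℚ) • y) ((1 / 2 : ℚ) • y) = (1 / 4) * B y y := by
        simp only [map_smul, LinearMap.smul_apply, smul_eq_mul]
        ring
      rw [h6] at hn
      push_cast
      linarith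
    · exact chr_odd hB hM hΛ hle fun c hc => ⟨h1 c hc, fun h3 => h2 ⟨c, hc, h3⟩⟩

end Pool.Agent.RFN
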