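import Mathlib
import Pool.Agent.Lib.MP_dcc566_gt_R.Bas

set_option autoImplicit false

namespace Pool.Agent.RFN

variable {V : Type} [AddCommGroup V] [Module ℚ V]

/-- Monotonicity (restrict to the first `r'` vectors; extend `c` by zero). -/
theorem rk_mono {B : Frm V} {Λ : AddSubgroup V} {p r r' : ℕ} (h : RkGe B Λ p r) (hr : r' ≤ r) :
    RkGe B Λ p r' := by
  obtain ⟨u, hu, hind⟩ := h
  refine ⟨u, fun i hi => hu i (hi.trans_le hr), fun c hc i hi => ?_⟩
  have h1 : ∑ i ∈ Finset.range r, (((if i < r' then c i else 0 : ℤ) : ℤ) : ℚ) • u i =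
      ∑ i ∈ Finset.range r', (c i : ℚ) • u i := by
    rw [← Finset.sum_subset (Finset.range_mono hr)]
    · refine Finset.sum_congr rfl fun j hj => ?_
      rw [if_pos (Finset.mem_range.1 hj)]
    · intro j _ hj
      rw [if_neg (fun h => hj (Finset.mem_range.2 h))]
      simp
  have h2 := hind (fun i => if i < r' then c i else 0) (fun x hx => by
    rw [h1]
    exact hc x hx) i (hi.trans_le hr)
  simpa only [if_pos hi] using h2

/-- The rank is at most the dimension.

PROOF.  The `u i`, `i < r`, are linearly independent over `ℚ`: a nontrivial rational relation, multiplied by a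
suitable rational number, gives integers `c i`, not all divisible by `p` (`p` prime: divide by the gcd), with
`∑ c i u i = 0`, which is in the radical: contradiction with `ind`. -/
theorem rk_le [FiniteDimensional ℚ V] {B : Frm V} {Λ : AddSubgroup V} {p r : ℕ}
    (hp : p.Prime) (h : RkGe B Λ p r) : r ≤ Module.finrank ℚ V := by
  obtain ⟨u, hu, hind⟩ := h
  have hp0 : (p : ℤ) ≠ 0 := by exact_mod_cast hp.ne_zero
  have hpq : (p : ℚ) ≠ 0 := by exact_mod_cast hp.ne_zero
  -- integer relations are divisible by all powers of `p`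
  have key : ∀ (k : ℕ) (c : ℕ → ℤ), ∑ i ∈ Finset.range r, (c i : ℚ) • u i = 0 →
      ∀ i < r, (p : ℤ) ^ k ∣ c i := by
    intro k
    induction k with
    | zero => intro c _ i _; simp
    | succ k ih =>
      intro c hc i hi
      have h1 : ∀ i < r, (p : ℤ) ∣ c i := hind c (fun x _ => by
        rw [hc]
        simp only [map_zero, LinearMap.zero_apply]
        exact Dv.zero _)
      set c' : ℕ → ℤ := fun i => c i / p with hc'
      have h2 : ∀ i < r, c i = p * c' i := fun i hi => (Int.mul_ediv_cancel' (h1 i hi)).symm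
      have h3 : ∑ i ∈ Finset.range r, (c' i : ℚ) • u i = 0 := by
        have h4 : (p : ℚ) • ∑ i ∈ Finset.range r, (c' i : ℚ) • u i = 0 := by
          rw [← hc, Finset.smul_sum]
          refine Finset.sum_congr rfl fun j hj => ?_
          rw [h2 j (Finset.mem_range.1 hj), smul_smul]
          push_cast
          rfl
        exact (smul_eq_zero.1 h4).resolve_left hpq
      rw [h2 i hi, pow_succ']
      exact mul_dvd_mul_left _ (ih c' h3 i hi)
  have hzero : ∀ (c : ℕ → ℤ), ∑ i ∈ Finset.range r, (c i : ℚ) • u i = 0 → ∀ i < r, c i = 0 := by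
    intro c hc i hi
    by_contra hne
    have h1 := key (c i).natAbs c hc i hi
    have h2 : p ^ (c i).natAbs ∣ (c i).natAbs := by
      have := Int.natAbs_dvd_natAbs.2 h1
      simpa [Int.natAbs_pow] using this
    have h3 : p ^ (c i).natAbs ≤ (c i).natAbs :=
      Nat.le_of_dvd (Int.natAbs_pos.2 hne) h2
    exact absurd h3 (not_le.2 (Nat.lt_pow_self hp.one_lt))
  have hli : LinearIndependent ℚ (fun i : Fin r => u i) := by
    rw [Fintype.linearIndependent_iff]
    intro g hg
    obtain ⟨n, z, hn, hz⟩ := exists_cz g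
    have hn' : (n : ℚ) ≠ 0 := by exact_mod_cast hn.ne'
    set c : ℕ → ℤ := fun i => if h : i < r then z ⟨i, h⟩ else 0 with hc
    have h1 : ∑ i ∈ Finset.range r, (c i : ℚ) • u i = 0 := by
      rw [Finset.sum_range]
      have h2 : ∀ i : Fin r, (c i : ℚ) • u i = (n : ℚ) • (g i • u i) := by
        intro i
        have h3 : c i = z i := by simp [hc]
        rw [h3, smul_smul]
        congr 1
        have := congrFun hz i
        simpa [cz] using this.symm
      rw [Finset.sum_congr rfl fun i _ => h2 i, ← Finset.smul_sum, hg, smul_zero]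
    intro i
    have h2 := hzero c h1 i i.2
    have h3 : c i = z i := by simp [hc]
    rw [h3] at h2
    have h4 := congrFun hz i
    simp only [Pi.smul_apply, smul_eq_mul, cz, h2, Int.cast_zero] at h4
    exact (mul_eq_zero.1 h4).resolve_left hn'
  have := hli.fintype_card_le_finrank
  simpa using this

/-- The rank of `N` from that of `U ⊕ E₈ ⊕ N`.

PROOF.  Let `u_0, ..., u_{r+9}` be independent modulo the radical of `PL N`, `u_i = ((a_i,b_i),(cz x_i,n_i))`.  Work with
coefficient vectors in `𝔽_p^{10+r}`: `C = {c : ∑ c_i a_i = ∑ c_i b_i = 0, ∑ c_i x_i = 0 mod p}` is cut out by 10 linear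
equations, so has dimension `≥ r`.  Lift a basis (`r` elements) to integer vectors `c^(1), ..., c^(r)` and put
`w_l = ∑_i c^(l)_i n_i ∈ N`.  If `∑ d_l w_l` is in the radical of `N` mod `p`, then the vector
`∑_i (∑_l d_l c^(l)_i) u_i` is in the radical of `PL N` mod `p` (its `U ⊕ E₈` part is `p` times an integral vector, and
`U`, `E₈` have integral forms), so `p ∣ ∑_l d_l c^(l)_i` for all `i`, and `p ∣ d_l` by independence of the basis. -/
theorem rk_N {X : Type} [AddCommGroup X] [Module ℚ X] {BX : Frm X} {N : AddSubgroup X} {p r : ℕ}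
    (hp : p.Prime) (h : RkGe (PF BX) (PL N) p (10 + r)) : RkGe BX N p r := by
  have : Fact p.Prime := ⟨hp⟩
  obtain ⟨u, hu, hind⟩ := h
  -- coordinates
  have hex : ∀ i : Fin (10 + r), ∃ (a b : ℤ) (x : Fin 8 → ℤ), (u i).1 = ((a : ℚ), (b : ℚ)) ∧
      (u i).2.1 = cz x ∧ (u i).2.2 ∈ N := by
    intro i
    obtain ⟨⟨⟨a, ha⟩, ⟨b, hb⟩⟩, ⟨x, hx⟩, hn⟩ := hu i i.2
    exact ⟨a, b, x, Prod.ext ha hb, hx, hn⟩
  choose a b x hab hx hn using hex
  -- the linear map
  set v : Fin (10 + r) → (ZMod p × ZMod p) × (Fin 8 → ZMod p) :=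
    fun i => (((a i : ZMod p), (b i : ZMod p)), fun j => (x i j : ZMod p)) with hv
  set φ := Fintype.linearCombination (ZMod p) v with hφ
  have hker : r ≤ Module.finrank (ZMod p) (LinearMap.ker φ) := by
    have h1 := LinearMap.finrank_range_add_finrank_ker φ
    have h2 : Module.finrank (ZMod p) (LinearMap.range φ) ≤ 10 := by
      refine (Submodule.finrank_le _).trans ?_
      simp
    have h3 : Module.finrank (ZMod p) (Fin (10 + r) → ZMod p) = 10 + r := by simp
    omega
  obtain ⟨f, hf⟩ := exists_linearIndependent_of_le_finrank hker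
  -- integer lifts
  set c : Fin r → Fin (10 + r) → ℤ := fun l i => (((f l : Fin (10 + r) → ZMod p) i).val : ℤ) with hc
  have hcf : ∀ l i, ((c l i : ℤ) : ZMod p) = (f l : Fin (10 + r) → ZMod p) i := by
    intro l i
    simp [hc]
  set w : ℕ → X := fun l => if h : l < r then ∑ i : Fin (10 + r), (c ⟨l, h⟩ i : ℚ) • (u i).2.2
    else 0 with hw
  have hsm : ∀ (z : ℤ) (y : X), y ∈ N → (z : ℚ) • y ∈ N := by
    intro z y hy
    rw [Int.cast_smul_eq_zsmul]
    exact N.zsmul_mem hy z
  refine ⟨w, ?_, ?_⟩
  · intro l hl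
    simp only [hw, dif_pos hl]
    exact N.sum_mem fun i _ => hsm _ _ (hn i)
  · intro d hd
    -- the coefficients of the combination
    set E : Fin (10 + r) → ℤ := fun i => ∑ l : Fin r, d l * c l i with hE
    have hEmod : ∀ i, ((E i : ℤ) : ZMod p) =
        ∑ l : Fin r, (d l : ZMod p) * (f l : Fin (10 + r) → ZMod p) i := by
      intro i
      simp only [hE]
      push_cast
      exact Finset.sum_congr rfl fun l _ => by rw [hcf]
    -- divisibility of the coordinates
    have hdiv : ∀ (t : Fin (10 + r) → ℤ), (∀ l : Fin r,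
        ∑ i, (f l : Fin (10 + r) → ZMod p) i * (t i : ZMod p) = 0) → (p : ℤ) ∣ ∑ i, E i * t i := by
      intro t ht
      rw [← ZMod.intCast_zmod_eq_zero_iff_dvd]
      push_cast
      calc ∑ i, ((E i : ℤ) : ZMod p) * (t i : ZMod p)
          = ∑ i, ∑ l : Fin r, (d l : ZMod p) * ((f l : Fin (10 + r) → ZMod p) i * (t i : ZMod p)) := by
            refine Finset.sum_congr rfl fun i _ => ?_
            rw [hEmod, Finset.sum_mul]
            exact Finset.sum_congr rfl fun l _ => by ring
        _ = ∑ l : Fin r, (d l : ZMod p) * ∑ i, (f l : Fin (10 + r) → ZMod p) i * (t i : ZMod p) := by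
            rw [Finset.sum_comm]
            exact Finset.sum_congr rfl fun l _ => by rw [Finset.mul_sum]
        _ = 0 := by simp [ht]
    have hfk : ∀ l : Fin r, ∑ i, (f l : Fin (10 + r) → ZMod p) i • v i = 0 := by
      intro l
      have := LinearMap.mem_ker.1 (f l).2
      exact this
    have ha' : (p : ℤ) ∣ ∑ i, E i * a i := hdiv a fun l => by
      have := congrArg (fun t : (ZMod p × ZMod p) × (Fin 8 → ZMod p) => t.1.1) (hfk l)
      simpa [hv, Prod.fst_sum, Prod.snd_sum] using this
    have hb' : (p : ℤ) ∣ ∑ i, E i * b i := hdiv b fun l => by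
      have := congrArg (fun t : (ZMod p × ZMod p) × (Fin 8 → ZMod p) => t.1.2) (hfk l)
      simpa [hv, Prod.fst_sum, Prod.snd_sum] using this
    have hx' : ∀ j, (p : ℤ) ∣ ∑ i, E i * x i j := fun j => hdiv (fun i => x i j) fun l => by
      have := congrArg (fun t : (ZMod p × ZMod p) × (Fin 8 → ZMod p) => t.2 j) (hfk l)
      simpa [hv, Prod.fst_sum, Prod.snd_sum, Finset.sum_apply] using this
    obtain ⟨α, hα⟩ := ha'
    obtain ⟨β, hβ⟩ := hb'
    choose ξ hξ using hx'
    set e : ℕ → ℤ := fun i => if h : i < 10 + r then E ⟨i, h⟩ else 0 with he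
    have hsum : ∑ i ∈ Finset.range (10 + r), (e i : ℚ) • u i =
        (((p : ℚ) * α, (p : ℚ) * β), ((p : ℚ) • cz ξ, ∑ l ∈ Finset.range r, (d l : ℚ) • w l)) := by
      rw [Finset.sum_range]
      have h1 : ∀ i : Fin (10 + r), (e i : ℚ) • u i = (E i : ℚ) • u i := by
        intro i
        simp [he]
      rw [Finset.sum_congr rfl fun i _ => h1 i]
      refine Prod.ext (Prod.ext ?_ ?_) (Prod.ext ?_ ?_)
      · simp only [Prod.fst_sum, Prod.smul_fst, hab, smul_eq_mul]
        exact_mod_cast hα
      · simp only [Prod.fst_sum, Prod.snd_sum, Prod.smul_fst, Prod.smul_snd, hab, smul_eq_mul]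
        exact_mod_cast hβ
      · simp only [Prod.fst_sum, Prod.snd_sum, Prod.smul_fst, Prod.smul_snd, hx]
        funext j
        simp only [Finset.sum_apply, Pi.smul_apply, smul_eq_mul, cz]
        exact_mod_cast hξ j
      · simp only [Prod.snd_sum, Prod.smul_snd]
        rw [Finset.sum_range]
        have h2 : ∀ l : Fin r, (d l : ℚ) • w l =
            ∑ i : Fin (10 + r), ((d l : ℚ) * (c l i : ℚ)) • (u i).2.2 := by
          intro l
          simp only [hw, Fin.is_lt, dif_pos, Fin.eta, Finset.smul_sum, smul_smul]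
        rw [Finset.sum_congr rfl fun l _ => h2 l, Finset.sum_comm]
        refine Finset.sum_congr rfl fun i _ => ?_
        rw [← Finset.sum_smul]
        congr 1
        simp only [hE]
        push_cast
        rfl
    have hall := hind e (fun y hy => by
      rw [hsum, sF_apply, sF_apply, HF_apply]
      obtain ⟨⟨⟨y1, hy1⟩, ⟨y2, hy2⟩⟩, ⟨y3, hy3⟩, hy4⟩ := hy
      refine Dv.add ?_ (Dv.add ?_ (hd _ hy4))
      · refine ⟨α * y2 + β * y1, ?_⟩
        simp only
        rw [hy1, hy2]
        push_cast
        ring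
      · refine ⟨MP_dcc566_gt.bf CartanMatrix.E₈ ξ y3, ?_⟩
        simp only
        rw [hy3, show (fun i => ((y3 i : ℤ) : ℚ)) = cz y3 from rfl, map_smul, LinearMap.smul_apply,
          mF_cz, smul_eq_mul]
        push_cast
        rfl)
    -- conclusion
    have hE0 : ∀ i, ((E i : ℤ) : ZMod p) = 0 := by
      intro i
      have h1 := hall i i.2
      have h2 : e i = E i := by simp [he]
      rw [h2] at h1
      exact (ZMod.intCast_zmod_eq_zero_iff_dvd _ _).2 h1
    have hrel : ∑ l : Fin r, (d l : ZMod p) • f l = 0 := by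
      apply Subtype.ext
      funext i
      have h1 := hE0 i
      rw [hEmod] at h1
      simpa [Finset.sum_apply] using h1
    have hd0 := Fintype.linearIndependent_iff.1 hf (fun l => (d l : ZMod p)) hrel
    intro l hl
    exact (ZMod.intCast_zmod_eq_zero_iff_dvd _ _).1 (hd0 ⟨l, hl⟩)

end Pool.Agent.RFN
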