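import Mathlib
import Pool.Agent.Lib.MP_dcc566_gt_R.LSj
import Pool.Agent.Lib.MP_dcc566_gt_R.RkN

/-!
# The totally singular family at a prime
-/

set_option autoImplicit false

namespace Pool.Agent.RFN

open Module

variable {V : Type} [AddCommGroup V] [Module ℚ V] [FiniteDimensional ℚ V]

/-- PROOF.  `y² = (y,y) ∈ p ℤ ∩ 2 ℤ`.  `p` odd: `2p ∣ y²`, take `r = 0`.  `p = 2`: if `4 ∣ y²` take
`r = 0`, otherwise `s6` gives `r ∈ Rp B Λ 2`, `4 ∤ r²`;
`(y + r)² = y² + 2 (y,r) + r²` with `2 ∣ (r,y)`, and `y²`, `r²` are both `2 mod 4` (even numbers not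
divisible by 4). -/
theorem corr {B : Frm V} (hB : Nd B) {L Λ : AddSubgroup V} (hM : MinL B L) (hΛ : MaxE B Λ)
    (hle : L ≤ Λ) {p : ℕ} (hp : p.Prime) {y : V} (hy : y ∈ Rp B L p) :
    ∃ r ∈ Rp B Λ p, Dv (2 * p) (B (y + r) (y + r)) := by
  have hyL := (mem_Rp.1 hy).1
  obtain ⟨a, ha⟩ := (mem_Rp.1 hy).2 y hyL
  obtain ⟨b, hb⟩ := hM.even y hyL
  have hab : (p : ℤ) * a = 2 * b := by
    have h1 : (((p : ℤ) : ℚ)) * (a : ℚ) = ((2 : ℤ) : ℚ) * (b : ℚ) := by rw [← ha, ← hb]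
    exact_mod_cast h1
  have hzero : Dv (2 * p) (B y y) → ∃ r ∈ Rp B Λ p, Dv (2 * p) (B (y + r) (y + r)) := fun h =>
    ⟨0, (Rp B Λ p).zero_mem, by rw [add_zero]; exact h⟩
  rcases hp.eq_two_or_odd with h2 | h2
  · subst h2
    by_cases h4 : Dv 4 (B y y)
    · exact hzero (by simpa using h4)
    · obtain ⟨r, hr, hr4⟩ := s6 hB hM hΛ hle hy h4
      refine ⟨r, hr, ?_⟩
      obtain ⟨n, hn⟩ := hΛ.even r (mem_Rp.1 hr).1
      obtain ⟨m, hm⟩ := (mem_Rp.1 hr).2 y (hle hyL)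
      have ho1 : ¬ (2 : ℤ) ∣ b := by
        rintro ⟨t, rfl⟩
        exact h4 ⟨t, by rw [hb]; push_cast; ring⟩
      have ho2 : ¬ (2 : ℤ) ∣ n := by
        rintro ⟨t, rfl⟩
        exact hr4 ⟨t, by rw [hn]; push_cast; ring⟩
      obtain ⟨t, ht⟩ : (2 : ℤ) ∣ b + n := by omega
      refine ⟨t + m, ?_⟩
      have e1 : B (y + r) (y + r) = B y y + 2 * B r y + B r r := by
        simp only [map_add, LinearMap.add_apply]
        rw [hB.symm y r]
        ring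
      have e2 : (b : ℚ) + n = 2 * t := by exact_mod_cast ht
      rw [e1, hb, hn, hm]
      push_cast
      linear_combination 2 * e2
  · apply hzero
    have h3 : (2 : ℤ) ∣ a := by
      have h4 : (2 : ℤ) ∣ (p : ℤ) * a := ⟨b, hab⟩
      have h5 : (p : ℤ) % 2 = 1 := by exact_mod_cast h2
      have h6 : IsCoprime (2 : ℤ) (p : ℤ) := by
        rw [Int.isCoprime_iff_gcd_eq_one]
        have h7 : Nat.Coprime 2 p := (Nat.coprime_two_left).2 (Nat.odd_iff.2 h2)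
        exact_mod_cast h7
      exact h6.dvd_of_dvd_mul_left h4
    obtain ⟨t, rfl⟩ := h3
    refine ⟨t, ?_⟩
    rw [ha]
    push_cast
    ring

/-- PROOF.  Let `P j` be: there is `f` with `TS B Λ p j f` and all `f i ∈ Rp B L p ⊔ Rp B Λ p`.  `P
0` holds; `P j` implies `RkGe B Λ p j` (with the same family),
so `j ≤ finrank ℚ V` (`rk_le`).  Take `j` maximal with `P j` (`Nat.findGreatest` or `Nat.find` of
the first `j` with `¬ P (j+1)`), `f` its family.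
Let `y ∈ Rp B L p`, `r` from `corr`, `y' = y + r`.  Products: two elements of `Rp B L p` have
product divisible by `p` (the second is in `L`), `Rp B Λ p`
has products with everything in `Λ` divisible by `p`; so any two elements of `Rp B L p ⊔ Rp B Λ p`
have product divisible by `p`.  So the family
`f 0, ..., f (j-1), y'` (`Function.update f j y'` or `fun i => if i < j then f i else y'`) satisfies
`mem, pair, norm`; as `P (j+1)` is false, `ind` fails: there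
are integers `c i`, `a` with `∑ c i f i + a y' ∈ Rp B Λ p`, not all divisible by `p`.  If `p ∣ a`:
`a y' ∈ Rp B Λ p`, so `∑ c i f i ∈ Rp B Λ p` and all
`p ∣ c i`: contradiction.  So `p ∤ a`; `a a' = 1 + p m`; multiply by `a'`: `y' + ∑ a' c i f i ∈ Rp B
Λ p` (as `p m y' ∈ Rp B Λ p`), and `y' - y = r ∈ Rp B Λ p`. -/
theorem fam_at {B : Frm V} (hB : Nd B) {L Λ : AddSubgroup V} (hM : MinL B L) (hΛ : MaxE B Λ)
    (hle : L ≤ Λ) {p : ℕ} (hp : p.Prime) : ∃ (j : ℕ) (f : ℕ → V), TS B Λ p j f ∧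
      (∀ i < j, f i ∈ Rp B L p ⊔ Rp B Λ p) ∧
      ∀ y ∈ Rp B L p, ∃ c : ℕ → ℤ, y - ∑ i ∈ Finset.range j, (c i : ℚ) • f i ∈ Rp B Λ p := by
  classical
  have hs := hB.symm
  -- products
  have hRL : ∀ u ∈ Rp B L p ⊔ Rp B Λ p, u ∈ Λ := by
    intro u hu
    obtain ⟨a, ha, b, hb, rfl⟩ := AddSubgroup.mem_sup.1 hu
    exact Λ.add_mem (hle (mem_Rp.1 ha).1) (mem_Rp.1 hb).1
  have hprod : ∀ u ∈ Rp B L p ⊔ Rp B Λ p, ∀ w ∈ Rp B L p ⊔ Rp B Λ p, Dv p (B u w) := by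
    intro u hu w hw
    obtain ⟨a, ha, b, hb, rfl⟩ := AddSubgroup.mem_sup.1 hu
    obtain ⟨c, hc, d, hd, rfl⟩ := AddSubgroup.mem_sup.1 hw
    have h1 : B (a + b) (c + d) = (B a c + B d a) + (B b (c + d)) := by
      simp only [map_add, LinearMap.add_apply]
      rw [hs a d]
      ring
    rw [h1]
    refine Dv.add (Dv.add ?_ ?_) ?_
    · exact (mem_Rp.1 ha).2 c (mem_Rp.1 hc).1
    · exact (mem_Rp.1 hd).2 a (hle (mem_Rp.1 ha).1)
    · exact (mem_Rp.1 hb).2 _ (hRL _ hw)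
  -- the maximal family
  have hstop : ∃ j : ℕ, ¬ ∃ f : ℕ → V, TS B Λ p (j + 1) f ∧
      ∀ i < j + 1, f i ∈ Rp B L p ⊔ Rp B Λ p := by
    refine ⟨finrank ℚ V, ?_⟩
    rintro ⟨f, hf, _⟩
    have h1 := rk_le hp (⟨f, hf.mem, hf.ind⟩ : RkGe B Λ p (finrank ℚ V + 1))
    omega
  set j := Nat.find hstop with hj
  have hj1 : ¬ ∃ f : ℕ → V, TS B Λ p (j + 1) f ∧
      ∀ i < j + 1, f i ∈ Rp B L p ⊔ Rp B Λ p := Nat.find_spec hstop
  have hj0 : ∃ f : ℕ → V, TS B Λ p j f ∧ ∀ i < j, f i ∈ Rp B L p ⊔ Rp B Λ p := by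
    rcases Nat.eq_zero_or_pos j with h0 | h0
    · rw [h0]
      exact ⟨fun _ => 0, ⟨fun i hi => absurd hi (Nat.not_lt_zero i),
        fun i hi => absurd hi (Nat.not_lt_zero i), fun i hi => absurd hi (Nat.not_lt_zero i),
        fun _ _ i hi => absurd hi (Nat.not_lt_zero i)⟩,
        fun i hi => absurd hi (Nat.not_lt_zero i)⟩
    · have h1 : j - 1 < Nat.find hstop := by omega
      have h2 := Nat.find_min hstop h1
      rw [not_not, Nat.sub_add_cancel h0] at h2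
      exact h2
  obtain ⟨f, hf, hfm⟩ := hj0
  refine ⟨j, f, hf, hfm, fun y hy => ?_⟩
  obtain ⟨r, hr, hyr⟩ := corr hB hM hΛ hle hp hy
  have hy' : y + r ∈ Rp B L p ⊔ Rp B Λ p :=
    AddSubgroup.mem_sup.2 ⟨y, hy, r, hr, rfl⟩
  set g : ℕ → V := fun i => if i < j then f i else y + r with hg
  have hgf : ∀ i < j, g i = f i := fun i hi => by simp [hg, hi]
  have hgj : g j = y + r := by simp [hg]
  have hgm : ∀ i, i < j + 1 → g i ∈ Rp B L p ⊔ Rp B Λ p := by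
    intro i hi
    rcases Nat.lt_succ_iff_lt_or_eq.1 hi with h1 | h1
    · rw [hgf i h1]
      exact hfm i h1
    · rw [h1, hgj]
      exact hy'
  have hnot : ¬ ∀ c : ℕ → ℤ, (∀ x ∈ Λ, Dv p (B (∑ i ∈ Finset.range (j + 1), (c i : ℚ) • g i) x)) →
      ∀ i < j + 1, (p : ℤ) ∣ c i := by
    intro hind
    refine hj1 ⟨g, ⟨fun i hi => hRL _ (hgm i hi), fun i hi k hk =>
      hprod _ (hgm i hi) _ (hgm k hk), fun i hi => ?_, hind⟩, hgm⟩
    rcases Nat.lt_succ_iff_lt_or_eq.1 hi with h1 | h1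
    · rw [hgf i h1]
      exact hf.norm i h1
    · rw [h1, hgj]
      exact hyr
  push Not at hnot
  obtain ⟨c, hc, i0, hi0, hnd⟩ := hnot
  have hsum : ∑ i ∈ Finset.range (j + 1), (c i : ℚ) • g i =
      ∑ i ∈ Finset.range j, (c i : ℚ) • f i + (c j : ℚ) • (y + r) := by
    rw [Finset.sum_range_succ, hgj]
    congr 1
    exact Finset.sum_congr rfl fun i hi => by rw [hgf i (Finset.mem_range.1 hi)]
  rw [hsum] at hc
  have hcj : ¬ (p : ℤ) ∣ c j := by
    rintro ⟨m, hm⟩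
    have h1 : ∀ x ∈ Λ, Dv p (B (∑ i ∈ Finset.range j, (c i : ℚ) • f i) x) := by
      intro x hx
      have h2 := hc x hx
      obtain ⟨n, hn⟩ := EvL.isZ hs hΛ.even (hRL _ hy') hx
      have h3 : B (∑ i ∈ Finset.range j, (c i : ℚ) • f i) x =
          B (∑ i ∈ Finset.range j, (c i : ℚ) • f i + (c j : ℚ) • (y + r)) x -
            (c j : ℚ) * B (y + r) x := by
        rw [map_add, LinearMap.add_apply, map_smul, LinearMap.smul_apply, smul_eq_mul]
        ring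
      rw [h3]
      refine h2.sub ⟨m * n, ?_⟩
      rw [hn, hm]
      push_cast
      ring
    rcases Nat.lt_succ_iff_lt_or_eq.1 hi0 with h2 | h2
    · exact hnd (hf.ind c h1 i0 h2)
    · rw [h2] at hnd
      exact hnd ⟨m, hm⟩
  -- an inverse modulo `p`
  obtain ⟨a', m, ham⟩ : ∃ a' m : ℤ, c j * a' = 1 + p * m := by
    have h1 : IsCoprime (p : ℤ) (c j) :=
      ((Nat.prime_iff_prime_int.1 hp).coprime_iff_not_dvd).2 hcj
    obtain ⟨u, w, huw⟩ := h1
    exact ⟨w, -u, by linear_combination huw⟩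
  set s : V := ∑ i ∈ Finset.range j, (c i : ℚ) • f i + (c j : ℚ) • (y + r) with hsdef
  have hsR : s ∈ Rp B Λ p := by
    refine mem_Rp.2 ⟨Λ.add_mem (sum_mem_L (fun i hi => hf.mem i hi) c)
      (zs_mem (hRL _ hy') _), hc⟩
  have hpy : ((p : ℤ) : ℚ) • (y + r) ∈ Rp B Λ p := by
    refine mem_Rp.2 ⟨zs_mem (hRL _ hy') _, fun x hx => ?_⟩
    obtain ⟨n, hn⟩ := EvL.isZ hs hΛ.even (hRL _ hy') hx
    exact ⟨n, by rw [map_smul, LinearMap.smul_apply, smul_eq_mul, hn]⟩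
  refine ⟨fun i => -(a' * c i), ?_⟩
  have h1 : y - ∑ i ∈ Finset.range j, ((-(a' * c i) : ℤ) : ℚ) • f i =
      (a' : ℚ) • s - (m : ℚ) • (((p : ℤ) : ℚ) • (y + r)) - r := by
    have h2 : ∑ i ∈ Finset.range j, ((-(a' * c i) : ℤ) : ℚ) • f i =
        -((a' : ℚ) • ∑ i ∈ Finset.range j, (c i : ℚ) • f i) := by
      rw [Finset.smul_sum, ← Finset.sum_neg_distrib]
      refine Finset.sum_congr rfl fun i _ => ?_
      rw [smul_smul, ← neg_smul]
      push_cast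
      rfl
    rw [h2, hsdef, smul_add, smul_smul, smul_smul]
    have h3 : (a' : ℚ) * (c j : ℚ) = 1 + (m : ℚ) * ((p : ℤ) : ℚ) := by
      have h4 : ((c j * a' : ℤ) : ℚ) = ((1 + p * m : ℤ) : ℚ) := by rw [ham]
      push_cast at h4 ⊢
      linear_combination h4
    rw [h3, add_smul, one_smul]
    abel
  rw [h1]
  exact (Rp B Λ p).sub_mem ((Rp B Λ p).sub_mem (zs_mem hsR _) (zs_mem hpy _)) hr

end Pool.Agent.RFN
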