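import Mathlib
import Pool.Agent.Lib.MP_dcc566_gt_R.LSb
import Pool.Agent.Lib.MP_dcc566_gt_R.LSc

/-!
# A minimal lattice is cut out by its radicals
-/

set_option autoImplicit false

namespace Pool.Agent.RFN

open Module

variable {V : Type} [AddCommGroup V] [Module ℚ V] [FiniteDimensional ℚ V]

/-- The step for one prime: `p x ∈ L` implies `x ∈ L`.

PROOF.  `x ∈ Du B L` (`Λ` integral, `L ≤ Λ`).  `p` odd: by `du_du` show `(x,z) ∈ ℤ` for all `z ∈ Du B L`.  `odd_part` (`hM.full`): `n, k`, `p ∤ n`, `p^k (n z) ∈ L`;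
`s1_odd`: `y = p (n z) ∈ L`; `(y,l) = p (n z,l)`, so `y ∈ Rp B L p`, and `h` gives `p ∣ (y,x) = p (n z,x)`, so `n (z,x) ∈ ℤ`; `p (z,x) = (z,p x) ∈ ℤ`;
`n`, `p` coprime, so `(z,x) ∈ ℤ`.  `p = 2`: for `z ∈ Lk B L 2`: `2z ∈ Rp B L 2`, so `2 ∣ (2z,x)`, `(x,z) ∈ ℤ`.  `dual_sum`: `x = l + 2h`, `h ∈ Du B L`,
`4h = 2x - 2l ∈ L`, `(2h)² = (x-l)²` is even because `x - l ∈ Λ`; `s2`: `2h ∈ L`. -/
theorem s7_step {B : Frm V} (hB : Nd B) {L Λ : AddSubgroup V} (hM : MinL B L) (hE : EvL B Λ)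
    (hle : L ≤ Λ) {p : ℕ} (hp : p.Prime) {x : V} (hx : x ∈ Λ) (hpx : (p : ℚ) • x ∈ L)
    (h : ∀ y ∈ Rp B L p, Dv p (B y x)) : x ∈ L := by
  have hp0 : (p : ℚ) ≠ 0 := by exact_mod_cast hp.ne_zero
  rcases eq_or_ne p 2 with rfl | hp2
  · have h1 : ∀ z ∈ Lk B L 2, IsZ (B x z) := by
      intro z hz
      have h2 : ((2 : ℕ) : ℚ) • z ∈ Rp B L 2 := by
        refine ⟨hz.2, fun y hy => ?_⟩
        obtain ⟨m, hm⟩ := hz.1 y hy
        refine ⟨m, ?_⟩
        rw [map_smul, LinearMap.smul_apply, hm, smul_eq_mul]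
        norm_num
      obtain ⟨m, hm⟩ := h _ h2
      refine ⟨m, ?_⟩
      rw [map_smul, LinearMap.smul_apply, smul_eq_mul] at hm
      rw [hB.symm]
      have h3 : ((2 : ℕ) : ℚ) * B z x = ((2 : ℕ) : ℚ) * m := by
        rw [hm]
        norm_num
      exact mul_left_cancel₀ hp0 h3
    obtain ⟨l, hl, w, hw, rfl⟩ := dual_sum hB hM.even hM.full h1
    have h2 : (2 : ℚ) • w ∈ Λ := by
      have h3 := Λ.sub_mem hx (hle hl)
      rwa [add_sub_cancel_left] at h3
    have h4 : (4 : ℚ) • w ∈ L := by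
      have h5 := L.sub_mem hpx (zn_mem hl 2)
      have h6 : ((2 : ℕ) : ℚ) • (l + (2 : ℚ) • w) - ((2 : ℕ) : ℚ) • l = (4 : ℚ) • w := by
        rw [smul_add, add_sub_cancel_left, smul_smul]
        norm_num
      rwa [h6] at h5
    exact L.add_mem hl (s2 hB hM hw h4 (hE _ h2))
  · rw [← du_du hB hM.even hM.full]
    intro z hz
    obtain ⟨n, k, hn, hk⟩ := odd_part hM.full hp z
    have h1 : (n : ℚ) • z ∈ Du B L := zn_mem hz n
    have h2 := s1_odd hB hM hp hp2 h1 hk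
    have h3 : (p : ℚ) • ((n : ℚ) • z) ∈ Rp B L p := by
      refine ⟨h2, fun y hy => ?_⟩
      obtain ⟨m, hm⟩ := h1 y hy
      refine ⟨m, ?_⟩
      rw [map_smul, LinearMap.smul_apply, hm, smul_eq_mul]
      norm_num
    obtain ⟨m, hm⟩ := h _ h3
    rw [map_smul, map_smul, LinearMap.smul_apply, LinearMap.smul_apply, smul_eq_mul,
      smul_eq_mul] at hm
    have h4 : (n : ℚ) * B z x = m := by
      refine mul_left_cancel₀ hp0 ?_
      rw [hm]
      norm_num
    obtain ⟨q, hq⟩ := hz _ hpx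
    rw [map_smul, smul_eq_mul] at hq
    have hco : IsCoprime (n : ℤ) (p : ℤ) := by
      rw [Nat.isCoprime_iff_coprime]
      exact ((hp.coprime_iff_not_dvd).2 hn).symm
    obtain ⟨a, b, hab⟩ := hco
    have hab' : (a : ℚ) * n + b * p = 1 := by exact_mod_cast hab
    refine ⟨a * m + b * q, ?_⟩
    rw [hB.symm]
    push_cast
    rw [← h4, ← hq]
    linear_combination (-(B z x)) * hab'

/-- PROOF.  `hM.full`: `N > 0` with `N x ∈ L`; induction on `N` (for all `x` with the property): `N = 1`: clear.  `N > 1`: `p` a prime factor,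
`N = p N'`; `x' = N' x` has `p x' ∈ L` and the property `h` for `p`, so `x' ∈ L` (`s7_step`), and the induction hypothesis for `N'` applies. -/
theorem s7 {B : Frm V} (hB : Nd B) {L Λ : AddSubgroup V} (hM : MinL B L) (hE : EvL B Λ)
    (hle : L ≤ Λ) {x : V} (hx : x ∈ Λ)
    (h : ∀ p : ℕ, p.Prime → ∀ y ∈ Rp B L p, Dv p (B y x)) : x ∈ L := by
  obtain ⟨N, hN, hNx⟩ := hM.full x
  induction N using Nat.strong_induction_on generalizing x with
  | _ N ih =>
    rcases eq_or_ne N 1 with rfl | hN1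
    · simpa using hNx
    · obtain ⟨p, hp, M, rfl⟩ := Nat.exists_prime_and_dvd hN1
      have hM0 : 0 < M := Nat.pos_of_mul_pos_left hN
      have h1 : (M : ℚ) • x ∈ L := by
        refine s7_step hB hM hE hle hp (zn_mem hx M) ?_ fun y hy => ?_
        · rw [smul_smul]
          rwa [Nat.cast_mul] at hNx
        · obtain ⟨m, hm⟩ := h p hp y hy
          refine ⟨M * m, ?_⟩
          rw [map_smul, smul_eq_mul, hm]
          push_cast
          ring
      exact ih M ((Nat.lt_mul_iff_one_lt_left hM0).2 hp.one_lt) hx h hM0 h1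

end Pool.Agent.RFN
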