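import Mathlib
import Pool.Agent.Lib.MP_dcc566_gt_R.LTa

/-!
# Dual vectors modulo `p`
-/

set_option autoImplicit false

namespace Pool.Agent.RFN

variable {V : Type} [AddCommGroup V] [Module ℚ V]

/-- DUAL VECTORS.  For vectors `z 0, ..., z (k-1)` of `Λ` independent modulo `p` and the radical, the pairings
with a vector of `Λ` can be prescribed modulo `p`.

PROOF.  For `x ∈ Λ` and `i < k` the number `B (z i) x` is an integer (`EvL.isZ hs hE`); call it `n i x`
(e.g. `n i x = (B (z i) x).num`, or `Int.floor`, or by `choose`).  It is additive in `x ∈ Λ`.  Let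
`W : Submodule (ZMod p) (Fin k → ZMod p)` be the set of all `(fun i => (n i x : ZMod p))`, `x ∈ Λ`; it is a subgroup of
`Fin k → ZMod p`, hence a subspace (`AddSubgroup.toZModSubmodule p`, or: for `a : ZMod p`,
`a • v = (a.val) • v`).  If `W ≠ ⊤` there is a linear form `φ ≠ 0` on `Fin k → ZMod p` vanishing on `W`
(`Submodule.exists_le_ker_of_lt_top` or `Submodule.exists_dual_map_eq_bot_of_lt_top`), `φ v = ∑ i, γ i * v i`
with `γ i = φ (Pi.single i 1)`.  Take integers `c i` with `(c i : ZMod p) = γ i` for `i < k`.  Then for all `x ∈ Λ`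
`B (∑ c i • z i) x = ∑ c i * n i x` is an integer whose class in `ZMod p` is `φ (n x) = 0`, so it is divisible by `p`
(`ZMod.intCast_zmod_eq_zero_iff_dvd`), so by `hz.2` all `c i` are divisible by `p`, so `γ = 0`, `φ = 0`: contradiction.
So `W = ⊤` and the class of `(a i)` is the class of `(n i t)` for some `t ∈ Λ`: `p ∣ n i t - a i`. -/
theorem exists_dual {B : Frm V} (hs : ∀ x y, B x y = B y x) {Λ : AddSubgroup V} (hE : EvL B Λ)
    {p : ℕ} (hp : p.Prime) {k : ℕ} {z : ℕ → V} (hz : Ind B Λ p k z) (a : ℕ → ℤ) :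
    ∃ t ∈ Λ, ∀ i < k, Dv p (B (z i) t - a i) := by
  have : Fact p.Prime := ⟨hp⟩
  have hn : ∀ (i : Fin k) (x : Λ), ∃ m : ℤ, B (z i) (x : V) = m := fun i x =>
    EvL.isZ hs hE (hz.1 i i.2) x.2
  choose n hn using hn
  have hadd : ∀ (i : Fin k) (x y : Λ), n i (x + y) = n i x + n i y := by
    intro i x y
    have h1 := hn i (x + y)
    rw [AddSubgroup.coe_add, map_add, hn, hn] at h1
    exact_mod_cast h1.symm
  have hzero : ∀ i : Fin k, n i 0 = 0 := by
    intro i
    have h1 := hadd i 0 0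
    rw [add_zero] at h1
    linarith
  have hneg : ∀ (i : Fin k) (x : Λ), n i (-x) = -n i x := by
    intro i x
    have h1 := hadd i x (-x)
    rw [add_neg_cancel, hzero] at h1
    linarith
  let W0 : AddSubgroup (Fin k → ZMod p) :=
    { carrier := {v | ∃ x : Λ, ∀ i, v i = (n i x : ZMod p)}
      add_mem' := by
        rintro v w ⟨x, hx⟩ ⟨y, hy⟩
        exact ⟨x + y, fun i => by rw [Pi.add_apply, hx, hy, hadd, Int.cast_add]⟩
      zero_mem' := ⟨0, fun i => by rw [Pi.zero_apply, hzero, Int.cast_zero]⟩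
      neg_mem' := by
        rintro v ⟨x, hx⟩
        exact ⟨-x, fun i => by rw [Pi.neg_apply, hx, hneg, Int.cast_neg]⟩ }
  have hW : AddSubgroup.toZModSubmodule p W0 = ⊤ := by
    by_contra hW
    obtain ⟨φ, hφ0, hφ⟩ := Submodule.exists_le_ker_of_lt_top _ (lt_top_iff_ne_top.2 hW)
    have hφx : ∀ x : Λ, ∑ i : Fin k, (n i x : ZMod p) * φ (Pi.single i 1) = 0 := by
      intro x
      have h1 : (fun i => (n i x : ZMod p)) ∈ AddSubgroup.toZModSubmodule p W0 :=
        ⟨x, fun i => rfl⟩
      have h2 := LinearMap.mem_ker.1 (hφ h1)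
      rw [LinearMap.pi_apply_eq_sum_univ φ] at h2
      rw [← h2]
      refine Finset.sum_congr rfl fun i _ => ?_
      rw [smul_eq_mul]
      congr 2
      funext j
      rw [Pi.single_apply]
      simp only [eq_comm]
    let c : ℕ → ℤ := fun i => if h : i < k then ((φ (Pi.single ⟨i, h⟩ 1)).val : ℤ) else 0
    have hc : ∀ i : Fin k, ((c i : ℤ) : ZMod p) = φ (Pi.single i 1) := by
      intro i
      have h1 : c i = ((φ (Pi.single i 1)).val : ℤ) := dif_pos i.2
      rw [h1, Int.cast_natCast, ZMod.natCast_zmod_val]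
    have hdiv := hz.2 c (by
      intro x hx
      have h1 : B (∑ i ∈ Finset.range k, (c i : ℚ) • z i) x =
          ((∑ i : Fin k, c i * n i ⟨x, hx⟩ : ℤ) : ℚ) := by
        rw [Finset.sum_range, map_sum, LinearMap.sum_apply]
        push_cast
        refine Finset.sum_congr rfl fun i _ => ?_
        rw [map_smul, LinearMap.smul_apply, smul_eq_mul, ← hn]
      rw [h1]
      refine Dv_int.2 ?_
      rw [← ZMod.intCast_zmod_eq_zero_iff_dvd]
      push_cast
      rw [← hφx ⟨x, hx⟩]
      refine Finset.sum_congr rfl fun i _ => ?_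
      rw [hc, mul_comm])
    apply hφ0
    refine LinearMap.pi_ext' fun i => LinearMap.ext_ring ?_
    have h1 := hdiv i i.2
    rw [← ZMod.intCast_zmod_eq_zero_iff_dvd, hc] at h1
    exact h1
  have hmem : (fun i : Fin k => (a i : ZMod p)) ∈ AddSubgroup.toZModSubmodule p W0 := by
    rw [hW]
    exact Submodule.mem_top
  obtain ⟨t, ht⟩ := hmem
  refine ⟨t, t.2, fun i hi => ?_⟩
  have h1 := ht ⟨i, hi⟩
  have h2 := hn ⟨i, hi⟩ t
  change B (z i) (t : V) = _ at h2
  rw [h2, ← Int.cast_sub]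
  refine Dv_int.2 ?_
  rw [← ZMod.intCast_zmod_eq_zero_iff_dvd, Int.cast_sub, ← h1]
  exact sub_self _

end Pool.Agent.RFN
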