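import Mathlib
import Pool.Agent.Lib.MP_dcc566_gt_R.LKb

/-!
# The rank of the overlattice
-/

set_option autoImplicit false

namespace Pool.Agent.RFN

variable {V : Type} [AddCommGroup V] [Module ℚ V]

private theorem LSm_dvsum {k : ℤ} {s : Finset ℕ} {g : ℕ → ℚ} (h : ∀ i ∈ s, Dv k (g i)) :
    Dv k (∑ i ∈ s, g i) :=
  Finset.sum_induction g (Dv k) (fun _ _ => Dv.add) (Dv.zero k) h

private theorem LSm_exp (B : Frm V) (s : Finset ℕ) (c : ℕ → ℤ) (v : ℕ → V) (x : V) :
    B (∑ i ∈ s, (c i : ℚ) • v i) x = ∑ i ∈ s, (c i : ℚ) * B (v i) x := by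
  rw [map_sum, LinearMap.sum_apply]
  refine Finset.sum_congr rfl fun i _ => ?_
  rw [map_smul, LinearMap.smul_apply, smul_eq_mul]

private theorem LSm_mul {p : ℤ} {c : ℤ} (h : p ∣ c) {a : ℚ} (ha : IsZ a) : Dv p ((c : ℚ) * a) := by
  obtain ⟨m, rfl⟩ := h
  obtain ⟨n, rfl⟩ := ha
  exact ⟨m * n, by push_cast; ring⟩

/-- PROOF.  Let `u` be the family of `hr`.  `exists_dual` (`LKb.lean`) with `z = f` and `a = Pi.single i 1`: `h i ∈ Λ` with `(f k, h i) ≡ δ_{ik} mod p` for
`i, k < j`.  The family `w`: `w i = u i` for `i < r`, `w (r+i) = f i`, `w (r+j+i) = h i` (`i < j`).  Let `∑ a_i u_i + ∑ b_i f_i + ∑ c_i h_i` have all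
products with `Λ` divisible by `p`.  Product with `f k ∈ Λ`: `p ∣ (u_i,f_k)` (`hL`, `u_i ∈ L`), `p ∣ (f_i,f_k)`, so `p ∣ c_k`.  Product with `l ∈ L ≤ Λ`:
`p ∣ b_i (f_i,l)`, `p ∣ c_i (h_i,l)` (`EvL.isZ`), so `∑ a_i u_i` has all products with `L` divisible by `p`: `p ∣ a_i`.  Then `∑ b_i f_i` has all products
with `Λ` divisible by `p` (the other terms have): `p ∣ b_i` by `hf.ind`.  (Split `Finset.range (r + 2*j)` with `Finset.sum_range_add` or
`Finset.range_add`.) -/
theorem rk_sum {B : Frm V} (hs : ∀ x y, B x y = B y x) {L Λ : AddSubgroup V} (hE : EvL B Λ)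
    (hle : L ≤ Λ) {p : ℕ} (hp : p.Prime) {r j : ℕ} {f : ℕ → V} (hr : RkGe B L p r)
    (hf : TS B Λ p j f) (hL : ∀ i < j, ∀ l ∈ L, Dv p (B (f i) l)) :
    RkGe B Λ p (r + 2 * j) := by
  obtain ⟨u, hu, hui⟩ := hr
  have hd : ∀ i : ℕ, ∃ t ∈ Λ, ∀ k < j, Dv p (B (f k) t - ((Pi.single i 1 : ℕ → ℤ) k : ℤ)) :=
    fun i => exists_dual hs hE hp ⟨hf.mem, hf.ind⟩ (Pi.single i 1)
  choose h hh hhd using hd
  obtain ⟨w, hw⟩ : ∃ w : ℕ → V, w = fun i => if i < r then u i else
    if i < r + j then f (i - r) else h (i - (r + j)) := ⟨_, rfl⟩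
  have hw1 : ∀ i < r, w i = u i := by
    intro i hi
    rw [hw]
    exact if_pos hi
  have hw2 : ∀ i < j, w (r + i) = f i := by
    intro i hi
    rw [hw]
    simp only
    rw [if_neg (by omega), if_pos (by omega), Nat.add_sub_cancel_left]
  have hw3 : ∀ i < j, w (r + j + i) = h i := by
    intro i hi
    rw [hw]
    simp only
    rw [if_neg (by omega), if_neg (by omega), Nat.add_sub_cancel_left]
  refine ⟨w, ?_, ?_⟩
  · intro i hi
    rcases lt_or_ge i r with h1 | h1
    · rw [hw1 i h1]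
      exact hle (hu i h1)
    · rcases lt_or_ge i (r + j) with h2 | h2
      · obtain ⟨a, rfl⟩ := Nat.exists_eq_add_of_le h1
        rw [hw2 a (by omega)]
        exact hf.mem a (by omega)
      · obtain ⟨a, rfl⟩ := Nat.exists_eq_add_of_le h2
        rw [hw3 a (by omega)]
        exact hh a
  · intro c hc
    have e : r + 2 * j = r + j + j := by omega
    have hsum : ∑ i ∈ Finset.range (r + 2 * j), (c i : ℚ) • w i =
        ∑ i ∈ Finset.range r, (c i : ℚ) • u i +
          ∑ i ∈ Finset.range j, (c (r + i) : ℚ) • f i +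
            ∑ i ∈ Finset.range j, (c (r + j + i) : ℚ) • h i := by
      rw [e, Finset.sum_range_add, Finset.sum_range_add]
      congr 1
      · congr 1
        · refine Finset.sum_congr rfl fun i hi => ?_
          rw [hw1 i (Finset.mem_range.1 hi)]
        · refine Finset.sum_congr rfl fun i hi => ?_
          rw [hw2 i (Finset.mem_range.1 hi)]
      · refine Finset.sum_congr rfl fun i hi => ?_
        rw [hw3 i (Finset.mem_range.1 hi)]
    have hc' : ∀ x ∈ Λ, Dv p (∑ i ∈ Finset.range r, (c i : ℚ) * B (u i) x +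
        ∑ i ∈ Finset.range j, (c (r + i) : ℚ) * B (f i) x +
          ∑ i ∈ Finset.range j, (c (r + j + i) : ℚ) * B (h i) x) := by
      intro x hx
      have h1 := hc x hx
      rw [hsum, map_add, map_add, LinearMap.add_apply, LinearMap.add_apply, LSm_exp B _ c,
        LSm_exp B _ (fun i => c (r + i)), LSm_exp B _ (fun i => c (r + j + i))] at h1
      exact h1
    -- the third block
    have h3 : ∀ k < j, (p : ℤ) ∣ c (r + j + k) := by
      intro k hk
      have h1 := hc' (f k) (hf.mem k hk)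
      have hA : Dv p (∑ i ∈ Finset.range r, (c i : ℚ) * B (u i) (f k)) := by
        refine LSm_dvsum fun i hi => ?_
        rw [hs (u i) (f k)]
        exact (hL k hk _ (hu i (Finset.mem_range.1 hi))).mul_int _
      have hF : Dv p (∑ i ∈ Finset.range j, (c (r + i) : ℚ) * B (f i) (f k)) :=
        LSm_dvsum fun i hi => (hf.pair i (Finset.mem_range.1 hi) k hk).mul_int _
      have hH : Dv p (∑ i ∈ Finset.range j, (c (r + j + i) : ℚ) *
          (B (h i) (f k) - ((Pi.single i 1 : ℕ → ℤ) k : ℤ))) := by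
        refine LSm_dvsum fun i _ => ?_
        rw [hs (h i) (f k)]
        exact (hhd i k hk).mul_int _
      have hE' : ∑ i ∈ Finset.range j, (c (r + j + i) : ℚ) *
          (B (h i) (f k) - ((Pi.single i 1 : ℕ → ℤ) k : ℤ)) =
          ∑ i ∈ Finset.range j, (c (r + j + i) : ℚ) * B (h i) (f k) - (c (r + j + k) : ℚ) := by
        have h5 : ∑ i ∈ Finset.range j, (c (r + j + i) : ℚ) *
            (((Pi.single i 1 : ℕ → ℤ) k : ℤ) : ℚ) = (c (r + j + k) : ℚ) := by
          rw [Finset.sum_eq_single k]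
          · rw [Pi.single_eq_same, Int.cast_one, mul_one]
          · intro i _ hik
            rw [Pi.single_eq_of_ne (Ne.symm hik), Int.cast_zero, mul_zero]
          · intro hk'
            exact absurd (Finset.mem_range.2 hk) hk'
        rw [← h5, ← Finset.sum_sub_distrib]
        refine Finset.sum_congr rfl fun i _ => ?_
        rw [mul_sub]
      rw [hE'] at hH
      have h6 := ((h1.sub hA).sub hF).sub hH
      have h7 : ∑ i ∈ Finset.range r, (c i : ℚ) * B (u i) (f k) +
          ∑ i ∈ Finset.range j, (c (r + i) : ℚ) * B (f i) (f k) +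
            ∑ i ∈ Finset.range j, (c (r + j + i) : ℚ) * B (h i) (f k) -
          ∑ i ∈ Finset.range r, (c i : ℚ) * B (u i) (f k) -
          ∑ i ∈ Finset.range j, (c (r + i) : ℚ) * B (f i) (f k) -
          (∑ i ∈ Finset.range j, (c (r + j + i) : ℚ) * B (h i) (f k) - (c (r + j + k) : ℚ)) =
          (c (r + j + k) : ℚ) := by ring
      rw [h7] at h6
      exact Dv_int.1 h6
    have hHx : ∀ x ∈ Λ, Dv p (∑ i ∈ Finset.range j, (c (r + j + i) : ℚ) * B (h i) x) :=
      fun x hx => LSm_dvsum fun i hi => LSm_mul (h3 i (Finset.mem_range.1 hi))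
        (EvL.isZ hs hE (hh i) hx)
    -- the first block
    have h1 : ∀ k < r, (p : ℤ) ∣ c k := by
      refine hui c fun l hl => ?_
      rw [LSm_exp]
      have hF : Dv p (∑ i ∈ Finset.range j, (c (r + i) : ℚ) * B (f i) l) :=
        LSm_dvsum fun i hi => (hL i (Finset.mem_range.1 hi) l hl).mul_int _
      have h6 := ((hc' l (hle hl)).sub hF).sub (hHx l (hle hl))
      have h7 : ∑ i ∈ Finset.range r, (c i : ℚ) * B (u i) l +
          ∑ i ∈ Finset.range j, (c (r + i) : ℚ) * B (f i) l +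
            ∑ i ∈ Finset.range j, (c (r + j + i) : ℚ) * B (h i) l -
          ∑ i ∈ Finset.range j, (c (r + i) : ℚ) * B (f i) l -
          ∑ i ∈ Finset.range j, (c (r + j + i) : ℚ) * B (h i) l =
          ∑ i ∈ Finset.range r, (c i : ℚ) * B (u i) l := by ring
      rw [h7] at h6
      exact h6
    -- the second block
    have h2 : ∀ k < j, (p : ℤ) ∣ c (r + k) := by
      refine hf.ind (fun i => c (r + i)) fun x hx => ?_
      rw [LSm_exp]
      have hA : Dv p (∑ i ∈ Finset.range r, (c i : ℚ) * B (u i) x) :=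
        LSm_dvsum fun i hi => LSm_mul (h1 i (Finset.mem_range.1 hi))
          (EvL.isZ hs hE (hle (hu i (Finset.mem_range.1 hi))) hx)
      have h6 := ((hc' x hx).sub hA).sub (hHx x hx)
      have h7 : ∑ i ∈ Finset.range r, (c i : ℚ) * B (u i) x +
          ∑ i ∈ Finset.range j, (c (r + i) : ℚ) * B (f i) x +
            ∑ i ∈ Finset.range j, (c (r + j + i) : ℚ) * B (h i) x -
          ∑ i ∈ Finset.range r, (c i : ℚ) * B (u i) x -
          ∑ i ∈ Finset.range j, (c (r + j + i) : ℚ) * B (h i) x =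
          ∑ i ∈ Finset.range j, (c (r + i) : ℚ) * B (f i) x := by ring
      rw [h7] at h6
      exact h6
    intro i hi
    rcases lt_or_ge i r with h4 | h4
    · exact h1 i h4
    · rcases lt_or_ge i (r + j) with h5 | h5
      · obtain ⟨a, rfl⟩ := Nat.exists_eq_add_of_le h4
        exact h2 a (by omega)
      · obtain ⟨a, rfl⟩ := Nat.exists_eq_add_of_le h5
        exact h3 a (by omega)

end Pool.Agent.RFN
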