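import Mathlib
import Pool.Agent.Lib.MP_dcc566_gt_R.Bas

/-!
# Vectors of `E₈` for the standard cusps
-/

set_option autoImplicit false

namespace Pool.Agent.RFN

open MP_dcc566_gt (bf E8)

/-- `α₁ - α₃`. -/
def e30 : Fin 8 → ℤ := ![1, 0, -1, 0, 0, 0, 0, 0]
/-- `α₅ - α₆`. -/
def e31 : Fin 8 → ℤ := ![0, 0, 0, 0, 1, -1, 0, 0]
/-- `α₁ + α₂ + α₅`. -/
def e32 : Fin 8 → ℤ := ![1, 1, 0, 0, 1, 0, 0, 0]
/-- `α₁`. -/
def e33 : Fin 8 → ℤ := ![1, 0, 0, 0, 0, 0, 0, 0]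

/-- `decide`. -/
theorem e3_vals : bf E8 e30 e30 = 6 ∧ bf E8 e31 e31 = 6 ∧ bf E8 e32 e32 = 6 ∧ bf E8 e30 e31 = 0 ∧
    bf E8 e30 e32 = 3 ∧ bf E8 e31 e32 = 3 ∧ e33 ≠ 0 := by
  refine ⟨by decide, by decide, by decide, by decide, by decide, by decide, by decide⟩

/-- The contribution of one `A₂`. -/
private theorem E3F_N {p q : ℤ} (h : (3 : ℤ) ∣ p - q) :
    ∃ m, 0 ≤ m ∧ p ^ 2 + p * q + q ^ 2 = 3 * m ∧ (m = 0 → p = 0) ∧ (m = 1 → ¬ (3 : ℤ) ∣ p) := by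
  obtain ⟨k, hk⟩ := h
  have hp : p = q + 3 * k := by linarith
  have e : p ^ 2 + p * q + q ^ 2 = 3 * (q ^ 2 + 3 * (q * k) + 3 * k ^ 2) := by
    rw [hp]; ring
  have hn : 0 ≤ q ^ 2 + 3 * (q * k) + 3 * k ^ 2 := by
    have h1 := sq_nonneg (2 * q + 3 * k)
    have h2 := sq_nonneg k
    nlinarith
  refine ⟨q ^ 2 + 3 * (q * k) + 3 * k ^ 2, hn, e, fun h0 => ?_, fun h1 h3 => ?_⟩
  · rw [h0] at e
    have h1 := sq_nonneg (2 * q + p)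
    have h2 : p ^ 2 ≤ 0 := by nlinarith
    exact pow_eq_zero_iff (two_ne_zero) |>.mp (le_antisymm h2 (sq_nonneg p))
  · rw [h1] at e
    obtain ⟨a, rfl⟩ := h3
    obtain ⟨b, hb⟩ : (3 : ℤ) ∣ q := by omega
    rw [hb] at e
    have e2 : 3 * (a ^ 2 + a * b + b ^ 2) = 1 := by nlinarith
    omega

/-- Roots orthogonal modulo 3 to the three vectors.

PROOF.  Four orthogonal `A₂`: `(a₁,b₁) = (α₁,α₃)`, `(a₂,b₂) = (α₅,α₆)`, `(a₃,b₃) = (α₂,α₀')`,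
`(a₄,b₄) = (α₈,α₀)`, `α₀' = ![-1,-2,-2,-3,-2,-1,0,0]`, `α₀ = ![-2,-3,-4,-6,-5,-4,-3,-2]`;
`(a_i,b_i) = -1`, different pairs orthogonal.  Let `p_i = bf ρ a_i`, `q_i = bf ρ b_i`.  Then
`3 bf ρ ρ = 2 ∑_i (p_i² + p_i q_i + q_i²)` (a polynomial identity in the coordinates of `ρ`; it
expresses that the `A₂` span), so `∑_i (p_i² + p_i q_i + q_i²) = 3`.  `p_1 - q_1 = bf ρ e30` and
`p_2 - q_2 = bf ρ e31` are divisible by 3; `a₃ - b₃ = (a₁ - b₁) - (a₂ - b₂) + 3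
![0,1,1,1,1,0,0,0]`, `a₄ - b₄ = -(a₁ - b₁) - (a₂ - b₂) + 3 ![1,1,1,2,2,1,1,1]`, so
`3 ∣ p_i - q_i` for all `i`, and each `p_i² + p_i q_i + q_i²` is divisible by 3, and positive
unless `p_i = q_i = 0`.  So exactly one is 3 and the others vanish.  For that index `i`, `p_i` is
`±1` or `±2` (`p² + pq + q² = 3`, `p = q mod 3`).  `3 ∣ bf ρ e32 = p_1 + p_3 + p_2`
(`e32 = a₁ + a₃ + a₂`): so `i = 4`, `p_1 = 0`, and `bf ρ e33 = p_1`. -/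
theorem e3_roots {ρ : Fin 8 → ℤ} (hρ : bf E8 ρ ρ = 2) (h0 : (3 : ℤ) ∣ bf E8 e30 ρ)
    (h1 : (3 : ℤ) ∣ bf E8 e31 ρ) (h2 : (3 : ℤ) ∣ bf E8 e32 ρ) : bf E8 ρ e33 = 0 := by
  have f0 : bf E8 e30 ρ = 3 * ρ 0 - 3 * ρ 2 + ρ 3 := by
    simp [bf, dotProduct, Matrix.mulVec, Fin.sum_univ_eight, E8, CartanMatrix.E₈, e30]
    ring
  have f1 : bf E8 e31 ρ = -ρ 3 + 3 * ρ 4 - 3 * ρ 5 + ρ 6 := by
    simp [bf, dotProduct, Matrix.mulVec, Fin.sum_univ_eight, E8, CartanMatrix.E₈, e31]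
    ring
  have f2 : bf E8 e32 ρ = (2 * ρ 0 - ρ 2) + (2 * ρ 1 - ρ 3) + (-ρ 3 + 2 * ρ 4 - ρ 5) := by
    simp [bf, dotProduct, Matrix.mulVec, Fin.sum_univ_eight, E8, CartanMatrix.E₈, e32]
    ring
  have f3 : bf E8 ρ e33 = 2 * ρ 0 - ρ 2 := by
    simp [bf, dotProduct, Matrix.mulVec, Fin.sum_univ_eight, E8, CartanMatrix.E₈, e33]
    ring
  rw [f0] at h0
  rw [f1] at h1
  rw [f2] at h2
  rw [f3]
  rw [MP_dcc566_gt.E8_norm'] at hρ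
  obtain ⟨m1, n1, e1, z1, w1⟩ := E3F_N (p := 2 * ρ 0 - ρ 2) (q := -ρ 0 + 2 * ρ 2 - ρ 3) (by omega)
  obtain ⟨m2, n2, e2, z2, w2⟩ := E3F_N (p := -ρ 3 + 2 * ρ 4 - ρ 5) (q := -ρ 4 + 2 * ρ 5 - ρ 6)
    (by omega)
  obtain ⟨m3, n3, e3, z3, w3⟩ := E3F_N (p := 2 * ρ 1 - ρ 3) (q := -ρ 1 + ρ 6) (by omega)
  obtain ⟨m4, n4, e4, z4, w4⟩ := E3F_N (p := -ρ 6 + 2 * ρ 7) (q := -ρ 7) (by omega)
  have hs : m1 + m2 + m3 + m4 = 1 := by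
    linarith
  clear e1 e2 e3 e4 hρ f0 f1 f2 f3
  by_cases c4 : m4 = 1
  · exact z1 (by omega)
  · exfalso
    by_cases c1 : m1 = 1
    · have y2 := z2 (by omega)
      have y3 := z3 (by omega)
      apply w1 c1
      rw [y2, y3] at h2
      simpa using h2
    · by_cases c2 : m2 = 1
      · have y1 := z1 (by omega)
        have y3 := z3 (by omega)
        apply w2 c2
        rw [y1, y3] at h2
        simpa using h2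
      · have y1 := z1 (by omega)
        have y2 := z2 (by omega)
        apply w3 (by omega)
        rw [y1, y2] at h2
        simpa using h2

/-- A vector of norm `2p` (Lagrange, `Nat.sum_four_squares`, four orthogonal roots `α₁, α₂, α₅,
α₇`: `![a,b,0,0,c,0,d,0]`). -/
theorem exists_norm (p : ℕ) : ∃ x : Fin 8 → ℤ, bf E8 x x = 2 * p := by
  obtain ⟨a, b, c, d, h⟩ := Nat.sum_four_squares p
  refine ⟨![(a : ℤ), b, 0, 0, c, 0, d, 0], ?_⟩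
  rw [MP_dcc566_gt.E8_norm', ← h]
  simp only [Matrix.cons_val]
  push_cast
  ring

/-- Cauchy–Schwarz: `(bf x ρ)² ≤ 4p < p²` for `p ≥ 5`, so `p ∣ bf x ρ` implies `bf x ρ = 0`. -/
theorem e5_roots {p : ℕ} (hp : 5 ≤ p) {x ρ : Fin 8 → ℤ} (hx : bf E8 x x = 2 * p)
    (hρ : bf E8 ρ ρ = 2) (h : (p : ℤ) ∣ bf E8 x ρ) : bf E8 ρ x = 0 := by
  obtain ⟨t, ht⟩ : ∃ t, t = bf E8 x ρ := ⟨_, rfl⟩
  have hc : bf E8 ρ x = t := by rw [ht, MP_dcc566_gt.E8_comm]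
  have h0 := MP_dcc566_gt.E8_nonneg ((2 : ℤ) • x - t • ρ)
  simp only [MP_dcc566_gt.bf_sub_left, MP_dcc566_gt.bf_sub_right, MP_dcc566_gt.bf_smul_left,
    MP_dcc566_gt.bf_smul_right, hc, ← ht, hρ, hx] at h0
  rw [hc]
  rw [← ht] at h
  obtain ⟨k, hk⟩ := h
  by_contra h1
  have hk0 : k ≠ 0 := by
    rintro rfl
    exact h1 (by rw [hk, mul_zero])
  have hk1 : 1 ≤ k ^ 2 := by
    have := sq_pos_of_pos (abs_pos.mpr hk0)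
    rw [sq_abs] at this
    omega
  have hp' : (5 : ℤ) ≤ p := by exact_mod_cast hp
  have h2 : t ^ 2 ≤ 4 * p := by nlinarith
  rw [hk, mul_pow] at h2
  have h3 : (p : ℤ) ^ 2 * 1 ≤ (p : ℤ) ^ 2 * k ^ 2 := mul_le_mul_of_nonneg_left hk1 (sq_nonneg _)
  nlinarith

end Pool.Agent.RFN
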