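import Mathlib
import Pool.Agent.Lib.MP_dcc566_gt_R.Bas

/-!
# Sublattices of `E₈` of index `2^i`: `D₈`, `D₄ ⊕ D₄`, `√2 E₈`

Standard coordinates: `xs u` are the coordinates of `u` in the standard model of `E₈`, for `u`
with integral coordinates (i.e. `u 0` even).
-/

set_option autoImplicit false

namespace Pool.Agent.RFN

open MP_dcc566_gt (bf E8)

/-- Four vectors of norm 4 with even mutual products: `2ε₁`, `ε₁+ε₂+ε₃+ε₄`, `ε₁+ε₂+ε₅+ε₆`,
`ε₁+ε₃+ε₅+ε₇`. -/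
def hh : ℕ → Fin 8 → ℤ
  | 0 => ![0, 1, -1, 0, 0, 0, 0, 0]
  | 1 => ![0, 2, 1, 2, 1, 0, 0, 0]
  | 2 => ![0, 2, 1, 2, 2, 2, 1, 0]
  | _ => ![0, 2, 1, 3, 2, 2, 1, 1]

/-- The sublattice orthogonal modulo 2 to `hh 0, ..., hh (i-1)`. -/
def DH (i : ℕ) (u : Fin 8 → ℤ) : Prop := ∀ k < i, (2 : ℤ) ∣ bf E8 (hh k) u

/-- `u` has products divisible by `κ` with the sublattice. -/
def DD (i : ℕ) (κ : ℤ) (u : Fin 8 → ℤ) : Prop := ∀ v, DH i v → κ ∣ bf E8 u v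

/-- The standard coordinates (exact when `u 0` is even). -/
def xs (u : Fin 8 → ℤ) : Fin 8 → ℤ :=
  ![u 0 / 2 + u 1 - u 2, -(u 0 / 2) + u 1 + u 2 - u 3, -(u 0 / 2) + u 3 - u 4,
    -(u 0 / 2) + u 4 - u 5, -(u 0 / 2) + u 5 - u 6, -(u 0 / 2) + u 6 - u 7, -(u 0 / 2) + u 7,
    u 0 / 2]

private theorem E8D_bf (u v : Fin 8 → ℤ) : bf E8 u v =
    2 * (u 0 * v 0 + u 1 * v 1 + u 2 * v 2 + u 3 * v 3 + u 4 * v 4 + u 5 * v 5 + u 6 * v 6 +
      u 7 * v 7) - (u 0 * v 2 + u 2 * v 0) - (u 1 * v 3 + u 3 * v 1) - (u 2 * v 3 + u 3 * v 2) -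
      (u 3 * v 4 + u 4 * v 3) - (u 4 * v 5 + u 5 * v 4) - (u 5 * v 6 + u 6 * v 5) -
      (u 6 * v 7 + u 7 * v 6) := by
  simp [bf, dotProduct, Matrix.mulVec, Fin.sum_univ_eight, E8, CartanMatrix.E₈]
  ring

/-- `bf E8 (hh 0) u = u 0 + 2 u 1 - 2 u 2`, so `DH i u` with `i ≥ 1` gives `u 0` even. -/
theorem DH_zero {i : ℕ} (hi : 1 ≤ i) {u : Fin 8 → ℤ} (h : DH i u) : (2 : ℤ) ∣ u 0 := by
  have h1 := h 0 hi
  rw [E8D_bf] at h1
  simp [hh] at h1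
  omega

/-- The form in standard coordinates.  (Write `u 0 = 2a`, `v 0 = 2b`, expand with
`CartanMatrix.E₈` and `Fin.sum_univ_eight`, `ring`.) -/
theorem xs_bf {u v : Fin 8 → ℤ} (hu : (2 : ℤ) ∣ u 0) (hv : (2 : ℤ) ∣ v 0) :
    bf E8 u v = ∑ i, xs u i * xs v i := by
  obtain ⟨a, ha⟩ := hu
  obtain ⟨b, hb⟩ := hv
  rw [E8D_bf, Fin.sum_univ_eight]
  simp only [xs, ha, hb, Int.mul_ediv_cancel_left a (two_ne_zero : (2 : ℤ) ≠ 0),
    Int.mul_ediv_cancel_left b (two_ne_zero : (2 : ℤ) ≠ 0), Matrix.cons_val]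
  ring

theorem xs_lin {u v : Fin 8 → ℤ} (hu : (2 : ℤ) ∣ u 0) (hv : (2 : ℤ) ∣ v 0) (a b : ℤ) (i : Fin 8) :
    xs (a • u - b • v) i = a * xs u i - b * xs v i := by
  obtain ⟨a', ha⟩ := hu
  obtain ⟨b', hb⟩ := hv
  have h1 : a * (2 * a') - b * (2 * b') = 2 * (a * a' - b * b') := by ring
  fin_cases i <;>
  simp only [xs, Pi.sub_apply, Pi.smul_apply, smul_eq_mul, ha, hb, h1,
      Int.mul_ediv_cancel_left _ (two_ne_zero : (2 : ℤ) ≠ 0), Fin.zero_eta, Fin.mk_one,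
      Fin.reduceFinMk, Matrix.cons_val] <;>
  ring

/-- `∑ xs u i = -4 (u 0 / 2) + 2 u 1`. -/
theorem xs_sum (u : Fin 8 → ℤ) : ∑ i, xs u i = -4 * (u 0 / 2) + 2 * u 1 := by
  rw [Fin.sum_univ_eight]
  simp only [xs, Matrix.cons_val]
  ring

/-- The coordinates of the four vectors (`decide`, after `funext`/`fin_cases` if necessary). -/
theorem xs_hh : xs (hh 0) = ![2, 0, 0, 0, 0, 0, 0, 0] ∧ xs (hh 1) = ![1, 1, 1, 1, 0, 0, 0, 0] ∧
    xs (hh 2) = ![1, 1, 0, 0, 1, 1, 0, 0] ∧ xs (hh 3) = ![1, 0, 1, 0, 1, 0, 1, 0] := by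
  decide

/-- Two-local structure.

PROOF.  `2 • w` satisfies `DH i`.  `κ` odd: `κ ∣ bf u (2w) = 2 bf u w`, so `κ ∣ bf u w` for all `w`, `E8_unimod`; if
`DH i u`, `u = κ u'` then `DH i u'` (`κ` odd).  `κ = 2κ₁` (`κ₁ ≠ 0`): `2κ₁ ∣ 2 bf u w`, so `κ₁ ∣ bf u w`, `u = κ₁ u''`, and
`2κ₁ ∣ κ₁ bf u'' v` for `v` in the sublattice. -/
theorem two_loc {i : ℕ} {κ : ℤ} (hκ : 0 < κ) {u : Fin 8 → ℤ} (hu : DH i u) (hd : DD i κ u) :
    (Odd κ → ∃ u', u = κ • u' ∧ DH i u') ∧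
      (∀ κ₁, κ = 2 * κ₁ → ∃ u'', u = κ₁ • u'' ∧ DD i 2 u'') := by
  have h2 : ∀ w, κ ∣ 2 * bf E8 u w := by
    intro w
    have h3 := hd ((2 : ℤ) • w) fun k _ => by
      rw [MP_dcc566_gt.bf_smul_right]
      exact dvd_mul_right _ _
    rwa [MP_dcc566_gt.bf_smul_right] at h3
  constructor
  · rintro ⟨c, hc⟩
    obtain ⟨u', hu'⟩ := MP_dcc566_gt.E8_unimod (k := κ) (u := u) fun w => by
      obtain ⟨e, he⟩ := h2 w
      exact ⟨bf E8 u w - c * e, by linear_combination (-bf E8 u w) * hc - c * he⟩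
    refine ⟨u', hu', fun k hk => ?_⟩
    obtain ⟨e, he⟩ := hu k hk
    rw [hu', MP_dcc566_gt.bf_smul_right] at he
    exact ⟨e - c * bf E8 (hh k) u', by linear_combination he + bf E8 (hh k) u' * (-hc)⟩
  · intro κ₁ h1
    have h0 : κ₁ ≠ 0 := by
      rintro rfl
      omega
    obtain ⟨u'', hu''⟩ := MP_dcc566_gt.E8_unimod (k := κ₁) (u := u) fun w => by
      have h3 := h2 w
      rw [h1] at h3
      exact Int.dvd_of_mul_dvd_mul_left (two_ne_zero : (2 : ℤ) ≠ 0) h3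
    refine ⟨u'', hu'', fun v hv => ?_⟩
    have h3 := hd v hv
    rw [h1, hu'', MP_dcc566_gt.bf_smul_left, mul_comm 2 κ₁] at h3
    exact Int.dvd_of_mul_dvd_mul_left h0 h3

/-- Vectors of `2 D^*`, for `i = 1, 2`: integral coordinates, and the coordinates of equal parity (in
each block of four if `i = 2`).

PROOF.  `hh 0` satisfies `DH i` (`i ≤ 4`, mutual products of the `hh k` even, norms 4), so `bf u (hh 0)` is even and `u 0` is
even (`bf` symmetric, `E8_comm`).  For `i = 1` use the vectors with standard coordinates `ε_a - ε_{a+1}`; for `i = 2` use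
`ε_a - ε_{a+1}` for `a = 0,1,2,4,5,6`: these are the simple roots `Pi.single 2 1 = α₃ = ε₂ - ε₁`, `α₄ = ε₃ - ε₂` (index 3), `α₅`
(index 4), `α₆` (index 5, = `ε₅ - ε₄`, only for `i = 1`), `α₇` (index 6), `α₈` (index 7) and for the last coordinate
`ε₇ - ε₈ = ![-2,-2,-3,-4,-3,-2,-1,0]`... (any integral vector with these standard coordinates and even `u 0`); `bf u v = ∑ xs u i * xs v i`.
It is convenient to prove first: for integers `y` with even sum (each block sum even if `i = 2`) there is `v` with `DH i v`,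
`xs v = y` (solve the triangular system: `v 0 = 2 y 7`, `v 7 = y 6 + y 7`, `v 6 = y 5 + y 7 + v 7`, ..., `v 3`, and
`v 1 + v 2 = y 1 + y 7 + v 3`, `v 1 - v 2 = y 0 - y 7`, solvable because the sum of the `y i` is even). -/
theorem dual_par {i : ℕ} (hi : i = 1 ∨ i = 2) {u : Fin 8 → ℤ} (hd : DD i 2 u) :
    (2 : ℤ) ∣ u 0 ∧ ((2 : ℤ) ∣ xs u 0 - xs u 1 ∧ (2 : ℤ) ∣ xs u 1 - xs u 2 ∧
      (2 : ℤ) ∣ xs u 2 - xs u 3) ∧ ((2 : ℤ) ∣ xs u 4 - xs u 5 ∧ (2 : ℤ) ∣ xs u 5 - xs u 6 ∧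
      (2 : ℤ) ∣ xs u 6 - xs u 7) ∧ (i = 1 → (2 : ℤ) ∣ xs u 3 - xs u 4) := by
  have key : ∀ v : Fin 8 → ℤ, (2 : ℤ) ∣ bf E8 (hh 0) v → (2 : ℤ) ∣ bf E8 (hh 1) v →
      (2 : ℤ) ∣ bf E8 u v := by
    intro v h0 h1
    refine hd v fun k hk => ?_
    have h3 : k = 0 ∨ k = 1 := by omega
    rcases h3 with rfl | rfl
    · exact h0
    · exact h1
  have a0 := key (hh 0) (by decide) (by decide)
  have a1 := key ![0, 0, 1, 0, 0, 0, 0, 0] (by decide) (by decide)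
  have a2 := key ![0, 0, 0, 1, 0, 0, 0, 0] (by decide) (by decide)
  have a3 := key ![0, 0, 0, 0, 1, 0, 0, 0] (by decide) (by decide)
  have a5 := key ![0, 0, 0, 0, 0, 0, 1, 0] (by decide) (by decide)
  have a6 := key ![0, 0, 0, 0, 0, 0, 0, 1] (by decide) (by decide)
  have a7 := key ![-2, -2, -3, -4, -3, -2, -1, 0] (by decide) (by decide)
  have a4 : i = 1 → (2 : ℤ) ∣ bf E8 u ![0, 0, 0, 0, 0, 1, 0, 0] := by
    intro h1
    refine hd _ fun k hk => ?_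
    obtain rfl : k = 0 := by omega
    decide
  rw [E8D_bf] at a0 a1 a2 a3 a4 a5 a6 a7
  simp only [hh, Matrix.cons_val] at a0 a1 a2 a3 a4 a5 a6 a7
  simp only [xs, Matrix.cons_val]
  refine ⟨by omega, ⟨by omega, by omega, by omega⟩, ⟨by omega, by omega, by omega⟩, ?_⟩
  intro h1
  have := a4 h1
  omega

/-- For `i = 4` the sublattice is `√2 E₈`: `2 D^* = D`.  (`hh k`, `k < 4`, satisfy `DH 4`: their products are even.) -/
theorem dual_four {u : Fin 8 → ℤ} (hd : DD 4 2 u) : DH 4 u := by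
  intro k hk
  rw [MP_dcc566_gt.E8_comm]
  refine hd (hh k) fun j hj => ?_
  interval_cases k <;> interval_cases j <;> decide

private theorem E8D_sq (x : ℤ) : ∃ q : ℤ, x ^ 2 = 4 * q + x % 2 := by
  rcases Int.emod_two_eq_zero_or_one x with h | h
  · obtain ⟨q, hq⟩ : ∃ q, x = 2 * q := ⟨x / 2, by omega⟩
    refine ⟨q ^ 2, ?_⟩
    rw [h, hq]
    ring
  · obtain ⟨q, hq⟩ : ∃ q, x = 2 * q + 1 := ⟨x / 2, by omega⟩
    refine ⟨q ^ 2 + q, ?_⟩
    rw [h, hq]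
    ring

private theorem E8D_par4 {a b c d : ℤ} (h : (2 : ℤ) ∣ a + b + c + d) :
    d % 2 = (a % 2 + b % 2 + c % 2) % 2 := by
  omega

private theorem E8D_par {x0 x1 x2 x3 x4 x5 x6 x7 : ℤ} (b1 : (2 : ℤ) ∣ x0 + x1 + x2 + x3)
    (b2 : (2 : ℤ) ∣ x0 + x1 + x4 + x5) (b3 : (2 : ℤ) ∣ x0 + x2 + x4 + x6)
    (b4 : (2 : ℤ) ∣ x0 + x1 + x2 + x3 + x4 + x5 + x6 + x7) :
    (4 : ℤ) ∣ x0 % 2 + x1 % 2 + x2 % 2 + x3 % 2 + x4 % 2 + x5 % 2 + x6 % 2 + x7 % 2 := by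
  have k3 := E8D_par4 b1
  have k5 := E8D_par4 b2
  have k6 := E8D_par4 b3
  have b5 : (2 : ℤ) ∣ x1 + x2 + x4 + x7 := by
    obtain ⟨c1, hc1⟩ := b1
    obtain ⟨c2, hc2⟩ := b2
    obtain ⟨c3, hc3⟩ := b3
    obtain ⟨c4, hc4⟩ := b4
    exact ⟨c4 - c1 - c2 - c3 + x0 + x1 + x2 + x4,
      by linear_combination hc4 - hc1 - hc2 - hc3⟩
  have k7 := E8D_par4 b5
  rw [k3, k5, k6, k7]
  rcases Int.emod_two_eq_zero_or_one x0 with k0 | k0 <;>
  rcases Int.emod_two_eq_zero_or_one x1 with k1 | k1 <;>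
  rcases Int.emod_two_eq_zero_or_one x2 with k2 | k2 <;>
  rcases Int.emod_two_eq_zero_or_one x4 with k4 | k4 <;>
  · rw [k0, k1, k2, k4]
    decide

/-- Norms of `√2 E₈` are divisible by 4.

PROOF.  `u 0` even, `x = xs u`.  `bf (hh k) u = ∑ xs (hh k) i * x i` is even for `k = 1,2,3`: `x0+x1+x2+x3`, `x0+x1+x4+x5`,
`x0+x2+x4+x6` are even, and `∑ x i` is even (`xs_sum`).  So modulo 2 the vector `x` is a word of the extended Hamming
code: `x3 = x0+x1+x2`, `x5 = x0+x1+x4`, `x6 = x0+x2+x4`, `x7 = x0+x1+..+x6 = x1+x2+x4 mod 2`; the number of odd coordinates is 0, 4 or 8 (16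
cases for the parities of `x0,x1,x2,x4`), and `x²` is 0 or 1 modulo 4. -/
theorem norm_four {u : Fin 8 → ℤ} (h : DH 4 u) : (4 : ℤ) ∣ bf E8 u u := by
  have h0 : (2 : ℤ) ∣ u 0 := DH_zero (by norm_num) h
  have b1 := h 1 (by norm_num)
  have b2 := h 2 (by norm_num)
  have b3 := h 3 (by norm_num)
  rw [xs_bf (by decide) h0, Fin.sum_univ_eight] at b1 b2 b3
  rw [xs_hh.2.1] at b1
  rw [xs_hh.2.2.1] at b2
  rw [xs_hh.2.2.2] at b3
  simp only [Matrix.cons_val] at b1 b2 b3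
  have b4 := xs_sum u
  rw [Fin.sum_univ_eight] at b4
  rw [xs_bf h0 h0, Fin.sum_univ_eight]
  simp only [← pow_two]
  have hpar := E8D_par (x0 := xs u 0) (x1 := xs u 1) (x2 := xs u 2) (x3 := xs u 3)
    (x4 := xs u 4) (x5 := xs u 5) (x6 := xs u 6) (x7 := xs u 7)
    (by simpa using b1) (by simpa using b2) (by simpa [add_assoc] using b3) (by
      rw [b4]
      exact ⟨-2 * (u 0 / 2) + u 1, by ring⟩)
  obtain ⟨q0, s0⟩ := E8D_sq (xs u 0)
  obtain ⟨q1, s1⟩ := E8D_sq (xs u 1)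
  obtain ⟨q2, s2⟩ := E8D_sq (xs u 2)
  obtain ⟨q3, s3⟩ := E8D_sq (xs u 3)
  obtain ⟨q4, s4⟩ := E8D_sq (xs u 4)
  obtain ⟨q5, s5⟩ := E8D_sq (xs u 5)
  obtain ⟨q6, s6⟩ := E8D_sq (xs u 6)
  obtain ⟨q7, s7⟩ := E8D_sq (xs u 7)
  obtain ⟨r, hr⟩ := hpar
  exact ⟨q0 + q1 + q2 + q3 + q4 + q5 + q6 + q7 + r,
    by linear_combination s0 + s1 + s2 + s3 + s4 + s5 + s6 + s7 + hr⟩

/-- The sublattice `DH 4` has even products. -/
theorem DH_four_bf {u v : Fin 8 → ℤ} (hu : DH 4 u) (hv : DH 4 v) : (2 : ℤ) ∣ bf E8 u v := by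
  have h1 : DH 4 (u + v) := fun k hk => by
    rw [MP_dcc566_gt.bf_add_right]
    exact dvd_add (hu k hk) (hv k hk)
  have h2 := norm_four h1
  have h3 := norm_four hu
  have h4 := norm_four hv
  rw [MP_dcc566_gt.bf_add_right, MP_dcc566_gt.bf_add_left, MP_dcc566_gt.bf_add_left,
    MP_dcc566_gt.E8_comm v u] at h2
  omega

/-- Generalized roots: lower bound for the norm.

PROOF.  `two_loc`.  `κ` odd: `u = κ u'`, `u' ≠ 0`, `bf u u = κ² bf u' u' ≥ 2 κ² ≥ 2κ` (`E8_even`, `E8_pos`).  `κ = 2κ₁`: `u = κ₁ u''`, and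
`bf u'' u'' ≥ 4`: for `i = 4`, `u''` satisfies `DH 4` (`dual_four`) and `norm_four`; for `i = 1, 2` by `dual_par`: coordinates of
equal parity (in the blocks): if all coordinates are even, the norm is a nonzero sum of squares of even numbers; otherwise a
block has four odd coordinates.  So `bf u u ≥ 4 κ₁² ≥ 4 κ₁ = 2κ`. -/
theorem d_min {i : ℕ} (hi : i = 1 ∨ i = 2 ∨ i = 4) {κ : ℤ} (hκ : 0 < κ) {u : Fin 8 → ℤ}
    (hu : DH i u) (hd : DD i κ u) (h0 : u ≠ 0) : 2 * κ ≤ bf E8 u u := by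
  obtain ⟨h1, h2⟩ := two_loc hκ hu hd
  rcases Int.even_or_odd κ with ⟨κ₁, hκ₁⟩ | hodd
  · obtain ⟨w, hw, hw2⟩ := h2 κ₁ (by omega)
    have hw0 : w ≠ 0 := by
      rintro rfl
      exact h0 (by rw [hw, smul_zero])
    have h4 : 4 ≤ bf E8 w w := by
      have hpos := MP_dcc566_gt.E8_pos w hw0
      by_cases h4 : i = 4
      · subst h4
        obtain ⟨c, hc⟩ := norm_four (dual_four hw2)
        omega
      · obtain ⟨k0, ⟨k1, k2, k3⟩, ⟨k5, k6, k7⟩, -⟩ := dual_par (i := i) (by omega) hw2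
        rw [xs_bf k0 k0, Fin.sum_univ_eight] at hpos ⊢
        simp only [← pow_two] at hpos ⊢
        obtain ⟨q0, s0⟩ := E8D_sq (xs w 0)
        obtain ⟨q1, s1⟩ := E8D_sq (xs w 1)
        obtain ⟨q2, s2⟩ := E8D_sq (xs w 2)
        obtain ⟨q3, s3⟩ := E8D_sq (xs w 3)
        obtain ⟨q4, s4⟩ := E8D_sq (xs w 4)
        obtain ⟨q5, s5⟩ := E8D_sq (xs w 5)
        obtain ⟨q6, s6⟩ := E8D_sq (xs w 6)
        obtain ⟨q7, s7⟩ := E8D_sq (xs w 7)
        have p0 := sq_nonneg (xs w 0)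
        have p1 := sq_nonneg (xs w 1)
        have p2 := sq_nonneg (xs w 2)
        have p3 := sq_nonneg (xs w 3)
        have p4 := sq_nonneg (xs w 4)
        have p5 := sq_nonneg (xs w 5)
        have p6 := sq_nonneg (xs w 6)
        have p7 := sq_nonneg (xs w 7)
        have m1 : xs w 1 % 2 = xs w 0 % 2 := by clear * - k1; omega
        have m2 : xs w 2 % 2 = xs w 0 % 2 := by clear * - k1 k2; omega
        have m3 : xs w 3 % 2 = xs w 0 % 2 := by clear * - k1 k2 k3; omega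
        have m5 : xs w 5 % 2 = xs w 4 % 2 := by clear * - k5; omega
        have m6 : xs w 6 % 2 = xs w 4 % 2 := by clear * - k5 k6; omega
        have m7 : xs w 7 % 2 = xs w 4 % 2 := by clear * - k5 k6 k7; omega
        rw [m1] at s1
        rw [m2] at s2
        rw [m3] at s3
        rw [m5] at s5
        rw [m6] at s6
        rw [m7] at s7
        clear k0 k1 k2 k3 k5 k6 k7 m1 m2 m3 m5 m6 m7
        rw [s0, s1, s2, s3, s4, s5, s6, s7] at hpos ⊢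
        rw [s0] at p0
        rw [s1] at p1
        rw [s2] at p2
        rw [s3] at p3
        rw [s4] at p4
        rw [s5] at p5
        rw [s6] at p6
        rw [s7] at p7
        clear s0 s1 s2 s3 s4 s5 s6 s7
        rcases Int.emod_two_eq_zero_or_one (xs w 0) with m0 | m0 <;>
        rcases Int.emod_two_eq_zero_or_one (xs w 4) with m4 | m4 <;>
        · rw [m0] at hpos p0 p1 p2 p3 ⊢
          rw [m4] at hpos p4 p5 p6 p7 ⊢
          clear m0 m4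
          omega
    have hκ1 : 1 ≤ κ₁ := by omega
    rw [hw, MP_dcc566_gt.bf_smul_left, MP_dcc566_gt.bf_smul_right]
    have h5 : κ₁ * 1 ≤ κ₁ * κ₁ := mul_le_mul_of_nonneg_left hκ1 (by omega)
    have h6 : κ₁ * κ₁ * 4 ≤ κ₁ * κ₁ * bf E8 w w :=
      mul_le_mul_of_nonneg_left h4 (mul_nonneg (by omega) (by omega))
    have h7 : κ₁ * (κ₁ * bf E8 w w) = κ₁ * κ₁ * bf E8 w w := by ring
    rw [h7]
    omega
  · obtain ⟨w, hw, -⟩ := h1 hodd
    have hw0 : w ≠ 0 := by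
      rintro rfl
      exact h0 (by rw [hw, smul_zero])
    have hpos := MP_dcc566_gt.E8_pos w hw0
    obtain ⟨c, hc⟩ := MP_dcc566_gt.E8_even w
    have h4 : 2 ≤ bf E8 w w := by omega
    rw [hw, MP_dcc566_gt.bf_smul_left, MP_dcc566_gt.bf_smul_right]
    have h5 : κ * 1 ≤ κ * κ := mul_le_mul_of_nonneg_left (by omega) (by omega)
    have h6 : κ * κ * 2 ≤ κ * κ * bf E8 w w :=
      mul_le_mul_of_nonneg_left h4 (mul_nonneg (by omega) (by omega))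
    have h7 : κ * (κ * bf E8 w w) = κ * κ * bf E8 w w := by ring
    rw [h7]
    omega

end Pool.Agent.RFN
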