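import Mathlib
import Pool.Agent.Lib.MP_dcc566_gt_R.Bas

set_option autoImplicit false

namespace Pool.Agent.RFN

variable {Z : Type} [AddCommGroup Z] [Module ℚ Z]

/-- THE CUSP LEMMA for `U ⊕ M`, cusp `(-N₀, m; v)`.

PROOF.  Notation: vectors of `(ℚ × ℚ) × Z` are `((a,b),z)`, `F = sF HF BZ`, `F ((a,b),z) ((a',b'),z') = a b' + b a' + (z,z')`
(`sF_apply`, `HF_apply`).  Put `e = ((-N₀, m), v)`; `F e e = -2 m N₀ + (v,v) = 0`; `e ∈ ZZ.prod M`.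
Let `f₀ = ((-k₀, 0), z₀)`: `F e f₀ = m (-k₀) + (v,z₀) = 1`.  `M` is even: `(z₀,z₀) = 2 c`, `c` an integer (`Dv 2`);
`f = f₀ - c e`: `F f f = (z₀,z₀) - 2c + 0 = 0`, `F e f = 1`, `f ∈ ZZ.prod M`.
`t' = ((-(t,v), 0), m t)`: `F t' e = -(t,v) m + m (t,v) = 0`, `F t' t' = m² (t,t) > 0` (`Pd.pos`).
Let `r = ((a,b),z) ∈ ZZ.prod M`, `F r r = 2ab + (z,z) = 2κ`, `κ ∣ F r x` for all `x ∈ ZZ.prod M`, `F r e = a m - b N₀ + (z,v) = 0`.
With `x = ((0,1),0), ((1,0),0), ((0,0),z')`: `a = κ α`, `b = κ β`, `κ ∣ (z,z')` for `z' ∈ M`.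
`F r t' = -b (t,v) + m (z,t) = (R,t)` where `R = m z - (κ β) v` (symmetry of `BZ`).
`(R,R) = m² (z,z) - 2 m b (z,v) + b² (v,v) = m² (2κ - 2ab) - 2 m b (b N₀ - a m) + 2 m N₀ b² = 2 κ m²` (`norm_sub_lin`).
If `m ∤ β`: `H1`.  If `β = m γ`: `s = z - (κ γ) v ∈ M`, `R = m s`, so `(s,s) = 2κ` (`m ≠ 0`); `κ ∣ (s,z')` for `z' ∈ M`
(`(v,z')` is an integer, `EvL.isZ`); `(s,v) = (z,v) - κ γ 2 m N₀ = b N₀ - a m - 2 m κ γ N₀ = -m κ (α + γ N₀)`, so `mκ ∣ (s,v)`;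
`H2` gives `(s,t) = 0` and `(R,t) = m (s,t) = 0`. -/
theorem gcl {BZ : Frm Z} (hB : Pd BZ) {M : AddSubgroup Z} (hM : EvL BZ M) {m : ℤ} (hm : 0 < m)
    {v t z₀ : Z} (hv : v ∈ M) {N₀ : ℤ} (hN : BZ v v = 2 * m * N₀) (ht : t ≠ 0)
    (hz₀ : z₀ ∈ M) {k₀ : ℤ} (hk : BZ v z₀ = 1 + m * k₀)
    (H1 : ∀ κ β : ℤ, 0 < κ → ¬ m ∣ β → ∀ z ∈ M, (∀ x ∈ M, Dv κ (BZ z x)) →
      BZ ((m : ℚ) • z - ((κ * β : ℤ) : ℚ) • v) ((m : ℚ) • z - ((κ * β : ℤ) : ℚ) • v) =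
        2 * κ * m ^ 2 → BZ ((m : ℚ) • z - ((κ * β : ℤ) : ℚ) • v) t = 0)
    (H2 : ∀ κ : ℤ, 0 < κ → ∀ s ∈ M, BZ s s = 2 * κ → (∀ x ∈ M, Dv κ (BZ s x)) →
      Dv (m * κ) (BZ s v) → BZ s t = 0) :
    BadS (sF HF BZ) (ZZ.prod M) := by
  have hs := hB.symm
  obtain ⟨c, hc⟩ := hM z₀ hz₀
  have hmQ : (0 : ℚ) < m := by exact_mod_cast hm
  have hk' : BZ z₀ v = 1 + m * k₀ := by rw [hs]; exact hk
  have hsm : ∀ n : ℤ, ((n : ℤ) : ℚ) • v ∈ M := fun n => by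
    rw [Int.cast_smul_eq_zsmul]
    exact M.zsmul_mem hv n
  refine ⟨((-(N₀ : ℚ), (m : ℚ)), v), ⟨⟨⟨-N₀, by push_cast; rfl⟩, ⟨m, rfl⟩⟩, hv⟩,
    ((-(k₀ : ℚ) + c * N₀, -((c : ℚ) * m)), z₀ - (c : ℚ) • v),
    ⟨⟨⟨-k₀ + c * N₀, by push_cast; rfl⟩, ⟨-(c * m), by push_cast; rfl⟩⟩,
      M.sub_mem hz₀ (hsm c)⟩, ((-(BZ t v), 0), (m : ℚ) • t), ?_, ?_, ?_, ?_, ?_, ?_⟩
  · rw [sF_apply, HF_apply]
    simp only
    rw [hN]
    ring
  · rw [sF_apply, HF_apply]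
    simp only [map_sub, map_smul, LinearMap.sub_apply, LinearMap.smul_apply, smul_eq_mul]
    rw [hN, hk, hk', hc]
    push_cast
    ring
  · rw [sF_apply, HF_apply]
    simp only [map_sub, map_smul, smul_eq_mul]
    rw [hN, hk]
    ring
  · rw [sF_apply, HF_apply]
    simp only [map_smul, LinearMap.smul_apply, smul_eq_mul]
    ring
  · rw [sF_apply, HF_apply]
    simp only [map_smul, LinearMap.smul_apply, smul_eq_mul]
    have h1 := hB.pos t ht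
    have h2 : 0 < (m : ℚ) * (m * BZ t t) := mul_pos hmQ (mul_pos hmQ h1)
    linarith
  · rintro ⟨⟨a, b⟩, z⟩ ⟨-, hz⟩ κ hκ hrr hdv hre
    have hz' : z ∈ M := hz
    rw [sF_apply, HF_apply] at hrr hre
    simp only at hrr hre
    have ha : Dv κ a := by
      have := hdv ((0, 1), 0) ⟨⟨⟨0, by simp⟩, ⟨1, by simp⟩⟩, M.zero_mem⟩
      rw [sF_apply, HF_apply] at this
      simpa using this
    have hb : Dv κ b := by
      have := hdv ((1, 0), 0) ⟨⟨⟨1, by simp⟩, ⟨0, by simp⟩⟩, M.zero_mem⟩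
      rw [sF_apply, HF_apply] at this
      simpa using this
    have hzx : ∀ x ∈ M, Dv κ (BZ z x) := by
      intro x hx
      have := hdv ((0, 0), x) ⟨⟨⟨0, by simp⟩, ⟨0, by simp⟩⟩, hx⟩
      rw [sF_apply, HF_apply] at this
      simpa using this
    obtain ⟨α, rfl⟩ := ha
    obtain ⟨β, rfl⟩ := hb
    have hzv : BZ z v = κ * β * N₀ - κ * α * m := by linarith
    have hzz : BZ z z = 2 * κ - 2 * (κ * α) * (κ * β) := by linarith
    rw [sF_apply, HF_apply]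
    simp only [map_smul, smul_eq_mul]
    by_cases hβ : m ∣ β
    · obtain ⟨γ, rfl⟩ := hβ
      have h2 := H2 κ hκ (z - (((κ * γ : ℤ)) : ℚ) • v) (M.sub_mem hz' (hsm _)) (by
        simp only [map_sub, map_smul, LinearMap.sub_apply, LinearMap.smul_apply, smul_eq_mul]
        rw [hs v z, hzz, hzv, hN]
        push_cast
        ring) (by
        intro x hx
        obtain ⟨n, hn⟩ := hzx x hx
        obtain ⟨n', hn'⟩ := EvL.isZ hs hM hv hx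
        refine ⟨n - γ * n', ?_⟩
        simp only [map_sub, map_smul, LinearMap.sub_apply, LinearMap.smul_apply, smul_eq_mul]
        rw [hn, hn']
        push_cast
        ring) (by
        refine ⟨-(α + γ * N₀), ?_⟩
        simp only [map_sub, map_smul, LinearMap.sub_apply, LinearMap.smul_apply, smul_eq_mul]
        rw [hzv, hN]
        push_cast
        ring)
      simp only [map_sub, map_smul, LinearMap.sub_apply, LinearMap.smul_apply, smul_eq_mul] at h2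
      push_cast at h2 ⊢
      rw [hs t v]
      linear_combination (m : ℚ) * h2
    · have h1 := H1 κ β hκ hβ z hz' hzx (by
        rw [norm_sub_lin hs, hzz, hzv, hN]
        push_cast
        ring)
      simp only [map_sub, map_smul, LinearMap.sub_apply, LinearMap.smul_apply, smul_eq_mul] at h1
      push_cast at h1 ⊢
      rw [hs t v]
      linear_combination h1

/-- The standard cusp (`gcl` with `m = 1`, `v = 0`, `N₀ = 0`, `z₀ = 0`, `k₀ = -1`; `H1` is vacuous). -/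
theorem scl0 {BZ : Frm Z} (hB : Pd BZ) {M : AddSubgroup Z} (hM : EvL BZ M) {t : Z} (ht : t ≠ 0)
    (H : ∀ κ : ℤ, 0 < κ → ∀ s ∈ M, BZ s s = 2 * κ → (∀ x ∈ M, Dv κ (BZ s x)) → BZ s t = 0) :
    BadS (sF HF BZ) (ZZ.prod M) := by
  refine gcl hB hM (m := 1) one_pos (v := 0) (t := t) (z₀ := 0) M.zero_mem (N₀ := 0) (by simp) ht
    M.zero_mem (k₀ := -1) (by simp) ?_ ?_
  · intro κ β _ hβ
    exact absurd (one_dvd β) hβ
  · intro κ hκ s hs hss hd _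
    exact H κ hκ s hs hss hd

end Pool.Agent.RFN
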