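import Mathlib
import Pool.Agent.Lib.MP_dcc566_gt_R.Gcl
import Pool.Agent.Lib.MP_dcc566_gt_R.E8D

/-!
# Configurations at the prime 2 with vectors in the first `E₈`
-/

set_option autoImplicit false

namespace Pool.Agent.RFN

open MP_dcc566_gt (bf E8)

variable {X : Type} [AddCommGroup X] [Module ℚ X]

/-- From a configuration in `E₈ ⊕ N` to one in `U ⊕ E₈ ⊕ N`.

PROOF.  `f p k = ((0,0), g p k)`.  `TS`: `mem`, `pair`, `norm` by `sF_apply`, `HF_apply`; `ind`: if `∑ c_k f_k` is in the radical of `PL N` mod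
`p`, test with `((0,0),z)`, `z ∈ (Zk 8).prod N`.  `Cut (PF BX) (PL N) S i f = ZZ.prod (Cut (sF F8 BX) ((Zk 8).prod N) S i g)` (`ext`: both
sides say `x.1 ∈ ZZ`, `x.2 ∈ (Zk 8).prod N` and `Dv p (sF F8 BX (g p k) x.2)`). -/
theorem conf_of_M {BX : Frm X} {N : AddSubgroup X} {S : Finset ℕ} {i : ℕ → ℕ}
    {g : ℕ → ℕ → (Fin 8 → ℚ) × X}
    (hg : ∀ p ∈ S, TS (sF F8 BX) ((Zk 8).prod N) p (i p) (g p))
    (hb : BadS (sF HF (sF F8 BX)) (ZZ.prod (Cut (sF F8 BX) ((Zk 8).prod N) S i g))) :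
    Conf (PF BX) (PL N) S i := by
  have hval : ∀ (z : (Fin 8 → ℚ) × X) (x : PV X),
      PF BX (((0 : ℚ), (0 : ℚ)), z) x = sF F8 BX z x.2 := by
    intro z x
    rw [sF_apply, HF_apply]
    ring
  refine ⟨fun p k => (((0 : ℚ), (0 : ℚ)), g p k), fun p hp => ⟨?_, ?_, ?_, ?_⟩, ?_⟩
  · intro k hk
    exact ⟨ZZ.zero_mem, (hg p hp).mem k hk⟩
  · intro k hk l hl
    rw [hval]
    exact (hg p hp).pair k hk l hl
  · intro k hk
    rw [hval]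
    exact (hg p hp).norm k hk
  · intro c hc
    refine (hg p hp).ind c fun z hz => ?_
    have h1 := hc (((0 : ℚ), (0 : ℚ)), z) ⟨ZZ.zero_mem, hz⟩
    have h2 : (∑ k ∈ Finset.range (i p), (c k : ℚ) • ((((0 : ℚ), (0 : ℚ)), g p k) : PV X)) =
        (((0 : ℚ), (0 : ℚ)), ∑ k ∈ Finset.range (i p), (c k : ℚ) • g p k) := by
      refine Prod.ext ?_ ?_
      · rw [Prod.fst_sum]
        refine Finset.sum_eq_zero fun k _ => ?_
        change (c k : ℚ) • ((0 : ℚ), (0 : ℚ)) = 0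
        exact smul_zero _
      · rw [Prod.snd_sum]
        rfl
    rw [h2, hval] at h1
    exact h1
  · have h3 : Cut (PF BX) (PL N) S i (fun p k => (((0 : ℚ), (0 : ℚ)), g p k)) =
        ZZ.prod (Cut (sF F8 BX) ((Zk 8).prod N) S i g) := by
      refine AddSubgroup.ext fun x => ?_
      constructor
      · rintro ⟨⟨h4, h5⟩, h6⟩
        refine ⟨h4, h5, fun p hp k hk => ?_⟩
        have h7 := h6 p hp k hk
        rw [hval] at h7
        exact h7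
      · rintro ⟨h4, h5, h6⟩
        refine ⟨⟨h4, h5⟩, fun p hp k hk => ?_⟩
        rw [hval]
        exact h6 p hp k hk
    rw [h3]
    exact hb

private theorem Cfg_hh_pair {a b : ℕ} (ha : a < 4) (hb : b < 4) :
    (2 : ℤ) ∣ bf E8 (hh a) (hh b) := by
  interval_cases a <;> interval_cases b <;> decide

private theorem Cfg_hh_norm {a : ℕ} (ha : a < 4) : bf E8 (hh a) (hh a) = 4 := by
  interval_cases a <;> decide

private theorem Cfg_F8 (u v : Fin 8 → ℤ) : F8 (cz u) (cz v) = ((bf E8 u v : ℤ) : ℚ) :=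
  mF_cz _ u v

private theorem Cfg_val {BX : Frm X} (u v : Fin 8 → ℤ) (n n' : X) :
    sF F8 BX (cz u, n) (cz v, n') = ((bf E8 u v : ℤ) : ℚ) + BX n n' := by
  rw [sF_apply]
  exact congrArg (· + BX n n') (Cfg_F8 u v)

/-- The four vectors are a totally singular family modulo 2.

PROOF.  Products: `bf E8 (hh k) (hh l)` is 4 or 2.  `ind`: `w = ∑_{k<i} c_k hh k`; products of `(cz w, 0)` with `(cz v, 0)` even for all
integral `v` gives `w = 2 w'` (`E8_unimod`), and modulo 2 the `hh k` are `(0,1,1,0,..)`, `(0,0,1,0,1,0,0,0)`, `(0,0,1,0,0,0,1,0)`,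
`(0,0,1,1,0,0,1,1)`, independent: coordinate 1 gives `c_0`, coordinate 4 (and 3, 7) give `c_1`, `c_3`, coordinate 6 gives `c_2 + c_3`. -/
theorem TS_hh {BX : Frm X} {N : AddSubgroup X} {i : ℕ} (hi : i ≤ 4) :
    TS (sF F8 BX) ((Zk 8).prod N) 2 i (fun k => (cz (hh k), (0 : X))) := by
  refine ⟨?_, ?_, ?_, ?_⟩
  · intro k _
    exact ⟨cz_mem _, N.zero_mem⟩
  · intro k hk l hl
    rw [Cfg_val, map_zero, add_zero]
    exact Dv_int.2 (Cfg_hh_pair (by omega) (by omega))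
  · intro k hk
    rw [Cfg_val, map_zero, add_zero, Cfg_hh_norm (by omega)]
    exact Dv_int.2 ⟨1, by norm_num⟩
  · intro c hc
    have h2 : (∑ k ∈ Finset.range i, (c k : ℚ) • ((cz (hh k), (0 : X)) : (Fin 8 → ℚ) × X)) =
        (cz (∑ k ∈ Finset.range i, c k • hh k), 0) := by
      refine Prod.ext ?_ ?_
      · rw [Prod.fst_sum]
        funext j
        rw [Finset.sum_apply]
        simp [cz, Finset.sum_apply]
      · rw [Prod.snd_sum]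
        refine Finset.sum_eq_zero fun k _ => ?_
        change (c k : ℚ) • (0 : X) = 0
        exact smul_zero _
    rw [h2] at hc
    obtain ⟨w', hw'⟩ := MP_dcc566_gt.E8_unimod (k := 2)
      (u := ∑ k ∈ Finset.range i, c k • hh k) (fun v => by
        have h3 := hc (cz v, 0) ⟨cz_mem v, N.zero_mem⟩
        rw [Cfg_val, map_zero, add_zero] at h3
        exact Dv_int.1 h3)
    have h4 : ∀ j, (∑ k ∈ Finset.range i, c k • hh k) j =
        ∑ k ∈ Finset.range 4, (if k < i then c k else 0) * hh k j := by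
      intro j
      rw [Finset.sum_apply]
      interval_cases i <;> simp [Finset.sum_range_succ]
    have h5 : ∀ j, ∑ k ∈ Finset.range 4, (if k < i then c k else 0) * hh k j = 2 * w' j := by
      intro j
      rw [← h4 j, hw']
      rfl
    generalize hc' : (fun k => if k < i then c k else 0) = c' at h5
    have h6 : ∀ k, (if k < i then c k else 0) = c' k := fun k => congrFun hc' k
    simp only [h6] at h5
    have e1 := h5 1
    have e4 := h5 4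
    have e6 := h5 6
    have e7 := h5 7
    rw [Finset.sum_range_succ, Finset.sum_range_succ, Finset.sum_range_succ,
      Finset.sum_range_one] at e1 e4 e6 e7
    have a01 : hh 0 1 = 1 := rfl
    have a04 : hh 0 4 = 0 := rfl
    have a06 : hh 0 6 = 0 := rfl
    have a07 : hh 0 7 = 0 := rfl
    have a11 : hh 1 1 = 2 := rfl
    have a14 : hh 1 4 = 1 := rfl
    have a16 : hh 1 6 = 0 := rfl
    have a17 : hh 1 7 = 0 := rfl
    have a21 : hh 2 1 = 2 := rfl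
    have a24 : hh 2 4 = 2 := rfl
    have a26 : hh 2 6 = 1 := rfl
    have a27 : hh 2 7 = 0 := rfl
    have a31 : hh 3 1 = 2 := rfl
    have a34 : hh 3 4 = 2 := rfl
    have a36 : hh 3 6 = 1 := rfl
    have a37 : hh 3 7 = 1 := rfl
    rw [a01, a11, a21, a31] at e1
    rw [a04, a14, a24, a34] at e4
    rw [a06, a16, a26, a36] at e6
    rw [a07, a17, a27, a37] at e7
    intro k hk
    have h7 : c k = c' k := by
      rw [← h6 k, if_pos hk]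
    rw [h7]
    have hk4 : k < 4 := by omega
    change (2 : ℤ) ∣ c' k
    interval_cases k <;> omega

/-- the common part of the two configurations -/
private theorem Cfg_gen {BX : Frm X} (hBX : Pd BX) {N : AddSubgroup X}
    (M : AddSubgroup ((Fin 8 → ℚ) × X)) (P : (Fin 8 → ℤ) → Prop) (hM : EvL (sF F8 BX) M)
    (hM1 : ∀ u n, P u → n ∈ N → ((cz u, n) : (Fin 8 → ℚ) × X) ∈ M)
    (hM2 : ∀ z ∈ M, ∃ u n, z = ((cz u, n) : (Fin 8 → ℚ) × X) ∧ P u ∧ n ∈ N) (hP0 : P 0)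
    {m N₀ : ℤ} (hm : 0 < m) {v₈ : Fin 8 → ℤ} (hv₈ : P v₈) {y : X} (hy : y ∈ N)
    (hnorm : ((bf E8 v₈ v₈ : ℤ) : ℚ) + BX y y = 2 * m * N₀) {t₈ : Fin 8 → ℤ} {tX : X}
    (ht : t₈ ≠ 0 ∨ tX ≠ 0) {u₀ : Fin 8 → ℤ} (hu₀ : P u₀) {k₀ : ℤ}
    (hk₀ : bf E8 v₈ u₀ = 1 + m * k₀)
    (H1 : ∀ (κ β : ℤ) (u : Fin 8 → ℤ), ∀ n ∈ N, 0 < κ → ¬ m ∣ β → P u →
      (∀ v, P v → κ ∣ bf E8 u v) →
      (∀ n' ∈ N, Dv κ (BX n n')) →
      ((bf E8 (m • u - (κ * β) • v₈) (m • u - (κ * β) • v₈) : ℤ) : ℚ) +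
        BX ((m : ℚ) • n - ((κ * β : ℤ) : ℚ) • y) ((m : ℚ) • n - ((κ * β : ℤ) : ℚ) • y) =
          2 * κ * m ^ 2 →
      ((bf E8 (m • u - (κ * β) • v₈) t₈ : ℤ) : ℚ) +
        BX ((m : ℚ) • n - ((κ * β : ℤ) : ℚ) • y) tX = 0)
    (H2 : ∀ (κ : ℤ) (u : Fin 8 → ℤ), ∀ n ∈ N, 0 < κ → P u → (∀ v, P v → κ ∣ bf E8 u v) →
      (∀ n' ∈ N, Dv κ (BX n n')) → ((bf E8 u u : ℤ) : ℚ) + BX n n = 2 * κ →
      Dv (m * κ) (((bf E8 u v₈ : ℤ) : ℚ) + BX n y) →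
      ((bf E8 u t₈ : ℤ) : ℚ) + BX n tX = 0) :
    BadS (sF HF (sF F8 BX)) (ZZ.prod M) := by
  have hdd : ∀ (κ : ℤ) (u : Fin 8 → ℤ) (n : X),
      (∀ x ∈ M, Dv κ (sF F8 BX (cz u, n) x)) → (∀ v, P v → κ ∣ bf E8 u v) ∧
      ∀ n' ∈ N, Dv κ (BX n n') := by
    intro κ u n h
    constructor
    · intro v hv
      have h1 := h (cz v, 0) (hM1 v 0 hv N.zero_mem)
      rw [Cfg_val, map_zero, add_zero] at h1
      exact Dv_int.1 h1
    · intro n' hn'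
      have h1 := h (cz 0, n') (hM1 0 n' hP0 hn')
      rw [Cfg_val, MP_dcc566_gt.bf_zero_right, Int.cast_zero, zero_add] at h1
      exact h1
  refine gcl (Pd_F8.sF hBX) hM hm (v := (cz v₈, y)) (t := (cz t₈, tX)) (z₀ := (cz u₀, 0))
    (hM1 _ _ hv₈ hy) (N₀ := N₀) ?_ ?_ (hM1 _ _ hu₀ N.zero_mem) (k₀ := k₀) ?_ ?_ ?_
  · rw [Cfg_val]
    exact hnorm
  · intro h
    rcases ht with h1 | h1
    · exact h1 (cz_eq_zero.1 (congrArg Prod.fst h))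
    · exact h1 (congrArg Prod.snd h)
  · rw [Cfg_val, map_zero, add_zero, hk₀]
    push_cast
    ring
  · intro κ β hκ hβ z hz hzx hn
    obtain ⟨u, n, rfl, hu, hnN⟩ := hM2 z hz
    have h1 : (m : ℚ) • ((cz u, n) : (Fin 8 → ℚ) × X) -
        ((κ * β : ℤ) : ℚ) • ((cz v₈, y) : (Fin 8 → ℚ) × X) =
        (cz (m • u - (κ * β) • v₈), (m : ℚ) • n - ((κ * β : ℤ) : ℚ) • y) := by
      refine Prod.ext ?_ rfl
      rw [cz_sub, cz_smul, cz_smul]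
      rfl
    rw [h1, Cfg_val] at hn ⊢
    obtain ⟨h2, h3⟩ := hdd κ u n hzx
    exact H1 κ β u n hnN hκ hβ hu h2 h3 hn
  · intro κ hκ s hs hss hsx hsv
    obtain ⟨u, n, rfl, hu, hnN⟩ := hM2 s hs
    rw [Cfg_val] at hss hsv ⊢
    obtain ⟨h2, h3⟩ := hdd κ u n hsx
    exact H2 κ u n hnN hκ hu h2 h3 hss hsv

/-- GENERAL CONFIGURATION at the prime 2.

PROOF.  `conf_of_M` with `g p k = (cz (hh k), 0)`, `S = {2}` and `TS_hh`; `gcl` with `BZ = sF F8 BX` (`Pd_F8.sF hBX`), `M` the cut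
lattice (even: sublattice of `(Zk 8).prod N`, `EvL_F8.prod hN`), `v = (cz v₈, y)`, `t = (cz t₈, tX)`, `z₀ = (cz u₀, 0)`.
`M = {z : z = (cz u, n), DH i u, n ∈ N}` (`mF_cz`, `Dv_int`).  For `z = (cz u, n) ∈ M` with `κ ∣ (z,x)` for `x ∈ M`: test with
`(cz v, 0)`, `DH i v`: `DD i κ u`; test with `(0,n')`: `Dv κ (BX n n')`.  `m • z - (κβ) • v = (cz (m • u - (κβ) • v₈), m • n - (κβ) • y)`. -/
theorem cfg {BX : Frm X} (hBX : Pd BX) {N : AddSubgroup X} (hN : EvL BX N) {i : ℕ} (hi : i ≤ 4)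
    {m N₀ : ℤ} (hm : 0 < m) {v₈ : Fin 8 → ℤ} (hv₈ : DH i v₈) {y : X} (hy : y ∈ N)
    (hnorm : ((bf E8 v₈ v₈ : ℤ) : ℚ) + BX y y = 2 * m * N₀) {t₈ : Fin 8 → ℤ} {tX : X}
    (ht : t₈ ≠ 0 ∨ tX ≠ 0) {u₀ : Fin 8 → ℤ} (hu₀ : DH i u₀) {k₀ : ℤ}
    (hk₀ : bf E8 v₈ u₀ = 1 + m * k₀)
    (H1 : ∀ (κ β : ℤ) (u : Fin 8 → ℤ), ∀ n ∈ N, 0 < κ → ¬ m ∣ β → DH i u → DD i κ u →
      (∀ n' ∈ N, Dv κ (BX n n')) →
      ((bf E8 (m • u - (κ * β) • v₈) (m • u - (κ * β) • v₈) : ℤ) : ℚ) +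
        BX ((m : ℚ) • n - ((κ * β : ℤ) : ℚ) • y) ((m : ℚ) • n - ((κ * β : ℤ) : ℚ) • y) =
          2 * κ * m ^ 2 →
      ((bf E8 (m • u - (κ * β) • v₈) t₈ : ℤ) : ℚ) +
        BX ((m : ℚ) • n - ((κ * β : ℤ) : ℚ) • y) tX = 0)
    (H2 : ∀ (κ : ℤ) (u : Fin 8 → ℤ), ∀ n ∈ N, 0 < κ → DH i u → DD i κ u →
      (∀ n' ∈ N, Dv κ (BX n n')) → ((bf E8 u u : ℤ) : ℚ) + BX n n = 2 * κ →
      Dv (m * κ) (((bf E8 u v₈ : ℤ) : ℚ) + BX n y) →
      ((bf E8 u t₈ : ℤ) : ℚ) + BX n tX = 0) :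
    Conf (PF BX) (PL N) {2} (fun _ => i) := by
  refine conf_of_M (g := fun _ k => (cz (hh k), (0 : X))) ?_ ?_
  · intro p hp
    rw [Finset.mem_singleton] at hp
    subst hp
    exact TS_hh hi
  · refine Cfg_gen hBX _ (DH i) ?_ ?_ ?_ ?_ hm hv₈ hy hnorm ht hu₀ hk₀ H1 H2
    · intro x hx
      exact (EvL_F8.prod hN) x hx.1
    · intro u n hu hn
      refine ⟨⟨cz_mem u, hn⟩, fun p hp k hk => ?_⟩
      rw [Finset.mem_singleton] at hp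
      subst hp
      rw [Cfg_val, map_zero, LinearMap.zero_apply, add_zero]
      exact Dv_int.2 (hu k hk)
    · rintro ⟨z1, n⟩ ⟨⟨⟨u, hu⟩, hn⟩, h⟩
      have hz1 : z1 = cz u := hu
      subst hz1
      refine ⟨u, n, rfl, ?_, hn⟩
      intro k hk
      have h1 := h 2 (Finset.mem_singleton_self 2) k hk
      rw [Cfg_val, map_zero, LinearMap.zero_apply, add_zero] at h1
      exact Dv_int.1 h1
    · intro k _
      rw [MP_dcc566_gt.bf_zero_right]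
      exact dvd_zero _

/-- The same for the full lattice `U ⊕ E₈ ⊕ N` (no condition at 2).  (`gcl` with `M = (Zk 8).prod N`; `DD 0 κ u` says `κ ∣ bf u v` for
all `v`, because `DH 0 v` is empty.) -/
theorem cfg0 {BX : Frm X} (hBX : Pd BX) {N : AddSubgroup X} (hN : EvL BX N)
    {m N₀ : ℤ} (hm : 0 < m) {v₈ : Fin 8 → ℤ} {y : X} (hy : y ∈ N)
    (hnorm : ((bf E8 v₈ v₈ : ℤ) : ℚ) + BX y y = 2 * m * N₀) {t₈ : Fin 8 → ℤ} {tX : X}
    (ht : t₈ ≠ 0 ∨ tX ≠ 0) {u₀ : Fin 8 → ℤ} {k₀ : ℤ}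
    (hk₀ : bf E8 v₈ u₀ = 1 + m * k₀)
    (H1 : ∀ (κ β : ℤ) (u : Fin 8 → ℤ), ∀ n ∈ N, 0 < κ → ¬ m ∣ β → (∀ v, κ ∣ bf E8 u v) →
      (∀ n' ∈ N, Dv κ (BX n n')) →
      ((bf E8 (m • u - (κ * β) • v₈) (m • u - (κ * β) • v₈) : ℤ) : ℚ) +
        BX ((m : ℚ) • n - ((κ * β : ℤ) : ℚ) • y) ((m : ℚ) • n - ((κ * β : ℤ) : ℚ) • y) =
          2 * κ * m ^ 2 →
      ((bf E8 (m • u - (κ * β) • v₈) t₈ : ℤ) : ℚ) +
        BX ((m : ℚ) • n - ((κ * β : ℤ) : ℚ) • y) tX = 0)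
    (H2 : ∀ (κ : ℤ) (u : Fin 8 → ℤ), ∀ n ∈ N, 0 < κ → (∀ v, κ ∣ bf E8 u v) →
      (∀ n' ∈ N, Dv κ (BX n n')) → ((bf E8 u u : ℤ) : ℚ) + BX n n = 2 * κ →
      Dv (m * κ) (((bf E8 u v₈ : ℤ) : ℚ) + BX n y) →
      ((bf E8 u t₈ : ℤ) : ℚ) + BX n tX = 0) :
    BadS (PF BX) (PL N) := by
  refine Cfg_gen hBX ((Zk 8).prod N) (fun _ => True) (EvL_F8.prod hN) ?_ ?_ trivial hm trivial
    hy hnorm ht (u₀ := u₀) trivial hk₀ ?_ ?_
  · intro u n _ hn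
    exact ⟨cz_mem u, hn⟩
  · rintro ⟨z1, n⟩ ⟨⟨u, hu⟩, hn⟩
    have hz1 : z1 = cz u := hu
    subst hz1
    exact ⟨u, n, rfl, trivial, hn⟩
  · intro κ β u n hn hκ hβ _ h1 h2 h3
    exact H1 κ β u n hn hκ hβ (fun v => h1 v trivial) h2 h3
  · intro κ u n hn hκ _ h1 h2 h3 h4
    exact H2 κ u n hn hκ (fun v => h1 v trivial) h2 h3 h4

end Pool.Agent.RFN
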