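import Mathlib
import Pool.Agent.Lib.MP_dcc566_gt_R.Bas

/-!
# Generalized roots of the lattices cut out of `E₈ ⊕ N`
-/

set_option autoImplicit false

namespace Pool.Agent.RFN

open MP_dcc566_gt (bf E8)

variable {X : Type} [AddCommGroup X] [Module ℚ X]

/-- Integer valued additive maps. -/
private theorem Scl1_lift {A : Type} [AddCommGroup A] (ψ : A →+ ℚ) (h : ∀ z, IsZ (ψ z)) :
    ∃ g : A →+ ℤ, ∀ z, ((g z : ℤ) : ℚ) = ψ z := by
  choose g hg using h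
  refine ⟨⟨⟨g, ?_⟩, ?_⟩, fun z => (hg z).symm⟩
  · have h0 := hg 0
    rw [map_zero] at h0
    exact_mod_cast h0.symm
  · intro a b
    have h0 := hg (a + b)
    rw [map_add, hg a, hg b] at h0
    have h1 : ((g a + g b : ℤ) : ℚ) = ((g (a + b) : ℤ) : ℚ) := by
      push_cast
      exact h0
    exact (by exact_mod_cast h1 : g a + g b = g (a + b)).symm

private theorem Scl1_coprime {p q : ℕ} (hp : p.Prime) (hq : q.Prime) (h : p ≠ q) :
    IsCoprime (p : ℤ) (q : ℤ) :=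
  Nat.isCoprime_iff_coprime.2 ((Nat.coprime_primes hp hq).2 h)

/-- Linear algebra modulo `p`: an integer valued function on a group `A` which is additive and divisible by `p` on the common
kernel modulo `p` of finitely many additive functions is a combination of them modulo `p`.

PROOF.  Induction on `n`, or: consider the homomorphism `A → (ZMod p)^n`, `z ↦ (g k z)_k`, with range a subspace `W`; `φ mod p` factors
through `W` (kernel condition), is `ZMod p`-linear on `W`, extends to a linear functional on `(ZMod p)^n`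
(`LinearMap.exists_extend`), with coefficients `c k`. -/
theorem functional_mod {A : Type} [AddCommGroup A] {p : ℕ} (hp : p.Prime) (n : ℕ)
    (g : ℕ → A →+ ℤ) (φ : A →+ ℤ)
    (h : ∀ z : A, (∀ k < n, (p : ℤ) ∣ g k z) → (p : ℤ) ∣ φ z) :
    ∃ c : ℕ → ℤ, ∀ z : A, (p : ℤ) ∣ φ z - ∑ k ∈ Finset.range n, c k * g k z := by
  induction n generalizing φ with
  | zero =>
    refine ⟨fun _ => 0, fun z => ?_⟩
    simp only [Finset.range_zero, Finset.sum_empty, sub_zero]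
    exact h z (fun k hk => absurd hk (Nat.not_lt_zero k))
  | succ n ih =>
    have hsum : ∀ (c : ℕ → ℤ) (a : ℤ) (z : A),
        ∑ k ∈ Finset.range (n + 1), (if k = n then a else c k) * g k z =
          ∑ k ∈ Finset.range n, c k * g k z + a * g n z := by
      intro c a z
      rw [Finset.sum_range_succ, if_pos rfl]
      congr 1
      refine Finset.sum_congr rfl fun k hk => ?_
      rw [if_neg (Finset.mem_range.1 hk).ne]
    by_cases hz : ∀ z : A, (∀ k < n, (p : ℤ) ∣ g k z) → (p : ℤ) ∣ g n z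
    · obtain ⟨c, hc⟩ := ih φ (fun z hz' => h z (fun k hk => by
        rcases Nat.lt_succ_iff_lt_or_eq.1 hk with h1 | h1
        · exact hz' k h1
        · rw [h1]
          exact hz z hz'))
      refine ⟨fun k => if k = n then 0 else c k, fun z => ?_⟩
      rw [hsum]
      simpa using hc z
    · push Not at hz
      obtain ⟨z0, hz0, hn0⟩ := hz
      have hcop : IsCoprime (p : ℤ) (g n z0) :=
        ((Nat.prime_iff_prime_int.1 hp).coprime_iff_not_dvd).2 hn0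
      obtain ⟨u, v, huv⟩ := hcop
      obtain ⟨c, hc⟩ := ih (φ - (φ z0 * v) • g n) (fun z hz' => by
        have h1 : (p : ℤ) ∣ φ (z - (v * g n z) • z0) := by
          refine h _ (fun k hk => ?_)
          rw [map_sub, map_zsmul, smul_eq_mul]
          rcases Nat.lt_succ_iff_lt_or_eq.1 hk with h1 | h1
          · exact dvd_sub (hz' k h1) (Dvd.dvd.mul_left (hz0 k h1) _)
          · rw [h1]
            refine ⟨u * g n z, ?_⟩
            linear_combination (-(g n z)) * huv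
        rw [map_sub, map_zsmul, smul_eq_mul] at h1
        have e : (φ - (φ z0 * v) • g n) z = φ z - v * g n z * φ z0 := by
          simp only [AddMonoidHom.sub_apply, AddMonoidHom.smul_apply, smul_eq_mul]
          ring
        rw [e]
        exact h1)
      refine ⟨fun k => if k = n then φ z0 * v else c k, fun z => ?_⟩
      rw [hsum]
      have h2 := hc z
      have e : (φ - (φ z0 * v) • g n) z = φ z - φ z0 * v * g n z := by
        simp only [AddMonoidHom.sub_apply, AddMonoidHom.smul_apply, smul_eq_mul]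
      rw [e] at h2
      have e2 : φ z - (∑ k ∈ Finset.range n, c k * g k z + φ z0 * v * g n z) =
          φ z - φ z0 * v * g n z - ∑ k ∈ Finset.range n, c k * g k z := by ring
      rw [e2]
      exact h2

/-- STRUCTURE OF ROOTS.  `M` = vectors of `Z₀ = (Zk 8).prod N` orthogonal mod `p` to `(cz (x p k), y p k)`, `k < i p`, `p ∈ S`.

PROOF.  Write `r = (cz u₁, u₂)`, `(·,·)` for `sF F8 BX`; all products on `Z₀` are integers (`EvL.isZ`).  Let `T = {p ∈ S : p ∣ κ}`,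
`D = ∏_{p∈T} p`, which divides `κ` (distinct primes), `κ = D κ₁`, `κ₁ > 0`.  Let `D' = ∏_{p∈S} p = D D''`.  For `z ∈ Z₀`, `D' z ∈ M`,
so `κ ∣ D' (r,z)`, `κ₁ ∣ D'' (r,z)`.  For `p ∣ D''` (`p ∈ S`, `p ∤ κ`) `p ∤ κ₁`, so `κ₁` is coprime to `D''` and `κ₁ ∣ (r,z)` for all `z ∈ Z₀`.
With `z = (cz v, 0)`: `u₁ = κ₁ u₁'` (`E8_unimod`).  Put `φ z = (r,z)/κ₁`, an additive integer valued function on `Z₀`.
For `p ∈ T`: let `z ∈ Z₀` with `p ∣ ((cz (x p k), y p k), z)` for all `k < i p`.  Then `(D'/p) z ∈ M`, so `κ ∣ (D'/p) (r,z) = (D'/p) κ₁ φ z`,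
`p ∣ D ∣ (D'/p) φ z`, and `p ∤ D'/p`: `p ∣ φ z`.  `functional_mod` (with `A = Z₀`, `g k z = ((cz (x p k), y p k), z)`) gives `c`.
`z = (cz v, 0)`: `bf u₁' v = ∑ c_k bf (x p k) v mod p` for all `v`, so `u₁' - ∑ c_k x p k = p w` (`E8_unimod`).  `z = (0,n)`:
`BX u₂ n /κ₁ = ∑ c_k BX (y p k) n mod p`, i.e. the last claim. -/
theorem scl_root {BX : Frm X} (hBX : ∀ a b, BX a b = BX b a) {N : AddSubgroup X}
    (hN : EvL BX N) {S : Finset ℕ} (hS : ∀ p ∈ S, p.Prime) {i : ℕ → ℕ} {x : ℕ → ℕ → Fin 8 → ℤ}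
    {y : ℕ → ℕ → X} (hy : ∀ p ∈ S, ∀ k < i p, y p k ∈ N) {u₁ : Fin 8 → ℤ} {u₂ : X} (hu₂ : u₂ ∈ N)
    {κ : ℤ} (hκ : 0 < κ)
    (hdiv : ∀ z ∈ Cut (sF F8 BX) ((Zk 8).prod N) S i (fun p k => (cz (x p k), y p k)),
      Dv κ (sF F8 BX (cz u₁, u₂) z)) :
    ∃ (T : Finset ℕ) (κ₁ : ℤ) (u₁' : Fin 8 → ℤ), T ⊆ S ∧ 0 < κ₁ ∧ κ = (∏ p ∈ T, (p : ℤ)) * κ₁ ∧
      u₁ = κ₁ • u₁' ∧ ∀ p ∈ T, ∃ c : ℕ → ℤ,
        (∃ w : Fin 8 → ℤ, u₁' = ∑ k ∈ Finset.range (i p), c k • x p k + (p : ℤ) • w) ∧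
        ∀ n ∈ N, Dv (κ₁ * p)
          (BX u₂ n - κ₁ * ∑ k ∈ Finset.range (i p), (c k : ℚ) * BX (y p k) n) := by
  classical
  -- the lattice `Z₀`
  set Z₀ : AddSubgroup ((Fin 8 → ℚ) × X) := (Zk 8).prod N with hZ₀
  have hsym : ∀ a b, sF F8 BX a b = sF F8 BX b a := sF_symm Pd_F8.symm hBX
  have hEv : EvL (sF F8 BX) Z₀ := EvL.prod EvL_F8 hN
  have hr : ((cz u₁, u₂) : (Fin 8 → ℚ) × X) ∈ Z₀ := ⟨cz_mem u₁, hu₂⟩
  have hf : ∀ p ∈ S, ∀ k < i p, ((cz (x p k), y p k) : (Fin 8 → ℚ) × X) ∈ Z₀ :=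
    fun p hp k hk => ⟨cz_mem _, hy p hp k hk⟩
  -- multiples in `M`
  have hM : ∀ (E : ℤ) (z : (Fin 8 → ℚ) × X), z ∈ Z₀ →
      (∀ p ∈ S, ∀ k < i p, Dv p ((E : ℚ) * sF F8 BX (cz (x p k), y p k) z)) →
      Dv κ ((E : ℚ) * sF F8 BX (cz u₁, u₂) z) := by
    intro E z hz hE
    have h1 : E • z ∈ Cut (sF F8 BX) Z₀ S i (fun p k => (cz (x p k), y p k)) := by
      refine ⟨Z₀.zsmul_mem hz E, fun p hp k hk => ?_⟩
      have h2 := hE p hp k hk
      rw [map_zsmul, zsmul_eq_mul]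
      exact h2
    have h3 := hdiv _ h1
    rw [map_zsmul, zsmul_eq_mul] at h3
    exact h3
  set T : Finset ℕ := S.filter (fun p => (p : ℤ) ∣ κ) with hT
  have hTS : T ⊆ S := Finset.filter_subset _ _
  have hDκ : (∏ p ∈ T, (p : ℤ)) ∣ κ := by
    refine Finset.prod_dvd_of_coprime ?_ ?_
    · intro p hp q hq hpq
      exact Scl1_coprime (hS p (hTS hp)) (hS q (hTS hq)) hpq
    · intro p hp
      exact (Finset.mem_filter.1 hp).2
  obtain ⟨κ₁, hκ₁⟩ := hDκ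
  set D : ℤ := ∏ p ∈ T, (p : ℤ) with hD
  have hD0 : 0 < D := Finset.prod_pos fun p hp => by
    exact_mod_cast (hS p (hTS hp)).pos
  have hκ₁0 : 0 < κ₁ := by
    rw [hκ₁] at hκ
    exact (mul_pos_iff_of_pos_left hD0).1 hκ
  have hκ₁q : (κ₁ : ℚ) ≠ 0 := by exact_mod_cast hκ₁0.ne'
  -- divisibility by `κ₁`
  have hdiv1 : ∀ z ∈ Z₀, Dv κ₁ (sF F8 BX (cz u₁, u₂) z) := by
    intro z hz
    obtain ⟨m, hm⟩ := EvL.isZ hsym hEv hr hz
    have h1 := hM (∏ p ∈ S, (p : ℤ)) z hz (fun p hp k hk => by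
      obtain ⟨a, ha⟩ := EvL.isZ hsym hEv (hf p hp k hk) hz
      rw [ha, ← Int.cast_mul, Dv_int]
      exact Dvd.dvd.mul_right (Finset.dvd_prod_of_mem (fun p : ℕ => (p : ℤ)) hp) _)
    rw [hm, ← Int.cast_mul, Dv_int] at h1
    rw [hm, Dv_int]
    have h2 : ∏ p ∈ S, (p : ℤ) = D * ∏ p ∈ S \ T, (p : ℤ) := by
      rw [hD, mul_comm, Finset.prod_sdiff hTS]
    rw [h2, hκ₁, mul_assoc] at h1
    have h3 : κ₁ ∣ (∏ p ∈ S \ T, (p : ℤ)) * m := (mul_dvd_mul_iff_left hD0.ne').1 h1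
    have h4 : IsCoprime κ₁ (∏ p ∈ S \ T, (p : ℤ)) := by
      refine IsCoprime.prod_right fun p hp => ?_
      rw [Finset.mem_sdiff] at hp
      have hpp := Nat.prime_iff_prime_int.1 (hS p hp.1)
      refine (hpp.coprime_iff_not_dvd.2 fun h5 => hp.2 ?_).symm
      rw [hT, Finset.mem_filter]
      exact ⟨hp.1, hκ₁ ▸ Dvd.dvd.mul_left h5 _⟩
    exact h4.dvd_of_dvd_mul_left h3
  have hpair : ∀ v : Fin 8 → ℤ, sF F8 BX (cz u₁, u₂) (cz v, 0) = ((bf E8 u₁ v : ℤ) : ℚ) := by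
    intro v
    rw [sF_apply]
    simp only [map_zero, add_zero]
    exact mF_cz _ _ _
  obtain ⟨u₁', hu₁'⟩ := MP_dcc566_gt.E8_unimod (k := κ₁) (u := u₁) (fun v => by
    have h1 := hdiv1 (cz v, 0) ⟨cz_mem v, N.zero_mem⟩
    rw [hpair, Dv_int] at h1
    exact h1)
  refine ⟨T, κ₁, u₁', hTS, hκ₁0, hκ₁, hu₁', ?_⟩
  -- the functionals
  obtain ⟨φ, hφ⟩ := Scl1_lift (A := Z₀)
    (ψ := ((AddMonoidHom.mulLeft ((κ₁ : ℚ)⁻¹)).comp
      ((sF F8 BX (cz u₁, u₂)).toAddMonoidHom.comp Z₀.subtype))) (fun z => by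
      obtain ⟨m, hm⟩ := hdiv1 z.1 z.2
      refine ⟨m, ?_⟩
      change (κ₁ : ℚ)⁻¹ * (sF F8 BX (cz u₁, u₂) z.1) = m
      rw [hm]
      field_simp)
  have hφ' : ∀ z : Z₀, (κ₁ : ℚ) * ((φ z : ℤ) : ℚ) = sF F8 BX (cz u₁, u₂) z.1 := by
    intro z
    rw [hφ z]
    change (κ₁ : ℚ) * ((κ₁ : ℚ)⁻¹ * (sF F8 BX (cz u₁, u₂) z.1)) = _
    field_simp
  intro p hp
  have hpS : p ∈ S := hTS hp
  have hpp := hS p hpS
  have hpZ := Nat.prime_iff_prime_int.1 hpp
  have hg : ∀ k : ℕ, ∃ g : Z₀ →+ ℤ, k < i p → ∀ z : Z₀,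
      ((g z : ℤ) : ℚ) = sF F8 BX (cz (x p k), y p k) z.1 := by
    intro k
    by_cases hk : k < i p
    · obtain ⟨g, hg⟩ := Scl1_lift (A := Z₀)
        (ψ := (sF F8 BX (cz (x p k), y p k)).toAddMonoidHom.comp Z₀.subtype)
        (fun z => EvL.isZ hsym hEv (hf p hpS k hk) z.2)
      exact ⟨g, fun _ => hg⟩
    · exact ⟨0, fun h => absurd h hk⟩
  choose g hg using hg
  obtain ⟨c, hc⟩ := functional_mod hpp (i p) g φ (fun z hz => by
    have h1 := hM (∏ q ∈ S.erase p, (q : ℤ)) z.1 z.2 (fun q hq k hk => by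
      by_cases hqp : q = p
      · subst hqp
        rw [← hg k hk z, ← Int.cast_mul, Dv_int]
        exact Dvd.dvd.mul_left (hz k hk) _
      · obtain ⟨a, ha⟩ := EvL.isZ hsym hEv (hf q hq k hk) z.2
        rw [ha, ← Int.cast_mul, Dv_int]
        exact Dvd.dvd.mul_right (Finset.dvd_prod_of_mem (fun p : ℕ => (p : ℤ))
          (Finset.mem_erase.2 ⟨hqp, hq⟩)) _)
    rw [← hφ' z, ← Int.cast_mul, ← Int.cast_mul, Dv_int, hκ₁] at h1
    have h2 : D * κ₁ ∣ ((∏ q ∈ S.erase p, (q : ℤ)) * φ z) * κ₁ := by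
      refine dvd_trans h1 (dvd_of_eq ?_)
      ring
    have h3 : D ∣ (∏ q ∈ S.erase p, (q : ℤ)) * φ z := (mul_dvd_mul_iff_right hκ₁0.ne').1 h2
    have h4 : (p : ℤ) ∣ (∏ q ∈ S.erase p, (q : ℤ)) * φ z :=
      dvd_trans (Finset.dvd_prod_of_mem (fun p : ℕ => (p : ℤ)) hp) h3
    rcases hpZ.dvd_or_dvd h4 with h5 | h5
    · exfalso
      obtain ⟨q, hq, hpq⟩ := (Prime.dvd_finset_prod_iff hpZ _).1 h5
      rw [Finset.mem_erase] at hq
      have h6 : p ∣ q := by exact_mod_cast hpq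
      exact hq.1 ((Nat.prime_dvd_prime_iff_eq hpp (hS q hq.2)).1 h6).symm
    · exact h5)
  refine ⟨c, ?_, ?_⟩
  · have h1 : ∀ v : Fin 8 → ℤ,
        (p : ℤ) ∣ bf E8 (u₁' - ∑ k ∈ Finset.range (i p), c k • x p k) v := by
      intro v
      have hv : ((cz v, 0) : (Fin 8 → ℚ) × X) ∈ Z₀ := ⟨cz_mem v, N.zero_mem⟩
      have h2 := hc ⟨(cz v, 0), hv⟩
      have h3 : φ ⟨(cz v, 0), hv⟩ = bf E8 u₁' v := by
        have h4 := hφ' ⟨(cz v, 0), hv⟩
        simp only at h4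
        rw [hpair, hu₁', MP_dcc566_gt.bf_smul_left] at h4
        push_cast at h4
        have h5 := mul_left_cancel₀ hκ₁q h4
        exact_mod_cast h5
      have h4 : ∀ k ∈ Finset.range (i p), c k * g k ⟨(cz v, 0), hv⟩ = c k * bf E8 (x p k) v := by
        intro k hk
        have h5 := hg k (Finset.mem_range.1 hk) ⟨(cz v, 0), hv⟩
        rw [sF_apply] at h5
        simp only [map_zero, add_zero] at h5
        rw [mF_cz] at h5
        have h6 : g k ⟨(cz v, 0), hv⟩ = bf E8 (x p k) v := by exact_mod_cast h5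
        rw [h6]
      rw [h3, Finset.sum_congr rfl h4] at h2
      have h5 : bf E8 (∑ k ∈ Finset.range (i p), c k • x p k) v =
          ∑ k ∈ Finset.range (i p), c k * bf E8 (x p k) v := by
        have h6 : ∀ s : Finset ℕ, bf E8 (∑ k ∈ s, c k • x p k) v = ∑ k ∈ s, c k * bf E8 (x p k) v := by
          intro s
          induction s using Finset.induction_on with
          | empty => simp [MP_dcc566_gt.bf_zero_left]
          | insert a s ha ih =>
            rw [Finset.sum_insert ha, Finset.sum_insert ha, MP_dcc566_gt.bf_add_left,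
              MP_dcc566_gt.bf_smul_left, ih]
        exact h6 _
      rw [MP_dcc566_gt.bf_sub_left, h5]
      exact h2
    obtain ⟨w, hw⟩ := MP_dcc566_gt.E8_unimod h1
    refine ⟨w, ?_⟩
    rw [← hw]
    abel
  · intro n hn
    have hv : ((0, n) : (Fin 8 → ℚ) × X) ∈ Z₀ := ⟨(Zk 8).zero_mem, hn⟩
    obtain ⟨m, hm⟩ := hc ⟨(0, n), hv⟩
    have h3 := hφ' ⟨(0, n), hv⟩
    rw [sF_apply] at h3
    simp only [map_zero, zero_add] at h3
    have h4 : ∀ k ∈ Finset.range (i p),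
        (c k : ℚ) * ((g k ⟨(0, n), hv⟩ : ℤ) : ℚ) = (c k : ℚ) * BX (y p k) n := by
      intro k hk
      have h5 := hg k (Finset.mem_range.1 hk) ⟨(0, n), hv⟩
      rw [sF_apply] at h5
      simp only [map_zero, zero_add] at h5
      rw [h5]
    refine ⟨m, ?_⟩
    rw [← h3, ← Finset.sum_congr rfl h4]
    have h5 : ((φ ⟨(0, n), hv⟩ : ℤ) : ℚ) -
        ∑ k ∈ Finset.range (i p), (c k : ℚ) * ((g k ⟨(0, n), hv⟩ : ℤ) : ℚ) = (p : ℚ) * m := by
      have := congrArg (Int.cast : ℤ → ℚ) hm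
      push_cast at this
      exact this
    push_cast
    linear_combination (κ₁ : ℚ) * h5

end Pool.Agent.RFN
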