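import Mathlib
import Pool.Agent.Lib.MP_dcc566_gt_R.Scl1
import Pool.Agent.Lib.MP_dcc566_gt_R.Cfg

/-!
# Standard cusps, totally singular `E₈`-parts
-/

set_option autoImplicit false

namespace Pool.Agent.RFN

open MP_dcc566_gt (bf E8)

variable {X : Type} [AddCommGroup X] [Module ℚ X]

open MP_dcc566_gt (bf_add_left bf_add_right bf_smul_left bf_smul_right bf_zero_left
  bf_zero_right E8_comm E8_even E8_pos)

private theorem Scl2_val {BX : Frm X} (u v : Fin 8 → ℤ) (n n' : X) :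
    sF F8 BX (cz u, n) (cz v, n') = ((bf E8 u v : ℤ) : ℚ) + BX n n' := by
  rw [sF_apply]
  exact congrArg (· + BX n n') (mF_cz _ u v)

/-- Independence and totally singular families of `E₈ ⊕ N` from those of `N` (test the radical
condition with `(0,n)`). -/
theorem TS_pair {BX : Frm X} {N : AddSubgroup X} {p i : ℕ} {x : ℕ → Fin 8 → ℤ} {y : ℕ → X}
    (hp : ∀ k < i, ∀ l < i, (p : ℤ) ∣ bf E8 (x k) (x l))
    (hn : ∀ k < i, (2 * p : ℤ) ∣ bf E8 (x k) (x k)) (hy : TS BX N p i y) :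
    TS (sF F8 BX) ((Zk 8).prod N) p i (fun k => (cz (x k), y k)) := by
  refine ⟨?_, ?_, ?_, ?_⟩
  · intro k hk
    exact ⟨cz_mem _, hy.mem k hk⟩
  · intro k hk l hl
    rw [Scl2_val]
    exact (Dv_int.2 (hp k hk l hl)).add (hy.pair k hk l hl)
  · intro k hk
    rw [Scl2_val]
    exact (Dv_int.2 (hn k hk)).add (hy.norm k hk)
  · intro c hc
    refine hy.ind c fun n hn => ?_
    have h1 := hc (0, n) ⟨(Zk 8).zero_mem, hn⟩
    rw [sF_apply, map_zero, zero_add] at h1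
    have h2 : (∑ k ∈ Finset.range i, (c k : ℚ) • ((cz (x k), y k) : (Fin 8 → ℚ) × X)).2 =
        ∑ k ∈ Finset.range i, (c k : ℚ) • y k := by
      rw [Prod.snd_sum]
      rfl
    rw [h2] at h1
    exact h1

private theorem Scl2_sum_dvd {p : ℕ} {n : ℕ} {x : ℕ → Fin 8 → ℤ} (c : ℕ → ℤ) {v : Fin 8 → ℤ}
    (h : ∀ k < n, (p : ℤ) ∣ bf E8 (x k) v) :
    (p : ℤ) ∣ bf E8 (∑ k ∈ Finset.range n, c k • x k) v := by
  induction n with
  | zero =>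
    rw [Finset.sum_range_zero, bf_zero_left]
    exact dvd_zero _
  | succ n ih =>
    rw [Finset.sum_range_succ, bf_add_left, bf_smul_left]
    exact dvd_add (ih fun k hk => h k (by omega)) (Dvd.dvd.mul_left (h n (by omega)) _)

private theorem Scl2_sum_norm {p : ℕ} {n : ℕ} {x : ℕ → Fin 8 → ℤ} (c : ℕ → ℤ)
    (h : ∀ k < n, ∀ l < n, (p : ℤ) ∣ bf E8 (x k) (x l))
    (hn : ∀ k < n, (2 * p : ℤ) ∣ bf E8 (x k) (x k)) :
    (2 * p : ℤ) ∣ bf E8 (∑ k ∈ Finset.range n, c k • x k) (∑ k ∈ Finset.range n, c k • x k) := by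
  induction n with
  | zero =>
    rw [Finset.sum_range_zero, bf_zero_left]
    exact dvd_zero _
  | succ n ih =>
    have h1 := ih (fun k hk l hl => h k (by omega) l (by omega)) (fun k hk => hn k (by omega))
    obtain ⟨a, ha⟩ := Scl2_sum_dvd (n := n) c (v := x n) (fun k hk => h k (by omega) n (by omega))
    obtain ⟨b, hb⟩ := h1
    obtain ⟨d, hd⟩ := hn n (by omega)
    rw [Finset.sum_range_succ]
    set s := ∑ k ∈ Finset.range n, c k • x k with hs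
    have h2 : bf E8 (s + c n • x n) (s + c n • x n) =
        bf E8 s s + 2 * c n * bf E8 s (x n) + c n ^ 2 * bf E8 (x n) (x n) := by
      rw [bf_add_left, bf_add_right, bf_add_right, bf_smul_left, bf_smul_left, bf_smul_right,
        bf_smul_right, E8_comm (x n) s]
      ring
    rw [h2, ha, hb, hd]
    exact ⟨b + c n * a + c n ^ 2 * d, by ring⟩

private theorem Scl2_norm {p : ℕ} {n : ℕ} {x : ℕ → Fin 8 → ℤ} (c : ℕ → ℤ)
    (h : ∀ k < n, ∀ l < n, (p : ℤ) ∣ bf E8 (x k) (x l))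
    (hn : ∀ k < n, (2 * p : ℤ) ∣ bf E8 (x k) (x k)) {u w : Fin 8 → ℤ}
    (hu : u = ∑ k ∈ Finset.range n, c k • x k + (p : ℤ) • w) :
    (2 * p : ℤ) ∣ bf E8 u u := by
  obtain ⟨b, hb⟩ := Scl2_sum_norm c h hn
  obtain ⟨d, hd⟩ := E8_even w
  rw [hu]
  set s := ∑ k ∈ Finset.range n, c k • x k with hs
  have h2 : bf E8 (s + (p : ℤ) • w) (s + (p : ℤ) • w) =
      bf E8 s s + 2 * p * bf E8 s w + (p : ℤ) ^ 2 * bf E8 w w := by
    rw [bf_add_left, bf_add_right, bf_add_right, bf_smul_left, bf_smul_left, bf_smul_right,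
      bf_smul_right, E8_comm w s]
    ring
  rw [h2, hb, hd]
  exact ⟨b + bf E8 s w + p * d, by ring⟩

private theorem Scl2_prod_dvd {T : Finset ℕ} (hT : ∀ p ∈ T, p.Prime) {h : ℤ}
    (hd : ∀ p ∈ T, (p : ℤ) ∣ h) : (∏ p ∈ T, (p : ℤ)) ∣ h := by
  refine Finset.prod_dvd_of_coprime ?_ hd
  intro p hp q hq hpq
  exact Nat.isCoprime_iff_coprime.2 ((Nat.coprime_primes (hT p hp) (hT q hq)).2 hpq)

private theorem Scl2_sq {T : Finset ℕ} (hT : ∀ p ∈ T, p.Prime) {p : ℕ} (hp : p ∈ T) :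
    ¬ ((p : ℤ) ^ 2 ∣ ∏ q ∈ T, (q : ℤ)) := by
  intro h
  rw [← Finset.mul_prod_erase T _ hp, pow_two] at h
  have hp0 : (p : ℤ) ≠ 0 := by exact_mod_cast (hT p hp).ne_zero
  have h1 : (p : ℤ) ∣ ∏ q ∈ T.erase p, (q : ℤ) := (mul_dvd_mul_iff_left hp0).1 h
  have hpp : Prime (p : ℤ) := Nat.prime_iff_prime_int.1 (hT p hp)
  obtain ⟨q, hq, hpq⟩ := (Prime.dvd_finset_prod_iff hpp _).1 h1
  have h2 : p ∣ q := by exact_mod_cast hpq
  have h3 := (Nat.prime_dvd_prime_iff_eq (hT p hp) (hT q (Finset.mem_of_mem_erase hq))).1 h2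
  exact (Finset.ne_of_mem_erase hq) h3.symm

/-- SCL A.

PROOF.  `conf_of_M` (with `TS_pair`) and `scl0` (`BZ = sF F8 BX`, `Pd_F8.sF hBX`,
`t = (cz t₈, 0)`).  Let `s = (cz u₁, u₂) ∈ M`, `(s,s) = bf u₁ u₁ + (u₂,u₂) = 2κ`, `κ ∣ (s,z)` for
`z ∈ M`.  `scl_root`: `T, κ₁, u₁'`, `D = ∏_T p`.
If `u₁' = 0`, `(s,t) = bf u₁ t₈ = 0`.  Let `u₁' ≠ 0`.  For `p ∈ T`: `u₁' = ∑ c_k x_k + p w`, so
`2p ∣ bf u₁' u₁'` (`bf x_k x_l = 0 mod p`, `bf x_k x_k = 0 mod 2p`, `p² bf w w` even multiple of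
`p`.. : the norm is `∑_k c_k² bf x_k x_k + 2 ∑_{k<l} + 2p(..) + p² bf w w`).
Hence `2D ∣ bf u₁' u₁'` (the half norm is divisible by distinct primes), positive:
`bf u₁' u₁' ≥ 2D`.  `κ₁² bf u₁' u₁' + (u₂,u₂) = 2Dκ₁` gives `κ₁ = 1`, `bf u₁' u₁' = 2D`,
`(u₂,u₂) = 0`, `u₂ = 0`.  If `p ∈ T`: for all `n ∈ N`, `p ∣ ∑ c_k (y p k, n)`, so `p ∣ c_k`
(`TS.ind`), `u₁' = p w'`, `2p² ∣ bf u₁' u₁' = 2D`: impossible, `D` is squarefree.  So `T = ∅`,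
`D = 1`, `κ = 1`, `u₁ = u₁'`, `bf u₁ u₁ = 2`, `s = (cz u₁, 0) ∈ M`, so `p ∣ bf (x p k) u₁` for all
`p ∈ S`, `k < i p`, and `ht` gives `bf u₁ t₈ = 0`. -/
theorem sclA {BX : Frm X} (hBX : Pd BX) {N : AddSubgroup X} (hN : EvL BX N) {S : Finset ℕ}
    (hS : ∀ p ∈ S, p.Prime) {i : ℕ → ℕ} {x : ℕ → ℕ → Fin 8 → ℤ} {y : ℕ → ℕ → X}
    (hp : ∀ p ∈ S, ∀ k < i p, ∀ l < i p, (p : ℤ) ∣ bf E8 (x p k) (x p l))
    (hn : ∀ p ∈ S, ∀ k < i p, (2 * p : ℤ) ∣ bf E8 (x p k) (x p k))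
    (hy : ∀ p ∈ S, TS BX N p (i p) (y p)) {t₈ : Fin 8 → ℤ} (ht0 : t₈ ≠ 0)
    (ht : ∀ ρ : Fin 8 → ℤ, bf E8 ρ ρ = 2 → (∀ p ∈ S, ∀ k < i p, (p : ℤ) ∣ bf E8 (x p k) ρ) →
      bf E8 ρ t₈ = 0) :
    Conf (PF BX) (PL N) S i := by
  refine conf_of_M (g := fun p k => (cz (x p k), y p k))
    (fun p hpS => TS_pair (hp p hpS) (hn p hpS) (hy p hpS)) ?_
  refine scl0 (Pd_F8.sF hBX) (fun z hz => (EvL_F8.prod hN) z hz.1) (t := (cz t₈, (0 : X))) ?_ ?_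
  · intro h
    exact ht0 (cz_eq_zero.1 (congrArg Prod.fst h))
  rintro κ hκ ⟨s₁, u₂⟩ hs hss hsx
  obtain ⟨⟨⟨u₁, hu₁⟩, hu₂⟩, hs2⟩ := id hs
  have hs1 : s₁ = cz u₁ := hu₁
  subst hs1
  change u₂ ∈ N at hu₂
  rw [Scl2_val, map_zero, add_zero]
  suffices hgoal : bf E8 u₁ t₈ = 0 by rw [hgoal, Int.cast_zero]
  rw [Scl2_val] at hss
  obtain ⟨T, κ₁, u₁', hTS, hκ₁, hκe, hu, hT⟩ := scl_root hBX.symm hN hS
    (fun p hpS k hk => (hy p hpS).mem k hk) hu₂ hκ hsx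
  by_cases hu0 : u₁' = 0
  · rw [hu, hu0, smul_zero, bf_zero_left]
  have hTp : ∀ p ∈ T, p.Prime := fun p hpT => hS p (hTS hpT)
  set D : ℤ := ∏ p ∈ T, (p : ℤ) with hD
  have hDpos : 0 < D := Finset.prod_pos fun p hpT => by exact_mod_cast (hTp p hpT).pos
  obtain ⟨h, hh⟩ := E8_even u₁'
  have hh2 : bf E8 u₁' u₁' = 2 * h := by rw [hh]; ring
  have hpos : 0 < bf E8 u₁' u₁' := E8_pos _ hu0
  have hDh : D ∣ h := by
    refine Scl2_prod_dvd hTp fun p hpT => ?_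
    obtain ⟨c, ⟨w, hw⟩, -⟩ := hT p hpT
    have h1 := Scl2_norm c (hp p (hTS hpT)) (hn p (hTS hpT)) hw
    rw [hh2] at h1
    exact (mul_dvd_mul_iff_left two_ne_zero).1 h1
  have hhpos : 0 < h := by omega
  have hDle : D ≤ h := Int.le_of_dvd hhpos hDh
  have hnorm : ((κ₁ ^ 2 * (2 * h) : ℤ) : ℚ) + BX u₂ u₂ = ((2 * (D * κ₁) : ℤ) : ℚ) := by
    have h1 : bf E8 u₁ u₁ = κ₁ ^ 2 * (2 * h) := by
      rw [hu, bf_smul_left, bf_smul_right, hh2]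
      ring
    rw [h1, hκe] at hss
    rw [hss]
    push_cast
    ring
  have hBX0 : 0 ≤ BX u₂ u₂ := hBX.nonneg u₂
  have hle : κ₁ ^ 2 * (2 * h) ≤ 2 * (D * κ₁) := by
    have h1 : ((κ₁ ^ 2 * (2 * h) : ℤ) : ℚ) ≤ ((2 * (D * κ₁) : ℤ) : ℚ) := by linarith
    exact_mod_cast h1
  have hle2 : κ₁ * h ≤ D := by
    have h1 : κ₁ * (κ₁ * h) ≤ κ₁ * D := by nlinarith
    exact le_of_mul_le_mul_left h1 hκ₁
  have hκ1 : κ₁ = 1 := by
    by_contra hne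
    have h2 : 2 ≤ κ₁ := by omega
    nlinarith
  subst hκ1
  have hhD : h = D := by omega
  have hu20 : u₂ = 0 := by
    refine hBX.eq_zero ?_
    rw [hhD] at hnorm
    have h1 : ((1 ^ 2 * (2 * D) : ℤ) : ℚ) = ((2 * (D * 1) : ℤ) : ℚ) := by push_cast; ring
    rw [h1] at hnorm
    linarith
  have hu' : u₁ = u₁' := by rw [hu, one_smul]
  have hTe : T = ∅ := by
    rw [Finset.eq_empty_iff_forall_notMem]
    intro p hpT
    obtain ⟨c, ⟨w, hw⟩, hc⟩ := hT p hpT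
    have h1 : ∀ k < i p, (p : ℤ) ∣ c k := by
      refine (hy p (hTS hpT)).ind c fun n hnN => ?_
      have h2 := hc n hnN
      rw [hu20, map_zero, LinearMap.zero_apply, zero_sub, one_mul, Int.cast_one, one_mul] at h2
      have h3 := h2.neg
      rw [neg_neg] at h3
      rw [map_sum, LinearMap.sum_apply]
      simpa only [map_smul, LinearMap.smul_apply, smul_eq_mul] using h3
    have h4 : ∃ w' : Fin 8 → ℤ, u₁' = (p : ℤ) • w' := by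
      choose! d hd using h1
      refine ⟨∑ k ∈ Finset.range (i p), d k • x p k + w, ?_⟩
      rw [hw, smul_add, Finset.smul_sum]
      congr 1
      refine Finset.sum_congr rfl fun k hk => ?_
      rw [hd k (Finset.mem_range.1 hk), mul_smul]
    obtain ⟨w', hw'⟩ := h4
    obtain ⟨e, he⟩ := E8_even w'
    refine Scl2_sq hTp hpT ⟨e, ?_⟩
    have h5 : 2 * h = (p : ℤ) * ((p : ℤ) * (e + e)) := by
      rw [← hh2, hw', bf_smul_left, bf_smul_right, he]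
    have h6 : ∏ q ∈ T, (q : ℤ) = h := by rw [hhD]
    rw [h6]
    linarith [h5]
  have hD1 : D = 1 := by rw [hD, hTe, Finset.prod_empty]
  have hn2 : bf E8 u₁ u₁ = 2 := by rw [hu', hh2, hhD, hD1]; norm_num
  refine ht u₁ hn2 fun p hpS k hk => ?_
  have h7 := hs2 p hpS k hk
  rw [hu20] at h7
  have h8 : sF F8 BX (cz (x p k), y p k) (cz u₁, (0 : X)) = ((bf E8 (x p k) u₁ : ℤ) : ℚ) := by
    rw [Scl2_val, map_zero, add_zero]
  have h9 : Dv p (((bf E8 (x p k) u₁ : ℤ) : ℚ)) := by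
    rw [← h8]
    exact h7
  exact Dv_int.1 h9

end Pool.Agent.RFN
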