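import Mathlib
import Pool.Agent.Lib.MP_dcc566_gt_R.Scl1
import Pool.Agent.Lib.MP_dcc566_gt_R.Cfg

/-!
# Standard cusps, the prime 3
-/

set_option autoImplicit false

namespace Pool.Agent.RFN

open MP_dcc566_gt (bf E8 w4)

variable {X : Type} [AddCommGroup X] [Module ℚ X]

private theorem Scl3_val {BX : Frm X} (u v : Fin 8 → ℤ) (n n' : X) :
    sF F8 BX (cz u, n) (cz v, n') = ((bf E8 u v : ℤ) : ℚ) + BX n n' := by
  rw [sF_apply]
  exact congrArg (· + BX n n') (mF_cz _ u v)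

private theorem Scl3_TS0 {BX : Frm X} {N : AddSubgroup X} {p i : ℕ} {y : ℕ → X}
    (hy : TS BX N p i y) :
    TS (sF F8 BX) ((Zk 8).prod N) p i (fun k => (cz 0, y k)) := by
  have hv : ∀ (a : X) (b : X), sF F8 BX (cz 0, a) (cz 0, b) = BX a b := fun a b => by
    rw [Scl3_val, MP_dcc566_gt.bf_zero_left, Int.cast_zero, zero_add]
  refine ⟨fun k hk => ⟨cz_mem 0, hy.mem k hk⟩, fun k hk l hl => ?_, fun k hk => ?_, fun c hc => ?_⟩
  · rw [hv]
    exact hy.pair k hk l hl
  · rw [hv]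
    exact hy.norm k hk
  · refine hy.ind c fun n hn => ?_
    have h1 := hc (cz 0, n) ⟨cz_mem 0, hn⟩
    have h2 : (∑ k ∈ Finset.range i, (c k : ℚ) • ((cz 0, y k) : (Fin 8 → ℚ) × X)) =
        (cz 0, ∑ k ∈ Finset.range i, (c k : ℚ) • y k) := by
      refine Prod.ext ?_ ?_
      · rw [Prod.fst_sum]
        change ∑ k ∈ Finset.range i, (c k : ℚ) • cz 0 = cz 0
        rw [cz_zero]
        simp
      · rw [Prod.snd_sum]
        rfl
    rw [h2, hv] at h1
    exact h1

private theorem Scl3_TS3 {BX : Frm X} {N : AddSubgroup X} (hBX : Pd BX) (hN : EvL BX N) {y₈ : X}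
    (h8N : y₈ ∈ N) (h8m : Dv 6 (BX y₈ y₈ - 2)) (h8n : ∃ n ∈ N, ¬ Dv 3 (BX y₈ n)) :
    TS (sF F8 BX) ((Zk 8).prod N) 3 1 (fun _ => (cz w4, y₈)) := by
  have hnorm : Dv 6 (sF F8 BX (cz w4, y₈) (cz w4, y₈)) := by
    rw [Scl3_val, MP_dcc566_gt.norm_w4]
    obtain ⟨m, hm⟩ := h8m
    refine ⟨m + 1, ?_⟩
    have : BX y₈ y₈ = 6 * m + 2 := by
      have h := hm
      push_cast at h
      linarith
    rw [this]
    push_cast
    ring
  refine ⟨fun k hk => ⟨cz_mem w4, h8N⟩, fun k hk l hl => ?_, fun k hk => ?_, fun c hc => ?_⟩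
  · exact hnorm.of_dvd ⟨2, by norm_num⟩
  · exact hnorm.of_dvd ⟨1, by norm_num⟩
  · intro k hk
    obtain rfl : k = 0 := by omega
    obtain ⟨n, hn, hn3⟩ := h8n
    have h1 := hc (cz 0, n) ⟨cz_mem 0, hn⟩
    rw [Finset.sum_range_one, map_smul, LinearMap.smul_apply, smul_eq_mul, Scl3_val,
      MP_dcc566_gt.bf_zero_right, Int.cast_zero, zero_add] at h1
    obtain ⟨m, hm⟩ := hN.isZ hBX.symm h8N hn
    rw [hm] at h1 hn3
    have h2 : (3 : ℤ) ∣ c 0 * m := by
      have : Dv 3 (((c 0 * m : ℤ)) : ℚ) := by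
        push_cast
        exact h1
      exact Dv_int.1 this
    have h3 : ¬ (3 : ℤ) ∣ m := fun h => hn3 (Dv_int.2 h)
    have h4 := (Int.prime_three.dvd_mul.1 h2).resolve_right h3
    exact_mod_cast h4

private theorem Scl3_prod {T : Finset ℕ} (hT : ∀ p ∈ T, p.Prime) {u : Fin 8 → ℤ}
    (h : ∀ p ∈ T, ∃ w : Fin 8 → ℤ, u = (p : ℤ) • w) :
    ∃ w : Fin 8 → ℤ, u = (∏ p ∈ T, (p : ℤ)) • w := by
  have h1 : ∀ j, (∏ p ∈ T, (p : ℤ)) ∣ u j := by
    intro j
    refine Finset.prod_dvd_of_coprime ?_ ?_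
    · intro p hp q hq hpq
      exact Nat.isCoprime_iff_coprime.2 ((Nat.coprime_primes (hT p hp) (hT q hq)).2 hpq)
    · intro p hp
      obtain ⟨w, hw⟩ := h p hp
      rw [hw]
      exact ⟨w j, rfl⟩
  choose w hw using h1
  exact ⟨w, funext hw⟩

private theorem Scl3_smul (m : ℤ) (u : Fin 8 → ℤ) :
    bf E8 (m • u) (m • u) = m ^ 2 * bf E8 u u := by
  rw [MP_dcc566_gt.bf_smul_left, MP_dcc566_gt.bf_smul_right]
  ring

private theorem Scl3_two {u : Fin 8 → ℤ} (hu : u ≠ 0) : 2 ≤ bf E8 u u := by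
  obtain ⟨a, ha⟩ := MP_dcc566_gt.E8_even u
  have := MP_dcc566_gt.E8_pos u hu
  omega

private theorem Scl3_sq {a : ℤ} (ha : ¬ (3 : ℤ) ∣ a) : ∃ k, a ^ 2 = 3 * k + 1 := by
  have h : a % 3 = 1 ∨ a % 3 = 2 := by omega
  rcases h with h | h
  · obtain ⟨k, hk⟩ : ∃ k : ℤ, a = 3 * k + 1 := ⟨a / 3, by omega⟩
    exact ⟨3 * k ^ 2 + 2 * k, by rw [hk]; ring⟩
  · obtain ⟨k, hk⟩ : ∃ k : ℤ, a = 3 * k + 2 := ⟨a / 3, by omega⟩
    exact ⟨3 * k ^ 2 + 4 * k + 1, by rw [hk]; ring⟩

/-- SCL B.  `3 ∈ S`, one vector `(w4, y₈)` at 3; vectors `(0, y p k)` at the other primes.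

PROOF.  `x p k = w4` if `p = 3`, `0` otherwise; `y' p k = y₈` if `p = 3`, `y p k` otherwise; `g p k = (cz (x p k), y' p k)`.  `conf_of_M`:
`TS` at `p ≠ 3`: as `TS` of `y` (test with `(0,n)`); at 3: norm `4 + (y₈,y₈) = 0 mod 6`, `ind`: `c_0 (y₈,n) = 0 mod 3` for all `n`
and `h8n` give `3 ∣ c_0`.  `scl0` with `t = (cz w4, 0)`.
Let `s = (cz u₁, u₂) ∈ M`, norm `2κ`, `κ ∣ (s,M)`; `scl_root`: `T, κ₁, u₁'`, `D = ∏_T p`, `κ₁² bf u₁' u₁' + (u₂,u₂) = 2Dκ₁`.  `u₁' = 0`: fine.
For `p ∈ T`, `p ≠ 3`: `u₁' = p w` (all `x p k = 0`).  CASE `3 ∉ T`: `u₁' = D u''` (distinct primes), `bf u₁' u₁' ≥ 2D²`, so `κ₁² 2D² ≤ 2Dκ₁`,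
`D κ₁ ≤ 1`, `κ = 1`, `bf u₁ u₁ = 2`, `u₂ = 0`, and `3 ∣ bf w4 u₁` because `s ∈ M` (`i 3 = 1`): `root_w4`: `bf u₁ w4 = 0`.
CASE `3 ∈ T`: `D = 3 D₂`, `u₁' = D₂ u''`, and `u₁' = c w4 + 3w`; `bf u'' u'' κ₁² D₂² ≤ 6 D₂ κ₁`, so `bf u'' u'' ≤ 6`.  `3 ∤ D₂`.
If `3 ∣ c`: `u₁' = 3w'`, so `u'' = 3w''` (`gcd(3,D₂) = 1`: coordinates), norm `≥ 18`: contradiction.  Otherwise `D₂² bf u'' u'' = c² 4 + 6c(..) + 9 bf w w = 4 mod 6`
and `D₂² = 1 mod 3`: `bf u'' u'' = 1 mod 3` (`= 4 mod 3`), even and `≤ 6`, so it is 4, and `4 κ₁² D₂² ≤ 6D₂κ₁` gives `κ₁ = D₂ = 1`, `D = 3`, `κ = 3`,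
`(u₂,u₂) = 6 - 4 = 2`, and `Dv 3 (BX u₂ n - c BX y₈ n)` for all `n ∈ N`: against `h8`. -/
theorem sclB {BX : Frm X} (hBX : Pd BX) {N : AddSubgroup X} (hN : EvL BX N) {S : Finset ℕ}
    (hS : ∀ p ∈ S, p.Prime) (h3 : 3 ∈ S) {i : ℕ → ℕ} (hi : i 3 = 1) {y : ℕ → ℕ → X}
    (hy : ∀ p ∈ S, p ≠ 3 → TS BX N p (i p) (y p)) {y₈ : X} (h8N : y₈ ∈ N)
    (h8m : Dv 6 (BX y₈ y₈ - 2)) (h8n : ∃ n ∈ N, ¬ Dv 3 (BX y₈ n))
    (h8 : ∀ u ∈ N, ∀ c : ℤ, ¬ (3 : ℤ) ∣ c → (∀ n ∈ N, Dv 3 (BX (u - (c : ℚ) • y₈) n)) →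
      BX u u ≠ 2) :
    Conf (PF BX) (PL N) S i := by
  classical
  have hw4 : w4 ≠ 0 := by
    intro h
    have := congrFun h 0
    revert this
    decide
  refine conf_of_M (g := fun p k => (cz (if p = 3 then w4 else 0), if p = 3 then y₈ else y p k))
    ?_ ?_
  · intro p hp
    by_cases hp3 : p = 3
    · subst hp3
      rw [hi]
      simp only [if_true]
      exact Scl3_TS3 hBX hN h8N h8m h8n
    · simp only [if_neg hp3]
      exact Scl3_TS0 (hy p hp hp3)
  · refine scl0 (Pd_F8.sF hBX) (t := (cz w4, 0)) (fun x hx => (EvL_F8.prod hN) x hx.1) ?_ ?_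
    · intro h
      exact hw4 (cz_eq_zero.1 (congrArg Prod.fst h))
    · rintro κ hκ ⟨s1, u₂⟩ ⟨⟨⟨u₁, hu₁⟩, hu₂⟩, hscut⟩ hss hdiv
      have hs1 : s1 = cz u₁ := hu₁
      have hu₂' : u₂ ∈ N := hu₂
      subst hs1
      rw [Scl3_val, map_zero, add_zero]
      rw [Scl3_val] at hss
      have hgoal : bf E8 u₁ w4 = 0 → ((bf E8 u₁ w4 : ℤ) : ℚ) = 0 := fun h => by
        rw [h, Int.cast_zero]
      apply hgoal
      have hyN : ∀ p ∈ S, ∀ k < i p, (if p = 3 then y₈ else y p k) ∈ N := by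
        intro p hp k hk
        by_cases hp3 : p = 3
        · rw [if_pos hp3]; exact h8N
        · rw [if_neg hp3]; exact (hy p hp hp3).mem k hk
      obtain ⟨T, κ₁, u₁', hTS, hκ₁, hκD, hu₁', hT⟩ := scl_root hBX.symm hN hS
        (x := fun p _ => if p = 3 then w4 else 0) (y := fun p k => if p = 3 then y₈ else y p k)
        hyN hu₂' hκ hdiv
      have hTp : ∀ p ∈ T, p.Prime := fun p hp => hS p (hTS hp)
      obtain ⟨e, he⟩ := hN u₂ hu₂'
      have he0 : 0 ≤ e := by
        have h1 := hBX.nonneg u₂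
        rw [he] at h1
        have h2 : (0 : ℚ) ≤ ((2 * e : ℤ) : ℚ) := by push_cast at h1 ⊢; exact h1
        have h3 : 0 ≤ 2 * e := by exact_mod_cast h2
        omega
      have hnorm : κ₁ ^ 2 * bf E8 u₁' u₁' + 2 * e = 2 * κ := by
        have h1 : ((bf E8 u₁ u₁ + 2 * e : ℤ) : ℚ) = ((2 * κ : ℤ) : ℚ) := by
          rw [he] at hss
          push_cast at hss ⊢
          exact hss
        have h2 : bf E8 u₁ u₁ + 2 * e = 2 * κ := by exact_mod_cast h1
        rw [← h2, hu₁', Scl3_smul]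
      by_cases hu0 : u₁' = 0
      · rw [hu₁', hu0, smul_zero, MP_dcc566_gt.bf_zero_left]
      have hpw : ∀ p ∈ T, p ≠ 3 → ∃ w : Fin 8 → ℤ, u₁' = (p : ℤ) • w := by
        intro p hp hp3
        obtain ⟨c, ⟨w, hw⟩, -⟩ := hT p hp
        refine ⟨w, ?_⟩
        simp only [if_neg hp3, smul_zero, Finset.sum_const_zero, zero_add] at hw
        exact hw
      by_cases h3T : 3 ∈ T
      · -- 3 ∈ T
        exfalso
        obtain ⟨D₂, hD₂⟩ : ∃ D₂ : ℤ, D₂ = ∏ p ∈ T.erase 3, (p : ℤ) := ⟨_, rfl⟩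
        have hD : (∏ p ∈ T, (p : ℤ)) = 3 * D₂ := by
          rw [hD₂, ← Finset.mul_prod_erase T _ h3T]
          rfl
        have hD₂0 : 0 < D₂ := by
          rw [hD₂]
          refine Finset.prod_pos fun p hp => ?_
          exact_mod_cast (hTp p (Finset.mem_of_mem_erase hp)).pos
        have h3D : ¬ (3 : ℤ) ∣ D₂ := by
          rw [hD₂, Int.prime_three.dvd_finsetProd_iff]
          rintro ⟨p, hp, h⟩
          have h1 : 3 ∣ p := by exact_mod_cast h
          have h2 := (Nat.prime_dvd_prime_iff_eq Nat.prime_three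
            (hTp p (Finset.mem_of_mem_erase hp))).1 h1
          exact (Finset.ne_of_mem_erase hp) h2.symm
        obtain ⟨u, hu⟩ := Scl3_prod (T := T.erase 3) (u := u₁')
          (fun p hp => hTp p (Finset.mem_of_mem_erase hp))
          (fun p hp => hpw p (Finset.mem_of_mem_erase hp) (Finset.ne_of_mem_erase hp))
        rw [← hD₂] at hu
        have hu0' : u ≠ 0 := by
          rintro rfl
          exact hu0 (by rw [hu, smul_zero])
        have hb2 := Scl3_two hu0'
        obtain ⟨b, hb⟩ : ∃ b, b = bf E8 u u := ⟨_, rfl⟩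
        rw [← hb] at hb2
        have hbe : Even b := by rw [hb]; exact MP_dcc566_gt.E8_even u
        have hbu : bf E8 u₁' u₁' = D₂ ^ 2 * b := by rw [hu, Scl3_smul, hb]
        obtain ⟨m, hm⟩ : ∃ m, m = κ₁ * D₂ := ⟨_, rfl⟩
        have hm1 : 1 ≤ m := by
          have : 0 < m := by rw [hm]; exact mul_pos hκ₁ hD₂0
          omega
        have hN2 : m ^ 2 * b + 2 * e = 6 * m := by
          rw [hκD, hD, hbu] at hnorm
          rw [hm]
          linear_combination hnorm
        have hmb : m * b ≤ 6 := by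
          by_contra hlt
          have h1 : 7 ≤ m * b := by omega
          have h2 : m * 7 ≤ m * (m * b) := mul_le_mul_of_nonneg_left h1 (by omega)
          nlinarith
        obtain ⟨c, ⟨w, hw⟩, hc⟩ := hT 3 h3T
        rw [hi, Finset.sum_range_one] at hw
        simp only [if_true] at hw
        by_cases hc3 : (3 : ℤ) ∣ c 0
        · obtain ⟨c', hc'⟩ := hc3
          have h1 : ∀ j, (3 : ℤ) ∣ u j := by
            intro j
            have h2 := congrFun hw j
            rw [hu, hc'] at h2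
            have h3 : D₂ * u j = 3 * (c' * w4 j + w j) := by
              simp only [Pi.add_apply, Pi.smul_apply, smul_eq_mul] at h2
              push_cast at h2
              rw [h2]
              ring
            have h4 : (3 : ℤ) ∣ D₂ * u j := ⟨_, h3⟩
            exact (Int.prime_three.dvd_mul.1 h4).resolve_left h3D
          choose v hv using h1
          have hv' : u = (3 : ℤ) • v := funext hv
          have hv0 : v ≠ 0 := by
            rintro rfl
            exact hu0' (by rw [hv', smul_zero])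
          have h2 := Scl3_two hv0
          have h3 : b = 9 * bf E8 v v := by
            rw [hb, hv', Scl3_smul]
            norm_num
          have h4 : b ≤ m * b := le_mul_of_one_le_left (by omega) hm1
          omega
        · have h1 : D₂ ^ 2 * b = 4 * c 0 ^ 2 + 6 * c 0 * bf E8 w4 w + 9 * bf E8 w w := by
            rw [← hbu, hw]
            simp only [MP_dcc566_gt.bf_add_left, MP_dcc566_gt.bf_add_right,
              MP_dcc566_gt.bf_smul_left, MP_dcc566_gt.bf_smul_right, MP_dcc566_gt.norm_w4,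
              MP_dcc566_gt.E8_comm w w4]
            push_cast
            ring
          obtain ⟨k1, hk1⟩ := Scl3_sq hc3
          obtain ⟨k2, hk2⟩ := Scl3_sq h3D
          rw [hk1, hk2] at h1
          have h2 : b ≤ 6 := (le_mul_of_one_le_left (by omega) hm1).trans hmb
          have h3 : ∃ q, b = 3 * q + 1 :=
            ⟨4 * k1 + 1 + 2 * c 0 * bf E8 w4 w + 3 * bf E8 w w - k2 * b, by
              linear_combination h1⟩
          obtain ⟨q, hq⟩ := h3
          obtain ⟨b', hb'⟩ := hbe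
          have hb4 : b = 4 := by omega
          have hm' : m = 1 := by
            rw [hb4] at hmb
            omega
          have hκ1 : κ₁ = 1 := by
            have h5 : κ₁ ≤ κ₁ * D₂ := le_mul_of_one_le_right hκ₁.le (by omega)
            omega
          have he1 : e = 1 := by
            rw [hb4, hm'] at hN2
            omega
          refine h8 u₂ hu₂' (c 0) hc3 ?_ ?_
          · intro n hn
            have h5 := hc n hn
            rw [hi, Finset.sum_range_one, hκ1] at h5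
            simp only [if_true] at h5
            rw [map_sub, LinearMap.sub_apply, map_smul, LinearMap.smul_apply, smul_eq_mul]
            push_cast at h5
            simpa using h5
          · rw [he, he1]
            norm_num
      · -- 3 ∉ T
        obtain ⟨u, hu⟩ := Scl3_prod (T := T) (u := u₁') hTp
          (fun p hp => hpw p hp (fun h => h3T (h ▸ hp)))
        obtain ⟨D, hD⟩ : ∃ D : ℤ, D = ∏ p ∈ T, (p : ℤ) := ⟨_, rfl⟩
        have hD0 : 0 < D := by
          rw [hD]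
          refine Finset.prod_pos fun p hp => ?_
          exact_mod_cast (hTp p hp).pos
        rw [← hD] at hu hκD
        have hu0' : u ≠ 0 := by
          rintro rfl
          exact hu0 (by rw [hu, smul_zero])
        have hb2 := Scl3_two hu0'
        obtain ⟨b, hb⟩ : ∃ b, b = bf E8 u u := ⟨_, rfl⟩
        rw [← hb] at hb2
        have hbu : bf E8 u₁' u₁' = D ^ 2 * b := by rw [hu, Scl3_smul, hb]
        obtain ⟨m, hm⟩ : ∃ m, m = κ₁ * D := ⟨_, rfl⟩
        have hm1 : 1 ≤ m := by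
          have : 0 < m := by rw [hm]; exact mul_pos hκ₁ hD0
          omega
        have hN2 : m ^ 2 * b + 2 * e = 2 * m := by
          rw [hκD, hbu] at hnorm
          rw [hm]
          linear_combination hnorm
        have hmb : m * b ≤ 2 := by
          by_contra hlt
          have h1 : 3 ≤ m * b := by omega
          have h2 : m * 3 ≤ m * (m * b) := mul_le_mul_of_nonneg_left h1 (by omega)
          nlinarith
        have hbm : b ≤ m * b := le_mul_of_one_le_left (by omega) hm1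
        have hb4 : b = 2 := by omega
        have hm' : m = 1 := by
          rw [hb4] at hmb
          omega
        have hκ1 : κ₁ = 1 := by
          have h5 : κ₁ ≤ κ₁ * D := le_mul_of_one_le_right hκ₁.le (by omega)
          omega
        have hD1 : D = 1 := by
          rw [hκ1, one_mul] at hm
          omega
        have he1 : e = 0 := by
          rw [hb4, hm'] at hN2
          omega
        have hu2 : u₂ = 0 := by
          refine hBX.eq_zero ?_
          rw [he, he1]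
          norm_num
        have huu : bf E8 u₁ u₁ = 2 := by
          rw [hu₁', Scl3_smul, hbu, hκ1, hD1, hb4]
          norm_num
        refine MP_dcc566_gt.root_w4 huu ?_
        have h1 := hscut 3 h3 0 (by rw [hi]; exact one_pos)
        simp only [if_true] at h1
        rw [Scl3_val, hu2, map_zero, add_zero] at h1
        rw [MP_dcc566_gt.E8_comm]
        exact Dv_int.1 h1

end Pool.Agent.RFN
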