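import Mathlib
import Pool.Agent.Lib.MP_dcc566_gt_R.LK

/-!
# Existence of totally singular families
-/

set_option autoImplicit false

namespace Pool.Agent.RFN

variable {V : Type} [AddCommGroup V] [Module ℚ V]

private theorem TSex_mono {B : Frm V} {Λ : AddSubgroup V} {p r s : ℕ} (hrs : r ≤ s)
    (h : RkGe B Λ p s) : RkGe B Λ p r := by
  obtain ⟨u, hu, hi⟩ := h
  refine ⟨u, fun i hi => hu i (lt_of_lt_of_le hi hrs), fun c hc i hir => ?_⟩
  have e : ∑ j ∈ Finset.range s, (((if j < r then c j else 0 : ℤ) : ℤ) : ℚ) • u j =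
      ∑ j ∈ Finset.range r, (c j : ℚ) • u j := by
    symm
    refine Finset.sum_subset_zero_on_sdiff (Finset.range_subset_range.2 hrs) ?_ ?_
    · intro j hj
      rw [Finset.mem_sdiff, Finset.mem_range, Finset.mem_range] at hj
      rw [if_neg hj.2, Int.cast_zero, zero_smul]
    · intro j hj
      rw [if_pos (Finset.mem_range.1 hj)]
  have h1 := hi (fun j => if j < r then c j else 0) (fun x hx => by
    rw [e]
    exact hc x hx) i (lt_of_lt_of_le hir hrs)
  simp only [if_pos hir] at h1
  exact h1

/-- PROOF.  Induction on `i`, using `chv` (`LK.lean`, theorem `chv`: if `RkGe B Λ p (2 * k + 3)` and `x 0, ..., x (k-1) ∈ Λ` there is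
`z ∈ Λ`, `p ∣ (x i, z)`, `2p ∣ (z,z)`, and `a z + ∑ c_i x_i` in the radical implies `p ∣ a`).  `i = 0`: any `y` (no conditions).
Step `i → i+1`: `RkGe (2i+3)` gives (`rk_mono`-style restriction) `RkGe (2i+1)`, so `y 0, ..., y (i-1)`; `chv` with `k = i` gives `z`, put
`y i = z`.  `ind`: `∑_{k ≤ i} c_k y_k` in the radical: `p ∣ c_i` by `chv`, then `∑_{k<i} c_k y_k` is in the radical (`c_i (z,x)` is
divisible by `p`, `(z,x)` integer), induction. -/
theorem exists_ts {B : Frm V} (hB : ∀ x y, B x y = B y x) {Λ : AddSubgroup V} (hΛ : EvL B Λ)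
    {p : ℕ} (hp : p.Prime) {i : ℕ} (h : RkGe B Λ p (2 * i + 1)) : ∃ y : ℕ → V, TS B Λ p i y := by
  induction i with
  | zero =>
    refine ⟨fun _ => 0, ?_, ?_, ?_, ?_⟩
    · intro i hi
      exact absurd hi (Nat.not_lt_zero i)
    · intro i hi
      exact absurd hi (Nat.not_lt_zero i)
    · intro i hi
      exact absurd hi (Nat.not_lt_zero i)
    · intro c _ i hi
      exact absurd hi (Nat.not_lt_zero i)
  | succ i ih =>
    obtain ⟨y, hy⟩ := ih (TSex_mono (by omega) h)
    have h3 : RkGe B Λ p (2 * i + 3) := by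
      have e : 2 * (i + 1) + 1 = 2 * i + 3 := by ring
      rwa [e] at h
    obtain ⟨z, hz, hz1, hz2, hz3⟩ := chv hB hΛ hp h3 y hy.mem
    have hyi : ∀ j, j < i → Function.update y i z j = y j := fun j hj =>
      Function.update_of_ne (ne_of_lt hj) z y
    have hyz : Function.update y i z i = z := Function.update_self i z y
    have hzz : Dv p (B z z) := hz2.of_dvd ⟨2, by ring⟩
    refine ⟨Function.update y i z, ?_, ?_, ?_, ?_⟩
    · intro j hj
      rcases Nat.lt_succ_iff_lt_or_eq.1 hj with h1 | h1
      · rw [hyi j h1]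
        exact hy.mem j h1
      · rw [h1, hyz]
        exact hz
    · intro j hj l hl
      rcases Nat.lt_succ_iff_lt_or_eq.1 hj with h1 | h1 <;>
        rcases Nat.lt_succ_iff_lt_or_eq.1 hl with h2 | h2
      · rw [hyi j h1, hyi l h2]
        exact hy.pair j h1 l h2
      · rw [hyi j h1, h2, hyz]
        exact hz1 j h1
      · rw [h1, hyz, hyi l h2, hB]
        exact hz1 l h2
      · rw [h1, h2, hyz]
        exact hzz
    · intro j hj
      rcases Nat.lt_succ_iff_lt_or_eq.1 hj with h1 | h1
      · rw [hyi j h1]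
        exact hy.norm j h1
      · rw [h1, hyz]
        exact hz2
    · intro c hc
      have e : ∑ j ∈ Finset.range (i + 1), (c j : ℚ) • Function.update y i z j =
          (c i : ℚ) • z + ∑ j ∈ Finset.range i, (c j : ℚ) • y j := by
        rw [Finset.sum_range_succ, hyz, add_comm]
        congr 1
        exact Finset.sum_congr rfl fun j hj => by rw [hyi j (Finset.mem_range.1 hj)]
      rw [e] at hc
      have hci := hz3 (c i) c hc
      have hrest := hy.ind c (fun x hx => by
        have h1 := hc x hx
        rw [map_add, LinearMap.add_apply, map_smul, LinearMap.smul_apply, smul_eq_mul] at h1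
        have h2 : Dv p ((c i : ℚ) * B z x) := by
          obtain ⟨q, hq⟩ := EvL.isZ hB hΛ hz hx
          rw [hq]
          obtain ⟨d, hd⟩ := hci
          rw [hd]
          exact ⟨d * q, by push_cast; ring⟩
        have h4 := h1.sub h2
        rwa [add_sub_cancel_left] at h4)
      intro j hj
      rcases Nat.lt_succ_iff_lt_or_eq.1 hj with h1 | h1
      · exact hrest j h1
      · rw [h1]
        exact hci

end Pool.Agent.RFN
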