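import Mathlib
import Pool.Agent.Lib.MP_dcc566_gt_R.Cases

/-!
# All nonmaximal lattices have a configuration
-/

set_option autoImplicit false

namespace Pool.Agent.RFN

open Module

variable {X : Type} [AddCommGroup X] [Module ℚ X]

/-- What has to be known of `N`. -/
structure FamOK (BX : Frm X) (N : AddSubgroup X) : Prop where
  pd : Pd BX
  even : EvL BX N
  c1 : Conf (PF BX) (PL N) {2} (fun _ => 1) ∨ Conf (PF BX) (PL N) {2} (fun _ => 0)
  c2 : Conf (PF BX) (PL N) {2} (fun _ => 2)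
  c4 : Conf (PF BX) (PL N) {2} (fun _ => 4)
  y8 : ∃ y₈ ∈ N, Dv 6 (BX y₈ y₈ - 2) ∧ (∃ n ∈ N, ¬ Dv 3 (BX y₈ n)) ∧
    ∀ u ∈ N, ∀ c : ℤ, ¬ (3 : ℤ) ∣ c → (∀ n ∈ N, Dv 3 (BX (u - (c : ℚ) • y₈) n)) → BX u u ≠ 2

/-- PROOF.  If some `p₀ ∈ S` is `≥ 5`: `caseA5`.  Otherwise the elements of `S` are 2 or 3 (primes `< 5`).  If `3 ∈ S`: `caseA3` if
`3 ≤ j 3`, `caseB3` otherwise.  If `3 ∉ S`: `S = {2}` (nonempty).  `rk_le`: `10 + 2 j 2 ≤ 20`, `j 2 ≤ 5`, `j 2 ≥ 1`.  `j 2 = 1`: `c1`; `j 2 = 2, 3`: `c2`;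
`j 2 = 4, 5`: `c4`. -/
theorem conf_main {BX : Frm X} {N : AddSubgroup X} (h : FamOK BX N)
    [FiniteDimensional ℚ (PV X)] (hd : finrank ℚ (PV X) = 20) {S : Finset ℕ}
    (hS : ∀ p ∈ S, p.Prime) {j : ℕ → ℕ}
    (hj : ∀ p ∈ S, 1 ≤ j p ∧ RkGe (PF BX) (PL N) p (10 + 2 * j p))
    (h18 : ∀ p, p.Prime → p ≠ 2 → RkGe (PF BX) (PL N) p 18) (hne : S.Nonempty) :
    ∃ i : ℕ → ℕ, Conf (PF BX) (PL N) S i ∧ ∀ p ∈ S, j p = i p ∨ j p = i p + 1 := by
  by_cases h5 : ∃ p₀ ∈ S, 5 ≤ p₀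
  · obtain ⟨p₀, hp₀, h5⟩ := h5
    exact caseA5 h.pd h.even hS hj hp₀ h5 (h18 p₀ (hS p₀ hp₀) (by omega))
  · push Not at h5
    by_cases h3 : 3 ∈ S
    · by_cases h33 : 3 ≤ j 3
      · exact caseA3 h.pd h.even hS hj h3 h33 (h18 3 Nat.prime_three (by norm_num))
      · obtain ⟨y₈, h8N, h8m, h8n, h8⟩ := h.y8
        exact caseB3 h.pd h.even hS hj h3 (by omega) h8N h8m h8n h8
    · have h2 : ∀ p ∈ S, p = 2 := by
        intro p hp
        have h1 := h5 p hp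
        have h2 := (hS p hp).two_le
        have h3' : p ≠ 3 := fun h => h3 (h ▸ hp)
        have h4 : p ≠ 4 := fun h => by
          have := hS p hp
          rw [h] at this
          revert this
          norm_num
        omega
      obtain ⟨p, hp⟩ := hne
      have hp2 := h2 p hp
      rw [hp2] at hp
      have hS2 : S = {2} := by
        ext q
        rw [Finset.mem_singleton]
        exact ⟨h2 q, fun hq => by rw [hq]; exact hp⟩
      obtain ⟨hj1, hj2⟩ := hj 2 hp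
      have hj5 : j 2 ≤ 5 := by
        have h1 := rk_le Nat.prime_two hj2
        rw [hd] at h1
        omega
      have key : ∀ i : ℕ, Conf (PF BX) (PL N) {2} (fun _ => i) → (j 2 = i ∨ j 2 = i + 1) →
          ∃ i : ℕ → ℕ, Conf (PF BX) (PL N) S i ∧ ∀ p ∈ S, j p = i p ∨ j p = i p + 1 := by
        intro i hi hji
        refine ⟨fun _ => i, ?_, ?_⟩
        · rw [hS2]
          exact hi
        · intro q hq
          rw [h2 q hq]
          exact hji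
      rcases (by omega : j 2 = 1 ∨ (j 2 = 2 ∨ j 2 = 2 + 1) ∨ (j 2 = 4 ∨ j 2 = 4 + 1)) with
        h1 | h1 | h1
      · rcases h.c1 with hc | hc
        · exact key 1 hc (Or.inl h1)
        · exact key 0 hc (Or.inr h1)
      · exact key 2 h.c2 h1
      · exact key 4 h.c4 h1

end Pool.Agent.RFN
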