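import Mathlib
import Pool.Agent.Lib.MP_dcc566_gt_R.Bas

set_option autoImplicit false

namespace Pool.Agent.RFN

variable {V : Type} [AddCommGroup V] [Module ℚ V] {V' : Type} [AddCommGroup V'] [Module ℚ V']

/-- `BadS` implies `BadE` (`e ≠ 0` since `(e,f) = 1`). -/
theorem badE_of_badS {B : Frm V} {L : AddSubgroup V} (h : BadS B L) : BadE B L := by
  obtain ⟨e, -, f, -, t, hee, -, hef, hte, htt, h⟩ := h
  refine ⟨e, t, ?_, hee, hte, htt, h⟩
  rintro rfl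
  rw [map_zero, LinearMap.zero_apply] at hef
  exact zero_ne_one hef

private theorem exists_prim {B : Frm V} {L : AddSubgroup V} (hL : EvL B L) (hF : FullL L)
    {r : V} (hr : 0 < B r r) : ∃ q₀ : ℚ, 0 < q₀ ∧ q₀ • r ∈ L ∧
      ∀ q : ℚ, q • r ∈ L → ∃ n : ℤ, q = n * q₀ := by
  have hev : ∀ q : ℚ, q • r ∈ L → ∃ n : ℤ, q ^ 2 * B r r = 2 * n := by
    intro q hq
    obtain ⟨n, hn⟩ := hL _ hq
    refine ⟨n, ?_⟩
    rw [← Int.cast_ofNat, ← hn, map_smul, map_smul, LinearMap.smul_apply, smul_eq_mul,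
      smul_eq_mul]
    ring
  have hex : ∃ k : ℕ, ∃ q : ℚ, 0 < q ∧ q • r ∈ L ∧ q ^ 2 * B r r = 2 * (k : ℚ) := by
    obtain ⟨n, hn, hnL⟩ := hF r
    obtain ⟨m, hm⟩ := hev _ hnL
    have hn' : (0 : ℚ) < n := by exact_mod_cast hn
    have h0 : 0 < ((n : ℚ)) ^ 2 * B r r := mul_pos (pow_pos hn' 2) hr
    rw [hm] at h0
    have hm0 : 0 < m := by
      have : (0 : ℚ) < m := by linarith
      exact_mod_cast this
    refine ⟨m.toNat, n, hn', hnL, ?_⟩
    rw [hm]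
    congr 1
    have : ((m.toNat : ℤ) : ℚ) = (m : ℚ) := by rw [Int.toNat_of_nonneg hm0.le]
    rw [← this, Int.cast_natCast]
  classical
  obtain ⟨q₀, h0, h1, h2⟩ := Nat.find_spec hex
  refine ⟨q₀, h0, h1, ?_⟩
  intro q hq
  refine ⟨⌊q / q₀⌋, ?_⟩
  by_contra hne
  have hlt : 0 < q - (⌊q / q₀⌋ : ℚ) * q₀ := by
    have h3 : (⌊q / q₀⌋ : ℚ) * q₀ ≤ q := by
      rw [← le_div_iff₀ h0]
      exact Int.floor_le _
    rcases lt_or_eq_of_le h3 with h | h
    · linarith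
    · exact absurd h.symm hne
  have hlt' : q - (⌊q / q₀⌋ : ℚ) * q₀ < q₀ := by
    have h3 : q < ((⌊q / q₀⌋ : ℚ) + 1) * q₀ := by
      rw [← div_lt_iff₀ h0]
      exact Int.lt_floor_add_one _
    linarith
  have hmem : (q - (⌊q / q₀⌋ : ℚ) * q₀) • r ∈ L := by
    rw [sub_smul, mul_smul]
    refine L.sub_mem hq ?_
    rw [Int.cast_smul_eq_zsmul]
    exact L.zsmul_mem h1 _
  obtain ⟨m, hm⟩ := hev _ hmem
  have hpos : 0 < (q - (⌊q / q₀⌋ : ℚ) * q₀) ^ 2 * B r r := mul_pos (pow_pos hlt 2) hr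
  rw [hm] at hpos
  have hm0 : 0 < m := by
    have : (0 : ℚ) < m := by linarith
    exact_mod_cast this
  have hmc : ((m.toNat : ℕ) : ℚ) = (m : ℚ) := by
    have : ((m.toNat : ℤ) : ℚ) = (m : ℚ) := by rw [Int.toNat_of_nonneg hm0.le]
    rw [← this, Int.cast_natCast]
  have hmin := Nat.find_min' hex ⟨_, hlt, hmem, by rw [hm, ← hmc]⟩
  have hmin' : ((Nat.find hex : ℕ) : ℚ) ≤ (m : ℚ) := by
    rw [← hmc]
    exact_mod_cast hmin
  have hsq : (q - (⌊q / q₀⌋ : ℚ) * q₀) ^ 2 < q₀ ^ 2 := by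
    exact pow_lt_pow_left₀ hlt' hlt.le (by norm_num)
  have := mul_lt_mul_of_pos_right hsq hr
  rw [hm, h2] at this
  linarith

/-- Roots and reflections: for an even full lattice a root bad cusp is a reflection bad cusp.

PROOF.  Same `e, t`.  Let `r` with `(r,r) > 0`, `s_r(L) ⊆ L`, `(r,e) = 0`.  The set `A = {q : ℚ | q • r ∈ L}` is a
subgroup of `ℚ`, `q² (r,r) ∈ 2ℤ` for `q ∈ A`, and it contains a positive element (`FullL`).  Choose `q₀ ∈ A`, `q₀ > 0`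
minimal: for `q ∈ A`, `q² (r,r)` is a natural number; take `q₀ > 0` in `A` with `q₀² (r,r)` minimal (`Nat.find` or
`WellFounded.min`).  Then every `q ∈ A` is an integral multiple of `q₀` (`q - ⌊q/q₀⌋ q₀ ∈ A` lies in `[0,q₀)`).
`r₀ = q₀ • r ∈ L`, `(r₀,r₀) = 2κ`, `κ > 0` (even).  For `x ∈ L`: `(2 (r,x)/(r,r)) • r ∈ L` (difference of two elements of `L`),
so `2 (r,x)/(r,r) = n q₀` with `n : ℤ`; hence `2 (r₀,x) = q₀ 2 (r,x) = n q₀² (r,r) = n (r₀,r₀) = 2 κ n`, `(r₀,x) = κ n`.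
`(r₀,e) = 0`, so `(r₀,t) = 0`, `(r,t) = 0`. -/
theorem badR_of_badE {B : Frm V} {L : AddSubgroup V} (hL : EvL B L) (hF : FullL L)
    (h : BadE B L) : BadR B L := by
  obtain ⟨e, t, he, hee, hte, htt, h⟩ := h
  refine ⟨e, t, he, hee, hte, htt, ?_⟩
  intro r hr hs hre
  obtain ⟨q₀, h0, h1, h2⟩ := exists_prim hL hF hr
  obtain ⟨κ, hκ⟩ := hL _ h1
  have hnn : B (q₀ • r) (q₀ • r) = q₀ * (q₀ * B r r) := by
    rw [map_smul, map_smul, LinearMap.smul_apply, smul_eq_mul, smul_eq_mul]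
  have hκ' : q₀ * (q₀ * B r r) = 2 * (κ : ℚ) := by
    rw [← hnn, hκ, Int.cast_ofNat]
  have hκ0 : 0 < κ := by
    have h3 : 0 < q₀ * (q₀ * B r r) := mul_pos h0 (mul_pos h0 hr)
    rw [hκ'] at h3
    have : (0 : ℚ) < κ := by linarith
    exact_mod_cast this
  have hB : ∀ x, B (q₀ • r) x = q₀ * B r x := by
    intro x
    rw [map_smul, LinearMap.smul_apply, smul_eq_mul]
  have h3 : B (q₀ • r) t = 0 := by
    refine h (q₀ • r) h1 κ hκ0 (by rw [hnn, hκ']) ?_ (by rw [hB, hre, mul_zero])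
    intro x hx
    have h4 : (2 * B r x / B r r) • r ∈ L := by
      have h5 := L.sub_mem hx (hs x hx)
      rwa [sub_sub_cancel] at h5
    obtain ⟨n, hn⟩ := h2 _ h4
    refine ⟨n, ?_⟩
    rw [hB]
    have h6 : 2 * B r x = n * q₀ * B r r := by
      rw [← hn, div_mul_cancel₀ _ hr.ne']
    have h7 : 2 * (q₀ * B r x) = 2 * ((κ : ℚ) * n) := by
      calc 2 * (q₀ * B r x) = q₀ * (2 * B r x) := by ring
        _ = (q₀ * (q₀ * B r r)) * n := by rw [h6]; ring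
        _ = 2 * ((κ : ℚ) * n) := by rw [hκ']; ring
    linarith
  rw [hB] at h3
  exact (mul_eq_zero.1 h3).resolve_left h0.ne'

/-- Transport of `BadR` along an isometry.  (`e' = φ e`, `t' = φ t`; for `r'` use `r = φ⁻¹ r'`.) -/
theorem badR_iso {B : Frm V} {B' : Frm V'} {L : AddSubgroup V} {L' : AddSubgroup V'}
    {φ : V ≃ₗ[ℚ] V'} (hφ : IsIso B B' φ) (hL : MapsL φ L L') (h : BadR B L) : BadR B' L' := by
  obtain ⟨e, t, he, hee, hte, htt, h⟩ := h
  refine ⟨φ e, φ t, ?_, ?_, ?_, ?_, ?_⟩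
  · rwa [Ne, LinearEquiv.map_eq_zero_iff]
  · rw [hφ, hee]
  · rw [hφ, hte]
  · rw [hφ]
    exact htt
  · intro r' hr hs hre
    obtain ⟨r, rfl⟩ := φ.surjective r'
    rw [hφ] at hr hre ⊢
    refine h r hr ?_ hre
    intro x hx
    have h1 := hs (φ x) ((hL x).2 hx)
    rw [hφ, hφ, ← map_smul, ← map_sub] at h1
    exact (hL _).1 h1

private theorem exists_refl {B : Frm V} (hB : ∀ x y, B x y = B y x) {ρ : V} (hρ : B ρ ρ ≠ 0) :
    ∃ g : V ≃ₗ[ℚ] V, (∀ x, g x = x - (2 * B ρ x / B ρ ρ) • ρ) ∧ (∀ x, g (g x) = x) ∧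
      IsIso B B g := by
  let f : V →ₗ[ℚ] V := LinearMap.id - (2 / B ρ ρ) • (B ρ).smulRight ρ
  have hf : ∀ x, f x = x - (2 * B ρ x / B ρ ρ) • ρ := by
    intro x
    change x - (2 / B ρ ρ) • (B ρ x • ρ) = _
    rw [smul_smul]
    congr 2
    ring
  have hinv : ∀ x, f (f x) = x := by
    intro x
    have h1 : B ρ (f x) = - B ρ x := by
      rw [hf, map_sub, map_smul, smul_eq_mul, div_mul_cancel₀ _ hρ]
      ring
    rw [hf (f x), h1, hf x, sub_sub, ← add_smul]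
    have h2 : 2 * B ρ x / B ρ ρ + 2 * -B ρ x / B ρ ρ = 0 := by ring
    rw [h2, zero_smul, sub_zero]
  let g : V ≃ₗ[ℚ] V := LinearEquiv.ofInvolutive f hinv
  have hg : ∀ x, g x = f x := fun _ => rfl
  refine ⟨g, fun x => (hg x).trans (hf x), fun x => ?_, ?_⟩
  · rw [hg, hg, hinv]
  · intro x y
    rw [hg, hg, hf, hf]
    have h1 : ∀ (a b : ℚ), B (x - a • ρ) (y - b • ρ) =
        B x y - b * B ρ x - a * B ρ y + a * b * B ρ ρ := by
      intro a b
      rw [LinearMap.map_sub₂, LinearMap.map_smul₂, map_sub, map_sub, map_smul, map_smul,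
        smul_eq_mul, smul_eq_mul, smul_eq_mul, hB x ρ]
      ring
    rw [h1]
    field_simp
    ring

/-- From a bad cusp of an invariant lattice (of the form scaled by `c`) to a bad cusp of `G`.

PROOF.  Let `e, t` be given for `L`; all in `Fin n → ℚ`.  Choose `N ≥ 1`, `N • e = cz e₀`, `N' • t = cz t₀` (`exists_cz`).
`bf G e₀ e₀ = 0`, `bf G t₀ e₀ = 0`, `bf G t₀ t₀ > 0`: from `mF_cz` and `c > 0`.  Let `r : Fin n → ℤ`, `bf G r r > 0`,
`bf G r r ∣ 2 bf G r x` for all `x`, `bf G r e₀ = 0`.  The reflection `g x = x - (2 (cz r,x)/(cz r,cz r)) cz r` is a linear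
involution of `ℚ^n`, an isometry of `mF G`, and preserves `Zk n` (for `x = cz u`: `2 bf r u / bf r r` is an integer).
By `hI` it preserves `L`; for `c • mF G` the formula `2 (r,x)/(r,r)` is the same; so `BadR` gives `c (cz r, t) = 0`,
`bf G r t₀ = 0`.  (Isometry: `(x - λ r, y - μ r)` with `λ = 2(r,x)/(r,r)`, `μ = 2 (r,y)/(r,r)`.) -/
theorem cuspBad_of_badR {n : ℕ} {G : Matrix (Fin n) (Fin n) ℤ} (hG : G.IsSymm) {c : ℚ}
    (hc : 0 < c) {L : AddSubgroup (Fin n → ℚ)} (hI : Inv (mF G) (Zk n) L)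
    (h : BadR (c • mF G) L) : MP_dcc566_gt.CuspBad G := by
  obtain ⟨e, t, he, hee, hte, htt, h⟩ := h
  obtain ⟨N, e₀, hN, hNe⟩ := exists_cz e
  obtain ⟨N', t₀, hN', hNt⟩ := exists_cz t
  have hNq : (0 : ℚ) < N := by exact_mod_cast hN
  have hNq' : (0 : ℚ) < N' := by exact_mod_cast hN'
  have hap : ∀ x y, (c • mF G) x y = c * mF G x y := by
    intro x y
    rw [LinearMap.smul_apply, LinearMap.smul_apply, smul_eq_mul]
  rw [hap] at hee hte htt
  have hee' : mF G e e = 0 := (mul_eq_zero.1 hee).resolve_left hc.ne'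
  have hte' : mF G t e = 0 := (mul_eq_zero.1 hte).resolve_left hc.ne'
  have htt' : 0 < mF G t t := (mul_pos_iff_of_pos_left hc).1 htt
  refine ⟨e₀, t₀, ?_, ?_, ?_, ?_, ?_⟩
  · rintro rfl
    rw [cz_zero, smul_eq_zero] at hNe
    rcases hNe with h1 | h1
    · exact hNq.ne' h1
    · exact he h1
  · have h1 : ((MP_dcc566_gt.bf G e₀ e₀ : ℤ) : ℚ) = 0 := by
      rw [← mF_cz, ← hNe, map_smul, map_smul, LinearMap.smul_apply, hee', smul_zero, smul_zero]
    exact_mod_cast h1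
  · have h1 : ((MP_dcc566_gt.bf G t₀ e₀ : ℤ) : ℚ) = 0 := by
      rw [← mF_cz, ← hNe, ← hNt, map_smul, map_smul, LinearMap.smul_apply, hte', smul_zero,
        smul_zero]
    exact_mod_cast h1
  · have h1 : (0 : ℚ) < ((MP_dcc566_gt.bf G t₀ t₀ : ℤ) : ℚ) := by
      rw [← mF_cz, ← hNt, map_smul, map_smul, LinearMap.smul_apply, smul_eq_mul, smul_eq_mul]
      exact mul_pos hNq' (mul_pos hNq' htt')
    exact_mod_cast h1
  · intro r hr hdiv hre
    have hrq : 0 < mF G (cz r) (cz r) := by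
      rw [mF_cz]
      exact_mod_cast hr
    obtain ⟨g, hg, hgg, hiso⟩ := exists_refl (mF_symm hG) hrq.ne'
    have hZ : ∀ x, x ∈ Zk n → g x ∈ Zk n := by
      intro x hx
      obtain ⟨u, rfl⟩ := mem_Zk.1 hx
      obtain ⟨k, hk⟩ := hdiv u
      rw [hg]
      have h1 : 2 * mF G (cz r) (cz u) / mF G (cz r) (cz r) = (k : ℚ) := by
        rw [div_eq_iff hrq.ne', mF_cz, mF_cz]
        rw [mul_comm] at hk
        rw [mul_comm (2 : ℚ)]
        have h2 : ((MP_dcc566_gt.bf G r u * 2 : ℤ) : ℚ) =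
            ((MP_dcc566_gt.bf G r r * k : ℤ) : ℚ) := by rw [hk]
        push_cast at h2
        rw [h2]
        ring
      rw [h1, ← cz_smul, ← cz_sub]
      exact cz_mem _
    have hmaps : MapsL g (Zk n) (Zk n) := by
      intro x
      refine ⟨fun hx => ?_, hZ x⟩
      have := hZ _ hx
      rwa [hgg] at this
    have hLL := hI g hiso hmaps
    have h5 := h (cz r) (by rw [hap]; exact mul_pos hc hrq) (by
      intro x hx
      have h6 := (hLL x).2 hx
      rw [hg] at h6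
      rw [hap, hap]
      have h7 : 2 * (c * mF G (cz r) x) / (c * mF G (cz r) (cz r)) =
          2 * mF G (cz r) x / mF G (cz r) (cz r) := by
        rw [mul_left_comm, mul_div_mul_left _ _ hc.ne']
      rwa [h7]) (by
      rw [hap]
      have h8 : mF G (cz r) (cz e₀) = 0 := by
        rw [mF_cz, hre, Int.cast_zero]
      rw [← hNe, map_smul, smul_eq_mul] at h8
      rw [(mul_eq_zero.1 h8).resolve_left hNq.ne', mul_zero])
    rw [hap] at h5
    have h9 : mF G (cz r) t = 0 := (mul_eq_zero.1 h5).resolve_left hc.ne'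
    have h10 : ((MP_dcc566_gt.bf G r t₀ : ℤ) : ℚ) = 0 := by
      rw [← mF_cz, ← hNt, map_smul, h9, smul_zero]
    exact_mod_cast h10

end Pool.Agent.RFN
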