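import Mathlib
import Pool.Agent.Lib.MP_dcc566_gt_R.Bas

set_option autoImplicit false

namespace Pool.Agent.RFN

variable {V : Type} [AddCommGroup V] [Module ℚ V]

private theorem zsm {L : AddSubgroup V} {x : V} (hx : x ∈ L) (n : ℤ) : (n : ℚ) • x ∈ L := by
  rw [Int.cast_smul_eq_zsmul]
  exact L.zsmul_mem hx n

private theorem Dv.sum {k : ℤ} {s : Finset ℕ} {a : ℕ → ℚ} (h : ∀ i ∈ s, Dv k (a i)) :
    Dv k (∑ i ∈ s, a i) := by
  classical
  induction s using Finset.induction_on with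
  | empty => simpa using Dv.zero k
  | insert i s hi ih =>
    rw [Finset.sum_insert hi]
    exact (h i (Finset.mem_insert_self _ _)).add
      (ih fun l hl => h l (Finset.mem_insert_of_mem hl))

private theorem B_sum_left (B : Frm V) (s : Finset ℕ) (c : ℕ → ℤ) (f : ℕ → V) (x : V) :
    B (∑ i ∈ s, (c i : ℚ) • f i) x = ∑ i ∈ s, (c i : ℚ) * B (f i) x := by
  rw [map_sum, LinearMap.sum_apply]
  refine Finset.sum_congr rfl fun i _ => ?_
  rw [map_smul, LinearMap.smul_apply, smul_eq_mul]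

private theorem TS_congr {B : Frm V} {Λ : AddSubgroup V} {p j : ℕ} {f f' : ℕ → V}
    (h : TS B Λ p j f) (hf : ∀ i < j, f' i = f i) : TS B Λ p j f' where
  mem := fun i hi => by rw [hf i hi]; exact h.mem i hi
  pair := fun i hi k hk => by rw [hf i hi, hf k hk]; exact h.pair i hi k hk
  norm := fun i hi => by rw [hf i hi]; exact h.norm i hi
  ind := fun c hc => h.ind c (by
    have e : ∑ i ∈ Finset.range j, (c i : ℚ) • f' i = ∑ i ∈ Finset.range j, (c i : ℚ) • f i :=
      Finset.sum_congr rfl fun i hi => by rw [hf i (Finset.mem_range.1 hi)]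
    rw [← e]
    exact hc)

private theorem TS_ext {B : Frm V} (hB : ∀ x y, B x y = B y x) {Λ : AddSubgroup V}
    (hΛ : EvL B Λ) {p n : ℕ} {f f' : ℕ → V} (h : TS B Λ p n f) (hf : ∀ i < n, f' i = f i)
    {e g : V} (hg : f' n = g) (heΛ : e ∈ Λ) (hgΛ : g ∈ Λ) (hfe : ∀ i < n, Dv p (B (f i) e))
    (hfg : ∀ i < n, Dv p (B (f i) g)) (hgg : B g g = 0) (hge : B g e = 1) :
    TS B Λ p (n + 1) f' where
  mem := by
    intro i hi
    rcases Nat.lt_succ_iff_lt_or_eq.1 hi with hi | rfl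
    · rw [hf i hi]; exact h.mem i hi
    · rw [hg]; exact hgΛ
  pair := by
    intro i hi k hk
    rcases Nat.lt_succ_iff_lt_or_eq.1 hi with hi | rfl <;>
      rcases Nat.lt_succ_iff_lt_or_eq.1 hk with hk | rfl
    · rw [hf i hi, hf k hk]; exact h.pair i hi k hk
    · rw [hf i hi, hg]; exact hfg i hi
    · rw [hf k hk, hg, hB]; exact hfg k hk
    · rw [hg, hgg]; exact Dv.zero _
  norm := by
    intro i hi
    rcases Nat.lt_succ_iff_lt_or_eq.1 hi with hi | rfl
    · rw [hf i hi]; exact h.norm i hi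
    · rw [hg, hgg]; exact Dv.zero _
  ind := by
    intro c hc
    have e0 : ∑ i ∈ Finset.range n, (c i : ℚ) • f' i = ∑ i ∈ Finset.range n, (c i : ℚ) • f i :=
      Finset.sum_congr rfl fun i hi => by rw [hf i (Finset.mem_range.1 hi)]
    have hc1 : ∀ x ∈ Λ, Dv p (B (∑ i ∈ Finset.range n, (c i : ℚ) • f i) x + (c n : ℚ) * B g x) := by
      intro x hx
      have h1 := hc x hx
      rw [Finset.sum_range_succ, e0, hg, map_add, LinearMap.add_apply, map_smul,
        LinearMap.smul_apply, smul_eq_mul] at h1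
      exact h1
    have hce : Dv p (c n : ℚ) := by
      have h1 := hc1 e heΛ
      rw [hge, mul_one] at h1
      have h2 : Dv p (B (∑ i ∈ Finset.range n, (c i : ℚ) • f i) e) := by
        rw [B_sum_left]
        exact Dv.sum fun i hi => (hfe i (Finset.mem_range.1 hi)).mul_int (c i)
      have h3 := h1.sub h2
      rwa [add_sub_cancel_left] at h3
    have hc2 : ∀ x ∈ Λ, Dv p (B (∑ i ∈ Finset.range n, (c i : ℚ) • f i) x) := by
      intro x hx
      obtain ⟨m, hm⟩ := hΛ.isZ hB hgΛ hx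
      have h1 := hc1 x hx
      have h2 : Dv p ((c n : ℚ) * B g x) := by
        rw [hm, mul_comm]
        exact hce.mul_int m
      have h3 := h1.sub h2
      rwa [add_sub_cancel_right] at h3
    intro i hi
    rcases Nat.lt_succ_iff_lt_or_eq.1 hi with hi | rfl
    · exact h.ind c hc2 i hi
    · exact Dv_int.1 hce

/-- ONE MORE VECTOR AT EACH PRIME.

PROOF.  Let `f` and `e, g, t` (`g` the second isotropic vector of `BadS`) be given by `hC`, `L = Cut B Λ S i f`.
Put `f' p k = f p k` for `k ≠ i p`, `f' p (i p) = g`.  `TS` for `p ∈ S`: if `j p = i p` it is `TS.congr` (only indices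
`< i p` matter: `Finset.sum_congr`).  If `j p = i p + 1`: `g ∈ L ≤ Λ`; `p ∣ (f p k, g)` since `g ∈ L` (and by
symmetry), `(g,g) = 0`.  `ind`: if `∑_{k ≤ i p} c_k f'_k` is in the radical mod `p`, pair with `e ∈ L ≤ Λ`: `p ∣ (f p k, e)`,
`(g,e) = 1`, so `p ∣ c_{i p}`; then `∑_{k < i p} c_k f_k` is in the radical too (`(g,x)` is an integer), use `TS.ind` of `f`.
`BadE` of `L' = Cut B Λ S j f' = {x ∈ L : p ∣ (g,x) for all p ∈ S with j p = i p + 1}`, with `e, t`; `e ≠ 0` as `(e,g) = 1`.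
Let `r ∈ L'`, `(r,r) = 2κ`, `κ ∣ (r,x)` for `x ∈ L'`, `(r,e) = 0`.  `r ∈ L`.  `α = (r,g)` is an integer (`Λ` even).
`u = r - α e ∈ L`; `(u,u) = 2κ`, `(u,e) = 0`, `(u,g) = α - α = 0`.  For `l ∈ L`: `l₁ = l - (l,g) e - (l,e) g ∈ L`
(integers), `(l₁,g) = 0`, so `l₁ ∈ L'` (`(g,l₁) = 0` is divisible by everything), `(l₁,e) = 0`; hence
`(u,l) = (u,l₁) = (r,l₁) - α (e,l₁) = (r,l₁)`, divisible by `κ`.  So `(u,t) = 0`, and `(r,t) = (u,t) + α (e,t) = 0`. -/
theorem conf_ext {B : Frm V} (hB : ∀ x y, B x y = B y x) {Λ : AddSubgroup V} (hΛ : EvL B Λ)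
    {S : Finset ℕ} (hS : ∀ p ∈ S, p.Prime) {i j : ℕ → ℕ} (hC : Conf B Λ S i)
    (hj : ∀ p ∈ S, j p = i p ∨ j p = i p + 1) :
    ∃ f' : ℕ → ℕ → V, (∀ p ∈ S, TS B Λ p (j p) (f' p)) ∧ BadE B (Cut B Λ S j f') := by
  classical
  obtain ⟨f, hf, e, heL, g, hgL, t, hee, hgg, heg, hte, htt, hbad⟩ := hC
  have hge : B g e = 1 := by rw [hB, heg]
  have het : B e t = 0 := by rw [hB, hte]
  set f' : ℕ → ℕ → V := fun p k => if k = i p then g else f p k with hf'
  have hlt : ∀ p, ∀ k < i p, f' p k = f p k := fun p k hk => by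
    rw [hf']
    exact if_neg hk.ne
  have heq : ∀ p, f' p (i p) = g := fun p => by
    rw [hf']
    exact if_pos rfl
  have hL'L : ∀ x ∈ Cut B Λ S j f', x ∈ Cut B Λ S i f := by
    intro x hx
    refine ⟨hx.1, fun p hp k hk => ?_⟩
    rw [← hlt p k hk]
    refine hx.2 p hp k ?_
    rcases hj p hp with h | h <;> omega
  have hLL' : ∀ x ∈ Cut B Λ S i f, B g x = 0 → x ∈ Cut B Λ S j f' := by
    intro x hx hgx
    refine ⟨hx.1, fun p hp k hk => ?_⟩
    by_cases hki : k = i p
    · rw [hki, heq, hgx]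
      exact Dv.zero _
    · have hk' : k < i p := by
        rcases hj p hp with h | h <;> omega
      rw [hlt p k hk']
      exact hx.2 p hp k hk'
  refine ⟨f', fun p hp => ?_, e, t, ?_, hee, hte, htt, ?_⟩
  · rcases hj p hp with h | h
    · rw [h]
      exact TS_congr (hf p hp) (hlt p)
    · rw [h]
      exact TS_ext hB hΛ (hf p hp) (hlt p) (heq p) heL.1 hgL.1 (fun k hk => heL.2 p hp k hk)
        (fun k hk => hgL.2 p hp k hk) hgg hge
  · rintro rfl
    rw [map_zero] at hge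
    exact zero_ne_one hge
  · intro r hr κ hκ hrr hrx hre
    have hrL := hL'L r hr
    obtain ⟨a, ha⟩ := hΛ.isZ hB hr.1 hgL.1
    have huL : r - (a : ℚ) • e ∈ Cut B Λ S i f :=
      (Cut B Λ S i f).sub_mem hrL (zsm heL a)
    have huu : B (r - (a : ℚ) • e) (r - (a : ℚ) • e) = 2 * κ := by
      simp only [map_sub, map_smul, LinearMap.sub_apply, LinearMap.smul_apply, smul_eq_mul]
      rw [hB e r, hre, hee, hrr]
      ring
    have hue : B (r - (a : ℚ) • e) e = 0 := by
      simp only [map_sub, map_smul, LinearMap.sub_apply, LinearMap.smul_apply, smul_eq_mul]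
      rw [hre, hee]
      ring
    have hug : B (r - (a : ℚ) • e) g = 0 := by
      simp only [map_sub, map_smul, LinearMap.sub_apply, LinearMap.smul_apply, smul_eq_mul]
      rw [ha, heg]
      ring
    have hul : ∀ l ∈ Cut B Λ S i f, Dv κ (B (r - (a : ℚ) • e) l) := by
      intro l hl
      obtain ⟨m, hm⟩ := hΛ.isZ hB hl.1 hgL.1
      obtain ⟨n, hn⟩ := hΛ.isZ hB hl.1 heL.1
      have hl1 : l - (m : ℚ) • e - (n : ℚ) • g ∈ Cut B Λ S i f :=
        (Cut B Λ S i f).sub_mem ((Cut B Λ S i f).sub_mem hl (zsm heL m)) (zsm hgL n)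
      have hgl1 : B g (l - (m : ℚ) • e - (n : ℚ) • g) = 0 := by
        simp only [map_sub, map_smul, smul_eq_mul]
        rw [hB g l, hm, hge, hgg]
        ring
      have hel1 : B e (l - (m : ℚ) • e - (n : ℚ) • g) = 0 := by
        simp only [map_sub, map_smul, smul_eq_mul]
        rw [hB e l, hn, heg, hee]
        ring
      have h1 := hrx _ (hLL' _ hl1 hgl1)
      have h2 : B (r - (a : ℚ) • e) l = B r (l - (m : ℚ) • e - (n : ℚ) • g) := by
        have h3 : B (r - (a : ℚ) • e) (l - (m : ℚ) • e - (n : ℚ) • g)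
            = B (r - (a : ℚ) • e) l := by
          rw [map_sub, map_sub, map_smul, map_smul, hue, hug]
          simp
        have h4 : ∀ y, B (r - (a : ℚ) • e) y = B r y - (a : ℚ) * B e y := fun y => by
          rw [map_sub, LinearMap.sub_apply, map_smul, LinearMap.smul_apply, smul_eq_mul]
        rw [← h3, h4, hel1, mul_zero, sub_zero]
      rw [h2]
      exact h1
    have hut := hbad _ huL κ hκ huu hul hue
    rw [map_sub, LinearMap.sub_apply, map_smul, LinearMap.smul_apply, het, smul_zero,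
      sub_zero] at hut
    exact hut

/-- No vectors: the cut lattice is `Λ`. -/
theorem conf_zero {B : Frm V} {Λ : AddSubgroup V} (h : BadS B Λ) (S : Finset ℕ) :
    Conf B Λ S (fun _ => 0) := by
  refine ⟨fun _ _ => 0, fun p _ => ?_, ?_⟩
  · exact ⟨fun i hi => absurd hi (Nat.not_lt_zero _), fun i hi => absurd hi (Nat.not_lt_zero _),
      fun i hi => absurd hi (Nat.not_lt_zero _), fun _ _ i hi => absurd hi (Nat.not_lt_zero _)⟩
  · have e : Cut B Λ S (fun _ => 0) (fun _ _ => 0) = Λ := by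
      ext x
      exact ⟨fun h => h.1, fun h => ⟨h, fun p _ i hi => absurd hi (Nat.not_lt_zero _)⟩⟩
    rw [e]
    exact h

theorem Cut_empty {B : Frm V} {Λ : AddSubgroup V} (j : ℕ → ℕ) (f : ℕ → ℕ → V) :
    Cut B Λ ∅ j f = Λ := by
  ext x
  exact ⟨fun h => h.1, fun h => ⟨h, fun p hp => absurd hp (Finset.notMem_empty p)⟩⟩

end Pool.Agent.RFN
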