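import Mathlib
import Pool.Agent.Lib.MP_dcc566_gt_R.LKe

/-!
# Finite index
-/

set_option autoImplicit false

namespace Pool.Agent.RFN

open Module

variable {V : Type} [AddCommGroup V] [Module ℚ V]

/-- Two full lattices in a nondegenerate space, the second one even: the intersection has finite
index in the second.

PROOF.  Let `b` be the `ℤ`-basis of `Λ'` from `exists_zbasis hB hE' hF'`; `b i ∈ Λ'`, and `Λ'` is
the set of integral combinations.  `FullL Λ` gives `n i > 0` with `n i • b i ∈ Λ`; with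
`N = ∏ n i` we have `N • x ∈ Λ` for all `x ∈ Λ'`.  So the quotient `↥Λ' ⧸ (Λ.addSubgroupOf Λ')` is
the image of the finite set of the combinations with coefficients in `[0, N)`, hence finite, and
`Λ.relIndex Λ' = (Λ.addSubgroupOf Λ').index ≠ 0` (`AddSubgroup.relIndex`,
`AddSubgroup.index_ne_zero_of_finite`).  -/
theorem relIndex_ne_zero [FiniteDimensional ℚ V] {B : Frm V} (hB : Nd B) {Λ Λ' : AddSubgroup V}
    (hF : FullL Λ) (hE' : EvL B Λ') (hF' : FullL Λ') : Λ.relIndex Λ' ≠ 0 := by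
  classical
  obtain ⟨b, hb⟩ := exists_zbasis hB hE' hF'
  choose n hn hnm using fun i => hF (b i)
  have hN : 0 < ∏ i, n i := Finset.prod_pos fun i _ => hn i
  have hNy : ∀ a : Fin (finrank ℚ V) → ℤ,
      ((∏ i, n i : ℕ) : ℚ) • ∑ i, (a i : ℚ) • b i ∈ Λ := by
    intro a
    rw [Finset.smul_sum]
    refine Λ.sum_mem fun i _ => ?_
    have e : ((∏ j, n j : ℕ) : ℚ) • (a i : ℚ) • b i =
        ((a i * (∏ j ∈ Finset.univ.erase i, n j : ℕ) : ℤ) : ℚ) • ((n i : ℚ) • b i) := by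
      rw [← Finset.mul_prod_erase Finset.univ n (Finset.mem_univ i), smul_smul, smul_smul]
      congr 1
      push_cast
      ring
    rw [e]
    exact zs_mem (hnm i) _
  have hmem : ∀ a : Fin (finrank ℚ V) → ℤ, ∑ i, (a i : ℚ) • b i ∈ Λ' := by
    intro a
    rw [hb]
    intro i
    rw [b.repr_sum_self]
    exact ⟨a i, rfl⟩
  set N := ∏ i, n i with hNdef
  let f : (Fin (finrank ℚ V) → Fin N) → ↥Λ' ⧸ (Λ.addSubgroupOf Λ') := fun c =>
    QuotientAddGroup.mk ⟨∑ i, (((c i : ℕ) : ℤ) : ℚ) • b i, hmem fun i => ((c i : ℕ) : ℤ)⟩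
  have hf : Function.Surjective f := by
    intro q
    obtain ⟨⟨x, hx⟩, rfl⟩ := QuotientAddGroup.mk_surjective q
    choose a ha using (hb x).1 hx
    have hNZ : (0 : ℤ) < N := by exact_mod_cast hN
    have hx2 : x = ∑ i, (a i : ℚ) • b i := by
      conv_lhs => rw [← b.sum_repr x]
      exact Finset.sum_congr rfl fun i _ => by rw [ha i]
    refine ⟨fun i => ⟨(a i % N).toNat, ?_⟩, ?_⟩
    · have h1 := Int.emod_lt_of_pos (a i) hNZ
      have h2 := Int.emod_nonneg (a i) hNZ.ne'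
      omega
    · refine QuotientAddGroup.eq.2 ?_
      rw [AddSubgroup.mem_addSubgroupOf]
      change -(∑ i, ((((a i % N).toNat : ℕ) : ℤ) : ℚ) • b i) + x ∈ Λ
      have e : -(∑ i, ((((a i % N).toNat : ℕ) : ℤ) : ℚ) • b i) + x =
          (N : ℚ) • ∑ i, ((a i / N : ℤ) : ℚ) • b i := by
        rw [hx2, Finset.smul_sum, ← Finset.sum_neg_distrib, ← Finset.sum_add_distrib]
        refine Finset.sum_congr rfl fun i _ => ?_
        rw [Int.toNat_of_nonneg (Int.emod_nonneg (a i) hNZ.ne'), ← neg_smul, ← add_smul,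
          smul_smul]
        congr 1
        have h3 := Int.emod_add_mul_ediv (a i) N
        have h4 : (a i : ℚ) = ((a i % N : ℤ) : ℚ) + N * ((a i / N : ℤ) : ℚ) := by
          exact_mod_cast h3.symm
        linarith
      rw [e]
      exact hNy _
  haveI : Finite (↥Λ' ⧸ (Λ.addSubgroupOf Λ')) := Finite.of_surjective f hf
  exact AddSubgroup.index_ne_zero_of_finite

/-- A vector of prime order modulo `Λ`.

PROOF.  Let `x₀ ∈ Λ'`, `x₀ ∉ Λ`; by `FullL` there is a least `n ≥ 1` with `(n : ℚ) • x₀ ∈ Λ`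
(`Nat.find`), `n ≠ 1`; let `p` be a prime divisor of `n` (`Nat.exists_prime_and_dvd`), `n = p m`,
`x = (m : ℚ) • x₀ ∈ Λ'`; `x ∉ Λ` since `m < n`, `(p : ℚ) • x = (n : ℚ) • x₀ ∈ Λ`. -/
theorem exists_prime_order {Λ Λ' : AddSubgroup V} (hF : FullL Λ) (h : ¬ Λ' ≤ Λ) :
    ∃ (p : ℕ) (x : V), p.Prime ∧ x ∈ Λ' ∧ x ∉ Λ ∧ (p : ℚ) • x ∈ Λ := by
  classical
  obtain ⟨x₀, hx', hx⟩ := SetLike.not_le_iff_exists.1 h
  have hex : ∃ n : ℕ, 0 < n ∧ (n : ℚ) • x₀ ∈ Λ := hF x₀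
  obtain ⟨h1, h2⟩ := Nat.find_spec hex
  set n := Nat.find hex with hn
  have hn1 : n ≠ 1 := by
    intro h3
    rw [h3, Nat.cast_one, one_smul] at h2
    exact hx h2
  obtain ⟨p, hp, m, hm⟩ := Nat.exists_prime_and_dvd hn1
  have hm0 : 0 < m := by
    rcases Nat.eq_zero_or_pos m with h3 | h3
    · rw [h3, mul_zero] at hm
      omega
    · exact h3
  have hmn : m < n := by
    rw [hm]
    exact lt_mul_of_one_lt_left hm0 hp.one_lt
  refine ⟨p, (m : ℚ) • x₀, hp, ?_, ?_, ?_⟩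
  · have h3 := zs_mem hx' (m : ℤ)
    rwa [Int.cast_natCast] at h3
  · exact fun h3 => Nat.find_min hex hmn ⟨hm0, h3⟩
  · rw [smul_smul, ← Nat.cast_mul, ← hm]
    exact h2

/-- The index drops.

PROOF.  `Λ.relIndex Λ' = (Λ ⊓ Λ').relIndex Λ'` and the same for `N`
(`AddSubgroup.inf_relIndex_right`).  `Λ ⊓ Λ' ≤ N ⊓ Λ' ≤ Λ'`, so
`(Λ ⊓ Λ').relIndex (N ⊓ Λ') * (N ⊓ Λ').relIndex Λ' = (Λ ⊓ Λ').relIndex Λ'`
(`AddSubgroup.relIndex_mul_relIndex`), and the first factor is not `1`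
(`AddSubgroup.relIndex_eq_one`: it would give `N ⊓ Λ' ≤ Λ ⊓ Λ'`, but `x` is in the first and not
in the second group); it is not `0` since the product is not `0`; the second factor is positive;
so the product is larger than the second factor. -/
theorem relIndex_lt {Λ Λ' N : AddSubgroup V} (h0 : Λ.relIndex Λ' ≠ 0) (hle : Λ ⊓ Λ' ≤ N) {x : V}
    (hx' : x ∈ Λ') (hx : x ∉ Λ) (hxN : x ∈ N) : N.relIndex Λ' < Λ.relIndex Λ' := by
  have h1 : (Λ ⊓ Λ').relIndex (N ⊓ Λ') * (N ⊓ Λ').relIndex Λ' = (Λ ⊓ Λ').relIndex Λ' :=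
    AddSubgroup.relIndex_mul_relIndex _ _ _ (le_inf hle inf_le_right) inf_le_right
  rw [AddSubgroup.inf_relIndex_right, AddSubgroup.inf_relIndex_right] at h1
  have h2 : (Λ ⊓ Λ').relIndex (N ⊓ Λ') ≠ 1 := by
    intro h3
    rw [AddSubgroup.relIndex_eq_one] at h3
    exact hx (h3 ⟨hxN, hx'⟩).1
  have h3 : (Λ ⊓ Λ').relIndex (N ⊓ Λ') ≠ 0 := by
    intro h4
    rw [h4, zero_mul] at h1
    exact h0 h1.symm
  have h4 : N.relIndex Λ' ≠ 0 := by
    intro h5
    rw [h5, mul_zero] at h1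
    exact h0 h1.symm
  rw [← h1]
  exact lt_mul_of_one_lt_left (Nat.pos_of_ne_zero h4) (by omega)

end Pool.Agent.RFN
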