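import Mathlib
import Pool.Agent.Lib.MP_dcc566_gt_R.LTa

/-!
# The exchange of a hyperbolic pair
-/

set_option autoImplicit false

namespace Pool.Agent.RFN

variable {V : Type} [AddCommGroup V] [Module ℚ V]

/-- THE EXCHANGE of a hyperbolic pair: the reflection in `e - f`.

PROOF.  `σ x = x + B x (e - f) • (e - f)`; `B (e - f) (e - f) = -2`, so `σ (σ x) = x` (expand), `σ` is an isometry, and
`σ x ∈ Λ` for `x ∈ Λ` since `B x (e - f)` is an integer.  `B e (e - f) = -1`, so `σ e = f`; `σ f = e`.  -/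
theorem exists_swap {B : Frm V} (hs : ∀ x y, B x y = B y x) {Λ : AddSubgroup V} (hE : EvL B Λ)
    {e f : V} (he : e ∈ Λ) (hf : f ∈ Λ) (hee : B e e = 0) (hff : B f f = 0) (hef : B e f = 1) :
    ∃ g : V ≃ₗ[ℚ] V, OL B Λ g ∧ g e = f ∧ g f = e := by
  have hfe : B f e = 1 := by rw [hs f e, hef]
  have hdd : B (e - f) (e - f) = -2 := by
    simp only [map_sub, LinearMap.sub_apply, hee, hff, hef, hfe]
    norm_num
  set d : V := e - f with hd
  let σ : V →ₗ[ℚ] V := LinearMap.id + (B.flip d).smulRight d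
  have hσ : ∀ x, σ x = x + B x d • d := fun x => rfl
  have hσσ : ∀ x, σ (σ x) = x := by
    intro x
    have h1 : B (σ x) d = -B x d := by
      rw [hσ, map_add, LinearMap.add_apply, map_smul, LinearMap.smul_apply, hdd, smul_eq_mul]
      ring
    rw [hσ (σ x), h1, hσ x, neg_smul]
    abel
  have hiso : ∀ x y, B (σ x) (σ y) = B x y := by
    intro x y
    rw [hσ, hσ]
    simp only [map_add, LinearMap.add_apply, map_smul, LinearMap.smul_apply, hdd, smul_eq_mul]
    rw [hs d y]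
    ring
  have hdΛ : d ∈ Λ := Λ.sub_mem he hf
  have hmem : ∀ x ∈ Λ, σ x ∈ Λ := by
    intro x hx
    obtain ⟨n, hn⟩ := EvL.isZ hs hE hx hdΛ
    rw [hσ, hn]
    exact Λ.add_mem hx (zs_mem hdΛ n)
  refine ⟨LinearEquiv.ofLinearMap σ σ (LinearMap.ext hσσ) (LinearMap.ext hσσ), ⟨hiso, fun x => ?_⟩,
    ?_, ?_⟩
  · constructor
    · intro h
      have h1 := hmem _ h
      have h2 : σ (σ x) ∈ Λ := h1
      rwa [hσσ] at h2
    · exact hmem x
  · change σ e = f
    rw [hσ, hd, map_sub, hee, hef]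
    simp
  · change σ f = e
    rw [hσ, hd, map_sub, hfe, hff]
    simp

end Pool.Agent.RFN
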