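import Mathlib
import Pool.Agent.Lib.MP_dcc566_gt_R.LTa

/-!
# Eichler transformations and the exchange of a hyperbolic pair
-/

set_option autoImplicit false

namespace Pool.Agent.RFN

variable {V : Type} [AddCommGroup V] [Module ℚ V]

/-- the Eichler transformation as a linear map -/
private def LTb_E (B : Frm V) (e w : V) : V →ₗ[ℚ] V where
  toFun x := x + B x e • w - B x w • e - (B w w / 2 * B x e) • e
  map_add' x y := by
    simp only [map_add, LinearMap.add_apply]
    module
  map_smul' c x := by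
    simp only [map_smul, LinearMap.smul_apply, smul_eq_mul, RingHom.id_apply]
    module

private theorem LTb_E_apply (B : Frm V) (e w x : V) :
    LTb_E B e w x = x + B x e • w - B x w • e - (B w w / 2 * B x e) • e := rfl

private theorem LTb_left {B : Frm V} (hs : ∀ x y, B x y = B y x) {e w : V} (hee : B e e = 0)
    (hew : B e w = 0) (x z : V) :
    B (LTb_E B e w x) z = B x z + B x e * B w z - B x w * B e z - B w w / 2 * B x e * B e z := by
  rw [LTb_E_apply]
  simp only [map_add, map_sub, map_smul, LinearMap.add_apply, LinearMap.sub_apply,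
    LinearMap.smul_apply, smul_eq_mul]

private theorem LTb_inv {B : Frm V} (hs : ∀ x y, B x y = B y x) {e w : V} (hee : B e e = 0)
    (hew : B e w = 0) (x : V) : LTb_E B e (-w) (LTb_E B e w x) = x := by
  have hwe : B w e = 0 := by rw [hs, hew]
  have h1 : B (LTb_E B e w x) e = B x e := by
    rw [LTb_left hs hee hew, hwe, hee]
    ring
  have h2 : B (LTb_E B e w x) w = B x w + B x e * B w w := by
    rw [LTb_left hs hee hew, hew]
    ring
  have h3 : B (-w) (-w) = B w w := by
    rw [map_neg, map_neg, LinearMap.neg_apply, neg_neg]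
  rw [LTb_E_apply B e (-w), h1, h3, map_neg, h2, LTb_E_apply]
  module

/-- EICHLER TRANSFORMATION of an isotropic vector `e ∈ Λ` and `w ∈ Λ` orthogonal to `e`.

PROOF.  Define `E w : V →ₗ[ℚ] V`, `E w x = x + B x e • w - B x w • e - (B w w / 2 * B x e) • e`
(linear in `x`: e.g. `LinearMap.id + (B.flip e).smulRight w - (B.flip w).smulRight e -
(B w w / 2) • (B.flip e).smulRight e`, or a structure instance).  `E (-w) (E w x) = x` and
`E w (E (-w) x) = x`: expand, using `B e e = 0`, `B e w = B w e = 0`: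
`B (E w x) e = B x e`, `B (E w x) w = B x w + B x e * B w w`.  So `E w` is a linear equivalence
(`LinearEquiv.ofLinear` or a structure instance).  Isometry: `B (E w x) (E w y) = B x y` by
expansion.  `E w` preserves `Λ`: for `x ∈ Λ` the numbers `B x e`, `B x w` are integers
(`EvL.isZ hs hE`), `B w w / 2` is an integer (`hE w hw`), so `E w x ∈ Λ` (`zs_mem`); the same for
`E (-w)`, the inverse, which gives `g x ∈ Λ ↔ x ∈ Λ`. -/
theorem exists_eich {B : Frm V} (hs : ∀ x y, B x y = B y x) {Λ : AddSubgroup V} (hE : EvL B Λ)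
    {e w : V} (he : e ∈ Λ) (hw : w ∈ Λ) (hee : B e e = 0) (hew : B e w = 0) :
    ∃ g : V ≃ₗ[ℚ] V, OL B Λ g ∧
      ∀ x, g x = x + B x e • w - B x w • e - (B w w / 2 * B x e) • e := by
  have hwe : B w e = 0 := by rw [hs, hew]
  have hew' : B e (-w) = 0 := by rw [map_neg, hew, neg_zero]
  have hinv2 : ∀ x, LTb_E B e w (LTb_E B e (-w) x) = x := fun x => by
    have := LTb_inv hs hee hew' x
    rwa [neg_neg] at this
  let g : V ≃ₗ[ℚ] V := LinearEquiv.ofLinear (LTb_E B e w) (LTb_E B e (-w))
    (LinearMap.ext fun x => hinv2 x) (LinearMap.ext fun x => LTb_inv hs hee hew x)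
  have hg : ∀ x, g x = LTb_E B e w x := fun _ => rfl
  have hmem : ∀ w' ∈ Λ, ∀ x ∈ Λ, LTb_E B e w' x ∈ Λ := by
    intro w' hw' x hx
    obtain ⟨a, ha⟩ := EvL.isZ hs hE hx he
    obtain ⟨b, hb⟩ := EvL.isZ hs hE hx hw'
    obtain ⟨d, hd⟩ := hE w' hw'
    have h1 : B w' w' / 2 * B x e = ((d * a : ℤ) : ℚ) := by
      rw [hd, ha]
      push_cast
      ring
    rw [LTb_E_apply, h1, ha, hb]
    exact Λ.sub_mem (Λ.sub_mem (Λ.add_mem hx (zs_mem hw' a)) (zs_mem he b)) (zs_mem he (d * a))
  refine ⟨g, ⟨?_, ?_⟩, fun x => rfl⟩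
  · intro x y
    rw [hg, hg, LTb_left hs hee hew, hs x, hs w, hs e, LTb_left hs hee hew, LTb_left hs hee hew,
      LTb_left hs hee hew, hwe, hee, hew, hs x y, hs w x, hs e x]
    ring
  · intro x
    rw [hg]
    constructor
    · intro h
      have h1 := hmem (-w) (Λ.neg_mem hw) _ h
      rwa [LTb_inv hs hee hew] at h1
    · exact hmem w hw x

end Pool.Agent.RFN
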