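import Mathlib
import Pool.Agent.Lib.MP_dcc566_gt_R.LTb

/-!
# Singular vectors modulo `p` are equivalent to multiples of `e`
-/

set_option autoImplicit false

namespace Pool.Agent.RFN

variable {V : Type} [AddCommGroup V] [Module ℚ V]

/-- First case: the `e`-coefficient of `y` is prime to `p`.

PROOF.  `B y f`, `B y e` are integers, `α = B y f`, `β = B y e`.  Let `m = y - α • e - β • f ∈ Λ` (`B m e = 0`, `B m f = 0`: use
`hee hff hef` and symmetry).  `p ∤ α` (hypothesis), so there is an integer `a'` with `p ∣ α a' - 1` (`Int.isCoprime`...,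
`Nat.Prime.coprime...`).  Let `u = -a' • m ∈ Λ`, `B u e = B u f = 0`.  `g` from `exists_eich hs hE hf hu hff _` (the isotropic
vector is `f`, `w = u`): `g x = x + B x f • u - B x u • f - (B u u / 2 * B x f) • f`.
`g y = y + α • u - (B y u + B u u / 2 * α) • f = α • e + (m + α • u) + β' • f`, `β' = β - B y u - (B u u / 2) α` an integer,
and `m + α • u = (1 - α a') • m ∈ p Λ`.  So `g y ≡ α • e + β' • f`.  Norm: `B (g y) (g y) = B y y ∈ 2 p ℤ` and by `Cg.norm`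
`B (g y) (g y) ≡ B (α e + β' f) (α e + β' f) = 2 α β'` modulo `2 p`, so `p ∣ α β'`, `p ∣ β'` (prime), and
`g y ≡ α • e` modulo `p Λ` (`Cg.coef`).  Take `h = g`, `a = α`. -/
theorem to_e_of_coef {B : Frm V} (hs : ∀ x y, B x y = B y x) {Λ : AddSubgroup V} (hE : EvL B Λ)
    {e f : V} (he : e ∈ Λ) (hf : f ∈ Λ) (hee : B e e = 0) (hff : B f f = 0) (hef : B e f = 1)
    {p : ℕ} (hp : p.Prime) {y : V} (hy : y ∈ Λ) (hyy : Dv (2 * p) (B y y))
    (hyf : ¬ Dv p (B y f)) :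
    ∃ h : V ≃ₗ[ℚ] V, OL B Λ h ∧ ∃ a : ℤ, ¬ (p : ℤ) ∣ a ∧ Cg Λ p (h y) ((a : ℚ) • e) := by
  have hfe : B f e = 1 := by rw [hs, hef]
  obtain ⟨α, hα⟩ := EvL.isZ hs hE hy hf
  obtain ⟨β, hβ⟩ := EvL.isZ hs hE hy he
  have hpα : ¬ (p : ℤ) ∣ α := fun h => hyf (by rw [hα]; exact Dv_int.2 h)
  have hpp : Prime (p : ℤ) := Nat.prime_iff_prime_int.1 hp
  obtain ⟨b', a', hab⟩ := (hpp.irreducible.coprime_iff_not_dvd).2 hpα
  obtain ⟨m, hm⟩ : ∃ m : V, m = y - (α : ℚ) • e - (β : ℚ) • f := ⟨_, rfl⟩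
  have hmΛ : m ∈ Λ := by
    rw [hm]
    exact Λ.sub_mem (Λ.sub_mem hy (zs_mem he α)) (zs_mem hf β)
  have hfm : B f m = 0 := by
    rw [hm, map_sub, map_sub, map_smul, map_smul, hs f y, hα, hfe, hff]
    simp
  obtain ⟨u, hu⟩ : ∃ u : V, u = ((-a' : ℤ) : ℚ) • m := ⟨_, rfl⟩
  have huΛ : u ∈ Λ := by
    rw [hu]
    exact zs_mem hmΛ _
  have hfu : B f u = 0 := by
    rw [hu, map_smul, hfm, smul_zero]
  obtain ⟨g, hg, hgx⟩ := exists_eich hs hE hf huΛ hff hfu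
  obtain ⟨b, hb⟩ := EvL.isZ hs hE hy huΛ
  obtain ⟨c, hc⟩ := hE u huΛ
  obtain ⟨β', hβ'⟩ : ∃ β' : ℤ, β' = β - b - c * α := ⟨_, rfl⟩
  have hy' : y = m + (α : ℚ) • e + (β : ℚ) • f := by
    rw [hm]
    abel
  have hgy : g y = (α : ℚ) • e + (β' : ℚ) • f + (p : ℤ) • ((b' : ℚ) • m) := by
    have h1 : (b' : ℚ) * p + a' * α = 1 := by exact_mod_cast hab
    have h2 : ((p : ℤ) • ((b' : ℚ) • m) : V) = ((b' : ℚ) * p) • m := by
      rw [← Int.cast_smul_eq_zsmul ℚ, smul_smul, mul_comm]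
      push_cast
      rfl
    have h3 : (b' : ℚ) * p = 1 - a' * α := by linarith
    rw [h2, h3, hgx, hα, hb, hc, hu, hβ']
    nth_rewrite 1 [hy']
    push_cast
    module
  have h1 : Cg Λ p (g y) ((α : ℚ) • e + (β' : ℚ) • f) := by
    refine ⟨(b' : ℚ) • m, zs_mem hmΛ _, ?_⟩
    rw [hgy, add_sub_cancel_left]
    exact (Int.cast_smul_eq_zsmul ℚ _ _).symm
  have h2 : (α : ℚ) • e + (β' : ℚ) • f ∈ Λ := Λ.add_mem (zs_mem he _) (zs_mem hf _)
  have h3 := h1.norm hs hE h2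
  rw [hg.1] at h3
  have h4 : B ((α : ℚ) • e + (β' : ℚ) • f) ((α : ℚ) • e + (β' : ℚ) • f) = 2 * α * β' := by
    rw [norm_lin hs, hee, hef, hff]
    ring
  rw [h4] at h3
  have h5 := hyy.sub h3
  rw [sub_sub_cancel] at h5
  have h6 : (p : ℤ) ∣ α * β' := by
    obtain ⟨n, hn⟩ := h5
    refine ⟨n, ?_⟩
    have h7 : (2 : ℚ) * (α * β') = 2 * (p * n) := by
      push_cast at hn
      linarith
    have h8 : (α : ℚ) * β' = p * n := mul_left_cancel₀ two_ne_zero h7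
    exact_mod_cast h8
  obtain ⟨n, hn⟩ := (hpp.dvd_mul.1 h6).resolve_left hpα
  refine ⟨g, hg, α, hpα, h1.trans ⟨(n : ℚ) • f, zs_mem hf _, ?_⟩⟩
  rw [add_sub_cancel_left, hn, smul_smul]
  push_cast
  rfl

end Pool.Agent.RFN
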