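import Mathlib
import Pool.Agent.Lib.MP_dcc566_gt_R.LTc
import Pool.Agent.Lib.MP_dcc566_gt_R.LTb2

/-!
# Singular vectors modulo `p` are equivalent to multiples of `e`, general case
-/

set_option autoImplicit false

namespace Pool.Agent.RFN

variable {V : Type} [AddCommGroup V] [Module ℚ V]

/-- T2.  A singular vector outside the radical is equivalent to a multiple of `e` modulo `p Λ`.

PROOF.  If `¬ Dv p (B y f)`: `to_e_of_coef`.  If `¬ Dv p (B y e)`: apply the exchange `σ`
(`exists_swap`): `B (σ y) f = B (σ y) (σ e) = B y e`,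
`to_e_of_coef` for `σ y` gives `h`, take `σ.trans h`.  If both are divisible by `p`: there is
`x ∈ Λ` with `¬ Dv p (B y x)`.
Let `u = x - B x f • e - B x e • f ∈ Λ` (integer coefficients); `B u e = B u f = 0` and
`B y u = B y x - B x f * B y e - B x e * B y f`, so
`¬ Dv p (B y u)`.  Let `g` be the Eichler transformation of `f` and `u`
(`exists_eich hs hE hf hu hff _`):
`g y = y + B y f • u - B y u • f - (B u u / 2 * B y f) • f` and
`B (g y) e = B y e - B y u - (B u u / 2) * B y f` (using `B f e = 1`, `B u e = 0`), so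
`¬ Dv p (B (g y) e)`; `g y` is in the second case
(`B (g y) (g y) = B y y`): compose. -/
theorem to_e {B : Frm V} (hs : ∀ x y, B x y = B y x) {Λ : AddSubgroup V} (hE : EvL B Λ)
    {e f : V} (he : e ∈ Λ) (hf : f ∈ Λ) (hee : B e e = 0) (hff : B f f = 0) (hef : B e f = 1)
    {p : ℕ} (hp : p.Prime) {y : V} (hy : y ∈ Λ) (hyy : Dv (2 * p) (B y y))
    (hnr : ¬ ∀ x ∈ Λ, Dv p (B y x)) :
    ∃ h : V ≃ₗ[ℚ] V, OL B Λ h ∧ ∃ a : ℤ, ¬ (p : ℤ) ∣ a ∧ Cg Λ p (h y) ((a : ℚ) • e) := by
  have case2 : ∀ y' ∈ Λ, Dv (2 * p) (B y' y') → ¬ Dv p (B y' e) →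
      ∃ h : V ≃ₗ[ℚ] V, OL B Λ h ∧ ∃ a : ℤ, ¬ (p : ℤ) ∣ a ∧ Cg Λ p (h y') ((a : ℚ) • e) := by
    intro y' hy' hyy' hye
    obtain ⟨σ, hσ, hσe, hσf⟩ := exists_swap hs hE he hf hee hff hef
    have h1 : B (σ y') f = B y' e := by
      rw [← hσe, hσ.1]
    obtain ⟨h, hh, a, ha, hc⟩ := to_e_of_coef hs hE he hf hee hff hef hp (hσ.mem hy')
      (by rw [hσ.1]; exact hyy') (by rw [h1]; exact hye)
    exact ⟨σ.trans h, hσ.trans hh, a, ha, hc⟩
  by_cases hyf : Dv p (B y f)
  · by_cases hye : Dv p (B y e)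
    · push Not at hnr
      obtain ⟨x, hx, hyx⟩ := hnr
      have hfe : B f e = 1 := by rw [hs f e, hef]
      obtain ⟨n1, hn1⟩ := EvL.isZ hs hE hx hf
      obtain ⟨n2, hn2⟩ := EvL.isZ hs hE hx he
      let u : V := x - (n1 : ℚ) • e - (n2 : ℚ) • f
      have hu : u ∈ Λ := Λ.sub_mem (Λ.sub_mem hx (zs_mem he n1)) (zs_mem hf n2)
      have hfu : B f u = 0 := by
        simp only [u, map_sub, map_smul, smul_eq_mul]
        rw [hfe, hff, hs f x, hn1]
        ring
      have hue : B u e = 0 := by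
        simp only [u, map_sub, map_smul, LinearMap.sub_apply, LinearMap.smul_apply, smul_eq_mul]
        rw [hee, hfe, hn2]
        ring
      have hyu : B y u = B y x - n1 * B y e - n2 * B y f := by
        simp only [u, map_sub, map_smul, smul_eq_mul]
      obtain ⟨g, hg, hgx⟩ := exists_eich hs hE hf hu hff hfu
      obtain ⟨m, hm⟩ := hE u hu
      have hge : B (g y) e = B y e - B y u - m * B y f := by
        rw [hgx y]
        simp only [map_add, map_sub, map_smul, LinearMap.add_apply, LinearMap.sub_apply,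
          LinearMap.smul_apply, smul_eq_mul]
        rw [hue, hfe, hm]
        push_cast
        ring
      have hnge : ¬ Dv p (B (g y) e) := by
        intro h
        apply hyx
        have e1 : B y x = (n1 : ℚ) * B y e + (n2 : ℚ) * B y f + B y e - (m : ℚ) * B y f
            - B (g y) e := by
          rw [hge, hyu]
          ring
        rw [e1]
        exact ((((hye.mul_int n1).add (hyf.mul_int n2)).add hye).sub (hyf.mul_int m)).sub h
      obtain ⟨h, hh, a, ha, hc⟩ := case2 (g y) (hg.mem hy) (by rw [hg.1]; exact hyy) hnge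
      exact ⟨g.trans h, hg.trans hh, a, ha, hc⟩
    · exact case2 y hy hyy hye
  · exact to_e_of_coef hs hE he hf hee hff hef hp hy hyy hyf

end Pool.Agent.RFN
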