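import Mathlib
import Pool.Agent.Lib.MP_dcc566_gt_R.LTc2

/-!
# Neighbours of a lattice: definitions and basic facts
-/

set_option autoImplicit false

namespace Pool.Agent.RFN

variable {V : Type} [AddCommGroup V] [Module ℚ V]

/-- The neighbour `{z ∈ Λ : p ∣ (z, y)} + ℤ y/p` of `Λ`. -/
def Nbr (B : Frm V) (Λ : AddSubgroup V) (p : ℕ) (y : V) : AddSubgroup V where
  carrier := {x | ∃ z ∈ Λ, ∃ k : ℤ, Dv p (B z y) ∧ x = z + ((k : ℚ) / p) • y}
  add_mem' := by
    rintro _ _ ⟨z, hz, k, h, rfl⟩ ⟨z', hz', k', h', rfl⟩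
    refine ⟨z + z', Λ.add_mem hz hz', k + k', ?_, ?_⟩
    · rw [map_add, LinearMap.add_apply]
      exact h.add h'
    · push_cast
      rw [add_div, add_smul]
      abel
  zero_mem' := ⟨0, Λ.zero_mem, 0, by rw [map_zero, LinearMap.zero_apply]; exact Dv.zero _, by simp⟩
  neg_mem' := by
    rintro _ ⟨z, hz, k, h, rfl⟩
    refine ⟨-z, Λ.neg_mem hz, -k, ?_, ?_⟩
    · rw [map_neg, LinearMap.neg_apply]
      exact h.neg
    · push_cast
      rw [neg_div, neg_smul, neg_add]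

theorem mem_Nbr {B : Frm V} {Λ : AddSubgroup V} {p : ℕ} {y x : V} :
    x ∈ Nbr B Λ p y ↔ ∃ z ∈ Λ, ∃ k : ℤ, Dv p (B z y) ∧ x = z + ((k : ℚ) / p) • y := Iff.rfl

variable {B : Frm V} {Λ Λ' Λ'' : AddSubgroup V}

theorem MapsL.trans {g h : V ≃ₗ[ℚ] V} (hg : MapsL g Λ Λ') (hh : MapsL h Λ' Λ'') :
    MapsL (g.trans h) Λ Λ'' := fun x => by rw [LinearEquiv.trans_apply, hh, hg]

theorem MapsL.symm {g : V ≃ₗ[ℚ] V} (hg : MapsL g Λ Λ') : MapsL g.symm Λ' Λ :=
  fun x => by rw [← hg, LinearEquiv.apply_symm_apply]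

theorem IsIso.trans {g h : V ≃ₗ[ℚ] V} (hg : IsIso B B g) (hh : IsIso B B h) :
    IsIso B B (g.trans h) :=
  fun x y => by rw [LinearEquiv.trans_apply, LinearEquiv.trans_apply, hh, hg]

theorem IsIso.symm {g : V ≃ₗ[ℚ] V} (hg : IsIso B B g) : IsIso B B g.symm :=
  fun x y => by rw [← hg, LinearEquiv.apply_symm_apply, LinearEquiv.apply_symm_apply]

/-- Maximality is preserved by isometries. -/
theorem MaxE.map {g : V ≃ₗ[ℚ] V} (hi : IsIso B B g) (hg : MapsL g Λ Λ') (h : MaxE B Λ) :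
    MaxE B Λ' where
  even := fun x hx => by
    have h1 := h.even (g.symm x) ((hg.symm x).2 hx)
    rwa [hi.symm] at h1
  full := fun v => by
    obtain ⟨n, hn, h1⟩ := h.full (g.symm v)
    refine ⟨n, hn, ?_⟩
    have h2 := (hg _).2 h1
    rwa [map_smul, LinearEquiv.apply_symm_apply] at h2
  max := fun x h1 h2 => by
    have h3 : g.symm x ∈ Λ := h.max _ (fun y hy => by
      have h4 := h1 (g y) ((hg y).2 hy)
      rw [← hi (g.symm x) y, LinearEquiv.apply_symm_apply]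
      exact h4) (by rw [hi.symm]; exact h2)
    have h5 := (hg _).2 h3
    rwa [LinearEquiv.apply_symm_apply] at h5

/-- A maximal lattice which is contained in another maximal lattice is equal to it. -/
theorem MaxE.eq_of_le (hs : ∀ x y, B x y = B y x) (h : MaxE B Λ) (h' : MaxE B Λ') (hle : Λ' ≤ Λ) :
    Λ = Λ' := by
  refine le_antisymm (fun x hx => ?_) hle
  exact h'.max x (fun y hy => EvL.isZ hs h.even hx (hle hy)) (h.even x hx)

end Pool.Agent.RFN
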