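import Mathlib
import Pool.Agent.Lib.MP_dcc566_gt_R.LMa

/-!
# Neighbours: dependence on the vector, isometries
-/

set_option autoImplicit false

namespace Pool.Agent.RFN

variable {V : Type} [AddCommGroup V] [Module ℚ V]

/-- One inclusion.

PROOF.  `y' = c • y + p • w`.  `B y' y' = c² B y y + 2 p c B w y + p² B w w`; `B y y`, `B y' y'` are in `2 p² ℤ`, `B w w ∈ 2 ℤ`, so
`2 p c B w y ∈ 2 p² ℤ`, so `c * B w y ∈ p ℤ` (`p ≠ 0`), `B w y` is an integer (`EvL.isZ`), `p ∤ c`, `p` prime: `Dv p (B w y)` (`hwy`).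
Let `x = z + (k/p) • y' ∈ Nbr B Λ p y'`, `z ∈ Λ`, `Dv p (B z y')`.  `B z y' = c B z y + p B z w`, so `Dv p (B z y)`.
`x = (z + k • w) + (k c / p) • y`, and `B (z + k • w) y = B z y + k B w y` is divisible by `p`.  So `x ∈ Nbr B Λ p y`. -/
theorem nbr_le {B : Frm V} (hs : ∀ x y, B x y = B y x) {Λ : AddSubgroup V} (hE : EvL B Λ)
    {p : ℕ} (hp : p.Prime) {y y' w : V} (hy : y ∈ Λ) (hw : w ∈ Λ) {c : ℤ} (hc : ¬ (p : ℤ) ∣ c)
    (h : y' = (c : ℚ) • y + (p : ℚ) • w) (hyy : Dv (2 * p ^ 2) (B y y))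
    (hyy' : Dv (2 * p ^ 2) (B y' y')) : Nbr B Λ p y' ≤ Nbr B Λ p y := by
  have hp0 : (p : ℤ) ≠ 0 := by exact_mod_cast hp.ne_zero
  have hpq : (p : ℚ) ≠ 0 := by exact_mod_cast hp.ne_zero
  have hpp : Prime (p : ℤ) := Nat.prime_iff_prime_int.1 hp
  obtain ⟨a, ha⟩ := hyy
  obtain ⟨b, hb⟩ := hyy'
  obtain ⟨m, hm⟩ := hE w hw
  obtain ⟨n, hn⟩ := EvL.isZ hs hE hw hy
  have h1 : B y' y' = (c : ℚ) ^ 2 * B y y + 2 * p * c * B w y + (p : ℚ) ^ 2 * B w w := by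
    rw [h]
    simp only [map_add, map_smul, LinearMap.add_apply, LinearMap.smul_apply, smul_eq_mul]
    rw [hs y w]
    ring
  rw [ha, hb, hm, hn] at h1
  have h2 : (p : ℤ) * (p * b) = p * (p * (a * c ^ 2) + c * n + p * m) := by
    have h3 : (2 : ℚ) * ((p : ℤ) * (p * b) : ℤ) =
        2 * ((p : ℤ) * (p * (a * c ^ 2) + c * n + p * m) : ℤ) := by
      push_cast at h1 ⊢
      linear_combination h1
    exact_mod_cast mul_left_cancel₀ (two_ne_zero) h3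
  have h4 := mul_left_cancel₀ hp0 h2
  have h5 : (p : ℤ) ∣ c * n := ⟨b - a * c ^ 2 - m, by linear_combination -h4⟩
  have h6 : (p : ℤ) ∣ n := (hpp.dvd_or_dvd h5).resolve_left hc
  have hwy : Dv p (B w y) := by
    rw [hn]
    exact Dv_int.2 h6
  rintro x ⟨z, hz, k, ⟨t, ht⟩, rfl⟩
  obtain ⟨u, hu⟩ := EvL.isZ hs hE hz hy
  obtain ⟨v, hv⟩ := EvL.isZ hs hE hz hw
  have h7 : c * u + p * v = p * t := by
    have h8 : B z y' = (c : ℚ) * B z y + p * B z w := by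
      rw [h, map_add, map_smul, map_smul, smul_eq_mul, smul_eq_mul]
    rw [hu, hv, ht] at h8
    exact_mod_cast h8.symm
  have h9 : (p : ℤ) ∣ c * u := ⟨t - v, by linear_combination h7⟩
  have h10 : (p : ℤ) ∣ u := (hpp.dvd_or_dvd h9).resolve_left hc
  have hzy : Dv p (B z y) := by
    rw [hu]
    exact Dv_int.2 h10
  refine ⟨z + (k : ℚ) • w, Λ.add_mem hz (zs_mem hw k), k * c, ?_, ?_⟩
  · rw [map_add, map_smul, LinearMap.add_apply, LinearMap.smul_apply, smul_eq_mul]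
    exact hzy.add (hwy.mul_int k)
  · rw [h, smul_add, smul_smul, smul_smul, div_mul_cancel₀ _ hpq]
    push_cast
    rw [div_mul_eq_mul_div]
    abel

/-- The neighbour depends only on `y` modulo `p`, up to factors prime to `p`.

PROOF.  `≤`: `nbr_le`.  `≥`: choose integers `c', s` with `c' c + s p = 1` (`Int.isCoprime`, `p` prime, `p ∤ c`).
`y = c' • y' + p • (s • y - c' • w)` and `p ∤ c'`: `nbr_le` with the roles of `y`, `y'` exchanged (`y' ∈ Λ`). -/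
theorem nbr_congr {B : Frm V} (hs : ∀ x y, B x y = B y x) {Λ : AddSubgroup V} (hE : EvL B Λ)
    {p : ℕ} (hp : p.Prime) {y y' : V} (hy : y ∈ Λ) (hy' : y' ∈ Λ) {c : ℤ}
    (hc : ¬ (p : ℤ) ∣ c) (h : Cg Λ p y' ((c : ℚ) • y)) (hyy : Dv (2 * p ^ 2) (B y y))
    (hyy' : Dv (2 * p ^ 2) (B y' y')) : Nbr B Λ p y' = Nbr B Λ p y := by
  have hpp : Prime (p : ℤ) := Nat.prime_iff_prime_int.1 hp
  obtain ⟨w, hw, h⟩ := h
  have h0 : y' = (c : ℚ) • y + (p : ℚ) • w := by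
    have h1 : (p : ℚ) • w = y' - (c : ℚ) • y := by
      rw [h]
      push_cast
      rfl
    rw [h1]
    abel
  refine le_antisymm (nbr_le hs hE hp hy hw hc h0 hyy hyy') ?_
  obtain ⟨s, c', h2⟩ := (hpp.coprime_iff_not_dvd (n := c)).2 hc
  have h3 : y = (c' : ℚ) • y' + (p : ℚ) • ((s : ℚ) • y - (c' : ℚ) • w) := by
    have h4 : ((s * p + c' * c : ℤ) : ℚ) = 1 := by
      rw [h2]
      exact Int.cast_one
    have h5 : (((s * p + c' * c : ℤ) : ℚ)) • y = y := by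
      rw [h4, one_smul]
    push_cast at h5
    calc y = ((s : ℚ) * p + c' * c) • y := h5.symm
      _ = _ := by
        rw [h0]
        module
  refine nbr_le hs hE hp hy' (Λ.sub_mem (zs_mem hy s) (zs_mem hw c')) (c := c') ?_ h3 hyy' hyy
  rintro ⟨d, hd⟩
  apply hpp.not_unit
  refine isUnit_of_dvd_one ⟨s + d * c, ?_⟩
  rw [hd] at h2
  linear_combination -h2

/-- Isometries of `Λ` map neighbours to neighbours.

PROOF.  `x = z + (k/p) • y` if and only if `h x = h z + (k/p) • h y`; `h z ∈ Λ ↔ z ∈ Λ`, `B (h z) (h y) = B z y`; `h` is surjective. -/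
theorem nbr_map {B : Frm V} {Λ : AddSubgroup V} {h : V ≃ₗ[ℚ] V} (hh : OL B Λ h) (p : ℕ) (y : V) :
    MapsL h (Nbr B Λ p y) (Nbr B Λ p (h y)) := by
  intro x
  constructor
  · rintro ⟨z, hz, k, hd, hx⟩
    refine ⟨h.symm z, (MapsL.symm hh.2 z).2 hz, k, ?_, ?_⟩
    · rw [← hh.1, LinearEquiv.apply_symm_apply]
      exact hd
    · apply h.injective
      rw [hx, map_add, map_smul, LinearEquiv.apply_symm_apply]
  · rintro ⟨z, hz, k, hd, rfl⟩
    refine ⟨h z, (hh.2 z).2 hz, k, ?_, ?_⟩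
    · rw [hh.1]
      exact hd
    · rw [map_add, map_smul]

end Pool.Agent.RFN
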