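import Mathlib
import Pool.Agent.Lib.MP_dcc566_gt_R.LMa

/-!
# The neighbour at an isotropic vector of a hyperbolic pair
-/

set_option autoImplicit false

namespace Pool.Agent.RFN

variable {V : Type} [AddCommGroup V] [Module ℚ V]

/-- The linear map of the proof, for a parameter. -/
private noncomputable def tL (B : Frm V) (e f : V) (a : ℚ) : V →ₗ[ℚ] V :=
  LinearMap.id + (a⁻¹ - 1) • (B.flip f).smulRight e + (a - 1) • (B.flip e).smulRight f

private theorem tL_apply (B : Frm V) (e f : V) (a : ℚ) (x : V) :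
    tL B e f a x = x + ((a⁻¹ - 1) * B x f) • e + ((a - 1) * B x e) • f := by
  simp [tL, smul_smul]

private theorem tL_tL {B : Frm V} {e f : V} (hee : B e e = 0) (hff : B f f = 0)
    (hef : B e f = 1) (hfe : B f e = 1) {a : ℚ} (ha : a ≠ 0) (x : V) :
    tL B e f a⁻¹ (tL B e f a x) = x := by
  have h1 : B (tL B e f a x) f = a⁻¹ * B x f := by
    rw [tL_apply]
    simp only [map_add, map_smul, LinearMap.add_apply, LinearMap.smul_apply, smul_eq_mul]
    rw [hef, hff]
    ring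
  have h2 : B (tL B e f a x) e = a * B x e := by
    rw [tL_apply]
    simp only [map_add, map_smul, LinearMap.add_apply, LinearMap.smul_apply, smul_eq_mul]
    rw [hee, hfe]
    ring
  rw [tL_apply B e f a⁻¹, h1, h2, tL_apply, inv_inv]
  have e1 : (a - 1) * (a⁻¹ * B x f) = -((a⁻¹ - 1) * B x f) := by
    field_simp
    ring
  have e2 : (a⁻¹ - 1) * (a * B x e) = -((a - 1) * B x e) := by
    field_simp
    ring
  rw [e1, e2]
  module

/-- The neighbour of `Λ` at `e` is isometric to `Λ`.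

PROOF.  `g x = x + ((1/p - 1) * B x f) • e + ((p - 1) * B x e) • f` (a linear map; inverse: the same formula with `1/p` and `p`
exchanged, i.e. `x + ((p - 1) * B x f) • e + ((1/p - 1) * B x e) • f`; use `B (g x) f = B x f / p`, `B (g x) e = p B x e`).  Isometry: expand
with `hee hff hef` and symmetry: `B (g x) (g y) = B x y + ((1/p - 1) + (p - 1) + (1/p - 1) (p - 1)) (B x f B y e + B x e B y f)` and the
bracket is `0`.  `g x = (x + (p - 1) B x e • f - B x f • e) + (B x f / p) • e`.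
If `x ∈ Λ`: `z = x + ((p - 1) B x e) • f - B x f • e ∈ Λ`, `B z e = p B x e`, `k = B x f`: `g x ∈ Nbr B Λ p e`.
Conversely let `g x = z + (k/p) • e`, `z ∈ Λ`, `B z e = p n`: `x = g⁻¹ z + (k/p) • g⁻¹ e`, `g⁻¹ e = p • e`, and
`g⁻¹ z = z + ((p - 1) B z f) • e + ((1/p - 1) p n) • f = z + ((p - 1) B z f) • e + ((1 - p) n) • f ∈ Λ`.  So `x ∈ Λ`. -/
theorem nbr_e {B : Frm V} (hs : ∀ x y, B x y = B y x) {Λ : AddSubgroup V} (hE : EvL B Λ)
    {e f : V} (he : e ∈ Λ) (hf : f ∈ Λ) (hee : B e e = 0) (hff : B f f = 0) (hef : B e f = 1)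
    {p : ℕ} (hp : p.Prime) : ∃ g : V ≃ₗ[ℚ] V, IsIso B B g ∧ MapsL g Λ (Nbr B Λ p e) := by
  have hpq : (p : ℚ) ≠ 0 := by exact_mod_cast hp.ne_zero
  have hfe : B f e = 1 := by rw [hs, hef]
  have hq : ((p : ℚ))⁻¹ ≠ 0 := inv_ne_zero hpq
  let g : V ≃ₗ[ℚ] V := LinearEquiv.ofLinear (tL B e f p) (tL B e f (p : ℚ)⁻¹)
    (LinearMap.ext fun x => by
      have h1 := tL_tL hee hff hef hfe hq x
      rw [inv_inv] at h1
      exact h1)
    (LinearMap.ext fun x => tL_tL hee hff hef hfe hpq x)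
  have hg : ∀ x, g x = x + (((p : ℚ)⁻¹ - 1) * B x f) • e + (((p : ℚ) - 1) * B x e) • f :=
    fun x => tL_apply B e f p x
  have hgs : ∀ x, g.symm x = x + (((p : ℚ) - 1) * B x f) • e +
      (((p : ℚ)⁻¹ - 1) * B x e) • f := fun x => by
    have h1 := tL_apply B e f (p : ℚ)⁻¹ x
    rw [inv_inv] at h1
    exact h1
  refine ⟨g, ?_, ?_⟩
  · intro x y
    rw [hg, hg]
    simp only [map_add, map_smul, LinearMap.add_apply, LinearMap.smul_apply, smul_eq_mul]
    rw [hee, hff, hef, hfe, hs e y, hs f y]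
    field_simp
    ring
  · intro x
    constructor
    · rintro ⟨z, hz, k, ⟨n, hn⟩, hx⟩
      obtain ⟨u, hu⟩ := EvL.isZ hs hE hz hf
      have hx' : x = g.symm z + ((k : ℚ) / p) • g.symm e := by
        apply g.injective
        rw [hx, map_add, map_smul, LinearEquiv.apply_symm_apply, LinearEquiv.apply_symm_apply]
      rw [hx', hgs z, hgs e, hef, hee, hu, hn]
      have h2 : z + (((p : ℚ) - 1) * u) • e + (((p : ℚ)⁻¹ - 1) * ((p : ℤ) * n)) • f +
          ((k : ℚ) / p) • (e + (((p : ℚ) - 1) * 1) • e + (((p : ℚ)⁻¹ - 1) * 0) • f) =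
          z + ((((p : ℤ) - 1) * u : ℤ) : ℚ) • e + (((1 - p) * n : ℤ) : ℚ) • f +
            ((k : ℤ) : ℚ) • e := by
        have e1 : ((p : ℚ)⁻¹ - 1) * ((p : ℤ) * n) = (((1 - p) * n : ℤ) : ℚ) := by
          push_cast
          field_simp
        have e2 : ((k : ℚ) / p) • (e + (((p : ℚ) - 1) * 1) • e +
            (((p : ℚ)⁻¹ - 1) * 0) • f) = (k : ℚ) • e := by
          rw [mul_zero, zero_smul, add_zero, mul_one]
          have e3 : e + ((p : ℚ) - 1) • e = (p : ℚ) • e := by module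
          rw [e3, smul_smul, div_mul_cancel₀ _ hpq]
        rw [e1, e2]
        push_cast
        rfl
      rw [h2]
      exact Λ.add_mem (Λ.add_mem (Λ.add_mem hz (zs_mem he _)) (zs_mem hf _)) (zs_mem he _)
    · intro hx
      obtain ⟨u, hu⟩ := EvL.isZ hs hE hx hf
      obtain ⟨v, hv⟩ := EvL.isZ hs hE hx he
      refine ⟨x + ((((p : ℤ) - 1) * v : ℤ) : ℚ) • f + ((-u : ℤ) : ℚ) • e,
        Λ.add_mem (Λ.add_mem hx (zs_mem hf _)) (zs_mem he _), u, ⟨v, ?_⟩, ?_⟩
      · simp only [map_add, map_smul, LinearMap.add_apply, LinearMap.smul_apply, smul_eq_mul]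
        rw [hee, hfe, hv]
        push_cast
        ring
      · rw [hg, hu, hv]
        have e1 : ((p : ℚ)⁻¹ - 1) * (u : ℚ) = (((-u : ℤ) : ℚ)) + (u : ℚ) / p := by
          push_cast
          field_simp
          ring
        rw [e1]
        push_cast
        module

end Pool.Agent.RFN
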