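import Mathlib
import Pool.Agent.Lib.MP_dcc566_gt_R.LMb
import Pool.Agent.Lib.MP_dcc566_gt_R.LMc
import Pool.Agent.Lib.MP_dcc566_gt_R.LMd

/-!
# Maximal even lattices containing a hyperbolic pair: one class
-/

set_option autoImplicit false

namespace Pool.Agent.RFN

open Module

variable {V : Type} [AddCommGroup V] [Module ℚ V]

/-- Neighbours are isometric to `Λ`. -/
theorem nbr_iso {B : Frm V} (hs : ∀ x y, B x y = B y x) {Λ : AddSubgroup V} (hE : EvL B Λ)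
    {e f : V} (he : e ∈ Λ) (hf : f ∈ Λ) (hee : B e e = 0) (hff : B f f = 0) (hef : B e f = 1)
    {p : ℕ} (hp : p.Prime) {y : V} (hy : y ∈ Λ) (hyy : Dv (2 * p ^ 2) (B y y))
    (hnr : ¬ ∀ x ∈ Λ, Dv p (B y x)) :
    ∃ g : V ≃ₗ[ℚ] V, IsIso B B g ∧ MapsL g Λ (Nbr B Λ p y) := by
  have hyy1 : Dv (2 * p) (B y y) := hyy.of_dvd ⟨p, by ring⟩
  obtain ⟨h, hh, a, ha, hc⟩ := to_e hs hE he hf hee hff hef hp hy hyy1 hnr
  obtain ⟨g, hg, hgm⟩ := nbr_e hs hE he hf hee hff hef hp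
  have hee' : Dv (2 * p ^ 2) (B e e) := by rw [hee]; exact Dv.zero _
  have hhy : Dv (2 * p ^ 2) (B (h y) (h y)) := by rw [hh.1]; exact hyy
  have h1 := nbr_congr hs hE hp he (hh.mem hy) ha hc hee' hhy
  refine ⟨g.trans h.symm, hg.trans (IsIso.symm hh.1), ?_⟩
  refine hgm.trans ?_
  rw [← h1]
  exact (nbr_map hh p y).symm

theorem thmM_aux [FiniteDimensional ℚ V] {B : Frm V} (hB : Nd B) {Λ' : AddSubgroup V}
    (hM' : MaxE B Λ') (n : ℕ) : ∀ Λ : AddSubgroup V, MaxE B Λ → Λ.relIndex Λ' = n →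
    (∃ e ∈ Λ, ∃ f ∈ Λ, B e e = 0 ∧ B f f = 0 ∧ B e f = 1) →
    ∃ g : V ≃ₗ[ℚ] V, IsIso B B g ∧ MapsL g Λ Λ' := by
  induction n using Nat.strong_induction_on with
  | _ n ih =>
  intro Λ hM hn hhyp
  have hs := hB.symm
  by_cases hle : Λ' ≤ Λ
  · rw [hM.eq_of_le hs hM' hle]
    exact ⟨LinearEquiv.refl ℚ V, fun _ _ => rfl, fun _ => Iff.rfl⟩
  · obtain ⟨e, he, f, hf, hee, hff, hef⟩ := hhyp
    obtain ⟨p, x, hp, hx', hx, hpx⟩ := exists_prime_order hM.full hle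
    have hp0 : (p : ℚ) ≠ 0 := by exact_mod_cast hp.ne_zero
    have hyy : Dv (2 * p ^ 2) (B ((p : ℚ) • x) ((p : ℚ) • x)) := by
      obtain ⟨m, hm⟩ := hM'.even x hx'
      refine ⟨m, ?_⟩
      simp only [map_smul, LinearMap.smul_apply, smul_eq_mul, hm]
      push_cast
      ring
    have hnr : ¬ ∀ z ∈ Λ, Dv p (B ((p : ℚ) • x) z) := by
      intro h
      refine hx (hM.max x (fun z hz => ?_) (hM'.even x hx'))
      obtain ⟨m, hm⟩ := h z hz
      refine ⟨m, ?_⟩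
      rw [map_smul, LinearMap.smul_apply, smul_eq_mul] at hm
      push_cast at hm
      exact mul_left_cancel₀ hp0 hm
    obtain ⟨g, hg, hgm⟩ := nbr_iso hs hM.even he hf hee hff hef hp hpx hyy hnr
    set N := Nbr B Λ p ((p : ℚ) • x) with hN
    have hxN : x ∈ N := ⟨0, Λ.zero_mem, 1, by rw [map_zero, LinearMap.zero_apply]; exact Dv.zero _,
      by rw [smul_smul]; push_cast; rw [one_div, inv_mul_cancel₀ hp0, one_smul, zero_add]⟩
    have hle' : Λ ⊓ Λ' ≤ N := by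
      rintro z ⟨hz, hz'⟩
      refine ⟨z, hz, 0, ?_, by simp⟩
      rw [map_smul, smul_eq_mul]
      obtain ⟨m, hm⟩ := EvL.isZ hs hM'.even hz' hx'
      exact ⟨m, by rw [hm]; push_cast; rfl⟩
    have hlt := relIndex_lt (relIndex_ne_zero hB hM.full hM'.even hM'.full) hle' hx' hx hxN
    have hMN : MaxE B N := hM.map hg hgm
    obtain ⟨g', hg', hgm'⟩ := ih (N.relIndex Λ') (hn ▸ hlt) N hMN rfl
      ⟨g e, (hgm e).2 he, g f, (hgm f).2 hf, by rw [hg, hee], by rw [hg, hff], by rw [hg, hef]⟩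
    exact ⟨g.trans g', hg.trans hg', hgm.trans hgm'⟩

/-- BLOCK M: maximal even lattices of a space with a lattice containing a hyperbolic pair are isometric. -/
theorem thmM [FiniteDimensional ℚ V] {B : Frm V} (hB : Nd B) {Λ Λ' : AddSubgroup V}
    (hM : MaxE B Λ) {e f : V} (he : e ∈ Λ) (hf : f ∈ Λ) (hee : B e e = 0) (hff : B f f = 0)
    (hef : B e f = 1) (hM' : MaxE B Λ') :
    ∃ g : V ≃ₗ[ℚ] V, IsIso B B g ∧ MapsL g Λ Λ' :=
  thmM_aux hB hM' _ Λ hM rfl ⟨e, he, f, hf, hee, hff, hef⟩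

end Pool.Agent.RFN
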