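import Mathlib
import Pool.Agent.Lib.MP_dcc566_gt_R.Bas

/-!
# Existence of maximal even lattices
-/

set_option autoImplicit false

namespace Pool.Agent.RFN

variable {V : Type} [AddCommGroup V] [Module ℚ V]

/-- M0.  Every full even lattice is contained in a maximal even lattice.

PROOF.  Zorn's lemma (`zorn_le_nonempty₀`) for the set `{X : AddSubgroup V | EvL B X ∧ L ≤ X}`: a nonempty chain `C` has the upper
bound `sSup C`, whose elements are the elements of the members of `C` (`AddSubgroup.mem_sSup_of_directedOn`), so it is even.  Let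
`Λ` be a maximal element.  It is even, full (contains `L`), and if `x` has integral products with `Λ` and
`B x x ∈ 2 ℤ`, then `X = Λ ⊔ AddSubgroup.zmultiples x` is even: an element is `y + k x` (`AddSubgroup.mem_sup`,
`AddSubgroup.mem_zmultiples_iff`), `B (y + k x) (y + k x) = B y y + 2 k B x y + k² B x x` (symmetry).  So `X = Λ`, `x ∈ Λ`. -/
theorem exists_maxE {B : Frm V} (hs : ∀ x y, B x y = B y x) {L : AddSubgroup V} (hE : EvL B L)
    (hF : FullL L) : ∃ Λ : AddSubgroup V, L ≤ Λ ∧ MaxE B Λ := by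
  obtain ⟨Λ, hLΛ, hmax⟩ := zorn_le_nonempty₀ {X : AddSubgroup V | EvL B X}
    (fun C hC hchain y hy => by
    refine ⟨sSup C, ?_, fun z hz => le_sSup hz⟩
    intro x hx
    obtain ⟨X, hX, hxX⟩ :=
      (AddSubgroup.mem_sSup_of_directedOn ⟨y, hy⟩ hchain.directedOn).1 hx
    exact hC hX x hxX) L hE
  have hΛ : EvL B Λ := hmax.prop
  refine ⟨Λ, hLΛ, hΛ, ?_, ?_⟩
  · intro v
    obtain ⟨n, hn, hv⟩ := hF v
    exact ⟨n, hn, hLΛ hv⟩
  · intro x hx hxx
    have hev : EvL B (Λ ⊔ AddSubgroup.zmultiples x) := by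
      intro w hw
      obtain ⟨y, hy, z, hz, rfl⟩ := AddSubgroup.mem_sup.1 hw
      obtain ⟨k, rfl⟩ := AddSubgroup.mem_zmultiples_iff.1 hz
      obtain ⟨a, ha⟩ := hΛ y hy
      obtain ⟨b, hb⟩ := hx y hy
      obtain ⟨c, hc⟩ := hxx
      refine ⟨a + k * b + k ^ 2 * c, ?_⟩
      have e : (k • x : V) = (k : ℚ) • x := (Int.cast_smul_eq_zsmul ℚ k x).symm
      have h1 := norm_lin hs 1 (k : ℚ) y x
      rw [one_smul] at h1
      rw [e, h1, ha, hs y x, hb, hc]
      push_cast
      ring
    have hle : Λ ⊔ AddSubgroup.zmultiples x ≤ Λ := hmax.le_of_ge hev le_sup_left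
    exact hle (AddSubgroup.mem_sup_right (AddSubgroup.mem_zmultiples x))

end Pool.Agent.RFN
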