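import Mathlib
import Pool.Agent.Lib.MP_dcc566_gt_R.LTc2

/-!
# Eichler transformations modulo `p`, trivial modulo `Q`
-/

set_option autoImplicit false

namespace Pool.Agent.RFN

variable {V : Type} [AddCommGroup V] [Module ℚ V]

/-- T3.  The Eichler transformation modulo `p` of a singular vector `y` outside the radical and a vector `t` orthogonal
to `y` modulo `p` lifts to an isometry of `Λ` which is trivial modulo `Q`, `Q` prime to `p`.

PROOF.  `to_e` gives `h` with `OL B Λ h`, `a` prime to `p`, `h y ≡ a • e` mod `p Λ`.  Let `a'` be an integer with `a a' ≡ 1` mod `p`;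
then `e ≡ a' • h y` mod `p Λ`.  Let `s` be an integer with `s ≡ 1` mod `p`, `s ≡ 0` mod `Q` (Chinese remainders /
Bezout, `hQ`).
`n₀ = B (h t) e` is an integer and `p ∣ n₀`: `a n₀ ≡ B (h t) (h y) = B t y ≡ 0` mod `p` (`Cg.dv` with the first argument
`h y`, symmetry) and `p ∤ a`.  Let `w₁ = (a : ℚ) • h t - (a n₀ : ℚ) • f ∈ Λ`: `B w₁ e = a n₀ - a n₀ = 0`, `w₁ ≡ a • h t` mod `p Λ`.
Let `w = (s : ℚ) • w₁`: `B w e = 0`, `w ≡ a • h t` mod `p Λ` (`Cg.coef`), `w ∈ Q Λ`: `w = Q • w₂`, `w₂ ∈ Λ`, `B w₂ w₂ = 2 k`.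
`E` from `exists_eich hs hE he hw hee _`: `E X = X + B X e • w - B X w • e - (B w w / 2 * B X e) • e`; `g = (h.trans E).trans h.symm`,
`g x = h⁻¹ (E (h x))`; `OL B Λ g`.
Modulo `Q`: for `X ∈ Λ`: `E X - X = Q • (B X e • w₂ - B X w₂ • e - (Q * k * B X e) • e)`, so `E X ≡ X` mod `Q Λ`; with `X = h x` and `Cg.map` for
`h.symm`: `g x ≡ x`.
Modulo `p`, for `x ∈ Λ`, `X = h x`: `B X e ≡ a' B X (h y) = a' B x y`; `B X w ≡ a B x t`;
`B w w / 2 ≡ a² B t t / 2` (both integers; `Cg.norm` gives `B w w ≡ a² B t t` mod `2 p`).  So modulo `p Λ`: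
`B X e • w ≡ (a' a B x y) • h t ≡ B x y • h t`, `B X w • e ≡ (a a' B x t) • h y ≡ B x t • h y`,
`(B w w / 2 * B X e) • e ≡ (a² (B t t / 2) a' a' B x y) • h y ≡ (B t t / 2 * B x y) • h y`.  So
`E (h x) ≡ h (x + B x y • t - B x t • y - (B t t / 2 * B x y) • y)` and apply `h⁻¹` (`Cg.map`). -/
theorem eich_lift {B : Frm V} (hs : ∀ x y, B x y = B y x) {Λ : AddSubgroup V} (hE : EvL B Λ)
    {e f : V} (he : e ∈ Λ) (hf : f ∈ Λ) (hee : B e e = 0) (hff : B f f = 0) (hef : B e f = 1)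
    {p : ℕ} (hp : p.Prime) {Q : ℕ} (hQ : Nat.Coprime Q p) {y t : V} (hy : y ∈ Λ) (ht : t ∈ Λ)
    (hyy : Dv (2 * p) (B y y)) (hnr : ¬ ∀ x ∈ Λ, Dv p (B y x)) (hyt : Dv p (B y t)) :
    ∃ g : V ≃ₗ[ℚ] V, OL B Λ g ∧ (∀ x ∈ Λ, Cg Λ Q (g x) x) ∧
      ∀ x ∈ Λ, Cg Λ p (g x) (x + B x y • t - B x t • y - (B t t / 2 * B x y) • y) := by
  obtain ⟨h, hO, a, ha, hya⟩ := to_e hs hE he hf hee hff hef hp hy hyy hnr
  have hpi : Prime (p : ℤ) := Nat.prime_iff_prime_int.1 hp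
  obtain ⟨u, v, huv⟩ := Nat.isCoprime_iff_coprime.2 hQ
  have hht := hO.mem ht
  have hhy := hO.mem hy
  obtain ⟨n₀, hn₀⟩ := EvL.isZ hs hE hht he
  -- `p` divides `n₀`
  have hpn : (p : ℤ) ∣ n₀ := by
    have h1 := hya.dv hs hE hht
    rw [hO.1, map_smul, LinearMap.smul_apply, smul_eq_mul, hs e, hn₀] at h1
    have h2 := hyt.sub h1
    rw [sub_sub_cancel, ← Int.cast_mul, Dv_int] at h2
    exact (hpi.dvd_or_dvd h2).resolve_left ha
  -- the vector `w₁`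
  set w₁ : V := (a : ℚ) • h t - ((a * n₀ : ℤ) : ℚ) • f with hw₁
  have hw₁m : w₁ ∈ Λ := Λ.sub_mem (zs_mem hht a) (zs_mem hf _)
  have hw₁e : B w₁ e = 0 := by
    rw [hw₁, map_sub, map_smul, map_smul, LinearMap.sub_apply, LinearMap.smul_apply,
      LinearMap.smul_apply, smul_eq_mul, smul_eq_mul, hn₀, hs f e, hef]
    push_cast
    ring
  have hw₁c : Cg Λ p w₁ ((a : ℚ) • h t) := by
    obtain ⟨c, hc⟩ := hpn
    refine ⟨((-(a * c) : ℤ) : ℚ) • f, zs_mem hf _, ?_⟩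
    rw [hw₁, hc, smul_smul, sub_sub_cancel_left, ← neg_smul]
    congr 1
    push_cast
    ring
  -- the vector `w`
  set w₂ : V := (u : ℚ) • w₁ with hw₂
  have hw₂m : w₂ ∈ Λ := zs_mem hw₁m u
  set w : V := ((u * Q : ℤ) : ℚ) • w₁ with hw
  have hwm : w ∈ Λ := zs_mem hw₁m _
  have hwQ : w = ((Q : ℤ) : ℚ) • w₂ := by
    rw [hw, hw₂, smul_smul]
    congr 1
    push_cast
    ring
  have hwe : B e w = 0 := by
    rw [hs, hw, map_smul, LinearMap.smul_apply, hw₁e, smul_zero]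
  have hwc : Cg Λ p w ((a : ℚ) • h t) := by
    refine Cg.trans ?_ hw₁c
    have h1 : Cg Λ p (((u * Q : ℤ) : ℚ) • w₁) (((1 : ℤ) : ℚ) • w₁) :=
      Cg.coef ⟨-v, by linear_combination huv⟩ hw₁m
    rwa [Int.cast_one, one_smul] at h1
  obtain ⟨E, hEO, hEf⟩ := exists_eich hs hE he hwm hee hwe
  refine ⟨(h.trans E).trans h.symm, (hO.trans hEO).trans hO.symm, fun x hx => ?_, fun x hx => ?_⟩
  · -- modulo `Q`
    have hX := hO.mem hx
    obtain ⟨m₁, hm₁⟩ := EvL.isZ hs hE hX he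
    obtain ⟨m₂, hm₂⟩ := EvL.isZ hs hE hX hw₂m
    obtain ⟨k, hk⟩ := hE w₂ hw₂m
    have h1 : Cg Λ Q (E (h x)) (h x) := by
      refine ⟨(m₁ : ℚ) • w₂ - (m₂ : ℚ) • e - ((Q * k * m₁ : ℤ) : ℚ) • e,
        Λ.sub_mem (Λ.sub_mem (zs_mem hw₂m _) (zs_mem he _)) (zs_mem he _), ?_⟩
      rw [hEf, hwQ]
      simp only [map_smul, LinearMap.smul_apply, smul_eq_mul]
      rw [hm₁, hm₂, hk]
      module
    have h2 := h1.map hO.symm
    rwa [LinearEquiv.symm_apply_apply] at h2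
  · -- modulo `p`
    have hX := hO.mem hx
    obtain ⟨m₁, hm₁⟩ := EvL.isZ hs hE hX he
    obtain ⟨m₂, hm₂⟩ := EvL.isZ hs hE hx hy
    obtain ⟨m₃, hm₃⟩ := EvL.isZ hs hE hx ht
    obtain ⟨m₄, hm₄⟩ := EvL.isZ hs hE hX hwm
    obtain ⟨k₃, hk₃⟩ := hE t ht
    obtain ⟨k₄, hk₄⟩ := hE w hwm
    have e1 : (p : ℤ) ∣ m₂ - a * m₁ := by
      have h1 := hya.dv hs hE hX
      rw [hO.1, map_smul, LinearMap.smul_apply, smul_eq_mul, hs e, hm₁, hs y, hm₂,
        ← Int.cast_mul, ← Int.cast_sub, Dv_int] at h1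
      exact h1
    have e2 : (p : ℤ) ∣ m₄ - a * m₃ := by
      have h1 := hwc.dv hs hE hX
      have h0 : B ((a : ℚ) • h t) (h x) = a * B (h t) (h x) := by
        rw [map_smul, LinearMap.smul_apply, smul_eq_mul]
      rw [h0, hO.1, hs w, hm₄, hs t, hm₃,
        ← Int.cast_mul, ← Int.cast_sub, Dv_int] at h1
      exact h1
    have e3 : (p : ℤ) ∣ k₄ - a * a * k₃ := by
      have h1 := hwc.norm hs hE (zs_mem hht a)
      simp only [map_smul, LinearMap.smul_apply, smul_eq_mul] at h1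
      rw [hO.1, hk₄, hk₃] at h1
      have h2 : ((2 : ℤ) : ℚ) * k₄ - a * (a * (((2 : ℤ) : ℚ) * k₃)) =
          ((2 * (k₄ - a * a * k₃) : ℤ) : ℚ) := by
        push_cast
        ring
      rw [h2, Dv_int] at h1
      exact Int.dvd_of_mul_dvd_mul_left two_ne_zero h1
    have c1 : Cg Λ p ((m₁ : ℚ) • w) ((m₂ : ℚ) • h t) := by
      refine (hwc.zsmul m₁).trans ?_
      rw [smul_smul, ← Int.cast_mul]
      refine Cg.coef ?_ hht
      have : m₁ * a - m₂ = -(m₂ - a * m₁) := by ring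
      rw [this]
      exact e1.neg_right
    have c2 : Cg Λ p ((m₄ : ℚ) • e) ((m₃ : ℚ) • h y) := by
      refine Cg.trans ?_ (hya.zsmul m₃).symm
      rw [smul_smul, ← Int.cast_mul]
      refine Cg.coef ?_ he
      rw [mul_comm m₃ a]
      exact e2
    have c3 : Cg Λ p (((k₄ * m₁ : ℤ) : ℚ) • e) (((k₃ * m₂ : ℤ) : ℚ) • h y) := by
      refine Cg.trans ?_ (hya.zsmul (k₃ * m₂)).symm
      rw [smul_smul, ← Int.cast_mul]
      refine Cg.coef ?_ he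
      have : k₄ * m₁ - k₃ * m₂ * a = (k₄ - a * a * k₃) * m₁ - (m₂ - a * m₁) * (k₃ * a) := by ring
      rw [this]
      exact (e3.mul_right _).sub (e1.mul_right _)
    have h1 : Cg Λ p (E (h x)) (h (x + B x y • t - B x t • y - (B t t / 2 * B x y) • y)) := by
      have h2 := (((Cg.refl (Λ := Λ) (k := (p : ℤ)) (h x)).add c1).sub c2).sub c3
      rw [hEf]
      simp only [map_add, map_sub, map_smul]
      rw [hm₁, hm₂, hm₃, hm₄, hk₃, hk₄]
      have e4 : ((2 : ℤ) : ℚ) * (k₄ : ℚ) / 2 * m₁ = ((k₄ * m₁ : ℤ) : ℚ) := by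
        push_cast
        ring
      have e5 : ((2 : ℤ) : ℚ) * (k₃ : ℚ) / 2 * m₂ = ((k₃ * m₂ : ℤ) : ℚ) := by
        push_cast
        ring
      rw [e4, e5]
      exact h2
    have h2 := h1.map hO.symm
    rwa [LinearEquiv.symm_apply_apply] at h2

end Pool.Agent.RFN
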