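import Mathlib
import Pool.Agent.Lib.MP_dcc566_gt_R.LTd
import Pool.Agent.Lib.MP_dcc566_gt_R.LKb

/-!
# One step of transitivity
-/

set_option autoImplicit false

namespace Pool.Agent.RFN

variable {V : Type} [AddCommGroup V] [Module ℚ V]

/-- T4.  `z 0, ..., z (k-1)` independent modulo the radical, `x, y` singular, orthogonal to each other and to the `z i`
modulo `p`, and `z 0, ..., z (k-1), x, y` independent: an isometry of `Λ`, trivial modulo `Q`, fixes the `z i`
modulo `p` and maps `x` to `y` modulo `p Λ`.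

PROOF.  Let `z' i = z i` for `i < k`, `z' k = x`, `z' (k+1) = y` (`fun i => if i < k then z i else if i = k then x else y`).
`Ind B Λ p (k+2) z'`: if `∑ c i • z' i` pairs with `Λ` into `p ℤ` then by `hxy` (`a = c k`, `b = c (k+1)`; `Finset.sum_range_succ`)
`p ∣ c k`, `p ∣ c (k+1)`, so `∑ i < k, c i • z i` pairs with `Λ` into `p ℤ` and `hz.2` applies.
`exists_dual` with `a i = 0` (`i < k`), `a k = a (k+1) = 1` gives `t ∈ Λ` with `Dv p (B (z i) t)`, `Dv p (B x t - 1)`, `Dv p (B y t - 1)`.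
Let `u = x - y ∈ Λ`: `B u u = B x x - 2 B x y + B y y ∈ 2 p ℤ`, `Dv p (B u t)`, `u` not in the radical (`hxy` with `a = 1`, `b = -1`,
`c = 0` would give `p ∣ 1`).  `g` from `eich_lift` with `y := u`:
`g v ≡ v + B v u • t - B v t • u - (B t t / 2 * B v u) • u` mod `p Λ` for `v ∈ Λ` (`B t t / 2` is an integer).
`v = z i`: `B (z i) u = B (z i) x - B (z i) y` and `B (z i) t` are divisible by `p`: `g (z i) ≡ z i`.
`v = x`: `B x u = B x x - B x y` is divisible by `p`, `B x t ≡ 1`: `g x ≡ x - u = y`.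
(Use: if `Dv p q`, `w ∈ Λ` then `q • w = p • (n • w)`; if `Dv p (q - 1)` then `q • w ≡ w`.) -/
theorem one_step {B : Frm V} (hs : ∀ x y, B x y = B y x) {Λ : AddSubgroup V} (hE : EvL B Λ)
    {e f : V} (he : e ∈ Λ) (hf : f ∈ Λ) (hee : B e e = 0) (hff : B f f = 0) (hef : B e f = 1)
    {p : ℕ} (hp : p.Prime) {Q : ℕ} (hQ : Nat.Coprime Q p) {k : ℕ} {z : ℕ → V}
    (hz : Ind B Λ p k z) {x y : V} (hx : x ∈ Λ) (hy : y ∈ Λ)
    (hzx : ∀ i < k, Dv p (B (z i) x)) (hzy : ∀ i < k, Dv p (B (z i) y))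
    (hxx : Dv (2 * p) (B x x)) (hyy : Dv (2 * p) (B y y)) (hxy' : Dv p (B x y))
    (hxy : ∀ (a b : ℤ) (c : ℕ → ℤ), (∀ w ∈ Λ, Dv p (B ((a : ℚ) • x + (b : ℚ) • y +
      ∑ i ∈ Finset.range k, (c i : ℚ) • z i) w)) → (p : ℤ) ∣ a ∧ (p : ℤ) ∣ b) :
    ∃ g : V ≃ₗ[ℚ] V, OL B Λ g ∧ (∀ v ∈ Λ, Cg Λ Q (g v) v) ∧
      (∀ i < k, Cg Λ p (g (z i)) (z i)) ∧ Cg Λ p (g x) y := by
  classical
  set z' : ℕ → V := fun i => if i < k then z i else if i = k then x else y with hz'
  have hz1 : ∀ i, i < k → z' i = z i := fun i hi => by rw [hz']; exact if_pos hi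
  have hz2 : z' k = x := by simp [hz']
  have hz3 : z' (k + 1) = y := by simp [hz']
  have hsum : ∀ c : ℕ → ℤ, ∑ i ∈ Finset.range (k + 2), (c i : ℚ) • z' i =
      (c k : ℚ) • x + (c (k + 1) : ℚ) • y + ∑ i ∈ Finset.range k, (c i : ℚ) • z i := by
    intro c
    rw [Finset.sum_range_succ, Finset.sum_range_succ, hz2, hz3,
      Finset.sum_congr rfl fun i hi => by rw [hz1 i (Finset.mem_range.1 hi)]]
    abel
  have hind : Ind B Λ p (k + 2) z' := by
    refine ⟨fun i hi => ?_, fun c hc => ?_⟩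
    · rcases lt_trichotomy i k with h | h | h
      · rw [hz1 i h]
        exact hz.1 i h
      · rw [h, hz2]
        exact hx
      · have h4 : i = k + 1 := by omega
        rw [h4, hz3]
        exact hy
    · obtain ⟨h1, h2⟩ := hxy (c k) (c (k + 1)) c (fun w hw => by
        have := hc w hw
        rwa [hsum] at this)
      have h3 := hz.2 c (fun w hw => by
        have h4 := hc w hw
        rw [hsum] at h4
        obtain ⟨n1, hn1⟩ := EvL.isZ hs hE hx hw
        obtain ⟨n2, hn2⟩ := EvL.isZ hs hE hy hw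
        obtain ⟨m1, hm1⟩ := h1
        obtain ⟨m2, hm2⟩ := h2
        obtain ⟨n, hn⟩ := h4
        refine ⟨n - m1 * n1 - m2 * n2, ?_⟩
        rw [map_add, map_add, LinearMap.add_apply, LinearMap.add_apply, map_smul, map_smul,
          LinearMap.smul_apply, LinearMap.smul_apply, smul_eq_mul, smul_eq_mul, hn1, hn2, hm1,
          hm2] at hn
        push_cast at hn ⊢
        linarith)
      intro i hi
      rcases lt_trichotomy i k with h | h | h
      · exact h3 i h
      · rw [h]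
        exact h1
      · have h4 : i = k + 1 := by omega
        rw [h4]
        exact h2
  obtain ⟨t, ht, htd⟩ := exists_dual hs hE hp hind (fun i => if i < k then 0 else 1)
  have hzt : ∀ i < k, Dv p (B (z i) t) := by
    intro i hi
    have h1 := htd i (by omega)
    rw [hz1 i hi, if_pos hi, Int.cast_zero, sub_zero] at h1
    exact h1
  have hxt : Dv p (B x t - 1) := by
    have h1 := htd k (by omega)
    rw [hz2, if_neg (lt_irrefl k), Int.cast_one] at h1
    exact h1
  have hyt : Dv p (B y t - 1) := by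
    have h1 := htd (k + 1) (by omega)
    rw [hz3, if_neg (by omega), Int.cast_one] at h1
    exact h1
  have hu : x - y ∈ Λ := Λ.sub_mem hx hy
  have huu : Dv (2 * p) (B (x - y) (x - y)) := by
    have h1 : B (x - y) (x - y) = B x x - ((2 : ℤ) : ℚ) * B x y + B y y := by
      simp only [map_sub, LinearMap.sub_apply]
      rw [hs y x]
      push_cast
      ring
    rw [h1]
    exact (hxx.sub (hxy'.mul_left 2)).add hyy
  have hut : Dv p (B (x - y) t) := by
    have h1 : B (x - y) t = (B x t - 1) - (B y t - 1) := by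
      simp only [map_sub, LinearMap.sub_apply]
      ring
    rw [h1]
    exact hxt.sub hyt
  have hnr : ¬ ∀ w ∈ Λ, Dv p (B (x - y) w) := by
    intro h
    have h1 := (hxy 1 (-1) (fun _ => 0) (fun w hw => by
      have h2 : (((1 : ℤ) : ℚ) • x + ((-1 : ℤ) : ℚ) • y +
          ∑ i ∈ Finset.range k, (((0 : ℤ) : ℚ)) • z i) = x - y := by
        simp [sub_eq_add_neg]
      rw [h2]
      exact h w hw)).1
    have h2 : (p : ℤ) ∣ ((1 : ℕ) : ℤ) := by exact_mod_cast h1
    exact hp.one_lt.ne' (Nat.dvd_one.1 (Int.natCast_dvd_natCast.1 h2))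
  obtain ⟨g, hg1, hg2, hg3⟩ := eich_lift hs hE he hf hee hff hef hp hQ hu ht huu hnr hut
  obtain ⟨m, hm⟩ := hE t ht
  have hmm : B t t / 2 = m := by
    rw [hm]
    push_cast
    ring
  refine ⟨g, hg1, hg2, fun i hi => ?_, ?_⟩
  · refine (hg3 (z i) (hz.1 i hi)).trans ?_
    obtain ⟨n1, hn1⟩ := (hzx i hi).sub (hzy i hi)
    obtain ⟨n2, hn2⟩ := hzt i hi
    have h1 : B (z i) (x - y) = p * n1 := by
      rw [map_sub, hn1]
      push_cast
      rfl
    refine ⟨(n1 : ℚ) • t - (n2 : ℚ) • (x - y) - ((m * n1 : ℤ) : ℚ) • (x - y),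
      Λ.sub_mem (Λ.sub_mem (zs_mem ht _) (zs_mem hu _)) (zs_mem hu _), ?_⟩
    rw [h1, hn2, hmm]
    push_cast
    module
  · refine (hg3 x hx).trans ?_
    obtain ⟨n1, hn1⟩ := (hxx.of_dvd (Dvd.intro_left 2 rfl)).sub hxy'
    obtain ⟨n2, hn2⟩ := hxt
    have h1 : B x (x - y) = p * n1 := by
      rw [map_sub, hn1]
      push_cast
      rfl
    have h2 : B x t = 1 + p * n2 := by
      have h3 := sub_eq_iff_eq_add'.1 hn2
      rw [h3]
      push_cast
      rfl
    refine ⟨(n1 : ℚ) • t - (n2 : ℚ) • (x - y) - ((m * n1 : ℤ) : ℚ) • (x - y),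
      Λ.sub_mem (Λ.sub_mem (zs_mem ht _) (zs_mem hu _)) (zs_mem hu _), ?_⟩
    rw [h1, h2, hmm]
    push_cast
    module

end Pool.Agent.RFN
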