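import Mathlib
import Pool.Agent.Lib.MP_dcc566_gt_R.LTe
import Pool.Agent.Lib.MP_dcc566_gt_R.LK

/-!
# Transitivity on totally singular families at one prime
-/

set_option autoImplicit false

namespace Pool.Agent.RFN

variable {V : Type} [AddCommGroup V] [Module ℚ V]

private theorem LTf_sum {k : ℕ} (z : ℕ → V) (x y : V) (a b : ℤ) (c : ℕ → ℤ) :
    ∑ i ∈ Finset.range (k + 2), ((if i < k then c i else if i = k then a else b : ℤ) : ℚ) •
      (if i < k then z i else if i = k then x else y) =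
    (a : ℚ) • x + (b : ℚ) • y + ∑ i ∈ Finset.range k, (c i : ℚ) • z i := by
  rw [Finset.sum_range_succ, Finset.sum_range_succ]
  have h1 : ∑ i ∈ Finset.range k, ((if i < k then c i else if i = k then a else b : ℤ) : ℚ) •
      (if i < k then z i else if i = k then x else y) =
      ∑ i ∈ Finset.range k, (c i : ℚ) • z i := by
    refine Finset.sum_congr rfl fun i hi => ?_
    rw [if_pos (Finset.mem_range.1 hi), if_pos (Finset.mem_range.1 hi)]
  rw [h1]
  simp only [lt_irrefl, if_false, if_true, not_lt.2 (Nat.le_succ k),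
    (Nat.succ_ne_self k)]
  abel

/-- Two steps: `x` is moved to `y` through an auxiliary vector.

PROOF.  `chv hs hE hp hr` for the `k + 2` vectors `z 0, ..., z (k-1), x, y` (`fun i => if i < k then z i else if i = k then x else y`;
`2 * (k + 2) + 3 = 2 * k + 7`) gives `s ∈ Λ` with `Dv p (B (z i) s)`, `Dv p (B x s)`, `Dv p (B y s)`, `Dv (2 p) (B s s)` and: if
`a • s + b • x + b' • y + ∑ c i • z i` pairs with `Λ` into `p ℤ` then `p ∣ a`.
`one_step` for `(z, x, s)`: the last hypothesis: if `a • x + b • s + ∑ c i • z i` is in the radical modulo `p` then `p ∣ b` by the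
property of `s`, so `a • x + ∑ c i • z i` is in the radical modulo `p` and `p ∣ a` by `hx1`.  It gives `g₁`, `g₁ x ≡ s`, `g₁ (z i) ≡ z i`.
`one_step` for `(z, s, y)` in the same way (with `hy1`): `g₂`, `g₂ s ≡ y`, `g₂ (z i) ≡ z i`.
`g = g₁.trans g₂`: `OL.trans`; modulo `Q`: `g₂ (g₁ v) ≡ g₁ v ≡ v`; `g₂ (g₁ (z i)) ≡ g₂ (z i) ≡ z i` (`Cg.map`); `g₂ (g₁ x) ≡ g₂ s ≡ y`. -/
theorem two_steps {B : Frm V} (hs : ∀ x y, B x y = B y x) {Λ : AddSubgroup V} (hE : EvL B Λ)
    {e f : V} (he : e ∈ Λ) (hf : f ∈ Λ) (hee : B e e = 0) (hff : B f f = 0) (hef : B e f = 1)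
    {p : ℕ} (hp : p.Prime) {Q : ℕ} (hQ : Nat.Coprime Q p) {k : ℕ}
    (hr : RkGe B Λ p (2 * k + 7)) {z : ℕ → V} (hz : Ind B Λ p k z) {x y : V} (hx : x ∈ Λ)
    (hy : y ∈ Λ) (hzx : ∀ i < k, Dv p (B (z i) x)) (hzy : ∀ i < k, Dv p (B (z i) y))
    (hxx : Dv (2 * p) (B x x)) (hyy : Dv (2 * p) (B y y))
    (hx1 : ∀ (a : ℤ) (c : ℕ → ℤ), (∀ w ∈ Λ, Dv p (B ((a : ℚ) • x +
      ∑ i ∈ Finset.range k, (c i : ℚ) • z i) w)) → (p : ℤ) ∣ a)
    (hy1 : ∀ (a : ℤ) (c : ℕ → ℤ), (∀ w ∈ Λ, Dv p (B ((a : ℚ) • y +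
      ∑ i ∈ Finset.range k, (c i : ℚ) • z i) w)) → (p : ℤ) ∣ a) :
    ∃ g : V ≃ₗ[ℚ] V, OL B Λ g ∧ (∀ v ∈ Λ, Cg Λ Q (g v) v) ∧
      (∀ i < k, Cg Λ p (g (z i)) (z i)) ∧ Cg Λ p (g x) y := by
  obtain ⟨s, hsΛ, hsz', hss, hsI⟩ := chv hs hE hp (k := k + 2)
    (by
      have h1 : 2 * (k + 2) + 3 = 2 * k + 7 := by ring
      rw [h1]
      exact hr)
    (fun i => if i < k then z i else if i = k then x else y) (by
      intro i _
      show (if i < k then z i else if i = k then x else y) ∈ Λ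
      split_ifs with h1 h2
      · exact hz.1 i h1
      · exact hx
      · exact hy)
  have hzs : ∀ i < k, Dv p (B (z i) s) := by
    intro i hi
    have h := hsz' i (by omega)
    simp only [if_pos hi] at h
    exact h
  have hxs : Dv p (B x s) := by
    have h := hsz' k (by omega)
    simp only [lt_irrefl, if_false, if_true] at h
    exact h
  have hys : Dv p (B y s) := by
    have h := hsz' (k + 1) (by omega)
    simp only [not_lt.2 (Nat.le_succ k), if_false, (Nat.succ_ne_self k)] at h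
    exact h
  have hmul : ∀ (b : ℤ), (p : ℤ) ∣ b → ∀ w ∈ Λ, Dv p ((b : ℚ) * B s w) := by
    rintro b ⟨b', rfl⟩ w hw
    obtain ⟨n, hn⟩ := EvL.isZ hs hE hsΛ hw
    exact ⟨b' * n, by rw [hn]; push_cast; ring⟩
  obtain ⟨g₁, h11, h12, h13, h14⟩ := one_step hs hE he hf hee hff hef hp hQ hz hx hsΛ hzx hzs hxx
    hss hxs (by
      intro a b c H
      have hb : (p : ℤ) ∣ b := by
        refine hsI b (fun i => if i < k then c i else if i = k then a else 0) fun w hw => ?_
        have h1 := H w hw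
        have h2 : (a : ℚ) • x + (b : ℚ) • s + ∑ i ∈ Finset.range k, (c i : ℚ) • z i =
            (b : ℚ) • s + ((a : ℚ) • x + ((0 : ℤ) : ℚ) • y +
              ∑ i ∈ Finset.range k, (c i : ℚ) • z i) := by
          rw [Int.cast_zero, zero_smul, add_zero]
          abel
        rw [h2, ← LTf_sum] at h1
        exact h1
      refine ⟨hx1 a c fun w hw => ?_, hb⟩
      have h1 := (H w hw).sub (hmul b hb w hw)
      have h2 : B ((a : ℚ) • x + (b : ℚ) • s + ∑ i ∈ Finset.range k, (c i : ℚ) • z i) w -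
          (b : ℚ) * B s w = B ((a : ℚ) • x + ∑ i ∈ Finset.range k, (c i : ℚ) • z i) w := by
        simp only [map_add, map_smul, LinearMap.add_apply, LinearMap.smul_apply, smul_eq_mul]
        ring
      rwa [h2] at h1)
  obtain ⟨g₂, h21, h22, h23, h24⟩ := one_step hs hE he hf hee hff hef hp hQ hz hsΛ hy hzs hzy hss
    hyy (by rw [hs]; exact hys) (by
      intro a b c H
      have hb : (p : ℤ) ∣ a := by
        refine hsI a (fun i => if i < k then c i else if i = k then 0 else b) fun w hw => ?_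
        have h1 := H w hw
        have h2 : (a : ℚ) • s + (b : ℚ) • y + ∑ i ∈ Finset.range k, (c i : ℚ) • z i =
            (a : ℚ) • s + (((0 : ℤ) : ℚ) • x + (b : ℚ) • y +
              ∑ i ∈ Finset.range k, (c i : ℚ) • z i) := by
          rw [Int.cast_zero, zero_smul, zero_add]
          abel
        rw [h2, ← LTf_sum] at h1
        exact h1
      refine ⟨hb, hy1 b c fun w hw => ?_⟩
      have h1 := (H w hw).sub (hmul a hb w hw)
      have h2 : B ((a : ℚ) • s + (b : ℚ) • y + ∑ i ∈ Finset.range k, (c i : ℚ) • z i) w -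
          (a : ℚ) * B s w = B ((b : ℚ) • y + ∑ i ∈ Finset.range k, (c i : ℚ) • z i) w := by
        simp only [map_add, map_smul, LinearMap.add_apply, LinearMap.smul_apply, smul_eq_mul]
        ring
      rwa [h2] at h1)
  refine ⟨g₁.trans g₂, h11.trans h21, fun v hv => ?_, fun i hi => ?_, ?_⟩
  · rw [LinearEquiv.trans_apply]
    exact (h22 _ (h11.mem hv)).trans (h12 v hv)
  · rw [LinearEquiv.trans_apply]
    exact ((h13 i hi).map h21).trans (h23 i hi)
  · rw [LinearEquiv.trans_apply]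
    exact (h14.map h21).trans h24

end Pool.Agent.RFN
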