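import Mathlib
import Pool.Agent.Lib.MP_dcc566_gt_R.LTf
import Pool.Agent.Lib.MP_dcc566_gt_R.RkN

/-!
# Transitivity on totally singular families at one prime
-/

set_option autoImplicit false

namespace Pool.Agent.RFN

variable {V : Type} [AddCommGroup V] [Module ℚ V]

/-- The sum of a family whose last coefficient is `a`. -/
private theorem sum_last (k : ℕ) (c : ℕ → ℤ) (a : ℤ) (f : ℕ → V) :
    ∑ i ∈ Finset.range (k + 1), (((if i < k then c i else a : ℤ) : ℤ) : ℚ) • f i =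
      (a : ℚ) • f k + ∑ i ∈ Finset.range k, (c i : ℚ) • f i := by
  rw [Finset.sum_range_succ, if_neg (lt_irrefl k), add_comm]
  congr 1
  exact Finset.sum_congr rfl fun i hi => by rw [if_pos (Finset.mem_range.1 hi)]

/-- A totally singular family without its last vector. -/
private theorem ts_pred {B : Frm V} {Λ : AddSubgroup V} {p k : ℕ} {f : ℕ → V}
    (h : TS B Λ p (k + 1) f) : TS B Λ p k f where
  mem := fun i hi => h.mem i (hi.trans k.lt_succ_self)
  pair := fun i hi l hl => h.pair i (hi.trans k.lt_succ_self) l (hl.trans k.lt_succ_self)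
  norm := fun i hi => h.norm i (hi.trans k.lt_succ_self)
  ind := fun c hc i hi => by
    have h1 := h.ind (fun i => if i < k then c i else 0) (fun x hx => by
      rw [sum_last k c 0 f, Int.cast_zero, zero_smul, zero_add]
      exact hc x hx) i (hi.trans k.lt_succ_self)
    simpa [hi] using h1

/-- The last vector of a totally singular family is independent of the others. -/
private theorem ts_last {B : Frm V} {Λ : AddSubgroup V} {p k : ℕ} {f : ℕ → V}
    (h : TS B Λ p (k + 1) f) (a : ℤ) (c : ℕ → ℤ)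
    (hc : ∀ w ∈ Λ, Dv p (B ((a : ℚ) • f k + ∑ i ∈ Finset.range k, (c i : ℚ) • f i) w)) :
    (p : ℤ) ∣ a := by
  have h1 := h.ind (fun i => if i < k then c i else a) (fun x hx => by
    rw [sum_last k c a f]
    exact hc x hx) k k.lt_succ_self
  simpa using h1

/-- T5.  Totally singular families of the same length are equivalent under `O(Λ)` modulo `p Λ`, by an isometry trivial
modulo `Q`.

PROOF.  Induction on `j` for all `f1, f2`.  `j = 0`: the identity (`OL.refl`).  `j = k + 1`: the induction hypothesis for the families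
restricted to `i < k` (`TS B Λ p k f1`: `mem`, `pair`, `norm` by restriction; `ind`: given `c` with `∑ i < k` in the radical, use `h1.ind`
with `c k := 0`; `RkGe B Λ p (2 * k + 5)` from `rk_mono` of `RkN.lean`) gives `g₀` with `g₀ (f1 i) ≡ f2 i` mod `p Λ` for `i < k`, trivial modulo `Q`.
Apply `two_steps` with `z = f2`, `x = g₀ (f1 k)`, `y = f2 k`:
`B (f2 i) x ≡ B (g₀ (f1 i)) (g₀ (f1 k)) = B (f1 i) (f1 k)` mod `p`; `B x x = B (f1 k) (f1 k)`;
`hx1`: `a • x + ∑ c i • f2 i ≡ g₀ (a • f1 k + ∑ c i • f1 i)` mod `p Λ` (`Cg.sum`, `Cg.add`), so if it is in the radical modulo `p` then so is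
`a • f1 k + ∑ c i • f1 i` (apply with `w := g₀ w'`, `hg.1`), and `h1.ind` gives `p ∣ a`; `hy1`: `h2.ind`.
`g = g₀.trans g₁`. -/
theorem trans_one {B : Frm V} (hs : ∀ x y, B x y = B y x) {Λ : AddSubgroup V} (hE : EvL B Λ)
    {e f : V} (he : e ∈ Λ) (hf : f ∈ Λ) (hee : B e e = 0) (hff : B f f = 0) (hef : B e f = 1)
    {p : ℕ} (hp : p.Prime) {Q : ℕ} (hQ : Nat.Coprime Q p) {j : ℕ}
    (hr : RkGe B Λ p (2 * j + 5)) {f1 f2 : ℕ → V} (h1 : TS B Λ p j f1) (h2 : TS B Λ p j f2) :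
    ∃ g : V ≃ₗ[ℚ] V, OL B Λ g ∧ (∀ v ∈ Λ, Cg Λ Q (g v) v) ∧
      ∀ i < j, Cg Λ p (g (f1 i)) (f2 i) := by
  induction j with
  | zero =>
    exact ⟨LinearEquiv.refl ℚ V, OL.refl B Λ, fun v _ => Cg.refl v,
      fun i hi => absurd hi (Nat.not_lt_zero i)⟩
  | succ k ih =>
    obtain ⟨g₀, hg₀, hQ₀, h₀⟩ := ih (rk_mono hr (by omega)) (ts_pred h1) (ts_pred h2)
    have hk := k.lt_succ_self
    have hzx : ∀ i < k, Dv p (B (f2 i) (g₀ (f1 k))) := fun i hi =>
      ((h₀ i hi).dv_iff hs hE (hg₀.mem (h1.mem k hk))).1 (by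
        rw [hg₀.1]
        exact h1.pair i (hi.trans hk) k hk)
    have hx1 : ∀ (a : ℤ) (c : ℕ → ℤ), (∀ w ∈ Λ, Dv p (B ((a : ℚ) • g₀ (f1 k) +
        ∑ i ∈ Finset.range k, (c i : ℚ) • f2 i) w)) → (p : ℤ) ∣ a := by
      intro a c hc
      refine ts_last h1 a c fun w hw => ?_
      have h3 : g₀ ((a : ℚ) • f1 k + ∑ i ∈ Finset.range k, (c i : ℚ) • f1 i) =
          (a : ℚ) • g₀ (f1 k) + ∑ i ∈ Finset.range k, (c i : ℚ) • g₀ (f1 i) := by
        rw [map_add, map_smul, map_sum]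
        congr 1
        exact Finset.sum_congr rfl fun i _ => by rw [map_smul]
      rw [← hg₀.1, h3]
      have h4 : Cg Λ p ((a : ℚ) • g₀ (f1 k) + ∑ i ∈ Finset.range k, (c i : ℚ) • g₀ (f1 i))
          ((a : ℚ) • g₀ (f1 k) + ∑ i ∈ Finset.range k, (c i : ℚ) • f2 i) :=
        (Cg.refl _).add (Cg.sum h₀ c)
      exact (h4.dv_iff hs hE (hg₀.mem hw)).2 (hc (g₀ w) (hg₀.mem hw))
    obtain ⟨g₁, hg₁, hQ₁, hz₁, hx₁⟩ := two_steps hs hE he hf hee hff hef hp hQ (k := k)
      (by rwa [show 2 * (k + 1) + 5 = 2 * k + 7 by ring] at hr) (ts_pred h2).toInd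
      (x := g₀ (f1 k)) (y := f2 k) (hg₀.mem (h1.mem k hk)) (h2.mem k hk) hzx
      (fun i hi => h2.pair i (hi.trans hk) k hk) (by rw [hg₀.1]; exact h1.norm k hk)
      (h2.norm k hk) hx1 (ts_last h2)
    refine ⟨g₀.trans g₁, hg₀.trans hg₁, fun v hv => ?_, fun i hi => ?_⟩
    · rw [LinearEquiv.trans_apply]
      exact ((hQ₀ v hv).map hg₁).trans (hQ₁ v hv)
    · rw [LinearEquiv.trans_apply]
      rcases Nat.lt_succ_iff_lt_or_eq.1 hi with hi | rfl
      · exact ((h₀ i hi).map hg₁).trans (hz₁ i hi)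
      · exact hx₁

end Pool.Agent.RFN
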