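import Mathlib
import Pool.Agent.Lib.MP_dcc566_gt_R.LTf2

/-!
# Simultaneous transitivity
-/

set_option autoImplicit false

namespace Pool.Agent.RFN

variable {V : Type} [AddCommGroup V] [Module ℚ V]

/-- T6.  Simultaneous transitivity at a finite set of primes.

PROOF.  Induction on `S` (`Finset.induction_on`).  `S = ∅`: identity.  `insert p S`, `p ∉ S`: the induction hypothesis gives `g₀` with
`g₀ (f1 q i) ≡ f2 q i` mod `q Λ` for `q ∈ S`.  Let `Q = ∏ q ∈ S, q`, prime to `p` (`Nat.Coprime.prod_left`, distinct primes: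
`(Nat.coprime_primes _ _).2`).  `trans_one` for the families `fun i => g₀ (f1 p i)` (`TS.map`) and `f2 p` gives `g₁`, trivial modulo `Q`,
`g₁ (g₀ (f1 p i)) ≡ f2 p i` mod `p Λ`.  `g = g₀.trans g₁`: for `q ∈ S`: `g₁ (g₀ (f1 q i)) ≡ g₀ (f1 q i)` mod `Q Λ`, so mod `q Λ`
(`Cg.of_dvd`, `Finset.dvd_prod_of_mem`), `≡ f2 q i`. -/
theorem trans_all {B : Frm V} (hs : ∀ x y, B x y = B y x) {Λ : AddSubgroup V} (hE : EvL B Λ)
    {e f : V} (he : e ∈ Λ) (hf : f ∈ Λ) (hee : B e e = 0) (hff : B f f = 0) (hef : B e f = 1)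
    (S : Finset ℕ) (hS : ∀ p ∈ S, p.Prime) (j : ℕ → ℕ) (f1 f2 : ℕ → ℕ → V)
    (h1 : ∀ p ∈ S, TS B Λ p (j p) (f1 p)) (h2 : ∀ p ∈ S, TS B Λ p (j p) (f2 p))
    (hr : ∀ p ∈ S, RkGe B Λ p (2 * j p + 5)) :
    ∃ g : V ≃ₗ[ℚ] V, OL B Λ g ∧ ∀ p ∈ S, ∀ i < j p, Cg Λ p (g (f1 p i)) (f2 p i) := by
  classical
  induction S using Finset.induction_on with
  | empty => exact ⟨LinearEquiv.refl ℚ V, OL.refl B Λ, by simp⟩
  | insert p S hpS ih =>
    have hmem : ∀ q ∈ S, q ∈ insert p S := fun q hq => Finset.mem_insert_of_mem hq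
    have hpi : p ∈ insert p S := Finset.mem_insert_self p S
    obtain ⟨g₀, hg₀, hc₀⟩ := ih (fun q hq => hS q (hmem q hq)) (fun q hq => h1 q (hmem q hq))
      (fun q hq => h2 q (hmem q hq)) (fun q hq => hr q (hmem q hq))
    have hp := hS p hpi
    have hQ : Nat.Coprime (∏ q ∈ S, q) p := Nat.Coprime.prod_left fun q hq =>
      (Nat.coprime_primes (hS q (hmem q hq)) hp).2 (by rintro rfl; exact hpS hq)
    obtain ⟨g₁, hg₁, hm, hc₁⟩ := trans_one hs hE he hf hee hff hef hp hQ (hr p hpi)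
      ((h1 p hpi).map hg₀) (h2 p hpi)
    refine ⟨g₀.trans g₁, hg₀.trans hg₁, fun q hq i hi => ?_⟩
    rw [LinearEquiv.trans_apply]
    rcases Finset.mem_insert.1 hq with rfl | hq'
    · exact hc₁ i hi
    · have h3 : Cg Λ (q : ℤ) (g₁ (g₀ (f1 q i))) (g₀ (f1 q i)) :=
        (hm _ (hg₀.mem ((h1 q hq).mem i hi))).of_dvd
          (Int.natCast_dvd_natCast.2 (Finset.dvd_prod_of_mem (fun q => q) hq'))
      exact h3.trans (hc₀ q hq' i hi)

/-- BLOCK T: simultaneous transitivity of the isometry group of `Λ` on totally singular families. -/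
theorem trans_cut {B : Frm V} (hB : Nd B) {Λ : AddSubgroup V} (hE : EvL B Λ) {e f : V}
    (he : e ∈ Λ) (hf : f ∈ Λ) (hee : B e e = 0) (hff : B f f = 0) (hef : B e f = 1)
    (S : Finset ℕ) (hS : ∀ p ∈ S, p.Prime) (j : ℕ → ℕ) (f1 f2 : ℕ → ℕ → V)
    (h1 : ∀ p ∈ S, TS B Λ p (j p) (f1 p)) (h2 : ∀ p ∈ S, TS B Λ p (j p) (f2 p))
    (hr : ∀ p ∈ S, RkGe B Λ p (2 * j p + 5)) :
    ∃ g : V ≃ₗ[ℚ] V, IsIso B B g ∧ MapsL g Λ Λ ∧
      MapsL g (Cut B Λ S j f1) (Cut B Λ S j f2) := by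
  obtain ⟨g, hg, hc⟩ := trans_all hB.symm hE he hf hee hff hef S hS j f1 f2 h1 h2 hr
  refine ⟨g, hg.1, hg.2, fun x => ?_⟩
  constructor
  · rintro ⟨hx, hx'⟩
    have hxΛ : x ∈ Λ := (hg.2 x).1 hx
    refine ⟨hxΛ, fun p hp i hi => ?_⟩
    rw [← hg.1]
    exact ((hc p hp i hi).dv_iff hB.symm hE hx).2 (hx' p hp i hi)
  · rintro ⟨hx, hx'⟩
    have hgx : g x ∈ Λ := (hg.2 x).2 hx
    refine ⟨hgx, fun p hp i hi => ?_⟩
    refine ((hc p hp i hi).dv_iff hB.symm hE hgx).1 ?_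
    rw [hg.1]
    exact hx' p hp i hi

end Pool.Agent.RFN
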