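import Mathlib
import Pool.Agent.Lib.MP_dcc566_gt_R.FamA
import Pool.Agent.Lib.MP_dcc566_gt_R.BadT
import Pool.Agent.Lib.MP_dcc566_gt_R.Ext
import Pool.Agent.Lib.MP_dcc566_gt_R.LM
import Pool.Agent.Lib.MP_dcc566_gt_R.LM0
import Pool.Agent.Lib.MP_dcc566_gt_R.LS
import Pool.Agent.Lib.MP_dcc566_gt_R.LKg
import Pool.Agent.Lib.MP_dcc566_gt_R.LTg

/-!
# A minimal lattice without bad cusps is a maximal even lattice
-/

set_option autoImplicit false

namespace Pool.Agent.RFN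

open Module

section transport

variable {V : Type} [AddCommGroup V] [Module ℚ V] {V' : Type} [AddCommGroup V'] [Module ℚ V']

theorem IsIso.sym {B : Frm V} {B' : Frm V'} {φ : V ≃ₗ[ℚ] V'} (h : IsIso B B' φ) :
    IsIso B' B φ.symm := by
  intro x y
  have := h (φ.symm x) (φ.symm y)
  rw [φ.apply_symm_apply, φ.apply_symm_apply] at this
  exact this.symm

theorem MapsL.sym {L : AddSubgroup V} {L' : AddSubgroup V'} {φ : V ≃ₗ[ℚ] V'}
    (h : MapsL φ L L') : MapsL φ.symm L' L := by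
  intro x
  have := h (φ.symm x)
  rw [φ.apply_symm_apply] at this
  exact this.symm

/-- The image of a lattice. -/
def mapL (φ : V ≃ₗ[ℚ] V') (L : AddSubgroup V) : AddSubgroup V' :=
  L.comap φ.symm.toLinearMap.toAddMonoidHom

theorem mem_mapL {φ : V ≃ₗ[ℚ] V'} {L : AddSubgroup V} {y : V'} :
    y ∈ mapL φ L ↔ φ.symm y ∈ L := Iff.rfl

theorem maps_mapL (φ : V ≃ₗ[ℚ] V') (L : AddSubgroup V) : MapsL φ L (mapL φ L) := by
  intro x
  rw [mem_mapL, φ.symm_apply_apply]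

theorem Nd.map {B : Frm V} {B' : Frm V'} {φ : V ≃ₗ[ℚ] V'} (hφ : IsIso B B' φ) (h : Nd B) :
    Nd B' := by
  have h1 := hφ.sym
  refine ⟨fun x y => ?_, fun x hx => ?_⟩
  · rw [← h1, h.symm, h1]
  · have h2 : φ.symm x = 0 := h.nd _ (fun y => by
      have := hx (φ y)
      rw [← h1, φ.symm_apply_apply] at this
      exact this)
    rw [← φ.apply_symm_apply x, h2, map_zero]

theorem MaxE.tr {B : Frm V} {B' : Frm V'} {φ : V ≃ₗ[ℚ] V'} (hφ : IsIso B B' φ)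
    {L : AddSubgroup V} {L' : AddSubgroup V'} (hL : MapsL φ L L') (h : MaxE B L) : MaxE B' L' := by
  have h1 := hφ.sym
  have h2 := hL.sym
  refine ⟨fun x hx => ?_, fun v => ?_, fun x hx hxx => ?_⟩
  · rw [← h1]
    exact h.even _ ((h2 x).2 hx)
  · obtain ⟨n, hn, hv⟩ := h.full (φ.symm v)
    refine ⟨n, hn, ?_⟩
    rw [← h2, map_smul]
    exact hv
  · rw [← h2]
    refine h.max _ (fun y hy => ?_) ?_
    · have := hx (φ y) ((hL y).2 hy)
      rw [← h1, φ.symm_apply_apply] at this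
      exact this
    · rw [h1]
      exact hxx

theorem Dv_map_sum {B : Frm V} {B' : Frm V'} {φ : V ≃ₗ[ℚ] V'} (hφ : IsIso B B' φ) {n : ℕ}
    (c : ℕ → ℤ) (f : ℕ → V) (x : V) :
    B' (∑ i ∈ Finset.range n, (c i : ℚ) • φ (f i)) (φ x) =
      B (∑ i ∈ Finset.range n, (c i : ℚ) • f i) x := by
  have : ∑ i ∈ Finset.range n, (c i : ℚ) • φ (f i) =
      φ (∑ i ∈ Finset.range n, (c i : ℚ) • f i) := by
    rw [map_sum]
    exact Finset.sum_congr rfl fun i _ => (map_smul _ _ _).symm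
  rw [this, hφ]

theorem TS.tr {B : Frm V} {B' : Frm V'} {φ : V ≃ₗ[ℚ] V'} (hφ : IsIso B B' φ)
    {L : AddSubgroup V} {L' : AddSubgroup V'} (hL : MapsL φ L L') {p j : ℕ} {f : ℕ → V}
    (h : TS B L p j f) : TS B' L' p j (fun i => φ (f i)) := by
  refine ⟨fun i hi => (hL _).2 (h.mem i hi), fun i hi k hk => ?_, fun i hi => ?_,
    fun c hc => h.ind c (fun x hx => ?_)⟩
  · rw [hφ]
    exact h.pair i hi k hk
  · rw [hφ]
    exact h.norm i hi
  · have := hc (φ x) ((hL x).2 hx)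
    rwa [Dv_map_sum hφ] at this

theorem RkGe.map {B : Frm V} {B' : Frm V'} {φ : V ≃ₗ[ℚ] V'} (hφ : IsIso B B' φ)
    {L : AddSubgroup V} {L' : AddSubgroup V'} (hL : MapsL φ L L') {p r : ℕ}
    (h : RkGe B L p r) : RkGe B' L' p r := by
  obtain ⟨u, hu, hi⟩ := h
  refine ⟨fun i => φ (u i), fun i hi => (hL _).2 (hu i hi), fun c hc => hi c (fun x hx => ?_)⟩
  have := hc (φ x) ((hL x).2 hx)
  rwa [Dv_map_sum hφ] at this

theorem maps_Cut {B : Frm V} {B' : Frm V'} {φ : V ≃ₗ[ℚ] V'} (hφ : IsIso B B' φ)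
    {L : AddSubgroup V} {L' : AddSubgroup V'} (hL : MapsL φ L L') (S : Finset ℕ) (j : ℕ → ℕ)
    (f : ℕ → ℕ → V) : MapsL φ (Cut B L S j f) (Cut B' L' S j (fun p i => φ (f p i))) := by
  intro x
  constructor
  · rintro ⟨h1, h2⟩
    refine ⟨(hL x).1 h1, fun p hp i hi => ?_⟩
    have := h2 p hp i hi
    rwa [hφ] at this
  · rintro ⟨h1, h2⟩
    refine ⟨(hL x).2 h1, fun p hp i hi => ?_⟩
    show Dv p (B' (φ (f p i)) (φ x))
    rw [hφ]
    exact h2 p hp i hi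

end transport

/-- The hyperbolic pair of `PV X`. -/
theorem hyp_pair {X : Type} [AddCommGroup X] [Module ℚ X] (BX : Frm X) (N : AddSubgroup X) :
    ((((1 : ℚ), (0 : ℚ)), ((0 : Fin 8 → ℚ), (0 : X))) : PV X) ∈ PL N ∧
      ((((0 : ℚ), (1 : ℚ)), ((0 : Fin 8 → ℚ), (0 : X))) : PV X) ∈ PL N ∧
      PF BX (((1 : ℚ), (0 : ℚ)), ((0 : Fin 8 → ℚ), (0 : X)))
        (((1 : ℚ), (0 : ℚ)), ((0 : Fin 8 → ℚ), (0 : X))) = 0 ∧
      PF BX (((0 : ℚ), (1 : ℚ)), ((0 : Fin 8 → ℚ), (0 : X)))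
        (((0 : ℚ), (1 : ℚ)), ((0 : Fin 8 → ℚ), (0 : X))) = 0 ∧
      PF BX (((1 : ℚ), (0 : ℚ)), ((0 : Fin 8 → ℚ), (0 : X)))
        (((0 : ℚ), (1 : ℚ)), ((0 : Fin 8 → ℚ), (0 : X))) = 1 := by
  refine ⟨⟨⟨⟨1, by simp⟩, ⟨0, by simp⟩⟩, (Zk 8).zero_mem, N.zero_mem⟩,
    ⟨⟨⟨0, by simp⟩, ⟨1, by simp⟩⟩, (Zk 8).zero_mem, N.zero_mem⟩, ?_, ?_, ?_⟩ <;>
  simp [sF_apply, HF_apply]

/-- A minimal lattice without bad cusps in a space of one of the families is the maximal lattice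
of the family. -/
theorem core_gen {V : Type} [AddCommGroup V] [Module ℚ V] [FiniteDimensional ℚ V] {B : Frm V}
    (hB : Nd B) (hV : finrank ℚ V = 20) {L : AddSubgroup V} (hM : MinL B L) (hnb : ¬ BadR B L)
    {X : Type} [AddCommGroup X] [Module ℚ X] {BX : Frm X} {N : AddSubgroup X}
    (hN : FamOK BX N) (hmax : MaxE (PF BX) (PL N)) {φ : V ≃ₗ[ℚ] PV X} (hφ : IsIso B (PF BX) φ) :
    ∃ ψ : V ≃ₗ[ℚ] PV X, IsIso B (PF BX) ψ ∧ MapsL ψ L (PL N) := by
  have hfd : FiniteDimensional ℚ (PV X) := LinearEquiv.finiteDimensional φ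
  have hd : finrank ℚ (PV X) = 20 := by rw [← hV]; exact (LinearEquiv.finrank_eq φ).symm
  have hB' : Nd (PF BX) := hB.map hφ
  obtain ⟨Λ, hLΛ, hΛ⟩ := exists_maxE hB.symm hM.even hM.full
  obtain ⟨S, j, f, hS, hL⟩ := structure_thm hB hV hM hΛ hLΛ
  -- the isometry with `Λ ↦ PL N`
  obtain ⟨he, hf, hee, hff, hef⟩ := hyp_pair BX N
  obtain ⟨g, hg, hgm⟩ := thmM hB' hmax he hf hee hff hef (hΛ.tr hφ (maps_mapL φ Λ))
  set ψ : V ≃ₗ[ℚ] PV X := φ.trans g.symm with hψ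
  have hψi : IsIso B (PF BX) ψ := by
    intro x y
    rw [hψ, LinearEquiv.trans_apply, LinearEquiv.trans_apply, hg.sym, hφ]
  have hψm : MapsL ψ Λ (PL N) := by
    intro x
    rw [hψ, LinearEquiv.trans_apply, hgm.sym, maps_mapL φ Λ]
  refine ⟨ψ, hψi, ?_⟩
  have hLψ := maps_Cut hψi hψm S j f
  rw [← hL] at hLψ
  rcases S.eq_empty_or_nonempty with hS0 | hne
  · rw [hS0, Cut_empty] at hLψ
    exact hLψ
  · exfalso
    have h18 : ∀ p, p.Prime → p ≠ 2 → RkGe (PF BX) (PL N) p 18 := fun p hp hp2 =>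
      rk_max hmax hB' hd hp hp2
    have hRk : ∀ p ∈ S, RkGe (PF BX) (PL N) p (10 + 2 * j p) := fun p hp =>
      (hS p hp).2.2.2.map hψi hψm
    obtain ⟨i, hC, hij⟩ := conf_main hN hd (fun p hp => (hS p hp).1)
      (fun p hp => ⟨(hS p hp).2.1, hRk p hp⟩) h18 hne
    obtain ⟨f', hf', hbad⟩ := conf_ext hB'.symm hmax.even (fun p hp => (hS p hp).1) hC hij
    obtain ⟨h, hh, -, hhc⟩ := trans_cut hB' hmax.even he hf hee hff hef S
      (fun p hp => (hS p hp).1) j f' (fun p i => ψ (f p i)) hf'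
      (fun p hp => (hS p hp).2.2.1.tr hψi hψm)
      (fun p hp => rk_mono (hRk p hp) (by have := (hS p hp).2.1; omega))
    -- the lattice cut out by `f'` is even and full
    have hev : EvL (PF BX) (Cut (PF BX) (PL N) S j f') := fun x hx => hmax.even x hx.1
    have hfull : FullL (Cut (PF BX) (PL N) S j f') := by
      intro v
      obtain ⟨n, hn, hv⟩ := (show FullL L from hM.full) (ψ.symm (h v))
      refine ⟨n, hn, ?_⟩
      rw [← hhc, map_smul]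
      have := (hLψ ((n : ℚ) • ψ.symm (h v))).2 hv
      rwa [map_smul, ψ.apply_symm_apply] at this
    have h1 : BadR (PF BX) (Cut (PF BX) (PL N) S j f') := badR_of_badE hev hfull hbad
    have h2 := badR_iso hh hhc h1
    exact hnb (badR_iso hψi.sym hLψ.sym h2)

end Pool.Agent.RFN
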