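import Mathlib
import Pool.Agent.Lib.MP_dcc566_gt_R.CoreA
import Pool.Agent.Lib.MP_dcc566_gt.Final

/-!
# The lattices `U ⊕ E₈ ⊕ E₈ ⊕ K` without bad cusps
-/

set_option autoImplicit false

namespace Pool.Agent.RFN

open Module
open MP_dcc566_gt (bf LG EvenPD CuspBad Idx mk)

theorem FullL.pr {V : Type} [AddCommGroup V] [Module ℚ V] {V' : Type} [AddCommGroup V']
    [Module ℚ V'] {L : AddSubgroup V} {L' : AddSubgroup V'} (h : FullL L) (h' : FullL L') :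
    FullL (L.prod L') := by
  rintro ⟨x, y⟩
  obtain ⟨n, hn, hx⟩ := h x
  obtain ⟨m, hm, hy⟩ := h' y
  refine ⟨n * m, Nat.mul_pos hn hm, ?_, ?_⟩
  · show ((n * m : ℕ) : ℚ) • x ∈ L
    rw [show ((n * m : ℕ) : ℚ) = (m : ℚ) * n by push_cast; ring, mul_smul]
    exact zn_mem hx m
  · show ((n * m : ℕ) : ℚ) • y ∈ L'
    rw [Nat.cast_mul, mul_smul]
    exact zn_mem hy n

theorem fullL_ZZ : FullL ZZ := by
  rintro ⟨a, b⟩
  refine ⟨a.den * b.den, Nat.mul_pos a.den_pos b.den_pos, ⟨a.num * b.den, ?_⟩,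
    ⟨a.den * b.num, ?_⟩⟩
  · show ((a.den * b.den : ℕ) : ℚ) * a = _
    have := Rat.mul_den_eq_num a
    push_cast
    rw [← this]
    ring
  · show ((a.den * b.den : ℕ) : ℚ) * b = _
    have := Rat.mul_den_eq_num b
    push_cast
    rw [← this]
    ring

/-- The space of `U ⊕ E₈ ⊕ E₈ ⊕ K`. -/
abbrev KV : Type := PV ((Fin 8 → ℚ) × (Fin 2 → ℚ))

/-- The form of `U ⊕ E₈ ⊕ E₈ ⊕ K`. -/
noncomputable abbrev KF (K : Matrix (Fin 2) (Fin 2) ℤ) : Frm KV := PF (sF F8 (mF K))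

/-- The lattice `U ⊕ E₈ ⊕ E₈ ⊕ K`. -/
abbrev KL : AddSubgroup KV := PL ((Zk 8).prod (Zk 2))

/-- An integral vector of `LG K` as an element of `KV`. -/
def toKV (x : Idx 2 → ℤ) : KV :=
  (((x (Sum.inl 0) : ℚ), (x (Sum.inl 1) : ℚ)), (cz fun i => x (Sum.inr (Sum.inl i)),
    (cz fun i => x (Sum.inr (Sum.inr (Sum.inl i))), cz fun i => x (Sum.inr (Sum.inr (Sum.inr i))))))

theorem toKV_mk (a b : ℤ) (u₁ u₂ : Fin 8 → ℤ) (z : Fin 2 → ℤ) :
    toKV (mk a b u₁ u₂ z) = (((a : ℚ), (b : ℚ)), (cz u₁, (cz u₂, cz z))) := rfl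

theorem KF_toKV (K : Matrix (Fin 2) (Fin 2) ℤ) (x y : Idx 2 → ℤ) :
    KF K (toKV x) (toKV y) = ((bf (LG K) x y : ℤ) : ℚ) := by
  obtain ⟨a, b, u₁, u₂, z, rfl⟩ := MP_dcc566_gt.exists_mk x
  obtain ⟨a', b', u₁', u₂', z', rfl⟩ := MP_dcc566_gt.exists_mk y
  rw [toKV_mk, toKV_mk, MP_dcc566_gt.bf_mk]
  simp only [KF, sF_apply, HF_apply, mF_cz]
  push_cast
  ring

theorem toKV_mem (x : Idx 2 → ℤ) : toKV x ∈ KL :=
  ⟨⟨⟨_, rfl⟩, ⟨_, rfl⟩⟩, ⟨_, rfl⟩, ⟨_, rfl⟩, ⟨_, rfl⟩⟩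

theorem exists_toKV {v : KV} (hv : v ∈ KL) : ∃ x : Idx 2 → ℤ, v = toKV x := by
  obtain ⟨⟨a, b⟩, u, w, z⟩ := v
  obtain ⟨⟨⟨a', ha⟩, ⟨b', hb⟩⟩, ⟨u', hu⟩, ⟨w', hw⟩, ⟨z', hz⟩⟩ := hv
  simp only at ha hb hu hw hz
  subst ha hb hu hw hz
  exact ⟨mk a' b' u' w' z', rfl⟩

theorem badE_of_cuspBad {K : Matrix (Fin 2) (Fin 2) ℤ} (h : CuspBad (LG K)) : BadE (KF K) KL := by
  obtain ⟨e, t, he, hee, hte, htt, hr⟩ := h
  refine ⟨toKV e, toKV t, ?_, ?_, ?_, ?_, ?_⟩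
  · intro h0
    apply he
    have h1 := congrArg (fun v : KV => v.1.1) h0
    have h2 := congrArg (fun v : KV => v.1.2) h0
    have h3 := congrArg (fun v : KV => v.2.1) h0
    have h4 := congrArg (fun v : KV => v.2.2.1) h0
    have h5 := congrArg (fun v : KV => v.2.2.2) h0
    simp only [toKV] at h1 h2 h3 h4 h5
    funext i
    rcases i with i | i | i | i
    · fin_cases i
      · have h1' : ((e (Sum.inl 0) : ℤ) : ℚ) = 0 := h1
        show e (Sum.inl 0) = 0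
        exact_mod_cast h1'
      · have h2' : ((e (Sum.inl 1) : ℤ) : ℚ) = 0 := h2
        show e (Sum.inl 1) = 0
        exact_mod_cast h2'
    · have := congrFun h3 i
      simpa [cz] using this
    · have := congrFun h4 i
      simpa [cz] using this
    · have := congrFun h5 i
      simpa [cz] using this
  · rw [KF_toKV, hee]; rfl
  · rw [KF_toKV, hte]; rfl
  · rw [KF_toKV]; exact_mod_cast htt
  · intro r hrL κ hκ hrr hd hre
    obtain ⟨x, rfl⟩ := exists_toKV hrL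
    rw [KF_toKV] at hrr hre ⊢
    have h1 : bf (LG K) x x = 2 * κ := by exact_mod_cast hrr
    have h2 : bf (LG K) x t = 0 := by
      refine hr x (by rw [h1]; positivity) (fun y => ?_) (by exact_mod_cast hre)
      have := hd (toKV y) (toKV_mem y)
      rw [KF_toKV] at this
      rw [h1]
      exact mul_dvd_mul_left 2 (Dv_int.1 this)
    rw [h2]; rfl

/-- Change of basis of `ℤ²`. -/
theorem exists_basis_change {K P : Matrix (Fin 2) (Fin 2) ℤ} (hP : IsUnit P.det) :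
    ∃ η : (Fin 2 → ℚ) ≃ₗ[ℚ] (Fin 2 → ℚ), IsIso (mF K) (mF (P.transpose * K * P)) η ∧
      MapsL η (Zk 2) (Zk 2) := by
  have hPu : P * P⁻¹ = 1 := Matrix.mul_nonsing_inv _ hP
  have hPu' : P⁻¹ * P = 1 := Matrix.nonsing_inv_mul _ hP
  set PQ : Matrix (Fin 2) (Fin 2) ℚ := P.map (Int.cast : ℤ → ℚ) with hPQ
  set QQ : Matrix (Fin 2) (Fin 2) ℚ := (P⁻¹).map (Int.cast : ℤ → ℚ) with hQQ
  have h1 : PQ * QQ = 1 := by
    have h3 : (P * P⁻¹).map (Int.castRingHom ℚ) = PQ * QQ := Matrix.map_mul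
    rw [← h3, hPu]
    exact Matrix.map_one _ (map_zero _) (map_one _)
  have h2 : QQ * PQ = 1 := by
    have h3 : (P⁻¹ * P).map (Int.castRingHom ℚ) = QQ * PQ := Matrix.map_mul
    rw [← h3, hPu']
    exact Matrix.map_one _ (map_zero _) (map_one _)
  have hcz : ∀ (M : Matrix (Fin 2) (Fin 2) ℤ) (u : Fin 2 → ℤ),
      (M.map (Int.cast : ℤ → ℚ)).mulVec (cz u) = cz (M.mulVec u) := by
    intro M u
    funext i
    simp [Matrix.mulVec, dotProduct, cz]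
  have hmF : ∀ x y : Fin 2 → ℚ, mF (P.transpose * K * P) x y = mF K (PQ.mulVec x) (PQ.mulVec y) := by
    intro x y
    have h : ∀ (C : Matrix (Fin 2) (Fin 2) ℤ) (x y : Fin 2 → ℚ),
        mF C x y = x ⬝ᵥ ((C.map (Int.cast : ℤ → ℚ)).mulVec y) := by
      intro C x y
      rw [mF_apply]
      simp only [dotProduct, Matrix.mulVec, Finset.mul_sum, mul_assoc, Matrix.map_apply]
    rw [h, h]
    have h3 : (P.transpose * K * P).map (Int.cast : ℤ → ℚ) =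
        PQ.transpose * K.map (Int.cast : ℤ → ℚ) * PQ := by
      have : (P.transpose * K * P).map (Int.castRingHom ℚ) =
        (P.transpose).map (Int.castRingHom ℚ) * K.map (Int.castRingHom ℚ) *
          P.map (Int.castRingHom ℚ) := by
        rw [Matrix.map_mul, Matrix.map_mul]
      exact this
    rw [h3, ← Matrix.mulVec_mulVec, ← Matrix.mulVec_mulVec, Matrix.dotProduct_mulVec,
      Matrix.vecMul_transpose]
  refine ⟨LinearEquiv.ofLinearMap (Matrix.toLin' QQ) (Matrix.toLin' PQ)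
    (by rw [← Matrix.toLin'_mul, h2, Matrix.toLin'_one])
    (by rw [← Matrix.toLin'_mul, h1, Matrix.toLin'_one]), ?_, ?_⟩
  · intro x y
    show mF (P.transpose * K * P) (QQ.mulVec x) (QQ.mulVec y) = mF K x y
    rw [hmF, Matrix.mulVec_mulVec, Matrix.mulVec_mulVec, h1, Matrix.one_mulVec, Matrix.one_mulVec]
  · intro x
    show QQ.mulVec x ∈ Zk 2 ↔ x ∈ Zk 2
    constructor
    · intro hx
      obtain ⟨u, hu⟩ := mem_Zk.1 hx
      have : x = PQ.mulVec (QQ.mulVec x) := by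
        rw [Matrix.mulVec_mulVec, h1, Matrix.one_mulVec]
      rw [this, hu, hcz]
      exact cz_mem _
    · intro hx
      obtain ⟨u, rfl⟩ := mem_Zk.1 hx
      rw [hcz]
      exact cz_mem _

/-- `U ⊕ E₈ ⊕ E₈ ⊕ K` without bad cusps: `K` is `A₂` or `2 I`. -/
theorem core_K {K : Matrix (Fin 2) (Fin 2) ℤ} (hK : EvenPD K) (hnb : ¬ BadR (KF K) KL) :
    ∃ K' : Matrix (Fin 2) (Fin 2) ℤ, (K' = !![2, 0; 0, 2] ∨ K' = !![2, 1; 1, 2]) ∧
      ∃ ψ : KV ≃ₗ[ℚ] KV, IsIso (KF K) (KF K') ψ ∧ MapsL ψ KL KL := by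
  have hE : EvL (KF K) KL := EvL.prod EvL_HF (EvL.prod EvL_F8 (EvL.prod EvL_F8 (EvL_mF hK.even)))
  have hF : FullL KL := fullL_ZZ.pr (FullL_Zk.pr (FullL_Zk.pr FullL_Zk))
  have h1 : ¬ CuspBad (LG K) := fun h => hnb (badR_of_badE hE hF (badE_of_cuspBad h))
  obtain ⟨P, hP, h2⟩ := MP_dcc566_gt.even_class_two hK h1
  obtain ⟨η, hη, hηm⟩ := exists_basis_change (K := K) hP
  refine ⟨P.transpose * K * P, h2, LinearEquiv.prodCongr (LinearEquiv.refl ℚ (ℚ × ℚ))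
    (LinearEquiv.prodCongr (LinearEquiv.refl ℚ (Fin 8 → ℚ))
      (LinearEquiv.prodCongr (LinearEquiv.refl ℚ (Fin 8 → ℚ)) η)), ?_, ?_⟩
  · intro x y
    simp only [KF, sF_apply, LinearEquiv.prodCongr_apply, LinearEquiv.refl_apply]
    rw [hη]
  · rintro ⟨v, u, w, z⟩
    constructor
    · rintro ⟨h3, h4, h5, h6⟩
      exact ⟨h3, h4, h5, (hηm z).1 h6⟩
    · rintro ⟨h3, h4, h5, h6⟩
      exact ⟨h3, h4, h5, (hηm z).2 h6⟩

end Pool.Agent.RFN
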