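import Mathlib
import Pool.Agent.Lib.MP_dcc566_gt_R.Bas

/-!
# The lattice `E₇` and its dual
-/

set_option autoImplicit false

namespace Pool.Agent.RFN

open MP_dcc566_gt (bf)

/-- The `E₇` Gram matrix. -/
abbrev E7 : Matrix (Fin 7) (Fin 7) ℤ := CartanMatrix.E₇

/-- `ω₇`, norm `3/2`. -/
def om7 : Fin 7 → ℚ := ![1, 3/2, 2, 3, 5/2, 2, 3/2]

/-- `ω₂ + ω₇`, norm 8. -/
def g8 : Fin 7 → ℤ := ![3, 5, 6, 9, 7, 5, 3]

/-- `ω₆`, norm 4. -/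
def g4 : Fin 7 → ℤ := ![2, 3, 4, 6, 5, 4, 2]

/-- A root. -/
def g2 : Fin 7 → ℤ := ![1, 0, 0, 0, 0, 0, 0]

/-- `2 (ω₂ - 2 ω₇)`. -/
def t7 : Fin 7 → ℤ := ![0, 1, 0, 0, -1, -2, -3]

theorem E7_symm : E7.IsSymm := by
  decide

private theorem E7F_bf (u v : Fin 7 → ℤ) : bf E7 u v =
    2 * (u 0 * v 0 + u 1 * v 1 + u 2 * v 2 + u 3 * v 3 + u 4 * v 4 + u 5 * v 5 + u 6 * v 6)
      - (u 0 * v 2 + u 2 * v 0) - (u 1 * v 3 + u 3 * v 1) - (u 2 * v 3 + u 3 * v 2)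
      - (u 3 * v 4 + u 4 * v 3) - (u 4 * v 5 + u 5 * v 4) - (u 5 * v 6 + u 6 * v 5) := by
  simp [bf, dotProduct, Matrix.mulVec, Fin.sum_univ_seven, E7, CartanMatrix.E₇]
  ring

private theorem E7F_mF (x y : Fin 7 → ℚ) : mF E7 x y =
    2 * (x 0 * y 0 + x 1 * y 1 + x 2 * y 2 + x 3 * y 3 + x 4 * y 4 + x 5 * y 5 + x 6 * y 6)
      - (x 0 * y 2 + x 2 * y 0) - (x 1 * y 3 + x 3 * y 1) - (x 2 * y 3 + x 3 * y 2)
      - (x 3 * y 4 + x 4 * y 3) - (x 4 * y 5 + x 5 * y 4) - (x 5 * y 6 + x 6 * y 5) := by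
  rw [mF_apply]
  simp [Fin.sum_univ_seven, E7, CartanMatrix.E₇]
  ring

theorem E7_even (u : Fin 7 → ℤ) : Even (bf E7 u u) := by
  rw [E7F_bf]
  refine ⟨u 0 ^ 2 + u 1 ^ 2 + u 2 ^ 2 + u 3 ^ 2 + u 4 ^ 2 + u 5 ^ 2 + u 6 ^ 2 - u 0 * u 2
    - u 1 * u 3 - u 2 * u 3 - u 3 * u 4 - u 4 * u 5 - u 5 * u 6, ?_⟩
  ring

/-- Complete the squares as for `E₈` (`E8F.lean`): half norm
`= (u0 - u2/2)² + (u6 - u5/2)² + 3/4 (u5 - 2/3 u4)² + 2/3 (u4 - 3/4 u3)² + (u1 - u3/2)² + 3/4 (u2 - 2/3 u3)² + 1/24 u3²`. -/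
theorem E7_pos (u : Fin 7 → ℤ) (hu : u ≠ 0) : 0 < bf E7 u u := by
  by_contra hcon
  apply hu
  rw [not_lt] at hcon
  have hq : ((bf E7 u u : ℤ) : ℚ) ≤ 0 := by exact_mod_cast hcon
  rw [← mF_cz, E7F_mF] at hq
  obtain ⟨x, hx⟩ : ∃ x : Fin 7 → ℚ, x = cz u := ⟨_, rfl⟩
  rw [← hx] at hq
  have s0 := sq_nonneg (x 0 - x 2 / 2)
  have s6 := sq_nonneg (x 6 - x 5 / 2)
  have s5 := sq_nonneg (x 5 - 2 / 3 * x 4)
  have s4 := sq_nonneg (x 4 - 3 / 4 * x 3)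
  have s1 := sq_nonneg (x 1 - x 3 / 2)
  have s2 := sq_nonneg (x 2 - 2 / 3 * x 3)
  have s3 := sq_nonneg (x 3)
  have e : 2 * (x 0 * x 0 + x 1 * x 1 + x 2 * x 2 + x 3 * x 3 + x 4 * x 4 + x 5 * x 5 + x 6 * x 6)
      - (x 0 * x 2 + x 2 * x 0) - (x 1 * x 3 + x 3 * x 1) - (x 2 * x 3 + x 3 * x 2)
      - (x 3 * x 4 + x 4 * x 3) - (x 4 * x 5 + x 5 * x 4) - (x 5 * x 6 + x 6 * x 5) =
      2 * ((x 0 - x 2 / 2) ^ 2 + (x 6 - x 5 / 2) ^ 2 + 3 / 4 * (x 5 - 2 / 3 * x 4) ^ 2 +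
        2 / 3 * (x 4 - 3 / 4 * x 3) ^ 2 + (x 1 - x 3 / 2) ^ 2 + 3 / 4 * (x 2 - 2 / 3 * x 3) ^ 2 +
        1 / 24 * x 3 ^ 2) := by
    ring
  rw [e] at hq
  have z3 : x 3 = 0 := pow_eq_zero_iff two_ne_zero |>.1 (le_antisymm (by linarith) s3)
  have z2 : x 2 - 2 / 3 * x 3 = 0 :=
    pow_eq_zero_iff two_ne_zero |>.1 (le_antisymm (by linarith) s2)
  have z1 : x 1 - x 3 / 2 = 0 :=
    pow_eq_zero_iff two_ne_zero |>.1 (le_antisymm (by linarith) s1)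
  have z4 : x 4 - 3 / 4 * x 3 = 0 :=
    pow_eq_zero_iff two_ne_zero |>.1 (le_antisymm (by linarith) s4)
  have z5 : x 5 - 2 / 3 * x 4 = 0 :=
    pow_eq_zero_iff two_ne_zero |>.1 (le_antisymm (by linarith) s5)
  have z6 : x 6 - x 5 / 2 = 0 :=
    pow_eq_zero_iff two_ne_zero |>.1 (le_antisymm (by linarith) s6)
  have z0 : x 0 - x 2 / 2 = 0 :=
    pow_eq_zero_iff two_ne_zero |>.1 (le_antisymm (by linarith) s0)
  have hz : x = 0 := by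
    funext i
    fin_cases i
    · change x 0 = 0
      linarith
    · change x 1 = 0
      linarith
    · change x 2 = 0
      linarith
    · exact z3
    · change x 4 = 0
      linarith
    · change x 5 = 0
      linarith
    · change x 6 = 0
      linarith
  exact cz_eq_zero.1 (hx.symm.trans hz)

theorem Pd_F7 : Pd (mF E7) := Pd_mF E7_symm E7_pos

theorem EvL_F7 : EvL (mF E7) (Zk 7) := EvL_mF E7_even

theorem E7_vals : bf E7 g8 g8 = 8 ∧ bf E7 g4 g4 = 4 ∧ bf E7 g2 g2 = 2 ∧ t7 ≠ 0 ∧ g4 ≠ 0 ∧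
    g2 ≠ 0 := by
  refine ⟨by decide, by decide, by decide, by decide, by decide, by decide⟩

/-- Products with `g8`, `t7`, `g4` and `ω₇`:
`(g8,x) = x1 + x6`, `(t7,x) = 2 (x1 - 2 x6)`, `(g4,x) = x5`, `(ω₇,x) = x6` for all rational `x`.  (`mF_apply`, sums over `Fin 7`.) -/
theorem E7_prod (x : Fin 7 → ℚ) : mF E7 x (cz g8) = x 1 + x 6 ∧
    mF E7 x (cz t7) = 2 * (x 1 - 2 * x 6) ∧ mF E7 x (cz g4) = x 5 ∧ mF E7 x om7 = x 6 := by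
  refine ⟨?_, ?_, ?_, ?_⟩
  · rw [E7F_mF]
    simp [cz, g8]
    ring
  · rw [E7F_mF]
    simp [cz, t7]
    ring
  · rw [E7F_mF]
    simp [cz, g4]
    ring
  · rw [E7F_mF]
    simp [om7]
    ring

private theorem E7F_g2 (x : Fin 7 → ℚ) : mF E7 x (cz g2) = 2 * x 0 - x 2 := by
  rw [E7F_mF]
  simp [cz, g2]

theorem om7_norm : mF E7 om7 om7 = 3 / 2 := by
  rw [(E7_prod om7).2.2.2]
  simp [om7]

/-- The dual lattice.

PROOF.  `c_i = mF E7 x (cz (Pi.single i 1))` are integers, `x = E7⁻¹ c`; `2 E7⁻¹ =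
[4,4,6,8,6,4,2; 4,7,8,12,9,6,3; 6,8,12,16,12,8,4; 8,12,16,24,18,12,6; 6,9,12,18,15,10,5; 4,6,8,12,10,8,4; 2,3,4,6,5,4,3]`.
So `2 x_i` are integers, even for `i = 0,2,3,5`, and `2 x_1 = 2 x_4 = 2 x_6 = c_1 + c_4 + c_6 mod 2`.  If this is even, all
`x_i` are integers; otherwise `x - om7` is integral. -/
theorem E7_dual {x : Fin 7 → ℚ} (h : ∀ u : Fin 7 → ℤ, IsZ (mF E7 x (cz u))) :
    x ∈ Zk 7 ∨ x - om7 ∈ Zk 7 := by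
  obtain ⟨c0, h0⟩ := h ![1, 0, 0, 0, 0, 0, 0]
  obtain ⟨c1, h1⟩ := h ![0, 1, 0, 0, 0, 0, 0]
  obtain ⟨c2, h2⟩ := h ![0, 0, 1, 0, 0, 0, 0]
  obtain ⟨c3, h3⟩ := h ![0, 0, 0, 1, 0, 0, 0]
  obtain ⟨c4, h4⟩ := h ![0, 0, 0, 0, 1, 0, 0]
  obtain ⟨c5, h5⟩ := h ![0, 0, 0, 0, 0, 1, 0]
  obtain ⟨c6, h6⟩ := h ![0, 0, 0, 0, 0, 0, 1]
  rw [E7F_mF] at h0 h1 h2 h3 h4 h5 h6
  simp [cz] at h0 h1 h2 h3 h4 h5 h6
  have x0 : x 0 = 2 * c0 + 2 * c1 + 3 * c2 + 4 * c3 + 3 * c4 + 2 * c5 + c6 := by linarith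
  have x1 : 2 * x 1 = 4 * c0 + 7 * c1 + 8 * c2 + 12 * c3 + 9 * c4 + 6 * c5 + 3 * c6 := by linarith
  have x2 : x 2 = 3 * c0 + 4 * c1 + 6 * c2 + 8 * c3 + 6 * c4 + 4 * c5 + 2 * c6 := by linarith
  have x3 : x 3 = 4 * c0 + 6 * c1 + 8 * c2 + 12 * c3 + 9 * c4 + 6 * c5 + 3 * c6 := by linarith
  have x4 : 2 * x 4 = 6 * c0 + 9 * c1 + 12 * c2 + 18 * c3 + 15 * c4 + 10 * c5 + 5 * c6 := by
    linarith
  have x5 : x 5 = 2 * c0 + 3 * c1 + 4 * c2 + 6 * c3 + 5 * c4 + 4 * c5 + 2 * c6 := by linarith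
  have x6 : 2 * x 6 = 2 * c0 + 3 * c1 + 4 * c2 + 6 * c3 + 5 * c4 + 4 * c5 + 3 * c6 := by linarith
  rcases Int.even_or_odd' (c1 + c4 + c6) with ⟨d, hd | hd⟩
  · have hd' : (c1 : ℚ) + c4 + c6 = 2 * d := by exact_mod_cast hd
    left
    refine ⟨![2 * c0 + 2 * c1 + 3 * c2 + 4 * c3 + 3 * c4 + 2 * c5 + c6,
      2 * c0 + 3 * c1 + 4 * c2 + 6 * c3 + 4 * c4 + 3 * c5 + c6 + d,
      3 * c0 + 4 * c1 + 6 * c2 + 8 * c3 + 6 * c4 + 4 * c5 + 2 * c6,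
      4 * c0 + 6 * c1 + 8 * c2 + 12 * c3 + 9 * c4 + 6 * c5 + 3 * c6,
      3 * c0 + 4 * c1 + 6 * c2 + 9 * c3 + 7 * c4 + 5 * c5 + 2 * c6 + d,
      2 * c0 + 3 * c1 + 4 * c2 + 6 * c3 + 5 * c4 + 4 * c5 + 2 * c6,
      c0 + c1 + 2 * c2 + 3 * c3 + 2 * c4 + 2 * c5 + c6 + d], ?_⟩
    funext i
    fin_cases i
    · simp
      linarith
    · simp
      linarith
    · simp
      linarith
    · simp
      linarith
    · simp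
      linarith
    · simp
      linarith
    · simp
      linarith
  · have hd' : (c1 : ℚ) + c4 + c6 = 2 * d + 1 := by exact_mod_cast hd
    right
    refine ⟨![2 * c0 + 2 * c1 + 3 * c2 + 4 * c3 + 3 * c4 + 2 * c5 + c6 - 1,
      2 * c0 + 3 * c1 + 4 * c2 + 6 * c3 + 4 * c4 + 3 * c5 + c6 + d - 1,
      3 * c0 + 4 * c1 + 6 * c2 + 8 * c3 + 6 * c4 + 4 * c5 + 2 * c6 - 2,
      4 * c0 + 6 * c1 + 8 * c2 + 12 * c3 + 9 * c4 + 6 * c5 + 3 * c6 - 3,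
      3 * c0 + 4 * c1 + 6 * c2 + 9 * c3 + 7 * c4 + 5 * c5 + 2 * c6 + d - 2,
      2 * c0 + 3 * c1 + 4 * c2 + 6 * c3 + 5 * c4 + 4 * c5 + 2 * c6 - 2,
      c0 + c1 + 2 * c2 + 3 * c3 + 2 * c4 + 2 * c5 + c6 + d - 1], ?_⟩
    funext i
    fin_cases i
    · simp [om7]
      linarith
    · simp [om7]
      linarith
    · simp [om7]
      linarith
    · simp [om7]
      linarith
    · simp [om7]
      linarith
    · simp [om7]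
      linarith
    · simp [om7]
      linarith

private theorem E7F_coset {x : Fin 7 → ℚ} (h : x - om7 ∈ Zk 7) :
    ∃ u : Fin 7 → ℤ, x = om7 + cz u ∧ x 0 = 1 + u 0 ∧ x 1 = 3 / 2 + u 1 ∧ x 2 = 2 + u 2 ∧
      x 5 = 2 + u 5 ∧ x 6 = 3 / 2 + u 6 := by
  obtain ⟨u, hu⟩ := mem_Zk.1 h
  have hx : x = om7 + cz u := by rw [← hu]; abel
  refine ⟨u, hx, ?_, ?_, ?_, ?_, ?_⟩ <;> rw [hx] <;> simp [om7, cz]

/-- PROOF.  `x = om7 + cz u`: norm `3/2 + 2 (om7, cz u) + bf u u = 3/2 + 2 u6 + even`. -/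
theorem E7_coset_norm {x : Fin 7 → ℚ} (h : x - om7 ∈ Zk 7) :
    ∃ n : ℤ, mF E7 x x = 3 / 2 + 2 * n ∧ 0 ≤ n := by
  obtain ⟨u, hx, -⟩ := E7F_coset h
  obtain ⟨m, hm⟩ := E7_even u
  have h1 : mF E7 x x = 3 / 2 + 2 * ((u 6 + m : ℤ) : ℚ) := by
    have h2 := norm_lin (mF_symm E7_symm) 1 1 om7 (cz u)
    rw [one_smul, one_smul, mF_cz, hm, om7_norm, mF_symm E7_symm om7 (cz u),
      (E7_prod (cz u)).2.2.2] at h2
    rw [hx, h2]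
    simp only [cz]
    push_cast
    ring
  refine ⟨u 6 + m, h1, ?_⟩
  have h2 := Pd_F7.nonneg x
  rw [h1] at h2
  by_contra hn
  rw [not_le] at hn
  have h3 : u 6 + m ≤ -1 := by omega
  have h4 : ((u 6 + m : ℤ) : ℚ) ≤ -1 := by exact_mod_cast h3
  linarith

private theorem E7F_cs (u v : Fin 7 → ℤ) : (bf E7 u v) ^ 2 ≤ bf E7 u u * bf E7 v v := by
  have h := Pd_F7.cs (cz u) (cz v)
  rw [mF_cz, mF_cz, mF_cz] at h
  exact_mod_cast h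

private theorem E7F_nonneg (u : Fin 7 → ℤ) : 0 ≤ bf E7 u u := by
  by_cases h : u = 0
  · rw [h, MP_dcc566_gt.bf_zero_left]
  · exact (E7_pos u h).le

private theorem E7F_sq {β : ℤ} (hβ : ¬ (3 : ℤ) ∣ β) : ∃ k : ℤ, β ^ 2 = 3 * k + 1 := by
  have h1 : β % 3 = 1 ∨ β % 3 = 2 := by omega
  obtain ⟨q, hq⟩ : ∃ q, q = β / 3 := ⟨_, rfl⟩
  rcases h1 with h1 | h1
  · have : β = 3 * q + 1 := by omega
    exact ⟨3 * q ^ 2 + 2 * q, by rw [this]; ring⟩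
  · have : β = 3 * q + 2 := by omega
    exact ⟨3 * q ^ 2 + 4 * q + 1, by rw [this]; ring⟩

/-- norm of `3 u - β g` -/
private theorem E7F_norm (β : ℤ) (u g : Fin 7 → ℤ) :
    bf E7 ((3 : ℤ) • u - β • g) ((3 : ℤ) • u - β • g) =
      9 * bf E7 u u - 6 * β * bf E7 u g + β ^ 2 * bf E7 g g := by
  rw [MP_dcc566_gt.bf_sub_left, MP_dcc566_gt.bf_sub_right, MP_dcc566_gt.bf_sub_right,
    MP_dcc566_gt.bf_smul_left, MP_dcc566_gt.bf_smul_left, MP_dcc566_gt.bf_smul_left,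
    MP_dcc566_gt.bf_smul_left, MP_dcc566_gt.bf_smul_right, MP_dcc566_gt.bf_smul_right,
    MP_dcc566_gt.bf_smul_right, MP_dcc566_gt.bf_smul_right, MP_dcc566_gt.bf_comm E7 E7_symm g u]
  ring

/-- PROOF.  `R = 3u - β g8`, norm `9 bf u u - 6 β bf u g8 + 8 β² = 2 mod 6`, so `≥ 8` unless it is 2.  Suppose it is 2, and let
`c_i = bf R (Pi.single i 1)`: `c_i² ≤ 4` (Cauchy–Schwarz, `bf (single) (single) = 2`), `c_i = -β δ mod 3` where `δ = 1` for `i = 1, 6`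
and 0 otherwise.  So `c_i = 0` for `i ≠ 1, 6` and `c_1, c_6 ∈ {1, -2}` or both in `{-1, 2}`.  Since
`2 bf R R = ∑ (2 E7⁻¹)_{ij} c_i c_j = 7 c_1² + 6 c_1 c_6 + 3 c_6²`, this is 16, 7, 19 or 64, never 4.
(The formula: `bf R R = ∑ R_i c_i` and `2 R_i = 7 c_1.. `: row 1 of `2E7⁻¹` gives `2 R_1 = 7c_1 + 3c_6`, `2 R_6 = 3c_1 + 3c_6`.) -/
theorem E7_g8 {β : ℤ} (hβ : ¬ (3 : ℤ) ∣ β) (u : Fin 7 → ℤ) :
    8 ≤ bf E7 ((3 : ℤ) • u - β • g8) ((3 : ℤ) • u - β • g8) := by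
  obtain ⟨k, hk⟩ := E7F_sq hβ
  obtain ⟨m, hm⟩ := E7_even u
  have h1 := E7F_norm β u g8
  rw [E7_vals.1, hk, hm] at h1
  have h0 := E7F_nonneg ((3 : ℤ) • u - β • g8)
  obtain ⟨b, hb⟩ : ∃ b, b = β * bf E7 u g8 := ⟨_, rfl⟩
  have h2 : bf E7 ((3 : ℤ) • u - β • g8) ((3 : ℤ) • u - β • g8) =
      18 * m - 6 * b + 24 * k + 8 := by
    rw [h1, hb]
    ring
  by_contra hcon
  have h3 : bf E7 ((3 : ℤ) • u - β • g8) ((3 : ℤ) • u - β • g8) = 2 := by omega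
  obtain ⟨R, hR⟩ : ∃ R : Fin 7 → ℤ, R = (3 : ℤ) • u - β • g8 := ⟨_, rfl⟩
  rw [← hR] at h3
  have hRi : ∀ i, R i = 3 * u i - β * g8 i := by
    intro i
    rw [hR]
    simp
  have cs : ∀ w : Fin 7 → ℤ, bf E7 w w = 2 → -2 ≤ bf E7 R w ∧ bf E7 R w ≤ 2 := by
    intro w hw
    have := E7F_cs R w
    rw [h3, hw] at this
    constructor <;> nlinarith
  have r0 := hRi 0
  have r1 := hRi 1
  have r2 := hRi 2
  have r3 := hRi 3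
  have r4 := hRi 4
  have r5 := hRi 5
  have r6 := hRi 6
  simp [g8] at r0 r1 r2 r3 r4 r5 r6
  have c0 := cs ![1, 0, 0, 0, 0, 0, 0] (by decide)
  have c1 := cs ![0, 1, 0, 0, 0, 0, 0] (by decide)
  have c2 := cs ![0, 0, 1, 0, 0, 0, 0] (by decide)
  have c3 := cs ![0, 0, 0, 1, 0, 0, 0] (by decide)
  have c4 := cs ![0, 0, 0, 0, 1, 0, 0] (by decide)
  have c5 := cs ![0, 0, 0, 0, 0, 1, 0] (by decide)
  have c6 := cs ![0, 0, 0, 0, 0, 0, 1] (by decide)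
  rw [E7F_bf] at c0 c1 c2 c3 c4 c5 c6 h3
  simp at c0 c1 c2 c3 c4 c5 c6
  have e0 : 2 * R 0 - R 2 = 0 := by omega
  have e2 : 2 * R 2 - R 0 - R 3 = 0 := by omega
  have e3 : 2 * R 3 - R 1 - R 2 - R 4 = 0 := by omega
  have e4 : 2 * R 4 - R 3 - R 5 = 0 := by omega
  have e5 : 2 * R 5 - R 4 - R 6 = 0 := by omega
  obtain ⟨a, ha⟩ : ∃ a, a = 2 * R 1 - R 3 := ⟨_, rfl⟩
  obtain ⟨c, hc⟩ : ∃ c, c = 2 * R 6 - R 5 := ⟨_, rfl⟩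
  have h4 : R 1 * a + R 6 * c = 2 := by
    rw [ha, hc]
    linear_combination h3 - R 0 * e0 - R 2 * e2 - R 3 * e3 - R 4 * e4 - R 5 * e5
  have hR1 : 2 * R 1 = 7 * a + 3 * c := by omega
  have hR6 : 2 * R 6 = 3 * a + 3 * c := by omega
  have h5 : 7 * a ^ 2 + 6 * a * c + 3 * c ^ 2 = 4 := by
    linear_combination 2 * h4 - a * hR1 - c * hR6
  have key : ∀ a c : ℤ, 7 * a ^ 2 + 6 * a * c + 3 * c ^ 2 = 4 → (3 : ℤ) ∣ a - c →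
      (-2 ≤ a ∧ a ≤ 2) → (-2 ≤ c ∧ c ≤ 2) → False := by
    intro a c h5 hac ⟨ha1, ha2⟩ ⟨hc1, hc2⟩
    interval_cases a <;> interval_cases c <;> first | (norm_num at h5; done) | omega
  clear h4 hR1 hR6 h1 h2 h3 hm hk hb cs hR hRi h0 hcon
  exact key a c h5 (by omega) (by omega) (by omega)

/-- PROOF.  Norm `= 4 mod 6` and nonnegative. -/
theorem E7_g4 {β : ℤ} (hβ : ¬ (3 : ℤ) ∣ β) (u : Fin 7 → ℤ) :
    4 ≤ bf E7 ((3 : ℤ) • u - β • g4) ((3 : ℤ) • u - β • g4) := by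
  obtain ⟨k, hk⟩ := E7F_sq hβ
  obtain ⟨m, hm⟩ := E7_even u
  have h1 := E7F_norm β u g4
  rw [E7_vals.2.1, hk, hm] at h1
  have h0 := E7F_nonneg ((3 : ℤ) • u - β • g4)
  obtain ⟨b, hb⟩ : ∃ b, b = β * bf E7 u g4 := ⟨_, rfl⟩
  have h2 : bf E7 ((3 : ℤ) • u - β • g4) ((3 : ℤ) • u - β • g4) =
      18 * m - 6 * b + 12 * k + 4 := by
    rw [h1, hb]
    ring
  omega

/-- PROOF.  Norm `= 2 mod 6` and nonnegative. -/
theorem E7_g2 {β : ℤ} (hβ : ¬ (3 : ℤ) ∣ β) (u : Fin 7 → ℤ) :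
    2 ≤ bf E7 ((3 : ℤ) • u - β • g2) ((3 : ℤ) • u - β • g2) := by
  obtain ⟨k, hk⟩ := E7F_sq hβ
  obtain ⟨m, hm⟩ := E7_even u
  have h1 := E7F_norm β u g2
  rw [E7_vals.2.2.1, hk, hm] at h1
  have h0 := E7F_nonneg ((3 : ℤ) • u - β • g2)
  obtain ⟨b, hb⟩ : ∃ b, b = β * bf E7 u g2 := ⟨_, rfl⟩
  have h2 : bf E7 ((3 : ℤ) • u - β • g2) ((3 : ℤ) • u - β • g2) =
      18 * m - 6 * b + 6 * k + 2 := by
    rw [h1, hb]
    ring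
  omega

private theorem E7F_nn {q : ℚ} {n : ℤ} (h0 : 0 ≤ q) (h : q < 6 * (n + 1)) : 0 ≤ n := by
  by_contra hn
  have h3 : n ≤ -1 := by omega
  have h4 : (n : ℚ) ≤ -1 := by exact_mod_cast h3
  linarith

/-- The other coset.  PROOF.  `x = om7 + cz u`, norm of `3x - β cz g`: `9 (3/2 + 2n) - 6β (x, g) + β² bf g g`, `(x,g)` an integer,
`β² bf g g = bf g g mod 6`: the norm is `3/2 + bf g g mod 6`, that is `7/2`, `11/2`, `7/2` modulo 6, and nonnegative. -/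
theorem E7_coset {β : ℤ} (hβ : ¬ (3 : ℤ) ∣ β) {x : Fin 7 → ℚ} (hx : x - om7 ∈ Zk 7) :
    (∃ n : ℤ, 0 ≤ n ∧ mF E7 ((3 : ℚ) • x - (β : ℚ) • cz g8) ((3 : ℚ) • x - (β : ℚ) • cz g8) =
        7 / 2 + 6 * n) ∧
      11 / 2 ≤ mF E7 ((3 : ℚ) • x - (β : ℚ) • cz g4) ((3 : ℚ) • x - (β : ℚ) • cz g4) ∧
      ∃ n : ℤ, 0 ≤ n ∧ mF E7 ((3 : ℚ) • x - (β : ℚ) • cz g2) ((3 : ℚ) • x - (β : ℚ) • cz g2) =
        7 / 2 + 6 * n := by
  obtain ⟨k, hk⟩ := E7F_sq hβ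
  have hkq : (β : ℚ) ^ 2 = 3 * k + 1 := by exact_mod_cast hk
  obtain ⟨n, hn, -⟩ := E7_coset_norm hx
  obtain ⟨u, -, x0, x1, x2, x5, x6⟩ := E7F_coset hx
  have hp := E7_prod x
  refine ⟨?_, ?_, ?_⟩
  · have h1 : mF E7 ((3 : ℚ) • x - (β : ℚ) • cz g8) ((3 : ℚ) • x - (β : ℚ) • cz g8) =
        7 / 2 + 6 * ((3 + 3 * n - β * (3 + u 1 + u 6) + 4 * k : ℤ) : ℚ) := by
      rw [norm_sub_lin (mF_symm E7_symm), hn, hp.1, mF_cz, E7_vals.1, hkq, x1, x6]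
      push_cast
      ring
    refine ⟨_, ?_, h1⟩
    have h0 := Pd_F7.nonneg ((3 : ℚ) • x - (β : ℚ) • cz g8)
    refine E7F_nn h0 ?_
    rw [h1]
    linarith
  · have h1 : mF E7 ((3 : ℚ) • x - (β : ℚ) • cz g4) ((3 : ℚ) • x - (β : ℚ) • cz g4) =
        11 / 2 + 6 * ((2 + 3 * n - β * (2 + u 5) + 2 * k : ℤ) : ℚ) := by
      rw [norm_sub_lin (mF_symm E7_symm), hn, hp.2.2.1, mF_cz, E7_vals.2.1, hkq, x5]
      push_cast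
      ring
    have h0 := Pd_F7.nonneg ((3 : ℚ) • x - (β : ℚ) • cz g4)
    have h2 : 0 ≤ (2 + 3 * n - β * (2 + u 5) + 2 * k : ℤ) := by
      refine E7F_nn h0 ?_
      rw [h1]
      linarith
    have h3 : (0 : ℚ) ≤ ((2 + 3 * n - β * (2 + u 5) + 2 * k : ℤ) : ℚ) := by exact_mod_cast h2
    rw [h1]
    linarith
  · have h1 : mF E7 ((3 : ℚ) • x - (β : ℚ) • cz g2) ((3 : ℚ) • x - (β : ℚ) • cz g2) =
        7 / 2 + 6 * ((2 + 3 * n - β * (2 * u 0 - u 2) + k : ℤ) : ℚ) := by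
      rw [norm_sub_lin (mF_symm E7_symm), hn, E7F_g2, mF_cz, E7_vals.2.2.1, hkq, x0, x2]
      push_cast
      ring
    refine ⟨_, ?_, h1⟩
    have h0 := Pd_F7.nonneg ((3 : ℚ) • x - (β : ℚ) • cz g2)
    refine E7F_nn h0 ?_
    rw [h1]
    linarith

/-- PROOF.  By `E7_coset` the norm of `R = 3x - β g2` is `7/2 + 6n`, `n ≥ 0`; suppose `n = 0`.  `β = σ + 3k`, `σ = ±1`:
`W = R + σ g2 = 3 (x - k g2)`, `x - k g2` is in the coset of `om7`, so `(W,W) ≥ 27/2` (`E7_coset_norm`).  But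
`(W,W) = 7/2 + 2 + 2σ (R,g2)`, `(R,g2)² ≤ 7`, so `(R,g2) < 3` and `(W,W) < 12`.  Contradiction. -/
theorem E7_coset_g2 {β : ℤ} (hβ : ¬ (3 : ℤ) ∣ β) {x : Fin 7 → ℚ} (hx : x - om7 ∈ Zk 7) :
    19 / 2 ≤ mF E7 ((3 : ℚ) • x - (β : ℚ) • cz g2) ((3 : ℚ) • x - (β : ℚ) • cz g2) := by
  obtain ⟨-, -, n, hn0, hn⟩ := E7_coset hβ hx
  rcases eq_or_lt_of_le hn0 with hn1 | hn1
  swap
  · have h3 : (1 : ℤ) ≤ n := by omega
    have h4 : (1 : ℚ) ≤ (n : ℚ) := by exact_mod_cast h3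
    rw [hn]
    linarith
  · exfalso
    rw [← hn1] at hn
    obtain ⟨σ, k, hσ, hβ2⟩ : ∃ σ k : ℤ, (σ = 1 ∨ σ = -1) ∧ β = σ + 3 * k := by
      have h1 : β % 3 = 1 ∨ β % 3 = 2 := by omega
      rcases h1 with h1 | h1
      · exact ⟨1, β / 3, Or.inl rfl, by omega⟩
      · exact ⟨-1, β / 3 + 1, Or.inr rfl, by omega⟩
    have hσ2 : (σ : ℚ) ^ 2 = 1 := by
      rcases hσ with rfl | rfl <;> norm_num
    obtain ⟨y, hy⟩ : ∃ y : Fin 7 → ℚ, y = x - (k : ℚ) • cz g2 := ⟨_, rfl⟩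
    have hyc : y - om7 ∈ Zk 7 := by
      have : y - om7 = (x - om7) - cz (k • g2) := by
        rw [hy, cz_smul]
        abel
      rw [this]
      exact (Zk 7).sub_mem hx (cz_mem _)
    obtain ⟨j, hj, hj0⟩ := E7_coset_norm hyc
    have hj1 : (0 : ℚ) ≤ (j : ℚ) := by exact_mod_cast hj0
    obtain ⟨R, hR⟩ : ∃ R : Fin 7 → ℚ, R = (3 : ℚ) • x - (β : ℚ) • cz g2 := ⟨_, rfl⟩
    rw [← hR] at hn
    have hW : (3 : ℚ) • y - (0 : ℚ) • cz g2 = (1 : ℚ) • R + (σ : ℚ) • cz g2 := by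
      rw [hy, hR, hβ2]
      push_cast
      module
    have hg : mF E7 (cz g2) (cz g2) = 2 := by
      rw [mF_cz, E7_vals.2.2.1]
      norm_num
    have e1 := norm_sub_lin (mF_symm E7_symm) 3 0 y (cz g2)
    rw [hW, norm_lin (mF_symm E7_symm), hn, hj, hg] at e1
    have hcs := Pd_F7.cs R (cz g2)
    rw [hn, hg] at hcs
    have h7 : (mF E7 R (cz g2)) ^ 2 ≤ 7 := by
      refine hcs.trans ?_
      norm_num
    have h8 : (σ * mF E7 R (cz g2)) ^ 2 ≤ 7 := by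
      rw [mul_pow, hσ2, one_mul]
      exact h7
    have h9 : σ * mF E7 R (cz g2) < 3 := by nlinarith
    rw [hσ2] at e1
    norm_num at e1
    linarith

/-- PROOF.  Let `a = u 1`, `b = u 6`; `bf u g8 = a + b`, `bf u t7 = 2 (a - 2b)` (`E7_prod`, `mF_cz`).  Cauchy–Schwarz with
`ω₇` (norm 3/2): `b² ≤ 3`, `|b| ≤ 1`; with `ω₂ = ![2, 7/2, 4, 6, 9/2, 3, 3/2]` (norm 7/2, `(ω₂,x) = x 1`): `a² ≤ 7`, `|a| ≤ 2`.
`3 ∣ a + b`: `(a,b)` is `(0,0)`, `±(2,1)` (fine) or `±(1,-1)`, `..`: `a + b = 0` with `b = ±1` gives `±(1,-1)`.  Exclude it: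
`ω₂ - ω₇ = ![1, 2, 2, 3, 2, 1, 0]` is a root `w` with `bf u w = a - b = ±2`, so `u = ±w` (norm of the difference is 0), but
`w 1 = 2`, `w 6 = 0`: contradiction. -/
theorem E7_t7 {u : Fin 7 → ℤ} (hu : bf E7 u u = 2) (h3 : (3 : ℤ) ∣ bf E7 u g8) :
    bf E7 u t7 = 0 := by
  have hg : bf E7 u g8 = u 1 + u 6 := by
    rw [E7F_bf]
    simp [g8]
    ring
  have ht : bf E7 u t7 = 2 * (u 1 - 2 * u 6) := by
    rw [E7F_bf]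
    simp [t7]
    ring
  have hw : bf E7 u ![1, 2, 2, 3, 2, 1, 0] = u 1 - u 6 := by
    rw [E7F_bf]
    simp
    ring
  have hww : bf E7 ![1, 2, 2, 3, 2, 1, 0] ![1, 2, 2, 3, 2, 1, 0] = 2 := by decide
  rw [hg] at h3
  rw [ht]
  have hq : mF E7 (cz u) (cz u) = 2 := by
    rw [mF_cz, hu]
    norm_num
  -- bounds
  have hb : (u 6) ^ 2 ≤ 3 := by
    have h1 := Pd_F7.cs (cz u) om7
    rw [hq, om7_norm, (E7_prod _).2.2.2] at h1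
    have h2 : ((u 6 : ℤ) : ℚ) ^ 2 ≤ 3 := by
      refine le_trans h1 ?_
      norm_num
    exact_mod_cast h2
  have ha : (u 1) ^ 2 ≤ 7 := by
    have h1 := Pd_F7.cs (cz u) ![2, 7/2, 4, 6, 9/2, 3, 3/2]
    have h4 : mF E7 (cz u) ![2, 7/2, 4, 6, 9/2, 3, 3/2] = cz u 1 := by
      rw [E7F_mF]
      simp
      ring
    have h5 : mF E7 ![2, 7/2, 4, 6, 9/2, 3, 3/2] ![2, 7/2, 4, 6, 9/2, 3, 3/2] = 7 / 2 := by
      rw [E7F_mF]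
      simp
      norm_num
    rw [hq, h4, h5] at h1
    have h2 : ((u 1 : ℤ) : ℚ) ^ 2 ≤ 7 := by
      refine le_trans h1 ?_
      norm_num
    exact_mod_cast h2
  have hb1 : -1 ≤ u 6 ∧ u 6 ≤ 1 := by constructor <;> nlinarith
  have ha1 : -2 ≤ u 1 ∧ u 1 ≤ 2 := by constructor <;> nlinarith
  -- exclude
  have hex1 : ¬ (u 1 = 1 ∧ u 6 = -1) := by
    rintro ⟨h1, h6⟩
    have hz : u - ![1, 2, 2, 3, 2, 1, 0] = 0 := by
      by_contra hne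
      have hp := E7_pos _ hne
      rw [MP_dcc566_gt.bf_sub_left, MP_dcc566_gt.bf_sub_right, MP_dcc566_gt.bf_sub_right,
        MP_dcc566_gt.bf_comm E7 E7_symm ![1, 2, 2, 3, 2, 1, 0] u, hw, hww, hu, h1, h6] at hp
      norm_num at hp
    have h7 := congrFun hz 1
    simp [h1] at h7
  have hex2 : ¬ (u 1 = -1 ∧ u 6 = 1) := by
    rintro ⟨h1, h6⟩
    have hz : u + ![1, 2, 2, 3, 2, 1, 0] = 0 := by
      by_contra hne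
      have hp := E7_pos _ hne
      rw [MP_dcc566_gt.bf_add_left, MP_dcc566_gt.bf_add_right, MP_dcc566_gt.bf_add_right,
        MP_dcc566_gt.bf_comm E7 E7_symm ![1, 2, 2, 3, 2, 1, 0] u, hw, hww, hu, h1, h6] at hp
      norm_num at hp
    have h7 := congrFun hz 1
    simp [h1] at h7
  omega

/-- PROOF.  Cauchy–Schwarz: the square is at most 8, resp. 4. -/
theorem E7_rt {u : Fin 7 → ℤ} (hu : bf E7 u u = 2) :
    ((3 : ℤ) ∣ bf E7 u g4 → bf E7 u g4 = 0) ∧ ((3 : ℤ) ∣ bf E7 u g2 → bf E7 u g2 = 0) := by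
  constructor
  · intro h
    have h1 := E7F_cs u g4
    rw [hu, E7_vals.2.1] at h1
    have h2 : -2 ≤ bf E7 u g4 ∧ bf E7 u g4 ≤ 2 := by constructor <;> nlinarith
    omega
  · intro h
    have h1 := E7F_cs u g2
    rw [hu, E7_vals.2.2.1] at h1
    have h2 : -2 ≤ bf E7 u g2 ∧ bf E7 u g2 ≤ 2 := by constructor <;> nlinarith
    omega

end Pool.Agent.RFN
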