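import Mathlib
import Pool.Agent.Lib.MP_dcc566_gt_R.E8D

set_option autoImplicit false

namespace Pool.Agent.RFN

open MP_dcc566_gt (bf E8)

/-- Standard coordinates `(1,1,1,1,1,1,1,1)`, norm 8. -/
def V8 : Fin 8 → ℤ := ![2, 6, 6, 10, 8, 6, 4, 2]

/-- Standard coordinates `(1,1,1,1,1,1,0,0)`, norm 6. -/
def V6 : Fin 8 → ℤ := ![0, 3, 2, 4, 3, 2, 1, 0]

/-- Standard coordinates `(1,1,1,1,1,1,1,3)`, norm 16. -/
def V16 : Fin 8 → ℤ := ![6, 11, 13, 20, 16, 12, 8, 4]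

theorem V8_facts : DH 1 V8 ∧ bf E8 V8 V8 = 8 ∧ xs V8 = ![1, 1, 1, 1, 1, 1, 1, 1] := by
  refine ⟨?_, by decide, by decide⟩
  intro k hk
  interval_cases k
  decide

theorem V6_facts : DH 1 V6 ∧ bf E8 V6 V6 = 6 ∧ xs V6 = ![1, 1, 1, 1, 1, 1, 0, 0] := by
  refine ⟨?_, by decide, by decide⟩
  intro k hk
  interval_cases k
  decide

theorem V16_facts : DH 4 V16 ∧ bf E8 V16 V16 = 16 ∧ xs V16 = ![1, 1, 1, 1, 1, 1, 1, 3] := by
  refine ⟨?_, by decide, by decide⟩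
  intro k hk
  interval_cases k <;> decide

private theorem E8Da_v8 (i : Fin 8) : xs V8 i = 1 := by
  rw [V8_facts.2.2]
  fin_cases i <;> rfl

private theorem E8Da_v6 : xs V6 0 = 1 ∧ xs V6 1 = 1 ∧ xs V6 2 = 1 ∧ xs V6 3 = 1 ∧ xs V6 4 = 1 ∧
    xs V6 5 = 1 ∧ xs V6 6 = 0 ∧ xs V6 7 = 0 := by
  rw [V6_facts.2.2]
  exact ⟨rfl, rfl, rfl, rfl, rfl, rfl, rfl, rfl⟩

private theorem E8Da_v16 : xs V16 0 = 1 ∧ xs V16 1 = 1 ∧ xs V16 2 = 1 ∧ xs V16 3 = 1 ∧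
    xs V16 4 = 1 ∧ xs V16 5 = 1 ∧ xs V16 6 = 1 ∧ xs V16 7 = 3 := by
  rw [V16_facts.2.2]
  exact ⟨rfl, rfl, rfl, rfl, rfl, rfl, rfl, rfl⟩

private theorem E8Da_scale (κ : ℤ) (w : Fin 8 → ℤ) :
    bf E8 (κ • w) (κ • w) = κ ^ 2 * bf E8 w w := by
  rw [MP_dcc566_gt.bf_smul_left, MP_dcc566_gt.bf_smul_right]
  ring

private theorem E8Da_par {u V : Fin 8 → ℤ} (hu : (2 : ℤ) ∣ u 0) (hV : (2 : ℤ) ∣ V 0) (β : ℤ) :
    (2 : ℤ) ∣ ((3 : ℤ) • u - β • V) 0 := by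
  have h : ((3 : ℤ) • u - β • V) 0 = 3 * u 0 - β * V 0 := rfl
  rw [h]
  exact dvd_sub (Dvd.dvd.mul_left hu _) (Dvd.dvd.mul_left hV _)

private theorem E8Da_norm {u V : Fin 8 → ℤ} (hu : (2 : ℤ) ∣ u 0) (hV : (2 : ℤ) ∣ V 0) (β : ℤ) :
    bf E8 ((3 : ℤ) • u - β • V) ((3 : ℤ) • u - β • V) =
      ∑ i, (3 * xs u i - β * xs V i) ^ 2 := by
  rw [xs_bf (E8Da_par hu hV β) (E8Da_par hu hV β)]
  refine Finset.sum_congr rfl fun i _ => ?_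
  rw [xs_lin hu hV]
  ring

private theorem E8Da_prod {u V : Fin 8 → ℤ} (hu : (2 : ℤ) ∣ u 0) (hV : (2 : ℤ) ∣ V 0) (β : ℤ) :
    bf E8 ((3 : ℤ) • u - β • V) V = ∑ i, (3 * xs u i - β * xs V i) * xs V i := by
  rw [xs_bf (E8Da_par hu hV β) hV]
  refine Finset.sum_congr rfl fun i _ => ?_
  rw [xs_lin hu hV]

private theorem E8Da_one {γ : ℤ} (h : ¬ (3 : ℤ) ∣ γ) (x : ℤ) : 1 ≤ (3 * x - γ) ^ 2 := by
  have h1 : 3 * x - γ ≠ 0 := by omega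
  have h2 : 0 < (3 * x - γ) ^ 2 := by positivity
  omega

private theorem E8Da_neg {β σ x : ℤ} (hσ : σ = 1 ∨ σ = -1) (hβ : (3 : ℤ) ∣ β - σ)
    (h : (3 * x - β) ^ 2 ≤ 1) : 3 * x - β = -σ := by
  have h1 : 3 * x - β ≤ 1 := by nlinarith
  have h2 : -1 ≤ 3 * x - β := by nlinarith
  rcases hσ with rfl | rfl <;> omega

private theorem E8Da_two_not {β σ : ℤ} (hσ : σ = 1 ∨ σ = -1) (hβ : (3 : ℤ) ∣ β - σ) :
    ¬ (3 : ℤ) ∣ β := by
  rcases hσ with rfl | rfl <;> omega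

/-- the general argument for the bounds -/
private theorem E8Da_blk (i : ℕ) (c : ℤ) (V : Fin 8 → ℤ)
    (hlow : ∀ (w : Fin 8 → ℤ) (γ : ℤ), ¬ (3 : ℤ) ∣ γ → (DH i w ∨ DD i 2 w) →
      c ≤ bf E8 ((3 : ℤ) • w - γ • V) ((3 : ℤ) • w - γ • V))
    {κ β : ℤ} (hκ : 0 < κ) (hβ : ¬ (3 : ℤ) ∣ β) {u : Fin 8 → ℤ} (hu : DH i u)
    (hd : DD i κ u) :
    (Odd κ → c * κ ^ 2 ≤ bf E8 ((3 : ℤ) • u - (κ * β) • V) ((3 : ℤ) • u - (κ * β) • V)) ∧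
      ∀ κ₁, κ = 2 * κ₁ →
        c * κ₁ ^ 2 ≤ bf E8 ((3 : ℤ) • u - (κ * β) • V) ((3 : ℤ) • u - (κ * β) • V) := by
  obtain ⟨h1, h2⟩ := two_loc hκ hu hd
  constructor
  · intro hodd
    obtain ⟨u', rfl, hu'⟩ := h1 hodd
    have h3 : (3 : ℤ) • (κ • u') - (κ * β) • V = κ • ((3 : ℤ) • u' - β • V) := by
      funext j
      simp only [Pi.sub_apply, Pi.smul_apply, smul_eq_mul]
      ring
    rw [h3, E8Da_scale]
    have h4 := hlow u' β hβ (Or.inl hu')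
    nlinarith [sq_nonneg κ]
  · rintro κ₁ rfl
    obtain ⟨u'', rfl, hu''⟩ := h2 κ₁ rfl
    have h3 : (3 : ℤ) • (κ₁ • u'') - (2 * κ₁ * β) • V =
        κ₁ • ((3 : ℤ) • u'' - (2 * β) • V) := by
      funext j
      simp only [Pi.sub_apply, Pi.smul_apply, smul_eq_mul]
      ring
    rw [h3, E8Da_scale]
    have h4 := hlow u'' (2 * β) (by omega) (Or.inr hu'')
    nlinarith [sq_nonneg κ₁]

private theorem E8Da_even {w : Fin 8 → ℤ} (h : DH 1 w ∨ DD 1 2 w) : (2 : ℤ) ∣ w 0 := by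
  rcases h with h | h
  · exact DH_zero le_rfl h
  · exact (dual_par (Or.inl rfl) h).1

private theorem E8Da_DH {w : Fin 8 → ℤ} (h : (2 : ℤ) ∣ w 0) : DH 1 w := by
  intro k hk
  have hk0 : k = 0 := by omega
  subst hk0
  have h0 : (2 : ℤ) ∣ hh 0 0 := by decide
  rw [xs_bf h0 h, xs_hh.1, Fin.sum_univ_eight]
  refine ⟨xs w 0, ?_⟩
  simp

/-- the cases of the norm `2 κ` -/
private theorem E8Da_rt {κ : ℤ} (hκ : 0 < κ) {u : Fin 8 → ℤ} (hu : DH 1 u) (hd : DD 1 κ u)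
    (hn : bf E8 u u = 2 * κ) : κ = 1 ∨ κ = 2 := by
  obtain ⟨h1, h2⟩ := two_loc hκ hu hd
  rcases Int.even_or_odd κ with he | ho
  · right
    obtain ⟨κ₁, hκ₁⟩ := he
    have hκ₁' : κ = 2 * κ₁ := by omega
    obtain ⟨u'', hu'', hd''⟩ := h2 κ₁ hκ₁'
    rw [hu'', E8Da_scale, hκ₁'] at hn
    have hpos : 0 < κ₁ := by omega
    have hN : κ₁ * bf E8 u'' u'' = 4 := by
      have h3 : κ₁ * (κ₁ * bf E8 u'' u'') = κ₁ * 4 := by linarith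
      exact mul_left_cancel₀ hpos.ne' h3
    have hne : u'' ≠ 0 := by
      rintro rfl
      rw [MP_dcc566_gt.bf_zero_left, mul_zero] at hN
      omega
    have h4 : 2 * 2 ≤ bf E8 u'' u'' := d_min (Or.inl rfl) (by norm_num)
      (E8Da_DH (E8Da_even (Or.inr hd''))) hd'' hne
    have h5 : κ₁ ≤ 1 := by nlinarith
    omega
  · left
    obtain ⟨u', hu', hd'⟩ := h1 ho
    rw [hu', E8Da_scale] at hn
    have hN : κ * bf E8 u' u' = 2 := by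
      have h3 : κ * (κ * bf E8 u' u') = κ * 2 := by linarith
      exact mul_left_cancel₀ hκ.ne' h3
    obtain ⟨m, hm⟩ := MP_dcc566_gt.E8_even u'
    rw [hm] at hN
    have h4 : κ * m = 1 := by linarith
    rcases Int.eq_one_or_neg_one_of_mul_eq_one h4 with h5 | h5
    · exact h5
    · omega

private theorem E8Da_sq6 (a b c d e f : ℤ) :
    (a + b + c + d + e + f) ^ 2 ≤ 6 * (a ^ 2 + b ^ 2 + c ^ 2 + d ^ 2 + e ^ 2 + f ^ 2) := by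
  nlinarith [sq_nonneg (a - b), sq_nonneg (a - c), sq_nonneg (a - d), sq_nonneg (a - e),
    sq_nonneg (a - f), sq_nonneg (b - c), sq_nonneg (b - d), sq_nonneg (b - e),
    sq_nonneg (b - f), sq_nonneg (c - d), sq_nonneg (c - e), sq_nonneg (c - f),
    sq_nonneg (d - e), sq_nonneg (d - f), sq_nonneg (e - f)]

private theorem E8Da_zero {S : ℤ} (h6 : (6 : ℤ) ∣ S) (h : S ^ 2 < 36) : S = 0 := by
  obtain ⟨t, rfl⟩ := h6
  have h1 : t < 1 := by nlinarith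
  have h2 : -1 < t := by nlinarith
  have h3 : t = 0 := by omega
  rw [h3, mul_zero]

/-- PROOF.  `two_loc`.  `κ` odd: `u = κ u'`, `3u - κβ V8 = κ (3u' - β V8)`, and the standard coordinates of `3u' - β V8` are
`3 x_i - β`, not divisible by 3, so nonzero (`xs_lin`; `u' 0`, `V8 0` even): norm `≥ 8`.  `κ = 2κ₁`: `u = κ₁ u''`,
`3u - κβ V8 = κ₁ (3u'' - 2β V8)`, `u'' 0` even (`dual_par`), coordinates `3 x_i - 2β ≠ 0`: norm `≥ 8`. -/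
theorem blk8 {κ β : ℤ} (hκ : 0 < κ) (hβ : ¬ (3 : ℤ) ∣ β) {u : Fin 8 → ℤ} (hu : DH 1 u)
    (hd : DD 1 κ u) :
    (Odd κ → 8 * κ ^ 2 ≤ bf E8 ((3 : ℤ) • u - (κ * β) • V8) ((3 : ℤ) • u - (κ * β) • V8)) ∧
      ∀ κ₁, κ = 2 * κ₁ →
        8 * κ₁ ^ 2 ≤ bf E8 ((3 : ℤ) • u - (κ * β) • V8) ((3 : ℤ) • u - (κ * β) • V8) := by
  refine E8Da_blk 1 8 V8 ?_ hκ hβ hu hd
  intro w γ hγ hw
  rw [E8Da_norm (E8Da_even hw) (by decide) γ]
  have h1 : ∀ i ∈ (Finset.univ : Finset (Fin 8)), (1 : ℤ) ≤ (3 * xs w i - γ * xs V8 i) ^ 2 := by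
    intro i _
    rw [E8Da_v8, mul_one]
    exact E8Da_one hγ _
  have h2 := Finset.sum_le_sum h1
  simpa using h2

/-- PROOF.  The coordinates `3 x_i - β` are nonzero with squares of sum 8, so they are `±1` and congruent to `-σ` modulo 3,
i.e. equal to `-σ`; the product with `V8` is their sum. -/
theorem blk8_eq {β σ : ℤ} (hσ : σ = 1 ∨ σ = -1) (hβ : (3 : ℤ) ∣ β - σ) {u : Fin 8 → ℤ}
    (hu : DH 1 u) (h : bf E8 ((3 : ℤ) • u - β • V8) ((3 : ℤ) • u - β • V8) = 8) :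
    bf E8 ((3 : ℤ) • u - β • V8) V8 = -8 * σ := by
  have hu0 : (2 : ℤ) ∣ u 0 := DH_zero le_rfl hu
  have hnd := E8Da_two_not hσ hβ
  rw [E8Da_norm hu0 (by decide) β, Fin.sum_univ_eight] at h
  rw [E8Da_prod hu0 (by decide) β, Fin.sum_univ_eight]
  simp only [E8Da_v8, mul_one] at h ⊢
  have h0 := E8Da_one hnd (xs u 0)
  have h1 := E8Da_one hnd (xs u 1)
  have h2 := E8Da_one hnd (xs u 2)
  have h3 := E8Da_one hnd (xs u 3)
  have h4 := E8Da_one hnd (xs u 4)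
  have h5 := E8Da_one hnd (xs u 5)
  have h6 := E8Da_one hnd (xs u 6)
  have h7 := E8Da_one hnd (xs u 7)
  rw [E8Da_neg (x := xs u 0) hσ hβ (by linarith), E8Da_neg (x := xs u 1) hσ hβ (by linarith),
    E8Da_neg (x := xs u 2) hσ hβ (by linarith), E8Da_neg (x := xs u 3) hσ hβ (by linarith),
    E8Da_neg (x := xs u 4) hσ hβ (by linarith), E8Da_neg (x := xs u 5) hσ hβ (by linarith),
    E8Da_neg (x := xs u 6) hσ hβ (by linarith), E8Da_neg (x := xs u 7) hσ hβ (by linarith)]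
  ring

/-- PROOF.  `κ` odd: `u = κ u'`, `2κ = κ² bf u' u' ≥ 2κ²`, so `κ = 1`; `bf u V8 = ∑ xs u i` is even (`xs_sum`), divisible by 3, and its
square is at most `2 * 8 = 16` (Cauchy–Schwarz: `∑ x_i` squared is at most `8 ∑ x_i²`), so it is 0.
`κ = 2κ₁`: `u = κ₁ u''`, `bf u'' u'' ≥ 4` (as in `d_min`), `4κ₁ = κ₁² bf u'' u'' ≥ 4 κ₁²`, `κ₁ = 1`: `6 ∣ bf u V8`, square at most `4 * 8 = 32`. -/
theorem rt8 {κ : ℤ} (hκ : 0 < κ) {u : Fin 8 → ℤ} (hu : DH 1 u) (hd : DD 1 κ u)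
    (hn : bf E8 u u = 2 * κ) (h3 : 3 * κ ∣ bf E8 u V8) : bf E8 u V8 = 0 := by
  have hu0 : (2 : ℤ) ∣ u 0 := DH_zero le_rfl hu
  have hS : bf E8 u V8 = ∑ i, xs u i := by
    rw [xs_bf hu0 (by decide)]
    exact Finset.sum_congr rfl fun i _ => by rw [E8Da_v8, mul_one]
  have hN : bf E8 u u = ∑ i, xs u i ^ 2 := by
    rw [xs_bf hu0 hu0]
    exact Finset.sum_congr rfl fun i _ => by ring
  have hcs : (∑ i, xs u i) ^ 2 ≤ 8 * ∑ i, xs u i ^ 2 := by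
    have := sq_sum_le_card_mul_sum_sq (s := (Finset.univ : Finset (Fin 8))) (f := xs u)
    simpa using this
  rw [← hS, ← hN, hn] at hcs
  have heven : (2 : ℤ) ∣ bf E8 u V8 := by
    rw [hS, xs_sum]
    exact ⟨-2 * (u 0 / 2) + u 1, by ring⟩
  rcases E8Da_rt hκ hu hd hn with rfl | rfl
  · refine E8Da_zero ?_ (by omega)
    omega
  · refine E8Da_zero ?_ (by omega)
    exact h3

/-- PROOF as `blk8`: six coordinates `3 x_i - β` (resp. `3 x_i - 2β`) are nonzero. -/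
theorem blk6 {κ β : ℤ} (hκ : 0 < κ) (hβ : ¬ (3 : ℤ) ∣ β) {u : Fin 8 → ℤ} (hu : DH 1 u)
    (hd : DD 1 κ u) :
    (Odd κ → 6 * κ ^ 2 ≤ bf E8 ((3 : ℤ) • u - (κ * β) • V6) ((3 : ℤ) • u - (κ * β) • V6)) ∧
      ∀ κ₁, κ = 2 * κ₁ →
        6 * κ₁ ^ 2 ≤ bf E8 ((3 : ℤ) • u - (κ * β) • V6) ((3 : ℤ) • u - (κ * β) • V6) := by
  refine E8Da_blk 1 6 V6 ?_ hκ hβ hu hd
  intro w γ hγ hw
  rw [E8Da_norm (E8Da_even hw) (by decide) γ, Fin.sum_univ_eight]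
  obtain ⟨v0, v1, v2, v3, v4, v5, v6, v7⟩ := E8Da_v6
  rw [v0, v1, v2, v3, v4, v5, v6, v7]
  simp only [mul_one, mul_zero, sub_zero]
  have h0 := E8Da_one hγ (xs w 0)
  have h1 := E8Da_one hγ (xs w 1)
  have h2 := E8Da_one hγ (xs w 2)
  have h3 := E8Da_one hγ (xs w 3)
  have h4 := E8Da_one hγ (xs w 4)
  have h5 := E8Da_one hγ (xs w 5)
  have h6 := sq_nonneg (3 * xs w 6)
  have h7 := sq_nonneg (3 * xs w 7)
  linarith

/-- PROOF.  Six nonzero coordinates with squares of sum at most 6: they are `-σ`. -/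
theorem blk6_eq {β σ : ℤ} (hσ : σ = 1 ∨ σ = -1) (hβ : (3 : ℤ) ∣ β - σ) {u : Fin 8 → ℤ}
    (hu : DH 1 u) (h : bf E8 ((3 : ℤ) • u - β • V6) ((3 : ℤ) • u - β • V6) = 6) :
    bf E8 ((3 : ℤ) • u - β • V6) V6 = -6 * σ := by
  have hu0 : (2 : ℤ) ∣ u 0 := DH_zero le_rfl hu
  have hnd := E8Da_two_not hσ hβ
  rw [E8Da_norm hu0 (by decide) β, Fin.sum_univ_eight] at h
  rw [E8Da_prod hu0 (by decide) β, Fin.sum_univ_eight]
  obtain ⟨v0, v1, v2, v3, v4, v5, v6, v7⟩ := E8Da_v6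
  rw [v0, v1, v2, v3, v4, v5, v6, v7] at h ⊢
  simp only [mul_one, mul_zero, sub_zero] at h ⊢
  have h0 := E8Da_one hnd (xs u 0)
  have h1 := E8Da_one hnd (xs u 1)
  have h2 := E8Da_one hnd (xs u 2)
  have h3 := E8Da_one hnd (xs u 3)
  have h4 := E8Da_one hnd (xs u 4)
  have h5 := E8Da_one hnd (xs u 5)
  have h6 := sq_nonneg (3 * xs u 6)
  have h7 := sq_nonneg (3 * xs u 7)
  rw [E8Da_neg (x := xs u 0) hσ hβ (by linarith), E8Da_neg (x := xs u 1) hσ hβ (by linarith),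
    E8Da_neg (x := xs u 2) hσ hβ (by linarith), E8Da_neg (x := xs u 3) hσ hβ (by linarith),
    E8Da_neg (x := xs u 4) hσ hβ (by linarith), E8Da_neg (x := xs u 5) hσ hβ (by linarith)]
  ring

/-- PROOF as `rt8`.  `κ = 1`: `|x_0 + ... + x_5| ≤ ∑ x_i² = 2` (`|x| ≤ x²` for integers), divisible by 3.  `κ = 2`: `6 ∣ x_0 + ... + x_5`, square
at most `6 * 4 = 24`. -/
theorem rt6 {κ : ℤ} (hκ : 0 < κ) {u : Fin 8 → ℤ} (hu : DH 1 u) (hd : DD 1 κ u)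
    (hn : bf E8 u u = 2 * κ) (h3 : 3 * κ ∣ bf E8 u V6) : bf E8 u V6 = 0 := by
  have hu0 : (2 : ℤ) ∣ u 0 := DH_zero le_rfl hu
  obtain ⟨v0, v1, v2, v3, v4, v5, v6, v7⟩ := E8Da_v6
  have hS : bf E8 u V6 = xs u 0 + xs u 1 + xs u 2 + xs u 3 + xs u 4 + xs u 5 := by
    rw [xs_bf hu0 (by decide), Fin.sum_univ_eight, v0, v1, v2, v3, v4, v5, v6, v7]
    ring
  have hN : bf E8 u u = xs u 0 ^ 2 + xs u 1 ^ 2 + xs u 2 ^ 2 + xs u 3 ^ 2 + xs u 4 ^ 2 +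
      xs u 5 ^ 2 + xs u 6 ^ 2 + xs u 7 ^ 2 := by
    rw [xs_bf hu0 hu0, Fin.sum_univ_eight]
    ring
  rw [hN] at hn
  have h6 := sq_nonneg (xs u 6)
  have h7 := sq_nonneg (xs u 7)
  rcases E8Da_rt hκ hu hd (hN.trans hn) with rfl | rfl
  · have hx : ∀ x : ℤ, x ≤ x ^ 2 ∧ -x ≤ x ^ 2 := by
      intro x
      rcases lt_trichotomy x 0 with h | h | h
      · constructor <;> nlinarith
      · rw [h]
        norm_num
      · constructor <;> nlinarith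
    have h8 := hx (xs u 0)
    have h9 := hx (xs u 1)
    have h10 := hx (xs u 2)
    have h11 := hx (xs u 3)
    have h12 := hx (xs u 4)
    have h13 := hx (xs u 5)
    have h14 : bf E8 u V6 ≤ 2 := by
      rw [hS]
      linarith [h8.1, h9.1, h10.1, h11.1, h12.1, h13.1]
    have h15 : -2 ≤ bf E8 u V6 := by
      rw [hS]
      linarith [h8.2, h9.2, h10.2, h11.2, h12.2, h13.2]
    omega
  · refine E8Da_zero h3 ?_
    rw [hS]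
    have h8 := E8Da_sq6 (xs u 0) (xs u 1) (xs u 2) (xs u 3) (xs u 4) (xs u 5)
    linarith

/-- PROOF.  `κ` odd: `R = κ R'`, `R' = 3u' - β V16`, `u'` satisfies `DH 4`.  `κ = 2κ₁`: `R = κ₁ R'`, `R' = 3u'' - 2β V16`, `u''` satisfies
`DH 4` (`dual_four`).  In both cases `R' = 3w - β' V16` with `3 ∤ β'`, `DH 4 w`; the first seven coordinates `3x_i - β'` of `R'` are
nonzero, so the norm is `≥ 7`; and the norm is `9 bf w w - 6 β' bf w V16 + 16 β'² = 4 mod 12` (`norm_four`, `DH_four_bf`,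
`β'² = 1 mod 3`).  So it is `≥ 16`. -/
theorem blk16 {κ β : ℤ} (hκ : 0 < κ) (hβ : ¬ (3 : ℤ) ∣ β) {u : Fin 8 → ℤ} (hu : DH 4 u)
    (hd : DD 4 κ u) :
    (Odd κ → 16 * κ ^ 2 ≤ bf E8 ((3 : ℤ) • u - (κ * β) • V16) ((3 : ℤ) • u - (κ * β) • V16)) ∧
      ∀ κ₁, κ = 2 * κ₁ →
        16 * κ₁ ^ 2 ≤ bf E8 ((3 : ℤ) • u - (κ * β) • V16) ((3 : ℤ) • u - (κ * β) • V16) := by
  refine E8Da_blk 4 16 V16 ?_ hκ hβ hu hd
  intro w γ hγ hw
  have hw4 : DH 4 w := by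
    rcases hw with hw | hw
    · exact hw
    · exact dual_four hw
  have hw0 : (2 : ℤ) ∣ w 0 := DH_zero (by norm_num) hw4
  have h1 : 7 ≤ bf E8 ((3 : ℤ) • w - γ • V16) ((3 : ℤ) • w - γ • V16) := by
    rw [E8Da_norm hw0 (by decide) γ, Fin.sum_univ_eight]
    obtain ⟨v0, v1, v2, v3, v4, v5, v6, v7⟩ := E8Da_v16
    rw [v0, v1, v2, v3, v4, v5, v6, v7]
    simp only [mul_one]
    have h0 := E8Da_one hγ (xs w 0)
    have h1 := E8Da_one hγ (xs w 1)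
    have h2 := E8Da_one hγ (xs w 2)
    have h3 := E8Da_one hγ (xs w 3)
    have h4 := E8Da_one hγ (xs w 4)
    have h5 := E8Da_one hγ (xs w 5)
    have h6 := E8Da_one hγ (xs w 6)
    have h7 := sq_nonneg (3 * xs w 7 - γ * 3)
    linarith
  have h2 : bf E8 ((3 : ℤ) • w - γ • V16) ((3 : ℤ) • w - γ • V16) =
      9 * bf E8 w w - 6 * γ * bf E8 w V16 + 16 * γ ^ 2 := by
    rw [MP_dcc566_gt.bf_sub_left, MP_dcc566_gt.bf_sub_right, MP_dcc566_gt.bf_sub_right,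
      MP_dcc566_gt.bf_smul_left, MP_dcc566_gt.bf_smul_left, MP_dcc566_gt.bf_smul_left,
      MP_dcc566_gt.bf_smul_left, MP_dcc566_gt.bf_smul_right, MP_dcc566_gt.bf_smul_right,
      MP_dcc566_gt.bf_smul_right, MP_dcc566_gt.bf_smul_right, V16_facts.2.1,
      MP_dcc566_gt.E8_comm V16 w]
    ring
  obtain ⟨a, ha⟩ := norm_four hw4
  obtain ⟨b, hb⟩ := DH_four_bf hw4 V16_facts.1
  obtain ⟨c, hc⟩ : ∃ c : ℤ, γ ^ 2 = 3 * c + 1 := by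
    rcases (by omega : γ % 3 = 1 ∨ γ % 3 = 2) with h | h
    · obtain ⟨t, rfl⟩ : ∃ t, γ = 3 * t + 1 := ⟨γ / 3, by omega⟩
      exact ⟨3 * t ^ 2 + 2 * t, by ring⟩
    · obtain ⟨t, rfl⟩ : ∃ t, γ = 3 * t + 2 := ⟨γ / 3, by omega⟩
      exact ⟨3 * t ^ 2 + 4 * t + 1, by ring⟩
  rw [ha, hb, hc] at h2
  have h3 : bf E8 ((3 : ℤ) • w - γ • V16) ((3 : ℤ) • w - γ • V16) =
      12 * (3 * a - γ * b + 4 * c) + 16 := by
    rw [h2]
    ring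
  rw [h3] at h1 ⊢
  omega

end Pool.Agent.RFN
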