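import Mathlib
import Pool.Agent.Lib.MP_dcc566_gt_R.E8D

set_option autoImplicit false

namespace Pool.Agent.RFN

open MP_dcc566_gt (bf E8)

/-- Standard coordinates `(2,0,0,0,2,0,0,0)`, norm 8. -/
def V44 : Fin 8 → ℤ := ![0, 2, 0, 2, 2, 2, 0, 0]

/-- Standard coordinates `(2,0,0,0,-2,0,0,0)`, norm 8. -/
def T44 : Fin 8 → ℤ := ![0, 0, -2, -2, -2, -2, 0, 0]

/-- Standard coordinates `(2,0,0,0,1,1,-2,0)`, norm 10. -/
def V46 : Fin 8 → ℤ := ![0, 1, -1, 0, 0, 0, -1, -2]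

/-- Standard coordinates `(1,1,-2,0,1,1,-2,0)`, norm 12. -/
def V66 : Fin 8 → ℤ := ![0, 0, -1, -2, 0, 0, -1, -2]

theorem V44_facts : DH 2 V44 ∧ bf E8 V44 V44 = 8 ∧ xs V44 = ![2, 0, 0, 0, 2, 0, 0, 0] ∧
    T44 ≠ 0 ∧ xs T44 = ![2, 0, 0, 0, -2, 0, 0, 0] := by
  refine ⟨?_, by decide, by decide, by decide, by decide⟩
  unfold DH
  decide

theorem V46_facts : DH 2 V46 ∧ bf E8 V46 V46 = 10 ∧ xs V46 = ![2, 0, 0, 0, 1, 1, -2, 0] := by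
  refine ⟨?_, by decide, by decide⟩
  unfold DH
  decide

theorem V66_facts : DH 2 V66 ∧ bf E8 V66 V66 = 12 ∧ xs V66 = ![1, 1, -2, 0, 1, 1, -2, 0] := by
  refine ⟨?_, by decide, by decide⟩
  unfold DH
  decide

/-- Products in coordinates, written out. -/
private theorem E8Db_bf {u v : Fin 8 → ℤ} (hu : (2 : ℤ) ∣ u 0) (hv : (2 : ℤ) ∣ v 0) :
    bf E8 u v = xs u 0 * xs v 0 + xs u 1 * xs v 1 + xs u 2 * xs v 2 + xs u 3 * xs v 3 +
      (xs u 4 * xs v 4 + xs u 5 * xs v 5 + xs u 6 * xs v 6 + xs u 7 * xs v 7) := by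
  rw [xs_bf hu hv, Fin.sum_univ_eight]
  ring

private theorem E8Db_two {u V : Fin 8 → ℤ} (hu : (2 : ℤ) ∣ u 0) (hV : (2 : ℤ) ∣ V 0) (c : ℤ) :
    (2 : ℤ) ∣ ((3 : ℤ) • u - c • V) 0 := by
  simp only [Pi.sub_apply, Pi.smul_apply, smul_eq_mul]
  exact dvd_sub (hu.mul_left 3) (hV.mul_left c)

/-- The norm of `3 u - c V` in coordinates. -/
private theorem E8Db_nrm {u V : Fin 8 → ℤ} (hu : (2 : ℤ) ∣ u 0) (hV : (2 : ℤ) ∣ V 0) (c : ℤ) :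
    bf E8 ((3 : ℤ) • u - c • V) ((3 : ℤ) • u - c • V) =
      (3 * xs u 0 - c * xs V 0) ^ 2 + (3 * xs u 1 - c * xs V 1) ^ 2 +
      (3 * xs u 2 - c * xs V 2) ^ 2 + (3 * xs u 3 - c * xs V 3) ^ 2 +
      ((3 * xs u 4 - c * xs V 4) ^ 2 + (3 * xs u 5 - c * xs V 5) ^ 2 +
      (3 * xs u 6 - c * xs V 6) ^ 2 + (3 * xs u 7 - c * xs V 7) ^ 2) := by
  rw [E8Db_bf (E8Db_two hu hV c) (E8Db_two hu hV c)]
  simp only [xs_lin hu hV]
  ring

private theorem E8Db_smul {u : Fin 8 → ℤ} (hu : (2 : ℤ) ∣ u 0) (k : ℤ) (i : Fin 8) :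
    xs (k • u) i = k * xs u i := by
  have h := xs_lin hu hu k 0 i
  rw [zero_smul, sub_zero, zero_mul, sub_zero] at h
  exact h

/-- A vector of `D₄ ⊕ D₄`: both block sums of the standard coordinates are even.
(`bf (hh 1) u = x0+x1+x2+x3`, and `xs_sum`.) -/
theorem DH_two_sum {u : Fin 8 → ℤ} (hu : DH 2 u) :
    (2 : ℤ) ∣ xs u 0 + xs u 1 + xs u 2 + xs u 3 ∧ (2 : ℤ) ∣ xs u 4 + xs u 5 + xs u 6 + xs u 7 := by
  have h0 : (2 : ℤ) ∣ u 0 := DH_zero (by norm_num) hu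
  have h1 := hu 1 (by norm_num)
  have hv : (2 : ℤ) ∣ hh 1 0 := by decide
  rw [E8Db_bf hv h0, xs_hh.2.1] at h1
  have h2 := xs_sum u
  rw [Fin.sum_univ_eight] at h2
  simp only [Matrix.cons_val] at h1
  omega

private theorem E8Db_sq9 {x : ℤ} (h : (3 : ℤ) ∣ x) : x = 0 ∨ 9 ≤ x ^ 2 := by
  obtain ⟨a, rfl⟩ := h
  by_cases ha : a = 0
  · left; rw [ha, mul_zero]
  · right
    have h1 : 0 < a ^ 2 := by positivity
    nlinarith

private theorem E8Db_sq1 {x : ℤ} (h : ¬ (3 : ℤ) ∣ x) :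
    x = 1 ∨ x = -1 ∨ x = 2 ∨ x = -2 ∨ 16 ≤ x ^ 2 := by
  by_cases h1 : x ≤ -4
  · right; right; right; right; nlinarith
  by_cases h2 : 4 ≤ x
  · right; right; right; right; nlinarith
  omega

/-- Block of type 4, odd case: `x1 = b mod 3` not divisible by 3, `x2, x3, x4` divisible by 3,
even sum: norm at least 4, and if it is 4 then `x1 = ±2`, the others 0.  (If `|x1| = 1` some other
coordinate is nonzero, so at least 3 in absolute value.) -/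
theorem b4odd {x₁ x₂ x₃ x₄ : ℤ} (h1 : ¬ (3 : ℤ) ∣ x₁) (h2 : (3 : ℤ) ∣ x₂) (h3 : (3 : ℤ) ∣ x₃)
    (h4 : (3 : ℤ) ∣ x₄) (hs : (2 : ℤ) ∣ x₁ + x₂ + x₃ + x₄) :
    4 ≤ x₁ ^ 2 + x₂ ^ 2 + x₃ ^ 2 + x₄ ^ 2 ∧
      (x₁ ^ 2 + x₂ ^ 2 + x₃ ^ 2 + x₄ ^ 2 = 4 → (x₁ = 2 ∨ x₁ = -2) ∧ x₂ = 0 ∧ x₃ = 0 ∧ x₄ = 0) := by
  have q1 := sq_nonneg x₁
  have q2 := sq_nonneg x₂
  have q3 := sq_nonneg x₃
  have q4 := sq_nonneg x₄
  have r1 := E8Db_sq1 h1
  rcases E8Db_sq9 h2 with e2 | e2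
  · rcases E8Db_sq9 h3 with e3 | e3
    · rcases E8Db_sq9 h4 with e4 | e4
      · subst e2 e3 e4
        rcases r1 with r | r | r | r | r
        · subst r; exfalso; revert hs; decide
        · subst r; exfalso; revert hs; decide
        · subst r; decide
        · subst r; decide
        · refine ⟨by linarith, fun h => ?_⟩
          exfalso; linarith
      · exact ⟨by linarith, fun h => by exfalso; linarith⟩
    · exact ⟨by linarith, fun h => by exfalso; linarith⟩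
  · exact ⟨by linarith, fun h => by exfalso; linarith⟩

/-- Block of type 4, even case: the same with all four coordinates of equal parity. -/
theorem b4even {x₁ x₂ x₃ x₄ : ℤ} (h1 : ¬ (3 : ℤ) ∣ x₁) (h2 : (3 : ℤ) ∣ x₂) (h3 : (3 : ℤ) ∣ x₃)
    (h4 : (3 : ℤ) ∣ x₄) (p1 : (2 : ℤ) ∣ x₁ - x₂) (p2 : (2 : ℤ) ∣ x₂ - x₃) (p3 : (2 : ℤ) ∣ x₃ - x₄) :
    4 ≤ x₁ ^ 2 + x₂ ^ 2 + x₃ ^ 2 + x₄ ^ 2 ∧
      (x₁ ^ 2 + x₂ ^ 2 + x₃ ^ 2 + x₄ ^ 2 = 4 → (x₁ = 2 ∨ x₁ = -2) ∧ x₂ = 0 ∧ x₃ = 0 ∧ x₄ = 0) := by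
  exact b4odd h1 h2 h3 h4 (by omega)

/-- Block of type 6, odd case: three coordinates not divisible by 3, the fourth divisible by 3,
even sum: norm at least 6. -/
theorem b6odd {x₁ x₂ x₃ x₄ : ℤ} (h1 : ¬ (3 : ℤ) ∣ x₁) (h2 : ¬ (3 : ℤ) ∣ x₂) (h3 : ¬ (3 : ℤ) ∣ x₃)
    (h4 : (3 : ℤ) ∣ x₄) (hs : (2 : ℤ) ∣ x₁ + x₂ + x₃ + x₄) :
    6 ≤ x₁ ^ 2 + x₂ ^ 2 + x₃ ^ 2 + x₄ ^ 2 := by
  have key : ∀ x : ℤ, ¬ (3 : ℤ) ∣ x → 1 ≤ x ^ 2 ∧ ((x = 1 ∨ x = -1) ∨ 4 ≤ x ^ 2) := by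
    intro x hx
    rcases E8Db_sq1 hx with r | r | r | r | r
    · subst r; decide
    · subst r; decide
    · subst r; decide
    · subst r; decide
    · exact ⟨by linarith, Or.inr (by linarith)⟩
  obtain ⟨a1, b1⟩ := key x₁ h1
  obtain ⟨a2, b2⟩ := key x₂ h2
  obtain ⟨a3, b3⟩ := key x₃ h3
  have q4 := sq_nonneg x₄
  rcases b1 with b1 | b1
  · rcases b2 with b2 | b2
    · rcases b3 with b3 | b3
      · rcases E8Db_sq9 h4 with e4 | e4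
        · exfalso; omega
        · linarith
      · linarith
    · linarith
  · linarith

/-- Block of type 6, even case: equal parities: norm at least 12 (all even: `4+4+4`; all odd:
`1+1+1+9`). -/
theorem b6even {x₁ x₂ x₃ x₄ : ℤ} (h1 : ¬ (3 : ℤ) ∣ x₁) (h2 : ¬ (3 : ℤ) ∣ x₂) (h3 : ¬ (3 : ℤ) ∣ x₃)
    (h4 : (3 : ℤ) ∣ x₄) (p1 : (2 : ℤ) ∣ x₁ - x₂) (p2 : (2 : ℤ) ∣ x₂ - x₃) (p3 : (2 : ℤ) ∣ x₃ - x₄) :
    12 ≤ x₁ ^ 2 + x₂ ^ 2 + x₃ ^ 2 + x₄ ^ 2 := by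
  have key : ∀ x : ℤ, ¬ (3 : ℤ) ∣ x → 1 ≤ x ^ 2 ∧ ((2 : ℤ) ∣ x → 4 ≤ x ^ 2) := by
    intro x hx
    rcases E8Db_sq1 hx with r | r | r | r | r
    · subst r; decide
    · subst r; decide
    · subst r; decide
    · subst r; decide
    · exact ⟨by linarith, fun _ => by linarith⟩
  obtain ⟨a1, b1⟩ := key x₁ h1
  obtain ⟨a2, b2⟩ := key x₂ h2
  obtain ⟨a3, b3⟩ := key x₃ h3
  have q4 := sq_nonneg x₄
  by_cases he : (2 : ℤ) ∣ x₁
  · have c1 := b1 he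
    have c2 := b2 (by omega)
    have c3 := b3 (by omega)
    linarith
  · rcases E8Db_sq9 h4 with e4 | e4
    · exfalso; omega
    · linarith

/-- The two local cases in coordinates. -/
private theorem E8Db_red {κ : ℤ} (hκ : 0 < κ) {u : Fin 8 → ℤ} (hu : DH 2 u) (hd : DD 2 κ u) :
    (Odd κ → ∃ y : Fin 8 → ℤ, ((2 : ℤ) ∣ y 0 + y 1 + y 2 + y 3) ∧
      ((2 : ℤ) ∣ y 4 + y 5 + y 6 + y 7) ∧ ∀ i, xs u i = κ * y i) ∧
    (∀ κ₁, κ = 2 * κ₁ → ∃ y : Fin 8 → ℤ, ((2 : ℤ) ∣ y 0 - y 1 ∧ (2 : ℤ) ∣ y 1 - y 2 ∧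
      (2 : ℤ) ∣ y 2 - y 3) ∧ ((2 : ℤ) ∣ y 4 - y 5 ∧ (2 : ℤ) ∣ y 5 - y 6 ∧
      (2 : ℤ) ∣ y 6 - y 7) ∧ ∀ i, xs u i = κ₁ * y i) := by
  obtain ⟨ho, he⟩ := two_loc hκ hu hd
  constructor
  · intro hodd
    obtain ⟨u', e, h'⟩ := ho hodd
    obtain ⟨s1, s2⟩ := DH_two_sum h'
    refine ⟨xs u', s1, s2, fun i => ?_⟩
    rw [e]
    exact E8Db_smul (DH_zero (by norm_num) h') κ i
  · intro κ₁ hk
    obtain ⟨u'', e, h''⟩ := he κ₁ hk
    obtain ⟨p0, p1, p2, -⟩ := dual_par (Or.inr rfl) h''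
    refine ⟨xs u'', p1, p2, fun i => ?_⟩
    rw [e]
    exact E8Db_smul p0 κ₁ i

private theorem E8Db_V44 : (2 : ℤ) ∣ V44 0 := by decide
private theorem E8Db_V46 : (2 : ℤ) ∣ V46 0 := by decide
private theorem E8Db_V66 : (2 : ℤ) ∣ V66 0 := by decide
private theorem E8Db_T44 : (2 : ℤ) ∣ T44 0 := by decide

/-- PROOF.  `two_loc`: `κ` odd: `R = κ (3u' - β V44)`, `DH 2 u'`; coordinates `3x_0 - 2β`,
`3x_4 - 2β` and `3x_i`; block sums even (`3 (block sum of u') - 2β`): `b4odd` twice.  `κ = 2κ₁`: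
`R = κ₁ (3u'' - 2β V44)`, `dual_par`: coordinates `3x_0 - 4β`, ..., parities equal in the blocks:
`b4even` twice. -/
theorem blk44 {κ β : ℤ} (hκ : 0 < κ) (hβ : ¬ (3 : ℤ) ∣ β) {u : Fin 8 → ℤ} (hu : DH 2 u)
    (hd : DD 2 κ u) :
    (Odd κ → 8 * κ ^ 2 ≤ bf E8 ((3 : ℤ) • u - (κ * β) • V44) ((3 : ℤ) • u - (κ * β) • V44)) ∧
      ∀ κ₁, κ = 2 * κ₁ →
        8 * κ₁ ^ 2 ≤ bf E8 ((3 : ℤ) • u - (κ * β) • V44) ((3 : ℤ) • u - (κ * β) • V44) := by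
  obtain ⟨ho, he⟩ := E8Db_red hκ hu hd
  have h0 : (2 : ℤ) ∣ u 0 := DH_zero (by norm_num) hu
  rw [E8Db_nrm h0 E8Db_V44, V44_facts.2.2.1]
  simp only [Matrix.cons_val]
  constructor
  · intro hodd
    obtain ⟨y, s1, s2, hy⟩ := ho hodd
    simp only [hy]
    have k1 := (b4odd (x₁ := 3 * y 0 - β * 2) (x₂ := 3 * y 1) (x₃ := 3 * y 2) (x₄ := 3 * y 3)
      (by omega) (by omega) (by omega) (by omega) (by omega)).1
    have k2 := (b4odd (x₁ := 3 * y 4 - β * 2) (x₂ := 3 * y 5) (x₃ := 3 * y 6) (x₄ := 3 * y 7)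
      (by omega) (by omega) (by omega) (by omega) (by omega)).1
    have k3 := mul_le_mul_of_nonneg_left (add_le_add k1 k2) (sq_nonneg κ)
    calc 8 * κ ^ 2 = κ ^ 2 * (4 + 4) := by ring
      _ ≤ _ := k3
      _ = _ := by ring
  · intro κ₁ hk
    obtain ⟨y, ⟨s1, s2, s3⟩, ⟨s4, s5, s6⟩, hy⟩ := he κ₁ hk
    simp only [hy]
    have k1 := (b4even (x₁ := 3 * y 0 - 4 * β) (x₂ := 3 * y 1) (x₃ := 3 * y 2) (x₄ := 3 * y 3)
      (by omega) (by omega) (by omega) (by omega) (by omega) (by omega) (by omega)).1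
    have k2 := (b4even (x₁ := 3 * y 4 - 4 * β) (x₂ := 3 * y 5) (x₃ := 3 * y 6) (x₄ := 3 * y 7)
      (by omega) (by omega) (by omega) (by omega) (by omega) (by omega) (by omega)).1
    have k3 := mul_le_mul_of_nonneg_left (add_le_add k1 k2) (sq_nonneg κ₁)
    calc 8 * κ₁ ^ 2 = κ₁ ^ 2 * (4 + 4) := by ring
      _ ≤ _ := k3
      _ = _ := by rw [hk]; ring

/-- Equality for `κ = 1` and `κ = 2`: the coordinates 0 and 4 of `R` are `±2`, congruent to each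
other modulo 3 (`-2κβ`), so equal, the others are 0, and the product with `(2,0,0,0,-2,0,0,0)`
vanishes. -/
theorem blk44_eq {κ β : ℤ} (hκ : κ = 1 ∨ κ = 2) (hβ : ¬ (3 : ℤ) ∣ β) {u : Fin 8 → ℤ} (hu : DH 2 u)
    (hd : DD 2 κ u)
    (h : bf E8 ((3 : ℤ) • u - (κ * β) • V44) ((3 : ℤ) • u - (κ * β) • V44) = 8) :
    bf E8 ((3 : ℤ) • u - (κ * β) • V44) T44 = 0 := by
  have hκ0 : 0 < κ := by omega
  obtain ⟨ho, he⟩ := E8Db_red hκ0 hu hd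
  have h0 : (2 : ℤ) ∣ u 0 := DH_zero (by norm_num) hu
  rw [E8Db_nrm h0 E8Db_V44, V44_facts.2.2.1] at h
  rw [E8Db_bf (E8Db_two h0 E8Db_V44 _) E8Db_T44, V44_facts.2.2.2.2]
  simp only [xs_lin h0 E8Db_V44]
  rw [V44_facts.2.2.1]
  simp only [Matrix.cons_val] at h ⊢
  rcases hκ with rfl | rfl
  · obtain ⟨y, s1, s2, hy⟩ := ho odd_one
    simp only [hy] at h ⊢
    have k1 := b4odd (x₁ := 3 * y 0 - β * 2) (x₂ := 3 * y 1) (x₃ := 3 * y 2) (x₄ := 3 * y 3)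
      (by omega) (by omega) (by omega) (by omega) (by omega)
    have k2 := b4odd (x₁ := 3 * y 4 - β * 2) (x₂ := 3 * y 5) (x₃ := 3 * y 6) (x₄ := 3 * y 7)
      (by omega) (by omega) (by omega) (by omega) (by omega)
    have e1 := (k1.2 (by linarith [k1.1, k2.1])).1
    have e2 := (k2.2 (by linarith [k1.1, k2.1])).1
    clear k1 k2 h
    omega
  · obtain ⟨y, ⟨s1, s2, s3⟩, ⟨s4, s5, s6⟩, hy⟩ := he 1 (by norm_num)
    simp only [hy] at h ⊢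
    have k1 := b4even (x₁ := 3 * y 0 - 4 * β) (x₂ := 3 * y 1) (x₃ := 3 * y 2) (x₄ := 3 * y 3)
      (by omega) (by omega) (by omega) (by omega) (by omega) (by omega) (by omega)
    have k2 := b4even (x₁ := 3 * y 4 - 4 * β) (x₂ := 3 * y 5) (x₃ := 3 * y 6) (x₄ := 3 * y 7)
      (by omega) (by omega) (by omega) (by omega) (by omega) (by omega) (by omega)
    have e1 := (k1.2 (by linarith [k1.1, k2.1])).1
    have e2 := (k2.2 (by linarith [k1.1, k2.1])).1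
    clear k1 k2 h
    omega

/-- Generalized roots: `κ` is 1 or 2, one block vanishes, and the coordinates are at most `κ` in
absolute value. -/
private theorem E8Db_rt {κ : ℤ} (hκ : 0 < κ) {u : Fin 8 → ℤ} (hu : DH 2 u) (hd : DD 2 κ u)
    (hn : bf E8 u u = 2 * κ) : (κ = 1 ∨ κ = 2) ∧
      ((xs u 0 = 0) ∨ (xs u 4 = 0 ∧ xs u 5 = 0 ∧ xs u 6 = 0 ∧ xs u 7 = 0)) ∧
      (-κ ≤ xs u 0 ∧ xs u 0 ≤ κ) ∧ (-κ ≤ xs u 4 ∧ xs u 4 ≤ κ) := by
  obtain ⟨ho, he⟩ := E8Db_red hκ hu hd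
  have h0 : (2 : ℤ) ∣ u 0 := DH_zero (by norm_num) hu
  rw [E8Db_bf h0 h0] at hn
  have z0 : ∀ a b c d : ℤ, a ^ 2 + b ^ 2 + c ^ 2 + d ^ 2 ≤ 0 → a = 0 ∧ b = 0 ∧ c = 0 ∧ d = 0 := by
    intro a b c d h
    have ha := sq_nonneg a
    have hb := sq_nonneg b
    have hc := sq_nonneg c
    have hd' := sq_nonneg d
    refine ⟨?_, ?_, ?_, ?_⟩
    · exact pow_eq_zero_iff (two_ne_zero) |>.mp (by linarith)
    · exact pow_eq_zero_iff (two_ne_zero) |>.mp (by linarith)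
    · exact pow_eq_zero_iff (two_ne_zero) |>.mp (by linarith)
    · exact pow_eq_zero_iff (two_ne_zero) |>.mp (by linarith)
  have d2 : ∀ a b c d : ℤ, (2 : ℤ) ∣ a + b + c + d → (2 : ℤ) ∣ a ^ 2 + b ^ 2 + c ^ 2 + d ^ 2 := by
    intro a b c d h
    have q : ∀ x : ℤ, (2 : ℤ) ∣ x ^ 2 - x := by
      intro x
      have e := (Int.even_mul_pred_self x).two_dvd
      have e' : x ^ 2 - x = x * (x - 1) := by ring
      rw [e']
      exact e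
    have qa := q a
    have qb := q b
    have qc := q c
    have qd := q d
    omega
  have d4 : ∀ a b c d : ℤ, (2 : ℤ) ∣ a - b → (2 : ℤ) ∣ b - c → (2 : ℤ) ∣ c - d →
      (4 : ℤ) ∣ a ^ 2 + b ^ 2 + c ^ 2 + d ^ 2 := by
    intro a b c d h1 h2 h3
    obtain ⟨p, hp⟩ := h1
    obtain ⟨q, hq⟩ := h2
    obtain ⟨r, hr⟩ := h3
    have e3 : c = d + 2 * r := by linarith
    have e2 : b = d + 2 * r + 2 * q := by linarith
    have e1 : a = d + 2 * r + 2 * q + 2 * p := by linarith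
    rw [e1, e2, e3]
    exact ⟨d ^ 2 + d * ((r + q + p) + (r + q) + r) + (r + q + p) ^ 2 + (r + q) ^ 2 + r ^ 2,
      by ring⟩
  have nn : ∀ a b c d : ℤ, 0 ≤ a ^ 2 + b ^ 2 + c ^ 2 + d ^ 2 := by
    intro a b c d
    positivity
  have le1 : ∀ a b c d : ℤ, a ^ 2 ≤ a ^ 2 + b ^ 2 + c ^ 2 + d ^ 2 := by
    intro a b c d
    have hb := sq_nonneg b
    have hc := sq_nonneg c
    have hd' := sq_nonneg d
    linarith
  rcases Int.even_or_odd κ with hev | hodd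
  · obtain ⟨κ₁, hk⟩ := hev.two_dvd
    obtain ⟨y, ⟨s1, s2, s3⟩, ⟨s4, s5, s6⟩, hy⟩ := he κ₁ hk
    simp only [hy] at hn ⊢
    obtain ⟨m1, hm1⟩ := d4 _ _ _ _ s1 s2 s3
    obtain ⟨m2, hm2⟩ := d4 _ _ _ _ s4 s5 s6
    have n1 := nn (y 0) (y 1) (y 2) (y 3)
    have n2 := nn (y 4) (y 5) (y 6) (y 7)
    have l1 := le1 (y 0) (y 1) (y 2) (y 3)
    have l2 := le1 (y 4) (y 5) (y 6) (y 7)
    have hk0 : 0 < κ₁ := by omega
    have e1 : κ₁ * (κ₁ * (m1 + m2)) = κ₁ * 1 := by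
      have e2 : 4 * (κ₁ * (κ₁ * (m1 + m2))) = 2 * κ := by
        rw [← hn]
        have e3 : 4 * (κ₁ * (κ₁ * (m1 + m2))) = κ₁ ^ 2 * (4 * m1 + 4 * m2) := by ring
        rw [e3, ← hm1, ← hm2]
        ring
      linarith
    have e4 := mul_left_cancel₀ hk0.ne' e1
    have e5 : κ₁ = 1 := by
      rcases Int.eq_one_or_neg_one_of_mul_eq_one e4 with h | h <;> omega
    subst e5
    have b1 : -2 ≤ y 0 ∧ y 0 ≤ 2 := abs_le.mp (abs_le_of_sq_le_sq (by omega) (by norm_num))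
    have b2 : -2 ≤ y 4 ∧ y 4 ≤ 2 := abs_le.mp (abs_le_of_sq_le_sq (by omega) (by norm_num))
    refine ⟨by omega, ?_, by omega, by omega⟩
    have hm : m1 = 0 ∨ m2 = 0 := by omega
    rcases hm with hm | hm
    · left
      have z := z0 (y 0) (y 1) (y 2) (y 3) (by omega)
      omega
    · right
      have z := z0 (y 4) (y 5) (y 6) (y 7) (by omega)
      omega
  · obtain ⟨y, s1, s2, hy⟩ := ho hodd
    simp only [hy] at hn ⊢
    obtain ⟨m1, hm1⟩ := d2 _ _ _ _ s1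
    obtain ⟨m2, hm2⟩ := d2 _ _ _ _ s2
    have n1 := nn (y 0) (y 1) (y 2) (y 3)
    have n2 := nn (y 4) (y 5) (y 6) (y 7)
    have l1 := le1 (y 0) (y 1) (y 2) (y 3)
    have l2 := le1 (y 4) (y 5) (y 6) (y 7)
    have e1 : κ * (κ * (m1 + m2)) = κ * 1 := by
      have e2 : 2 * (κ * (κ * (m1 + m2))) = 2 * κ := by
        rw [← hn]
        have e3 : 2 * (κ * (κ * (m1 + m2))) = κ ^ 2 * (2 * m1 + 2 * m2) := by ring
        rw [e3, ← hm1, ← hm2]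
        ring
      linarith
    have e4 := mul_left_cancel₀ hκ.ne' e1
    have e5 : κ = 1 := by
      rcases Int.eq_one_or_neg_one_of_mul_eq_one e4 with h | h <;> omega
    subst e5
    have b1 : -1 ≤ y 0 ∧ y 0 ≤ 1 := by
      have f : y 0 ^ 2 ≤ 2 := by omega
      constructor <;> nlinarith
    have b2 : -1 ≤ y 4 ∧ y 4 ≤ 1 := by
      have f : y 4 ^ 2 ≤ 2 := by omega
      constructor <;> nlinarith
    refine ⟨by omega, ?_, by omega, by omega⟩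
    have hm : m1 = 0 ∨ m2 = 0 := by omega
    rcases hm with hm | hm
    · left
      have z := z0 (y 0) (y 1) (y 2) (y 3) (by omega)
      omega
    · right
      have z := z0 (y 4) (y 5) (y 6) (y 7) (by omega)
      omega

/-- PROOF.  `κ` odd: `κ = 1` (as in `rt8`); norm 2, block sums even, so one block is zero (a block
norm is even) and `bf u V44 = 2 (x_0 + x_4)` with one of `x_0`, `x_4` zero and the other of
absolute value at most 1; divisible by 3: both are 0.  `κ = 2κ₁`: `κ₁ = 1`, `bf u u = 4`,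
`DD 2 2 u`: each block norm is divisible by 4 (equal parities), so one block is 0,
`3 ∣ x_0 + x_4`, `|x_0|, |x_4| ≤ 2`, one of them 0: both are 0. -/
theorem rt44 {κ : ℤ} (hκ : 0 < κ) {u : Fin 8 → ℤ} (hu : DH 2 u) (hd : DD 2 κ u)
    (hn : bf E8 u u = 2 * κ) (h3 : 3 * κ ∣ bf E8 u V44) : bf E8 u T44 = 0 := by
  have h0 : (2 : ℤ) ∣ u 0 := DH_zero (by norm_num) hu
  obtain ⟨hk, hz, hb1, hb2⟩ := E8Db_rt hκ hu hd hn
  rw [E8Db_bf h0 E8Db_V44, V44_facts.2.2.1] at h3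
  rw [E8Db_bf h0 E8Db_T44, V44_facts.2.2.2.2]
  simp only [Matrix.cons_val] at h3 ⊢
  clear hn
  rcases hk with rfl | rfl <;> omega

/-- PROOF as `blk44`: `b4odd`/`b4even` for the first block, `b6odd`/`b6even` for the second
(coordinates `3x - β, 3x - β, 3x + 2β, 3x`, resp. with `2β`): `4 + 6 = 10`, `4 + 12 = 16`. -/
theorem blk46 {κ β : ℤ} (hκ : 0 < κ) (hβ : ¬ (3 : ℤ) ∣ β) {u : Fin 8 → ℤ} (hu : DH 2 u)
    (hd : DD 2 κ u) :
    (Odd κ → 10 * κ ^ 2 ≤ bf E8 ((3 : ℤ) • u - (κ * β) • V46) ((3 : ℤ) • u - (κ * β) • V46)) ∧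
      ∀ κ₁, κ = 2 * κ₁ →
        16 * κ₁ ^ 2 ≤ bf E8 ((3 : ℤ) • u - (κ * β) • V46) ((3 : ℤ) • u - (κ * β) • V46) := by
  obtain ⟨ho, he⟩ := E8Db_red hκ hu hd
  have h0 : (2 : ℤ) ∣ u 0 := DH_zero (by norm_num) hu
  rw [E8Db_nrm h0 E8Db_V46, V46_facts.2.2]
  simp only [Matrix.cons_val]
  constructor
  · intro hodd
    obtain ⟨y, s1, s2, hy⟩ := ho hodd
    simp only [hy]
    have k1 := (b4odd (x₁ := 3 * y 0 - β * 2) (x₂ := 3 * y 1) (x₃ := 3 * y 2) (x₄ := 3 * y 3)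
      (by omega) (by omega) (by omega) (by omega) (by omega)).1
    have k2 := b6odd (x₁ := 3 * y 4 - β) (x₂ := 3 * y 5 - β) (x₃ := 3 * y 6 + 2 * β)
      (x₄ := 3 * y 7) (by omega) (by omega) (by omega) (by omega) (by omega)
    have k3 := mul_le_mul_of_nonneg_left (add_le_add k1 k2) (sq_nonneg κ)
    calc 10 * κ ^ 2 = κ ^ 2 * (4 + 6) := by ring
      _ ≤ _ := k3
      _ = _ := by ring
  · intro κ₁ hk
    obtain ⟨y, ⟨s1, s2, s3⟩, ⟨s4, s5, s6⟩, hy⟩ := he κ₁ hk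
    simp only [hy]
    have k1 := (b4even (x₁ := 3 * y 0 - 4 * β) (x₂ := 3 * y 1) (x₃ := 3 * y 2) (x₄ := 3 * y 3)
      (by omega) (by omega) (by omega) (by omega) (by omega) (by omega) (by omega)).1
    have k2 := b6even (x₁ := 3 * y 4 - 2 * β) (x₂ := 3 * y 5 - 2 * β) (x₃ := 3 * y 6 + 4 * β)
      (x₄ := 3 * y 7) (by omega) (by omega) (by omega) (by omega) (by omega) (by omega)
      (by omega)
    have k3 := mul_le_mul_of_nonneg_left (add_le_add k1 k2) (sq_nonneg κ₁)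
    calc 16 * κ₁ ^ 2 = κ₁ ^ 2 * (4 + 12) := by ring
      _ ≤ _ := k3
      _ = _ := by rw [hk]; ring

/-- PROOF.  The first block has norm 4 (the second has norm at least 6), so its first coordinate is
`±2`, congruent to `-2β = σ` modulo 3, hence `-2σ`; `bf R (hh 0) = 2 (xs R 0) = -4σ`. -/
theorem blk46_eq {β σ : ℤ} (hσ : σ = 1 ∨ σ = -1) (hβ : (3 : ℤ) ∣ β - σ) {u : Fin 8 → ℤ}
    (hu : DH 2 u) (h : bf E8 ((3 : ℤ) • u - β • V46) ((3 : ℤ) • u - β • V46) = 10) :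
    bf E8 ((3 : ℤ) • u - β • V46) (hh 0) = -4 * σ := by
  have h0 : (2 : ℤ) ∣ u 0 := DH_zero (by norm_num) hu
  have hh0 : (2 : ℤ) ∣ hh 0 0 := by decide
  rw [E8Db_nrm h0 E8Db_V46, V46_facts.2.2] at h
  rw [E8Db_bf (E8Db_two h0 E8Db_V46 _) hh0, xs_hh.1]
  simp only [xs_lin h0 E8Db_V46]
  rw [V46_facts.2.2]
  simp only [Matrix.cons_val] at h ⊢
  obtain ⟨s1, s2⟩ := DH_two_sum hu
  have k1 := b4odd (x₁ := 3 * xs u 0 - β * 2) (x₂ := 3 * xs u 1) (x₃ := 3 * xs u 2)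
    (x₄ := 3 * xs u 3) (by omega) (by omega) (by omega) (by omega) (by omega)
  have k2 := b6odd (x₁ := 3 * xs u 4 - β) (x₂ := 3 * xs u 5 - β) (x₃ := 3 * xs u 6 + 2 * β)
    (x₄ := 3 * xs u 7) (by omega) (by omega) (by omega) (by omega) (by omega)
  have e1 := (k1.2 (by linarith [k1.1, k2])).1
  clear k1 k2 h
  omega

/-- PROOF.  As `rt44`: one block is zero.  If the first block is zero, `bf u (hh 0) = 2 x_0 = 0`.
If the second is zero, `bf u V46 = 2 x_0` is divisible by `3κ`, and `|x_0| ≤ 1` (`κ = 1`),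
`|x_0| ≤ 2` (`κ = 2`), so `x_0 = 0`. -/
theorem rt46 {κ : ℤ} (hκ : 0 < κ) {u : Fin 8 → ℤ} (hu : DH 2 u) (hd : DD 2 κ u)
    (hn : bf E8 u u = 2 * κ) (h3 : 3 * κ ∣ bf E8 u V46) : bf E8 u (hh 0) = 0 := by
  have h0 : (2 : ℤ) ∣ u 0 := DH_zero (by norm_num) hu
  have hh0 : (2 : ℤ) ∣ hh 0 0 := by decide
  obtain ⟨hk, hz, hb1, hb2⟩ := E8Db_rt hκ hu hd hn
  rw [E8Db_bf h0 E8Db_V46, V46_facts.2.2] at h3
  rw [E8Db_bf h0 hh0, xs_hh.1]
  simp only [Matrix.cons_val] at h3 ⊢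
  clear hn
  rcases hz with hz | ⟨z4, z5, z6, z7⟩
  · rw [hz]; ring
  · rw [z4, z5, z6, z7] at h3
    rcases hk with rfl | rfl <;> omega

/-- PROOF as `blk46`, with `b6odd`, `b6even` for both blocks. -/
theorem blk66 {κ β : ℤ} (hκ : 0 < κ) (hβ : ¬ (3 : ℤ) ∣ β) {u : Fin 8 → ℤ} (hu : DH 2 u)
    (hd : DD 2 κ u) :
    (Odd κ → 12 * κ ^ 2 ≤ bf E8 ((3 : ℤ) • u - (κ * β) • V66) ((3 : ℤ) • u - (κ * β) • V66)) ∧
      ∀ κ₁, κ = 2 * κ₁ →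
        24 * κ₁ ^ 2 ≤ bf E8 ((3 : ℤ) • u - (κ * β) • V66) ((3 : ℤ) • u - (κ * β) • V66) := by
  obtain ⟨ho, he⟩ := E8Db_red hκ hu hd
  have h0 : (2 : ℤ) ∣ u 0 := DH_zero (by norm_num) hu
  rw [E8Db_nrm h0 E8Db_V66, V66_facts.2.2]
  simp only [Matrix.cons_val]
  constructor
  · intro hodd
    obtain ⟨y, s1, s2, hy⟩ := ho hodd
    simp only [hy]
    have k1 := b6odd (x₁ := 3 * y 0 - β) (x₂ := 3 * y 1 - β) (x₃ := 3 * y 2 + 2 * β)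
      (x₄ := 3 * y 3) (by omega) (by omega) (by omega) (by omega) (by omega)
    have k2 := b6odd (x₁ := 3 * y 4 - β) (x₂ := 3 * y 5 - β) (x₃ := 3 * y 6 + 2 * β)
      (x₄ := 3 * y 7) (by omega) (by omega) (by omega) (by omega) (by omega)
    have k3 := mul_le_mul_of_nonneg_left (add_le_add k1 k2) (sq_nonneg κ)
    calc 12 * κ ^ 2 = κ ^ 2 * (6 + 6) := by ring
      _ ≤ _ := k3
      _ = _ := by ring
  · intro κ₁ hk
    obtain ⟨y, ⟨s1, s2, s3⟩, ⟨s4, s5, s6⟩, hy⟩ := he κ₁ hk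
    simp only [hy]
    have k1 := b6even (x₁ := 3 * y 0 - 2 * β) (x₂ := 3 * y 1 - 2 * β) (x₃ := 3 * y 2 + 4 * β)
      (x₄ := 3 * y 3) (by omega) (by omega) (by omega) (by omega) (by omega) (by omega)
      (by omega)
    have k2 := b6even (x₁ := 3 * y 4 - 2 * β) (x₂ := 3 * y 5 - 2 * β) (x₃ := 3 * y 6 + 4 * β)
      (x₄ := 3 * y 7) (by omega) (by omega) (by omega) (by omega) (by omega) (by omega)
      (by omega)
    have k3 := mul_le_mul_of_nonneg_left (add_le_add k1 k2) (sq_nonneg κ₁)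
    calc 24 * κ₁ ^ 2 = κ₁ ^ 2 * (12 + 12) := by ring
      _ ≤ _ := k3
      _ = _ := by rw [hk]; ring

end Pool.Agent.RFN
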