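import Mathlib
import Pool.Agent.Lib.MP_dcc566_gt_R.Bas

/-!
# The lattice `E₆`
-/

set_option autoImplicit false

namespace Pool.Agent.RFN

open MP_dcc566_gt (bf)

/-- The `E₆` Gram matrix. -/
abbrev E6 : Matrix (Fin 6) (Fin 6) ℤ := CartanMatrix.E₆

/-- A root with `(rh6, ω₁) = -1`. -/
def rh6 : Fin 6 → ℤ := ![-1, -2, -2, -3, -2, -1]

/-- `3 ω₁`. -/
def om6 : Fin 6 → ℤ := ![4, 3, 5, 6, 4, 2]

/-- `rh6 + 3 ω₁`, norm 8. -/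
def y6 : Fin 6 → ℤ := ![3, 1, 3, 3, 2, 1]

/-- `ω₁ + ω₆`, norm 4. -/
def ep6 : Fin 6 → ℤ := ![2, 2, 3, 4, 3, 2]

/-- `3 (ω₁ - ω₆)`, norm 12. -/
def t6 : Fin 6 → ℤ := ![2, 0, 1, 0, -1, -2]

theorem E6_symm : E6.IsSymm := by
  exact CartanMatrix.E₆_isSymm

/-- Values (`decide`), and `bf E6 om6 u = 3 u 0`, `bf E6 ep6 u = u 0 + u 5`, `bf E6 t6 u = 3 (u 0 - u 5)`. -/
theorem E6_vals : bf E6 rh6 rh6 = 2 ∧ bf E6 y6 y6 = 8 ∧ bf E6 ep6 ep6 = 4 ∧ bf E6 t6 t6 = 12 ∧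
    bf E6 ep6 t6 = 0 ∧ bf E6 om6 om6 = 12 ∧ bf E6 om6 rh6 = -3 ∧ y6 = rh6 + om6 ∧ t6 ≠ 0 ∧
    rh6 ≠ 0 := by
  refine ⟨by decide, by decide, by decide, by decide, by decide, by decide, by decide,
    by decide, by decide, by decide⟩

private theorem E6_bf (x y : Fin 6 → ℤ) : bf E6 x y =
    x 0 * (2 * y 0 - y 2) + x 1 * (2 * y 1 - y 3) + x 2 * (2 * y 2 - y 0 - y 3) +
      x 3 * (2 * y 3 - y 1 - y 2 - y 4) + x 4 * (2 * y 4 - y 3 - y 5) + x 5 * (2 * y 5 - y 4) := by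
  simp [bf, dotProduct, Matrix.mulVec, Fin.sum_univ_six, CartanMatrix.E₆]
  ring

theorem E6_om (u : Fin 6 → ℤ) : bf E6 om6 u = 3 * u 0 ∧ bf E6 ep6 u = u 0 + u 5 ∧
    bf E6 t6 u = 3 * (u 0 - u 5) := by
  have o0 : om6 0 = 4 := rfl
  have o1 : om6 1 = 3 := rfl
  have o2 : om6 2 = 5 := rfl
  have o3 : om6 3 = 6 := rfl
  have o4 : om6 4 = 4 := rfl
  have o5 : om6 5 = 2 := rfl
  have e0 : ep6 0 = 2 := rfl
  have e1 : ep6 1 = 2 := rfl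
  have e2 : ep6 2 = 3 := rfl
  have e3 : ep6 3 = 4 := rfl
  have e4 : ep6 4 = 3 := rfl
  have e5 : ep6 5 = 2 := rfl
  have t0 : t6 0 = 2 := rfl
  have t1 : t6 1 = 0 := rfl
  have t2 : t6 2 = 1 := rfl
  have t3 : t6 3 = 0 := rfl
  have t4 : t6 4 = -1 := rfl
  have t5 : t6 5 = -2 := rfl
  refine ⟨?_, ?_, ?_⟩
  · rw [E6_bf, o0, o1, o2, o3, o4, o5]
    ring
  · rw [E6_bf, e0, e1, e2, e3, e4, e5]
    ring
  · rw [E6_bf, t0, t1, t2, t3, t4, t5]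
    ring

/-- `bf E6 u u = 2 (∑ u_i² - u0 u2 - u1 u3 - u2 u3 - u3 u4 - u4 u5)`. -/
theorem E6_even (u : Fin 6 → ℤ) : Even (bf E6 u u) := by
  refine ⟨u 0 ^ 2 + u 1 ^ 2 + u 2 ^ 2 + u 3 ^ 2 + u 4 ^ 2 + u 5 ^ 2 - u 0 * u 2 - u 1 * u 3
    - u 2 * u 3 - u 3 * u 4 - u 4 * u 5, ?_⟩
  rw [E6_bf]
  ring

/-- Complete the squares, as for `E₈` (`E8F.lean`): start with `u 0`, `u 5`, `u 4`, `u 1`, `u 2`, `u 3`:
half norm `= (u0 - u2/2)² + (u5 - u4/2)² + 3/4 (u4 - 2/3 u3)² + (u1 - u3/2)² + 3/4 (u2 - 2/3 u3)² + 1/12 u3²`. -/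
theorem E6_pos (u : Fin 6 → ℤ) (hu : u ≠ 0) : 0 < bf E6 u u := by
  by_contra hcon
  apply hu
  rw [not_lt] at hcon
  have e : 6 * bf E6 u u = 3 * (2 * u 0 - u 2) ^ 2 + 3 * (2 * u 5 - u 4) ^ 2 +
      (3 * u 4 - 2 * u 3) ^ 2 + 3 * (2 * u 1 - u 3) ^ 2 + (3 * u 2 - 2 * u 3) ^ 2 + u 3 ^ 2 := by
    rw [E6_bf]
    ring
  have s0 := sq_nonneg (2 * u 0 - u 2)
  have s5 := sq_nonneg (2 * u 5 - u 4)
  have s4 := sq_nonneg (3 * u 4 - 2 * u 3)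
  have s1 := sq_nonneg (2 * u 1 - u 3)
  have s2 := sq_nonneg (3 * u 2 - 2 * u 3)
  have s3 := sq_nonneg (u 3)
  have z3 : u 3 = 0 := pow_eq_zero_iff two_ne_zero |>.1 (le_antisymm (by linarith) s3)
  have z2 : 3 * u 2 - 2 * u 3 = 0 :=
    pow_eq_zero_iff two_ne_zero |>.1 (le_antisymm (by linarith) s2)
  have z1 : 2 * u 1 - u 3 = 0 :=
    pow_eq_zero_iff two_ne_zero |>.1 (le_antisymm (by linarith) s1)
  have z4 : 3 * u 4 - 2 * u 3 = 0 :=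
    pow_eq_zero_iff two_ne_zero |>.1 (le_antisymm (by linarith) s4)
  have z5 : 2 * u 5 - u 4 = 0 :=
    pow_eq_zero_iff two_ne_zero |>.1 (le_antisymm (by linarith) s5)
  have z0 : 2 * u 0 - u 2 = 0 :=
    pow_eq_zero_iff two_ne_zero |>.1 (le_antisymm (by linarith) s0)
  funext i
  fin_cases i
  · change u 0 = 0
    lia
  · change u 1 = 0
    lia
  · change u 2 = 0
    lia
  · exact z3
  · change u 4 = 0
    lia
  · change u 5 = 0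
    lia

private theorem E6_comm (u v : Fin 6 → ℤ) : bf E6 u v = bf E6 v u :=
  MP_dcc566_gt.bf_comm _ E6_symm u v

private theorem E6_nonneg (u : Fin 6 → ℤ) : 0 ≤ bf E6 u u := by
  by_cases h : u = 0
  · rw [h, MP_dcc566_gt.bf_zero_left]
  · exact (E6_pos u h).le

private theorem E6_two_le {u : Fin 6 → ℤ} (h : u ≠ 0) : 2 ≤ bf E6 u u := by
  have h1 := E6_pos u h
  obtain ⟨k, hk⟩ := E6_even u
  lia

private theorem E6_cs (u v : Fin 6 → ℤ) : (bf E6 u v) ^ 2 ≤ bf E6 u u * bf E6 v v := by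
  have h := (Pd_mF E6_symm E6_pos).cs (cz u) (cz v)
  rw [mF_cz, mF_cz, mF_cz] at h
  exact_mod_cast h

private theorem E6_sub (x y : Fin 6 → ℤ) (a b : ℤ) (v : Fin 6 → ℤ) :
    bf E6 (a • x - b • y) v = a * bf E6 x v - b * bf E6 y v := by
  rw [MP_dcc566_gt.bf_sub_left, MP_dcc566_gt.bf_smul_left, MP_dcc566_gt.bf_smul_left]

private theorem E6_nsub (x y : Fin 6 → ℤ) (a b : ℤ) :
    bf E6 (a • x - b • y) (a • x - b • y) =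
      a ^ 2 * bf E6 x x - 2 * a * b * bf E6 x y + b ^ 2 * bf E6 y y := by
  rw [E6_sub, MP_dcc566_gt.bf_sub_right, MP_dcc566_gt.bf_smul_right, MP_dcc566_gt.bf_smul_right,
    MP_dcc566_gt.bf_sub_right, MP_dcc566_gt.bf_smul_right, MP_dcc566_gt.bf_smul_right,
    E6_comm y x]
  ring

private theorem abs_le_of_sq {a b : ℤ} (hb : 0 ≤ b) (h : a ^ 2 ≤ b ^ 2) : -b ≤ a ∧ a ≤ b :=
  abs_le.1 (abs_le_of_sq_le_sq h hb)

private theorem E6_single (i : Fin 6) (u : Fin 6 → ℤ) :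
    bf E6 (Pi.single i 1) u = (E6.mulVec u) i := by
  unfold bf
  rw [single_dotProduct, one_mul]

/-- The inverse Gram matrix: with `c_i = bf E6 (Pi.single i 1) u`, `3 u = A c`,
`A = 3 E6⁻¹ = [4,3,5,6,4,2; 3,6,6,9,6,3; 5,6,10,12,8,4; 6,9,12,18,12,6; 4,6,8,12,10,5; 2,3,4,6,5,4]`. -/
theorem E6_inv (u : Fin 6 → ℤ) (j : Fin 6) :
    3 * u j = ∑ i, (!![4,3,5,6,4,2; 3,6,6,9,6,3; 5,6,10,12,8,4; 6,9,12,18,12,6; 4,6,8,12,10,5;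
      2,3,4,6,5,4] : Matrix (Fin 6) (Fin 6) ℤ) j i * bf E6 (Pi.single i 1) u := by
  have hA : (!![4,3,5,6,4,2; 3,6,6,9,6,3; 5,6,10,12,8,4; 6,9,12,18,12,6; 4,6,8,12,10,5;
      2,3,4,6,5,4] : Matrix (Fin 6) (Fin 6) ℤ) * E6 = (3 : ℤ) • (1 : Matrix (Fin 6) (Fin 6) ℤ) := by
    decide
  have h1 : ((!![4,3,5,6,4,2; 3,6,6,9,6,3; 5,6,10,12,8,4; 6,9,12,18,12,6; 4,6,8,12,10,5;
      2,3,4,6,5,4] : Matrix (Fin 6) (Fin 6) ℤ).mulVec (E6.mulVec u)) j = 3 * u j := by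
    rw [Matrix.mulVec_mulVec, hA, Matrix.smul_mulVec, Matrix.one_mulVec]
    rfl
  rw [← h1]
  unfold Matrix.mulVec dotProduct
  refine Finset.sum_congr rfl fun i _ => ?_
  rw [E6_single]
  rfl

/-- PROOF.  `κ ∣ c_i`, so `κ ∣ 3 u j` and, `3 ∤ κ`, i.e. coprime, `κ ∣ u j`. -/
theorem E6_dual {κ : ℤ} (h3 : ¬ (3 : ℤ) ∣ κ) {u : Fin 6 → ℤ} (h : ∀ v, κ ∣ bf E6 u v) :
    ∃ u', u = κ • u' := by
  have h1 : ∀ j, κ ∣ u j := by
    intro j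
    have h2 : κ ∣ 3 * u j := by
      rw [E6_inv u j]
      refine Finset.dvd_sum fun i _ => Dvd.dvd.mul_left ?_ _
      rw [E6_comm]
      exact h _
    have h4 : IsCoprime κ 3 := ((Int.prime_three.coprime_iff_not_dvd).2 h3).symm
    exact h4.dvd_of_dvd_mul_left h2
  choose u' hu using h1
  exact ⟨u', funext fun i => hu i⟩

/-- PROOF.  `3κ' ∣ c_i`, so `3κ' ∣ 3 u j`, `u = κ' u''`, and `3κ' ∣ κ' bf u'' v`. -/
theorem E6_dual3 {κ' : ℤ} (hκ : κ' ≠ 0) {u : Fin 6 → ℤ} (h : ∀ v, 3 * κ' ∣ bf E6 u v) :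
    ∃ u'', u = κ' • u'' ∧ ∀ v, (3 : ℤ) ∣ bf E6 u'' v := by
  have h1 : ∀ j, κ' ∣ u j := by
    intro j
    have h2 : 3 * κ' ∣ 3 * u j := by
      rw [E6_inv u j]
      refine Finset.dvd_sum fun i _ => Dvd.dvd.mul_left ?_ _
      rw [E6_comm]
      exact h _
    exact (mul_dvd_mul_iff_left (by norm_num)).1 h2
  choose u' hu using h1
  have hu' : u = κ' • u' := funext fun i => hu i
  refine ⟨u', hu', fun v => ?_⟩
  have h5 := h v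
  rw [hu', MP_dcc566_gt.bf_smul_left, mul_comm 3 κ'] at h5
  exact (mul_dvd_mul_iff_left hκ).1 h5

/-- Vectors of `3 E₆^*`: `u = a om6 + 3 w`.

PROOF.  `c_i = 3 d_i`, `u = A d` (`E6_inv`); modulo 3 the columns of `A` are `1, 0, 2, 0, 1, 2` times the first column `om6`;
take `a = d_0 + 2 d_2 + d_4 + 2 d_5`. -/
theorem E6_three {u : Fin 6 → ℤ} (h : ∀ v, (3 : ℤ) ∣ bf E6 u v) :
    ∃ (a : ℤ) (w : Fin 6 → ℤ), u = a • om6 + (3 : ℤ) • w := by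
  have h1 : ∀ i, (3 : ℤ) ∣ bf E6 (Pi.single i 1) u := by
    intro i
    rw [E6_comm]
    exact h _
  choose d hd using h1
  have hu : ∀ j, u j = ∑ i, (!![4,3,5,6,4,2; 3,6,6,9,6,3; 5,6,10,12,8,4; 6,9,12,18,12,6;
      4,6,8,12,10,5; 2,3,4,6,5,4] : Matrix (Fin 6) (Fin 6) ℤ) j i * d i := by
    intro j
    have h2 := E6_inv u j
    have h3 : 3 * u j = 3 * ∑ i, (!![4,3,5,6,4,2; 3,6,6,9,6,3; 5,6,10,12,8,4; 6,9,12,18,12,6;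
      4,6,8,12,10,5; 2,3,4,6,5,4] : Matrix (Fin 6) (Fin 6) ℤ) j i * d i := by
      rw [h2, Finset.mul_sum]
      refine Finset.sum_congr rfl fun i _ => ?_
      rw [hd i]
      ring
    exact mul_left_cancel₀ (by norm_num) h3
  refine ⟨d 0 + 2 * d 2 + d 4 + 2 * d 5,
    d 1 • ![1, 2, 2, 3, 2, 1] + d 2 • ![-1, 0, 0, 0, 0, 0] + d 3 • ![2, 3, 4, 6, 4, 2] +
      d 4 • ![0, 1, 1, 2, 2, 1] + d 5 • ![-2, -1, -2, -2, -1, 0], ?_⟩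
  funext j
  rw [hu j, Fin.sum_univ_six]
  fin_cases j
  · change 4 * d 0 + 3 * d 1 + 5 * d 2 + 6 * d 3 + 4 * d 4 + 2 * d 5 =
      (d 0 + 2 * d 2 + d 4 + 2 * d 5) * 4 +
        3 * (d 1 * 1 + d 2 * (-1) + d 3 * 2 + d 4 * 0 + d 5 * (-2))
    ring
  · change 3 * d 0 + 6 * d 1 + 6 * d 2 + 9 * d 3 + 6 * d 4 + 3 * d 5 =
      (d 0 + 2 * d 2 + d 4 + 2 * d 5) * 3 +
        3 * (d 1 * 2 + d 2 * 0 + d 3 * 3 + d 4 * 1 + d 5 * (-1))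
    ring
  · change 5 * d 0 + 6 * d 1 + 10 * d 2 + 12 * d 3 + 8 * d 4 + 4 * d 5 =
      (d 0 + 2 * d 2 + d 4 + 2 * d 5) * 5 +
        3 * (d 1 * 2 + d 2 * 0 + d 3 * 4 + d 4 * 1 + d 5 * (-2))
    ring
  · change 6 * d 0 + 9 * d 1 + 12 * d 2 + 18 * d 3 + 12 * d 4 + 6 * d 5 =
      (d 0 + 2 * d 2 + d 4 + 2 * d 5) * 6 +
        3 * (d 1 * 3 + d 2 * 0 + d 3 * 6 + d 4 * 2 + d 5 * (-2))
    ring
  · change 4 * d 0 + 6 * d 1 + 8 * d 2 + 12 * d 3 + 10 * d 4 + 5 * d 5 =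
      (d 0 + 2 * d 2 + d 4 + 2 * d 5) * 4 +
        3 * (d 1 * 2 + d 2 * 0 + d 3 * 4 + d 4 * 2 + d 5 * (-1))
    ring
  · change 2 * d 0 + 3 * d 1 + 4 * d 2 + 6 * d 3 + 5 * d 4 + 4 * d 5 =
      (d 0 + 2 * d 2 + d 4 + 2 * d 5) * 2 +
        3 * (d 1 * 1 + d 2 * 0 + d 3 * 2 + d 4 * 1 + d 5 * 0)
    ring

/-- PROOF.  `u = a om6 + 3 w`.  If `3 ∣ a`: `u = 3 w'`, `w' ≠ 0`, norm `9 bf w' w' ≥ 18`.  Otherwise the norm is
`12 a² + 18 a w_0 + 9 bf w w = 12 mod 18` (`a² = 1 mod 3`, `bf w w` even), positive. -/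
theorem E6_twelve {u : Fin 6 → ℤ} (h : ∀ v, (3 : ℤ) ∣ bf E6 u v) (h0 : u ≠ 0) :
    12 ≤ bf E6 u u ∧ (u ∉ Set.range (fun w : Fin 6 → ℤ => (3 : ℤ) • w) →
      (18 : ℤ) ∣ bf E6 u u - 12) := by
  obtain ⟨a, w, hu⟩ := E6_three h
  have hn : bf E6 u u = 12 * a ^ 2 + 18 * a * w 0 + 9 * bf E6 w w := by
    rw [hu, MP_dcc566_gt.bf_add_left, MP_dcc566_gt.bf_add_right, MP_dcc566_gt.bf_add_right,
      MP_dcc566_gt.bf_smul_left, MP_dcc566_gt.bf_smul_left, MP_dcc566_gt.bf_smul_left,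
      MP_dcc566_gt.bf_smul_left, MP_dcc566_gt.bf_smul_right, MP_dcc566_gt.bf_smul_right,
      MP_dcc566_gt.bf_smul_right, MP_dcc566_gt.bf_smul_right, E6_comm w om6, (E6_om w).1,
      E6_vals.2.2.2.2.2.1]
    ring
  obtain ⟨k, hk⟩ := E6_even w
  by_cases ha : (3 : ℤ) ∣ a
  · obtain ⟨b, rfl⟩ := ha
    have hu3 : u = (3 : ℤ) • (b • om6 + w) := by
      rw [hu, smul_add, smul_smul]
    have hne : b • om6 + w ≠ 0 := by
      intro h1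
      rw [h1, smul_zero] at hu3
      exact h0 hu3
    have h2 := E6_two_le hne
    refine ⟨?_, fun h3 => absurd ⟨_, hu3.symm⟩ h3⟩
    rw [hu3, MP_dcc566_gt.bf_smul_left, MP_dcc566_gt.bf_smul_right]
    lia
  · have h3 : (3 : ℤ) ∣ a ^ 2 - 1 := by
      have h4 : a % 3 = 1 ∨ a % 3 = 2 := by lia
      have h5 : a = 3 * (a / 3) + a % 3 := by lia
      rcases h4 with h4 | h4
      · rw [h4] at h5
        rw [h5]
        exact ⟨3 * (a / 3) ^ 2 + 2 * (a / 3), by ring⟩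
      · rw [h4] at h5
        rw [h5]
        exact ⟨3 * (a / 3) ^ 2 + 4 * (a / 3) + 1, by ring⟩
    obtain ⟨m, hm⟩ := h3
    have hn' : bf E6 u u - 12 = 18 * (2 * m + a * w 0 + k) := by
      rw [hn, hk]
      have : a ^ 2 = 3 * m + 1 := by lia
      rw [this]
      ring
    refine ⟨?_, fun _ => ⟨_, hn'⟩⟩
    have h6 := E6_pos u h0
    generalize 2 * m + a * w 0 + k = z at hn'
    lia

/-- PROOF.  `3 ∤ κ`: `u = κ u'`, norm `≥ 2κ² > 2κ`.  `κ = 3κ'`: `u = κ' u''`, norm `≥ 12 κ'² > 6κ'` (`κ' ≥ 1`). -/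
theorem E6_root {κ : ℤ} (hκ : 2 ≤ κ) {u : Fin 6 → ℤ} (h : ∀ v, κ ∣ bf E6 u v)
    (hn : bf E6 u u ≤ 2 * κ) : u = 0 := by
  by_contra hne
  by_cases h3 : (3 : ℤ) ∣ κ
  · obtain ⟨κ', rfl⟩ := h3
    have hκ' : 1 ≤ κ' := by lia
    obtain ⟨u', hu', h4⟩ := E6_dual3 (by lia : κ' ≠ 0) h
    have hne' : u' ≠ 0 := by
      rintro rfl
      rw [smul_zero] at hu'
      exact hne hu'
    have h5 := (E6_twelve h4 hne').1
    rw [hu', MP_dcc566_gt.bf_smul_left, MP_dcc566_gt.bf_smul_right] at hn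
    nlinarith [mul_le_mul_of_nonneg_left h5 (mul_nonneg (by lia : 0 ≤ κ') (by lia : 0 ≤ κ'))]
  · obtain ⟨u', hu'⟩ := E6_dual h3 h
    have hne' : u' ≠ 0 := by
      rintro rfl
      rw [smul_zero] at hu'
      exact hne hu'
    have h5 := E6_two_le hne'
    rw [hu', MP_dcc566_gt.bf_smul_left, MP_dcc566_gt.bf_smul_right] at hn
    nlinarith [mul_le_mul_of_nonneg_left h5 (mul_nonneg (by lia : 0 ≤ κ) (by lia : 0 ≤ κ))]

/-- PROOF.  `bf u t6 = 3 (u0 - u5)`, `bf u ep6 = u0 + u5` even, so `u0 - u5` even; Cauchy–Schwarz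
`9 (u0 - u5)² ≤ 2 * 12` (use `Pd_mF` and `Pd.cs`, or positivity of suitable integral combinations), so `u0 - u5 = 0`. -/
theorem E6_ep {u : Fin 6 → ℤ} (hu : bf E6 u u = 2) (h2 : (2 : ℤ) ∣ bf E6 u ep6) :
    bf E6 u t6 = 0 := by
  have h1 : bf E6 u t6 = 3 * (u 0 - u 5) := by rw [E6_comm, (E6_om u).2.2]
  have h3 : bf E6 u ep6 = u 0 + u 5 := by rw [E6_comm, (E6_om u).2.1]
  have h4 := E6_cs u t6
  rw [hu, E6_vals.2.2.2.1, h1] at h4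
  rw [h3] at h2
  have h5 : (u 0 - u 5) ^ 2 ≤ 1 ^ 2 ∨ 2 ≤ (u 0 - u 5) ^ 2 := by lia
  have h6 : -1 ≤ u 0 - u 5 ∧ u 0 - u 5 ≤ 1 := by
    constructor
    · nlinarith
    · nlinarith
  rw [h1]
  lia

private theorem E6_sub_norm (β : ℤ) (u : Fin 6 → ℤ) :
    bf E6 ((2 : ℤ) • u - β • ep6) ((2 : ℤ) • u - β • ep6) =
      4 * (bf E6 u u - β * bf E6 u ep6 + β ^ 2) := by
  rw [E6_nsub, E6_vals.2.2.1]
  ring

/-- PROOF.  `R = 2u - β ep6`, `β` odd: norm `4 bf u u - 4β bf u ep6 + 4β² = 0 mod 4`, `R ≠ 0` (coordinate 0: `2 u0 - 2β`.. use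
coordinate 2: `2 u2 - 3β` is odd), so norm `≥ 4`. -/
theorem E6_ep_ge {β : ℤ} (hβ : ¬ (2 : ℤ) ∣ β) (u : Fin 6 → ℤ) :
    4 ≤ bf E6 ((2 : ℤ) • u - β • ep6) ((2 : ℤ) • u - β • ep6) := by
  have hne : (2 : ℤ) • u - β • ep6 ≠ 0 := by
    intro h
    have h1 : 2 * u 2 - β * 3 = 0 := congrFun h 2
    lia
  have h1 := E6_pos _ hne
  rw [E6_sub_norm] at h1 ⊢
  lia

/-- PROOF.  `R = 2u - β ep6` of norm 4, `β = 2b + 1`: `R + ep6 = 2x`, `x = u - b ep6`; `4 bf x x = 8 + 2 bf R ep6`, so `4 ∣ bf R ep6`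
(`bf x x` even), and `(bf R ep6)² ≤ 16`.  If `bf R ep6 = ±4`, `R = ±ep6` (norm of the difference is 0), `bf R t6 = 0`.
If `bf R ep6 = 0`: `bf x x = 2`, `bf x ep6 = (0 + 4)/2 = 2` even, `E6_ep`: `bf x t6 = 0`, `bf R t6 = 2 bf x t6 - bf ep6 t6 = 0`. -/
theorem E6_ep_eq {β : ℤ} (hβ : ¬ (2 : ℤ) ∣ β) {u : Fin 6 → ℤ}
    (h : bf E6 ((2 : ℤ) • u - β • ep6) ((2 : ℤ) • u - β • ep6) = 4) :
    bf E6 ((2 : ℤ) • u - β • ep6) t6 = 0 := by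
  obtain ⟨b, rfl⟩ : ∃ b, β = 2 * b + 1 := ⟨β / 2, by lia⟩
  set R := (2 : ℤ) • u - (2 * b + 1) • ep6 with hR
  have hx : R = (2 : ℤ) • (u - b • ep6) - (1 : ℤ) • ep6 := by
    rw [hR]
    module
  have hx' : (2 : ℤ) • (u - b • ep6) = R + ep6 := by
    rw [hx]
    module
  generalize u - b • ep6 = x at hx hx'
  obtain ⟨m, hm⟩ := E6_even x
  have hRe : bf E6 R ep6 = 2 * bf E6 x ep6 - 4 := by
    rw [hx, E6_sub, E6_vals.2.2.1]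
    ring
  have hRt : bf E6 R t6 = 2 * bf E6 x t6 := by
    rw [hx, E6_sub, E6_vals.2.2.2.2.1]
    ring
  have hRR : bf E6 R R = 4 * bf E6 x x - 4 * bf E6 x ep6 + 4 := by
    rw [hx, E6_nsub, E6_vals.2.2.1]
    ring
  have hcs := E6_cs R ep6
  rw [h, E6_vals.2.2.1] at hcs
  have hb := abs_le_of_sq (b := 4) (by norm_num) (by lia : (bf E6 R ep6) ^ 2 ≤ 4 ^ 2)
  have hm3 : m = 0 ∨ m = 1 ∨ m = 2 := by lia
  rcases hm3 with rfl | rfl | rfl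
  · have hx0 : x = 0 := by
      by_contra hne
      have := E6_pos x hne
      lia
    rw [hRt, hx0, MP_dcc566_gt.bf_zero_left]
    rfl
  · have := E6_ep (u := x) (by lia) ⟨1, by lia⟩
    rw [hRt, this]
    rfl
  · have h1 : bf E6 ((1 : ℤ) • R - (1 : ℤ) • ep6) ((1 : ℤ) • R - (1 : ℤ) • ep6) = 0 := by
      rw [E6_nsub, E6_vals.2.2.1]
      lia
    have h2 : (1 : ℤ) • R - (1 : ℤ) • ep6 = 0 := by
      by_contra hne
      exact (E6_pos _ hne).ne' h1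
    rw [one_smul, one_smul, sub_eq_zero] at h2
    rw [h2]
    exact E6_vals.2.2.2.2.1

/-- PROOF.  `R = 3u - β y6`, `β = σ + 3k`.  Norm `= 9 bf u u - 6β bf u y6 + 8β² = 2 mod 6`.  `W = R + σ rh6 = 3 (u - k y6) - σ om6`
(`y6 = rh6 + om6`) satisfies `3 ∣ bf W v` (`E6_om`) and is not in `3 E₆` (`om6 0 = 4`), in particular `≠ 0`: `bf W W ≥ 12`, and
`bf W W = 12 mod 18` (`E6_twelve`).  `bf W W = bf R R + 2σ bf R rh6 + 2`, `(bf R rh6)² ≤ 2 bf R R`.  If `bf R R = 2`: `bf W W ≤ 8`, contradiction.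
So `bf R R ≥ 8`.  If it is 8: `|bf R rh6| ≤ 4`, `bf W W ≤ 18`, so `bf W W = 12` and `2σ bf R rh6 = 2`. -/
theorem E6_y6 {β σ : ℤ} (hσ : σ = 1 ∨ σ = -1) (hβ : (3 : ℤ) ∣ β - σ) (u : Fin 6 → ℤ) :
    8 ≤ bf E6 ((3 : ℤ) • u - β • y6) ((3 : ℤ) • u - β • y6) ∧
      (bf E6 ((3 : ℤ) • u - β • y6) ((3 : ℤ) • u - β • y6) = 8 →
        bf E6 ((3 : ℤ) • u - β • y6) rh6 = σ) := by
  obtain ⟨k, hk⟩ := hβ
  obtain rfl : β = σ + 3 * k := by lia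
  have hσ2 : σ ^ 2 = 1 := by
    rcases hσ with rfl | rfl <;> norm_num
  set R := (3 : ℤ) • u - (σ + 3 * k) • y6 with hR
  have hW : R + σ • rh6 = (3 : ℤ) • (u - k • y6) - σ • om6 := by
    rw [hR, E6_vals.2.2.2.2.2.2.2.1]
    module
  have hWd : ∀ v, (3 : ℤ) ∣ bf E6 (R + σ • rh6) v := by
    intro v
    rw [hW, E6_sub, (E6_om v).1]
    exact ⟨bf E6 (u - k • y6) v - σ * v 0, by ring⟩
  have hc0 : ∀ w : Fin 6 → ℤ, (3 : ℤ) • w ≠ R + σ • rh6 := by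
    intro w hw
    rw [hW] at hw
    have h1 : 3 * w 0 = 3 * (u - k • y6) 0 - σ * 4 := congrFun hw 0
    generalize (u - k • y6) 0 = z at h1
    rcases hσ with rfl | rfl <;> lia
  have hW0 : R + σ • rh6 ≠ 0 := by
    intro h1
    refine hc0 0 ?_
    rw [h1, smul_zero]
  obtain ⟨h12, h18⟩ := E6_twelve hWd hW0
  have h18' := h18 (by
    rintro ⟨w, hw⟩
    exact hc0 w hw)
  have hWW : bf E6 (R + σ • rh6) (R + σ • rh6) = bf E6 R R + 2 * (σ * bf E6 R rh6) + 2 := by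
    rw [MP_dcc566_gt.bf_add_left, MP_dcc566_gt.bf_add_right, MP_dcc566_gt.bf_add_right,
      MP_dcc566_gt.bf_smul_left, MP_dcc566_gt.bf_smul_left, MP_dcc566_gt.bf_smul_right,
      MP_dcc566_gt.bf_smul_right, E6_comm rh6 R, E6_vals.1]
    have : σ * (σ * 2) = σ ^ 2 * 2 := by ring
    rw [this, hσ2]
    ring
  have hcs := E6_cs R rh6
  rw [E6_vals.1] at hcs
  obtain ⟨m, hm⟩ := E6_even u
  have hRR : bf E6 R R = 6 * (3 * m - (σ + 3 * k) * bf E6 u y6 + 8 * σ * k + 12 * k ^ 2 + 1) + 2 := by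
    rw [hR, E6_nsub, E6_vals.2.1, hm]
    have : (σ + 3 * k) ^ 2 = 1 + 6 * σ * k + 9 * k ^ 2 := by
      rw [← hσ2]
      ring
    rw [this]
    ring
  have hR0 := E6_nonneg R
  rw [hWW] at h12 h18'
  generalize 3 * m - (σ + 3 * k) * bf E6 u y6 + 8 * σ * k + 12 * k ^ 2 + 1 = z at hRR
  generalize bf E6 R R = N at *
  generalize bf E6 R rh6 = c at *
  have hN : 8 ≤ N := by
    by_contra hlt
    have hN2 : N = 2 := by lia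
    rw [hN2] at hcs
    have hb := abs_le_of_sq (b := 2) (by norm_num) (by lia : c ^ 2 ≤ 2 ^ 2)
    rcases hσ with rfl | rfl <;> lia
  refine ⟨hN, fun h8 => ?_⟩
  rw [h8] at hcs h12 h18'
  have hb := abs_le_of_sq (b := 4) (by norm_num) (by lia : c ^ 2 ≤ 4 ^ 2)
  rcases hσ with rfl | rfl <;> lia

/-- PROOF.  `bf u y6 = bf u rh6 + 3 u0`, so `3 ∣ bf u rh6`, and `(bf u rh6)² ≤ 4`. -/
theorem E6_rh {u : Fin 6 → ℤ} (hu : bf E6 u u = 2) (h3 : (3 : ℤ) ∣ bf E6 u y6) :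
    bf E6 u rh6 = 0 := by
  have h1 : bf E6 u y6 = bf E6 u rh6 + 3 * u 0 := by
    rw [E6_vals.2.2.2.2.2.2.2.1, MP_dcc566_gt.bf_add_right, E6_comm u om6, (E6_om u).1]
  have hcs := E6_cs u rh6
  rw [E6_vals.1, hu] at hcs
  have hb := abs_le_of_sq (b := 2) (by norm_num) (by lia : (bf E6 u rh6) ^ 2 ≤ 2 ^ 2)
  rw [h1] at h3
  lia

end Pool.Agent.RFN
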