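import Mathlib
import Pool.Agent.Lib.MP_dcc566_gt_R.Cfg
import Pool.Agent.Lib.MP_dcc566_gt_R.E8Da
import Pool.Agent.Lib.MP_dcc566_gt_R.E8Db
import Pool.Agent.Lib.MP_dcc566_gt_R.E6F

/-!
# `U ⊕ E₈ ⊕ E₆ ⊕ T`
-/

set_option autoImplicit false

namespace Pool.Agent.RFN

open MP_dcc566_gt (bf E8 w4)

variable {Y : Type} [AddCommGroup Y] [Module ℚ Y]

theorem Pd_F6 : Pd (mF E6) := Pd_mF E6_symm E6_pos

theorem EvL_F6 : EvL (mF E6) (Zk 6) := EvL_mF E6_even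

private theorem F2_val {BT : Frm Y} (u v : Fin 6 → ℤ) (k l : Y) :
    sF (mF E6) BT (cz u, k) (cz v, l) = ((bf E6 u v : ℤ) : ℚ) + BT k l := by
  rw [sF_apply]
  exact congrArg (· + BT k l) (mF_cz _ u v)

private theorem F2_lin (m c : ℤ) (w v : Fin 6 → ℤ) (k : Y) :
    (m : ℚ) • ((cz w, k) : (Fin 6 → ℚ) × Y) - (c : ℚ) • ((cz v, 0) : (Fin 6 → ℚ) × Y) =
      (cz (m • w - c • v), (m : ℚ) • k) := by
  refine Prod.ext ?_ ?_
  · rw [cz_sub, cz_smul, cz_smul]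
    rfl
  · change (m : ℚ) • k - (c : ℚ) • (0 : Y) = (m : ℚ) • k
    rw [smul_zero, sub_zero]

private theorem F2_dvd {BT : Frm Y} {T : AddSubgroup Y} {κ : ℤ} {w : Fin 6 → ℤ} {k : Y}
    (h : ∀ n' ∈ (Zk 6).prod T, Dv κ (sF (mF E6) BT (cz w, k) n')) (v : Fin 6 → ℤ) :
    κ ∣ bf E6 w v := by
  have h1 := h (cz v, 0) ⟨cz_mem v, T.zero_mem⟩
  rw [F2_val, map_zero, add_zero] at h1
  exact Dv_int.1 h1

/-- The step from the rational statement `H1` to the integral one. -/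
private theorem F2_H1 {BT : Frm Y} (hBT : Pd BT) {m κ β a b : ℤ} {y t w : Fin 6 → ℤ} {k : Y}
    (hn : ((a : ℤ) : ℚ) + sF (mF E6) BT
      ((m : ℚ) • ((cz w, k) : (Fin 6 → ℚ) × Y) - ((κ * β : ℤ) : ℚ) • ((cz y, 0) : (Fin 6 → ℚ) × Y))
      ((m : ℚ) • ((cz w, k) : (Fin 6 → ℚ) × Y) - ((κ * β : ℤ) : ℚ) • ((cz y, 0) : (Fin 6 → ℚ) × Y)) =
        2 * κ * m ^ 2)
    (H : a + bf E6 (m • w - (κ * β) • y) (m • w - (κ * β) • y) ≤ 2 * κ * m ^ 2 →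
      b + bf E6 (m • w - (κ * β) • y) t = 0) :
    ((b : ℤ) : ℚ) + sF (mF E6) BT
      ((m : ℚ) • ((cz w, k) : (Fin 6 → ℚ) × Y) - ((κ * β : ℤ) : ℚ) • ((cz y, 0) : (Fin 6 → ℚ) × Y))
      (cz t, 0) = 0 := by
  rw [F2_lin, F2_val] at hn
  rw [F2_lin, F2_val, map_zero, add_zero]
  have h1 := hBT.nonneg ((m : ℚ) • k)
  have h2 : ((a + bf E6 (m • w - (κ * β) • y) (m • w - (κ * β) • y) : ℤ) : ℚ) ≤
      ((2 * κ * m ^ 2 : ℤ) : ℚ) := by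
    push_cast
    linarith
  have h3 := H (by exact_mod_cast h2)
  exact_mod_cast h3

/-- The step from the rational statement `H2` to the integral one. -/
private theorem F2_H2 {BT : Frm Y} (hBT : Pd BT) {m κ a b c : ℤ} {y t w : Fin 6 → ℤ} {k : Y}
    (hn : ((a : ℤ) : ℚ) + sF (mF E6) BT ((cz w, k) : (Fin 6 → ℚ) × Y) (cz w, k) = 2 * κ)
    (hd : Dv (m * κ) (((b : ℤ) : ℚ) + sF (mF E6) BT ((cz w, k) : (Fin 6 → ℚ) × Y) (cz y, 0)))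
    (H : a + bf E6 w w ≤ 2 * κ → m * κ ∣ b + bf E6 w y → c + bf E6 w t = 0) :
    ((c : ℤ) : ℚ) + sF (mF E6) BT ((cz w, k) : (Fin 6 → ℚ) × Y) (cz t, 0) = 0 := by
  rw [F2_val] at hn
  rw [F2_val, map_zero, add_zero] at hd ⊢
  have h1 := hBT.nonneg k
  have h2 : ((a + bf E6 w w : ℤ) : ℚ) ≤ ((2 * κ : ℤ) : ℚ) := by
    push_cast
    linarith
  have h3 : m * κ ∣ b + bf E6 w y := by
    apply Dv_int.1
    push_cast
    exact hd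
  have h4 := H (by exact_mod_cast h2) h3
  exact_mod_cast h4

private theorem F2_cfg {BT : Frm Y} (hBT : Pd BT) {T : AddSubgroup Y} (hT : EvL BT T) {i : ℕ}
    (hi : i ≤ 4) {m N₀ : ℤ} (hm : 0 < m) {v₈ : Fin 8 → ℤ} (hv₈ : DH i v₈) {y t : Fin 6 → ℤ}
    (hnorm : bf E8 v₈ v₈ + bf E6 y y = 2 * m * N₀) {t₈ : Fin 8 → ℤ} (ht : t₈ ≠ 0 ∨ t ≠ 0)
    {u₀ : Fin 8 → ℤ} (hu₀ : DH i u₀) {k₀ : ℤ} (hk₀ : bf E8 v₈ u₀ = 1 + m * k₀)
    (H1 : ∀ (κ β : ℤ) (u : Fin 8 → ℤ) (w : Fin 6 → ℤ), 0 < κ → ¬ m ∣ β → DH i u → DD i κ u →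
      (∀ v, κ ∣ bf E6 w v) →
      bf E8 (m • u - (κ * β) • v₈) (m • u - (κ * β) • v₈) +
        bf E6 (m • w - (κ * β) • y) (m • w - (κ * β) • y) ≤ 2 * κ * m ^ 2 →
      bf E8 (m • u - (κ * β) • v₈) t₈ + bf E6 (m • w - (κ * β) • y) t = 0)
    (H2 : ∀ (κ : ℤ) (u : Fin 8 → ℤ) (w : Fin 6 → ℤ), 0 < κ → DH i u → DD i κ u →
      (∀ v, κ ∣ bf E6 w v) → bf E8 u u + bf E6 w w ≤ 2 * κ →
      m * κ ∣ bf E8 u v₈ + bf E6 w y → bf E8 u t₈ + bf E6 w t = 0) :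
    Conf (PF (sF (mF E6) BT)) (PL ((Zk 6).prod T)) {2} (fun _ => i) := by
  refine cfg (Pd_F6.sF hBT) (EvL_F6.prod hT) hi (m := m) (N₀ := N₀) hm hv₈
    (y := (cz y, 0)) ⟨cz_mem y, T.zero_mem⟩ ?_ (t₈ := t₈) (tX := (cz t, 0)) ?_ hu₀ hk₀ ?_ ?_
  · rw [F2_val, map_zero, add_zero]
    exact_mod_cast hnorm
  · rcases ht with h | h
    · exact Or.inl h
    · exact Or.inr fun h1 => h (cz_eq_zero.1 (congrArg Prod.fst h1))
  · rintro κ β u ⟨x, k⟩ ⟨⟨w, hw⟩, hk⟩ hκ hβ hu hd hdn hn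
    have hx : x = cz w := hw
    subst hx
    exact F2_H1 hBT hn (H1 κ β u w hκ hβ hu hd (F2_dvd hdn))
  · rintro κ u ⟨x, k⟩ ⟨⟨w, hw⟩, hk⟩ hκ hu hd hdn hn hdv
    have hx : x = cz w := hw
    subst hx
    exact F2_H2 hBT hn hdv (H2 κ u w hκ hu hd (F2_dvd hdn))

private theorem F2_cfg0 {BT : Frm Y} (hBT : Pd BT) {T : AddSubgroup Y} (hT : EvL BT T)
    {m N₀ : ℤ} (hm : 0 < m) {v₈ : Fin 8 → ℤ} {y t : Fin 6 → ℤ}
    (hnorm : bf E8 v₈ v₈ + bf E6 y y = 2 * m * N₀) {t₈ : Fin 8 → ℤ} (ht : t₈ ≠ 0 ∨ t ≠ 0)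
    {u₀ : Fin 8 → ℤ} {k₀ : ℤ} (hk₀ : bf E8 v₈ u₀ = 1 + m * k₀)
    (H1 : ∀ (κ β : ℤ) (u : Fin 8 → ℤ) (w : Fin 6 → ℤ), 0 < κ → ¬ m ∣ β → (∀ v, κ ∣ bf E8 u v) →
      (∀ v, κ ∣ bf E6 w v) →
      bf E8 (m • u - (κ * β) • v₈) (m • u - (κ * β) • v₈) +
        bf E6 (m • w - (κ * β) • y) (m • w - (κ * β) • y) ≤ 2 * κ * m ^ 2 →
      bf E8 (m • u - (κ * β) • v₈) t₈ + bf E6 (m • w - (κ * β) • y) t = 0)
    (H2 : ∀ (κ : ℤ) (u : Fin 8 → ℤ) (w : Fin 6 → ℤ), 0 < κ → (∀ v, κ ∣ bf E8 u v) →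
      (∀ v, κ ∣ bf E6 w v) → bf E8 u u + bf E6 w w ≤ 2 * κ →
      m * κ ∣ bf E8 u v₈ + bf E6 w y → bf E8 u t₈ + bf E6 w t = 0) :
    BadS (PF (sF (mF E6) BT)) (PL ((Zk 6).prod T)) := by
  refine cfg0 (Pd_F6.sF hBT) (EvL_F6.prod hT) (m := m) (N₀ := N₀) hm (v₈ := v₈)
    (y := (cz y, 0)) ⟨cz_mem y, T.zero_mem⟩ ?_ (t₈ := t₈) (tX := (cz t, 0)) ?_ hk₀ ?_ ?_
  · rw [F2_val, map_zero, add_zero]
    exact_mod_cast hnorm
  · rcases ht with h | h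
    · exact Or.inl h
    · exact Or.inr fun h1 => h (cz_eq_zero.1 (congrArg Prod.fst h1))
  · rintro κ β u ⟨x, k⟩ ⟨⟨w, hw⟩, hk⟩ hκ hβ hd hdn hn
    have hx : x = cz w := hw
    subst hx
    exact F2_H1 hBT hn (H1 κ β u w hκ hβ hd (F2_dvd hdn))
  · rintro κ u ⟨x, k⟩ ⟨⟨w, hw⟩, hk⟩ hκ hd hdn hn hdv
    have hx : x = cz w := hw
    subst hx
    exact F2_H2 hBT hn hdv (H2 κ u w hκ hd (F2_dvd hdn))

private theorem F2_nn6 (w : Fin 6 → ℤ) : 0 ≤ bf E6 w w := by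
  by_cases h : w = 0
  · rw [h, MP_dcc566_gt.bf_zero_left]
  · exact (E6_pos w h).le

private theorem F2_scale6 (κ : ℤ) (w : Fin 6 → ℤ) : bf E6 (κ • w) (κ • w) = κ ^ 2 * bf E6 w w := by
  rw [MP_dcc566_gt.bf_smul_left, MP_dcc566_gt.bf_smul_right]
  ring

private theorem F2_scale8 (κ : ℤ) (w : Fin 8 → ℤ) : bf E8 (κ • w) (κ • w) = κ ^ 2 * bf E8 w w := by
  rw [MP_dcc566_gt.bf_smul_left, MP_dcc566_gt.bf_smul_right]
  ring

private theorem F2_comb {k : ℕ} (m κ β : ℤ) (w y : Fin k → ℤ) :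
    m • (κ • w) - (κ * β) • y = κ • (m • w - β • y) := by
  funext j
  simp only [Pi.sub_apply, Pi.smul_apply, smul_eq_mul]
  ring

/-- A vector of norm at most 2 is zero or has norm 2. -/
private theorem F2_two {w : Fin 6 → ℤ} (h : bf E6 w w ≤ 2) : w = 0 ∨ bf E6 w w = 2 := by
  by_cases h0 : w = 0
  · exact Or.inl h0
  · obtain ⟨c, hc⟩ := E6_even w
    have := E6_pos w h0
    right
    omega

private theorem F2_sig {β : ℤ} (hβ : ¬ (3 : ℤ) ∣ β) :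
    ∃ σ : ℤ, (σ = 1 ∨ σ = -1) ∧ (3 : ℤ) ∣ β - σ := by
  by_cases h : (3 : ℤ) ∣ β - 1
  · exact ⟨1, Or.inl rfl, h⟩
  · exact ⟨-1, Or.inr rfl, by omega⟩

/-- The lower bound for the `E₆` part. -/
private theorem F2_low {κ β : ℤ} (h3 : ¬ (3 : ℤ) ∣ κ) (hβ : ¬ (3 : ℤ) ∣ β) {w : Fin 6 → ℤ}
    (hw : ∀ v, κ ∣ bf E6 w v) :
    8 * κ ^ 2 ≤ bf E6 ((3 : ℤ) • w - (κ * β) • y6) ((3 : ℤ) • w - (κ * β) • y6) := by
  obtain ⟨w', rfl⟩ := E6_dual h3 hw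
  obtain ⟨σ, hσ, hs⟩ := F2_sig hβ
  have h1 := (E6_y6 hσ hs w').1
  rw [F2_comb, F2_scale6]
  nlinarith [sq_nonneg κ]

/-- The end of `H2`. -/
private theorem F2_rh {κ : ℤ} (hκ : 0 < κ) {w : Fin 6 → ℤ} (hw : ∀ v, κ ∣ bf E6 w v)
    (hn : bf E6 w w ≤ 2 * κ) (hd : 3 * κ ∣ bf E6 w y6) : bf E6 w rh6 = 0 := by
  rcases (show κ = 1 ∨ 2 ≤ κ by omega) with rfl | h2
  · rcases F2_two (by linarith) with rfl | h
    · exact MP_dcc566_gt.bf_zero_left _ _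
    · exact E6_rh h (by rwa [mul_one] at hd)
  · rw [E6_root h2 hw hn]
    exact MP_dcc566_gt.bf_zero_left _ _

/-- `v = (w4; ep6; 0)`, `m = 2`, `t = (0; t6; 0)`.

PROOF.  `cfg0` with `X = (Fin 6 → ℚ) × Y`, `BX = sF (mF E6) BT`, `N = (Zk 6).prod T`; `N₀ = 2`; `u₀` a simple root with `bf w4 u₀ = 1`
(`bf_w4`: index 0, `Pi.single 0 1`), `k₀ = 0`.  `n = (cz w, k)`; `κ ∣ (n,n')` gives `κ ∣ bf E6 w w'` for all `w'`.
H1.  `β` odd, `u = κ u'` (`E8_unimod`), `R_8 = κ (2u' - β w4)`, norm `≥ 4κ²` (`class4_two`).  Total `= 8κ`, so `4κ² ≤ 8κ`, `κ ≤ 2`, `3 ∤ κ`,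
`w = κ w'` (`E6_dual`), `R_6 = κ (2w' - β ep6)`, norm `≥ 4κ²` (`E6_ep_ge`): `8κ² ≤ 8κ`, `κ = 1`, and `bf R_6 R_6 = 4` (`≥ 4`, and `R_8`
takes at least 4, `R_T` at least 0): `E6_ep_eq`: `bf R_6 t6 = 0`.
H2.  `(s,t) = bf w t6`.  `κ ≥ 2`: `bf w w ≤ 2κ`, `E6_root`: `w = 0`.  `κ = 1`: if `w = 0` fine; otherwise `bf w w = 2` and `u = 0`, `k = 0`
(all norms even/nonnegative, total 2), `2 ∣ bf w ep6`: `E6_ep`. -/
theorem badF2A {BT : Frm Y} (hBT : Pd BT) {T : AddSubgroup Y} (hT : EvL BT T) :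
    BadS (PF (sF (mF E6) BT)) (PL ((Zk 6).prod T)) := by
  refine F2_cfg0 hBT hT (m := 2) (N₀ := 2) (by norm_num) (v₈ := w4) (y := ep6) (t := t6) ?_
    (t₈ := 0) (Or.inr E6_vals.2.2.2.2.2.2.2.2.1) (u₀ := Pi.single 0 1) (k₀ := 0) ?_ ?_ ?_
  · rw [MP_dcc566_gt.norm_w4, E6_vals.2.2.1]
    norm_num
  · rw [MP_dcc566_gt.E8_comm, MP_dcc566_gt.bf_w4]
    simp
  · intro κ β u w hκ hβ hu hw hn
    obtain ⟨u', rfl⟩ := MP_dcc566_gt.E8_unimod hu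
    rw [MP_dcc566_gt.bf_zero_right, zero_add]
    rw [F2_comb, F2_scale8] at hn
    have h1 := MP_dcc566_gt.class4_two u' hβ
    have h6 := F2_nn6 ((2 : ℤ) • w - (κ * β) • ep6)
    have h2 : κ ≤ 2 := by nlinarith [sq_nonneg κ]
    have h3 : ¬ (3 : ℤ) ∣ κ := by omega
    obtain ⟨w', rfl⟩ := E6_dual h3 hw
    have h4 := E6_ep_ge hβ w'
    rw [F2_comb, F2_scale6] at hn
    have h5 : κ = 1 := by
      by_contra h7
      have h8 : κ = 2 := by omega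
      subst h8
      linarith
    subst h5
    have h9 : bf E6 ((2 : ℤ) • w' - β • ep6) ((2 : ℤ) • w' - β • ep6) = 4 := by linarith
    rw [one_smul, one_mul]
    exact E6_ep_eq hβ h9
  · intro κ u w hκ hu hw hn hd
    rw [MP_dcc566_gt.bf_zero_right, zero_add]
    have h1 := MP_dcc566_gt.E8_nonneg u
    rcases (show κ = 1 ∨ 2 ≤ κ by omega) with rfl | h2
    · rcases F2_two (w := w) (by linarith) with rfl | h
      · exact MP_dcc566_gt.bf_zero_left _ _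
      · have h3 : u = 0 := by
          by_contra h0
          have := MP_dcc566_gt.E8_pos u h0
          linarith
        rw [h3, MP_dcc566_gt.bf_zero_left, zero_add, mul_one] at hd
        exact E6_ep h hd
    · rw [E6_root h2 hw (by linarith)]
      exact MP_dcc566_gt.bf_zero_left _ _

/-- `v = (V46; y6; 0)`, `m = 3`, `t = (hh 0; 4 rh6; 0)`.

PROOF.  `cfg` with `i = 2`, `N₀ = 3` (`10 + 8 = 18`); `u₀` with `DH 2 u₀`, `bf V46 u₀ = 1`: standard coordinates `(0,0,0,0,1,0,0,1)`.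
H1.  `blk46`.  `κ` odd: `10κ² ≤ 18κ`, `κ = 1`; `bf R_6 R_6 ≥ 8` (`E6_y6`), so `bf R_D R_D = 10`, `bf R_6 R_6 = 8`, and with `β = σ mod 3`:
`bf R_D (hh 0) = -4σ` (`blk46_eq`), `bf R_6 rh6 = σ`, so `(R,t) = -4σ + 4σ = 0` (the product with the `Y` part of `t`, which is 0, vanishes).
`κ = 2κ₁`: `16κ₁² ≤ 36κ₁`, `κ₁ ≤ 2`.  `κ ∈ {2,4}`, `3 ∤ κ`: `w = κ w'` (`E6_dual`), `R_6 = κ (3w' - β y6)`, norm `≥ 8κ² = 32κ₁²`:
`48κ₁² ≤ 36κ₁` impossible.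
H2.  `(s,t) = bf u (hh 0) + 4 bf w rh6`.  `κ ≥ 2`: `w = 0` (`E6_root`).  If `u ≠ 0`: `d_min`, `bf u u = 2κ`, `w = 0`, `k = 0`, `rt46`.  If `u = 0`,
`κ = 1`, `w ≠ 0`: `bf w w = 2`, `k = 0`, `3 ∣ bf w y6`: `E6_rh`. -/
theorem confF2D {BT : Frm Y} (hBT : Pd BT) {T : AddSubgroup Y} (hT : EvL BT T) :
    Conf (PF (sF (mF E6) BT)) (PL ((Zk 6).prod T)) {2} (fun _ => 2) := by
  refine F2_cfg hBT hT (i := 2) (by norm_num) (m := 3) (N₀ := 3) (by norm_num) (v₈ := V46)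
    V46_facts.1 (y := y6) (t := (4 : ℤ) • rh6) ?_ (t₈ := hh 0) (Or.inl ?_)
    (u₀ := ![2, 3, 4, 6, 5, 4, 2, 1]) ?_ (k₀ := 0) ?_ ?_ ?_
  · rw [V46_facts.2.1, E6_vals.2.1]
    norm_num
  · intro h
    have h1 : (hh 0) 1 = 0 := by rw [h]; rfl
    exact absurd h1 (by decide)
  · intro k hk
    interval_cases k
    · decide
    · decide
  · decide
  · intro κ β u w hκ hβ hu hd hw hn
    obtain ⟨hodd, heven⟩ := blk46 hκ hβ hu hd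
    rcases Int.even_or_odd κ with ⟨κ₁, h1⟩ | ho
    · exfalso
      have h2 := heven κ₁ (by omega)
      have h6 := F2_nn6 ((3 : ℤ) • w - (κ * β) • y6)
      have hk1 : 0 < κ₁ := by omega
      have h3 : κ₁ ≤ 2 := by nlinarith
      have h4 : ¬ (3 : ℤ) ∣ κ := by omega
      have h5 := F2_low h4 hβ hw
      subst h1
      nlinarith
    · have h2 := hodd ho
      have h6 := F2_nn6 ((3 : ℤ) • w - (κ * β) • y6)
      have h3 : κ = 1 := by nlinarith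
      subst h3
      obtain ⟨σ, hσ, hs⟩ := F2_sig hβ
      have h4 := E6_y6 hσ hs w
      rw [one_mul] at hn h2 ⊢
      have h5 : bf E8 ((3 : ℤ) • u - β • V46) ((3 : ℤ) • u - β • V46) = 10 := by linarith [h4.1]
      have h7 : bf E6 ((3 : ℤ) • w - β • y6) ((3 : ℤ) • w - β • y6) = 8 := by linarith [h4.1]
      rw [blk46_eq hσ hs hu h5, MP_dcc566_gt.bf_smul_right, h4.2 h7]
      ring
  · intro κ u w hκ hu hd hw hn hdv
    rw [MP_dcc566_gt.bf_smul_right]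
    have h6 := F2_nn6 w
    by_cases h0 : u = 0
    · subst h0
      rw [MP_dcc566_gt.bf_zero_left, zero_add] at hn hdv ⊢
      rw [F2_rh hκ hw hn hdv, mul_zero]
    · have h1 := d_min (Or.inr (Or.inl rfl)) hκ hu hd h0
      have h2 : w = 0 := by
        by_contra h3
        have := E6_pos w h3
        linarith
      subst h2
      rw [MP_dcc566_gt.bf_zero_left, add_zero] at hn hdv
      rw [MP_dcc566_gt.bf_zero_left, mul_zero, add_zero]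
      exact rt46 hκ hu hd (by linarith) hdv

/-- `v = (V16; y6; 0)`, `m = 3`, `t = (0; rh6; 0)`.

PROOF.  `cfg` with `i = 4`, `N₀ = 4` (`16 + 8 = 24`); `u₀` with `DH 4 u₀`, `bf V16 u₀ = -2 = 1 - 3`: standard coordinates `(-2,0,...,0)`, `u₀ = - hh 0`.
H1.  `blk16`.  `κ` odd: `16κ² ≤ 18κ`, `κ = 1`, `bf R_6 R_6 ≥ 8` (`E6_y6`): `24 ≤ 18`, impossible.  `κ = 2κ₁`: `16κ₁² ≤ 36κ₁`, `κ₁ ≤ 2`; as in
`confF2D` `bf R_6 R_6 ≥ 32κ₁²`: `48κ₁² ≤ 36κ₁` impossible.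
H2.  `(s,t) = bf w rh6`.  `κ ≥ 2`: `w = 0`.  `κ = 1`: `4 ∣ bf u u` (`norm_four`), so `u = 0` (`E8_pos`); if `w ≠ 0`: `bf w w = 2`, `k = 0`,
`3 ∣ bf w y6`, `E6_rh`. -/
theorem confF2E {BT : Frm Y} (hBT : Pd BT) {T : AddSubgroup Y} (hT : EvL BT T) :
    Conf (PF (sF (mF E6) BT)) (PL ((Zk 6).prod T)) {2} (fun _ => 4) := by
  refine F2_cfg hBT hT (i := 4) (by norm_num) (m := 3) (N₀ := 4) (by norm_num) (v₈ := V16)
    V16_facts.1 (y := y6) (t := rh6) ?_ (t₈ := 0) (Or.inr E6_vals.2.2.2.2.2.2.2.2.2)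
    (u₀ := -hh 0) ?_ (k₀ := -1) ?_ ?_ ?_
  · rw [V16_facts.2.1, E6_vals.2.1]
    norm_num
  · intro k hk
    interval_cases k
    · decide
    · decide
    · decide
    · decide
  · decide
  · intro κ β u w hκ hβ hu hd hw hn
    exfalso
    obtain ⟨hodd, heven⟩ := blk16 hκ hβ hu hd
    rcases Int.even_or_odd κ with ⟨κ₁, h1⟩ | ho
    · have h2 := heven κ₁ (by omega)
      have h6 := F2_nn6 ((3 : ℤ) • w - (κ * β) • y6)
      have hk1 : 0 < κ₁ := by omega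
      have h3 : κ₁ ≤ 2 := by nlinarith
      have h4 : ¬ (3 : ℤ) ∣ κ := by omega
      have h5 := F2_low h4 hβ hw
      subst h1
      nlinarith
    · have h2 := hodd ho
      have h6 := F2_nn6 ((3 : ℤ) • w - (κ * β) • y6)
      have h3 : κ = 1 := by nlinarith
      have h4 : ¬ (3 : ℤ) ∣ κ := by omega
      have h5 := F2_low h4 hβ hw
      subst h3
      linarith
  · intro κ u w hκ hu hd hw hn hdv
    rw [MP_dcc566_gt.bf_zero_right, zero_add]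
    have h6 := F2_nn6 w
    have h8 := MP_dcc566_gt.E8_nonneg u
    by_cases h0 : u = 0
    · subst h0
      rw [MP_dcc566_gt.bf_zero_left, zero_add] at hn hdv
      exact F2_rh hκ hw hn hdv
    · have h1 := d_min (Or.inr (Or.inr rfl)) hκ hu hd h0
      have h2 : w = 0 := by
        by_contra h3
        have := E6_pos w h3
        linarith
      rw [h2]
      exact MP_dcc566_gt.bf_zero_left _ _

end Pool.Agent.RFN
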