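import Mathlib
import Pool.Agent.Lib.MP_dcc566_gt_R.E6F
import Pool.Agent.Lib.MP_dcc566_gt_R.F2

/-!
# The dual lattice of `E₆`
-/

set_option autoImplicit false

namespace Pool.Agent.RFN

open MP_dcc566_gt (bf)

/-- `x` is in the dual lattice of `E₆`. -/
def Du6 (x : Fin 6 → ℚ) : Prop := ∀ y ∈ Zk 6, IsZ (mF E6 x y)

private theorem mF6 (x y : Fin 6 → ℚ) : mF E6 x y =
    x 0 * (2 * y 0 - y 2) + x 1 * (2 * y 1 - y 3) + x 2 * (2 * y 2 - y 0 - y 3) +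
      x 3 * (2 * y 3 - y 1 - y 2 - y 4) + x 4 * (2 * y 4 - y 3 - y 5) + x 5 * (2 * y 5 - y 4) := by
  rw [mF_apply]
  simp [Fin.sum_univ_six, CartanMatrix.E₆]
  ring

private theorem not_dvd_sq {k : ℤ} (hk : ¬ (3 : ℤ) ∣ k) : (3 : ℤ) ∣ 1 - k * k := by
  have h4 : k % 3 = 1 ∨ k % 3 = 2 := by lia
  have h5 : k = 3 * (k / 3) + k % 3 := by lia
  rcases h4 with h4 | h4
  · rw [h4] at h5
    rw [h5]
    exact ⟨-(3 * (k / 3) ^ 2 + 2 * (k / 3)), by ring⟩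
  · rw [h4] at h5
    rw [h5]
    exact ⟨-(3 * (k / 3) ^ 2 + 4 * (k / 3) + 1), by ring⟩

/-- The dual lattice is generated by `Zk 6` and `om6 / 3`.

PROOF.  Let `c i = mF E6 x (Pi.single i 1)` (integers; `= ∑ j, x j * E6 j i`).  As in `E6_inv` (`A * E6 = 3`):
`3 * x j = ∑ i, A j i * c i`, i.e. `3 x 0 = 4c0+3c1+5c2+6c3+4c4+2c5`, `3 x 1 = 3c0+6c1+6c2+9c3+6c4+3c5`,
`3 x 2 = 5c0+6c1+10c2+12c3+8c4+4c5`, `3 x 3 = 6c0+9c1+12c2+18c3+12c4+6c5`, `3 x 4 = 4c0+6c1+8c2+12c3+10c4+5c5`,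
`3 x 5 = 2c0+3c1+4c2+6c3+5c4+4c5` (linear combinations of the equations
`c0 = 2x0 - x2`, `c1 = 2x1 - x3`, `c2 = 2x2 - x0 - x3`, `c3 = 2x3 - x1 - x2 - x4`, `c4 = 2x4 - x3 - x5`, `c5 = 2x5 - x4`).
With `k = c0 + 2c2 + c4 + 2c5` all `3 x j - k * om6 j`, `om6 = ![4,3,5,6,4,2]`, are integers divisible by 3 (`omega`/explicit
quotients). -/
theorem Du6.gen {x : Fin 6 → ℚ} (h : Du6 x) : ∃ (k : ℤ) (u : Fin 6 → ℤ),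
    x = ((k : ℚ) / 3) • cz om6 + cz u := by
  obtain ⟨c0, h0⟩ := h (cz ![1, 0, 0, 0, 0, 0]) (cz_mem _)
  obtain ⟨c1, h1⟩ := h (cz ![0, 1, 0, 0, 0, 0]) (cz_mem _)
  obtain ⟨c2, h2⟩ := h (cz ![0, 0, 1, 0, 0, 0]) (cz_mem _)
  obtain ⟨c3, h3⟩ := h (cz ![0, 0, 0, 1, 0, 0]) (cz_mem _)
  obtain ⟨c4, h4⟩ := h (cz ![0, 0, 0, 0, 1, 0]) (cz_mem _)
  obtain ⟨c5, h5⟩ := h (cz ![0, 0, 0, 0, 0, 1]) (cz_mem _)
  rw [mF6] at h0 h1 h2 h3 h4 h5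
  simp [cz] at h0 h1 h2 h3 h4 h5
  refine ⟨c0 + 2 * c2 + c4 + 2 * c5, c1 • ![1, 2, 2, 3, 2, 1] + c2 • ![-1, 0, 0, 0, 0, 0] +
    c3 • ![2, 3, 4, 6, 4, 2] + c4 • ![0, 1, 1, 2, 2, 1] + c5 • ![-2, -1, -2, -2, -1, 0], ?_⟩
  funext j
  fin_cases j
  · change x 0 = (((c0 + 2 * c2 + c4 + 2 * c5 : ℤ) : ℚ) / 3) * ((4 : ℤ) : ℚ) +
      ((c1 * 1 + c2 * (-1) + c3 * 2 + c4 * 0 + c5 * (-2) : ℤ) : ℚ)
    push_cast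
    linarith
  · change x 1 = (((c0 + 2 * c2 + c4 + 2 * c5 : ℤ) : ℚ) / 3) * ((3 : ℤ) : ℚ) +
      ((c1 * 2 + c2 * 0 + c3 * 3 + c4 * 1 + c5 * (-1) : ℤ) : ℚ)
    push_cast
    linarith
  · change x 2 = (((c0 + 2 * c2 + c4 + 2 * c5 : ℤ) : ℚ) / 3) * ((5 : ℤ) : ℚ) +
      ((c1 * 2 + c2 * 0 + c3 * 4 + c4 * 1 + c5 * (-2) : ℤ) : ℚ)
    push_cast
    linarith
  · change x 3 = (((c0 + 2 * c2 + c4 + 2 * c5 : ℤ) : ℚ) / 3) * ((6 : ℤ) : ℚ) +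
      ((c1 * 3 + c2 * 0 + c3 * 6 + c4 * 2 + c5 * (-2) : ℤ) : ℚ)
    push_cast
    linarith
  · change x 4 = (((c0 + 2 * c2 + c4 + 2 * c5 : ℤ) : ℚ) / 3) * ((4 : ℤ) : ℚ) +
      ((c1 * 2 + c2 * 0 + c3 * 4 + c4 * 2 + c5 * (-1) : ℤ) : ℚ)
    push_cast
    linarith
  · change x 5 = (((c0 + 2 * c2 + c4 + 2 * c5 : ℤ) : ℚ) / 3) * ((2 : ℤ) : ℚ) +
      ((c1 * 1 + c2 * 0 + c3 * 2 + c4 * 1 + c5 * 0 : ℤ) : ℚ)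
    push_cast
    linarith

/-- PROOF.  By bilinearity, `mF_cz` and `E6_vals` (`bf E6 om6 om6 = 12`), `E6_om` (`bf E6 om6 u = 3 u 0`), `E6_even`:
the norm is `12 k²/9 + 2 (k/3) 3 u0 + bf E6 u u`. -/
theorem Du6_norm (k : ℤ) (u : Fin 6 → ℤ) : ∃ n : ℤ,
    mF E6 (((k : ℚ) / 3) • cz om6 + cz u) (((k : ℚ) / 3) • cz om6 + cz u) =
      4 * (k : ℚ) ^ 2 / 3 + 2 * n := by
  obtain ⟨m, hm⟩ := E6_even u
  have h1 := norm_lin (mF_symm E6_symm) ((k : ℚ) / 3) 1 (cz om6) (cz u)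
  rw [one_smul, mF_cz, mF_cz, mF_cz, E6_vals.2.2.2.2.2.1, (E6_om u).1, hm] at h1
  refine ⟨k * u 0 + m, ?_⟩
  rw [h1]
  push_cast
  ring

/-- PROOF.  If `k = 3 l`: `(k/3) • cz om6 = cz (l • om6)`.  Conversely evaluate at `j = 0`: `4 k / 3 + u 0` is an integer. -/
theorem Du6_mem (k : ℤ) (u : Fin 6 → ℤ) :
    ((k : ℚ) / 3) • cz om6 + cz u ∈ Zk 6 ↔ (3 : ℤ) ∣ k := by
  constructor
  · rintro ⟨v, hv⟩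
    have h0 : ((k : ℚ) / 3) * ((4 : ℤ) : ℚ) + ((u 0 : ℤ) : ℚ) = ((v 0 : ℤ) : ℚ) := congrFun hv 0
    have h1 : (4 : ℚ) * k = 3 * (((v 0 - u 0 : ℤ)) : ℚ) := by
      push_cast at h0 ⊢
      linarith
    have h2 : 4 * k = 3 * (v 0 - u 0) := by exact_mod_cast h1
    lia
  · rintro ⟨l, rfl⟩
    refine ⟨l • om6 + u, ?_⟩
    have h1 : (((3 * l : ℤ) : ℚ) / 3) = ((l : ℤ) : ℚ) := by
      push_cast
      ring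
    rw [h1, ← cz_smul, ← cz_add]
    rfl

/-- PROOF.  `Du6.gen`: `3 x = cz (k • om6 + 3 • u)`. -/
theorem Du6.three {x : Fin 6 → ℚ} (h : Du6 x) : (3 : ℚ) • x ∈ Zk 6 := by
  obtain ⟨k, u, rfl⟩ := h.gen
  refine mem_Zk.2 ⟨k • om6 + (3 : ℤ) • u, ?_⟩
  rw [cz_add, cz_smul, cz_smul, smul_add, smul_smul]
  congr 2
  ring

/-- PROOF.  `w = (k/3) om6 + u`, `3 ∤ k` (`Du6_mem`), `x = (l/3) om6 + v`; choose the integer `m` with `3 ∣ l - m k`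
(`m = l k`, as `k² = 1 mod 3`); `x - m w = ((l - m k)/3) om6 + (v - m u) ∈ Zk 6` by `Du6_mem`. -/
theorem Du6.sub_mem {x w : Fin 6 → ℚ} (hx : Du6 x) (hw : Du6 w) (hw' : w ∉ Zk 6) :
    ∃ m : ℤ, x - (m : ℚ) • w ∈ Zk 6 := by
  obtain ⟨k, u, rfl⟩ := hw.gen
  obtain ⟨l, v, rfl⟩ := hx.gen
  rw [Du6_mem] at hw'
  refine ⟨l * k, ?_⟩
  have h1 : ((l : ℚ) / 3) • cz om6 + cz v - ((l * k : ℤ) : ℚ) • (((k : ℚ) / 3) • cz om6 + cz u) =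
      (((l * (1 - k * k) : ℤ) : ℚ) / 3) • cz om6 + cz (v - (l * k) • u) := by
    rw [cz_sub, cz_smul]
    push_cast
    module
  rw [h1, Du6_mem]
  exact Dvd.dvd.mul_left (not_dvd_sq hw') _

/-- PROOF.  `Du6_norm`, `Du6_mem`: `4 k²/3` is an integer only if `3 ∣ k`. -/
theorem Du6.norm {w : Fin 6 → ℚ} (hw : Du6 w) (hw' : w ∉ Zk 6) : ¬ IsZ (mF E6 w w) := by
  obtain ⟨k, u, rfl⟩ := hw.gen
  rw [Du6_mem] at hw'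
  obtain ⟨n, hn⟩ := Du6_norm k u
  rintro ⟨N, hN⟩
  rw [hn] at hN
  have h1 : (4 : ℚ) * (k * k) = 3 * ((N - 2 * n : ℤ) : ℚ) := by
    push_cast
    linarith
  have h2 : 4 * (k * k) = 3 * (N - 2 * n) := by exact_mod_cast h1
  obtain ⟨c, hc⟩ := not_dvd_sq hw'
  lia

end Pool.Agent.RFN
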