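import Mathlib
import Pool.Agent.Lib.MP_dcc566_gt_R.Cfg
import Pool.Agent.Lib.MP_dcc566_gt_R.E8Da

/-!
# `U ⊕ D₈ ⊕ E₈ ⊕ K`
-/

set_option autoImplicit false

namespace Pool.Agent.RFN

open MP_dcc566_gt (bf E8 w8)

variable {Y : Type} [AddCommGroup Y] [Module ℚ Y]

/-- divisibility of the `E₈` part -/
private theorem F1C_w {BY : Frm Y} {K : AddSubgroup Y} {κ : ℤ} {w : Fin 8 → ℤ} {k : Y}
    (h : ∀ n' ∈ (Zk 8).prod K, Dv κ (sF F8 BY (cz w, k) n')) : ∃ w', w = κ • w' := by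
  apply MP_dcc566_gt.E8_unimod
  intro x
  have h1 := h (cz x, 0) ⟨cz_mem x, K.zero_mem⟩
  rw [sF_apply, map_zero, add_zero] at h1
  change Dv κ (F8 (cz w) (cz x)) at h1
  rw [mF_cz] at h1
  exact Dv_int.1 h1

private theorem F1C_sq {β : ℤ} (hβ : ¬ (3 : ℤ) ∣ β) :
    ∃ j σ : ℤ, (σ = 1 ∨ σ = -1) ∧ β = 3 * j + σ := by
  rcases (by omega : β % 3 = 1 ∨ β % 3 = 2) with h | h
  · exact ⟨β / 3, 1, Or.inl rfl, by omega⟩
  · exact ⟨β / 3 + 1, -1, Or.inr rfl, by omega⟩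

/-- the smul by an integer, inside `K` -/
private theorem F1C_mem {K : AddSubgroup Y} (m : ℤ) {k : Y} (hk : k ∈ K) : (m : ℚ) • k ∈ K := by
  rw [Int.cast_smul_eq_zsmul]
  exact K.zsmul_mem hk m

private theorem F1C_R (κ β : ℤ) (w' : Fin 8 → ℤ) (k y : Y) :
    ((3 : ℤ) : ℚ) • ((cz (κ • w'), k) : (Fin 8 → ℚ) × Y) -
        ((κ * β : ℤ) : ℚ) • ((cz MP_dcc566_gt.w8, y) : (Fin 8 → ℚ) × Y) =
      (cz (κ • ((3 : ℤ) • w' - β • MP_dcc566_gt.w8)),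
        ((3 : ℤ) : ℚ) • k - ((κ * β : ℤ) : ℚ) • y) := by
  ext1
  · show ((3 : ℤ) : ℚ) • cz (κ • w') - ((κ * β : ℤ) : ℚ) • cz MP_dcc566_gt.w8 = _
    rw [cz_smul, cz_smul, cz_sub, cz_smul, cz_smul]
    push_cast
    module
  · rfl

/-- the general argument -/
private theorem F1C_gen {BY : Frm Y} (hBY : Pd BY) {K : AddSubgroup Y} (hK : EvL BY K) {y : Y}
    (hy : y ∈ K) {V u₀ : Fin 8 → ℤ} {c r a b k₀ : ℤ} (hr : r = 2 ∨ r = 4) (hc : c + r = 10)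
    (ha : a • V ≠ 0) (hV : DH 1 V) (hVV : bf E8 V V = c) (hu₀ : DH 1 u₀)
    (hk₀ : bf E8 V u₀ = 1 + 3 * k₀)
    (blk : ∀ κ β : ℤ, 0 < κ → ¬ (3 : ℤ) ∣ β → ∀ u : Fin 8 → ℤ, DH 1 u → DD 1 κ u →
      (Odd κ → c * κ ^ 2 ≤ bf E8 ((3 : ℤ) • u - (κ * β) • V) ((3 : ℤ) • u - (κ * β) • V)) ∧
        ∀ κ₁, κ = 2 * κ₁ →
          c * κ₁ ^ 2 ≤ bf E8 ((3 : ℤ) • u - (κ * β) • V) ((3 : ℤ) • u - (κ * β) • V))
    (blk_eq : ∀ β σ : ℤ, (σ = 1 ∨ σ = -1) → (3 : ℤ) ∣ β - σ → ∀ u : Fin 8 → ℤ, DH 1 u →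
      bf E8 ((3 : ℤ) • u - β • V) ((3 : ℤ) • u - β • V) = c →
      bf E8 ((3 : ℤ) • u - β • V) V = -c * σ)
    (rt : ∀ κ : ℤ, 0 < κ → ∀ u : Fin 8 → ℤ, DH 1 u → DD 1 κ u → bf E8 u u = 2 * κ →
      3 * κ ∣ bf E8 u V → bf E8 u V = 0)
    (hy2 : Dv 6 (BY y y - r))
    (hAB : (BY y y = r ∧ a * c + b * r = 0) ∨ ((∀ k ∈ K, BY k k ≠ r) ∧ b = 0)) :
    Conf (PF (sF F8 BY)) (PL ((Zk 8).prod K)) {2} (fun _ => 1) := by
  obtain ⟨n0, hn0⟩ := hy2
  have hc6 : 6 ≤ c := by rcases hr with h | h <;> omega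
  refine cfg (BX := sF F8 BY) (Pd_F8.sF hBY) (EvL_F8.prod hK) (i := 1) (by norm_num) (m := 3)
    (N₀ := 3 + n0) (by norm_num) hV (y := (cz MP_dcc566_gt.w8, y)) ⟨cz_mem _, hy⟩ ?_
    (t₈ := a • V) (tX := (0, (b : ℚ) • y)) (Or.inl ha) hu₀ hk₀ ?_ ?_
  · rw [sF_apply]
    change ((bf E8 V V : ℤ) : ℚ) + (F8 (cz MP_dcc566_gt.w8) (cz MP_dcc566_gt.w8) + BY y y) = _
    rw [mF_cz, MP_dcc566_gt.norm_w8, hVV]
    have h1 : BY y y = r + 6 * n0 := by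
      have : BY y y - r = 6 * n0 := by rw [hn0]; push_cast; ring
      linarith
    have h2 : (c : ℚ) + r = 10 := by exact_mod_cast hc
    rw [h1]
    push_cast
    linarith
  · -- H1
    rintro κ β u ⟨n1, k⟩ hn hκ hβ hu hd hn' hnorm
    obtain ⟨⟨w, hw⟩, hk⟩ := hn
    change n1 = cz w at hw
    change k ∈ K at hk
    subst hw
    obtain ⟨w', rfl⟩ := F1C_w hn'
    rw [F1C_R, sF_apply] at hnorm ⊢
    simp only at hnorm ⊢
    have hnorm1 : ((bf E8 ((3 : ℤ) • u - (κ * β) • V) ((3 : ℤ) • u - (κ * β) • V) : ℤ) : ℚ) +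
        (((κ ^ 2 * bf E8 ((3 : ℤ) • w' - β • MP_dcc566_gt.w8)
          ((3 : ℤ) • w' - β • MP_dcc566_gt.w8) : ℤ) : ℚ) +
        BY (((3 : ℤ) : ℚ) • k - ((κ * β : ℤ) : ℚ) • y)
          (((3 : ℤ) : ℚ) • k - ((κ * β : ℤ) : ℚ) • y)) = ((18 * κ : ℤ) : ℚ) := by
      rw [mF_cz, MP_dcc566_gt.bf_smul_left, MP_dcc566_gt.bf_smul_right] at hnorm
      have h1 : ((κ * (κ * bf E8 ((3 : ℤ) • w' - β • MP_dcc566_gt.w8)
          ((3 : ℤ) • w' - β • MP_dcc566_gt.w8)) : ℤ) : ℚ) =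
          ((κ ^ 2 * bf E8 ((3 : ℤ) • w' - β • MP_dcc566_gt.w8)
          ((3 : ℤ) • w' - β • MP_dcc566_gt.w8) : ℤ) : ℚ) := by
        congr 1
        ring
      rw [h1] at hnorm
      rw [hnorm]
      push_cast
      ring
    clear hnorm
    obtain ⟨hbo, hbe⟩ := blk κ β hκ hβ u hu hd
    have h8 := MP_dcc566_gt.class8 w' hβ
    have hE : 8 * κ ^ 2 ≤ κ ^ 2 * bf E8 ((3 : ℤ) • w' - β • MP_dcc566_gt.w8)
          ((3 : ℤ) • w' - β • MP_dcc566_gt.w8) := by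
      nlinarith [sq_nonneg κ]
    have hpos := hBY.nonneg (((3 : ℤ) : ℚ) • k - ((κ * β : ℤ) : ℚ) • y)
    have hle : bf E8 ((3 : ℤ) • u - (κ * β) • V) ((3 : ℤ) • u - (κ * β) • V) +
        κ ^ 2 * bf E8 ((3 : ℤ) • w' - β • MP_dcc566_gt.w8)
          ((3 : ℤ) • w' - β • MP_dcc566_gt.w8) ≤ 18 * κ := by
      have : ((bf E8 ((3 : ℤ) • u - (κ * β) • V) ((3 : ℤ) • u - (κ * β) • V) +
        κ ^ 2 * bf E8 ((3 : ℤ) • w' - β • MP_dcc566_gt.w8)
          ((3 : ℤ) • w' - β • MP_dcc566_gt.w8) : ℤ) : ℚ) ≤ ((18 * κ : ℤ) : ℚ) := by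
        rw [← hnorm1, Int.cast_add]
        linarith
      exact_mod_cast this
    have hκ1 : κ = 1 := by
      rcases Int.even_or_odd κ with he | ho
      · exfalso
        obtain ⟨κ₁, hκ₁⟩ := he
        have h1 := hbe κ₁ (by omega)
        have h2 : κ = 2 * κ₁ := by omega
        have h3 : 0 < κ₁ := by omega
        have h4 : 6 * κ₁ ^ 2 ≤ c * κ₁ ^ 2 := mul_le_mul_of_nonneg_right hc6 (sq_nonneg _)
        have h5 : 8 * κ ^ 2 = 32 * κ₁ ^ 2 := by rw [h2]; ring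
        nlinarith
      · have h1 := hbo ho
        have h4 : 6 * κ ^ 2 ≤ c * κ ^ 2 := mul_le_mul_of_nonneg_right hc6 (sq_nonneg _)
        have h5 : 14 * κ ^ 2 ≤ 18 * κ := by linarith
        have h6 : κ < 2 := by
          by_contra h7
          push Not at h7
          nlinarith
        omega
    subst hκ1
    have hb1 := hbo odd_one
    rw [one_mul] at hnorm1 hle hb1 hpos ⊢
    -- integers
    obtain ⟨A, hA⟩ := hK k hk
    obtain ⟨P0, hP0⟩ := hK.isZ hBY.symm hk hy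
    have hyy : BY y y = r + 6 * n0 := by
      have : BY y y - r = 6 * n0 := by rw [hn0]; push_cast; ring
      linarith
    have hRK : BY (((3 : ℤ) : ℚ) • k - ((β : ℤ) : ℚ) • y) (((3 : ℤ) : ℚ) • k - ((β : ℤ) : ℚ) • y) =
        ((18 * A - 6 * β * P0 + β ^ 2 * (r + 6 * n0) : ℤ) : ℚ) := by
      rw [norm_sub_lin hBY.symm, hA, hP0, hyy]
      push_cast
      ring
    rw [hRK] at hnorm1 hpos
    set Z : ℤ := 18 * A - 6 * β * P0 + β ^ 2 * (r + 6 * n0) with hZ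
    have hZ0 : 0 ≤ Z := by exact_mod_cast hpos
    have hsum : bf E8 ((3 : ℤ) • u - β • V) ((3 : ℤ) • u - β • V) +
        (1 ^ 2 * bf E8 ((3 : ℤ) • w' - β • MP_dcc566_gt.w8)
          ((3 : ℤ) • w' - β • MP_dcc566_gt.w8) + Z) = 18 * 1 := by exact_mod_cast hnorm1
    obtain ⟨j, σ, hσ, hj⟩ := F1C_sq hβ
    have hσ2 : σ ^ 2 = 1 := by rcases hσ with rfl | rfl <;> norm_num
    have hZr : Z = r := by
      obtain ⟨ρ, hρ⟩ : ∃ ρ, r = 2 * ρ := by rcases hr with rfl | rfl; exacts [⟨1, rfl⟩, ⟨2, rfl⟩]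
      have h1 : β ^ 2 = 3 * (3 * j ^ 2 + 2 * j * σ) + 1 := by rw [hj, ← hσ2]; ring
      have h2 : Z - r = 6 * (3 * A - β * P0 + β ^ 2 * n0 + (3 * j ^ 2 + 2 * j * σ) * ρ) := by
        have h3 : Z = 18 * A - 6 * β * P0 + β ^ 2 * r + 6 * (β ^ 2 * n0) := by rw [hZ]; ring
        rw [h3, h1, hρ]
        ring
      have h4 : Z ≤ r := by linarith
      rcases hr with h5 | h5 <;> omega
    have hmemR : ((3 : ℤ) : ℚ) • k - ((β : ℤ) : ℚ) • y ∈ K :=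
      K.sub_mem (F1C_mem 3 hk) (F1C_mem β hy)
    rcases hAB with ⟨hyr, hab⟩ | ⟨hB, -⟩
    swap
    · exact absurd (hRK.trans (by rw [hZr])) (hB _ hmemR)
    have hn00 : n0 = 0 := by
      have : (r : ℚ) + 6 * n0 = r := by rw [← hyy, hyr]
      have h2 : (n0 : ℚ) = 0 := by linarith
      exact_mod_cast h2
    have hRD : bf E8 ((3 : ℤ) • u - β • V) ((3 : ℤ) • u - β • V) = c := by linarith
    have hRV := blk_eq β σ hσ ⟨j, by rw [hj]; ring⟩ u hu hRD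
    -- the product with `y`
    obtain ⟨A', hA'⟩ := hK (k - ((j : ℤ) : ℚ) • y) (K.sub_mem hk (F1C_mem j hy))
    have hRy : BY (((3 : ℤ) : ℚ) • k - ((β : ℤ) : ℚ) • y) y = ((3 * P0 - β * r : ℤ) : ℚ) := by
      rw [map_sub, LinearMap.sub_apply, map_smul, map_smul, LinearMap.smul_apply,
        LinearMap.smul_apply, hP0, hyr]
      push_cast
      simp only [smul_eq_mul]
    have hcs := hBY.cs (((3 : ℤ) : ℚ) • k - ((β : ℤ) : ℚ) • y) y
    rw [hRy, hRK, hZr, hyr] at hcs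
    have hcs' : (3 * P0 - β * r) ^ 2 ≤ r * r := by exact_mod_cast hcs
    have hk' : 2 * A' = 2 * A - 2 * j * P0 + j ^ 2 * r := by
      have h1 : BY (k - ((j : ℤ) : ℚ) • y) (k - ((j : ℤ) : ℚ) • y) =
          ((2 * A - 2 * j * P0 + j ^ 2 * r : ℤ) : ℚ) := by
        have h2 := norm_sub_lin hBY.symm (1 : ℚ) ((j : ℤ) : ℚ) k y
        rw [one_smul] at h2
        rw [h2, hA, hP0, hyr]
        push_cast
        ring
      rw [h1] at hA'
      have h3 : 2 * A - 2 * j * P0 + j ^ 2 * r = 2 * A' := by exact_mod_cast hA'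
      exact h3.symm
    have hA'0 : 0 ≤ A' := by
      have h1 := hBY.nonneg (k - ((j : ℤ) : ℚ) • y)
      rw [hA'] at h1
      have h2 : (0 : ℤ) ≤ 2 * A' := by exact_mod_cast h1
      omega
    have hP : 3 * P0 - β * r = -σ * r := by
      have e1 : 9 * (2 * A') = Z + 2 * σ * (3 * P0 - β * r) + r := by
        rw [hk', hZ, hn00, hj]
        linear_combination (2 * r - r) * hσ2
      have e2 : -r ≤ 3 * P0 - β * r ∧ 3 * P0 - β * r ≤ r := by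
        constructor <;> rcases hr with rfl | rfl <;> nlinarith
      have e3 : 9 * (2 * A') ≤ 4 * r := by
        rw [e1, hZr]
        rcases hσ with rfl | rfl <;> linarith [e2.1, e2.2]
      have e4 : A' = 0 := by rcases hr with h | h <;> omega
      rw [e4, hZr] at e1
      have e5 : σ * (3 * P0 - β * r) = -r := by linarith
      calc 3 * P0 - β * r = σ ^ 2 * (3 * P0 - β * r) := by rw [hσ2]; ring
        _ = σ * (σ * (3 * P0 - β * r)) := by ring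
        _ = -σ * r := by rw [e5]; ring
    rw [MP_dcc566_gt.bf_smul_right, hRV]
    have h0 : F8 (cz (1 • ((3 : ℤ) • w' - β • MP_dcc566_gt.w8))) 0 = 0 := map_zero _
    rw [map_zero, zero_add, map_smul, hRy, hP, smul_eq_mul]
    have h1 : a * (-c * σ) + b * (-σ * r) = 0 := by
      have : a * (-c * σ) + b * (-σ * r) = -σ * (a * c + b * r) := by ring
      rw [this, hab, mul_zero]
    exact_mod_cast h1
  · -- H2
    rintro κ u ⟨n1, k⟩ hn hκ hu hd hn' hnorm hdv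
    obtain ⟨⟨w, hw⟩, hk⟩ := hn
    change n1 = cz w at hw
    change k ∈ K at hk
    subst hw
    obtain ⟨w', rfl⟩ := F1C_w hn'
    rw [sF_apply] at hnorm hdv ⊢
    simp only at hnorm hdv ⊢
    rw [mF_cz] at hnorm hdv
    rw [map_zero, zero_add, MP_dcc566_gt.bf_smul_right, map_smul, smul_eq_mul]
    rw [MP_dcc566_gt.bf_smul_left, MP_dcc566_gt.bf_smul_right] at hnorm
    have hkk := hBY.nonneg k
    have huu := MP_dcc566_gt.E8_nonneg u
    have hww := MP_dcc566_gt.E8_nonneg w'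
    have hle : bf E8 u u + κ * (κ * bf E8 w' w') ≤ 2 * κ := by
      have : ((bf E8 u u + κ * (κ * bf E8 w' w') : ℤ) : ℚ) ≤ ((2 * κ : ℤ) : ℚ) := by
        rw [Int.cast_add]
        push_cast at hnorm ⊢
        linarith
      exact_mod_cast this
    by_cases hw0 : w' = 0
    · subst hw0
      by_cases hu0 : u = 0
      · subst hu0
        rw [MP_dcc566_gt.bf_zero_left, mul_zero, Int.cast_zero, zero_add]
        rcases hAB with ⟨hyr, -⟩ | ⟨-, hb⟩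
        swap
        · rw [hb, Int.cast_zero, zero_mul]
        rw [smul_zero, MP_dcc566_gt.bf_zero_left, MP_dcc566_gt.bf_zero_left, Int.cast_zero,
          zero_add, zero_add] at hdv
        rw [MP_dcc566_gt.bf_zero_left, mul_zero, mul_zero,
          Int.cast_zero, zero_add, zero_add] at hnorm
        obtain ⟨z, hz⟩ := hdv
        have hcs := hBY.cs k y
        rw [hz, hnorm, hyr] at hcs
        have h1 : (3 * κ * z) ^ 2 ≤ 2 * κ * r := by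
          have : (((3 * κ * z) ^ 2 : ℤ) : ℚ) ≤ ((2 * κ * r : ℤ) : ℚ) := by
            push_cast at hcs ⊢
            linarith
          exact_mod_cast this
        have hz0 : z = 0 := by
          by_contra hne
          have h2 : 1 ≤ z ^ 2 := by
            have : 0 < z ^ 2 := by positivity
            omega
          have h3 : 9 * κ ^ 2 ≤ 9 * κ ^ 2 * z ^ 2 := by nlinarith [sq_nonneg κ]
          have h4 : (3 * κ * z) ^ 2 = 9 * κ ^ 2 * z ^ 2 := by ring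
          have h5 : 2 * κ * r ≤ 8 * κ := by rcases hr with rfl | rfl <;> linarith
          nlinarith
        rw [hz, hz0]
        simp
      · have h1 := d_min (Or.inl rfl) hκ hu hd hu0
        rw [MP_dcc566_gt.bf_zero_left, mul_zero, mul_zero] at hnorm hle
        have h2 : bf E8 u u = 2 * κ := by linarith
        rw [h2] at hnorm
        have h3 : BY k k = 0 := by
          push_cast at hnorm
          linarith
        have h4 := hBY.eq_zero h3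
        subst h4
        rw [smul_zero, MP_dcc566_gt.bf_zero_left, map_zero, LinearMap.zero_apply, Int.cast_zero,
          add_zero, add_zero] at hdv
        have h5 := rt κ hκ u hu hd h2 (Dv_int.1 hdv)
        rw [h5, map_zero, LinearMap.zero_apply]
        simp
    · have h1 := MP_dcc566_gt.E8_pos w' hw0
      obtain ⟨m, hm⟩ := MP_dcc566_gt.E8_even w'
      have h2 : 2 ≤ bf E8 w' w' := by omega
      have h3 : κ * (κ * 2) ≤ κ * (κ * bf E8 w' w') :=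
        mul_le_mul_of_nonneg_left (mul_le_mul_of_nonneg_left h2 hκ.le) hκ.le
      have h4 : κ = 1 := by
        have : κ < 2 := by
          by_contra h5
          push Not at h5
          nlinarith
        omega
      subst h4
      have h5 : bf E8 u u = 0 := by linarith
      have h6 : u = 0 := by
        by_contra h7
        exact (MP_dcc566_gt.E8_pos u h7).ne' h5
      have h7 : bf E8 w' w' = 2 := by linarith
      rw [h5, h7] at hnorm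
      have h8 : BY k k = 0 := by
        push_cast at hnorm
        linarith
      have h9 := hBY.eq_zero h8
      subst h9
      rw [h6, MP_dcc566_gt.bf_zero_left, map_zero, LinearMap.zero_apply]
      simp

/-- `v = (V8; w8; y)`, `(y,y) = 2 mod 6`, `m = 3`.

PROOF.  `X = (Fin 8 → ℚ) × Y`, `BX = sF F8 BY`, `N = (Zk 8).prod K`, elements `n = (cz w, k)`.
CASE A: `K` contains a vector `a` with `(a,a) = 2`.  Use `y = a`.  CASE B: no such vector; use the given `y`.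
Apply `cfg` with `i = 1`, `m = 3`, `v₈ = V8`, `y := (cz w8, y)`, `u₀ = Pi.single 2 1` or another simple root with odd... choose `u₀` with
`DH 1 u₀` and `bf V8 u₀ = -2 = 1 + 3·(-1)`: `xs u₀ = (-1,-1,0,...)`; `N₀ = (16 + (y,y))/6`.
`t = (V8; 0; -4 y)` in case A, `t = (V8; 0; 0)` in case B.
Given `κ ∣ (n,n')` for all `n' ∈ N`: test with `(cz w', 0)`: `w = κ w'` (`E8_unimod`), and `κ ∣ (k,k')` for `k' ∈ K`.
H1.  `R = (R_D, R_E, R_K)`, `R_E = κ (3w' - β w8)`: `bf R_E R_E ≥ 8 κ²` (`class8`).  `bf R_D R_D ≥ 8κ²` (`κ` odd), `≥ 8 κ₁²` (`κ = 2κ₁`)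
(`blk8`).  The total is `18 κ`.  `κ` odd: `16κ² ≤ 18κ`, so `κ = 1`.  `κ = 2κ₁`: `8κ₁² + 32κ₁² ≤ 36κ₁` is impossible.
`κ = 1`: `R_K = 3k - β y ∈ K`, `(R_K,R_K) ≤ 2` and `(R_K,R_K) = 9(k,k) - 6β(k,y) + β²(y,y) = 2 mod 6` (`(k,k)` even, `(k,y)` integer,
`(y,y) = 2 mod 6`, `β² = 1 mod 3`), so `(R_K,R_K) = 2`: contradiction in case B; in case A `bf R_D R_D = 8`.  Let `β = σ mod 3`, `σ = ±1`:
`W = R_K + σ y = 3 (k - ((β-σ)/3) y) = 3k'`, `(W,W) = 9 (k',k')` is `0` or `≥ 18`, and `(W,W) = 4 + 2σ(R_K,y) ≤ 8` (`Pd.cs`), so `W = 0`,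
`(R_K,y) = -2σ`.  `blk8_eq`: `bf R_D V8 = -8σ`.  `(R,t) = -8σ - 4(-2σ) = 0`.
H2.  `s = (u, (cz w, k))`, `(s,s) = 2κ`, `3κ ∣ bf u V8 + bf w w8 + (k,y)`.  `w = κ w'`; if `w ≠ 0`, `bf w w ≥ 2κ²`, so `κ = 1`, `u = 0`, `k = 0`
(norms nonnegative): `(s,t) = 0`.  If `w = 0` and `u ≠ 0`: `d_min`: `bf u u ≥ 2κ`, so `= 2κ`, `k = 0`: `rt8` gives `bf u V8 = 0`.  If `u = 0`, `w = 0`:
case B: `(s,t) = 0`.  Case A: `3κ ∣ (k,y)`, `(k,y)² ≤ 2κ · 2 < 9κ²`, so `(k,y) = 0`. -/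
theorem confF1C1 {BY : Frm Y} (hBY : Pd BY) {K : AddSubgroup Y} (hK : EvL BY K) {y : Y}
    (hy : y ∈ K) (hy2 : Dv 6 (BY y y - 2)) :
    Conf (PF (sF F8 BY)) (PL ((Zk 8).prod K)) {2} (fun _ => 1) := by
  have hu : DH 1 ![0, -1, 0, 0, 0, 0, 0, 0] := by
    intro k hk
    interval_cases k
    decide
  have gen := fun (y : Y) (hy : y ∈ K) (b : ℤ) (h1 : Dv 6 (BY y y - ((2 : ℤ) : ℚ)))
    (h2 : (BY y y = ((2 : ℤ) : ℚ) ∧ (1 : ℤ) * 8 + b * 2 = 0) ∨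
      ((∀ k ∈ K, BY k k ≠ ((2 : ℤ) : ℚ)) ∧ b = 0)) =>
    F1C_gen hBY hK hy (V := V8) (u₀ := ![0, -1, 0, 0, 0, 0, 0, 0]) (c := 8) (r := 2) (a := 1)
      (b := b) (k₀ := -1) (Or.inl rfl) (by norm_num) (by decide) V8_facts.1 V8_facts.2.1 hu
      (by decide) (fun κ β hκ hβ u hu hd => blk8 hκ hβ hu hd)
      (fun β σ hσ hβ u hu h => blk8_eq hσ hβ hu h) (fun κ hκ u hu hd hn h => rt8 hκ hu hd hn h)
      h1 h2
  by_cases h : ∃ a ∈ K, BY a a = ((2 : ℤ) : ℚ)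
  · obtain ⟨a, ha, ha2⟩ := h
    exact gen a ha (-4) (by rw [ha2, sub_self]; exact Dv.zero _) (Or.inl ⟨ha2, by norm_num⟩)
  · push Not at h
    exact gen y hy 0 (by simpa using hy2) (Or.inr ⟨h, rfl⟩)

/-- `v = (V6; w8; y)`, `(y,y) = 4 mod 6`, `m = 3`.

PROOF as `confF1C1`.  CASE A: some `a ∈ K` with `(a,a) = 4`: `y = a`, `t = (2 V6; 0; -3 y)`.  CASE B: none: `t = (V6; 0; 0)`.
`u₀`: `DH 1 u₀`, `bf V6 u₀ = 1`: standard coordinates `(1,0,0,0,0,0,1,0)`.. (sum even); `N₀ = (14 + (y,y))/6`.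
H1: `bf R_D R_D ≥ 6κ²` / `6κ₁²` (`blk6`), `bf R_E R_E ≥ 8κ²`.  `κ` odd: `14κ² ≤ 18κ`, `κ = 1`.  `κ = 2κ₁`: `6κ₁² + 32κ₁² ≤ 36κ₁` impossible.
`κ = 1`: `(R_K,R_K) = 4 mod 6` and `≤ 4`, so 4; case B contradiction; case A: `bf R_D R_D = 6`, `bf R_D V6 = -6σ` (`blk6_eq`);
`W = R_K + σ y = 3k'`, `(W,W) = 8 + 2σ(R_K,y) ≤ 16 < 18`, so `W = 0`, `(R_K,y) = -4σ`.  `(R,t) = 2(-6σ) - 3(-4σ) = 0`.
H2: as before with `rt6`; for `u = 0`, `w = 0` in case A: `3κ ∣ (k,y)`, `(k,y)² ≤ 2κ · 4 < 9κ²`. -/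
theorem confF1C2 {BY : Frm Y} (hBY : Pd BY) {K : AddSubgroup Y} (hK : EvL BY K) {y : Y}
    (hy : y ∈ K) (hy2 : Dv 6 (BY y y - 4)) :
    Conf (PF (sF F8 BY)) (PL ((Zk 8).prod K)) {2} (fun _ => 1) := by
  have hu : DH 1 ![0, 1, 0, 1, 1, 1, 1, 1] := by
    intro k hk
    interval_cases k
    decide
  have gen := fun (y : Y) (hy : y ∈ K) (b : ℤ) (h1 : Dv 6 (BY y y - ((4 : ℤ) : ℚ)))
    (h2 : (BY y y = ((4 : ℤ) : ℚ) ∧ (2 : ℤ) * 6 + b * 4 = 0) ∨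
      ((∀ k ∈ K, BY k k ≠ ((4 : ℤ) : ℚ)) ∧ b = 0)) =>
    F1C_gen hBY hK hy (V := V6) (u₀ := ![0, 1, 0, 1, 1, 1, 1, 1]) (c := 6) (r := 4) (a := 2)
      (b := b) (k₀ := 0) (Or.inr rfl) (by norm_num) (by decide) V6_facts.1 V6_facts.2.1 hu
      (by decide) (fun κ β hκ hβ u hu hd => blk6 hκ hβ hu hd)
      (fun β σ hσ hβ u hu h => blk6_eq hσ hβ hu h) (fun κ hκ u hu hd hn h => rt6 hκ hu hd hn h)
      h1 h2
  by_cases h : ∃ a ∈ K, BY a a = ((4 : ℤ) : ℚ)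
  · obtain ⟨a, ha, ha2⟩ := h
    exact gen a ha (-3) (by rw [ha2, sub_self]; exact Dv.zero _) (Or.inl ⟨ha2, by norm_num⟩)
  · push Not at h
    exact gen y hy 0 (by simpa using hy2) (Or.inr ⟨h, rfl⟩)

end Pool.Agent.RFN
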