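import Mathlib
import Pool.Agent.Lib.MP_dcc566_gt_R.Cfg
import Pool.Agent.Lib.MP_dcc566_gt_R.E8Db

/-!
# `U ⊕ D₄ ⊕ D₄ ⊕ E₈ ⊕ K`
-/

set_option autoImplicit false

namespace Pool.Agent.RFN

open MP_dcc566_gt (bf E8 w8 w6)

variable {Y : Type} [AddCommGroup Y] [Module ℚ Y]

private def F1D_u : Fin 8 → ℤ := ![0, -1, 0, 0, 0, 0, 0, 0]

private theorem F1D_uD : DH 2 F1D_u := by
  intro k hk
  interval_cases k
  · decide
  · decide

private theorem F1D_uv : bf E8 V44 F1D_u = 1 + 3 * (-1) := by decide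

/-- The common part of the two configurations. -/
private theorem F1D_core {BY : Frm Y} (hBY : Pd BY) {K : AddSubgroup Y} (hK : EvL BY K) {y : Y}
    (hy : y ∈ K) {w : Fin 8 → ℤ} {N₀ : ℤ}
    (hN : ((bf E8 w w : ℤ) : ℚ) + BY y y = 6 * N₀ - 8)
    (H : ∀ (κ β : ℤ) (u w' : Fin 8 → ℤ) (k : Y), k ∈ K → 0 < κ → ¬ (3 : ℤ) ∣ β → DH 2 u →
      DD 2 κ u →
      ((bf E8 ((3 : ℤ) • u - (κ * β) • V44) ((3 : ℤ) • u - (κ * β) • V44) : ℤ) : ℚ) +
        (κ : ℚ) ^ 2 * ((bf E8 ((3 : ℤ) • w' - β • w) ((3 : ℤ) • w' - β • w) : ℤ) : ℚ) +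
        (9 * BY k k - 6 * (κ * β) * BY k y + (κ * β) ^ 2 * BY y y) = 18 * κ →
      0 ≤ 9 * BY k k - 6 * (κ * β) * BY k y + (κ * β) ^ 2 * BY y y →
      bf E8 ((3 : ℤ) • u - (κ * β) • V44) T44 = 0) :
    Conf (PF (sF F8 BY)) (PL ((Zk 8).prod K)) {2} (fun _ => 2) := by
  obtain ⟨hV1, hV2, -, hT, -⟩ := V44_facts
  have hPd : Pd (sF F8 BY) := Pd_F8.sF hBY
  refine cfg (X := (Fin 8 → ℚ) × Y) (BX := sF F8 BY) hPd (N := (Zk 8).prod K)
    (EvL_F8.prod hK) (i := 2) (by norm_num) (m := 3) (N₀ := N₀) (by norm_num) (v₈ := V44) hV1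
    (y := (cz w, y)) ⟨cz_mem w, hy⟩ ?_ (t₈ := T44) (tX := 0) (Or.inl hT) (u₀ := F1D_u) F1D_uD
    (k₀ := -1) F1D_uv ?_ ?_
  · rw [hV2, sF_apply]
    simp only
    rw [mF_cz]
    push_cast
    push_cast at hN
    linarith
  · rintro κ β u ⟨x, k⟩ ⟨⟨w₁, hw₁⟩, hk⟩ hκ hβ hu hd hdn hnorm
    simp only at hk hw₁
    have hx : x = cz w₁ := hw₁
    subst hx
    rw [map_zero, add_zero]
    have hw : ∃ w', w₁ = κ • w' := by
      apply MP_dcc566_gt.E8_unimod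
      intro v
      have h1 := hdn (cz v, 0) ⟨cz_mem v, K.zero_mem⟩
      rw [sF_apply] at h1
      simp only [map_zero, add_zero] at h1
      rw [mF_cz] at h1
      exact Dv_int.1 h1
    obtain ⟨w', rfl⟩ := hw
    have hpair : ((3 : ℤ) : ℚ) • ((cz (κ • w'), k) : (Fin 8 → ℚ) × Y) -
        ((κ * β : ℤ) : ℚ) • ((cz w, y) : (Fin 8 → ℚ) × Y) =
        ((κ : ℚ) • cz ((3 : ℤ) • w' - β • w), (3 : ℚ) • k - ((κ : ℚ) * β) • y) := by
      refine Prod.ext ?_ ?_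
      · simp only [Prod.fst_sub, Prod.smul_fst]
        funext j
        simp only [cz, Pi.sub_apply, Pi.smul_apply, smul_eq_mul]
        push_cast
        ring
      · simp only [Prod.snd_sub, Prod.smul_snd]
        push_cast
        rfl
    rw [hpair, sF_apply] at hnorm
    simp only at hnorm
    have e1 : F8 ((κ : ℚ) • cz ((3 : ℤ) • w' - β • w)) ((κ : ℚ) • cz ((3 : ℤ) • w' - β • w)) =
        (κ : ℚ) ^ 2 * ((bf E8 ((3 : ℤ) • w' - β • w) ((3 : ℤ) • w' - β • w) : ℤ) : ℚ) := by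
      rw [map_smul, map_smul, LinearMap.smul_apply, mF_cz, smul_eq_mul, smul_eq_mul]
      ring
    have e2 : BY ((3 : ℚ) • k - ((κ : ℚ) * β) • y) ((3 : ℚ) • k - ((κ : ℚ) * β) • y) =
        9 * BY k k - 6 * (κ * β) * BY k y + (κ * β) ^ 2 * BY y y := by
      rw [norm_sub_lin hBY.symm]
      ring
    rw [e1, e2] at hnorm
    have h0 := H κ β u w' k hk hκ hβ hu hd (by push_cast at hnorm ⊢; linarith)
      (by rw [← e2]; exact hBY.nonneg _)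
    exact_mod_cast h0
  · rintro κ u n hn hκ hu hd hdn hnorm hdv
    rw [map_zero, add_zero]
    by_cases h0 : u = 0
    · rw [h0, MP_dcc566_gt.bf_zero_left]
      norm_num
    · have h1 := d_min (Or.inr (Or.inl rfl)) hκ hu hd h0
      have h1' : (2 : ℚ) * κ ≤ ((bf E8 u u : ℤ) : ℚ) := by exact_mod_cast h1
      have h2 := hPd.nonneg n
      have h3 : sF F8 BY n n = 0 := by linarith
      have h4 : n = 0 := hPd.eq_zero h3
      have h5 : bf E8 u u = 2 * κ := by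
        rw [h3, add_zero] at hnorm
        exact_mod_cast hnorm
      rw [h4, map_zero, LinearMap.zero_apply, add_zero] at hdv
      have h6 := rt44 hκ hu hd h5 (Dv_int.1 hdv)
      exact_mod_cast h6

private theorem F1D_sq {β : ℤ} (hβ : ¬ (3 : ℤ) ∣ β) : ∃ c : ℤ, β ^ 2 = 3 * c + 1 := by
  rcases (by omega : β % 3 = 1 ∨ β % 3 = 2) with h | h
  · refine ⟨3 * (β / 3) ^ 2 + 2 * (β / 3), ?_⟩
    have : β = 3 * (β / 3) + 1 := by omega
    rw [this]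
    have e : (3 * (β / 3) + 1) / 3 = β / 3 := by omega
    rw [e]
    ring
  · refine ⟨3 * (β / 3) ^ 2 + 4 * (β / 3) + 1, ?_⟩
    have : β = 3 * (β / 3) + 2 := by omega
    rw [this]
    have e : (3 * (β / 3) + 2) / 3 = β / 3 := by omega
    rw [e]
    ring

/-- `v = (V44; w8; y)`, `(y,y) = 2 mod 6`, `m = 3`, `t = (T44; 0; 0)`.

PROOF.  `cfg` with `i = 2`; `X = (Fin 8 → ℚ) × Y`, `BX = sF F8 BY`, `N = (Zk 8).prod K`, `n = (cz w, k)`; `N₀ = (16 + (y,y))/6`; `u₀` with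
`DH 2 u₀`, `bf V44 u₀ = -2`: standard coordinates `(-1,-1,0,0,0,0,0,0)`.
`κ ∣ (n,n')`: `w = κ w'` (`E8_unimod`) and `κ ∣ (k,k')`.
H1.  `R = (R_D, R_E, R_K)`; `R_E = κ (3w' - β w8)`, `bf R_E R_E ≥ 8κ²` (`class8`); `blk44`.  Total `18κ`.  `κ` odd: `16κ² ≤ 18κ`, `κ = 1`;
`(R_K,R_K) = 2 mod 6` is at least 2, so `bf R_D R_D ≤ 8`, `= 8`, and `blk44_eq`.  `κ = 2κ₁`: `8κ₁² + 32κ₁² ≤ 36κ₁` impossible.
`(R,t) = bf R_D T44 = 0`.
H2.  `s = (u,(cz w,k))`; `(s,t) = bf u T44`.  If `u = 0` fine.  Otherwise `d_min`: `bf u u ≥ 2κ`, so `= 2κ`, `w = 0`, `k = 0`, and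
`3κ ∣ bf u V44`: `rt44`. -/
theorem confF1D1 {BY : Frm Y} (hBY : Pd BY) {K : AddSubgroup Y} (hK : EvL BY K) {y : Y}
    (hy : y ∈ K) (hy2 : Dv 6 (BY y y - 2)) :
    Conf (PF (sF F8 BY)) (PL ((Zk 8).prod K)) {2} (fun _ => 2) := by
  obtain ⟨c, hc⟩ := hy2
  have hyy : BY y y = 6 * c + 2 := by
    push_cast at hc
    linarith
  refine F1D_core hBY hK hy (w := w8) (N₀ := 3 + c) ?_ ?_
  · rw [MP_dcc566_gt.norm_w8, hyy]
    push_cast
    ring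
  · intro κ β u w' k hk hκ hβ hu hd h1 h2
    obtain ⟨a, ha⟩ := hK k hk
    obtain ⟨b, hb⟩ := EvL.isZ hBY.symm hK hk hy
    obtain ⟨e, he⟩ := F1D_sq hβ
    have hE := MP_dcc566_gt.class8 w' hβ
    obtain ⟨hD1, hD2⟩ := blk44 hκ hβ hu hd
    obtain ⟨D, hD⟩ : ∃ D, D = bf E8 ((3 : ℤ) • u - (κ * β) • V44)
      ((3 : ℤ) • u - (κ * β) • V44) := ⟨_, rfl⟩
    obtain ⟨W, hW⟩ : ∃ W, W = bf E8 ((3 : ℤ) • w' - β • w8) ((3 : ℤ) • w' - β • w8) := ⟨_, rfl⟩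
    rw [← hD] at h1 hD1 hD2
    rw [← hW] at h1 hE
    rw [ha, hb, hyy] at h1 h2
    have h1' : D + κ ^ 2 * W +
        (9 * (2 * a) - 6 * (κ * β) * b + (κ * β) ^ 2 * (6 * c + 2)) = 18 * κ := by
      exact_mod_cast h1
    have h2' : 0 ≤ 9 * (2 * a) - 6 * (κ * β) * b + (κ * β) ^ 2 * (6 * c + 2) := by
      exact_mod_cast h2
    rcases Int.even_or_odd κ with hev | hodd
    · exfalso
      obtain ⟨κ₁, hκ₁⟩ := hev
      have hκ2 : κ = 2 * κ₁ := by omega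
      have h3 := hD2 κ₁ hκ2
      subst hκ2
      have h4 : 1 ≤ κ₁ := by omega
      nlinarith
    · have h3 := hD1 hodd
      have hκ1 : κ = 1 := by
        by_contra hne
        have h4 : 2 ≤ κ := by omega
        nlinarith
      subst hκ1
      refine blk44_eq (Or.inl rfl) hβ hu hd ?_
      rw [← hD]
      have h5 : 9 * (2 * a) - 6 * (1 * β) * b + (1 * β) ^ 2 * (6 * c + 2) =
          6 * (3 * a - β * b + e + 3 * e * c + c) + 2 := by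
        rw [one_mul, he]
        ring
      rw [h5] at h1' h2'
      omega

/-- `v = (V44; w6; y)`, `(y,y) = 4 mod 6`, `m = 3`, `t = (T44; 0; 0)`.

PROOF.  As `confF1D1`, `N₀ = (14 + (y,y))/6`.  `bf R_E R_E ≥ 6κ²` (`class6`).  `κ` odd: `8κ² + 6κ² ≤ 18κ`, so `κ = 1`; `(R_K,R_K) = 4 mod 6`, `≥ 4`:
`8 + 6 + 4 = 18`, so `bf R_D R_D = 8`, `blk44_eq`.  `κ = 2κ₁`: `8κ₁² + 24κ₁² ≤ 36κ₁`, so `κ₁ = 1`, `κ = 2`: `R_K = 3k - 2βy`, norm
`9(k,k) - 12β(k,y) + 4β²(y,y) = 4 mod 6`, so `≥ 4`; `8 + 24 + 4 = 36`, `bf R_D R_D = 8`, `blk44_eq`.  H2 as `confF1D1`. -/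
theorem confF1D2 {BY : Frm Y} (hBY : Pd BY) {K : AddSubgroup Y} (hK : EvL BY K) {y : Y}
    (hy : y ∈ K) (hy2 : Dv 6 (BY y y - 4)) :
    Conf (PF (sF F8 BY)) (PL ((Zk 8).prod K)) {2} (fun _ => 2) := by
  obtain ⟨c, hc⟩ := hy2
  have hyy : BY y y = 6 * c + 4 := by
    push_cast at hc
    linarith
  refine F1D_core hBY hK hy (w := w6) (N₀ := 3 + c) ?_ ?_
  · rw [MP_dcc566_gt.norm_w6, hyy]
    push_cast
    ring
  · intro κ β u w' k hk hκ hβ hu hd h1 h2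
    obtain ⟨a, ha⟩ := hK k hk
    obtain ⟨b, hb⟩ := EvL.isZ hBY.symm hK hk hy
    obtain ⟨e, he⟩ := F1D_sq hβ
    have hE := MP_dcc566_gt.class6 w' hβ
    obtain ⟨hD1, hD2⟩ := blk44 hκ hβ hu hd
    obtain ⟨D, hD⟩ : ∃ D, D = bf E8 ((3 : ℤ) • u - (κ * β) • V44)
      ((3 : ℤ) • u - (κ * β) • V44) := ⟨_, rfl⟩
    obtain ⟨W, hW⟩ : ∃ W, W = bf E8 ((3 : ℤ) • w' - β • w6) ((3 : ℤ) • w' - β • w6) := ⟨_, rfl⟩
    rw [← hD] at h1 hD1 hD2
    rw [← hW] at h1 hE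
    rw [ha, hb, hyy] at h1 h2
    have h1' : D + κ ^ 2 * W +
        (9 * (2 * a) - 6 * (κ * β) * b + (κ * β) ^ 2 * (6 * c + 4)) = 18 * κ := by
      exact_mod_cast h1
    have h2' : 0 ≤ 9 * (2 * a) - 6 * (κ * β) * b + (κ * β) ^ 2 * (6 * c + 4) := by
      exact_mod_cast h2
    rcases Int.even_or_odd κ with hev | hodd
    · obtain ⟨κ₁, hκ₁⟩ := hev
      have hκ2 : κ = 2 * κ₁ := by omega
      have h3 := hD2 κ₁ hκ2
      have h4 : 1 ≤ κ₁ := by omega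
      have h5 : κ₁ = 1 := by
        by_contra hne
        have h6 : 2 ≤ κ₁ := by omega
        rw [hκ2] at h1' h2'
        nlinarith
      rw [h5, mul_one] at hκ2
      subst hκ2
      refine blk44_eq (Or.inr rfl) hβ hu hd ?_
      rw [← hD]
      have h7 : 9 * (2 * a) - 6 * (2 * β) * b + (2 * β) ^ 2 * (6 * c + 4) =
          6 * (3 * a - 2 * β * b + 4 * c + 12 * e * c + 8 * e + 2) + 4 := by
        rw [mul_pow, he]
        ring
      rw [h7] at h1' h2'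
      rw [h5] at h3
      omega
    · have h3 := hD1 hodd
      have hκ1 : κ = 1 := by
        by_contra hne
        have h4 : 2 ≤ κ := by omega
        nlinarith
      subst hκ1
      refine blk44_eq (Or.inl rfl) hβ hu hd ?_
      rw [← hD]
      have h5 : 9 * (2 * a) - 6 * (1 * β) * b + (1 * β) ^ 2 * (6 * c + 4) =
          6 * (3 * a - β * b + 2 * e + 3 * e * c + c) + 4 := by
        rw [one_mul, he]
        ring
      rw [h5] at h1' h2'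
      omega

end Pool.Agent.RFN
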