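import Mathlib
import Pool.Agent.Lib.MP_dcc566_gt_R.Scl2

/-!
# `U ⊕ M`, `M ⊂ E₈ ⊕ E₈ ⊕ K` cut out by four diagonal vectors
-/

set_option autoImplicit false

namespace Pool.Agent.RFN

open MP_dcc566_gt (bf E8)

variable {Y : Type} [AddCommGroup Y] [Module ℚ Y]

/-- PROOF.  `sclA` with `S = {2}`, `i = 4`, `X = (Fin 8 → ℚ) × Y`, `N = (Zk 8).prod K`, `x p k = hh k`, `y p k = (cz (hh k), 0)`, `t₈ = hh 0`.
`hy`: `TS_hh` is for the space `(Fin 8 → ℚ) × X'` with `X' = Y`, `N' = K`: `TS (sF F8 BY) ((Zk 8).prod K) 2 4 (fun k => (cz (hh k), 0))`, exactly what is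
needed.  `hp`, `hn`: products 2, norms 4 (`decide`).  `ht`: a root `ρ` with `2 ∣ bf (hh k) ρ` for `k < 4` satisfies `DH 4 ρ`, so
`4 ∣ bf ρ ρ = 2` (`norm_four`): impossible. -/
theorem confF1E {BY : Frm Y} (hBY : Pd BY) {K : AddSubgroup Y} (hK : EvL BY K) :
    Conf (PF (sF F8 BY)) (PL ((Zk 8).prod K)) {2} (fun _ => 4) := by
  have hpair : ∀ k < 4, ∀ l < 4, (2 : ℤ) ∣ bf E8 (hh k) (hh l) := by
    intro k hk l hl
    interval_cases k <;> interval_cases l <;> decide
  have hnorm : ∀ k < 4, bf E8 (hh k) (hh k) = 4 := by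
    intro k hk
    interval_cases k <;> decide
  refine sclA (BX := sF F8 BY) (N := (Zk 8).prod K) (Pd_F8.sF hBY) (EvL_F8.prod hK) (S := {2})
    ?_ (i := fun _ => 4) (x := fun _ k => hh k) (y := fun _ k => (cz (hh k), (0 : Y))) ?_ ?_ ?_
    (t₈ := hh 0) ?_ ?_
  · intro p hp
    rw [Finset.mem_singleton] at hp
    rw [hp]
    exact Nat.prime_two
  · intro p hp k hk l hl
    rw [Finset.mem_singleton] at hp
    rw [hp]
    exact hpair k hk l hl
  · intro p hp k hk
    rw [Finset.mem_singleton] at hp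
    rw [hp, hnorm k hk]
    exact ⟨1, by norm_num⟩
  · intro p hp
    rw [Finset.mem_singleton] at hp
    rw [hp]
    exact TS_hh le_rfl
  · intro h
    have h1 := congrFun h 1
    have h2 : hh 0 1 = 1 := rfl
    rw [h2] at h1
    exact absurd h1 (by decide)
  · intro ρ hρ h
    exfalso
    have h1 : DH 4 ρ := fun k hk => h 2 (Finset.mem_singleton_self 2) k hk
    have h2 := norm_four h1
    rw [hρ] at h2
    exact absurd h2 (by decide)

end Pool.Agent.RFN
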