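import Mathlib
import Pool.Agent.Lib.MP_dcc566_gt_R.FamA
import Pool.Agent.Lib.MP_dcc566_gt_R.Ext
import Pool.Agent.Lib.MP_dcc566_gt_R.F1C
import Pool.Agent.Lib.MP_dcc566_gt_R.F1D
import Pool.Agent.Lib.MP_dcc566_gt_R.F1E

/-!
# The family `E₈ ⊕ K`
-/

set_option autoImplicit false

namespace Pool.Agent.RFN

open MP_dcc566_gt (bf E8)

variable {Y : Type} [AddCommGroup Y] [Module ℚ Y]

/-- PROOF.  `y ∈ K` with norm an even integer not divisible by 6: `= 2` or `4 mod 6`.  `c1`: `confF1C1` or `confF1C2`; `c2`: `confF1D1` or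
`confF1D2`; `c4`: `confF1E`.  `y8`: `y₈ = (cz w8, 0)`, norm 8; `n = (cz (Pi.single 1 1), 0)` (`bf_w8`: product 1).  Let `u = (cz a, b) ∈ N`, `3 ∤ c`,
`3 ∣ (u - c y₈, n)` for all `n`: with `n = (cz v, 0)`: `3 ∣ bf (a - c w8) v`, `a - c w8 = 3a'` (`E8_unimod`), `a = 3a' - (-c) w8`, `class8`:
`bf a a ≥ 8`, so the norm of `u` is `≥ 8`. -/
theorem fam1 {BY : Frm Y} (hBY : Pd BY) {K : AddSubgroup Y} (hK : EvL BY K)
    (hy : ∃ y ∈ K, ¬ Dv 6 (BY y y)) : FamOK (sF F8 BY) ((Zk 8).prod K) := by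
  obtain ⟨y, hyK, hy6⟩ := hy
  obtain ⟨a, ha⟩ := hK y hyK
  have hcase : Dv 6 (BY y y - 2) ∨ Dv 6 (BY y y - 4) := by
    have h0 : ¬ (6 : ℤ) ∣ 2 * a := by
      rintro ⟨c, hc⟩
      refine hy6 ⟨c, ?_⟩
      rw [ha]
      exact_mod_cast hc
    have h1 : 2 * a % 6 = 2 ∨ 2 * a % 6 = 4 := by omega
    rcases h1 with h1 | h1
    · refine Or.inl ⟨2 * a / 6, ?_⟩
      have h2 : 2 * a - 2 = 6 * (2 * a / 6) := by omega
      rw [ha]
      exact_mod_cast h2
    · refine Or.inr ⟨2 * a / 6, ?_⟩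
      have h2 : 2 * a - 4 = 6 * (2 * a / 6) := by omega
      rw [ha]
      exact_mod_cast h2
  refine ⟨Pd_F8.sF hBY, EvL_F8.prod hK, ?_, ?_, confF1E hBY hK, ?_⟩
  · rcases hcase with h | h
    · exact Or.inl (confF1C1 hBY hK hyK h)
    · exact Or.inl (confF1C2 hBY hK hyK h)
  · rcases hcase with h | h
    · exact confF1D1 hBY hK hyK h
    · exact confF1D2 hBY hK hyK h
  · refine ⟨(cz MP_dcc566_gt.w8, 0), ⟨cz_mem _, K.zero_mem⟩, ?_, ?_, ?_⟩
    · rw [sF_apply, mF_cz, MP_dcc566_gt.norm_w8]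
      exact ⟨1, by simp; norm_num⟩
    · refine ⟨(cz (Pi.single 1 1), 0), ⟨cz_mem _, K.zero_mem⟩, ?_⟩
      rw [sF_apply, mF_cz, MP_dcc566_gt.E8_comm, MP_dcc566_gt.bf_w8]
      simp only [map_zero, add_zero, Pi.single_eq_same]
      rw [Dv_int]
      decide
    · rintro ⟨x, b⟩ ⟨hx, hb⟩ c hc h heq
      obtain ⟨v, rfl⟩ : ∃ v, x = cz v := hx
      obtain ⟨a', ha'⟩ := MP_dcc566_gt.E8_unimod (k := 3) (u := v - c • MP_dcc566_gt.w8)
        (fun w => by
          have h1 := h (cz w, 0) ⟨cz_mem w, K.zero_mem⟩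
          rw [sF_apply] at h1
          simp only [Prod.smul_mk, Prod.mk_sub_mk, map_zero, add_zero] at h1
          rw [← cz_smul, ← cz_sub, mF_cz] at h1
          exact Dv_int.1 h1)
      have hv : v = (3 : ℤ) • a' - (-c) • MP_dcc566_gt.w8 := by
        rw [← ha', neg_smul]
        abel
      have hc' : ¬ (3 : ℤ) ∣ -c := by
        rwa [dvd_neg]
      have h8 := MP_dcc566_gt.class8 a' hc'
      rw [← hv] at h8
      have h9 := hBY.nonneg b
      rw [sF_apply] at heq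
      simp only at heq
      rw [mF_cz] at heq
      have h10 : ((bf E8 v v : ℤ) : ℚ) ≤ 2 := by linarith
      have h11 : bf E8 v v ≤ 2 := by exact_mod_cast h10
      omega

end Pool.Agent.RFN
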