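import Mathlib
import Pool.Agent.Lib.MP_dcc566_gt_R.FamA
import Pool.Agent.Lib.MP_dcc566_gt_R.Ext
import Pool.Agent.Lib.MP_dcc566_gt_R.F2

/-!
# The family `E₆ ⊕ T`
-/

set_option autoImplicit false

namespace Pool.Agent.RFN

open MP_dcc566_gt (bf E8)

variable {Y : Type} [AddCommGroup Y] [Module ℚ Y]

private theorem Fam2_val {BT : Frm Y} (u v : Fin 6 → ℤ) (k l : Y) :
    sF (mF E6) BT (cz u, k) (cz v, l) = ((bf E6 u v : ℤ) : ℚ) + BT k l := by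
  rw [sF_apply]
  exact congrArg (· + BT k l) (mF_cz _ u v)

/-- PROOF.  `c1`: right, `conf_zero (badF2A ..)`; `c2`: `confF2D`; `c4`: `confF2E`.  `y8`: `hz` gives `z ∈ T`, `6 ∣ (z,z)`, not in the radical
mod 3; `y₈ = (cz rh6, z)`, norm `2 + (z,z)`; `n = (0, n')` with `3 ∤ (z,n')`.  Let `u = (cz a, b)`, `3 ∤ c`, `3 ∣ (u - c y₈, n)`: `3 ∣ bf (a - c rh6) v` for all
`v`; `a ≠ 0` (otherwise `v = rh6` gives `3 ∣ 2c`), so `bf a a ≥ 2`; `3 ∣ (b - c z, n')` for all `n' ∈ T`, so `b ≠ 0` (otherwise `3 ∣ c (z,n')`), `(b,b) > 0`.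
So the norm is `> 2`. -/
theorem fam2 {BT : Frm Y} (hBT : Pd BT) {T : AddSubgroup Y} (hT : EvL BT T)
    (hz : ∃ z ∈ T, Dv 6 (BT z z) ∧ ∃ n ∈ T, ¬ Dv 3 (BT z n)) :
    FamOK (sF (mF E6) BT) ((Zk 6).prod T) := by
  obtain ⟨z, hzT, hz6, n', hn'T, hn'3⟩ := hz
  refine ⟨Pd_F6.sF hBT, EvL_F6.prod hT, Or.inr (conf_zero (badF2A hBT hT) {2}), confF2D hBT hT,
    confF2E hBT hT, (cz rh6, z), ⟨cz_mem _, hzT⟩, ?_, ⟨((0 : Fin 6 → ℚ), n'),
      ⟨(Zk 6).zero_mem, hn'T⟩, ?_⟩, ?_⟩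
  · rw [Fam2_val, E6_vals.1]
    have h1 : (((2 : ℤ) : ℤ) : ℚ) + BT z z - 2 = BT z z := by
      push_cast
      ring
    rw [h1]
    exact hz6
  · rw [sF_apply]
    simp only [map_zero, zero_add]
    exact hn'3
  · rintro ⟨x, b⟩ ⟨⟨a, ha⟩, hb⟩ c hc hd hn
    have hx : x = cz a := ha
    subst hx
    have hbT : b ∈ T := hb
    have e1 : ((cz a, b) : (Fin 6 → ℚ) × Y) - (c : ℚ) • ((cz rh6, z) : (Fin 6 → ℚ) × Y) =
        (cz (a - c • rh6), b - (c : ℚ) • z) := by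
      refine Prod.ext ?_ ?_
      · rw [cz_sub, cz_smul]
        rfl
      · rfl
    rw [e1] at hd
    have ha0 : a ≠ 0 := by
      rintro rfl
      apply hc
      have h1 := hd (cz rh6, 0) ⟨cz_mem _, T.zero_mem⟩
      rw [Fam2_val, map_zero, add_zero, zero_sub] at h1
      have h2 : (3 : ℤ) ∣ bf E6 (-(c • rh6)) rh6 := Dv_int.1 h1
      have h3 : bf E6 (-(c • rh6)) rh6 = -(c * 2) := by
        rw [MP_dcc566_gt.bf_neg_left, MP_dcc566_gt.bf_smul_left, E6_vals.1]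
      rw [h3] at h2
      omega
    have hb0 : b ≠ 0 := by
      rintro rfl
      apply hn'3
      have h1 := hd ((0 : Fin 6 → ℚ), n') ⟨(Zk 6).zero_mem, hn'T⟩
      rw [sF_apply] at h1
      simp only [map_zero, zero_add, zero_sub, map_neg, map_smul, LinearMap.neg_apply,
        LinearMap.smul_apply, smul_eq_mul] at h1
      obtain ⟨k, hk⟩ := hT.isZ hBT.symm hzT hn'T
      rw [hk] at h1 ⊢
      have h2 : (3 : ℤ) ∣ -(c * k) := by
        apply Dv_int.1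
        push_cast
        exact h1
      have h3 : (3 : ℤ) ∣ c * k := (dvd_neg).1 h2
      rcases Int.prime_three.dvd_or_dvd h3 with h4 | h4
      · exact absurd h4 hc
      · exact Dv_int.2 h4
    rw [Fam2_val] at hn
    have h1 := hBT.pos b hb0
    obtain ⟨k, hk⟩ := E6_even a
    have h2 := E6_pos a ha0
    have h3 : (2 : ℤ) ≤ bf E6 a a := by omega
    have h4 : (2 : ℚ) ≤ ((bf E6 a a : ℤ) : ℚ) := by exact_mod_cast h3
    linarith

end Pool.Agent.RFN
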