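import Mathlib
import Pool.Agent.Lib.MP_dcc566_gt_R.Cfg
import Pool.Agent.Lib.MP_dcc566_gt_R.E8Da
import Pool.Agent.Lib.MP_dcc566_gt_R.E8Db
import Pool.Agent.Lib.MP_dcc566_gt_R.E7F

/-!
# Lattices containing `U ⊕ E₈ ⊕ E₇`, complement not representing 2
-/

set_option autoImplicit false

namespace Pool.Agent.RFN

open MP_dcc566_gt (bf E8 w8)

variable {Y : Type} [AddCommGroup Y] [Module ℚ Y]

/-- The third family: `N` contains `E₇`, the space `Y` does not represent 2. -/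
structure F3N (BY : Frm Y) (N : AddSubgroup ((Fin 7 → ℚ) × Y)) : Prop where
  pd : Pd BY
  even : EvL (sF (mF E7) BY) N
  e7 : ∀ x ∈ Zk 7, (x, (0 : Y)) ∈ N
  no2 : ∀ y, BY y y ≠ 2
  ex : ∃ y, ((0 : Fin 7 → ℚ), y) ∈ N ∧ Dv 6 (BY y y - 2)

private theorem F3_symm {BY : Frm Y} (h : Pd BY) (x y : (Fin 7 → ℚ) × Y) :
    sF (mF E7) BY x y = sF (mF E7) BY y x := sF_symm Pd_F7.symm h.symm x y

private theorem F3_isZ {BY : Frm Y} {N : AddSubgroup ((Fin 7 → ℚ) × Y)} (h : F3N BY N)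
    {x y : (Fin 7 → ℚ) × Y} (hx : x ∈ N) (hy : y ∈ N) : IsZ (sF (mF E7) BY x y) :=
  EvL.isZ (F3_symm h.pd) h.even hx hy

private theorem F3_dual {BY : Frm Y} {N : AddSubgroup ((Fin 7 → ℚ) × Y)} (h : F3N BY N)
    {z : (Fin 7 → ℚ) × Y} (hz : z ∈ N) : z.1 ∈ Zk 7 ∨ z.1 - om7 ∈ Zk 7 := by
  refine E7_dual fun u => ?_
  have h1 := F3_isZ h hz (h.e7 (cz u) (cz_mem u))
  rw [sF_apply, map_zero, add_zero] at h1
  exact h1

/-- the norm is not `1/2` -/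
private theorem F3_half {BY : Frm Y} {N : AddSubgroup ((Fin 7 → ℚ) × Y)} (h : F3N BY N) (y : Y) :
    BY y y ≠ 1 / 2 := by
  intro h1
  apply h.no2 ((2 : ℚ) • y)
  simp only [map_smul, LinearMap.smul_apply, smul_eq_mul]
  rw [h1]
  norm_num

private theorem F3_coset {BY : Frm Y} {N : AddSubgroup ((Fin 7 → ℚ) × Y)} (h : F3N BY N)
    {z : (Fin 7 → ℚ) × Y} (hz : z ∈ N) (hz1 : z.1 - om7 ∈ Zk 7) :
    ∃ n : ℤ, 1 ≤ n ∧ BY z.2 z.2 = 1 / 2 + 2 * n := by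
  obtain ⟨m, hm⟩ := h.even z hz
  obtain ⟨n, hn, hn0⟩ := E7_coset_norm hz1
  rw [sF_apply, hn] at hm
  have h1 : BY z.2 z.2 = 1 / 2 + 2 * ((m - n - 1 : ℤ) : ℚ) := by
    push_cast at hm ⊢
    linarith
  refine ⟨m - n - 1, ?_, h1⟩
  have h2 := h.pd.nonneg z.2
  rw [h1] at h2
  have h3 : (-1 : ℚ) < ((m - n - 1 : ℤ) : ℚ) := by linarith
  have h4 : (-1 : ℤ) < m - n - 1 := by exact_mod_cast h3
  by_contra h5
  have h6 : m - n - 1 = 0 := by omega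
  rw [h6] at h1
  apply F3_half h z.2
  rw [h1]
  norm_num

private theorem F3_zero {BY : Frm Y} {N : AddSubgroup ((Fin 7 → ℚ) × Y)} (h : F3N BY N)
    {y : Y} (hy : ((0 : Fin 7 → ℚ), y) ∈ N) : Dv 2 (BY y y) := by
  have h1 := h.even _ hy
  rw [sF_apply, map_zero, zero_add] at h1
  exact h1

private theorem F3_prod {BY : Frm Y} {N : AddSubgroup ((Fin 7 → ℚ) × Y)} (h : F3N BY N)
    {z : (Fin 7 → ℚ) × Y} (hz : z ∈ N) {y : Y} (hy : ((0 : Fin 7 → ℚ), y) ∈ N) :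
    IsZ (BY z.2 y) := by
  have h1 := F3_isZ h hz hy
  rw [sF_apply, map_zero, zero_add] at h1
  exact h1

private theorem F3_sq {β : ℤ} (hβ : ¬ (3 : ℤ) ∣ β) : ∃ k : ℤ, β ^ 2 = 1 + 3 * k := by
  have h1 : β % 3 = 1 ∨ β % 3 = 2 := by omega
  rcases h1 with h1 | h1
  · obtain ⟨t, ht⟩ : ∃ t, β = 3 * t + 1 := ⟨β / 3, by omega⟩
    exact ⟨3 * t ^ 2 + 2 * t, by rw [ht]; ring⟩
  · obtain ⟨t, ht⟩ : ∃ t, β = 3 * t + 2 := ⟨β / 3, by omega⟩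
    exact ⟨3 * t ^ 2 + 4 * t + 1, by rw [ht]; ring⟩

/-- Elements of `N`.

PROOF.  For `(x,y) ∈ N` products with `(cz u, 0) ∈ N` are integers, so `E7_dual`.  If `x ∈ Zk 7`: `(0,y) = (x,y) - (x,0) ∈ N`, `(y,y)` is an
even integer, nonnegative, not 2: it is 0 (then `y = 0`) or `≥ 4`.  Otherwise `(x,x) = 3/2 + 2n` (`E7_coset_norm`), so
`(y,y) = even - (x,x) = 1/2 mod 2`, nonnegative; if it were `1/2`, `(2y,2y) = 2`; so `≥ 5/2`. -/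
theorem F3N.cases {BY : Frm Y} {N : AddSubgroup ((Fin 7 → ℚ) × Y)} (h : F3N BY N)
    {z : (Fin 7 → ℚ) × Y} (hz : z ∈ N) :
    (z.1 ∈ Zk 7 ∧ ((0 : Fin 7 → ℚ), z.2) ∈ N ∧ Dv 2 (BY z.2 z.2) ∧
        (z.2 = 0 ∨ 4 ≤ BY z.2 z.2)) ∨
      (z.1 - om7 ∈ Zk 7 ∧ (∃ n : ℤ, BY z.2 z.2 = 1 / 2 + 2 * n) ∧ 5 / 2 ≤ BY z.2 z.2) := by
  rcases F3_dual h hz with h1 | h1
  · left
    have h2 : ((0 : Fin 7 → ℚ), z.2) ∈ N := by
      have h3 := N.sub_mem hz (h.e7 z.1 h1)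
      have h4 : z - (z.1, (0 : Y)) = ((0 : Fin 7 → ℚ), z.2) := by
        ext1
        · simp
        · simp
      rwa [h4] at h3
    have h3 := F3_zero h h2
    refine ⟨h1, h2, h3, ?_⟩
    obtain ⟨n, hn⟩ := h3
    have h4 := h.pd.nonneg z.2
    rw [hn] at h4
    have h5 : (0 : ℚ) ≤ (n : ℚ) := by
      push_cast at h4
      linarith
    have h6 : (0 : ℤ) ≤ n := by exact_mod_cast h5
    have h7 : n ≠ 1 := by
      rintro rfl
      exact h.no2 z.2 (by rw [hn]; norm_num)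
    rcases (by omega : n = 0 ∨ 2 ≤ n) with h8 | h8
    · left
      rw [h8] at hn
      exact h.pd.eq_zero (by rw [hn]; norm_num)
    · right
      rw [hn]
      have h9 : (2 : ℚ) ≤ n := by exact_mod_cast h8
      push_cast
      linarith
  · right
    obtain ⟨n, hn1, hn⟩ := F3_coset h hz h1
    refine ⟨h1, ⟨n, hn⟩, ?_⟩
    rw [hn]
    have h9 : (1 : ℚ) ≤ n := by exact_mod_cast hn1
    linarith

/-- `T`-part, integral coset: for `(0,y), (0,y') ∈ N`, `(y,y) = 2 mod 6`, `3 ∤ β`: `(3y' - βy)` has norm `2 mod 6` and not 2, so `≥ 8`,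
more precisely it is `8` or `≥ 14`. -/
theorem F3N.t_int {BY : Frm Y} {N : AddSubgroup ((Fin 7 → ℚ) × Y)} (h : F3N BY N) {y y' : Y}
    (hy : ((0 : Fin 7 → ℚ), y) ∈ N) (hy' : ((0 : Fin 7 → ℚ), y') ∈ N) (h2 : Dv 6 (BY y y - 2))
    {β : ℤ} (hβ : ¬ (3 : ℤ) ∣ β) :
    BY ((3 : ℚ) • y' - (β : ℚ) • y) ((3 : ℚ) • y' - (β : ℚ) • y) = 8 ∨
      14 ≤ BY ((3 : ℚ) • y' - (β : ℚ) • y) ((3 : ℚ) • y' - (β : ℚ) • y) := by
  obtain ⟨a, ha⟩ := F3_zero h hy'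
  obtain ⟨c, hc⟩ := F3_prod h hy' hy
  obtain ⟨m, hm⟩ := h2
  obtain ⟨k, hk⟩ := F3_sq hβ
  have hkq : (β : ℚ) ^ 2 = 1 + 3 * k := by exact_mod_cast hk
  have h0 := h.pd.nonneg ((3 : ℚ) • y' - (β : ℚ) • y)
  have hne := h.no2 ((3 : ℚ) • y' - (β : ℚ) • y)
  rw [norm_sub_lin h.pd.symm] at h0 hne ⊢
  have h1 : BY y y = 2 + 6 * m := by
    push_cast at hm
    linarith
  have hcc : BY y' y = c := hc
  have h3 : (3 : ℚ) ^ 2 * BY y' y' - 2 * 3 * (β : ℚ) * BY y' y + (β : ℚ) ^ 2 * BY y y =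
      2 + 6 * ((3 * a - β * c + k + m * (1 + 3 * k) : ℤ) : ℚ) := by
    rw [ha, hcc, h1, hkq]
    push_cast
    ring
  rw [h3] at h0 hne ⊢
  set n := 3 * a - β * c + k + m * (1 + 3 * k) with hn
  have h4 : (-1 : ℚ) < (n : ℚ) := by linarith
  have h5 : (-1 : ℤ) < n := by exact_mod_cast h4
  have h6 : n ≠ 0 := by
    intro h7
    apply hne
    rw [h7]
    norm_num
  rcases (by omega : n = 1 ∨ 2 ≤ n) with h8 | h8
  · left
    rw [h8]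
    norm_num
  · right
    have h9 : (2 : ℚ) ≤ n := by exact_mod_cast h8
    linarith

/-- `T`-part, other coset.

PROOF.  `R = 3y' - βy`, norm `9 (y',y') - 6β (y',y) + β²(y,y)`; `(y',y)` is an integer (`(x,y')` and `(0,y)` are in `N`), `(y',y') = 1/2 + 2n`,
`(y,y) = 2 mod 6`: the norm is `9/2 + 2 = 1/2 mod 6`, positive, and not `1/2` (`no2` for `2R`): it is `13/2` or `≥ 25/2`. -/
theorem F3N.t_half {BY : Frm Y} {N : AddSubgroup ((Fin 7 → ℚ) × Y)} (h : F3N BY N) {y : Y}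
    (hy : ((0 : Fin 7 → ℚ), y) ∈ N) (h2 : Dv 6 (BY y y - 2)) {z : (Fin 7 → ℚ) × Y} (hz : z ∈ N)
    (hz1 : z.1 - om7 ∈ Zk 7) {β : ℤ} (hβ : ¬ (3 : ℤ) ∣ β) :
    BY ((3 : ℚ) • z.2 - (β : ℚ) • y) ((3 : ℚ) • z.2 - (β : ℚ) • y) = 13 / 2 ∨
      25 / 2 ≤ BY ((3 : ℚ) • z.2 - (β : ℚ) • y) ((3 : ℚ) • z.2 - (β : ℚ) • y) := by
  obtain ⟨a, -, ha⟩ := F3_coset h hz hz1
  obtain ⟨c, hc⟩ := F3_prod h hz hy
  obtain ⟨m, hm⟩ := h2
  obtain ⟨k, hk⟩ := F3_sq hβ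
  have hkq : (β : ℚ) ^ 2 = 1 + 3 * k := by exact_mod_cast hk
  have h0 := h.pd.nonneg ((3 : ℚ) • z.2 - (β : ℚ) • y)
  have hne := F3_half h ((3 : ℚ) • z.2 - (β : ℚ) • y)
  rw [norm_sub_lin h.pd.symm] at h0 hne ⊢
  have h1 : BY y y = 2 + 6 * m := by
    push_cast at hm
    linarith
  have h3 : (3 : ℚ) ^ 2 * BY z.2 z.2 - 2 * 3 * (β : ℚ) * BY z.2 y + (β : ℚ) ^ 2 * BY y y =
      1 / 2 + 6 * ((1 + 3 * a - β * c + k + m * (1 + 3 * k) : ℤ) : ℚ) := by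
    rw [ha, hc, h1, hkq]
    push_cast
    ring
  rw [h3] at h0 hne ⊢
  set n := 1 + 3 * a - β * c + k + m * (1 + 3 * k) with hn
  have h4 : (-1 : ℚ) < (n : ℚ) := by linarith
  have h5 : (-1 : ℤ) < n := by exact_mod_cast h4
  have h6 : n ≠ 0 := by
    intro h7
    apply hne
    rw [h7]
    norm_num
  rcases (by omega : n = 1 ∨ 2 ≤ n) with h8 | h8
  · left
    rw [h8]
    norm_num
  · right
    have h9 : (2 : ℚ) ≤ n := by exact_mod_cast h8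
    linarith

/-- The two minimal cases exclude each other.

PROOF.  Let `a' = 3y' - β'y` of norm 8 and `b' = 3 z.2 - β y` of norm `13/2`.  Choose signs `s, s' = ±1` with `s'β' = sβ mod 3`, `a = s' a'`, `b = s b'`:
`a - b = 3w` with `w = s' y' - s z.2 + ((sβ - s'β')/3) y`, so `(x, w) ∈ N` with `x` in the coset (`x = -s z.1`; `-om7 - om7 ∈ Zk 7`).
`9 (w,w) = 8 + 13/2 - 2(a,b)`, `(a,b)² ≤ 52`, so `9 (w,w) ≤ 29/2 + 2·7.22 < 28.95` and `(w,w) ≥ 5/2`, `(w,w) = 1/2 mod 2`: `(w,w) = 5/2`, `(a,b) = -4`.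
`c = b + w`: `(b,w) = ((a,b) - (b,b))/3 = -7/2`, `(c,c) = 13/2 - 7 + 5/2 = 2`, against `no2`. -/
theorem F3N.excl {BY : Frm Y} {N : AddSubgroup ((Fin 7 → ℚ) × Y)} (h : F3N BY N) {y y' : Y}
    (hy : ((0 : Fin 7 → ℚ), y) ∈ N) (hy' : ((0 : Fin 7 → ℚ), y') ∈ N) (h2 : Dv 6 (BY y y - 2))
    {z : (Fin 7 → ℚ) × Y} (hz : z ∈ N) (hz1 : z.1 - om7 ∈ Zk 7) {β β' : ℤ}
    (hβ : ¬ (3 : ℤ) ∣ β) (hβ' : ¬ (3 : ℤ) ∣ β')
    (ha : BY ((3 : ℚ) • y' - (β' : ℚ) • y) ((3 : ℚ) • y' - (β' : ℚ) • y) = 8)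
    (hb : BY ((3 : ℚ) • z.2 - (β : ℚ) • y) ((3 : ℚ) • z.2 - (β : ℚ) • y) = 13 / 2) : False := by
  obtain ⟨s, t, hs, hst⟩ : ∃ s t : ℤ, (s = 1 ∨ s = -1) ∧ s * β - β' = 3 * t := by
    have e1 : β % 3 = 1 ∨ β % 3 = 2 := by omega
    have e2 : β' % 3 = 1 ∨ β' % 3 = 2 := by omega
    rcases e1 with e1 | e1 <;> rcases e2 with e2 | e2
    · exact ⟨1, (β - β') / 3, Or.inl rfl, by omega⟩
    · exact ⟨-1, (-β - β') / 3, Or.inr rfl, by omega⟩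
    · exact ⟨-1, (-β - β') / 3, Or.inr rfl, by omega⟩
    · exact ⟨1, (β - β') / 3, Or.inl rfl, by omega⟩
  have hs2 : (s : ℚ) ^ 2 = 1 := by
    rcases hs with rfl | rfl <;> norm_num
  have hstq : (s : ℚ) * β - β' = 3 * t := by exact_mod_cast hst
  set a := (3 : ℚ) • y' - (β' : ℚ) • y with hadef
  set b := (s : ℚ) • ((3 : ℚ) • z.2 - (β : ℚ) • y) with hbdef
  set w := y' - (s : ℚ) • z.2 + (t : ℚ) • y with hwdef
  have habw : a - b = (3 : ℚ) • w := by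
    have h1 : (β' : ℚ) = s * β - 3 * t := by linarith
    rw [hadef, hbdef, hwdef, h1]
    module
  have hbb : BY b b = 13 / 2 := by
    rw [hbdef]
    simp only [map_smul, LinearMap.smul_apply, smul_eq_mul]
    rw [hb, ← mul_assoc, ← pow_two, hs2, one_mul]
  -- the element of `N`
  have hwN : ((-(s : ℚ)) • z.1, w) ∈ N := by
    have h1 : s • z ∈ N := N.zsmul_mem hz s
    have h2' : t • ((0 : Fin 7 → ℚ), y) ∈ N := N.zsmul_mem hy t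
    have h3 := N.add_mem (N.sub_mem hy' h1) h2'
    have h4 : ((0 : Fin 7 → ℚ), y') - s • z + t • ((0 : Fin 7 → ℚ), y) =
        ((-(s : ℚ)) • z.1, w) := by
      ext1
      · simp only [Prod.fst_add, Prod.fst_sub, Prod.smul_fst, smul_zero, add_zero, zero_sub]
        rw [← Int.cast_smul_eq_zsmul ℚ, neg_smul]
      · simp only [Prod.snd_add, Prod.snd_sub, Prod.smul_snd]
        rw [← Int.cast_smul_eq_zsmul ℚ, ← Int.cast_smul_eq_zsmul ℚ]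
    rwa [h4] at h3
  have hwc : (-(s : ℚ)) • z.1 - om7 ∈ Zk 7 := by
    rcases hs with rfl | rfl
    · have h1 : (2 : ℚ) • om7 ∈ Zk 7 := by
        refine ⟨![2, 3, 4, 6, 5, 4, 3], ?_⟩
        funext i
        fin_cases i <;> simp [om7]
        all_goals norm_num
      have h2' := (Zk 7).sub_mem ((Zk 7).neg_mem hz1) h1
      have h3 : -(z.1 - om7) - (2 : ℚ) • om7 = (-((1 : ℤ) : ℚ)) • z.1 - om7 := by
        push_cast
        module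
      rwa [h3] at h2'
    · have h3 : (-((-1 : ℤ) : ℚ)) • z.1 - om7 = z.1 - om7 := by
        push_cast
        module
      rw [h3]
      exact hz1
  obtain ⟨n, hn1, hn⟩ := F3_coset h hwN hwc
  have hnq : (1 : ℚ) ≤ n := by exact_mod_cast hn1
  have hn' : BY w w = 1 / 2 + 2 * n := hn
  have hcs := h.pd.cs a b
  rw [ha, hbb] at hcs
  have hww : 9 * BY w w = 8 + 13 / 2 - 2 * BY a b := by
    have h1 : BY (a - b) (a - b) = 9 * BY w w := by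
      rw [habw]
      simp only [map_smul, LinearMap.smul_apply, smul_eq_mul]
      ring
    have h3 : BY (a - b) (a - b) = BY a a - 2 * BY a b + BY b b := by
      simp only [map_sub, LinearMap.sub_apply]
      rw [h.pd.symm b a]
      ring
    rw [← h1, h3, ha, hbb]
    ring
  have hn2 : n = 1 := by
    by_contra h5
    have h6 : 2 ≤ n := by omega
    have h7 : (2 : ℚ) ≤ n := by exact_mod_cast h6
    rw [hn'] at hww
    nlinarith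
  have hab : BY a b = -4 := by
    rw [hn', hn2] at hww
    push_cast at hww
    linarith
  have hw5 : BY w w = 5 / 2 := by
    rw [hn', hn2]
    norm_num
  have hbw : BY b w = -7 / 2 := by
    have h1 : BY b (a - b) = 3 * BY b w := by
      rw [habw, map_smul, smul_eq_mul]
    rw [map_sub, h.pd.symm b a, hab, hbb] at h1
    linarith
  apply h.no2 (b + w)
  have h1 : BY (b + w) (b + w) = BY b b + 2 * BY b w + BY w w := by
    simp only [map_add, LinearMap.add_apply]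
    rw [h.pd.symm w b]
    ring
  rw [h1, hbb, hbw, hw5]
  norm_num

/-- The `E₇`-part of generalized roots: `κ ≥ 2`.

PROOF.  `(z.1)/κ` has integral products with `Zk 7` (test with `(cz u, 0) ∈ N`), so it is in `Zk 7` or in the coset (`E7_dual`); if it is
not zero its norm is `≥ 3/2` (`E7_even`, `E7_pos`, resp. `E7_coset_norm`), so `(z.1,z.1) ≥ 3/2 κ² > 2κ`. -/
theorem F3N.root_zero {BY : Frm Y} {N : AddSubgroup ((Fin 7 → ℚ) × Y)} (h : F3N BY N) {κ : ℤ}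
    (hκ : 2 ≤ κ) {z : (Fin 7 → ℚ) × Y} (hz : z ∈ N)
    (hd : ∀ z' ∈ N, Dv κ (sF (mF E7) BY z z')) (hn : sF (mF E7) BY z z ≤ 2 * κ) : z.1 = 0 := by
  have hκq : (2 : ℚ) ≤ κ := by exact_mod_cast hκ
  have hκ0 : (κ : ℚ) ≠ 0 := by linarith
  set x' := (κ : ℚ)⁻¹ • z.1 with hx'
  have hzx : z.1 = (κ : ℚ) • x' := by
    rw [hx', smul_smul, mul_inv_cancel₀ hκ0, one_smul]
  have h1 : ∀ u : Fin 7 → ℤ, IsZ (mF E7 x' (cz u)) := by
    intro u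
    obtain ⟨n, h2⟩ := hd _ (h.e7 (cz u) (cz_mem u))
    rw [sF_apply, map_zero, add_zero] at h2
    refine ⟨n, ?_⟩
    rw [hx', map_smul, LinearMap.smul_apply, smul_eq_mul, h2, ← mul_assoc, inv_mul_cancel₀ hκ0,
      one_mul]
  have h2 : mF E7 z.1 z.1 = (κ : ℚ) ^ 2 * mF E7 x' x' := by
    rw [hzx]
    simp only [map_smul, LinearMap.smul_apply, smul_eq_mul]
    ring
  have h3 := h.pd.nonneg z.2
  rw [sF_apply, h2] at hn
  by_contra hne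
  have hx0 : x' ≠ 0 := by
    intro h4
    rw [h4, smul_zero] at hzx
    exact hne hzx
  have h4 : 3 / 2 ≤ mF E7 x' x' := by
    rcases E7_dual h1 with h5 | h5
    · obtain ⟨u, hu⟩ := mem_Zk.1 h5
      have hu0 : u ≠ 0 := by
        rintro rfl
        exact hx0 (by rw [hu, cz_zero])
      have h6 := E7_pos u hu0
      obtain ⟨m, hm⟩ := E7_even u
      have h7 : 2 ≤ bf E7 u u := by omega
      have h8 : (2 : ℚ) ≤ ((bf E7 u u : ℤ) : ℚ) := by exact_mod_cast h7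
      rw [hu, mF_cz]
      linarith
    · obtain ⟨n, hn, hn0⟩ := E7_coset_norm h5
      have h6 : (0 : ℚ) ≤ n := by exact_mod_cast hn0
      rw [hn]
      linarith
  nlinarith

/-- Roots of norm at most 2.

PROOF.  `F3N.cases`.  In the other coset the norm is `≥ 3/2 + 5/2`.  Otherwise `z.1 = cz u`; if `z.1 ≠ 0` then `(z.1,z.1) ≥ 2`, so it is 2 and
`(z.2,z.2) ≤ 0`, `z.2 = 0`. -/
theorem F3N.root_two {BY : Frm Y} {N : AddSubgroup ((Fin 7 → ℚ) × Y)} (h : F3N BY N)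
    {z : (Fin 7 → ℚ) × Y} (hz : z ∈ N) (hn : sF (mF E7) BY z z ≤ 2) (h0 : z.1 ≠ 0) :
    z.2 = 0 ∧ ∃ u : Fin 7 → ℤ, z.1 = cz u ∧ bf E7 u u = 2 := by
  rw [sF_apply] at hn
  have h3 := h.pd.nonneg z.2
  rcases F3_dual h hz with h1 | h1
  · obtain ⟨u, hu⟩ := mem_Zk.1 h1
    have hu0 : u ≠ 0 := by
      rintro rfl
      exact h0 (by rw [hu, cz_zero])
    have h6 := E7_pos u hu0
    obtain ⟨m, hm⟩ := E7_even u
    have h7 : 2 ≤ bf E7 u u := by omega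
    rw [hu, mF_cz] at hn
    have h8 : ((bf E7 u u : ℤ) : ℚ) ≤ 2 := by linarith
    have h9 : bf E7 u u ≤ 2 := by exact_mod_cast h8
    have h10 : bf E7 u u = 2 := le_antisymm h9 h7
    rw [h10] at hn
    refine ⟨h.pd.eq_zero ?_, u, hu, h10⟩
    push_cast at hn
    linarith
  · exfalso
    obtain ⟨n, hn1, hn2⟩ := F3_coset h hz h1
    obtain ⟨m, hm, hm0⟩ := E7_coset_norm h1
    have h6 : (0 : ℚ) ≤ m := by exact_mod_cast hm0
    have h7 : (1 : ℚ) ≤ n := by exact_mod_cast hn1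
    rw [hn2, hm] at hn
    linarith

/-- The `E₇`-part of `R = 3z - κβ(g, y)`, `κ ≥ 1`: `R.1 = κ (3x' - β g)` with `x'` in `Zk 7` or in the coset; lower bounds
`κ² · 7/2` for `g = g8`, `κ² · 4` for `g = g4`, `κ² · 2` for `g = g2`.  (`E7_dual` for `z.1/κ`; `E7_g8`, `E7_g4`, `E7_g2`, `E7_coset`,
`E7_coset_g2`.) -/
theorem F3N.lower {BY : Frm Y} {N : AddSubgroup ((Fin 7 → ℚ) × Y)} (h : F3N BY N) {κ β : ℤ}
    (hκ : 0 < κ) (hβ : ¬ (3 : ℤ) ∣ β) {z : (Fin 7 → ℚ) × Y} (hz : z ∈ N)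
    (hd : ∀ z' ∈ N, Dv κ (sF (mF E7) BY z z')) :
    7 / 2 * (κ : ℚ) ^ 2 ≤ mF E7 ((3 : ℚ) • z.1 - ((κ * β : ℤ) : ℚ) • cz g8)
        ((3 : ℚ) • z.1 - ((κ * β : ℤ) : ℚ) • cz g8) ∧
      4 * (κ : ℚ) ^ 2 ≤ mF E7 ((3 : ℚ) • z.1 - ((κ * β : ℤ) : ℚ) • cz g4)
        ((3 : ℚ) • z.1 - ((κ * β : ℤ) : ℚ) • cz g4) ∧
      2 * (κ : ℚ) ^ 2 ≤ mF E7 ((3 : ℚ) • z.1 - ((κ * β : ℤ) : ℚ) • cz g2)
        ((3 : ℚ) • z.1 - ((κ * β : ℤ) : ℚ) • cz g2) := by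
  have hκq : (0 : ℚ) < κ := by exact_mod_cast hκ
  have hκ0 : (κ : ℚ) ≠ 0 := hκq.ne'
  set x' := (κ : ℚ)⁻¹ • z.1 with hx'
  have hzx : z.1 = (κ : ℚ) • x' := by
    rw [hx', smul_smul, mul_inv_cancel₀ hκ0, one_smul]
  have h1 : ∀ u : Fin 7 → ℤ, IsZ (mF E7 x' (cz u)) := by
    intro u
    obtain ⟨n, h2⟩ := hd _ (h.e7 (cz u) (cz_mem u))
    rw [sF_apply, map_zero, add_zero] at h2
    refine ⟨n, ?_⟩
    rw [hx', map_smul, LinearMap.smul_apply, smul_eq_mul, h2, ← mul_assoc, inv_mul_cancel₀ hκ0,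
      one_mul]
  have h2 : ∀ g : Fin 7 → ℤ, mF E7 ((3 : ℚ) • z.1 - ((κ * β : ℤ) : ℚ) • cz g)
      ((3 : ℚ) • z.1 - ((κ * β : ℤ) : ℚ) • cz g) = (κ : ℚ) ^ 2 *
        mF E7 ((3 : ℚ) • x' - (β : ℚ) • cz g) ((3 : ℚ) • x' - (β : ℚ) • cz g) := by
    intro g
    have h3 : (3 : ℚ) • z.1 - ((κ * β : ℤ) : ℚ) • cz g =
        (κ : ℚ) • ((3 : ℚ) • x' - (β : ℚ) • cz g) := by
      rw [hzx]
      push_cast
      module
    rw [h3]
    generalize (3 : ℚ) • x' - (β : ℚ) • cz g = R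
    simp only [map_smul, LinearMap.smul_apply, smul_eq_mul]
    ring
  rw [h2, h2, h2]
  have hk2 : (0 : ℚ) ≤ (κ : ℚ) ^ 2 := by positivity
  have key : ∀ (c v : ℚ), c ≤ v → c * (κ : ℚ) ^ 2 ≤ (κ : ℚ) ^ 2 * v := by
    intro c v hcv
    rw [mul_comm c]
    exact mul_le_mul_of_nonneg_left hcv hk2
  rcases E7_dual h1 with h5 | h5
  · obtain ⟨u, hu⟩ := mem_Zk.1 h5
    have h6 : ∀ g : Fin 7 → ℤ, mF E7 ((3 : ℚ) • x' - (β : ℚ) • cz g)
        ((3 : ℚ) • x' - (β : ℚ) • cz g) =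
        ((bf E7 ((3 : ℤ) • u - β • g) ((3 : ℤ) • u - β • g) : ℤ) : ℚ) := by
      intro g
      rw [← mF_cz, cz_sub, cz_smul, cz_smul, hu]
      push_cast
      rfl
    rw [h6, h6, h6]
    have h8 : (8 : ℚ) ≤ ((bf E7 ((3 : ℤ) • u - β • g8) ((3 : ℤ) • u - β • g8) : ℤ) : ℚ) := by
      exact_mod_cast E7_g8 hβ u
    have h9 : (4 : ℚ) ≤ ((bf E7 ((3 : ℤ) • u - β • g4) ((3 : ℤ) • u - β • g4) : ℤ) : ℚ) := by
      exact_mod_cast E7_g4 hβ u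
    have h10 : (2 : ℚ) ≤ ((bf E7 ((3 : ℤ) • u - β • g2) ((3 : ℤ) • u - β • g2) : ℤ) : ℚ) := by
      exact_mod_cast E7_g2 hβ u
    exact ⟨key _ _ (by linarith), key _ _ (by linarith), key _ _ (by linarith)⟩
  · obtain ⟨⟨n, hn0, hn⟩, h7, -⟩ := E7_coset hβ h5
    have h8 := E7_coset_g2 hβ h5
    have h9 : (0 : ℚ) ≤ n := by exact_mod_cast hn0
    exact ⟨key _ _ (by rw [hn]; linarith), key _ _ (by linarith), key _ _ (by linarith)⟩

end Pool.Agent.RFN
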