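import Mathlib
import Pool.Agent.Lib.MP_dcc566_gt_R.F3

/-!
# Configurations of the third family
-/

set_option autoImplicit false

namespace Pool.Agent.RFN

open MP_dcc566_gt (bf E8 w8)

variable {Y : Type} [AddCommGroup Y] [Module ℚ Y]

private theorem F3C_int (w g : Fin 7 → ℤ) (β : ℤ) :
    mF E7 ((3 : ℚ) • cz w - (β : ℚ) • cz g) ((3 : ℚ) • cz w - (β : ℚ) • cz g) =
      ((bf E7 ((3 : ℤ) • w - β • g) ((3 : ℤ) • w - β • g) : ℤ) : ℚ) := by
  rw [← mF_cz, cz_sub, cz_smul, cz_smul, Int.cast_ofNat]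

private theorem F3C_split (BY : Frm Y) (n : (Fin 7 → ℚ) × Y) (c : ℚ) (g : Fin 7 → ℚ) (y : Y) :
    sF (mF E7) BY ((3 : ℚ) • n - c • (g, y)) ((3 : ℚ) • n - c • (g, y)) =
      mF E7 ((3 : ℚ) • n.1 - c • g) ((3 : ℚ) • n.1 - c • g) +
      BY ((3 : ℚ) • n.2 - c • y) ((3 : ℚ) • n.2 - c • y) := rfl

/-- the second hypothesis of the configuration lemmas -/
private theorem F3C_H2 {BY : Frm Y} {N : AddSubgroup ((Fin 7 → ℚ) × Y)} (h : F3N BY N)
    {g t : Fin 7 → ℤ} {yy : Y} (v₈ : Fin 8 → ℤ)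
    (hgt : ∀ w : Fin 7 → ℤ, bf E7 w w = 2 → (3 : ℤ) ∣ bf E7 w g → bf E7 w t = 0)
    (κ : ℤ) (u : Fin 8 → ℤ) (n : (Fin 7 → ℚ) × Y) (hn : n ∈ N) (hκ : 0 < κ)
    (hd : ∀ n' ∈ N, Dv κ (sF (mF E7) BY n n'))
    (hnorm : ((bf E8 u u : ℤ) : ℚ) + sF (mF E7) BY n n = 2 * κ)
    (hv : Dv (3 * κ) (((bf E8 u v₈ : ℤ) : ℚ) + sF (mF E7) BY n (cz g, yy))) :
    ((bf E8 u 0 : ℤ) : ℚ) + sF (mF E7) BY n (cz t, 0) = 0 := by
  rw [MP_dcc566_gt.bf_zero_right, sF_apply]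
  simp only [map_zero, Int.cast_zero, zero_add, add_zero]
  have hnn : (0 : ℚ) ≤ ((bf E8 u u : ℤ) : ℚ) := by exact_mod_cast MP_dcc566_gt.E8_nonneg u
  by_cases hz : n.1 = 0
  · rw [hz, map_zero]
    rfl
  rcases lt_or_ge 1 κ with h1 | h1
  · exact absurd (h.root_zero (κ := κ) (by omega) hn hd (by linarith)) hz
  · have hκ1 : κ = 1 := by omega
    subst hκ1
    obtain ⟨h2, w, hw, hw2⟩ := h.root_two hn (by push_cast at hnorm; linarith) hz
    have hn' : n = (cz w, 0) := Prod.ext hw h2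
    subst hn'
    have hnn2 : sF (mF E7) BY (cz w, 0) (cz w, 0) = 2 := by
      rw [sF_apply, mF_cz, hw2]
      simp
    rw [hnn2] at hnorm
    have hu0 : bf E8 u u = 0 := by
      have : ((bf E8 u u : ℤ) : ℚ) = 0 := by push_cast at hnorm; linarith
      exact_mod_cast this
    have hu : u = 0 := by
      by_contra hu
      have := MP_dcc566_gt.E8_pos u hu
      omega
    rw [hu, MP_dcc566_gt.bf_zero_left, sF_apply, mF_cz] at hv
    simp only [map_zero, LinearMap.zero_apply, add_zero, Int.cast_zero, zero_add, mul_one] at hv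
    have := hgt w hw2 (Dv_int.1 hv)
    change mF E7 (cz w) (cz t) = 0
    rw [mF_cz, this]
    rfl

private theorem F3C_mem {BY : Frm Y} {N : AddSubgroup ((Fin 7 → ℚ) × Y)} (h : F3N BY N)
    (g : Fin 7 → ℤ) {y : Y} (hy : ((0 : Fin 7 → ℚ), y) ∈ N) : ((cz g, y) : (Fin 7 → ℚ) × Y) ∈ N := by
  have h1 := N.add_mem (h.e7 (cz g) (cz_mem g)) hy
  simpa using h1

private theorem F3C_norm (BY : Frm Y) (g : Fin 7 → ℤ) (y : Y) :
    sF (mF E7) BY (cz g, y) (cz g, y) = ((bf E7 g g : ℤ) : ℚ) + BY y y := by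
  rw [sF_apply, mF_cz]

/-- the product with `w8` -/
private theorem F3C_E8 {κ β : ℤ} (hβ : ¬ (3 : ℤ) ∣ β) {u : Fin 8 → ℤ}
    (hu : ∀ v, κ ∣ bf E8 u v) :
    8 * κ ^ 2 ≤ bf E8 ((3 : ℤ) • u - (κ * β) • w8) ((3 : ℤ) • u - (κ * β) • w8) := by
  obtain ⟨u', rfl⟩ := MP_dcc566_gt.E8_unimod hu
  have h3 : (3 : ℤ) • (κ • u') - (κ * β) • w8 = κ • ((3 : ℤ) • u' - β • w8) := by
    funext j
    simp only [Pi.sub_apply, Pi.smul_apply, smul_eq_mul]
    ring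
  rw [h3, MP_dcc566_gt.bf_smul_left, MP_dcc566_gt.bf_smul_right]
  have h4 := MP_dcc566_gt.class8 u' hβ
  nlinarith [sq_nonneg κ]

private theorem F3C_dbl (x' : Fin 7 → ℚ) (β : ℤ) (g : Fin 7 → ℚ) :
    mF E7 ((3 : ℚ) • ((2 : ℚ) • x') - ((2 * β : ℤ) : ℚ) • g)
      ((3 : ℚ) • ((2 : ℚ) • x') - ((2 * β : ℤ) : ℚ) • g) =
      4 * mF E7 ((3 : ℚ) • x' - (β : ℚ) • g) ((3 : ℚ) • x' - (β : ℚ) • g) := by
  have h1 : (3 : ℚ) • ((2 : ℚ) • x') - ((2 * β : ℤ) : ℚ) • g =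
      (2 : ℚ) • ((3 : ℚ) • x' - (β : ℚ) • g) := by
    push_cast
    module
  rw [h1]
  simp only [map_smul, LinearMap.smul_apply, smul_eq_mul]
  ring

private theorem F3C_om2 : ∃ w : Fin 7 → ℤ, (2 : ℚ) • om7 = cz w := by
  refine ⟨![2, 3, 4, 6, 5, 4, 3], ?_⟩
  funext i
  fin_cases i <;> simp [om7, cz] <;> norm_num

/-- The maximal lattice itself.

PROOF.  `cfg0` with `X = (Fin 7 → ℚ) × Y`, `BX = sF (mF E7) BY`, `m = 3`, `v₈ = w8`, `u₀ = Pi.single 1 1` (`bf w8 u₀ = 1`, `bf_w8`, `k₀ = 0`).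
Let `y` be given by `h.ex`.
Common: `u = κ u'` (`E8_unimod`), `bf R_8 R_8 ≥ 8κ²` (`class8`), total `18κ`: `κ ≤ 2`.  `κ = 2`: `32 + ` (by `F3N.lower` at least `14` for `g8`,
`8` for `g2`) `> 36`.  So `κ = 1` and `R_7² + R_Y² ≤ 10`.
OPTION X: no `z ∈ N` in the coset and `β` (`3 ∤ β`) with `BY (3 z.2 - βy) = 13/2`.  Take `(cz g8, y)`, `N₀ = (16 + (y,y))/6`, `t = (0; (cz t7, 0))`.
`z.1 = cz w ∈ Zk 7`: `R_7² ≥ 8` (`E7_g8`), `R_Y² ≥ 8` (`t_int`): 16 > 10.  Coset: `R_7² ≥ 7/2` (`E7_coset`), `R_Y² ≥ 25/2`: 16 > 10.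
OPTION Y: such `z, β` exist.  Take `(cz g2, y)`, `N₀ = (10 + (y,y))/6`, `t = (0; (cz g2, 0))`.  `z.1 ∈ Zk 7`: `R_7² ≥ 2`, and by `F3N.excl`
`R_Y² ≠ 8`, so `R_Y² ≥ 14`: 16 > 10.  Coset: `R_7² ≥ 19/2` (`E7_coset_g2`), `R_Y² ≥ 13/2`: 16 > 10.
H2.  `(s,t) = (z.1, cz t7)` resp. `(z.1, cz g2)`.  `κ ≥ 2`: `root_zero`.  `κ = 1`: if `z.1 ≠ 0`: `root_two` gives `z.1 = cz w`, `z.2 = 0`,
norm 2, so `bf u u = 0`, `u = 0`, and `3 ∣ bf w g8` (resp. `g2`): `E7_t7` (resp. `E7_rt`). -/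
theorem badF3A {BY : Frm Y} {N : AddSubgroup ((Fin 7 → ℚ) × Y)} (h : F3N BY N) :
    BadS (PF (sF (mF E7) BY)) (PL N) := by
  obtain ⟨y, hy, hy2⟩ := h.ex
  obtain ⟨c, hc⟩ := hy2
  have hyy : BY y y = 2 + 6 * c := by push_cast at hc; linarith
  have h2 : Dv 6 (BY y y - 2) := ⟨c, hc⟩
  have hk0 : bf E8 w8 (Pi.single 1 1) = 1 + 3 * 0 := by
    rw [MP_dcc566_gt.E8_comm, MP_dcc566_gt.bf_w8]
    simp
  obtain ⟨v8, v4, v2, ht7, hg4, hg2⟩ := E7_vals
  by_cases hopt : ∃ z ∈ N, z.1 - om7 ∈ Zk 7 ∧ ∃ β : ℤ, ¬ (3 : ℤ) ∣ β ∧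
      BY ((3 : ℚ) • z.2 - (β : ℚ) • y) ((3 : ℚ) • z.2 - (β : ℚ) • y) = 13 / 2
  · obtain ⟨z0, hz0, hz1, β0, hβ0, hb0⟩ := hopt
    refine cfg0 (Pd_F7.sF h.pd) h.even (m := 3) (N₀ := 2 + c) (by norm_num) (v₈ := w8)
      (y := (cz g2, y)) (F3C_mem h g2 hy) ?_ (t₈ := 0) (tX := (cz g2, 0)) (Or.inr ?_) hk0 ?_ ?_
    · rw [F3C_norm, v2, MP_dcc566_gt.norm_w8, hyy]
      push_cast
      ring
    · intro h0
      exact hg2 (cz_eq_zero.1 (congrArg Prod.fst h0))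
    · intro κ β u n hn hκ hβ hu hd htot
      exfalso
      rw [Int.cast_ofNat, F3C_split] at htot
      have hE := F3C_E8 hβ hu
      have hE' : (8 : ℚ) * κ ^ 2 ≤ ((bf E8 ((3 : ℤ) • u - (κ * β) • w8)
          ((3 : ℤ) • u - (κ * β) • w8) : ℤ) : ℚ) := by exact_mod_cast hE
      have hL := (h.lower hκ hβ hn hd).2.2
      have hY := h.pd.nonneg ((3 : ℚ) • n.2 - ((κ * β : ℤ) : ℚ) • y)
      have hκ0 : (1 : ℚ) ≤ κ := by exact_mod_cast hκ
      have hκ1 : κ = 1 := by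
        by_contra hne
        have h2' : (2 : ℚ) ≤ κ := by
          have : 2 ≤ κ := by omega
          exact_mod_cast this
        nlinarith
      subst hκ1
      simp only [one_mul, Int.cast_one, mul_one] at htot hE' hY
      rcases h.cases hn with ⟨c1, c2, c3, c4⟩ | ⟨c1, c2, c3⟩
      · obtain ⟨w, hw⟩ := c1
        have e1 : mF E7 ((3 : ℚ) • n.1 - (β : ℚ) • cz g2) ((3 : ℚ) • n.1 - (β : ℚ) • cz g2) =
            ((bf E7 ((3 : ℤ) • w - β • g2) ((3 : ℤ) • w - β • g2) : ℤ) : ℚ) := by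
          rw [← F3C_int]
          rw [show n.1 = cz w from hw]
        have e2 : (2 : ℚ) ≤ ((bf E7 ((3 : ℤ) • w - β • g2) ((3 : ℤ) • w - β • g2) : ℤ) : ℚ) := by
          exact_mod_cast E7_g2 hβ w
        rcases h.t_int hy c2 h2 hβ with e3 | e3
        · exact h.excl hy c2 h2 hz0 hz1 hβ0 hβ e3 hb0
        · rw [e1] at htot
          linarith
      · have e1 := E7_coset_g2 hβ c1
        rcases h.t_half hy h2 hn c1 hβ with e3 | e3
        · linarith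
        · linarith
    · intro κ u n hn hκ _ hd hnorm hv
      exact F3C_H2 h w8 (fun w hw h3 => (E7_rt hw).2 h3) κ u n hn hκ hd hnorm hv
  · push Not at hopt
    refine cfg0 (Pd_F7.sF h.pd) h.even (m := 3) (N₀ := 3 + c) (by norm_num) (v₈ := w8)
      (y := (cz g8, y)) (F3C_mem h g8 hy) ?_ (t₈ := 0) (tX := (cz t7, 0)) (Or.inr ?_) hk0 ?_ ?_
    · rw [F3C_norm, v8, MP_dcc566_gt.norm_w8, hyy]
      push_cast
      ring
    · intro h0
      exact ht7 (cz_eq_zero.1 (congrArg Prod.fst h0))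
    · intro κ β u n hn hκ hβ hu hd htot
      exfalso
      rw [Int.cast_ofNat, F3C_split] at htot
      have hE := F3C_E8 hβ hu
      have hE' : (8 : ℚ) * κ ^ 2 ≤ ((bf E8 ((3 : ℤ) • u - (κ * β) • w8)
          ((3 : ℤ) • u - (κ * β) • w8) : ℤ) : ℚ) := by exact_mod_cast hE
      have hL := (h.lower hκ hβ hn hd).1
      have hY := h.pd.nonneg ((3 : ℚ) • n.2 - ((κ * β : ℤ) : ℚ) • y)
      have hκ0 : (1 : ℚ) ≤ κ := by exact_mod_cast hκ
      have hκ1 : κ = 1 := by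
        by_contra hne
        have h2' : (2 : ℚ) ≤ κ := by
          have : 2 ≤ κ := by omega
          exact_mod_cast this
        nlinarith
      subst hκ1
      simp only [one_mul, Int.cast_one, mul_one] at htot hE' hY
      rcases h.cases hn with ⟨c1, c2, c3, c4⟩ | ⟨c1, c2, c3⟩
      · obtain ⟨w, hw⟩ := c1
        have e1 : mF E7 ((3 : ℚ) • n.1 - (β : ℚ) • cz g8) ((3 : ℚ) • n.1 - (β : ℚ) • cz g8) =
            ((bf E7 ((3 : ℤ) • w - β • g8) ((3 : ℤ) • w - β • g8) : ℤ) : ℚ) := by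
          rw [← F3C_int]
          rw [show n.1 = cz w from hw]
        have e2 : (8 : ℚ) ≤ ((bf E7 ((3 : ℤ) • w - β • g8) ((3 : ℤ) • w - β • g8) : ℤ) : ℚ) := by
          exact_mod_cast E7_g8 hβ w
        rw [e1] at htot
        rcases h.t_int hy c2 h2 hβ with e3 | e3
        · linarith
        · linarith
      · obtain ⟨⟨k, hk0', hk1⟩, -, -⟩ := E7_coset hβ c1
        have hk2 : (0 : ℚ) ≤ k := by exact_mod_cast hk0'
        rcases h.t_half hy h2 hn c1 hβ with e3 | e3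
        · exact hopt n hn c1 β hβ e3
        · linarith
    · intro κ u n hn hκ _ hd hnorm hv
      exact F3C_H2 h w8 (fun w hw h3 => E7_t7 hw h3) κ u n hn hκ hd hnorm hv

/-- `v = (V66; (g4, y))`, `m = 3`, `t = (0; (g4, 0))`.

PROOF.  `cfg` with `i = 2`, `N₀ = (16 + (y,y))/6`, `y` from `h.ex`; `u₀` with `DH 2 u₀`, `bf V66 u₀ = 1`: standard coordinates
`(1,0,0,1,0,0,0,0)`.
H1.  `blk66`.  `κ` odd: `12κ² ≤ 18κ`, `κ = 1`, `R_7² + R_Y² ≤ 6`; `z.1 ∈ Zk 7`: `R_7² ≥ 4` (`E7_g4`), `R_Y² ≥ 8`; coset: `R_7² ≥ 11/2`,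
`R_Y² ≥ 13/2`: impossible.  `κ = 2κ₁`: `24κ₁² ≤ 36κ₁`, `κ₁ = 1`, and `R_7² ≥ 4·4` (`F3N.lower`): `24 + 16 > 36`.
H2.  `(s,t) = (z.1, cz g4)`.  `κ ≥ 2`: `root_zero`.  `κ = 1`, `z.1 ≠ 0`: `root_two`, `u = 0`, `3 ∣ bf w g4`, `E7_rt`. -/
theorem confF3D {BY : Frm Y} {N : AddSubgroup ((Fin 7 → ℚ) × Y)} (h : F3N BY N) :
    Conf (PF (sF (mF E7) BY)) (PL N) {2} (fun _ => 2) := by
  obtain ⟨y, hy, hy2⟩ := h.ex
  obtain ⟨c, hc⟩ := hy2
  have hyy : BY y y = 2 + 6 * c := by push_cast at hc; linarith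
  have h2 : Dv 6 (BY y y - 2) := ⟨c, hc⟩
  obtain ⟨v8, v4, v2, ht7, hg4, hg2⟩ := E7_vals
  obtain ⟨w1, w2, -⟩ := V66_facts
  refine cfg (Pd_F7.sF h.pd) h.even (i := 2) (by norm_num) (m := 3) (N₀ := 3 + c) (by norm_num)
    (v₈ := V66) w1 (y := (cz g4, y)) (F3C_mem h g4 hy) ?_ (t₈ := 0) (tX := (cz g4, 0))
    (Or.inr ?_) (u₀ := ![0, 1, 0, 1, 1, 0, 0, 0]) ?_ (k₀ := 0) (by decide) ?_ ?_
  · rw [F3C_norm, v4, w2, hyy]
    push_cast
    ring
  · intro h0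
    exact hg4 (cz_eq_zero.1 (congrArg Prod.fst h0))
  · intro k hk
    interval_cases k <;> decide
  · intro κ β u n hn hκ hβ hu hD hd htot
    exfalso
    rw [Int.cast_ofNat, F3C_split] at htot
    obtain ⟨b1, b2⟩ := blk66 hκ hβ hu hD
    have hL := (h.lower hκ hβ hn hd).2.1
    have hY := h.pd.nonneg ((3 : ℚ) • n.2 - ((κ * β : ℤ) : ℚ) • y)
    have hκ0 : (1 : ℚ) ≤ κ := by exact_mod_cast hκ
    rcases Int.even_or_odd κ with he | ho
    · obtain ⟨κ₁, hκ₁⟩ := he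
      have hκ₁' : κ = 2 * κ₁ := by omega
      have hE' : (24 : ℚ) * κ₁ ^ 2 ≤ ((bf E8 ((3 : ℤ) • u - (κ * β) • V66)
          ((3 : ℤ) • u - (κ * β) • V66) : ℤ) : ℚ) := by exact_mod_cast b2 κ₁ hκ₁'
      have h5 : (1 : ℚ) ≤ κ₁ := by
        have : 1 ≤ κ₁ := by omega
        exact_mod_cast this
      have h6 : (κ : ℚ) = 2 * κ₁ := by exact_mod_cast hκ₁'
      rw [h6] at hL htot
      nlinarith
    · have hE' : (12 : ℚ) * κ ^ 2 ≤ ((bf E8 ((3 : ℤ) • u - (κ * β) • V66)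
          ((3 : ℤ) • u - (κ * β) • V66) : ℤ) : ℚ) := by exact_mod_cast b1 ho
      have hκ1 : κ = 1 := by
        by_contra hne
        have h2' : (2 : ℚ) ≤ κ := by
          have : 2 ≤ κ := by omega
          exact_mod_cast this
        nlinarith
      subst hκ1
      simp only [one_mul, Int.cast_one, mul_one] at htot hE' hY
      rcases h.cases hn with ⟨c1, c2, c3, c4⟩ | ⟨c1, c2, c3⟩
      · obtain ⟨w, hw⟩ := c1
        have e1 : mF E7 ((3 : ℚ) • n.1 - (β : ℚ) • cz g4) ((3 : ℚ) • n.1 - (β : ℚ) • cz g4) =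
            ((bf E7 ((3 : ℤ) • w - β • g4) ((3 : ℤ) • w - β • g4) : ℤ) : ℚ) := by
          rw [← F3C_int]
          rw [show n.1 = cz w from hw]
        have e2 : (4 : ℚ) ≤ ((bf E7 ((3 : ℤ) • w - β • g4) ((3 : ℤ) • w - β • g4) : ℤ) : ℚ) := by
          exact_mod_cast E7_g4 hβ w
        rw [e1] at htot
        rcases h.t_int hy c2 h2 hβ with e3 | e3
        · linarith
        · linarith
      · have e1 := (E7_coset hβ c1).2.1
        rcases h.t_half hy h2 hn c1 hβ with e3 | e3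
        · linarith
        · linarith
  · intro κ u n hn hκ _ _ hd hnorm hv
    exact F3C_H2 h V66 (fun w hw h3 => (E7_rt hw).1 h3) κ u n hn hκ hd hnorm hv

/-- `v = (V16; (g8, 0))`, `m = 3`, `t = (0; (t7, 0))`.

PROOF.  `cfg` with `i = 4`, `N₀ = 4`; `u₀ = - hh 0`, `bf V16 u₀ = -2`.
H1.  `blk16`.  `κ` odd: `16κ² ≤ 18κ`, `κ = 1`.  `z.1 ∈ Zk 7`: `R_7² ≥ 8`: 24 > 18.  Coset: `R_Y = 3 z.2`, `R_Y² = 9 (z.2,z.2) ≥ 45/2 > 18`.
`κ = 2κ₁`: `16κ₁² ≤ 36κ₁`, `κ₁ ≤ 2`.  `κ₁ = 2`: `64 + 56 > 72` (`F3N.lower`).  `κ₁ = 1`, `κ = 2`, total 36: `z.1 = 2x'` with `x'` in `Zk 7` or the coset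
(`E7_dual`), `R_7 = 2 (3x' - β g8)`.  `x' ∈ Zk 7`: `R_7² ≥ 32`, `16 + 32 > 36`.  `x'` in the coset: `R_7² = 14 + 24 n`, `n ≥ 0` (`E7_coset`), and
`z.1 = 2x' ∈ Zk 7`, so `z.2` has even norm (`F3N.cases`), `R_Y² = 9 (z.2,z.2)`.  `bf R_D R_D + 14 + 24n + 9·(even) = 36`, `bf R_D R_D ≥ 16`: `n = 0`,
`9 (z.2,z.2) ≤ 6` so `z.2 = 0`-norm, `bf R_D R_D = 22`; but `R_D = 3u - 2βV16` satisfies `DH 4`, so its norm is divisible by 4
(`norm_four`).  Contradiction.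
H2 as `badF3A` option X, with `bf u u = 0` from norm 2 and `norm_four` not needed (`root_two` gives total norm 2 already). -/
theorem confF3E {BY : Frm Y} {N : AddSubgroup ((Fin 7 → ℚ) × Y)} (h : F3N BY N) :
    Conf (PF (sF (mF E7) BY)) (PL N) {2} (fun _ => 4) := by
  obtain ⟨v8, v4, v2, ht7, hg4, hg2⟩ := E7_vals
  obtain ⟨w1, w2, -⟩ := V16_facts
  have hmem : ((cz g8, (0 : Y)) : (Fin 7 → ℚ) × Y) ∈ N := h.e7 (cz g8) (cz_mem g8)
  refine cfg (Pd_F7.sF h.pd) h.even (i := 4) (by norm_num) (m := 3) (N₀ := 4) (by norm_num)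
    (v₈ := V16) w1 (y := (cz g8, 0)) hmem ?_ (t₈ := 0) (tX := (cz t7, 0))
    (Or.inr ?_) (u₀ := -hh 0) ?_ (k₀ := -1) (by decide) ?_ ?_
  · rw [F3C_norm, v8, w2]
    simp only [map_zero]
    norm_num
  · intro h0
    exact ht7 (cz_eq_zero.1 (congrArg Prod.fst h0))
  · intro k hk
    interval_cases k <;> decide
  · intro κ β u n hn hκ hβ hu hD hd htot
    exfalso
    rw [Int.cast_ofNat, F3C_split] at htot
    obtain ⟨b1, b2⟩ := blk16 hκ hβ hu hD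
    have hL := (h.lower hκ hβ hn hd).1
    have hY := h.pd.nonneg ((3 : ℚ) • n.2 - ((κ * β : ℤ) : ℚ) • (0 : Y))
    have hκ0 : (1 : ℚ) ≤ κ := by exact_mod_cast hκ
    rcases Int.even_or_odd κ with he | ho
    · obtain ⟨κ₁, hκ₁⟩ := he
      have hκ₁' : κ = 2 * κ₁ := by omega
      have hE' : (16 : ℚ) * κ₁ ^ 2 ≤ ((bf E8 ((3 : ℤ) • u - (κ * β) • V16)
          ((3 : ℤ) • u - (κ * β) • V16) : ℤ) : ℚ) := by exact_mod_cast b2 κ₁ hκ₁'
      have h5 : 1 ≤ κ₁ := by omega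
      have h6 : (κ : ℚ) = 2 * κ₁ := by exact_mod_cast hκ₁'
      have hκ1 : κ₁ = 1 := by
        by_contra hne
        have h2' : (2 : ℚ) ≤ κ₁ := by
          have : 2 ≤ κ₁ := by omega
          exact_mod_cast this
        rw [h6] at hL htot
        nlinarith
      subst hκ1
      have hκ2 : κ = 2 := by omega
      subst hκ2
      -- `n.1 = 2 x'`
      have hdual : ∀ w : Fin 7 → ℤ, IsZ (mF E7 ((1 / 2 : ℚ) • n.1) (cz w)) := by
        intro w
        obtain ⟨k, hk⟩ := hd _ (h.e7 (cz w) (cz_mem w))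
        refine ⟨k, ?_⟩
        rw [sF_apply] at hk
        simp only [map_zero, add_zero] at hk
        simp only [map_smul, LinearMap.smul_apply, smul_eq_mul]
        rw [hk]
        push_cast
        ring
      obtain ⟨x', hx'⟩ : ∃ x', x' = (1 / 2 : ℚ) • n.1 := ⟨_, rfl⟩
      have hn1 : n.1 = (2 : ℚ) • x' := by
        rw [hx', smul_smul]
        norm_num
      rw [← hx'] at hdual
      rw [hn1, F3C_dbl] at htot
      have hn2 : BY ((3 : ℚ) • n.2 - ((2 * β : ℤ) : ℚ) • (0 : Y))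
          ((3 : ℚ) • n.2 - ((2 * β : ℤ) : ℚ) • (0 : Y)) = 9 * BY n.2 n.2 := by
        rw [smul_zero, sub_zero]
        simp only [map_smul, LinearMap.smul_apply, smul_eq_mul]
        ring
      rw [hn2] at htot hY
      have hY0 := h.pd.nonneg n.2
      simp only [Int.cast_one, one_pow, mul_one] at hE'
      rcases E7_dual hdual with ⟨w, hw⟩ | hco
      · have e1 : mF E7 ((3 : ℚ) • x' - (β : ℚ) • cz g8) ((3 : ℚ) • x' - (β : ℚ) • cz g8) =
            ((bf E7 ((3 : ℤ) • w - β • g8) ((3 : ℤ) • w - β • g8) : ℤ) : ℚ) := by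
          rw [← F3C_int]
          rw [show x' = cz w from hw]
        have e2 : (8 : ℚ) ≤ ((bf E7 ((3 : ℤ) • w - β • g8) ((3 : ℤ) • w - β • g8) : ℤ) : ℚ) := by
          exact_mod_cast E7_g8 hβ w
        rw [e1] at htot
        push_cast at htot hE' e2 hY0
        linarith
      · obtain ⟨⟨k, hk0, hk1⟩, -, -⟩ := E7_coset hβ hco
        have hk2 : (0 : ℚ) ≤ k := by exact_mod_cast hk0
        -- `n.1` is integral
        have hint : n.1 ∈ Zk 7 := by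
          obtain ⟨w, hw⟩ := hco
          obtain ⟨w', hw'⟩ := F3C_om2
          have h7 : n.1 = cz (w' + (2 : ℤ) • w) := by
            rw [cz_add, cz_smul, ← hw', hn1, Int.cast_ofNat, ← smul_add]
            congr 1
            have : x' - om7 = cz w := hw
            rw [← this]
            abel
          rw [h7]
          exact cz_mem _
        have hN2 : ((0 : Fin 7 → ℚ), n.2) ∈ N := by
          have h8 := N.sub_mem hn (h.e7 n.1 hint)
          have h9 : n - (n.1, (0 : Y)) = ((0 : Fin 7 → ℚ), n.2) := by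
            refine Prod.ext ?_ ?_
            · simp
            · simp
          rwa [h9] at h8
        obtain ⟨a, ha⟩ := h.even _ hN2
        have ha' : BY n.2 n.2 = 2 * a := by
          rw [sF_apply] at ha
          simp only [map_zero, LinearMap.zero_apply, zero_add] at ha
          exact_mod_cast ha
        rw [hk1, ha'] at htot
        rw [ha'] at hY0
        have ha0 : 0 ≤ a := by
          have : (0 : ℚ) ≤ a := by linarith
          exact_mod_cast this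
        have hR : DH 4 ((3 : ℤ) • u - (2 * β) • V16) := by
          intro j hj
          rw [MP_dcc566_gt.bf_sub_right, MP_dcc566_gt.bf_smul_right, MP_dcc566_gt.bf_smul_right]
          exact dvd_sub (Dvd.dvd.mul_left (hu j hj) _) (Dvd.dvd.mul_left (w1 j hj) _)
        have h4 := norm_four hR
        have e5 : bf E8 ((3 : ℤ) • u - (2 * β) • V16) ((3 : ℤ) • u - (2 * β) • V16) +
            (14 + 24 * k + 18 * a) = 36 := by
          have : ((bf E8 ((3 : ℤ) • u - (2 * β) • V16) ((3 : ℤ) • u - (2 * β) • V16) : ℤ) : ℚ) +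
            (14 + 24 * k + 18 * a) = 36 := by
            push_cast at htot ⊢
            linarith
          exact_mod_cast this
        have e6 : 16 ≤ bf E8 ((3 : ℤ) • u - (2 * β) • V16) ((3 : ℤ) • u - (2 * β) • V16) := by
          exact_mod_cast hE'
        omega
    · have hE' : (16 : ℚ) * κ ^ 2 ≤ ((bf E8 ((3 : ℤ) • u - (κ * β) • V16)
          ((3 : ℤ) • u - (κ * β) • V16) : ℤ) : ℚ) := by exact_mod_cast b1 ho
      nlinarith
  · intro κ u n hn hκ _ _ hd hnorm hv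
    exact F3C_H2 h V16 (fun w hw h3 => E7_t7 hw h3) κ u n hn hκ hd hnorm hv

end Pool.Agent.RFN
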