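import Mathlib
import Pool.Agent.Lib.MP_dcc566_gt_R.FamA
import Pool.Agent.Lib.MP_dcc566_gt_R.Ext
import Pool.Agent.Lib.MP_dcc566_gt_R.F3C

/-!
# The family with `E₇`
-/

set_option autoImplicit false

namespace Pool.Agent.RFN

open MP_dcc566_gt (bf E8)

variable {Y : Type} [AddCommGroup Y] [Module ℚ Y]

/-- PROOF.  `c1`: right, `conf_zero (badF3A h)`; `c2`: `confF3D`; `c4`: `confF3E`.  `y8`: `y₈ = (cz g8, 0)`, norm 8, `n = (cz (Pi.single 1 1), 0)`
(product 1, `E7_prod`).  Let `u ∈ N`, `3 ∤ c`: `(u.1 - c g8)/3` has integral products with `Zk 7` (test with `(cz v, 0)`), so by `E7_dual`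
`u.1 = 3x' - (-c) g8` with `x'` in `Zk 7` or the coset: norm `≥ 8` (`E7_g8`) or `≥ 7/2` (`E7_coset`), so the norm of `u` is `> 2`. -/
theorem fam3 {BY : Frm Y} {N : AddSubgroup ((Fin 7 → ℚ) × Y)} (h : F3N BY N) :
    FamOK (sF (mF E7) BY) N := by
  obtain ⟨v8, -, -, -, -, -⟩ := E7_vals
  refine ⟨Pd_F7.sF h.pd, h.even, Or.inr (conf_zero (badF3A h) {2}), confF3D h, confF3E h,
    (cz g8, 0), h.e7 (cz g8) (cz_mem g8), ?_, ⟨(cz (Pi.single 1 1), 0), h.e7 _ (cz_mem _), ?_⟩, ?_⟩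
  · rw [sF_apply]
    simp only [map_zero, add_zero]
    rw [mF_cz, v8]
    exact ⟨1, by norm_num⟩
  · rw [sF_apply]
    simp only [map_zero, add_zero]
    rw [mF_symm E7_symm, (E7_prod _).1]
    have e : (cz (Pi.single 1 1) : Fin 7 → ℚ) 1 + (cz (Pi.single 1 1) : Fin 7 → ℚ) 6 =
        ((1 : ℤ) : ℚ) := by
      simp [cz]
    rw [e, Dv_int]
    decide
  · intro u hu c hc hd heq
    have hb := h.pd.nonneg u.2
    rw [sF_apply] at heq
    have hc' : ¬ (3 : ℤ) ∣ -c := by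
      rwa [dvd_neg]
    obtain ⟨x', hx'⟩ : ∃ x' : Fin 7 → ℚ, x' = (1 / 3 : ℚ) • (u.1 - (c : ℚ) • cz g8) := ⟨_, rfl⟩
    have hux : u.1 = (3 : ℚ) • x' - ((-c : ℤ) : ℚ) • cz g8 := by
      rw [hx', smul_smul]
      push_cast
      module
    have hint : ∀ v : Fin 7 → ℤ, IsZ (mF E7 x' (cz v)) := by
      intro v
      obtain ⟨k, hk⟩ := hd (cz v, 0) (h.e7 _ (cz_mem v))
      rw [sF_apply, map_zero, add_zero] at hk
      refine ⟨k, ?_⟩
      have hk' : mF E7 (u.1 - (c : ℚ) • cz g8) (cz v) = 3 * k := by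
        push_cast at hk
        exact hk
      rw [hx', map_smul, LinearMap.smul_apply, hk', smul_eq_mul]
      ring
    rcases E7_dual hint with hw | hw
    · obtain ⟨w, hw⟩ := mem_Zk.1 hw
      have h8 := E7_g8 hc' w
      have e1 : mF E7 u.1 u.1 =
          ((bf E7 ((3 : ℤ) • w - (-c) • g8) ((3 : ℤ) • w - (-c) • g8) : ℤ) : ℚ) := by
        rw [← mF_cz, cz_sub, cz_smul, cz_smul, hux, hw]
        norm_num
      have h9 : (8 : ℚ) ≤ mF E7 u.1 u.1 := by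
        rw [e1]
        exact_mod_cast h8
      linarith
    · obtain ⟨⟨n, hn0, hn⟩, -, -⟩ := E7_coset hc' hw
      rw [← hux] at hn
      have hn1 : (0 : ℚ) ≤ n := by exact_mod_cast hn0
      linarith

end Pool.Agent.RFN
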