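import Mathlib
import Pool.Agent.Lib.MP_dcc566_gt_R.RkN
import Pool.Agent.Lib.MP_dcc566_gt_R.Ext
import Pool.Agent.Lib.MP_dcc566_gt_R.F2

/-!
# The rank modulo 3 of `E₆ ⊕ T`
-/

set_option autoImplicit false

namespace Pool.Agent.RFN

open MP_dcc566_gt (bf E8)

variable {Y : Type} [AddCommGroup Y] [Module ℚ Y]

/-- The products with five basis vectors decide. -/
private theorem Fam6_rad {ξ : Fin 6 → ℤ}
    (h : ∀ l : Fin 5, (3 : ℤ) ∣ (E6.mulVec ξ) l.succ) (y : Fin 6 → ℤ) :
    (3 : ℤ) ∣ bf E6 ξ y := by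
  have h0 : (3 : ℤ) ∣ (E6.mulVec ξ) 0 := by
    have h1 := (E6_om ξ).1
    have h2 : bf E6 om6 ξ = ∑ l, om6 l * (E6.mulVec ξ) l := rfl
    rw [h2, Fin.sum_univ_six] at h1
    have o0 : om6 0 = 4 := rfl
    have o1 : om6 1 = 3 := rfl
    have o2 : om6 2 = 5 := rfl
    have o3 : om6 3 = 6 := rfl
    have o4 : om6 4 = 4 := rfl
    have o5 : om6 5 = 2 := rfl
    rw [o0, o1, o2, o3, o4, o5] at h1
    have k1 : (3 : ℤ) ∣ (E6.mulVec ξ) 1 := h 0
    have k2 : (3 : ℤ) ∣ (E6.mulVec ξ) 2 := h 1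
    have k3 : (3 : ℤ) ∣ (E6.mulVec ξ) 3 := h 2
    have k4 : (3 : ℤ) ∣ (E6.mulVec ξ) 4 := h 3
    have k5 : (3 : ℤ) ∣ (E6.mulVec ξ) 5 := h 4
    omega
  rw [MP_dcc566_gt.bf_comm _ E6_symm]
  have h2 : bf E6 y ξ = ∑ l, y l * (E6.mulVec ξ) l := rfl
  rw [h2]
  refine Finset.dvd_sum fun l _ => Dvd.dvd.mul_left ?_ _
  refine Fin.cases h0 (fun i => h i) l

/-- PROOF.  Let `u 0, ..., u 7` be independent modulo the radical, `u_i = (cz x_i, n_i)`.  As `rk_N` (`RkN.lean`): coefficient vectors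
`c ∈ 𝔽_3^8` with `bf E6 (∑ c_i x_i) (Pi.single l 1) = 0 mod 3` for `l = 1,...,5`: a subspace of dimension `≥ 3`; the condition for `l = 0`
follows, because `bf E6 om6 v = 3 v 0` and `om6 = (1,0,-1,0,1,-1) mod 3`.  So `∑ c_i x_i` is in the radical of `E₆` modulo 3.  Lift a
basis (3 elements) to integers, `w_l = ∑ c^(l)_i n_i`; a combination in the radical of `T` lifts to one in the radical of the sum. -/
theorem rk_T6 {BT : Frm Y} {T : AddSubgroup Y}
    (h : RkGe (sF (mF E6) BT) ((Zk 6).prod T) 3 8) : RkGe BT T 3 3 := by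
  have : Fact (Nat.Prime 3) := ⟨Nat.prime_three⟩
  obtain ⟨u, hu, hind⟩ := h
  -- coordinates
  have hex : ∀ i : Fin 8, ∃ x : Fin 6 → ℤ, (u i).1 = cz x ∧ (u i).2 ∈ T := by
    intro i
    obtain ⟨⟨x, hx⟩, hn⟩ := hu i i.2
    exact ⟨x, hx, hn⟩
  choose x hx hn using hex
  -- the linear map
  set v : Fin 8 → (Fin 5 → ZMod 3) :=
    fun i l => (((E6.mulVec (x i)) l.succ : ℤ) : ZMod 3) with hv
  set φ := Fintype.linearCombination (ZMod 3) v with hφ
  have hker : 3 ≤ Module.finrank (ZMod 3) (LinearMap.ker φ) := by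
    have h1 := LinearMap.finrank_range_add_finrank_ker φ
    have h2 : Module.finrank (ZMod 3) (LinearMap.range φ) ≤ 5 := by
      refine (Submodule.finrank_le _).trans ?_
      simp
    have h3 : Module.finrank (ZMod 3) (Fin 8 → ZMod 3) = 8 := by simp
    omega
  obtain ⟨f, hf⟩ := exists_linearIndependent_of_le_finrank hker
  -- integer lifts
  set c : Fin 3 → Fin 8 → ℤ := fun l i => (((f l : Fin 8 → ZMod 3) i).val : ℤ) with hc
  have hcf : ∀ l i, ((c l i : ℤ) : ZMod 3) = (f l : Fin 8 → ZMod 3) i := by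
    intro l i
    simp [hc]
  set w : ℕ → Y := fun l => if h : l < 3 then ∑ i : Fin 8, (c ⟨l, h⟩ i : ℚ) • (u i).2
    else 0 with hw
  have hsm : ∀ (z : ℤ) (y : Y), y ∈ T → (z : ℚ) • y ∈ T := by
    intro z y hy
    rw [Int.cast_smul_eq_zsmul]
    exact T.zsmul_mem hy z
  refine ⟨w, ?_, ?_⟩
  · intro l hl
    simp only [hw, dif_pos hl]
    exact T.sum_mem fun i _ => hsm _ _ (hn i)
  · intro d hd
    -- the coefficients of the combination
    set E : Fin 8 → ℤ := fun i => ∑ l : Fin 3, d l * c l i with hE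
    have hEmod : ∀ i, ((E i : ℤ) : ZMod 3) =
        ∑ l : Fin 3, (d l : ZMod 3) * (f l : Fin 8 → ZMod 3) i := by
      intro i
      simp only [hE]
      push_cast
      exact Finset.sum_congr rfl fun l _ => by rw [hcf]
    -- divisibility of the coordinates
    have hdiv : ∀ (t : Fin 8 → ℤ), (∀ l : Fin 3,
        ∑ i, (f l : Fin 8 → ZMod 3) i * (t i : ZMod 3) = 0) →
          ((3 : ℕ) : ℤ) ∣ ∑ i, E i * t i := by
      intro t ht
      rw [← ZMod.intCast_zmod_eq_zero_iff_dvd]
      push_cast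
      calc ∑ i, ((E i : ℤ) : ZMod 3) * (t i : ZMod 3)
          = ∑ i, ∑ l : Fin 3, (d l : ZMod 3) * ((f l : Fin 8 → ZMod 3) i * (t i : ZMod 3)) := by
            refine Finset.sum_congr rfl fun i _ => ?_
            rw [hEmod, Finset.sum_mul]
            exact Finset.sum_congr rfl fun l _ => by ring
        _ = ∑ l : Fin 3, (d l : ZMod 3) * ∑ i, (f l : Fin 8 → ZMod 3) i * (t i : ZMod 3) := by
            rw [Finset.sum_comm]
            exact Finset.sum_congr rfl fun l _ => by rw [Finset.mul_sum]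
        _ = 0 := by simp [ht]
    have hfk : ∀ l : Fin 3, ∑ i, (f l : Fin 8 → ZMod 3) i • v i = 0 := by
      intro l
      have := LinearMap.mem_ker.1 (f l).2
      exact this
    obtain ⟨ξ, hξ⟩ : ∃ ξ : Fin 6 → ℤ, ξ = fun j => ∑ i, E i * x i j := ⟨_, rfl⟩
    have hmv : ∀ m, (E6.mulVec ξ) m = ∑ i, E i * (E6.mulVec (x i)) m := by
      intro m
      have h1 : (E6.mulVec ξ) m = ∑ j, E6 m j * ∑ i, E i * x i j := by
        rw [hξ]
        rfl
      have h2 : ∀ i, E i * (E6.mulVec (x i)) m = ∑ j, E i * (E6 m j * x i j) := fun i => by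
        rw [← Finset.mul_sum]
        rfl
      rw [h1, Finset.sum_congr rfl fun i _ => h2 i, Finset.sum_comm]
      refine Finset.sum_congr rfl fun j _ => ?_
      rw [Finset.mul_sum]
      refine Finset.sum_congr rfl fun i _ => ?_
      ring
    have hx' : ∀ l : Fin 5, (3 : ℤ) ∣ (E6.mulVec ξ) l.succ := by
      intro l
      rw [hmv]
      have h1 := hdiv (fun i => (E6.mulVec (x i)) l.succ) fun m => by
        have := congrArg (fun t : Fin 5 → ZMod 3 => t l) (hfk m)
        simpa [hv, Finset.sum_apply] using this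
      exact_mod_cast h1
    set e : ℕ → ℤ := fun i => if h : i < 8 then E ⟨i, h⟩ else 0 with he
    have hsum : ∑ i ∈ Finset.range 8, (e i : ℚ) • u i =
        (cz ξ, ∑ l ∈ Finset.range 3, (d l : ℚ) • w l) := by
      rw [Finset.sum_range]
      have h1 : ∀ i : Fin 8, (e i : ℚ) • u i = (E i : ℚ) • u i := by
        intro i
        simp [he]
      rw [Finset.sum_congr rfl fun i _ => h1 i]
      refine Prod.ext ?_ ?_
      · simp only [Prod.fst_sum, Prod.smul_fst, hx]
        funext j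
        simp only [Finset.sum_apply, Pi.smul_apply, smul_eq_mul, cz, hξ]
        push_cast
        rfl
      · simp only [Prod.snd_sum, Prod.smul_snd]
        rw [Finset.sum_range]
        have h2 : ∀ l : Fin 3, (d l : ℚ) • w l =
            ∑ i : Fin 8, ((d l : ℚ) * (c l i : ℚ)) • (u i).2 := by
          intro l
          simp only [hw, Fin.is_lt, dif_pos, Fin.eta, Finset.smul_sum, smul_smul]
        rw [Finset.sum_congr rfl fun l _ => h2 l, Finset.sum_comm]
        refine Finset.sum_congr rfl fun i _ => ?_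
        rw [← Finset.sum_smul]
        congr 1
        simp only [hE]
        push_cast
        rfl
    have hall := hind e (fun y hy => by
      rw [hsum, sF_apply]
      obtain ⟨⟨y3, hy3⟩, hy4⟩ := hy
      refine Dv.add ?_ (hd _ hy4)
      simp only
      rw [hy3, show (fun i => ((y3 i : ℤ) : ℚ)) = cz y3 from rfl, mF_cz]
      exact Dv_int.2 (by exact_mod_cast Fam6_rad hx' y3))
    -- conclusion
    have hE0 : ∀ i, ((E i : ℤ) : ZMod 3) = 0 := by
      intro i
      have h1 := hall i i.2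
      have h2 : e i = E i := by simp [he]
      rw [h2] at h1
      exact (ZMod.intCast_zmod_eq_zero_iff_dvd _ _).2 h1
    have hrel : ∑ l : Fin 3, (d l : ZMod 3) • f l = 0 := by
      apply Subtype.ext
      funext i
      have h1 := hE0 i
      rw [hEmod] at h1
      simpa [Finset.sum_apply] using h1
    have hd0 := Fintype.linearIndependent_iff.1 hf (fun l => (d l : ZMod 3)) hrel
    intro l hl
    exact (ZMod.intCast_zmod_eq_zero_iff_dvd _ _).1 (hd0 ⟨l, hl⟩)

end Pool.Agent.RFN
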