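import Mathlib
import Pool.Agent.Lib.MP_dcc566_gt_R.Fam1
import Pool.Agent.Lib.MP_dcc566_gt_R.Fam6
import Pool.Agent.Lib.MP_dcc566_gt_R.Fam2
import Pool.Agent.Lib.MP_dcc566_gt_R.Fam3

/-!
# The three families: `fam1` (`Fam1`), `rk_T6` (`Fam6`), `fam2` (`Fam2`), `fam3` (`Fam3`)
-/
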