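import Mathlib
import Pool.Agent.Lib.MP_dcc566_gt_R.Bas

/-!
# Isometries between rational quadratic spaces, property (A)
-/

set_option autoImplicit false

namespace Pool.Agent.RFN

variable {V V' V'' W W' X X' : Type} [AddCommGroup V] [Module ℚ V] [AddCommGroup V'] [Module ℚ V']
  [AddCommGroup V''] [Module ℚ V''] [AddCommGroup W] [Module ℚ W] [AddCommGroup W'] [Module ℚ W']
  [AddCommGroup X] [Module ℚ X] [AddCommGroup X'] [Module ℚ X']

/-- `B` and `B'` are isometric. -/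
def Isom (B : Frm V) (B' : Frm V') : Prop := ∃ φ : V ≃ₗ[ℚ] V', IsIso B B' φ

/-- Property (A): no two vectors of the radical modulo 3 are independent modulo 3. -/
def PropA (B : Frm V) (Λ : AddSubgroup V) : Prop :=
  ∀ x ∈ Λ, ∀ y ∈ Λ, (∀ z ∈ Λ, Dv 3 (B x z)) → (∀ z ∈ Λ, Dv 3 (B y z)) →
    ∃ a b : ℤ, ¬ ((3 : ℤ) ∣ a ∧ (3 : ℤ) ∣ b) ∧ ∃ w ∈ Λ, (a : ℚ) • x + (b : ℚ) • y = (3 : ℚ) • w

/-- Property (A) for all maximal even lattices. -/
def AllA (B : Frm V) : Prop := ∀ Λ : AddSubgroup V, MaxE B Λ → PropA B Λ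

theorem Isom.refl (B : Frm V) : Isom B B := ⟨LinearEquiv.refl ℚ V, fun _ _ => rfl⟩

theorem Isom.symm {B : Frm V} {B' : Frm V'} (h : Isom B B') : Isom B' B := by
  obtain ⟨φ, hφ⟩ := h
  refine ⟨φ.symm, fun x y => ?_⟩
  rw [← hφ, LinearEquiv.apply_symm_apply, LinearEquiv.apply_symm_apply]

theorem Isom.trans {B : Frm V} {B' : Frm V'} {B'' : Frm V''} (h : Isom B B') (h' : Isom B' B'') :
    Isom B B'' := by
  obtain ⟨φ, hφ⟩ := h
  obtain ⟨ψ, hψ⟩ := h'
  refine ⟨φ.trans ψ, fun x y => ?_⟩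
  rw [LinearEquiv.trans_apply, LinearEquiv.trans_apply, hψ, hφ]

theorem IsIso.prod {B : Frm V} {B' : Frm V'} {C : Frm W} {C' : Frm W'} {φ : V ≃ₗ[ℚ] V'}
    {ψ : W ≃ₗ[ℚ] W'} (h : IsIso B B' φ) (h' : IsIso C C' ψ) :
    IsIso (sF B C) (sF B' C') (LinearEquiv.prodCongr φ ψ) := by
  intro x y
  rw [sF_apply, sF_apply]
  exact congrArg₂ (· + ·) (h x.1 y.1) (h' x.2 y.2)

theorem Isom.prod {B : Frm V} {B' : Frm V'} {C : Frm W} {C' : Frm W'} (h : Isom B B')
    (h' : Isom C C') : Isom (sF B C) (sF B' C') := by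
  obtain ⟨φ, hφ⟩ := h
  obtain ⟨ψ, hψ⟩ := h'
  exact ⟨_, hφ.prod hψ⟩

theorem Isom.pf {BX : Frm X} {BX' : Frm X'} (h : Isom BX BX') : Isom (PF BX) (PF BX') :=
  (Isom.refl HF).prod ((Isom.refl F8).prod h)

/-- Maximality is preserved by isometries. -/
theorem MaxE.iso {B : Frm V} {B' : Frm V'} {φ : V ≃ₗ[ℚ] V'} (hi : IsIso B B' φ)
    {Λ : AddSubgroup V} {Λ' : AddSubgroup V'} (hm : MapsL φ Λ Λ') (h : MaxE B Λ) :
    MaxE B' Λ' where
  even := fun x hx => by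
    have h1 := h.even (φ.symm x) ((hm (φ.symm x)).1 (by rwa [LinearEquiv.apply_symm_apply]))
    rwa [← hi, LinearEquiv.apply_symm_apply] at h1
  full := fun v => by
    obtain ⟨n, hn, h1⟩ := h.full (φ.symm v)
    refine ⟨n, hn, ?_⟩
    have h2 := (hm _).2 h1
    rwa [map_smul, LinearEquiv.apply_symm_apply] at h2
  max := fun x hx h2 => by
    have h3 : φ.symm x ∈ Λ := by
      refine h.max _ (fun y hy => ?_) ?_
      · have h4 := hx (φ y) ((hm y).2 hy)
        rwa [← hi, LinearEquiv.apply_symm_apply]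
      · rwa [← hi, LinearEquiv.apply_symm_apply]
    have h4 := (hm _).2 h3
    rwa [LinearEquiv.apply_symm_apply] at h4

/-- Property (A) for all maximal lattices depends only on the isometry class. -/
theorem AllA.iso {B : Frm V} {B' : Frm V'} (h : AllA B) (hi : Isom B B') : AllA B' := by
  obtain ⟨φ, hφ⟩ := hi
  intro Λ' hΛ'
  have hm : MapsL φ.symm Λ' (Λ'.comap φ.toLinearMap.toAddMonoidHom) := by
    intro x
    rw [AddSubgroup.mem_comap]
    change φ (φ.symm x) ∈ Λ' ↔ x ∈ Λ'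
    rw [LinearEquiv.apply_symm_apply]
  have hφ' : IsIso B' B φ.symm := fun x y => by
    rw [← hφ, LinearEquiv.apply_symm_apply, LinearEquiv.apply_symm_apply]
  have hA := h _ (MaxE.iso hφ' hm hΛ')
  intro x hx y hy h1 h2
  obtain ⟨a, b, hab, w, hw, e⟩ := hA (φ.symm x) ((hm x).2 hx) (φ.symm y) ((hm y).2 hy)
    (fun z hz => by
      have h3 := h1 (φ z) hz
      rwa [← hφ', LinearEquiv.symm_apply_apply] at h3)
    (fun z hz => by
      have h3 := h2 (φ z) hz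
      rwa [← hφ', LinearEquiv.symm_apply_apply] at h3)
  refine ⟨a, b, hab, φ w, hw, ?_⟩
  have h4 := congrArg φ e
  simpa only [map_add, map_smul, LinearEquiv.apply_symm_apply] using h4

end Pool.Agent.RFN
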