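import Mathlib
import Pool.Agent.Lib.MP_dcc566_gt_R.LFa

/-!
# Splitting off a nondegenerate subspace
-/

set_option autoImplicit false

namespace Pool.Agent.RFN

open Module

variable {V K : Type} [AddCommGroup V] [Module ℚ V] [AddCommGroup K] [Module ℚ K]

/-- An isometric embedding of a nondegenerate space splits.

PROOF.  `BK : K →ₗ (K →ₗ ℚ)` is injective (`Nd`: `BK x = 0` gives `x = 0`) and `K` is finite dimensional
(`Subspace.dual_finrank_eq`), so it is bijective (`LinearMap.linearEquivOfInjective`, or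
`LinearEquiv.ofInjectiveOfFinrankEq`).  So there is a linear map `π : V →ₗ K` with `BK (π v) x = B v (ι x)` for all
`v`, `x` (`π = e.symm ∘ (v ↦ (B v) ∘ ι)`, i.e. `LinearMap.lcomp`).  `π (ι y) = y` (both have the same products:
`BK (π (ι y)) x = B (ι y) (ι x) = BK y x`, and `Nd`).  Let `Y = LinearMap.ker π` (the `v` with `B v (ι x) = 0` for all
`x`).  The map `v ↦ (π v, v - ι (π v))` is a linear equivalence `V ≃ K × Y` with inverse `(x, y) ↦ ι x + y`.
(Or `LinearMap.ofIsCompl`, `Submodule.prodEquivOfIsCompl`.)  So `finrank Y = m` (`finrank_prod`), and a basis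
(`Module.finBasisOfFinrankEq` and `Basis.equivFun`) gives `e' : Y ≃ (Fin m → ℚ)`.  `BY x y = B (e'.symm x) (e'.symm y)`
(`LinearMap.compl₁₂` or `LinearMap.mk₂`).  Isometry: `B (ι x + y) (ι x' + y') = BK x x' + B y y'`, since
`B y (ι x') = BK (π y) x' = 0` and by symmetry.  `φ (ι x) = (x, e' (ι x - ι x)) = (x, 0)`. -/
theorem split_gen [FiniteDimensional ℚ V] [FiniteDimensional ℚ K] {B : Frm V} {BK : Frm K}
    (hs : ∀ x y, B x y = B y x) (hK : Nd BK) (ι : K →ₗ[ℚ] V)
    (hι : ∀ x y, B (ι x) (ι y) = BK x y) {m : ℕ} (hm : finrank ℚ V = finrank ℚ K + m) :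
    ∃ (BY : Frm (Fin m → ℚ)) (φ : V ≃ₗ[ℚ] K × (Fin m → ℚ)),
      IsIso B (sF BK BY) φ ∧ ∀ x, φ (ι x) = (x, 0) := by
  have hinj : Function.Injective BK := by
    rw [injective_iff_map_eq_zero]
    intro x hx
    apply hK.nd
    intro y
    rw [hx]
    rfl
  let e : K ≃ₗ[ℚ] (K →ₗ[ℚ] ℚ) :=
    LinearMap.linearEquivOfInjective BK hinj Subspace.dual_finrank_eq.symm
  have he : ∀ x, e x = BK x := fun x => rfl
  let π : V →ₗ[ℚ] K := e.symm.toLinearMap ∘ₗ (LinearMap.lcomp ℚ ℚ ι) ∘ₗ B
  have hπ : ∀ v x, BK (π v) x = B v (ι x) := by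
    intro v x
    have h1 : e (π v) = (B v) ∘ₗ ι := e.apply_symm_apply _
    rw [← he, h1]
    rfl
  have hπι : ∀ y, π (ι y) = y := by
    intro y
    have h1 : π (ι y) - y = 0 := by
      apply hK.nd
      intro x
      rw [map_sub, LinearMap.sub_apply, hπ, hι, sub_self]
    exact sub_eq_zero.1 h1
  have hker : ∀ v, v - ι (π v) ∈ LinearMap.ker π := fun v => by
    rw [LinearMap.mem_ker, map_sub, hπι, sub_self]
  let ψ : V ≃ₗ[ℚ] K × (LinearMap.ker π) :=
    { toFun := fun v => (π v, ⟨v - ι (π v), hker v⟩)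
      map_add' := fun v w => by
        refine Prod.ext (map_add π v w) (Subtype.ext ?_)
        change v + w - ι (π (v + w)) = (v - ι (π v)) + (w - ι (π w))
        rw [map_add, map_add]
        abel
      map_smul' := fun r v => by
        refine Prod.ext (map_smul π r v) (Subtype.ext ?_)
        change r • v - ι (π (r • v)) = r • (v - ι (π v))
        rw [map_smul, map_smul, smul_sub]
      invFun := fun p => ι p.1 + p.2
      left_inv := fun v => by
        change ι (π v) + (v - ι (π v)) = v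
        abel
      right_inv := fun p => by
        have h1 : π (ι p.1 + p.2) = p.1 := by
          have h2 : π (p.2 : V) = 0 := p.2.2
          rw [map_add, hπι, h2, add_zero]
        refine Prod.ext h1 (Subtype.ext ?_)
        change ι p.1 + p.2 - ι (π (ι p.1 + p.2)) = p.2
        rw [h1]
        abel }
  have hfin : finrank ℚ (LinearMap.ker π) = m := by
    have h1 := ψ.finrank_eq
    rw [Module.finrank_prod] at h1
    omega
  let e' : (LinearMap.ker π) ≃ₗ[ℚ] (Fin m → ℚ) :=
    (Module.finBasisOfFinrankEq ℚ (LinearMap.ker π) hfin).equivFun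
  let f : (Fin m → ℚ) →ₗ[ℚ] V := (LinearMap.ker π).subtype ∘ₗ e'.symm.toLinearMap
  have hf : ∀ z : LinearMap.ker π, f (e' z) = (z : V) := by
    intro z
    change ((e'.symm (e' z) : LinearMap.ker π) : V) = z
    rw [e'.symm_apply_apply]
  refine ⟨B.compl₁₂ f f, ψ.trans (LinearEquiv.prodCongr (LinearEquiv.refl ℚ K) e'), ?_, ?_⟩
  · intro v w
    change sF BK (B.compl₁₂ f f) (π v, e' ⟨v - ι (π v), hker v⟩)
      (π w, e' ⟨w - ι (π w), hker w⟩) = B v w
    rw [sF_apply, LinearMap.compl₁₂_apply, hf, hf]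
    simp only [map_sub, LinearMap.sub_apply]
    rw [hι, ← hπ v, hs (ι (π v)) w, ← hπ w, hK.symm (π w) (π v)]
    ring
  · intro x
    change (π (ι x), e' ⟨ι x - ι (π (ι x)), hker (ι x)⟩) = (x, 0)
    have h1 : (⟨ι x - ι (π (ι x)), hker (ι x)⟩ : LinearMap.ker π) = 0 := by
      apply Subtype.ext
      change ι x - ι (π (ι x)) = 0
      rw [hπι, sub_self]
    rw [h1, map_zero, hπι]

end Pool.Agent.RFN
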