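import Mathlib
import Pool.Agent.Lib.MP_dcc566_gt_R.LFb

/-!
# Embeddings given by orthogonal families
-/

set_option autoImplicit false

namespace Pool.Agent.RFN

open Module

/-- `t` and `P` realise the form `C` by a family of orthogonal vectors `w_l` of norms `t_l`:
`P i l` is the product of the `i`-th basis vector with `w_l`. -/
def Rz {k : ℕ} (C : Matrix (Fin k) (Fin k) ℤ) (t : Fin k → ℤ) (P : Matrix (Fin k) (Fin k) ℤ) :
    Prop :=
  (∀ l, 0 < t l) ∧ ∀ i j, ∑ l, (P i l : ℚ) * P j l / t l = C i j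

variable {V : Type} [AddCommGroup V] [Module ℚ V]

theorem Pd.nd {B : Frm V} (hB : Pd B) : Nd B where
  symm := hB.symm
  nd := fun x h => hB.eq_zero (h x)

/-- PROOF.  `ι x = ∑ i, x i • ∑ l, ((P i l : ℚ) / t l) • w l` (a linear map: `Fintype.linearCombination` or
`LinearMap.mk`/sum of `LinearMap.smulRight (LinearMap.proj i) _`).  With `α i = ∑ l, (P i l / t l) • w l`:
`B (α i) (α j) = ∑ l, (P i l) (P j l) / t l = C i j` by orthogonality (`t l ≠ 0`), hence
`B (ι x) (ι y) = ∑ i, ∑ j, x i * C i j * y j = mF C x y` (`mF_apply`). -/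
theorem embed_C {B : Frm V} {k : ℕ} {C P : Matrix (Fin k) (Fin k) ℤ} {t : Fin k → ℤ}
    (hR : Rz C t P) {w : Fin k → V} (hw : ∀ i, B (w i) (w i) = t i)
    (hw' : ∀ i j, i ≠ j → B (w i) (w j) = 0) :
    ∃ ι : (Fin k → ℚ) →ₗ[ℚ] V, ∀ x y, B (ι x) (ι y) = mF C x y := by
  obtain ⟨ht, hC⟩ := hR
  have key : ∀ i j, B (∑ l, ((P i l : ℚ) / t l) • w l) (∑ l, ((P j l : ℚ) / t l) • w l) = C i j := by
    intro i j
    rw [← hC i j, map_sum B, LinearMap.sum_apply]
    refine Finset.sum_congr rfl fun l _ => ?_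
    rw [map_sum, Finset.sum_eq_single l]
    · rw [map_smul, map_smul, LinearMap.smul_apply, hw l, smul_eq_mul, smul_eq_mul]
      have h0 : (t l : ℚ) ≠ 0 := by
        have := ht l
        exact_mod_cast this.ne'
      field_simp
    · intro l' _ hl
      rw [map_smul, map_smul, LinearMap.smul_apply, hw' l l' (Ne.symm hl), smul_zero, smul_zero]
    · intro h
      exact absurd (Finset.mem_univ l) h
  refine ⟨∑ i, (LinearMap.proj i : (Fin k → ℚ) →ₗ[ℚ] ℚ).smulRight
    (∑ l, ((P i l : ℚ) / t l) • w l), fun x y => ?_⟩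
  have hx : ∀ z : Fin k → ℚ, (∑ i, (LinearMap.proj i : (Fin k → ℚ) →ₗ[ℚ] ℚ).smulRight
      (∑ l, ((P i l : ℚ) / t l) • w l)) z = ∑ i, z i • (∑ l, ((P i l : ℚ) / t l) • w l) := by
    intro z
    rw [LinearMap.sum_apply]
    rfl
  rw [hx, hx, mF_apply, map_sum B, LinearMap.sum_apply]
  refine Finset.sum_congr rfl fun i _ => ?_
  rw [map_sum]
  refine Finset.sum_congr rfl fun j _ => ?_
  rw [map_smul, map_smul, LinearMap.smul_apply, key, smul_eq_mul, smul_eq_mul]
  ring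

theorem split_C [FiniteDimensional ℚ V] {B : Frm V} (hB : Pd B) {k m : ℕ}
    (hm : finrank ℚ V = k + m) {C P : Matrix (Fin k) (Fin k) ℤ} {t : Fin k → ℤ} (hC : Pd (mF C))
    (hR : Rz C t P) {w : Fin k → V} (hw : ∀ i, B (w i) (w i) = t i)
    (hw' : ∀ i j, i ≠ j → B (w i) (w j) = 0) :
    ∃ BY : Frm (Fin m → ℚ), Pd BY ∧ Isom B (sF (mF C) BY) := by
  obtain ⟨ι, hι⟩ := embed_C hR hw hw'
  obtain ⟨BY, φ, hφ, -⟩ := split_gen hB.symm hC.nd ι hι (m := m)
    (by rw [finrank_fin_fun]; exact hm)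
  have key : ∀ x y, BY x y = B (φ.symm (0, x)) (φ.symm (0, y)) := by
    intro x y
    rw [← hφ, LinearEquiv.apply_symm_apply, LinearEquiv.apply_symm_apply, sF_apply]
    simp
  refine ⟨BY, ⟨fun x y => ?_, fun x hx => ?_⟩, φ, hφ⟩
  · rw [key, key, hB.symm]
  · rw [key]
    refine hB.pos _ fun h => hx ?_
    have h1 := congrArg φ h
    rw [LinearEquiv.apply_symm_apply, map_zero] at h1
    exact congrArg Prod.snd h1

end Pool.Agent.RFN
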