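import Mathlib
import Pool.Agent.Lib.MP_dcc566_gt_R.LFa
import Pool.Agent.Lib.MP_dcc566_gt_R.LFd
import Pool.Agent.Lib.MP_dcc566_gt_R.LKe
import Pool.Agent.Lib.MP_dcc566_gt_R.LM0

/-!
# Existence of lattices; lattices with a basis
-/

set_option autoImplicit false

namespace Pool.Agent.RFN

open Module
open MP_dcc566_gt (bf EvenPD)

private theorem exists_den_LFg {ι : Type} [Fintype ι] (f : ι → ℚ) :
    ∃ D : ℕ, 0 < D ∧ ∀ i, IsZ ((D : ℚ) * f i) := by
  classical
  refine ⟨∏ i, (f i).den, Finset.prod_pos fun i _ => (f i).den_pos, fun i => ?_⟩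
  refine ⟨(∏ j ∈ Finset.univ.erase i, ((f j).den : ℤ)) * (f i).num, ?_⟩
  rw [← Finset.mul_prod_erase Finset.univ _ (Finset.mem_univ i)]
  have h2 : ((f i).den : ℚ) * f i = (f i).num := by
    rw [mul_comm]
    exact Rat.mul_den_eq_num (f i)
  push_cast
  rw [← h2]
  ring

private theorem cz_sum_LFg {m : ℕ} (x : Fin m → ℚ) :
    x = ∑ i, x i • (Pi.single i 1 : Fin m → ℚ) := by
  funext j
  rw [Finset.sum_apply]
  simp [Pi.single_apply]

private theorem form_sum_LFg {m : ℕ} (B : Frm (Fin m → ℚ)) (x y : Fin m → ℚ) :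
    B x y = ∑ i, ∑ j, x i * y j * B (Pi.single i 1) (Pi.single j 1) := by
  conv_lhs => rw [cz_sum_LFg x, cz_sum_LFg y]
  simp only [map_sum, map_smul, LinearMap.sum_apply, LinearMap.smul_apply, smul_eq_mul]
  rw [Finset.sum_comm]
  refine Finset.sum_congr rfl fun i _ => ?_
  rw [Finset.mul_sum]
  refine Finset.sum_congr rfl fun j _ => ?_
  ring

private theorem isZ_sum_LFg {ι : Type} (s : Finset ι) (f : ι → ℚ) (h : ∀ i ∈ s, IsZ (f i)) :
    IsZ (∑ i ∈ s, f i) := by
  classical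
  induction s using Finset.induction_on with
  | empty => exact ⟨0, by simp⟩
  | insert a s ha ih =>
    rw [Finset.sum_insert ha]
    exact (h a (Finset.mem_insert_self a s)).add
      (ih fun i hi => h i (Finset.mem_insert_of_mem hi))

/-- PROOF.  Let `D > 0` be a natural number with `D * B (e_i) (e_j)` an integer for all `i, j` (product of the denominators
of the `m²` numbers, `e_i = Pi.single i 1`).  `L = {x | ∃ u, x = (2 D) • cz u}` (the image of `Zk m`, e.g.
`(Zk m).map (DistribMulAction.toAddMonoidHom _ (2 * D : ℚ))`).  Even: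
`B (2D cz u) (2D cz u) = 4 D² ∑ u_i u_j B e_i e_j = 2 * (2 D * integer)`.  Full: `exists_cz x` gives `n • x = cz u`, so
`(2 D n) • x ∈ L`. -/
theorem exists_even_full {m : ℕ} (B : Frm (Fin m → ℚ)) :
    ∃ L : AddSubgroup (Fin m → ℚ), EvL B L ∧ FullL L := by
  obtain ⟨D, hD, hDz⟩ := exists_den_LFg
    (fun p : Fin m × Fin m => B (Pi.single p.1 1) (Pi.single p.2 1))
  have hint : ∀ u : Fin m → ℤ, IsZ ((D : ℚ) * B (cz u) (cz u)) := by
    intro u
    rw [form_sum_LFg B (cz u) (cz u), Finset.mul_sum]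
    refine isZ_sum_LFg _ _ fun i _ => ?_
    rw [Finset.mul_sum]
    refine isZ_sum_LFg _ _ fun j _ => ?_
    have h := ((IsZ.int (u i)).mul (IsZ.int (u j))).mul (hDz (i, j))
    have e : (D : ℚ) * (cz u i * cz u j * B (Pi.single i 1) (Pi.single j 1)) =
        (u i : ℚ) * (u j : ℚ) * ((D : ℚ) * B (Pi.single i 1) (Pi.single j 1)) := by
      simp only [cz]
      ring
    rw [e]
    exact h
  let L : AddSubgroup (Fin m → ℚ) :=
    { carrier := {x | ∃ u : Fin m → ℤ, x = (2 * (D : ℚ)) • cz u}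
      add_mem' := by
        rintro _ _ ⟨u, rfl⟩ ⟨v, rfl⟩
        exact ⟨u + v, by rw [cz_add, smul_add]⟩
      zero_mem' := ⟨0, by rw [cz_zero, smul_zero]⟩
      neg_mem' := by
        rintro _ ⟨u, rfl⟩
        exact ⟨-u, by rw [cz_neg, smul_neg]⟩ }
  refine ⟨L, ?_, ?_⟩
  · rintro _ ⟨u, rfl⟩
    obtain ⟨n, hn⟩ := hint u
    refine ⟨2 * D * n, ?_⟩
    have e : B ((2 * (D : ℚ)) • cz u) ((2 * (D : ℚ)) • cz u) =
        4 * (D : ℚ) * ((D : ℚ) * B (cz u) (cz u)) := by
      simp only [map_smul, LinearMap.smul_apply, smul_eq_mul]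
      ring
    rw [e, hn]
    push_cast
    ring
  · intro v
    obtain ⟨n, u, hn, hu⟩ := exists_cz v
    refine ⟨2 * D * n, by positivity, u, ?_⟩
    rw [← hu, smul_smul]
    push_cast
    rfl

theorem exists_max {m : ℕ} {B : Frm (Fin m → ℚ)} (hs : ∀ x y, B x y = B y x) :
    ∃ Λ : AddSubgroup (Fin m → ℚ), MaxE B Λ := by
  obtain ⟨L, hE, hF⟩ := exists_even_full B
  obtain ⟨Λ, -, h⟩ := exists_maxE hs hE hF
  exact ⟨Λ, h⟩

/-- PROOF.  `exists_zbasis hB.nd hE hF` gives a basis `b` of `Fin m → ℚ` (indexed by `Fin (finrank ..)`; reindex by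
`finCongr (finrank_fin_fun ℚ)`, or `finrank_fin_fun` and `▸`) with `x ∈ Λ ↔ ∀ i, IsZ (b.repr x i)`.  `ψ = b.equivFun`.
`b i ∈ Λ` (coordinates 0, 1), so `B (b i) (b j)` is an integer `T i j` (`EvL.isZ`).  For all `x, y`:
`mF T (ψ x) (ψ y) = ∑ (ψ x i) (T i j) (ψ y j) = B x y` (`Basis.sum_equivFun`).  `ψ x ∈ Zk m ↔ ∀ i, IsZ (ψ x i)`.
`EvenPD T`: symmetric (`B` symmetric, cast injective); `bf T z z = B y y` with `y = ψ.symm (cz z) ∈ Λ` (`mF_cz`) is even,
and positive if `z ≠ 0`. -/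
theorem exists_Zform {m : ℕ} {B : Frm (Fin m → ℚ)} (hB : Pd B) {Λ : AddSubgroup (Fin m → ℚ)}
    (hE : EvL B Λ) (hF : FullL Λ) :
    ∃ (T : Matrix (Fin m) (Fin m) ℤ) (ψ : (Fin m → ℚ) ≃ₗ[ℚ] (Fin m → ℚ)),
      EvenPD T ∧ IsIso B (mF T) ψ ∧ MapsL ψ Λ (Zk m) := by
  obtain ⟨b₀, hb₀⟩ := exists_zbasis hB.nd hE hF
  obtain ⟨b, hb⟩ : ∃ b : Basis (Fin m) ℚ (Fin m → ℚ),
      ∀ x, x ∈ Λ ↔ ∀ i, IsZ (b.repr x i) := by
    refine ⟨b₀.reindex (finCongr (finrank_fin_fun ℚ)), fun x => ?_⟩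
    rw [hb₀ x]
    constructor
    · intro h i
      rw [Basis.repr_reindex_apply]
      exact h _
    · intro h i
      have h1 := h ((finCongr (finrank_fin_fun ℚ)) i)
      rw [Basis.repr_reindex_apply, Equiv.symm_apply_apply] at h1
      exact h1
  have hbm : ∀ i, b i ∈ Λ := by
    intro i
    rw [hb]
    intro j
    rw [Basis.repr_self, Finsupp.single_apply]
    split_ifs
    · exact ⟨1, by simp⟩
    · exact ⟨0, by simp⟩
  choose T hT using fun i j => EvL.isZ hB.symm hE (hbm i) (hbm j)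
  have hiso : IsIso B (mF (Matrix.of T)) b.equivFun := by
    intro x y
    rw [mF_apply]
    conv_rhs => rw [← b.sum_equivFun x, ← b.sum_equivFun y]
    simp only [map_sum, map_smul, LinearMap.sum_apply, LinearMap.smul_apply, smul_eq_mul]
    rw [Finset.sum_comm]
    refine Finset.sum_congr rfl fun i _ => ?_
    rw [Finset.mul_sum]
    refine Finset.sum_congr rfl fun j _ => ?_
    rw [hT]
    simp only [Matrix.of_apply]
    ring
  have hmap : MapsL b.equivFun Λ (Zk m) := by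
    intro x
    rw [hb x, mem_Zk]
    constructor
    · rintro ⟨u, hu⟩ i
      exact ⟨u i, congrFun hu i⟩
    · intro h
      choose u hu using h
      exact ⟨u, funext hu⟩
  refine ⟨Matrix.of T, b.equivFun, ⟨?_, ?_, ?_⟩, hiso, hmap⟩
  · refine Matrix.IsSymm.ext fun i j => ?_
    simp only [Matrix.of_apply]
    have h := hB.symm (b i) (b j)
    rw [hT, hT] at h
    exact (by exact_mod_cast h.symm)
  · intro z
    have h1 := hiso (b.equivFun.symm (cz z)) (b.equivFun.symm (cz z))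
    rw [LinearEquiv.apply_symm_apply, mF_cz] at h1
    have h2 : b.equivFun.symm (cz z) ∈ Λ := by
      rw [← hmap, LinearEquiv.apply_symm_apply]
      exact cz_mem z
    obtain ⟨n, hn⟩ := hE _ h2
    rw [hn] at h1
    refine ⟨n, ?_⟩
    have h3 : bf (Matrix.of T) z z = 2 * n := by exact_mod_cast h1
    rw [h3]
    ring
  · intro z hz
    have h1 := hiso (b.equivFun.symm (cz z)) (b.equivFun.symm (cz z))
    rw [LinearEquiv.apply_symm_apply, mF_cz] at h1
    have h2 : b.equivFun.symm (cz z) ≠ 0 := by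
      intro h
      apply hz
      have h3 := congrArg b.equivFun h
      rw [LinearEquiv.apply_symm_apply, map_zero] at h3
      exact cz_eq_zero.1 h3
    have h3 := hB.pos _ h2
    rw [← h1] at h3
    exact_mod_cast h3

theorem EvenPD.pd {m : ℕ} {T : Matrix (Fin m) (Fin m) ℤ} (hT : EvenPD T) : Pd (mF T) :=
  Pd_mF hT.symm hT.pos

end Pool.Agent.RFN
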