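import Mathlib
import Pool.Agent.Lib.MP_dcc566_gt_R.LFa
import Pool.Agent.Lib.HM4.Main

/-!
# Values of positive definite forms of rank at least four
-/

set_option autoImplicit false

namespace Pool.Agent.RFN

open Module

variable {V : Type} [AddCommGroup V] [Module ℚ V]

/-- A positive definite rational space of dimension at least four represents every positive number.

PROOF.  There are four pairwise orthogonal nonzero vectors `v0, v1, v2, v3`: for instance by
`LinearMap.BilinForm.exists_orthogonal_basis` (`B` is a `LinearMap.BilinForm ℚ V`, symmetric: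
`LinearMap.BilinForm.isSymm_def`; a basis `Fin (finrank ℚ V)`, take its first four vectors), or directly by Gram–Schmidt:
given orthogonal nonzero `v_0..v_{k-1}`, `k < 4`, their span is not everything, take `x` outside, and
`x - ∑ (B x v_i / B v_i v_i) v_i`.  Their norms `a, b, c, d` are positive; `Pool.Agent.HM4.hm4 a b c d t` gives
`x, y, z, w` with `a x² + b y² + c z² + d w² = t`; take `x v0 + y v1 + z v2 + w v3`. -/
theorem repr_pos [FiniteDimensional ℚ V] {B : Frm V} (hB : Pd B) (h4 : 4 ≤ finrank ℚ V) {t : ℚ}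
    (ht : 0 < t) : ∃ w, B w w = t := by
  have hsymm : LinearMap.IsSymm (B : LinearMap.BilinForm ℚ V) := ⟨fun x y => hB.symm x y⟩
  obtain ⟨v, hv⟩ := LinearMap.BilinForm.exists_orthogonal_basis hsymm
  have ho : ∀ i j, i ≠ j → B (v i) (v j) = 0 := fun i j hij => hv hij
  have hp : ∀ i, 0 < B (v i) (v i) := fun i => hB.pos _ (v.ne_zero i)
  obtain ⟨e0, he0⟩ : ∃ e : Fin (finrank ℚ V), e = ⟨0, by omega⟩ := ⟨_, rfl⟩
  obtain ⟨e1, he1⟩ : ∃ e : Fin (finrank ℚ V), e = ⟨1, by omega⟩ := ⟨_, rfl⟩
  obtain ⟨e2, he2⟩ : ∃ e : Fin (finrank ℚ V), e = ⟨2, by omega⟩ := ⟨_, rfl⟩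
  obtain ⟨e3, he3⟩ : ∃ e : Fin (finrank ℚ V), e = ⟨3, by omega⟩ := ⟨_, rfl⟩
  have h01 : e0 ≠ e1 := by rw [he0, he1]; simp
  have h02 : e0 ≠ e2 := by rw [he0, he2]; simp
  have h03 : e0 ≠ e3 := by rw [he0, he3]; simp
  have h12 : e1 ≠ e2 := by rw [he1, he2]; simp
  have h13 : e1 ≠ e3 := by rw [he1, he3]; simp
  have h23 : e2 ≠ e3 := by rw [he2, he3]; simp
  obtain ⟨x, y, z, w, h⟩ := Pool.Agent.HM4.hm4 _ _ _ _ t (hp e0) (hp e1) (hp e2) (hp e3) ht
  refine ⟨x • v e0 + y • v e1 + z • v e2 + w • v e3, ?_⟩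
  simp only [map_add, map_smul, LinearMap.add_apply, LinearMap.smul_apply, smul_eq_mul,
    ho _ _ h01, ho _ _ h02, ho _ _ h03, ho _ _ h12, ho _ _ h13, ho _ _ h23,
    ho _ _ h01.symm, ho _ _ h02.symm, ho _ _ h03.symm, ho _ _ h12.symm, ho _ _ h13.symm,
    ho _ _ h23.symm]
  linear_combination h

/-- Orthogonal families of prescribed norms.

PROOF.  Induction on `k`.  Given `w` for `k`, `k + 1 + 3 ≤ finrank ℚ V`: let
`Y = {v | ∀ i < k, B (w i) v = 0}`, the kernel of a linear map `V →ₗ (Fin k → ℚ)` (`LinearMap.pi`), so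
`finrank Y ≥ finrank V - k ≥ 4` (`LinearMap.finrank_range_add_finrank_ker`, `finrank_fin_fun`).  The restriction of
`B` to `Y` (`LinearMap.compl₁₂ B Y.subtype Y.subtype`) is `Pd`, so `repr_pos` gives `v ∈ Y` of norm `t k`.
`Function.update w k v`, or `fun i => if i = k then v else w i`. -/
theorem ortho_family [FiniteDimensional ℚ V] {B : Frm V} (hB : Pd B) (k : ℕ)
    (hk : k + 3 ≤ finrank ℚ V) (t : ℕ → ℚ) (ht : ∀ i, 0 < t i) :
    ∃ w : ℕ → V, (∀ i < k, B (w i) (w i) = t i) ∧ ∀ i < k, ∀ j < k, i ≠ j → B (w i) (w j) = 0 := by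
  induction k with
  | zero => exact ⟨fun _ => 0, fun i hi => absurd hi (Nat.not_lt_zero i),
      fun i hi => absurd hi (Nat.not_lt_zero i)⟩
  | succ k ih =>
    obtain ⟨w, hw1, hw2⟩ := ih (by omega)
    obtain ⟨f, hf⟩ : ∃ f : V →ₗ[ℚ] (Fin k → ℚ), f = LinearMap.pi (fun i : Fin k => B (w i)) :=
      ⟨_, rfl⟩
    have hker : ∀ v ∈ LinearMap.ker f, ∀ i < k, B (w i) v = 0 := by
      intro v hv i hi
      rw [LinearMap.mem_ker, hf] at hv
      exact congrFun hv ⟨i, hi⟩
    have hdim : 4 ≤ finrank ℚ (LinearMap.ker f) := by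
      have h1 := LinearMap.finrank_range_add_finrank_ker f
      have h2 : finrank ℚ (LinearMap.range f) ≤ k := by
        have h3 := Submodule.finrank_le (LinearMap.range f)
        rwa [Module.finrank_fin_fun] at h3
      omega
    obtain ⟨B', hB'⟩ : ∃ B' : Frm (LinearMap.ker f),
        ∀ x y, B' x y = B (x : V) (y : V) :=
      ⟨LinearMap.compl₁₂ B (LinearMap.ker f).subtype (LinearMap.ker f).subtype, fun _ _ => rfl⟩
    have hPd : Pd B' := by
      refine ⟨fun x y => ?_, fun x hx => ?_⟩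
      · rw [hB', hB', hB.symm]
      · rw [hB']
        refine hB.pos _ fun h => hx ?_
        exact Subtype.ext h
    obtain ⟨v, hv⟩ := repr_pos hPd hdim (ht k)
    rw [hB'] at hv
    refine ⟨fun i => if i = k then (v : V) else w i, ?_, ?_⟩
    · intro i hi
      by_cases h : i = k
      · simp only [if_pos h]
        rw [h]
        exact hv
      · simp only [if_neg h]
        exact hw1 i (by omega)
    · intro i hi j hj hij
      by_cases h : i = k
      · have hjk : j ≠ k := fun h' => hij (h.trans h'.symm)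
        simp only [if_pos h, if_neg hjk]
        rw [hB.symm]
        exact hker _ v.2 j (by omega)
      · by_cases h' : j = k
        · simp only [if_neg h, if_pos h']
          exact hker _ v.2 i (by omega)
        · simp only [if_neg h, if_neg h']
          exact hw2 i (by omega) j (by omega) hij

end Pool.Agent.RFN
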