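import Mathlib
import Pool.Agent.Lib.MP_dcc566_gt_R.LFd
import Pool.Agent.Lib.MP_dcc566_gt_R.E6F
import Pool.Agent.Lib.MP_dcc566_gt_R.E7F

/-!
# Orthogonal families in `E₆`, `E₇`, `E₈`
-/

set_option autoImplicit false

namespace Pool.Agent.RFN

open MP_dcc566_gt (bf)

/-- Products of the simple roots of `E₆` with orthogonal vectors of norms `2, 2, 2, 2, 4, 12`. -/
def P6 : Matrix (Fin 6) (Fin 6) ℤ :=
  ![![0, -1, 0, -1, 1, 3], ![2, 0, 0, 0, 0, 0], ![0, 2, 0, 0, 0, 0], ![-1, -1, -1, 1, 0, 0],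
    ![0, 0, 2, 0, 0, 0], ![0, 0, -1, -1, 1, -3]]

/-- Products of the simple roots of `E₇` with seven orthogonal roots. -/
def P7 : Matrix (Fin 7) (Fin 7) ℤ :=
  ![![0, -1, 0, -1, 0, -1, 1], ![2, 0, 0, 0, 0, 0, 0], ![0, 2, 0, 0, 0, 0, 0],
    ![-1, -1, -1, 1, 0, 0, 0], ![0, 0, 2, 0, 0, 0, 0], ![0, 0, -1, -1, -1, 1, 0],
    ![0, 0, 0, 0, 2, 0, 0]]

/-- Products of the simple roots of `E₈` with eight orthogonal roots. -/
def P8 : Matrix (Fin 8) (Fin 8) ℤ :=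
  ![![0, -1, 0, -1, 0, -1, 1, 0], ![2, 0, 0, 0, 0, 0, 0, 0], ![0, 2, 0, 0, 0, 0, 0, 0],
    ![-1, -1, -1, 1, 0, 0, 0, 0], ![0, 0, 2, 0, 0, 0, 0, 0], ![0, 0, -1, -1, -1, 1, 0, 0],
    ![0, 0, 0, 0, 2, 0, 0, 0], ![0, 0, 0, 0, -1, -1, -1, 1]]

/-- Seven orthogonal roots of `E₇`. -/
def r7 : Fin 7 → Fin 7 → ℤ :=
  ![![0, 1, 0, 0, 0, 0, 0], ![0, 0, 1, 0, 0, 0, 0], ![0, 0, 0, 0, 1, 0, 0],
    ![0, 1, 1, 2, 1, 0, 0], ![0, 0, 0, 0, 0, 0, 1], ![0, 1, 1, 2, 2, 2, 1],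
    ![2, 2, 3, 4, 3, 2, 1]]

private theorem LFe_Rz {k : ℕ} {C P : Matrix (Fin k) (Fin k) ℤ} {t : Fin k → ℤ} (N : ℤ)
    (hN : 0 < N) (ht : ∀ l, 0 < t l) (hd : ∀ l, t l ∣ N)
    (h : ∀ i j, ∑ l, (N / t l) * P i l * P j l = N * C i j) : Rz C t P := by
  refine ⟨ht, fun i j => ?_⟩
  have hN' : (N : ℚ) ≠ 0 := by exact_mod_cast hN.ne'
  refine mul_left_cancel₀ hN' ?_
  have h1 : ((∑ l, (N / t l) * P i l * P j l : ℤ) : ℚ) = ((N * C i j : ℤ) : ℚ) := by rw [h i j]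
  rw [Int.cast_mul, Int.cast_sum] at h1
  rw [← h1, Finset.mul_sum]
  refine Finset.sum_congr rfl fun l _ => ?_
  have h2 : (t l : ℚ) ≠ 0 := by exact_mod_cast (ht l).ne'
  rw [Int.cast_mul, Int.cast_mul, Int.cast_div (hd l) h2]
  ring

/-- PROOF.  `decide` after clearing denominators: `∀ i j, ∑ l, (12 / t l) * P6 i l * P6 j l = 12 * E6 i j` over `ℤ` by
`decide`, then cast (each `t l` divides 12); or `fin_cases i <;> fin_cases j <;> simp [..] <;> norm_num`. -/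
theorem Rz_E6 : Rz E6 ![2, 2, 2, 2, 4, 12] P6 := by
  exact LFe_Rz 12 (by norm_num) (by decide) (by decide) (by decide +kernel)

/-- As `Rz_E6`: `∀ i j, ∑ l, P7 i l * P7 j l = 2 * E7 i j` by `decide`. -/
theorem Rz_E7 : Rz E7 (fun _ => 2) P7 := by
  exact LFe_Rz 2 (by norm_num) (fun _ => by norm_num) (fun _ => dvd_refl _) (by decide +kernel)

theorem Rz_E8 : Rz CartanMatrix.E₈ (fun _ => 2) P8 := by
  exact LFe_Rz 2 (by norm_num) (fun _ => by norm_num) (fun _ => dvd_refl _) (by decide +kernel)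

theorem r7_orth : ∀ i j, bf E7 (r7 i) (r7 j) = if i = j then 2 else 0 := by
  decide +kernel

end Pool.Agent.RFN
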