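import Mathlib
import Pool.Agent.Lib.MP_dcc566_gt_R.LFb
import Pool.Agent.Lib.MP_dcc566_gt_R.LFd

/-!
# Hyperbolic pairs in isotropic spaces of signature `(n, 1)`
-/

set_option autoImplicit false

namespace Pool.Agent.RFN

open Module

variable {V X : Type} [AddCommGroup V] [Module ℚ V] [AddCommGroup X] [Module ℚ X]

private theorem LFl_Nd_HF : Nd HF := by
  refine ⟨HF_symm, fun x hx => Prod.ext ?_ ?_⟩
  · have h1 := hx (0, 1)
    rw [HF_apply] at h1
    simpa using h1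
  · have h1 := hx (1, 0)
    rw [HF_apply] at h1
    simpa using h1

/-- PROOF.  If `B x y = 0` for all `y` and `x ≠ 0`: `B x p = 0`, so `0 < B x x = 0`. -/
theorem Hyp.nd {B : Frm V} (hB : Hyp B) : Nd B := by
  obtain ⟨hs, p, hp, hpos⟩ := hB
  refine ⟨hs, fun x hx => ?_⟩
  by_contra h
  have h1 := hpos x (hx p) h
  rw [hx x] at h1
  exact lt_irrefl _ h1

/-- PROOF.  `Nd`: some `f'` with `B e f' ≠ 0`; `f'' = f' / B e f'`, `f = f'' - (B f'' f'' / 2) • e`. -/
theorem exists_pair {B : Frm V} (hB : Hyp B) {e : V} (he : e ≠ 0) (hee : B e e = 0) :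
    ∃ f, B f f = 0 ∧ B e f = 1 := by
  have hs := hB.1
  obtain ⟨f', hf'⟩ : ∃ f', B e f' ≠ 0 := by
    by_contra h
    push Not at h
    exact he (hB.nd.nd e h)
  obtain ⟨g, hg⟩ : ∃ g, g = (B e f')⁻¹ • f' := ⟨_, rfl⟩
  have h1 : B e g = 1 := by
    rw [hg, map_smul, smul_eq_mul, inv_mul_cancel₀ hf']
  have h2 : B g e = 1 := by rw [hs, h1]
  refine ⟨g - (B g g / 2) • e, ?_, ?_⟩
  · simp only [map_sub, map_smul, LinearMap.sub_apply, LinearMap.smul_apply, smul_eq_mul]
    rw [h1, h2, hee]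
    ring
  · simp only [map_sub, map_smul, smul_eq_mul]
    rw [h1, hee]
    ring

/-- The complement of a hyperbolic pair is positive definite.

PROOF.  Let `w ≠ 0`, `B w e = B w f = 0` and suppose `B w w ≤ 0`.  `g = e - f`: `B g g = -2`, `B w g = 0`.  With `p` from
`Hyp`: if `B w p = 0` then `0 < B w w`, contradiction.  Otherwise `v = (B g p) • w - (B w p) • g` satisfies `B v p = 0`, and
`B v v = (B g p)² B w w - 2 (B w p)² < 0`; `v ≠ 0` as its norm is not 0; so `0 < B v v` by `Hyp`: contradiction. -/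
theorem pair_pos {B : Frm V} (hB : Hyp B) {e f : V} (hee : B e e = 0) (hff : B f f = 0)
    (hef : B e f = 1) {w : V} (hw : w ≠ 0) (hwe : B w e = 0) (hwf : B w f = 0) : 0 < B w w := by
  obtain ⟨hs, p, hp, hpos⟩ := hB
  by_cases hwp : B w p = 0
  · exact hpos w hwp hw
  by_contra hcon
  push Not at hcon
  obtain ⟨g, hg⟩ : ∃ g, g = e - f := ⟨_, rfl⟩
  have hfe : B f e = 1 := by rw [hs, hef]
  have hgg : B g g = -2 := by
    rw [hg]
    simp only [map_sub, LinearMap.sub_apply]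
    rw [hee, hff, hef, hfe]
    ring
  have hwg : B w g = 0 := by rw [hg, map_sub, hwe, hwf, sub_zero]
  have hgw : B g w = 0 := by rw [hs, hwg]
  obtain ⟨v, hv⟩ : ∃ v, v = (B g p) • w - (B w p) • g := ⟨_, rfl⟩
  have hvp : B v p = 0 := by
    rw [hv]
    simp only [map_sub, map_smul, LinearMap.sub_apply, LinearMap.smul_apply, smul_eq_mul]
    ring
  have hvv : B v v = (B g p) ^ 2 * B w w - 2 * (B w p) ^ 2 := by
    rw [hv]
    simp only [map_sub, map_smul, LinearMap.sub_apply, LinearMap.smul_apply, smul_eq_mul]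
    rw [hgg, hwg, hgw]
    ring
  have h1 : 0 < (B w p) ^ 2 := by positivity
  have h2 : (B g p) ^ 2 * B w w ≤ 0 := mul_nonpos_of_nonneg_of_nonpos (sq_nonneg _) hcon
  have hneg : B v v < 0 := by rw [hvv]; linarith
  have hv0 : v ≠ 0 := by
    intro h
    rw [h, map_zero] at hneg
    exact lt_irrefl _ hneg
  exact absurd (hpos v hvp hv0) (not_lt.2 hneg.le)

/-- PROOF.  `exists_pair`, `ι : ℚ × ℚ →ₗ V`, `ι (a, b) = a • e + b • f`
(`(LinearMap.toSpanSingleton ℚ V e).coprod (LinearMap.toSpanSingleton ℚ V f)`): `B (ι x) (ι y) = HF x y`.  `split_gen` with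
`Nd HF` and `finrank ℚ (ℚ × ℚ) = 2` gives `BW, φ`.  `BW x y = B (φ.symm (0, x)) (φ.symm (0, y))`; for `x ≠ 0` the vector
`w = φ.symm (0, x)` is nonzero and `B w e = sF HF BW (0, x) (φ e) = sF .. (0, x) ((1, 0), 0) = 0` (as `e = ι (1, 0)`),
similarly for `f`; `pair_pos`. -/
theorem hyp_split [FiniteDimensional ℚ V] {B : Frm V} (hB : Hyp B) {n : ℕ}
    (hV : finrank ℚ V = 2 + n) {e : V} (he : e ≠ 0) (hee : B e e = 0) :
    ∃ BW : Frm (Fin n → ℚ), Pd BW ∧ Isom B (sF HF BW) := by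
  obtain ⟨f, hff, hef⟩ := exists_pair hB he hee
  have hs := hB.1
  have hfe : B f e = 1 := by rw [hs, hef]
  obtain ⟨ι, hιd⟩ : ∃ ι : (ℚ × ℚ) →ₗ[ℚ] V, ∀ x, ι x = x.1 • e + x.2 • f :=
    ⟨(LinearMap.toSpanSingleton ℚ V e).coprod (LinearMap.toSpanSingleton ℚ V f), fun x => by
      simp [LinearMap.coprod_apply]⟩
  have hι : ∀ x y, B (ι x) (ι y) = HF x y := by
    intro x y
    rw [hιd, hιd, HF_apply]
    simp only [map_add, map_smul, LinearMap.add_apply, LinearMap.smul_apply, smul_eq_mul]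
    rw [hee, hff, hef, hfe]
    ring
  obtain ⟨BW, φ, hφ, hφι⟩ := split_gen hs LFl_Nd_HF ι hι (m := n) (by
    rw [hV, Module.finrank_prod, Module.finrank_self])
  have key : ∀ x y, BW x y = B (φ.symm (0, x)) (φ.symm (0, y)) := by
    intro x y
    rw [← hφ, LinearEquiv.apply_symm_apply, LinearEquiv.apply_symm_apply, sF_apply]
    simp
  refine ⟨BW, ⟨fun x y => ?_, fun x hx => ?_⟩, φ, hφ⟩
  · rw [key, key, hs]
  · rw [key]
    have he' : ι (1, 0) = e := by rw [hιd]; simp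
    have hf' : ι (0, 1) = f := by rw [hιd]; simp
    refine pair_pos hB hee hff hef ?_ ?_ ?_
    · intro h
      apply hx
      have h1 := congrArg φ h
      rw [LinearEquiv.apply_symm_apply, map_zero] at h1
      exact congrArg Prod.snd h1
    · rw [← he', ← hφ, LinearEquiv.apply_symm_apply, hφι, sF_apply]
      simp
    · rw [← hf', ← hφ, LinearEquiv.apply_symm_apply, hφι, sF_apply]
      simp

/-- PROOF.  `HF_symm`; `y = (0, 1)`, `(1, 0)`. -/
theorem Nd_HF : Nd HF := by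
  exact LFl_Nd_HF

/-- PROOF.  `sF_symm`; products with `(y, 0)` and `(0, y)`. -/
theorem Nd.sF {B : Frm V} {C : Frm X} (h : Nd B) (h' : Nd C) : Nd (Pool.Agent.RFN.sF B C) := by
  refine ⟨sF_symm h.symm h'.symm, fun x hx => Prod.ext (h.nd x.1 fun y => ?_)
    (h'.nd x.2 fun y => ?_)⟩
  · have h1 := hx (y, 0)
    rw [sF_apply] at h1
    simpa using h1
  · have h1 := hx (0, y)
    rw [sF_apply] at h1
    simpa using h1

end Pool.Agent.RFN
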