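import Mathlib
import Pool.Agent.Lib.MP_dcc566_gt_R.LFc
import Pool.Agent.Lib.MP_dcc566_gt_R.LFd
import Pool.Agent.Lib.MP_dcc566_gt_R.LFe
import Pool.Agent.Lib.MP_dcc566_gt_R.LFl
import Pool.Agent.Lib.MP_dcc566_gt_R.F2

/-!
# Splitting off `U`, `E₈`, `E₇`, `E₆`
-/

set_option autoImplicit false

namespace Pool.Agent.RFN

open Module
open MP_dcc566_gt (bf)

variable {V : Type} [AddCommGroup V] [Module ℚ V]

/-- A positive definite space of dimension `k + m`, `m ≥ 3`, splits off every form `C` of rank `k`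
realised by an
orthogonal family.

PROOF.  `ortho_family hB k` with `t' i = if h : i < k then t ⟨i, h⟩ else 1` (positive by `hR.1`); `w
i = w' i` for
`i : Fin k`; `split_C`. -/
theorem split_Rz [FiniteDimensional ℚ V] {B : Frm V} (hB : Pd B) {k m : ℕ} (h3 : 3 ≤ m)
    (hm : finrank ℚ V = k + m) {C P : Matrix (Fin k) (Fin k) ℤ} {t : Fin k → ℤ} (hC : Pd (mF C))
    (hR : Rz C t P) : ∃ BY : Frm (Fin m → ℚ), Pd BY ∧ Isom B (sF (mF C) BY) := by
  obtain ⟨w, hw, hw'⟩ := ortho_family hB k (by omega)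
    (fun i => if h : i < k then ((t ⟨i, h⟩ : ℤ) : ℚ) else 1) (fun i => by
      split_ifs with h
      · exact_mod_cast hR.1 _
      · norm_num)
  refine split_C hB hm hC hR (w := fun i => w i) (fun i => ?_) (fun i j hij => ?_)
  · have h1 := hw i i.2
    rw [dif_pos i.2] at h1
    exact h1
  · exact hw' i i.2 j j.2 fun h => hij (Fin.ext h)

theorem split_PF [FiniteDimensional ℚ V] {B : Frm V} (hB : Hyp B) (hV : finrank ℚ V = 20) {e : V}
    (he : e ≠ 0) (hee : B e e = 0) : ∃ B10 : Frm (Fin 10 → ℚ), Pd B10 ∧ Isom B (PF B10) := by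
  obtain ⟨BW, hW, h1⟩ := hyp_split hB (n := 18) (by rw [hV]) he hee
  obtain ⟨B10, h10, h2⟩ := split_Rz hW (k := 8) (m := 10) (by norm_num)
    (by rw [finrank_fin_fun]) Pd_F8 Rz_E8
  exact ⟨B10, h10, h1.trans ((Isom.refl HF).prod h2)⟩

theorem split_E6 {B10 : Frm (Fin 10 → ℚ)} (h : Pd B10) :
    ∃ B4 : Frm (Fin 4 → ℚ), Pd B4 ∧ Isom B10 (sF (mF E6) B4) :=
  split_Rz h (k := 6) (m := 4) (by norm_num) (by rw [finrank_fin_fun]) Pd_F6 Rz_E6

theorem split_E7 {B10 : Frm (Fin 10 → ℚ)} (h : Pd B10) :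
    ∃ B3 : Frm (Fin 3 → ℚ), Pd B3 ∧ Isom B10 (sF (mF E7) B3) :=
  split_Rz h (k := 7) (m := 3) (by norm_num) (by rw [finrank_fin_fun]) Pd_F7 Rz_E7

/-- PROOF.  `split_C (Pd_F7.sF h) (k := 8) (m := 2) .. Pd_F8 Rz_E8` with the orthogonal vectors
`w = Fin.lastCases (0, y) (fun i : Fin 7 => (cz (r7 i), 0))` of norm 2 (`r7_orth`, `mF_cz`); the
dimension of
`(Fin 7 → ℚ) × (Fin 3 → ℚ)` is 10 (`finrank_prod`). -/
theorem split_E8 {B3 : Frm (Fin 3 → ℚ)} (h : Pd B3) {y : Fin 3 → ℚ} (hy : B3 y y = 2) :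
    ∃ B2 : Frm (Fin 2 → ℚ), Pd B2 ∧ Isom (sF (mF E7) B3) (sF F8 B2) := by
  have hr : ∀ i j : Fin 7, mF E7 (cz (r7 i)) (cz (r7 j)) = if i = j then 2 else 0 := by
    intro i j
    rw [mF_cz, r7_orth]
    split_ifs <;> norm_num
  have e1 : (Fin.lastCases (motive := fun _ => (Fin 7 → ℚ) × (Fin 3 → ℚ)) (0, y)
      (fun i : Fin 7 => (cz (r7 i), 0)) (Fin.last 7) : (Fin 7 → ℚ) × (Fin 3 → ℚ)) = (0, y) :=
    Fin.lastCases_last
  have e2 : ∀ i : Fin 7, (Fin.lastCases (motive := fun _ => (Fin 7 → ℚ) × (Fin 3 → ℚ)) (0, y)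
      (fun i : Fin 7 => (cz (r7 i), 0)) i.castSucc : (Fin 7 → ℚ) × (Fin 3 → ℚ)) =
      (cz (r7 i), 0) := fun i => Fin.lastCases_castSucc i
  have e3 : ∀ (a a' : Fin 7 → ℚ) (b b' : Fin 3 → ℚ),
      sF (mF E7) B3 (a, b) (a', b') = mF E7 a a' + B3 b b' := fun _ _ _ _ => rfl
  refine split_C (Pd_F7.sF h) (k := 8) (m := 2)
    (by rw [finrank_prod, finrank_fin_fun, finrank_fin_fun]) Pd_F8 Rz_E8
    (w := fun i => Fin.lastCases (motive := fun _ => (Fin 7 → ℚ) × (Fin 3 → ℚ)) (0, y)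
      (fun i : Fin 7 => (cz (r7 i), 0)) i) (fun i => ?_) (fun i j hij => ?_)
  · refine Fin.lastCases (motive := fun i => sF (mF E7) B3
      (Fin.lastCases (motive := fun _ => (Fin 7 → ℚ) × (Fin 3 → ℚ)) (0, y)
        (fun i : Fin 7 => (cz (r7 i), 0)) i)
      (Fin.lastCases (motive := fun _ => (Fin 7 → ℚ) × (Fin 3 → ℚ)) (0, y)
        (fun i : Fin 7 => (cz (r7 i), 0)) i) = ((2 : ℤ) : ℚ)) ?_ ?_ i
    · rw [e1, e3, map_zero, hy]
      norm_num
    · intro i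
      rw [e2, e3, hr, if_pos rfl, map_zero]
      norm_num
  · revert hij
    refine Fin.lastCases (motive := fun i => i ≠ j → sF (mF E7) B3
      (Fin.lastCases (motive := fun _ => (Fin 7 → ℚ) × (Fin 3 → ℚ)) (0, y)
        (fun i : Fin 7 => (cz (r7 i), 0)) i)
      (Fin.lastCases (motive := fun _ => (Fin 7 → ℚ) × (Fin 3 → ℚ)) (0, y)
        (fun i : Fin 7 => (cz (r7 i), 0)) j) = 0) ?_ ?_ i
    · refine Fin.lastCases (motive := fun j => Fin.last 7 ≠ j → sF (mF E7) B3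
        (Fin.lastCases (motive := fun _ => (Fin 7 → ℚ) × (Fin 3 → ℚ)) (0, y)
          (fun i : Fin 7 => (cz (r7 i), 0)) (Fin.last 7))
        (Fin.lastCases (motive := fun _ => (Fin 7 → ℚ) × (Fin 3 → ℚ)) (0, y)
          (fun i : Fin 7 => (cz (r7 i), 0)) j) = 0) ?_ ?_ j
      · intro h1
        exact absurd rfl h1
      · intro j _
        rw [e1, e2, e3, map_zero, LinearMap.zero_apply, map_zero, add_zero]
    · intro i
      refine Fin.lastCases (motive := fun j => i.castSucc ≠ j → sF (mF E7) B3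
        (Fin.lastCases (motive := fun _ => (Fin 7 → ℚ) × (Fin 3 → ℚ)) (0, y)
          (fun i : Fin 7 => (cz (r7 i), 0)) i.castSucc)
        (Fin.lastCases (motive := fun _ => (Fin 7 → ℚ) × (Fin 3 → ℚ)) (0, y)
          (fun i : Fin 7 => (cz (r7 i), 0)) j) = 0) ?_ ?_ j
      · intro _
        rw [e1, e2, e3, map_zero, map_zero, LinearMap.zero_apply, add_zero]
      · intro j h1
        rw [e2, e2, e3, hr, if_neg fun h2 => h1 (by rw [h2]), map_zero, add_zero]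

end Pool.Agent.RFN
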