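import Mathlib
import Pool.Agent.Lib.MP_dcc566_gt_R.LFa

/-!
# Unimodular components of lattices
-/

set_option autoImplicit false

namespace Pool.Agent.RFN

variable {V X : Type} [AddCommGroup V] [Module ℚ V] [AddCommGroup X] [Module ℚ X]

/-- An even unimodular lattice. -/
structure Uni (B : Frm V) (L : AddSubgroup V) : Prop where
  symm : ∀ x y, B x y = B y x
  even : EvL B L
  full : FullL L
  dual : ∀ x, (∀ y ∈ L, IsZ (B x y)) → x ∈ L

private theorem lff_smul {L : AddSubgroup V} {x : V} (hx : x ∈ L) (n : ℤ) : (n : ℚ) • x ∈ L := by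
  rw [Int.cast_smul_eq_zsmul]
  exact L.zsmul_mem hx n

private theorem lff_nsmul {L : AddSubgroup V} {x : V} (hx : x ∈ L) (n : ℕ) : (n : ℚ) • x ∈ L := by
  have := lff_smul hx (n : ℤ)
  rwa [Int.cast_natCast] at this

private theorem lff_full {L : AddSubgroup V} {N : AddSubgroup X} (hL : FullL L) (hN : FullL N) :
    FullL (L.prod N) := by
  rintro ⟨a, b⟩
  obtain ⟨m, hm, h1⟩ := hL a
  obtain ⟨n, hn, h2⟩ := hN b
  refine ⟨m * n, Nat.mul_pos hm hn, ?_⟩
  rw [AddSubgroup.mem_prod]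
  constructor
  · have e : ((m * n : ℕ) : ℚ) • a = (n : ℚ) • ((m : ℚ) • a) := by
      rw [smul_smul]; push_cast; rw [mul_comm]
    change ((m * n : ℕ) : ℚ) • a ∈ L
    rw [e]
    exact lff_nsmul h1 n
  · have e : ((m * n : ℕ) : ℚ) • b = (m : ℚ) • ((n : ℚ) • b) := by
      rw [smul_smul]; push_cast; rfl
    change ((m * n : ℕ) : ℚ) • b ∈ N
    rw [e]
    exact lff_nsmul h2 m

/-- PROOF.  `HF_symm`, `EvL_HF`; full: multiply `(a, b)` by `a.den * b.den`; dual: `y = (0, 1)`,
`(1, 0)`. -/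
theorem Uni_HF : Uni HF ZZ where
  symm := HF_symm
  even := EvL_HF
  full := by
    rintro ⟨a, b⟩
    refine ⟨a.den * b.den, Nat.mul_pos a.den_pos b.den_pos, ⟨b.den * a.num, ?_⟩,
      ⟨a.den * b.num, ?_⟩⟩
    · have h : (a.den : ℚ) * a = a.num := by
        rw [mul_comm]; exact Rat.mul_den_eq_num a
      change ((a.den * b.den : ℕ) : ℚ) * a = _
      push_cast
      rw [← h]
      ring
    · have h : (b.den : ℚ) * b = b.num := by
        rw [mul_comm]; exact Rat.mul_den_eq_num b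
      change ((a.den * b.den : ℕ) : ℚ) * b = _
      push_cast
      rw [← h]
      ring
  dual := by
    rintro ⟨a, b⟩ h
    have h1 := h (0, 1) ⟨⟨0, by simp⟩, ⟨1, by simp⟩⟩
    have h2 := h (1, 0) ⟨⟨1, by simp⟩, ⟨0, by simp⟩⟩
    rw [HF_apply] at h1 h2
    simp only [mul_one, mul_zero, add_zero, zero_add] at h1 h2
    exact ⟨h1, h2⟩

/-- PROOF.  `Pd_F8.symm`, `EvL_F8`, `FullL_Zk`; dual: `exists_cz` gives `n > 0` and `n • x = cz u`;
for `y ∈ Zk 8`,
`F8 (cz u) y = n * F8 x y` is `Dv n`; `F8_unimod` gives `cz u = n • cz u'`, so `x = cz u'`. -/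
theorem Uni_F8 : Uni F8 (Zk 8) where
  symm := Pd_F8.symm
  even := EvL_F8
  full := FullL_Zk
  dual := by
    intro x h
    obtain ⟨n, u, hn, hu⟩ := exists_cz x
    have hn' : (n : ℚ) ≠ 0 := by exact_mod_cast hn.ne'
    obtain ⟨u', hu'⟩ := F8_unimod (k := (n : ℤ)) (cz_mem u) (fun y hy => by
      obtain ⟨m, hm⟩ := h y hy
      refine ⟨m, ?_⟩
      rw [← hu, map_smul, LinearMap.smul_apply, smul_eq_mul, hm]
      push_cast
      rfl)
    rw [Int.cast_natCast, ← hu] at hu'
    have h2 : x = cz u' := by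
      have h3 := congrArg (fun v => ((n : ℚ)⁻¹) • v) hu'
      simpa only [smul_smul, inv_mul_cancel₀ hn', one_smul] using h3
    rw [h2]
    exact cz_mem u'

/-- PROOF.  `←`: even: `EvL.prod`; full: multiply by the product of the two numbers; max: let
`(a, b)` be integral on `L × N` with even norm: products with `(y, 0)` give `a ∈ L` (`Uni.dual`), so
`B a a` is even and `BX b b` is even, products with `(0, n)`: `b` is integral on `N`, so `b ∈ N`.
`→`: even: `(0, n)`; full: `(0, x)`; max: if `b` is integral on `N` with even norm, `(0, b)` is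
integral on `L × N`. -/
theorem maxE_prod {B : Frm V} {L : AddSubgroup V} (h : Uni B L) {BX : Frm X} {N : AddSubgroup X} :
    MaxE (sF B BX) (L.prod N) ↔ MaxE BX N := by
  constructor
  · intro hm
    refine ⟨fun n hn => ?_, fun x => ?_, fun b hb h2 => ?_⟩
    · have h1 := hm.even ((0 : V), n) (AddSubgroup.mem_prod.2 ⟨L.zero_mem, hn⟩)
      rw [sF_apply] at h1
      simpa only [map_zero, zero_add] using h1
    · obtain ⟨n, hn, h1⟩ := hm.full ((0 : V), x)
      exact ⟨n, hn, (AddSubgroup.mem_prod.1 h1).2⟩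
    · have h3 := hm.max ((0 : V), b) (fun y hy => by
        rw [sF_apply]
        simp only [map_zero, LinearMap.zero_apply, zero_add]
        exact hb _ (AddSubgroup.mem_prod.1 hy).2) (by
        rw [sF_apply]
        simpa only [map_zero, zero_add] using h2)
      exact (AddSubgroup.mem_prod.1 h3).2
  · intro hm
    refine ⟨h.even.prod hm.even, lff_full h.full hm.full, ?_⟩
    rintro ⟨a, b⟩ hx h2
    have ha : a ∈ L := h.dual a fun y hy => by
      have h1 := hx (y, (0 : X)) (AddSubgroup.mem_prod.2 ⟨hy, N.zero_mem⟩)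
      rw [sF_apply] at h1
      simpa only [map_zero, add_zero] using h1
    have hb : b ∈ N := hm.max b (fun n hn => by
      have h1 := hx ((0 : V), n) (AddSubgroup.mem_prod.2 ⟨L.zero_mem, hn⟩)
      rw [sF_apply] at h1
      simpa only [map_zero, zero_add] using h1) (by
      have h1 := h2.sub (h.even a ha)
      rw [sF_apply] at h1
      simpa only [add_sub_cancel_left] using h1)
    exact AddSubgroup.mem_prod.2 ⟨ha, hb⟩

/-- PROOF.  `N = {b | (0, b) ∈ Λ}` (`Λ.comap (AddMonoidHom.inr V X)`).  If `(a, b) ∈ Λ`, then `a` is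
integral on `L` (`EvL.isZ` for `(a, b)` and `(y, 0)`), so `a ∈ L`, `(a, 0) ∈ Λ`,
`(0, b) = (a, b) - (a, 0) ∈ Λ`. -/
theorem split_uni {B : Frm V} {L : AddSubgroup V} (h : Uni B L) {BX : Frm X}
    (hs : ∀ x y, BX x y = BX y x) {Λ : AddSubgroup (V × X)} (hE : EvL (sF B BX) Λ)
    (hΛ : ∀ x ∈ L, (x, (0 : X)) ∈ Λ) : ∃ N : AddSubgroup X, Λ = L.prod N := by
  refine ⟨Λ.comap (AddMonoidHom.inr V X), ?_⟩
  ext ⟨a, b⟩
  rw [AddSubgroup.mem_prod, AddSubgroup.mem_comap]
  change (a, b) ∈ Λ ↔ a ∈ L ∧ ((0 : V), b) ∈ Λ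
  constructor
  · intro hab
    have ha : a ∈ L := h.dual a fun y hy => by
      have h1 := EvL.isZ (sF_symm h.symm hs) hE hab (hΛ y hy)
      rw [sF_apply] at h1
      simpa only [map_zero, add_zero] using h1
    refine ⟨ha, ?_⟩
    have h2 := Λ.sub_mem hab (hΛ a ha)
    rwa [Prod.mk_sub_mk, sub_self, sub_zero] at h2
  · rintro ⟨ha, hb⟩
    have h2 := Λ.add_mem (hΛ a ha) hb
    rwa [Prod.mk_add_mk, add_zero, zero_add] at h2

/-- PROOF.  `←`: `x = (a, n)`, `y = (a', n')` in the radical.  `Dv 3 (B a v)` for `v ∈ L` (product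
with `(v, 0)`), so `(1/3) • a ∈ L` by `Uni.dual`; the same for `a'`.  `n, n'` are in the radical of
`N` (products with `(0, z)`), so `c n + d n' = 3 w`; then `c x + d y = 3 (c a/3 + d a'/3, w)`.
`→`: apply it to `(0, x)`, `(0, y)` (their products with `(v, z)` are the products of `x`, `y` with
`z`), take second components. -/
theorem propA_prod {B : Frm V} {L : AddSubgroup V} (h : Uni B L) {BX : Frm X}
    {N : AddSubgroup X} : PropA (sF B BX) (L.prod N) ↔ PropA BX N := by
  constructor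
  · intro hA x hx y hy h1 h2
    obtain ⟨a, b, hab, w, hw, e⟩ := hA ((0 : V), x) (AddSubgroup.mem_prod.2 ⟨L.zero_mem, hx⟩)
      ((0 : V), y) (AddSubgroup.mem_prod.2 ⟨L.zero_mem, hy⟩)
      (fun z hz => by
        rw [sF_apply]
        simp only [map_zero, LinearMap.zero_apply, zero_add]
        exact h1 _ (AddSubgroup.mem_prod.1 hz).2)
      (fun z hz => by
        rw [sF_apply]
        simp only [map_zero, LinearMap.zero_apply, zero_add]
        exact h2 _ (AddSubgroup.mem_prod.1 hz).2)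
    exact ⟨a, b, hab, w.2, (AddSubgroup.mem_prod.1 hw).2, congrArg Prod.snd e⟩
  · intro hA
    have hthird : ∀ a : V, (∀ v ∈ L, Dv 3 (B a v)) → (1 / 3 : ℚ) • a ∈ L := by
      intro a ha
      refine h.dual _ fun v hv => ?_
      obtain ⟨m, hm⟩ := ha v hv
      refine ⟨m, ?_⟩
      rw [map_smul, LinearMap.smul_apply, smul_eq_mul, hm]
      push_cast
      ring
    rintro ⟨a, n⟩ hx ⟨a', n'⟩ hy h1 h2
    obtain ⟨-, hn⟩ := AddSubgroup.mem_prod.1 hx
    obtain ⟨-, hn'⟩ := AddSubgroup.mem_prod.1 hy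
    have ha3 := hthird a fun v hv => by
      have h3 := h1 (v, (0 : X)) (AddSubgroup.mem_prod.2 ⟨hv, N.zero_mem⟩)
      rw [sF_apply] at h3
      simpa only [map_zero, add_zero] using h3
    have ha3' := hthird a' fun v hv => by
      have h3 := h2 (v, (0 : X)) (AddSubgroup.mem_prod.2 ⟨hv, N.zero_mem⟩)
      rw [sF_apply] at h3
      simpa only [map_zero, add_zero] using h3
    obtain ⟨c, d, hcd, w, hw, e⟩ := hA n hn n' hn'
      (fun z hz => by
        have h3 := h1 ((0 : V), z) (AddSubgroup.mem_prod.2 ⟨L.zero_mem, hz⟩)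
        rw [sF_apply] at h3
        simpa only [map_zero, zero_add] using h3)
      (fun z hz => by
        have h3 := h2 ((0 : V), z) (AddSubgroup.mem_prod.2 ⟨L.zero_mem, hz⟩)
        rw [sF_apply] at h3
        simpa only [map_zero, zero_add] using h3)
    refine ⟨c, d, hcd, ((c : ℚ) • ((1 / 3 : ℚ) • a) + (d : ℚ) • ((1 / 3 : ℚ) • a'), w),
      AddSubgroup.mem_prod.2 ⟨L.add_mem (lff_smul ha3 c) (lff_smul ha3' d), hw⟩, ?_⟩
    refine Prod.ext ?_ e
    change (c : ℚ) • a + (d : ℚ) • a' =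
      (3 : ℚ) • ((c : ℚ) • ((1 / 3 : ℚ) • a) + (d : ℚ) • ((1 / 3 : ℚ) • a'))
    rw [smul_add, smul_smul, smul_smul, smul_smul, smul_smul]
    congr 1
    · congr 1; ring
    · congr 1; ring

theorem maxE_PL {BX : Frm X} {N : AddSubgroup X} : MaxE (PF BX) (PL N) ↔ MaxE BX N :=
  (maxE_prod Uni_HF).trans (maxE_prod Uni_F8)

theorem propA_PL {BX : Frm X} {N : AddSubgroup X} : PropA (PF BX) (PL N) ↔ PropA BX N :=
  (propA_prod Uni_HF).trans (propA_prod Uni_F8)

theorem AllA.propA {BX : Frm X} {N : AddSubgroup X} (h : AllA (PF BX)) (hN : MaxE BX N) :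
    PropA BX N :=
  propA_PL.1 (h _ (maxE_PL.2 hN))

end Pool.Agent.RFN
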