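import Mathlib
import Pool.Agent.Lib.MP_dcc566_gt_R.Bas
import Pool.Agent.Lib.MP_dcc566_gt_P1.Lor
import Pool.Agent.Lib.MP_dcc566_gt.LorA

/-!
# Lorentzian forms from real models
-/

set_option autoImplicit false

namespace Pool.Agent.RFN

open Matrix Module
open Pool.Agent.RFL (J toR)
open MP_dcc566_gt (rv)

private theorem GeoA_bl {m : ℕ} (x y : Fin (m + 1) → ℝ) : Pool.Agent.RFL.bl (J m) x y =
    ∑ i : Fin m, x i.castSucc * y i.castSucc - x (Fin.last m) * y (Fin.last m) := by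
  rw [Pool.Agent.RFL.bl, Pool.Agent.RFL.J, dotProduct, Fin.sum_univ_castSucc]
  simp only [mulVec_diagonal]
  rw [if_pos trivial]
  have h : ∀ i : Fin m, i.castSucc ≠ Fin.last m := fun i => (Fin.castSucc_lt_last i).ne
  simp only [h, if_false, one_mul]
  ring

private theorem GeoA_key {m : ℕ} {G : Matrix (Fin (m + 1)) (Fin (m + 1)) ℤ}
    {C : GL (Fin (m + 1)) ℝ} (h : C.valᵀ * J m * C.val = toR G) (x y : Fin (m + 1) → ℝ) :
    MP_dcc566_gt.rB G x y = Pool.Agent.RFL.bl (J m) (C.val *ᵥ x) (C.val *ᵥ y) := by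
  rw [← Pool.Agent.RFL.bl_congr, h]
  exact Matrix.toLinearMap₂'_apply' _ _ _

private theorem GeoA_inj {m : ℕ} (C : GL (Fin (m + 1)) ℝ) {x : Fin (m + 1) → ℝ}
    (h : C.val *ᵥ x = 0) : x = 0 := by
  have h1 : C⁻¹.val *ᵥ (C.val *ᵥ x) = 0 := by rw [h, mulVec_zero]
  have h2 : C⁻¹.val * C.val = 1 := by rw [← Units.val_mul, inv_mul_cancel, Units.val_one]
  rwa [mulVec_mulVec, h2, one_mulVec] at h1

private theorem GeoA_alor {m : ℕ} {G : Matrix (Fin (m + 1)) (Fin (m + 1)) ℤ}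
    {C : GL (Fin (m + 1)) ℝ} (h : C.valᵀ * J m * C.val = toR G) :
    ∃ p : Fin (m + 1) → ℝ, MP_dcc566_gt.ALor (MP_dcc566_gt.rB G) p := by
  have hs : G.IsSymm := Pool.Agent.RFL.isSymm_of_model h
  have hCp : C.val *ᵥ (C⁻¹.val *ᵥ (Pi.single (Fin.last m) (1 : ℝ))) =
      Pi.single (Fin.last m) (1 : ℝ) := by
    have h2 : C.val * C⁻¹.val = 1 := by rw [← Units.val_mul, mul_inv_cancel, Units.val_one]
    rw [mulVec_mulVec, h2, one_mulVec]
  have hne : ∀ i : Fin m, i.castSucc ≠ Fin.last m := fun i => (Fin.castSucc_lt_last i).ne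
  refine ⟨C⁻¹.val *ᵥ (Pi.single (Fin.last m) (1 : ℝ)), MP_dcc566_gt.rB_symm hs, ?_, ?_⟩
  · rw [GeoA_key h, hCp, GeoA_bl]
    simp [hne]
  · intro v hv hv0
    rw [GeoA_key h, hCp, GeoA_bl] at hv
    rw [GeoA_key h, GeoA_bl]
    have hl : (C.val *ᵥ v) (Fin.last m) = 0 := by
      simpa [hne] using hv
    rw [hl, mul_zero, sub_zero]
    have hCv : C.val *ᵥ v ≠ 0 := fun h0 => hv0 (GeoA_inj C h0)
    obtain ⟨i, hi⟩ : ∃ i, (C.val *ᵥ v) i ≠ 0 := by
      by_contra hcon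
      push Not at hcon
      exact hCv (funext hcon)
    obtain ⟨j, hj⟩ : ∃ j : Fin m, (C.val *ᵥ v) j.castSucc ≠ 0 := by
      induction i using Fin.lastCases with
      | last => exact absurd hl hi
      | cast i => exact ⟨i, hi⟩
    exact Finset.sum_pos' (fun i _ => mul_self_nonneg _)
      ⟨j, Finset.mem_univ j, mul_self_pos.2 hj⟩

private theorem GeoA_q {m : ℕ} {G : Matrix (Fin (m + 1)) (Fin (m + 1)) ℤ} (hs : G.IsSymm)
    (hd : G.det ≠ 0) (hiso : ∃ e : Fin (m + 1) → ℤ, e ≠ 0 ∧ e ⬝ᵥ (G *ᵥ e) = 0) :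
    ∃ q : Fin (m + 1) → ℤ, MP_dcc566_gt.rB G (rv q) (rv q) < 0 := by
  obtain ⟨e, he, hee⟩ := hiso
  have hGe : G *ᵥ e ≠ 0 := fun h0 => he (Matrix.eq_zero_of_mulVec_eq_zero hd h0)
  obtain ⟨i, hi⟩ : ∃ i, (G *ᵥ e) i ≠ 0 := by
    by_contra hcon
    push Not at hcon
    exact hGe (funext hcon)
  let f : Fin (m + 1) → ℤ := Pi.single i 1
  let a : ℤ := (G *ᵥ e) i
  let b : ℤ := f ⬝ᵥ (G *ᵥ f)
  have h1 : MP_dcc566_gt.rB G (rv e) (rv e) = 0 := by
    rw [MP_dcc566_gt.rB_rv]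
    have : MP_dcc566_gt.bf G e e = 0 := hee
    rw [this, Int.cast_zero]
  have h2 : MP_dcc566_gt.rB G (rv f) (rv e) = (a : ℝ) := by
    rw [MP_dcc566_gt.rB_rv]
    have : MP_dcc566_gt.bf G f e = a := by
      rw [MP_dcc566_gt.bf, single_dotProduct, one_mul]
    rw [this]
  have h2' : MP_dcc566_gt.rB G (rv e) (rv f) = (a : ℝ) := by
    rw [MP_dcc566_gt.rB_symm hs, h2]
  have h3 : MP_dcc566_gt.rB G (rv f) (rv f) = (b : ℝ) := by
    rw [MP_dcc566_gt.rB_rv]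
    rfl
  refine ⟨(-(a * (|b| + 1))) • e + f, ?_⟩
  have hq : rv ((-(a * (|b| + 1))) • e + f) =
      (-((a : ℝ) * (|(b : ℝ)| + 1))) • rv e + rv f := by
    funext j
    simp [rv]
  rw [hq]
  simp only [map_add, map_smul, LinearMap.add_apply, LinearMap.smul_apply, smul_eq_mul]
  rw [h1, h2, h2', h3]
  have ha : (1 : ℝ) ≤ (a : ℝ) ^ 2 := by
    have h4 : 1 ≤ a ^ 2 := by
      have h5 : 0 < a ^ 2 := by
        have : a ≠ 0 := hi
        positivity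
      omega
    exact_mod_cast h4
  have hb := le_abs_self (b : ℝ)
  have hb0 := abs_nonneg (b : ℝ)
  nlinarith [mul_le_mul_of_nonneg_right ha (by linarith : (0 : ℝ) ≤ |(b : ℝ)| + 1)]

/-- PROOF.  `G` is symmetric and `G.det ≠ 0` (`isSymm_of_model`, `det_ne_zero_of_model` in
`MP_dcc566_gt_P1/Lor.lean`).  `toR G = G.map Int.cast`, and `rB G x y` is `x ⬝ᵥ (toR G *ᵥ y)`, so
`rB G x y = (C x) ⬝ᵥ (J m *ᵥ (C y))` (`h`; compare `bl_congr`).  Let `p = C⁻¹ e_last`: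
`rB G p p = -1`; if `rB G v p = 0` then the last coordinate of `C v` is 0, so
`rB G v v = ∑_{i ≠ last} (C v)_i² > 0` for `v ≠ 0` (`C` is invertible).  So `ALor (rB G) p`
(`LorA.lean`).  An integral `q` of negative norm: `e` isotropic, `G *ᵥ e ≠ 0` (`det ≠ 0`),
`f = Pi.single i 1` with `a = e ⬝ᵥ G f ≠ 0`, `b = f ⬝ᵥ G f`; `q = -(a (|b| + 1)) • e + f` has norm
`-2 a² (|b|+1) + b < 0`.  `ALor.change` (with `x = rv q`, `rB_rv`) gives the positivity on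
`q^⊥`. -/
theorem lor_of_model {m : ℕ} {G : Matrix (Fin (m + 1)) (Fin (m + 1)) ℤ}
    {C : GL (Fin (m + 1)) ℝ} (h : C.valᵀ * J m * C.val = toR G)
    (hiso : ∃ e : Fin (m + 1) → ℤ, e ≠ 0 ∧ e ⬝ᵥ (G *ᵥ e) = 0) :
    ∃ q : Fin (m + 1) → ℤ, MP_dcc566_gt.Lor G (rv q) := by
  have hs : G.IsSymm := Pool.Agent.RFL.isSymm_of_model h
  have hd : G.det ≠ 0 := Pool.Agent.RFL.det_ne_zero_of_model h
  obtain ⟨p, hp⟩ := GeoA_alor h
  obtain ⟨q, hq⟩ := GeoA_q hs hd hiso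
  exact ⟨q, hs, hd, hq, (hp.change hq).pos⟩

/-- PROOF.  `lor_of_model` gives `q`; the vector `cz q` has `mF G (cz q) (cz q) = bf G q q < 0`
(`mF_cz`, `rB_rv`).  Let `v : Fin (m+1) → ℚ` with `c * mF G v (cz q) = 0`, `v ≠ 0`; `exists_cz`:
`n v = cz u`, `n > 0`, `u ≠ 0`; `mF G (cz u) (cz q) = 0`, so `bf G u q = 0`,
`rB G (rv u) (rv q) = 0`, so `rB G (rv u) (rv u) > 0`, so `mF G (n v) (n v) > 0`, so
`mF G v v > 0`. -/
theorem hyp_of_model {m : ℕ} {G : Matrix (Fin (m + 1)) (Fin (m + 1)) ℤ}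
    {C : GL (Fin (m + 1)) ℝ} (h : C.valᵀ * J m * C.val = toR G)
    (hiso : ∃ e : Fin (m + 1) → ℤ, e ≠ 0 ∧ e ⬝ᵥ (G *ᵥ e) = 0) {c : ℚ} (hc : 0 < c) :
    Hyp (c • mF G) := by
  obtain ⟨q, hq⟩ := lor_of_model h hiso
  refine ⟨?_, cz q, ?_, ?_⟩
  · intro x y
    simp only [LinearMap.smul_apply, smul_eq_mul]
    rw [mF_symm hq.symm]
  · simp only [LinearMap.smul_apply, smul_eq_mul]
    apply mul_neg_of_pos_of_neg hc
    rw [mF_cz]
    have h1 := hq.neg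
    rw [MP_dcc566_gt.rB_rv] at h1
    exact_mod_cast h1
  · intro v hv hv0
    simp only [LinearMap.smul_apply, smul_eq_mul] at hv ⊢
    obtain ⟨n, u, hn, hu⟩ := exists_cz v
    have hn' : (0 : ℚ) < n := by exact_mod_cast hn
    have hv1 : mF G v (cz q) = 0 := (mul_eq_zero.1 hv).resolve_left hc.ne'
    have hu0 : u ≠ 0 := by
      rintro rfl
      rw [cz_zero] at hu
      exact hv0 ((smul_eq_zero.1 hu).resolve_left hn'.ne')
    have h1 : mF G (cz u) (cz q) = 0 := by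
      rw [← hu, map_smul, LinearMap.smul_apply, hv1, smul_zero]
    rw [mF_cz] at h1
    have h2 : MP_dcc566_gt.rB G (rv u) (rv q) = 0 := by
      rw [MP_dcc566_gt.rB_rv]
      exact_mod_cast h1
    have hru : rv u ≠ 0 := by
      intro h0
      apply hu0
      funext i
      have := congrFun h0 i
      simpa [rv] using this
    have h3 := hq.pos _ h2 hru
    rw [MP_dcc566_gt.rB_rv] at h3
    have h4 : 0 < mF G (cz u) (cz u) := by
      rw [mF_cz]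
      exact_mod_cast h3
    rw [← hu, map_smul, map_smul, LinearMap.smul_apply, smul_eq_mul, smul_eq_mul] at h4
    have h5 : 0 < mF G v v := by
      by_contra hcon
      rw [not_lt] at hcon
      have : (n : ℚ) * ((n : ℚ) * mF G v v) ≤ 0 :=
        mul_nonpos_of_nonneg_of_nonpos hn'.le (mul_nonpos_of_nonneg_of_nonpos hn'.le hcon)
      linarith
    exact mul_pos hc h5

end Pool.Agent.RFN
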