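import Mathlib
import Pool.Agent.Lib.MP_dcc566_gt_R.Bas
import Pool.Agent.Lib.MP_dcc566_gt_P1.Chg
import Pool.Agent.Lib.MP_dcc566_gt_P1.Mx

/-!
# A model from an invariant lattice
-/

set_option autoImplicit false

namespace Pool.Agent.RFN

open Matrix Module
open Pool.Agent.RFL (J toR Model OR)

private theorem GeoB_toR_mul {n : ℕ} (A B : Matrix (Fin n) (Fin n) ℤ) :
    toR (A * B) = toR A * toR B :=
  Matrix.map_mul (L := A) (M := B) (f := Int.castRingHom ℝ)

private theorem GeoB_toR_inj {n : ℕ} {A B : Matrix (Fin n) (Fin n) ℤ} (h : toR A = toR B) :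
    A = B := by
  ext i j
  have h1 := congrFun (congrFun h i) j
  have h2 : ((A i j : ℤ) : ℝ) = ((B i j : ℤ) : ℝ) := h1
  exact_mod_cast h2

/-- the rational matrix of an integral one -/
private def GeoB_q {n : ℕ} (A : Matrix (Fin n) (Fin n) ℤ) : Matrix (Fin n) (Fin n) ℚ :=
  A.map (Int.cast : ℤ → ℚ)

private theorem GeoB_q_mul {n : ℕ} (A B : Matrix (Fin n) (Fin n) ℤ) :
    GeoB_q (A * B) = GeoB_q A * GeoB_q B :=
  Matrix.map_mul (L := A) (M := B) (f := Int.castRingHom ℚ)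

private theorem GeoB_q_one {n : ℕ} : GeoB_q (1 : Matrix (Fin n) (Fin n) ℤ) = 1 := by
  unfold GeoB_q
  ext i j
  rw [Matrix.map_apply, Matrix.one_apply, Matrix.one_apply]
  split_ifs <;> simp

private theorem GeoB_mF {n : ℕ} (G : Matrix (Fin n) (Fin n) ℤ) (x y : Fin n → ℚ) :
    mF G x y = x ⬝ᵥ (GeoB_q G *ᵥ y) := by
  rw [mF_apply]
  simp only [dotProduct, mulVec, GeoB_q, Matrix.map_apply, Finset.mul_sum, mul_assoc]

private theorem GeoB_iso {n : ℕ} {G M : Matrix (Fin n) (Fin n) ℤ} (h : Mᵀ * G * M = G)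
    (x y : Fin n → ℚ) : mF G (GeoB_q M *ᵥ x) (GeoB_q M *ᵥ y) = mF G x y := by
  have h1 : (GeoB_q M)ᵀ * GeoB_q G * GeoB_q M = GeoB_q G := by
    have h2 : (GeoB_q M)ᵀ = GeoB_q Mᵀ := rfl
    rw [h2, ← GeoB_q_mul, ← GeoB_q_mul, h]
  rw [GeoB_mF, GeoB_mF]
  conv_rhs => rw [← h1]
  rw [← mulVec_mulVec, ← mulVec_mulVec, dotProduct_mulVec x, vecMul_transpose]

private theorem GeoB_cz {n : ℕ} (M : Matrix (Fin n) (Fin n) ℤ) (u : Fin n → ℤ) :
    GeoB_q M *ᵥ cz u = cz (M *ᵥ u) := by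
  funext i
  simp only [mulVec, dotProduct, GeoB_q, Matrix.map_apply, cz]
  push_cast
  rfl

/-- PROOF.  Let `N > 0` be a common denominator of all entries of the vectors `b j` (`exists_cz` for each `b j`, product), `P i j = N * (b j) i ∈ ℤ`.
`P` has `Pᵀ G P = (N² / c) G₁` (entries `N² mF G (b i) (b j)`), so `toR G₁ = (c / N²) • toR (Pᵀ * G * P)`; `P.det ≠ 0` because the columns are a basis of
`ℚ^{m+1}` (or: the matrix `(b j) i` is `b.toMatrix`-like, invertible).  `hinv`: let `g ∈ cj C Γ ≤ OZ G` (`hM.2.2.1`): `g = M.map Int.cast` with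
`M ∈ GL(ℤ)`, `Mᵀ G M = G`.  The linear equivalence `γ` of `ℚ^{m+1}` with matrix `M` is an isometry of `mF G` and `MapsL γ (Zk (m+1)) (Zk (m+1))`, so by `hInv`
`γ (b j) ∈ L`, so `γ (b j) = ∑ i, (M' i j : ℚ) • b i` with integers `M' i j` (`hb`), i.e. `M * P = P * M'` and `g.val * toR P = toR P * toR M'`.
Then `model_change` (`MP_dcc566_gt_P1/Chg.lean`) with `hM.1`, `hM.2.1`, `hM.2.2.2`. -/
theorem model_of_basis {m : ℕ} {Γ : Subgroup (GL (Fin (m + 1)) ℝ)} (hO : Γ ≤ OR (J m))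
    {G : Matrix (Fin (m + 1)) (Fin (m + 1)) ℤ} {C : GL (Fin (m + 1)) ℝ} (hM : Model Γ G C)
    {L : AddSubgroup (Fin (m + 1) → ℚ)} {c : ℚ} (hc : 0 < c) (hInv : Inv (mF G) (Zk (m + 1)) L)
    (b : Basis (Fin (m + 1)) ℚ (Fin (m + 1) → ℚ)) (hb : ∀ x, x ∈ L ↔ ∀ i, IsZ (b.repr x i))
    {G₁ : Matrix (Fin (m + 1)) (Fin (m + 1)) ℤ}
    (hG : ∀ i j, c * mF G (b i) (b j) = (G₁ i j : ℚ)) : ∃ C₁, Model Γ G₁ C₁ := by
  classical
  -- the common denominator
  choose nn u hn hu using fun j => exists_cz (b j)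
  obtain ⟨N, hN⟩ : ∃ N : ℕ, N = ∏ j, nn j := ⟨_, rfl⟩
  have hN0 : 0 < N := by
    rw [hN]
    exact Finset.prod_pos fun j _ => hn j
  have hNq : (0 : ℚ) < N := by exact_mod_cast hN0
  obtain ⟨P, hPdef⟩ : ∃ P : Matrix (Fin (m + 1)) (Fin (m + 1)) ℤ, ∀ i j, P i j =
      (∏ l ∈ Finset.univ.erase j, (nn l : ℤ)) * u j i :=
    ⟨Matrix.of fun i j => (∏ l ∈ Finset.univ.erase j, (nn l : ℤ)) * u j i, fun _ _ => rfl⟩
  have hP : ∀ i j, ((P i j : ℤ) : ℚ) = N * b j i := by
    intro i j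
    have h1 : (N : ℚ) = (nn j : ℚ) * ∏ l ∈ Finset.univ.erase j, (nn l : ℚ) := by
      rw [hN, ← Finset.mul_prod_erase Finset.univ _ (Finset.mem_univ j)]
      push_cast
      rfl
    have h2 : (nn j : ℚ) * b j i = (u j i : ℚ) := by
      have := congrFun (hu j) i
      rw [Pi.smul_apply, smul_eq_mul] at this
      exact this
    rw [hPdef, h1]
    push_cast
    rw [← h2]
    ring
  -- the determinant
  have hdet : P.det ≠ 0 := by
    intro h0
    obtain ⟨v, hv, hv0⟩ := Matrix.exists_mulVec_eq_zero_iff.2 h0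
    apply hv
    have h1 : ∑ j, ((v j : ℤ) : ℚ) • b j = 0 := by
      funext i
      have h2 := congrFun hv0 i
      have h3 : ((∑ j, P i j * v j : ℤ) : ℚ) = 0 := by
        have : ∑ j, P i j * v j = 0 := h2
        rw [this]
        rfl
      push_cast at h3
      have h4 : (N : ℚ) * ∑ j, (v j : ℚ) * b j i = 0 := by
        rw [Finset.mul_sum, ← h3]
        refine Finset.sum_congr rfl fun j _ => ?_
        rw [hP]
        ring
      have h5 := (mul_eq_zero.1 h4).resolve_left hNq.ne'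
      rw [Finset.sum_apply]
      exact h5
    have h6 := Fintype.linearIndependent_iff.1 b.linearIndependent _ h1
    funext j
    have h7 := h6 j
    exact_mod_cast h7
  -- the form
  have hGP : ∀ i j, (((Pᵀ * G * P) i j : ℤ) : ℚ) = (N : ℚ) ^ 2 * mF G (b i) (b j) := by
    intro i j
    rw [mF_apply, Matrix.mul_apply]
    simp only [Matrix.mul_apply, Matrix.transpose_apply]
    push_cast
    simp only [hP, Finset.sum_mul, Finset.mul_sum]
    rw [Finset.sum_comm]
    refine Finset.sum_congr rfl fun k _ => Finset.sum_congr rfl fun l _ => ?_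
    ring
  have hbL : ∀ j, b j ∈ L := by
    intro j
    rw [hb]
    intro i
    rw [b.repr_self_apply]
    split_ifs
    · exact ⟨1, by simp⟩
    · exact ⟨0, by simp⟩
  refine Pool.Agent.RFL.model_change hO hM.1 hM.2.1 hM.2.2.2 hdet
    (c := ((c / (N : ℚ) ^ 2 : ℚ) : ℝ)) (by
      have h1 : 0 < c / (N : ℚ) ^ 2 := by positivity
      exact_mod_cast h1) ?_ ?_
  · ext i j
    have h1 : ((G₁ i j : ℤ) : ℚ) = c / (N : ℚ) ^ 2 * (((Pᵀ * G * P) i j : ℤ) : ℚ) := by
      rw [hGP, ← hG]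
      field_simp
    have h2 : (((G₁ i j : ℤ) : ℚ) : ℝ) =
        ((c / (N : ℚ) ^ 2 * (((Pᵀ * G * P) i j : ℤ) : ℚ) : ℚ) : ℝ) := by rw [h1]
    rw [Rat.cast_mul, Rat.cast_intCast, Rat.cast_intCast] at h2
    rw [Matrix.smul_apply, smul_eq_mul]
    exact h2
  · intro g hg
    have hg1 := hM.2.2.1 hg
    obtain ⟨M, hMg⟩ := Pool.Agent.RFL.mem_GLZ.1 hg1.2
    have hMg' : g.val = toR M.val := hMg
    have hMG : M.valᵀ * G * M.val = G := by
      have h1 := Pool.Agent.RFL.mem_OR.1 hg1.1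
      rw [hMg'] at h1
      apply GeoB_toR_inj
      rw [GeoB_toR_mul, GeoB_toR_mul]
      exact h1
    have hMM : M.val * M⁻¹.val = 1 := by rw [← Units.val_mul, mul_inv_cancel, Units.val_one]
    have hMM' : M⁻¹.val * M.val = 1 := by rw [← Units.val_mul, inv_mul_cancel, Units.val_one]
    let γ : (Fin (m + 1) → ℚ) ≃ₗ[ℚ] (Fin (m + 1) → ℚ) :=
      { toFun := fun x => GeoB_q M.val *ᵥ x
        map_add' := fun x y => mulVec_add _ _ _
        map_smul' := fun r x => mulVec_smul _ _ _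
        invFun := fun x => GeoB_q M⁻¹.val *ᵥ x
        left_inv := fun x => by
          change GeoB_q M⁻¹.val *ᵥ (GeoB_q M.val *ᵥ x) = x
          rw [mulVec_mulVec, ← GeoB_q_mul, hMM', GeoB_q_one, one_mulVec]
        right_inv := fun x => by
          change GeoB_q M.val *ᵥ (GeoB_q M⁻¹.val *ᵥ x) = x
          rw [mulVec_mulVec, ← GeoB_q_mul, hMM, GeoB_q_one, one_mulVec] }
    have hγ : ∀ x, γ x = GeoB_q M.val *ᵥ x := fun _ => rfl
    have hiso : IsIso (mF G) (mF G) γ := fun x y => by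
      rw [hγ, hγ]
      exact GeoB_iso hMG x y
    have hmaps : MapsL γ (Zk (m + 1)) (Zk (m + 1)) := by
      intro x
      rw [hγ]
      constructor
      · intro h1
        obtain ⟨w, hw⟩ := mem_Zk.1 h1
        have h2 : x = GeoB_q M⁻¹.val *ᵥ (GeoB_q M.val *ᵥ x) := by
          rw [mulVec_mulVec, ← GeoB_q_mul, hMM', GeoB_q_one, one_mulVec]
        rw [h2, hw, GeoB_cz]
        exact cz_mem _
      · intro h1
        obtain ⟨w, hw⟩ := mem_Zk.1 h1
        rw [hw, GeoB_cz]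
        exact cz_mem _
    have hL := hInv γ hiso hmaps
    have hrep : ∀ i j, ∃ k : ℤ, b.repr (γ (b j)) i = (k : ℚ) := fun i j =>
      (hb _).1 ((hL (b j)).2 (hbL j)) i
    choose M' hM' using hrep
    refine ⟨Matrix.of M', ?_⟩
    rw [hMg', ← GeoB_toR_mul, ← GeoB_toR_mul]
    congr 1
    ext i j
    have h1 : (((M.val * P) i j : ℤ) : ℚ) = (((P * Matrix.of M') i j : ℤ) : ℚ) := by
      have h2 : (((M.val * P) i j : ℤ) : ℚ) = N * (γ (b j)) i := by
        rw [hγ, Matrix.mul_apply]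
        simp only [mulVec, dotProduct, GeoB_q, Matrix.map_apply]
        push_cast
        simp only [hP, Finset.mul_sum]
        refine Finset.sum_congr rfl fun k _ => ?_
        ring
      have h3 : (((P * Matrix.of M') i j : ℤ) : ℚ) = N * (γ (b j)) i := by
        conv_rhs => rw [← b.sum_repr (γ (b j))]
        rw [Matrix.mul_apply, Finset.sum_apply]
        simp only [Matrix.of_apply, Pi.smul_apply, smul_eq_mul, hM']
        push_cast
        simp only [hP, Finset.mul_sum]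
        refine Finset.sum_congr rfl fun k _ => ?_
        ring
      rw [h2, h3]
    exact_mod_cast h1

end Pool.Agent.RFN
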