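import Mathlib
import Pool.Agent.Lib.MP_dcc566_gt_R.CoreB

/-!
# The standard basis of `U ⊕ E₈ ⊕ E₈ ⊕ K`
-/

set_option autoImplicit false

namespace Pool.Agent.RFN

open Module
open MP_dcc566_gt (LG Idx)

/-- `Fin 2 ⊕ (Fin 8 ⊕ (Fin 8 ⊕ Fin 2)) ≃ Fin 20`, in this order. -/
def idx20 : Idx 2 ≃ Fin 20 :=
  (Equiv.sumCongr (Equiv.refl (Fin 2)) ((Equiv.sumCongr (Equiv.refl (Fin 8))
    (finSumFinEquiv (m := 8) (n := 2))).trans (finSumFinEquiv (m := 8) (n := 10)))).trans
      (finSumFinEquiv (m := 2) (n := 18))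

/-- The Gram matrix of `U ⊕ E₈ ⊕ E₈ ⊕ K` with rows and columns numbered by `Fin 20`. -/
def UEE (K : Matrix (Fin 2) (Fin 2) ℤ) : Matrix (Fin 20) (Fin 20) ℤ :=
  Matrix.reindex idx20 idx20 (LG K)

private theorem GeoC_Zk {k : ℕ} (z : Fin k → ℚ) : z ∈ Zk k ↔ ∀ i, IsZ (z i) := by
  constructor
  · rintro ⟨u, rfl⟩ i
    exact ⟨u i, rfl⟩
  · intro h
    choose u hu using h
    exact ⟨u, funext hu⟩

/-- The coordinates. -/
private def GeoC_S : KV ≃ₗ[ℚ] (Idx 2 → ℚ) where
  toFun v := Sum.elim ![v.1.1, v.1.2] (Sum.elim v.2.1 (Sum.elim v.2.2.1 v.2.2.2))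
  invFun f := ((f (Sum.inl 0), f (Sum.inl 1)), (fun i => f (Sum.inr (Sum.inl i)),
    (fun i => f (Sum.inr (Sum.inr (Sum.inl i))), fun i => f (Sum.inr (Sum.inr (Sum.inr i))))))
  map_add' v w := by
    funext a
    rcases a with a | a | a | a
    · fin_cases a <;> rfl
    · rfl
    · rfl
    · rfl
  map_smul' c v := by
    funext a
    rcases a with a | a | a | a
    · fin_cases a <;> rfl
    · rfl
    · rfl
    · rfl
  left_inv v := rfl
  right_inv f := by
    funext a
    rcases a with a | a | a | a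
    · fin_cases a <;> rfl
    · rfl
    · rfl
    · rfl

private theorem GeoC_mem (v : KV) : v ∈ KL ↔ ∀ a, IsZ (GeoC_S v a) := by
  constructor
  · rintro ⟨⟨h1, h2⟩, h3, h4, h5⟩ a
    rcases a with a | a | a | a
    · fin_cases a
      · exact h1
      · exact h2
    · exact (GeoC_Zk _).1 h3 a
    · exact (GeoC_Zk _).1 h4 a
    · exact (GeoC_Zk _).1 h5 a
  · intro h
    exact ⟨⟨h (Sum.inl 0), h (Sum.inl 1)⟩, (GeoC_Zk _).2 fun i => h (Sum.inr (Sum.inl i)),
      (GeoC_Zk _).2 fun i => h (Sum.inr (Sum.inr (Sum.inl i))),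
      (GeoC_Zk _).2 fun i => h (Sum.inr (Sum.inr (Sum.inr i)))⟩

private theorem GeoC_bf (G : Matrix (Idx 2) (Idx 2) ℤ) (a b : Idx 2) :
    MP_dcc566_gt.bf G (Pi.single a 1) (Pi.single b 1) = G a b := by
  rw [MP_dcc566_gt.bf_eq_sum, Finset.sum_eq_single a, Finset.sum_eq_single b]
  · simp
  · intro c _ hc
    simp [hc]
  · intro h
    exact absurd (Finset.mem_univ b) h
  · intro c _ hc
    refine Finset.sum_eq_zero fun d _ => ?_
    simp [hc]
  · intro h
    exact absurd (Finset.mem_univ a) h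

/-- PROOF.  `toKV` of the standard basis vectors of `ℤ^(Idx 2)`.  The linear equivalence `T : KV
≃ₗ[ℚ] (Fin 20 → ℚ)`,
`x ↦ (i ↦ coordinate of x at idx20.symm i)` (coordinates `x.1.1, x.1.2`, `x.2.1 k`, `x.2.2.1 k`,
`x.2.2.2 k`); `t = Basis.ofEquivFun T`, so
`t.repr x i = T x i` and `t i = toKV (Pi.single (idx20.symm i) 1)`.  `x ∈ KL` iff all coordinates
are integers.  The products are those of
`LG K` (`KF_toKV`, `bf` of two standard basis vectors is the matrix entry). -/
theorem kv_basis (K : Matrix (Fin 2) (Fin 2) ℤ) : ∃ t : Basis (Fin 20) ℚ KV,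
    (∀ x, x ∈ KL ↔ ∀ i, IsZ (t.repr x i)) ∧
      ∀ i j, KF K (t i) (t j) = (UEE K i j : ℚ) := by
  refine ⟨Basis.ofEquivFun (GeoC_S.trans (LinearEquiv.funCongrLeft ℚ ℚ idx20.symm)), ?_, ?_⟩
  · intro x
    rw [GeoC_mem]
    constructor
    · intro h i
      exact h (idx20.symm i)
    · intro h a
      have h1 := h (idx20 a)
      have h2 : (Basis.ofEquivFun (GeoC_S.trans (LinearEquiv.funCongrLeft ℚ ℚ
          idx20.symm))).repr x (idx20 a) = GeoC_S x (idx20.symm (idx20 a)) := rfl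
      rw [h2, Equiv.symm_apply_apply] at h1
      exact h1
  · intro i j
    have key : ∀ i : Fin 20, Basis.ofEquivFun (GeoC_S.trans (LinearEquiv.funCongrLeft ℚ ℚ
        idx20.symm)) i = toKV (Pi.single (idx20.symm i) 1) := by
      intro i
      rw [Basis.coe_ofEquivFun, LinearEquiv.symm_apply_eq]
      funext k
      change (Pi.single i 1 : Fin 20 → ℚ) k =
        GeoC_S (toKV (Pi.single (idx20.symm i) 1)) (idx20.symm k)
      have h1 : ∀ x : Idx 2 → ℤ, ∀ a, GeoC_S (toKV x) a = (x a : ℚ) := by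
        intro x a
        rcases a with a | a | a | a
        · fin_cases a <;> rfl
        · rfl
        · rfl
        · rfl
      rw [h1, Pi.single_apply, Pi.single_apply]
      by_cases hk : k = i
      · rw [if_pos hk, if_pos (by rw [hk])]
        norm_num
      · rw [if_neg hk, if_neg (fun h => hk (idx20.symm.injective h))]
        norm_num
    rw [key, key, KF_toKV, GeoC_bf]
    rfl

end Pool.Agent.RFN
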