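import Mathlib
import Pool.Agent.Lib.MP_dcc566_gt_R.LFf
import Pool.Agent.Lib.MP_dcc566_gt_R.LFg

/-!
# The family `U ⊕ E₈ ⊕ E₈ ⊕ K`
-/

set_option autoImplicit false

namespace Pool.Agent.RFN

open MP_dcc566_gt (bf EvenPD)

/-- PROOF.  `hA` for `x = cz (Pi.single 0 1)`, `y = cz (Pi.single 1 1)` (in `Zk 2`): all products `bf K u v` are divisible by 3:
`bf K (u + v) (u + v) = bf K u u + 2 bf K u v + bf K v v`, so `6 ∣ 2 bf K u v`.  So there are `a, b`, not both divisible by 3, and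
`w = cz z` with `a x + b y = 3 w`; coordinates 0, 1: `a = 3 z 0`, `b = 3 z 1`.  Contradiction. -/
theorem exists_six_ne {K : Matrix (Fin 2) (Fin 2) ℤ} (hK : EvenPD K) (hA : PropA (mF K) (Zk 2)) :
    ∃ y, ¬ (6 : ℤ) ∣ bf K y y := by
  by_contra hcon
  push Not at hcon
  have h3 : ∀ u v : Fin 2 → ℤ, (3 : ℤ) ∣ bf K u v := by
    intro u v
    have e1 := hcon (u + v)
    rw [MP_dcc566_gt.bf_add_left, MP_dcc566_gt.bf_add_right, MP_dcc566_gt.bf_add_right,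
      MP_dcc566_gt.bf_comm K hK.symm v u] at e1
    have e2 := hcon u
    have e3 := hcon v
    omega
  have hD : ∀ u : Fin 2 → ℤ, ∀ z ∈ Zk 2, Dv 3 (mF K (cz u) z) := by
    rintro u z hz
    obtain ⟨v, rfl⟩ := mem_Zk.1 hz
    rw [mF_cz, Dv_int]
    exact h3 u v
  obtain ⟨a, b, hab, w, hw, he⟩ := hA (cz (Pi.single 0 1)) (cz_mem _) (cz (Pi.single 1 1))
    (cz_mem _) (hD _) (hD _)
  obtain ⟨z, rfl⟩ := mem_Zk.1 hw
  refine hab ⟨⟨z 0, ?_⟩, ⟨z 1, ?_⟩⟩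
  · have h4 := congrFun he 0
    simp [cz] at h4
    exact_mod_cast h4
  · have h4 := congrFun he 1
    simp [cz] at h4
    exact_mod_cast h4

theorem f1_case {B2 : Frm (Fin 2 → ℚ)} (h2 : Pd B2) (hA : AllA (PF (sF F8 B2))) :
    ∃ K : Matrix (Fin 2) (Fin 2) ℤ, EvenPD K ∧ (∃ y, ¬ (6 : ℤ) ∣ bf K y y) ∧
      MaxE (PF (sF F8 (mF K))) (PL ((Zk 8).prod (Zk 2))) ∧ Isom B2 (mF K) := by
  obtain ⟨Λ, hΛ⟩ := exists_max h2.symm
  obtain ⟨K, ψ, hK, hψ, hm⟩ := exists_Zform h2 hΛ.even hΛ.full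
  have h3 : MaxE (mF K) (Zk 2) := MaxE.iso hψ hm hΛ
  have hi : Isom B2 (mF K) := ⟨ψ, hψ⟩
  have h4 : MaxE (sF F8 (mF K)) ((Zk 8).prod (Zk 2)) := (maxE_prod Uni_F8).2 h3
  have h5 : AllA (PF (sF F8 (mF K))) := hA.iso ((Isom.refl F8).prod hi).pf
  exact ⟨K, hK, exists_six_ne hK ((propA_prod Uni_F8).1 (h5.propA h4)), maxE_PL.2 h4, hi⟩

end Pool.Agent.RFN
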