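import Mathlib
import Pool.Agent.Lib.MP_dcc566_gt_R.LK

/-!
# Three radical vectors modulo 3 of a maximal even lattice are dependent
-/

set_option autoImplicit false

namespace Pool.Agent.RFN

variable {V : Type} [AddCommGroup V] [Module ℚ V]

/-- Three vectors of the radical modulo 3 of a maximal even lattice are dependent modulo 3. -/
theorem no_rad3 {B : Frm V} (hs : ∀ x y, B x y = B y x) {Λ : AddSubgroup V} (hM : MaxE B Λ)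
    {r0 r1 r2 : V} (m0 : r0 ∈ Λ) (m1 : r1 ∈ Λ) (m2 : r2 ∈ Λ) (h0 : ∀ x ∈ Λ, Dv 3 (B r0 x))
    (h1 : ∀ x ∈ Λ, Dv 3 (B r1 x)) (h2 : ∀ x ∈ Λ, Dv 3 (B r2 x)) :
    ∃ a b c : ℤ, ¬ ((3 : ℤ) ∣ a ∧ (3 : ℤ) ∣ b ∧ (3 : ℤ) ∣ c) ∧
      ∃ w ∈ Λ, (a : ℚ) • r0 + (b : ℚ) • r1 + (c : ℚ) • r2 = (3 : ℚ) • w := by
  have hn : ∀ r ∈ Λ, (∀ x ∈ Λ, Dv 3 (B r x)) → ∃ n : ℤ, B r r = 2 * ((3 * n : ℤ) : ℚ) := by
    intro r hr hR
    obtain ⟨m, hm⟩ := hM.even _ hr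
    obtain ⟨m', hm'⟩ := hR _ hr
    have h3 : 2 * m = 3 * m' := by
      rw [hm] at hm'
      exact_mod_cast hm'
    obtain ⟨n, rfl⟩ : (3 : ℤ) ∣ m := by omega
    exact ⟨n, by rw [hm]; norm_num⟩
  obtain ⟨n0, hn0⟩ := hn r0 m0 h0
  obtain ⟨n1, hn1⟩ := hn r1 m1 h1
  obtain ⟨n2, hn2⟩ := hn r2 m2 h2
  obtain ⟨m01, hm01⟩ := h0 _ m1
  obtain ⟨m12, hm12⟩ := h1 _ m2
  obtain ⟨m20, hm20⟩ := h2 _ m0
  obtain ⟨x, y, z, hxyz, q, hq⟩ := cw3 Nat.prime_three n0 n1 n2 m01 m12 m20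
  push_cast at hxyz hq
  refine ⟨x, y, z, hxyz, ?_⟩
  obtain ⟨v, hv⟩ : ∃ v, v = (x : ℚ) • r0 + (y : ℚ) • r1 + (z : ℚ) • r2 := ⟨_, rfl⟩
  have hvv : B v v = 3 * (3 * (2 * q)) := by
    rw [hv, norm3 hs (n0 := 3 * n0) (n1 := 3 * n1) (n2 := 3 * n2) (m01 := 3 * m01)
      (m12 := 3 * m12) (m20 := 3 * m20) hn0 hn1 hn2 (by rw [hm01]; push_cast; rfl)
      (by rw [hm12]; push_cast; rfl) (by rw [hm20]; push_cast; rfl)]
    have h1 : 3 * n0 * x ^ 2 + 3 * n1 * y ^ 2 + 3 * n2 * z ^ 2 + 3 * m01 * x * y +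
        3 * m12 * y * z + 3 * m20 * z * x = 3 * (3 * q) := by
      rw [← hq]
      ring
    rw [h1]
    push_cast
    ring
  have hvw : ∀ w ∈ Λ, Dv 3 (B v w) := by
    intro w hw
    rw [hv]
    simp only [map_add, map_smul, LinearMap.add_apply, LinearMap.smul_apply, smul_eq_mul]
    exact (((h0 w hw).mul_int x).add ((h1 w hw).mul_int y)).add ((h2 w hw).mul_int z)
  refine ⟨(1 / (3 : ℚ)) • v, ?_, ?_⟩
  · refine hM.max _ (fun w hw => ?_) ?_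
    · obtain ⟨k, hk⟩ := hvw w hw
      refine ⟨k, ?_⟩
      rw [map_smul, LinearMap.smul_apply, smul_eq_mul, hk]
      push_cast
      ring
    · refine ⟨q, ?_⟩
      simp only [map_smul, LinearMap.smul_apply, smul_eq_mul]
      rw [hvv]
      push_cast
      ring
  · rw [smul_smul, ← hv]
    norm_num

end Pool.Agent.RFN
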