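import Mathlib
import Pool.Agent.Lib.MP_dcc566_gt_R.LFa
import Pool.Agent.Lib.MP_dcc566_gt_R.LFh
import Pool.Agent.Lib.MP_dcc566_gt_R.LFi

/-!
# Property (A) of a proper even overlattice of `E₆ ⊕ T`
-/

set_option autoImplicit false

namespace Pool.Agent.RFN

variable {Y : Type} [AddCommGroup Y] [Module ℚ Y]

private theorem zsm {V : Type} [AddCommGroup V] [Module ℚ V] {L : AddSubgroup V} {x : V}
    (hx : x ∈ L) (n : ℤ) : (n : ℚ) • x ∈ L := by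
  rw [Int.cast_smul_eq_zsmul]
  exact L.zsmul_mem hx n

private theorem z3m {V : Type} [AddCommGroup V] [Module ℚ V] {L : AddSubgroup V} {x : V}
    (hx : x ∈ L) : (3 : ℚ) • x ∈ L := by
  have := zsm hx 3
  simpa using this

/-- Structure of the overlattice.

PROOF.  `F = sF (mF E6) BT` is symmetric (`sF_symm`, `mF_symm E6_symm`); products of vectors of
`N` are integers
(`EvL.isZ`).  For `(a, b) ∈ N`: `Du6 a` (products with `(y, 0)`, `y ∈ Zk 6`, `(y, 0) ∈ N` by `hle`).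
(*) if `(0, b) ∈ N` then `b ∈ T`: `b` is integral on `T` (products with `(0, t)`), `BT b b = F
(0,b) (0,b)` is even, `hT.max`.
(**) if `(a, b) ∈ N` and `a ∈ Zk 6` then `(0, b) = (a, b) - (a, 0) ∈ N`, so `b ∈ T`.
As `N ≠ (Zk 6).prod T` and `hle`, there is `(w, g) ∈ N` not in the product; `w ∉ Zk 6` by (**). 
`3 w ∈ Zk 6` (`Du6.three`),
so `3 g ∈ T` by (**) for `3 (w, g)`.  `BT g g = F (w,g) (w,g) - mF E6 w w` is not an integer
(`Du6.norm`).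
`3 BT g g = BT (3 g) g` is `F (0, 3g) (w, g)`, an integer.  For `(a, b) ∈ N`: `Du6.sub_mem` gives
`m` with
`a - m w ∈ Zk 6`, and `b - m g ∈ T` by (**). -/
theorem glue_struct {BT : Frm Y} (hs : ∀ x y, BT x y = BT y x) {T : AddSubgroup Y}
    (hT : MaxE BT T) {N : AddSubgroup ((Fin 6 → ℚ) × Y)} (hN : EvL (sF (mF E6) BT) N)
    (hle : (Zk 6).prod T ≤ N) (hne : N ≠ (Zk 6).prod T) :
    ∃ (w : Fin 6 → ℚ) (g : Y), (w, g) ∈ N ∧ w ∉ Zk 6 ∧ Du6 w ∧ (3 : ℚ) • g ∈ T ∧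
      ¬ IsZ (BT g g) ∧ IsZ (3 * BT g g) ∧ (∀ t ∈ T, IsZ (BT g t)) ∧
      (∀ b, ((0 : Fin 6 → ℚ), b) ∈ N → b ∈ T) ∧ (∀ n ∈ N, Du6 n.1) := by
  have hS : ∀ x y, sF (mF E6) BT x y = sF (mF E6) BT y x := sF_symm (mF_symm E6_symm) hs
  have hZ : ∀ x ∈ N, ∀ y ∈ N, IsZ (sF (mF E6) BT x y) := fun x hx y hy => EvL.isZ hS hN hx hy
  have h0 : ∀ y ∈ Zk 6, ((y, (0 : Y)) : (Fin 6 → ℚ) × Y) ∈ N := fun y hy =>
    hle ⟨hy, T.zero_mem⟩
  have h0' : ∀ t ∈ T, (((0 : Fin 6 → ℚ), t) : (Fin 6 → ℚ) × Y) ∈ N := fun t ht =>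
    hle ⟨(Zk 6).zero_mem, ht⟩
  have hDu : ∀ n ∈ N, Du6 n.1 := by
    intro n hn y hy
    have h1 := hZ n hn _ (h0 y hy)
    rw [sF_apply, map_zero, add_zero] at h1
    exact h1
  have hDb : ∀ n ∈ N, ∀ t ∈ T, IsZ (BT n.2 t) := by
    intro n hn t ht
    have h1 := hZ n hn _ (h0' t ht)
    rw [sF_apply, map_zero, zero_add] at h1
    exact h1
  have hstar : ∀ b, ((0 : Fin 6 → ℚ), b) ∈ N → b ∈ T := by
    intro b hb
    refine hT.max b (fun y hy => hDb _ hb y hy) ?_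
    have h1 := hN _ hb
    rw [sF_apply, map_zero, zero_add] at h1
    exact h1
  have hss : ∀ a b, ((a, b) : (Fin 6 → ℚ) × Y) ∈ N → a ∈ Zk 6 → b ∈ T := by
    intro a b h1 h2
    refine hstar b ?_
    have h3 := N.sub_mem h1 (h0 a h2)
    rw [Prod.mk_sub_mk, sub_self, sub_zero] at h3
    exact h3
  obtain ⟨⟨w, g⟩, hwg, hnot⟩ : ∃ p ∈ N, p ∉ (Zk 6).prod T := by
    by_contra hcon
    push Not at hcon
    exact hne (le_antisymm hcon hle)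
  have hw : w ∉ Zk 6 := fun h => hnot ⟨h, hss w g hwg h⟩
  have hDw : Du6 w := hDu _ hwg
  have h3g : (3 : ℚ) • g ∈ T := by
    have h1 : ((3 : ℚ) • (w, g) : (Fin 6 → ℚ) × Y) ∈ N := z3m hwg
    exact hss _ _ h1 hDw.three
  refine ⟨w, g, hwg, hw, hDw, h3g, ?_, ?_, hDb _ hwg, hstar, hDu⟩
  · intro h1
    refine hDw.norm hw ?_
    have h2 := hZ _ hwg _ hwg
    rw [sF_apply] at h2
    have h3 := h2.sub h1
    rw [add_sub_cancel_right] at h3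
    exact h3
  · have h1 := hZ _ (h0' _ h3g) _ hwg
    rw [sF_apply, map_zero, LinearMap.zero_apply, zero_add, map_smul, LinearMap.smul_apply,
      smul_eq_mul] at h1
    exact h1

/-- PROOF.  Take `w, g` from `glue_struct`.
(1) Reduction of a radical vector `x = (a, b)`: `x ∈ N`, `Dv 3 (F x z)` for `z ∈ N`.  Products
with `(y, 0)`: `Du6 ((1/3) • a)`,
so `Du6.sub_mem` gives `m` with `e := (1/3) • a - m • w ∈ Zk 6`; `(e, 0) ∈ N`.  Let `n = m • (w,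
g) + (e, 0) ∈ N`; then
`x - 3 • n = (0, b - 3 m • g) =: (0, b')` and `b' ∈ T`.  Since `x` and `3 n` have products
divisible by 3 with `N`
(`n ∈ N`), `Dv 3 (BT b' t)` for `t ∈ T`, and `Dv 3 (BT b' g)` (product with `(w, g)`).
So for `x`: `x = (0, b') + 3 • n`; for `y`: `y = (0, c') + 3 • n'`.
(2) `no_rad3 hs hT` for `b', c', 3 • g ∈ T` (`BT (3 g) t = 3 BT g t`, `BT g t` an integer):
integers `p, q, r`, not all
divisible by 3, `t ∈ T`, `p b' + q c' + r (3 g) = 3 t`.  Product with `g`: `p BT b' g + q BT c' g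
+ 3 r BT g g = 3 BT t g`, so
`3 r BT g g` is divisible by 3, i.e. `r BT g g` is an integer.  `3 BT g g = s` is an integer, not
divisible by 3 (`BT g g` not an
integer), `r s / 3` an integer: `3 ∣ r`, `r = 3 r'`.  So `¬ (3 ∣ p ∧ 3 ∣ q)` and
`p b' + q c' = 3 (t - r' • (3 g))`, `t' := t - r' • (3 g) ∈ T`.
(3) `p x + q y = (0, 3 t') + 3 (p n + q n') = 3 ((0, t') + p n + q n')`, and `(0, t') ∈ N` by
`hle`. -/
theorem glue_propA {BT : Frm Y} (hs : ∀ x y, BT x y = BT y x) {T : AddSubgroup Y}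
    (hT : MaxE BT T) {N : AddSubgroup ((Fin 6 → ℚ) × Y)} (hN : EvL (sF (mF E6) BT) N)
    (hle : (Zk 6).prod T ≤ N) (hne : N ≠ (Zk 6).prod T) : PropA (sF (mF E6) BT) N := by
  obtain ⟨w, g, hwg, hw, hDw, h3g, hgg, h3gg, hgt, hstar, hDu⟩ := glue_struct hs hT hN hle hne
  have hS : ∀ x y, sF (mF E6) BT x y = sF (mF E6) BT y x := sF_symm (mF_symm E6_symm) hs
  have hZ : ∀ x ∈ N, ∀ y ∈ N, IsZ (sF (mF E6) BT x y) := fun x hx y hy => EvL.isZ hS hN hx hy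
  have h0 : ∀ y ∈ Zk 6, ((y, (0 : Y)) : (Fin 6 → ℚ) × Y) ∈ N := fun y hy =>
    hle ⟨hy, T.zero_mem⟩
  have h0' : ∀ t ∈ T, (((0 : Fin 6 → ℚ), t) : (Fin 6 → ℚ) × Y) ∈ N := fun t ht =>
    hle ⟨(Zk 6).zero_mem, ht⟩
  have hred : ∀ x ∈ N, (∀ z ∈ N, Dv 3 (sF (mF E6) BT x z)) → ∃ b' ∈ T, ∃ n ∈ N,
      x = ((0 : Fin 6 → ℚ), b') + (3 : ℚ) • n ∧ (∀ t ∈ T, Dv 3 (BT b' t)) ∧
        Dv 3 (BT b' g) := by
    intro x hx hxz
    have d1 : Du6 ((1 / 3 : ℚ) • x.1) := by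
      intro y hy
      obtain ⟨k, hk⟩ := hxz _ (h0 y hy)
      rw [sF_apply, map_zero, add_zero] at hk
      refine ⟨k, ?_⟩
      rw [map_smul, LinearMap.smul_apply, smul_eq_mul]
      change 1 / 3 * mF E6 x.1 y = k
      have hk' : mF E6 x.1 y = 3 * (k : ℚ) := by
        rw [hk]
        push_cast
        rfl
      rw [hk']
      ring
    obtain ⟨m, hm⟩ := d1.sub_mem hDw hw
    have hn : (m : ℚ) • ((w, g) : (Fin 6 → ℚ) × Y) +
        ((1 / 3 : ℚ) • x.1 - (m : ℚ) • w, (0 : Y)) ∈ N := N.add_mem (zsm hwg m) (h0 _ hm)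
    have hx2 : x = ((0 : Fin 6 → ℚ), x.2 - (3 * m : ℚ) • g) +
        (3 : ℚ) • ((m : ℚ) • ((w, g) : (Fin 6 → ℚ) × Y) +
          ((1 / 3 : ℚ) • x.1 - (m : ℚ) • w, (0 : Y))) := by
      apply Prod.ext
      · change x.1 = 0 + (3 : ℚ) • ((m : ℚ) • w + ((1 / 3 : ℚ) • x.1 - (m : ℚ) • w))
        module
      · change x.2 = x.2 - (3 * m : ℚ) • g + (3 : ℚ) • ((m : ℚ) • g + 0)
        module
    generalize (m : ℚ) • ((w, g) : (Fin 6 → ℚ) × Y) +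
      ((1 / 3 : ℚ) • x.1 - (m : ℚ) • w, (0 : Y)) = n at hn hx2
    generalize x.2 - (3 * m : ℚ) • g = b' at hx2
    have hb0 : ((0 : Fin 6 → ℚ), b') = x - (3 : ℚ) • n := by
      rw [hx2, add_sub_cancel_right]
    have hbN : ((0 : Fin 6 → ℚ), b') ∈ N := by
      rw [hb0]
      exact N.sub_mem hx (z3m hn)
    have hD : ∀ z ∈ N, Dv 3 (sF (mF E6) BT ((0 : Fin 6 → ℚ), b') z) := by
      intro z hz
      obtain ⟨k, hk⟩ := hxz z hz
      obtain ⟨l, hl⟩ := hZ n hn z hz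
      refine ⟨k - l, ?_⟩
      rw [hb0, map_sub, map_smul, LinearMap.sub_apply, LinearMap.smul_apply, smul_eq_mul, hk, hl]
      push_cast
      ring
    refine ⟨b', hstar b' hbN, n, hn, hx2, fun t ht => ?_, ?_⟩
    · have h1 := hD _ (h0' t ht)
      rw [sF_apply, map_zero, zero_add] at h1
      exact h1
    · have h1 := hD _ hwg
      rw [sF_apply, map_zero, LinearMap.zero_apply, zero_add] at h1
      exact h1
  intro x hx y hy hxz hyz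
  obtain ⟨b', hb, n, hn, ex, hb1, hb2⟩ := hred x hx hxz
  obtain ⟨c', hc, n', hn', ey, hc1, hc2⟩ := hred y hy hyz
  have h3gT : ∀ t ∈ T, Dv 3 (BT ((3 : ℚ) • g) t) := by
    intro t ht
    obtain ⟨k, hk⟩ := hgt t ht
    exact ⟨k, by rw [map_smul, LinearMap.smul_apply, smul_eq_mul, hk]; push_cast; rfl⟩
  obtain ⟨p, q, r, hpqr, t, ht, e⟩ := no_rad3 hs hT hb hc h3g hb1 hc1 h3gT
  obtain ⟨k1, hk1⟩ := hb2
  obtain ⟨k2, hk2⟩ := hc2
  obtain ⟨k3, hk3⟩ := hgt t ht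
  obtain ⟨s, hs3⟩ := h3gg
  have hs' : ¬ (3 : ℤ) ∣ s := by
    rintro ⟨s', rfl⟩
    refine hgg ⟨s', ?_⟩
    push_cast at hs3
    linarith
  have e1 : (p : ℚ) * (3 * k1) + q * (3 * k2) + r * s = 3 * k3 := by
    have h1 := congrArg (fun v => BT v g) e
    simp only [map_add, map_smul, LinearMap.add_apply, LinearMap.smul_apply, smul_eq_mul] at h1
    rw [hk1, hk2, hs t g, hk3, hs3] at h1
    push_cast at h1
    exact h1
  have e2 : p * (3 * k1) + q * (3 * k2) + r * s = 3 * k3 := by exact_mod_cast e1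
  have hrs : (3 : ℤ) ∣ r * s := ⟨k3 - p * k1 - q * k2, by linarith⟩
  have hr : (3 : ℤ) ∣ r := (Int.prime_three.dvd_or_dvd hrs).resolve_right hs'
  obtain ⟨r', hr'⟩ := hr
  have ht' : t - (r' : ℚ) • ((3 : ℚ) • g) ∈ T := T.sub_mem ht (zsm h3g r')
  have e' : (p : ℚ) • b' + (q : ℚ) • c' = (3 : ℚ) • (t - (r' : ℚ) • ((3 : ℚ) • g)) := by
    rw [hr'] at e
    push_cast at e
    rw [smul_sub, ← e]
    module
  generalize t - (r' : ℚ) • ((3 : ℚ) • g) = t' at ht' e'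
  refine ⟨p, q, fun h => hpqr ⟨h.1, h.2, ⟨r', hr'⟩⟩,
    ((0 : Fin 6 → ℚ), t') + ((p : ℚ) • n + (q : ℚ) • n'),
    N.add_mem (h0' t' ht') (N.add_mem (zsm hn p) (zsm hn' q)), ?_⟩
  have e3 : (p : ℚ) • ((0 : Fin 6 → ℚ), b') + (q : ℚ) • ((0 : Fin 6 → ℚ), c') =
      (3 : ℚ) • ((0 : Fin 6 → ℚ), t') := by
    apply Prod.ext
    · change (p : ℚ) • (0 : Fin 6 → ℚ) + (q : ℚ) • (0 : Fin 6 → ℚ) = (3 : ℚ) • (0 : Fin 6 → ℚ)
      rw [smul_zero, smul_zero, smul_zero, add_zero]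
    · exact e'
  rw [smul_add (3 : ℚ), ← e3, ex, ey]
  module

end Pool.Agent.RFN
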