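import Mathlib
import Pool.Agent.Lib.MP_dcc566_gt_R.LFf
import Pool.Agent.Lib.MP_dcc566_gt_R.LFg
import Pool.Agent.Lib.MP_dcc566_gt_R.LFj
import Pool.Agent.Lib.MP_dcc566_gt_R.LFl
import Pool.Agent.Lib.MP_dcc566_gt_R.LM

/-!
# The family `U ⊕ E₈ ⊕ E₆ ⊕ T`
-/

set_option autoImplicit false

namespace Pool.Agent.RFN

open MP_dcc566_gt (bf EvenPD)

variable {X : Type} [AddCommGroup X] [Module ℚ X]

/-- PROOF.  Let `Λ'` be maximal for `PF BX`.  `PL N` is maximal (`maxE_PL`) and contains the hyperbolic pair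
`e = ((1, 0), 0)`, `f = ((0, 1), 0)`; `Nd (PF BX)` by `Nd_HF.sF (Pd_F8.nd.sF hX.nd)`; `thmM` gives an isometry `g` of `PF BX`
which maps `PL N` onto `Λ'`.  `PropA (PF BX) (PL N)` (`propA_PL`) is transported by `g`: for `x, y` in the radical of `Λ'` the
vectors `g.symm x`, `g.symm y` are in the radical of `PL N`. -/
theorem allA_PF [FiniteDimensional ℚ X] {BX : Frm X} (hX : Pd BX) {N : AddSubgroup X}
    (hN : MaxE BX N) (hA : PropA BX N) : AllA (PF BX) := by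
  intro Λ' hΛ'
  have hnd : Nd (PF BX) := Nd_HF.sF (Pd_F8.nd.sF hX.nd)
  have hmax : MaxE (PF BX) (PL N) := maxE_PL.2 hN
  have he : (((1 : ℚ), (0 : ℚ)), (0 : (Fin 8 → ℚ) × X)) ∈ PL N :=
    ⟨⟨⟨1, by simp⟩, ⟨0, by simp⟩⟩, ((Zk 8).prod N).zero_mem⟩
  have hf : (((0 : ℚ), (1 : ℚ)), (0 : (Fin 8 → ℚ) × X)) ∈ PL N :=
    ⟨⟨⟨0, by simp⟩, ⟨1, by simp⟩⟩, ((Zk 8).prod N).zero_mem⟩
  obtain ⟨g, hg, hgm⟩ := thmM hnd hmax he hf
    (by rw [sF_apply, HF_apply]; simp) (by rw [sF_apply, HF_apply]; simp)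
    (by rw [sF_apply, HF_apply]; simp) hΛ'
  have hP : PropA (PF BX) (PL N) := propA_PL.2 hA
  intro x hx y hy h1 h2
  have hx' : g.symm x ∈ PL N := (hgm _).1 (by rwa [LinearEquiv.apply_symm_apply])
  have hy' : g.symm y ∈ PL N := (hgm _).1 (by rwa [LinearEquiv.apply_symm_apply])
  obtain ⟨a, b, hab, w, hw, e⟩ := hP (g.symm x) hx' (g.symm y) hy'
    (fun z hz => by
      have h3 := h1 (g z) ((hgm z).2 hz)
      rwa [← hg, LinearEquiv.apply_symm_apply])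
    (fun z hz => by
      have h3 := h2 (g z) ((hgm z).2 hz)
      rwa [← hg, LinearEquiv.apply_symm_apply])
  refine ⟨a, b, hab, g w, (hgm w).2 hw, ?_⟩
  have h4 := congrArg g e
  simpa only [map_add, map_smul, LinearEquiv.apply_symm_apply] using h4

private theorem zn_mem' {V : Type} [AddCommGroup V] [Module ℚ V] {L : AddSubgroup V} {x : V}
    (hx : x ∈ L) (n : ℕ) : (n : ℚ) • x ∈ L := by
  rw [Nat.cast_smul_eq_nsmul]
  exact L.nsmul_mem hx n

/-- PROOF.  Let `T` be maximal for `B4` (`exists_max`).  The lattice `(Zk 6).prod T` is even and full for `sF (mF E6) B4`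
(`EvL_F6.prod`; full as in `maxE_prod`), so it is contained in a maximal `N` (`exists_maxE`).
If `N = (Zk 6).prod T`: `exists_Zform` for `T` gives `T', ψ`; `LinearEquiv.prodCongr (LinearEquiv.refl ..) ψ` is an isometry of
`sF (mF E6) B4` onto `sF (mF E6) (mF T')` which maps `(Zk 6).prod T` onto `(Zk 6).prod (Zk 4)`, so the latter is maximal
(`MaxE.iso`), and `maxE_PL`.
Otherwise `glue_propA` and `allA_PF`. -/
theorem f2_case {B4 : Frm (Fin 4 → ℚ)} (h4 : Pd B4) :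
    (∃ T : Matrix (Fin 4) (Fin 4) ℤ, EvenPD T ∧
      MaxE (PF (sF (mF E6) (mF T))) (PL ((Zk 6).prod (Zk 4))) ∧ Isom B4 (mF T)) ∨
      AllA (PF (sF (mF E6) B4)) := by
  obtain ⟨T, hT⟩ := exists_max h4.symm
  have hPd : Pd (sF (mF E6) B4) := (Pd_mF E6_symm E6_pos).sF h4
  have hE : EvL (sF (mF E6) B4) ((Zk 6).prod T) := (EvL_mF E6_even).prod hT.even
  have hF : FullL ((Zk 6).prod T) := by
    rintro ⟨a, b⟩
    obtain ⟨m, hm, ha⟩ := FullL_Zk a
    obtain ⟨n, hn, hb⟩ := hT.full b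
    refine ⟨n * m, Nat.mul_pos hn hm, ?_, ?_⟩
    · change ((n * m : ℕ) : ℚ) • a ∈ Zk 6
      rw [Nat.cast_mul, mul_smul]
      exact zn_mem' ha n
    · change ((n * m : ℕ) : ℚ) • b ∈ T
      rw [Nat.cast_mul, mul_comm, mul_smul]
      exact zn_mem' hb m
  obtain ⟨N, hle, hN⟩ := exists_maxE hPd.symm hE hF
  by_cases hne : N = (Zk 6).prod T
  · left
    obtain ⟨T', ψ, hev, hψ, hψL⟩ := exists_Zform h4 hT.even hT.full
    refine ⟨T', hev, ?_, ⟨ψ, hψ⟩⟩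
    have hi : IsIso (sF (mF E6) B4) (sF (mF E6) (mF T'))
        (LinearEquiv.prodCongr (LinearEquiv.refl ℚ (Fin 6 → ℚ)) ψ) :=
      IsIso.prod (fun _ _ => rfl) hψ
    have hm : MapsL (LinearEquiv.prodCongr (LinearEquiv.refl ℚ (Fin 6 → ℚ)) ψ)
        ((Zk 6).prod T) ((Zk 6).prod (Zk 4)) := by
      intro x
      rw [AddSubgroup.mem_prod, AddSubgroup.mem_prod]
      exact and_congr Iff.rfl (hψL x.2)
    rw [hne] at hN
    exact maxE_PL.2 (MaxE.iso hi hm hN)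
  · right
    exact allA_PF hPd hN (glue_propA h4.symm hT hN.even hle hne)

end Pool.Agent.RFN
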