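import Mathlib
import Pool.Agent.Lib.MP_dcc566_gt_R.Bas

/-!
# Lattices without norms congruent to 2 modulo 6
-/

set_option autoImplicit false

namespace Pool.Agent.RFN

variable {V : Type} [AddCommGroup V] [Module ℚ V]

private theorem LFk_six {q : ℚ} {m : ℤ} (h : q = 2 * m) : Dv 6 q ↔ (3 : ℤ) ∣ m := by
  have e : q = ((2 * m : ℤ) : ℚ) := by rw [h]; push_cast; ring
  rw [e, Dv_int]
  omega

private theorem LFk_two {q : ℚ} {m : ℤ} (h : q = 2 * m) : Dv 6 (q - 2) ↔ (3 : ℤ) ∣ m - 1 := by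
  have e : q - 2 = ((2 * m - 2 : ℤ) : ℚ) := by rw [h]; push_cast; ring
  rw [e, Dv_int]
  omega

/-- the data of two vectors -/
private theorem LFk_dat {B : Frm V} (hs : ∀ x y, B x y = B y x) {T : AddSubgroup V}
    (hT : EvL B T) (h2 : ∀ y ∈ T, ¬ Dv 6 (B y y - 2)) {x y : V} (hx : x ∈ T) (hy : y ∈ T) :
    ∃ a b c : ℤ, B x x = 2 * a ∧ B x y = c ∧ ¬ (3 : ℤ) ∣ a - 1 ∧ (∀ e : ℤ,
      B (y + (e : ℚ) • x) (y + (e : ℚ) • x) = 2 * ((b + e * c + e * e * a : ℤ) : ℚ)) ∧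
      ∀ e : ℤ, ¬ (3 : ℤ) ∣ b + e * c + e * e * a - 1 := by
  obtain ⟨a, ha⟩ := hT x hx
  obtain ⟨b, hb⟩ := hT y hy
  obtain ⟨c, hc⟩ := hT.isZ hs hx hy
  push_cast at ha hb
  have hn : ∀ e : ℤ,
      B (y + (e : ℚ) • x) (y + (e : ℚ) • x) = 2 * ((b + e * c + e * e * a : ℤ) : ℚ) := by
    intro e
    have h1 : B (y + (e : ℚ) • x) (y + (e : ℚ) • x) =
        B y y + 2 * (e * B x y) + e * e * B x x := by
      simp only [map_add, LinearMap.add_apply, map_smul, LinearMap.smul_apply, smul_eq_mul]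
      rw [hs y x]
      ring
    rw [h1, ha, hb, hc]
    push_cast
    ring
  refine ⟨a, b, c, ha, hc, fun h => h2 x hx ((LFk_two ha).2 h), hn, fun e h => ?_⟩
  have hm : y + (e : ℚ) • x ∈ T := by
    refine T.add_mem hy ?_
    rw [Int.cast_smul_eq_zsmul]
    exact T.zsmul_mem hx e
  exact h2 _ hm ((LFk_two (hn e)).2 h)

/-- If no norm is `2` modulo 6, vectors of norm divisible by 6 are in the radical modulo 3.

PROOF.  `B x x = 6 a`, `B y y = 2 b`, `B x y = c` (integers, `EvL.isZ`).  `B (x + y) (x + y) = 6a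
+ 2c + 2b` and `B (x - y) (x - y) = 6a - 2c + 2b` are not `2` modulo 6, nor is `2 b`: `b, b + c, b
- c` are not `1` modulo 3 (`6 ∣ 2 m - 2 ↔ 3 ∣ m - 1`).  If `b = 0` mod 3: `c ≠ ± 1`, so `3 ∣ c`.
If `b = 2` mod 3: `c ≠ 2` and `-c ≠ 2` mod 3, so `3 ∣ c` (`omega`). -/
theorem rad_of_six {B : Frm V} (hs : ∀ x y, B x y = B y x) {T : AddSubgroup V} (hT : EvL B T)
    (h2 : ∀ y ∈ T, ¬ Dv 6 (B y y - 2)) {x : V} (hx : x ∈ T) (hx6 : Dv 6 (B x x)) {y : V}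
    (hy : y ∈ T) : Dv 3 (B x y) := by
  obtain ⟨a, b, c, ha, hc, -, -, hd⟩ := LFk_dat hs hT h2 hx hy
  have h3 := (LFk_six ha).1 hx6
  have e0 := hd 0
  have e1 := hd 1
  have e2 := hd (-1)
  rw [hc, Dv_int]
  have hb3 : b % 3 = 0 ∨ b % 3 = 1 ∨ b % 3 = 2 := by omega
  have hc3 : c % 3 = 0 ∨ c % 3 = 1 ∨ c % 3 = 2 := by omega
  rcases hb3 with hb3 | hb3 | hb3 <;> rcases hc3 with hc3 | hc3 | hc3 <;> omega

/-- PROOF.  `B x x = 2 a`, `B y y = 2 b`, `B x y = c`; `a, b` are 0 or 2 modulo 3, `a` is not 0,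
so `a = 2`.  If `3 ∣ b`: `e = 0`. Otherwise `b = 2` mod 3.  The norm of `y + e x` is `2 (b + e c +
e² a)`: for `e = 1`: `b + c + a = 1 + c` mod 3, zero iff `c = 2`; for `e = -1`: `1 - c`, zero iff
`c = 1`.  And `c = 0` is excluded since then `a + b + c = 1` mod 3 (`x + y ∈ T`). -/
theorem exists_six {B : Frm V} (hs : ∀ x y, B x y = B y x) {T : AddSubgroup V} (hT : EvL B T)
    (h2 : ∀ y ∈ T, ¬ Dv 6 (B y y - 2)) {x : V} (hx : x ∈ T) (hx6 : ¬ Dv 6 (B x x)) {y : V}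
    (hy : y ∈ T) : ∃ e : ℤ, Dv 6 (B (y + (e : ℚ) • x) (y + (e : ℚ) • x)) := by
  obtain ⟨a, b, c, ha, hc, ha1, hn, hd⟩ := LFk_dat hs hT h2 hx hy
  have h3 : ¬ (3 : ℤ) ∣ a := fun h => hx6 ((LFk_six ha).2 h)
  have e0 := hd 0
  have e1 := hd 1
  have e2 := hd (-1)
  have key : (3 : ℤ) ∣ b + 0 * c + 0 * 0 * a ∨ (3 : ℤ) ∣ b + 1 * c + 1 * 1 * a ∨
      (3 : ℤ) ∣ b + (-1) * c + (-1) * (-1) * a := by omega
  rcases key with h | h | h
  · exact ⟨0, (LFk_six (hn 0)).2 h⟩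
  · exact ⟨1, (LFk_six (hn 1)).2 h⟩
  · exact ⟨-1, (LFk_six (hn (-1))).2 h⟩

/-- Two independent radical vectors in a lattice of rank 3 without norms `2` modulo 6.

PROOF.  If `Dv 6` holds for the norms of `v 0` and `v 1`: `r = v 0`, `r' = v 1` (`rad_of_six`),
independence from `hi` with coefficients `![a, b, 0]`.  If the norm of `v 0` is not `Dv 6`:
`exists_six` with `x = v 0` gives `r = v 1 + e v 0`, `r' = v 2 + e' v 0` with norms `Dv 6`; `a r +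
b r' = (a e + b e') v 0 + a v 1 + b v 2`.  If the norm of `v 0` is `Dv 6` and that of `v 1` is
not: `x = v 1`: `r = v 0 + e v 1` (or `v 0`), `r' = v 2 + e' v 1`. -/
theorem rad_two {B : Frm V} (hs : ∀ x y, B x y = B y x) {T : AddSubgroup V} (hT : EvL B T)
    (h2 : ∀ y ∈ T, ¬ Dv 6 (B y y - 2)) {v : Fin 3 → V} (hv : ∀ i, v i ∈ T)
    (hi : ∀ c : Fin 3 → ℤ, (∃ w ∈ T, ∑ i, (c i : ℚ) • v i = (3 : ℚ) • w) → ∀ i, (3 : ℤ) ∣ c i) :
    ∃ r ∈ T, ∃ r' ∈ T, (∀ y ∈ T, Dv 3 (B r y)) ∧ (∀ y ∈ T, Dv 3 (B r' y)) ∧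
      ∀ a b : ℤ, (∃ w ∈ T, (a : ℚ) • r + (b : ℚ) • r' = (3 : ℚ) • w) →
        (3 : ℤ) ∣ a ∧ (3 : ℤ) ∣ b := by
  have hm : ∀ (e : ℤ) (i j : Fin 3), v i + (e : ℚ) • v j ∈ T := by
    intro e i j
    refine T.add_mem (hv i) ?_
    rw [Int.cast_smul_eq_zsmul]
    exact T.zsmul_mem (hv j) e
  by_cases h0 : Dv 6 (B (v 0) (v 0))
  · by_cases h1 : Dv 6 (B (v 1) (v 1))
    · refine ⟨v 0, hv 0, v 1, hv 1, fun y hy => rad_of_six hs hT h2 (hv 0) h0 hy,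
        fun y hy => rad_of_six hs hT h2 (hv 1) h1 hy, ?_⟩
      rintro a b ⟨w, hw, hw'⟩
      have h3 := hi ![a, b, 0] ⟨w, hw, by
        rw [← hw', Fin.sum_univ_three]
        simp⟩
      exact ⟨h3 0, h3 1⟩
    · obtain ⟨e, he⟩ := exists_six hs hT h2 (hv 1) h1 (hv 0)
      obtain ⟨e', he'⟩ := exists_six hs hT h2 (hv 1) h1 (hv 2)
      refine ⟨_, hm e 0 1, _, hm e' 2 1, fun y hy => rad_of_six hs hT h2 (hm e 0 1) he hy,
        fun y hy => rad_of_six hs hT h2 (hm e' 2 1) he' hy, ?_⟩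
      rintro a b ⟨w, hw, hw'⟩
      have h3 := hi ![a, a * e + b * e', b] ⟨w, hw, by
        rw [← hw', Fin.sum_univ_three]
        simp only [Matrix.cons_val_zero, Matrix.cons_val_one, Matrix.cons_val, Int.cast_add,
          Int.cast_mul]
        module⟩
      exact ⟨h3 0, h3 2⟩
  · obtain ⟨e, he⟩ := exists_six hs hT h2 (hv 0) h0 (hv 1)
    obtain ⟨e', he'⟩ := exists_six hs hT h2 (hv 0) h0 (hv 2)
    refine ⟨_, hm e 1 0, _, hm e' 2 0, fun y hy => rad_of_six hs hT h2 (hm e 1 0) he hy,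
      fun y hy => rad_of_six hs hT h2 (hm e' 2 0) he' hy, ?_⟩
    rintro a b ⟨w, hw, hw'⟩
    have h3 := hi ![a * e + b * e', a, b] ⟨w, hw, by
      rw [← hw', Fin.sum_univ_three]
      simp only [Matrix.cons_val_zero, Matrix.cons_val_one, Matrix.cons_val, Int.cast_add,
        Int.cast_mul]
      module⟩
    exact ⟨h3 1, h3 2⟩

end Pool.Agent.RFN
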