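import Mathlib
import Pool.Agent.Lib.MP_dcc566_gt_R.LFf
import Pool.Agent.Lib.MP_dcc566_gt_R.LFg
import Pool.Agent.Lib.MP_dcc566_gt_R.LFk
import Pool.Agent.Lib.MP_dcc566_gt_R.E7F

/-!
# The family `U ⊕ E₈ ⊕ N`, `N ⊇ E₇`
-/

set_option autoImplicit false

namespace Pool.Agent.RFN

open Module
open MP_dcc566_gt (bf EvenPD)

/-- PROOF.  `exists_zbasis hB.nd hE hF` gives a basis `b` indexed by `Fin 3` (`finrank_fin_fun`; or use `exists_Zform`: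
`v i = ψ.symm (cz (Pi.single i 1))`), `b i ∈ T`; if `∑ c i • b i = 3 w`, `w ∈ T`, then the coordinates of `w` are integers
`z i` and `c i = 3 z i`. -/
theorem basis3 {B : Frm (Fin 3 → ℚ)} (hB : Pd B) {T : AddSubgroup (Fin 3 → ℚ)} (hE : EvL B T)
    (hF : FullL T) : ∃ v : Fin 3 → (Fin 3 → ℚ), (∀ i, v i ∈ T) ∧
      ∀ c : Fin 3 → ℤ, (∃ w ∈ T, ∑ i, (c i : ℚ) • v i = (3 : ℚ) • w) → ∀ i, (3 : ℤ) ∣ c i := by
  obtain ⟨M, ψ, -, -, hm⟩ := exists_Zform hB hE hF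
  refine ⟨fun i => ψ.symm (cz (Pi.single i 1)), fun i => ?_, ?_⟩
  · refine (hm _).1 ?_
    rw [LinearEquiv.apply_symm_apply]
    exact cz_mem _
  · rintro c ⟨w, hw, e⟩ i
    obtain ⟨z, hz⟩ := (hm w).2 hw
    have e1 := congrArg ψ e
    rw [map_sum] at e1
    simp only [map_smul, LinearEquiv.apply_symm_apply] at e1
    rw [hz] at e1
    have e2 := congrFun e1 i
    simp only [Finset.sum_apply, Pi.smul_apply, smul_eq_mul, cz] at e2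
    rw [Finset.sum_eq_single i (fun j _ hj => by
      rw [Pi.single_eq_of_ne (Ne.symm hj)]
      simp) (fun h => absurd (Finset.mem_univ _) h)] at e2
    rw [Pi.single_eq_same] at e2
    refine ⟨z i, ?_⟩
    have e3 : ((c i : ℤ) : ℚ) = ((3 * z i : ℤ) : ℚ) := by
      push_cast
      simpa using e2
    exact_mod_cast e3

/-- PROOF.  Let `T = {y | (0, y) ∈ N}` (`N.comap (AddMonoidHom.inr ..)`), even for `B3` and full (`N` is full).  Suppose no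
`y ∈ T` has `Dv 6 (B3 y y - 2)`.  `basis3` and `rad_two` give `r, r' ∈ T`.  `(0, r)` is in the radical of `N` modulo 3: for
`(a, b) ∈ N`, `a` is integral on `Zk 7` (`e7` and `EvL.isZ`), so `2 a ∈ Zk 7` (`E7_dual`: `a ∈ Zk 7` or `a - om7 ∈ Zk 7`, and
`2 om7 ∈ Zk 7`), so `(2 a, 0) ∈ N` and `(0, 2 b) = 2 (a, b) - (2 a, 0) ∈ N`, `2 b ∈ T`; `B3 r (2 b)` is divisible by 3 and
`B3 r b = sF .. (0, r) (a, b)` is an integer `m`, `3 ∣ 2 m`, so `3 ∣ m`.  `hA` for `(0, r)`, `(0, r')`: `p, q` not both divisible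
by 3 and `w ∈ N` with `p (0, r) + q (0, r') = 3 w`; `w.1 = 0`, so `w.2 ∈ T` and `p r + q r' = 3 w.2`; contradiction. -/
theorem exists_norm2 {B3 : Frm (Fin 3 → ℚ)} (h3 : Pd B3)
    {N : AddSubgroup ((Fin 7 → ℚ) × (Fin 3 → ℚ))} (hE : EvL (sF (mF E7) B3) N) (hF : FullL N)
    (e7 : ∀ x ∈ Zk 7, (x, (0 : Fin 3 → ℚ)) ∈ N) (hA : PropA (sF (mF E7) B3) N) :
    ∃ y, ((0 : Fin 7 → ℚ), y) ∈ N ∧ Dv 6 (B3 y y - 2) := by
  have hs7 : ∀ x y, mF E7 x y = mF E7 y x := mF_symm E7_symm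
  have hs : ∀ x y, sF (mF E7) B3 x y = sF (mF E7) B3 y x := sF_symm hs7 h3.symm
  let T : AddSubgroup (Fin 3 → ℚ) := N.comap (AddMonoidHom.inr (Fin 7 → ℚ) (Fin 3 → ℚ))
  have hTm : ∀ y, y ∈ T ↔ ((0 : Fin 7 → ℚ), y) ∈ N := fun y => Iff.rfl
  have hTE : EvL B3 T := by
    intro y hy
    have h1 := hE _ ((hTm y).1 hy)
    rw [sF_apply] at h1
    simpa using h1
  have hTF : FullL T := by
    intro y
    obtain ⟨n, hn, h1⟩ := hF ((0 : Fin 7 → ℚ), y)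
    refine ⟨n, hn, ?_⟩
    rw [hTm]
    have h2 : (n : ℚ) • ((0 : Fin 7 → ℚ), y) = ((0 : Fin 7 → ℚ), (n : ℚ) • y) := by
      ext <;> simp
    rwa [h2] at h1
  by_contra hcon
  have hno : ∀ y ∈ T, ¬ Dv 6 (B3 y y - 2) := fun y hy hd => hcon ⟨y, (hTm y).1 hy, hd⟩
  obtain ⟨v, hv, hi⟩ := basis3 h3 hTE hTF
  obtain ⟨r, hr, r', hr', h1, h2, h12⟩ := rad_two h3.symm hTE hno hv hi
  have hom : (2 : ℚ) • om7 ∈ Zk 7 := by
    refine ⟨![2, 3, 4, 6, 5, 4, 3], ?_⟩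
    funext i
    fin_cases i <;> norm_num [om7]
  have hrad : ∀ s ∈ T, (∀ y ∈ T, Dv 3 (B3 s y)) → ∀ z ∈ N,
      Dv 3 (sF (mF E7) B3 ((0 : Fin 7 → ℚ), s) z) := by
    rintro s hsT hs3 ⟨a, b⟩ hz
    have ha : ∀ u : Fin 7 → ℤ, IsZ (mF E7 a (cz u)) := by
      intro u
      have h4 := EvL.isZ hs hE hz (e7 _ (cz_mem u))
      rw [sF_apply] at h4
      simpa using h4
    have h2a : (2 : ℚ) • a ∈ Zk 7 := by
      rcases E7_dual ha with h5 | h5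
      · rw [two_smul]
        exact (Zk 7).add_mem h5 h5
      · have h6 : (2 : ℚ) • a = ((a - om7) + (a - om7)) + (2 : ℚ) • om7 := by
          rw [two_smul, two_smul]
          abel
        rw [h6]
        exact (Zk 7).add_mem ((Zk 7).add_mem h5 h5) hom
    have h7 : (2 : ℚ) • b ∈ T := by
      rw [hTm]
      have h8 : ((0 : Fin 7 → ℚ), (2 : ℚ) • b) = ((a, b) + (a, b)) - ((2 : ℚ) • a, 0) := by
        rw [two_smul, two_smul]
        ext <;> simp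
      rw [h8]
      exact N.sub_mem (N.add_mem hz hz) (e7 _ h2a)
    obtain ⟨k, hk⟩ := hs3 _ h7
    obtain ⟨m, hm⟩ := EvL.isZ hs hE ((hTm s).1 hsT) hz
    have h9 : sF (mF E7) B3 ((0 : Fin 7 → ℚ), s) (a, b) = B3 s b := by
      rw [sF_apply]
      simp
    rw [h9] at hm ⊢
    rw [map_smul, smul_eq_mul, hm] at hk
    have h10 : 2 * m = 3 * k := by exact_mod_cast hk
    obtain ⟨j, hj⟩ : (3 : ℤ) ∣ m := by omega
    exact ⟨j, by rw [hm, hj]; push_cast; ring⟩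
  obtain ⟨p, q, hpq, w, hw, e⟩ := hA _ ((hTm r).1 hr) _ ((hTm r').1 hr') (hrad r hr h1)
    (hrad r' hr' h2)
  have e1 : w.1 = 0 := by
    have h3' := congrArg Prod.fst e
    simp only [Prod.fst_add, Prod.smul_fst, smul_zero, add_zero] at h3'
    exact (smul_eq_zero.1 h3'.symm).resolve_left (by norm_num)
  have e2 : (p : ℚ) • r + (q : ℚ) • r' = (3 : ℚ) • w.2 := by
    have h3' := congrArg Prod.snd e
    simpa using h3'
  refine hpq (h12 p q ⟨w.2, ?_, e2⟩)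
  rw [hTm, ← e1]
  exact hw

/-- PROOF.  `exists_even_full B3` gives `T0`; `(Zk 7).prod T0` is even (`EvL_F7.prod`) and full; `exists_maxE` gives
`N ≥ (Zk 7).prod T0` with `MaxE (sF (mF E7) B3) N`; `maxE_PL`; `(x, 0) ∈ (Zk 7).prod T0`; `exists_norm2` with
`hA.propA`. -/
theorem f3_case {B3 : Frm (Fin 3 → ℚ)} (h3 : Pd B3) (hA : AllA (PF (sF (mF E7) B3))) :
    ∃ N : AddSubgroup ((Fin 7 → ℚ) × (Fin 3 → ℚ)), MaxE (PF (sF (mF E7) B3)) (PL N) ∧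
      (∀ x ∈ Zk 7, (x, (0 : Fin 3 → ℚ)) ∈ N) ∧
      ∃ y, ((0 : Fin 7 → ℚ), y) ∈ N ∧ Dv 6 (B3 y y - 2) := by
  obtain ⟨T0, hE0, hF0⟩ := exists_even_full B3
  have hs : ∀ x y, sF (mF E7) B3 x y = sF (mF E7) B3 y x := sF_symm (mF_symm E7_symm) h3.symm
  have hFull : FullL ((Zk 7).prod T0) := by
    rintro ⟨a, b⟩
    obtain ⟨n, hn, h1⟩ := FullL_Zk a
    obtain ⟨m, hm, h2⟩ := hF0 b
    refine ⟨n * m, Nat.mul_pos hn hm, ?_⟩
    rw [AddSubgroup.mem_prod]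
    constructor
    · have h4 : ((n * m : ℕ) : ℚ) • a = m • ((n : ℚ) • a) := by
        rw [← Nat.cast_smul_eq_nsmul ℚ, smul_smul, mul_comm (m : ℚ), Nat.cast_mul]
      change ((n * m : ℕ) : ℚ) • a ∈ Zk 7
      rw [h4]
      exact (Zk 7).nsmul_mem h1 m
    · have h4 : ((n * m : ℕ) : ℚ) • b = n • ((m : ℚ) • b) := by
        rw [← Nat.cast_smul_eq_nsmul ℚ, smul_smul, Nat.cast_mul]
      change ((n * m : ℕ) : ℚ) • b ∈ T0
      rw [h4]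
      exact T0.nsmul_mem h2 n
  obtain ⟨N, hle, hN⟩ := exists_maxE hs (EvL_F7.prod hE0) hFull
  have he7 : ∀ x ∈ Zk 7, (x, (0 : Fin 3 → ℚ)) ∈ N := fun x hx =>
    hle (AddSubgroup.mem_prod.2 ⟨hx, T0.zero_mem⟩)
  exact ⟨N, maxE_PL.2 hN, he7, exists_norm2 h3 hN.even hN.full he7 (hA.propA hN)⟩

end Pool.Agent.RFN
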