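import Mathlib
import Pool.Agent.Lib.MP_dcc566_gt_R.LFm
import Pool.Agent.Lib.MP_dcc566_gt_R.LFn
import Pool.Agent.Lib.MP_dcc566_gt_R.LFo
import Pool.Agent.Lib.MP_dcc566_gt_R.LFp

/-!
# The three families of maximal lattices
-/

set_option autoImplicit false

namespace Pool.Agent.RFN

open Module
open MP_dcc566_gt (bf EvenPD)

variable {V : Type} [AddCommGroup V] [Module ℚ V]

/-- The family `U ⊕ E₈ ⊕ E₈ ⊕ K`. -/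
def F1 (B : Frm V) : Prop := ∃ K : Matrix (Fin 2) (Fin 2) ℤ, EvenPD K ∧
  (∃ y : Fin 2 → ℤ, ¬ (6 : ℤ) ∣ bf K y y) ∧ MaxE (PF (sF F8 (mF K))) (PL ((Zk 8).prod (Zk 2))) ∧
  ∃ φ : V ≃ₗ[ℚ] PV ((Fin 8 → ℚ) × (Fin 2 → ℚ)), IsIso B (PF (sF F8 (mF K))) φ

/-- The family `U ⊕ E₈ ⊕ E₆ ⊕ T`. -/
def F2 (B : Frm V) : Prop := ∃ T : Matrix (Fin 4) (Fin 4) ℤ, EvenPD T ∧
  MaxE (PF (sF (mF E6) (mF T))) (PL ((Zk 6).prod (Zk 4))) ∧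
  ∃ φ : V ≃ₗ[ℚ] PV ((Fin 6 → ℚ) × (Fin 4 → ℚ)), IsIso B (PF (sF (mF E6) (mF T))) φ

/-- The family `U ⊕ E₈ ⊕ N`, `N ⊇ E₇`. -/
def F3 (B : Frm V) : Prop := ∃ (BY : Frm (Fin 3 → ℚ))
  (N : AddSubgroup ((Fin 7 → ℚ) × (Fin 3 → ℚ))), Pd BY ∧
  MaxE (PF (sF (mF E7) BY)) (PL N) ∧ (∀ x ∈ Zk 7, (x, (0 : Fin 3 → ℚ)) ∈ N) ∧
  (∀ y, BY y y ≠ 2) ∧ (∃ y, ((0 : Fin 7 → ℚ), y) ∈ N ∧ Dv 6 (BY y y - 2)) ∧
  ∃ φ : V ≃ₗ[ℚ] PV ((Fin 7 → ℚ) × (Fin 3 → ℚ)), IsIso B (PF (sF (mF E7) BY)) φ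

/-- FAM. -/
theorem families {B : Frm V} (hB : Hyp B) (hV : finrank ℚ V = 20)
    (he : ∃ e : V, e ≠ 0 ∧ B e e = 0) : F1 B ∨ F2 B ∨ F3 B := by
  have hfd : FiniteDimensional ℚ V := finite_of_finrank_pos (by rw [hV]; norm_num)
  obtain ⟨e, he0, hee⟩ := he
  obtain ⟨B10, h10, i10⟩ := split_PF hB hV he0 hee
  obtain ⟨B4, h4, i4⟩ := split_E6 h10
  rcases f2_case h4 with ⟨T, hT, hM, hi⟩ | hA
  · right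
    left
    obtain ⟨φ, hφ⟩ := i10.trans ((i4.trans ((Isom.refl (mF E6)).prod hi)).pf)
    exact ⟨T, hT, hM, φ, hφ⟩
  · have hA10 : AllA (PF B10) := hA.iso i4.symm.pf
    obtain ⟨B3, h3, i3⟩ := split_E7 h10
    have hA3 : AllA (PF (sF (mF E7) B3)) := hA10.iso i3.pf
    by_cases hy : ∃ y, B3 y y = 2
    · left
      obtain ⟨y, hy⟩ := hy
      obtain ⟨B2, h2, i2⟩ := split_E8 h3 hy
      obtain ⟨K, hK, hK6, hM, hi⟩ := f1_case h2 (hA3.iso i2.pf)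
      obtain ⟨φ, hφ⟩ := i10.trans ((i3.trans (i2.trans ((Isom.refl F8).prod hi))).pf)
      exact ⟨K, hK, hK6, hM, φ, hφ⟩
    · right
      right
      push Not at hy
      obtain ⟨N, hM, h7, hN⟩ := f3_case h3 hA3
      obtain ⟨φ, hφ⟩ := i10.trans i3.pf
      exact ⟨B3, N, h3, hM, h7, hy, hN, φ, hφ⟩

end Pool.Agent.RFN
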