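import Mathlib
import Pool.Agent.Lib.MP_dcc566_gt_R.LKe

/-!
# Gram determinants of lattices
-/

set_option autoImplicit false

namespace Pool.Agent.RFN

open Module

variable {V : Type} [AddCommGroup V] [Module ℚ V]

/-- The Gram matrix of a basis. -/
noncomputable def Gram {n : ℕ} (B : Frm V) (b : Basis (Fin n) ℚ V) : Matrix (Fin n) (Fin n) ℚ :=
  Matrix.of fun i j => B (b i) (b j)

/-- PROOF.  `→`: `AddSubgroup.closure_induction`: the basis vectors have coordinates `0`, `1`;
sums, negatives.
`←`: `x = ∑ i, b.repr x i • b i` (`Basis.sum_repr`) is an integral combination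
(`Int.cast_smul_eq_zsmul`, `AddSubgroup.sum_mem`, `AddSubgroup.subset_closure`). -/
theorem mem_closure_basis {n : ℕ} (b : Basis (Fin n) ℚ V) (x : V) :
    x ∈ AddSubgroup.closure (Set.range b) ↔ ∀ i, IsZ (b.repr x i) := by
  constructor
  · intro hx
    induction hx using AddSubgroup.closure_induction with
    | mem x hx =>
      obtain ⟨j, rfl⟩ := hx
      intro i
      rw [b.repr_self, Finsupp.single_apply]
      split_ifs
      · exact ⟨1, by simp⟩
      · exact ⟨0, by simp⟩
    | zero =>
      intro i
      exact ⟨0, by simp⟩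
    | add x y _ _ h1 h2 =>
      intro i
      rw [map_add, Finsupp.add_apply]
      exact (h1 i).add (h2 i)
    | neg x _ h1 =>
      intro i
      rw [map_neg, Finsupp.neg_apply]
      exact (h1 i).neg
  · intro h
    choose a ha using h
    rw [← b.sum_repr x]
    refine AddSubgroup.sum_mem _ fun i _ => ?_
    rw [ha i]
    exact zs_mem (AddSubgroup.subset_closure (Set.mem_range_self i)) _

/-- A full even lattice of a nondegenerate space is generated by a basis.

PROOF.  `exists_zbasis`, reindexed (`Basis.reindex`, `finCongr hn`), and `mem_closure_basis`. -/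
theorem exists_basis_closure [FiniteDimensional ℚ V] {B : Frm V} (hB : Nd B) {X : AddSubgroup V}
    (hE : EvL B X) (hF : FullL X) {n : ℕ} (hn : finrank ℚ V = n) :
    ∃ b : Basis (Fin n) ℚ V, X = AddSubgroup.closure (Set.range b) := by
  subst hn
  obtain ⟨b, hb⟩ := exists_zbasis hB hE hF
  refine ⟨b, AddSubgroup.ext fun x => ?_⟩
  rw [mem_closure_basis]
  exact hb x

/-- PROOF.  For `v : V` clear the denominators of the finitely many coordinates `b.repr v i`
(`m = ∏ i, (b.repr v i).den`) and use `mem_closure_basis`. -/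
theorem full_closure {n : ℕ} (b : Basis (Fin n) ℚ V) :
    FullL (AddSubgroup.closure (Set.range b)) := by
  intro v
  refine ⟨∏ i, (b.repr v i).den, Finset.prod_pos fun i _ => (b.repr v i).den_pos, ?_⟩
  rw [mem_closure_basis]
  intro i
  rw [map_smul, Finsupp.smul_apply, smul_eq_mul,
    ← Finset.mul_prod_erase Finset.univ _ (Finset.mem_univ i)]
  refine ⟨(b.repr v i).num * (∏ j ∈ Finset.univ.erase i, (b.repr v j).den : ℕ), ?_⟩
  have h1 := Rat.mul_den_eq_num (b.repr v i)
  push_cast
  rw [← h1]
  push_cast
  ring

end Pool.Agent.RFN
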