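import Mathlib
import Pool.Agent.Lib.MP_dcc566_gt_R.LRa

/-!
# Gram determinants: index, scaling, integrality
-/

set_option autoImplicit false

namespace Pool.Agent.RFN

open Module

variable {V : Type} [AddCommGroup V] [Module ℚ V]

/-- Change of basis.

PROOF.  `b i = ∑ k, M k i • b' k` with `M = b'.toMatrix b` (`Basis.sum_toMatrix_smul_self` or `Basis.toMatrix_apply`), so
`Gram B b = Mᵀ * Gram B b' * M`, `det M = b'.det b` (`Basis.det_apply`).  If the group generated by `b` is contained in the one
generated by `b'`, `AddSubgroup.relIndex_eq_abs_det` gives `(relIndex : ℚ) = |b'.det b|`; `sq_abs`. -/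
theorem gram_index {n : ℕ} (B : Frm V) (b b' : Basis (Fin n) ℚ V)
    (h : AddSubgroup.closure (Set.range b) ≤ AddSubgroup.closure (Set.range b')) :
    (Gram B b).det = (((AddSubgroup.closure (Set.range b)).relIndex
      (AddSubgroup.closure (Set.range b')) : ℕ) : ℚ) ^ 2 * (Gram B b').det := by
  set M := b'.toMatrix b with hM
  have h1 : Gram B b = M.transpose * Gram B b' * M := by
    ext i j
    have hi : b i = ∑ k, M k i • b' k := (b'.sum_toMatrix_smul_self (b : Fin n → V) i).symm
    have hj : b j = ∑ k, M k j • b' k := (b'.sum_toMatrix_smul_self (b : Fin n → V) j).symm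
    have h2 : Gram B b i j = B (b i) (b j) := rfl
    rw [h2, hi, hj]
    simp only [map_sum, map_smul, LinearMap.sum_apply, LinearMap.smul_apply, smul_eq_mul,
      Matrix.mul_apply, Matrix.transpose_apply, Finset.sum_mul, Finset.mul_sum, Gram,
      Matrix.of_apply]
    refine Finset.sum_congr rfl fun k _ => Finset.sum_congr rfl fun l _ => ?_
    ring
  have h3 := AddSubgroup.relIndex_eq_abs_det (AddSubgroup.closure (Set.range b))
    (AddSubgroup.closure (Set.range b')) h b b' rfl rfl
  rw [h1, Matrix.det_mul, Matrix.det_mul, Matrix.det_transpose, h3, sq_abs, Basis.det_apply]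
  ring

/-- PROOF.  `Gram (t • B) b = t • Gram B b`, `Matrix.det_smul`, `Fintype.card_fin`. -/
theorem gram_smul {n : ℕ} (B : Frm V) (b : Basis (Fin n) ℚ V) (t : ℚ) :
    (Gram (t • B) b).det = t ^ n * (Gram B b).det := by
  have h1 : Gram (t • B) b = t • Gram B b := by
    ext i j
    simp [Gram]
  rw [h1, Matrix.det_smul, Fintype.card_fin]

/-- The Gram determinant of an even lattice is a nonzero integer.

PROOF.  The entries are integers (`EvL.isZ`), so the matrix is `M.map (Int.cast)` with `M` integral and the determinant is the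
integer `M.det` (`Matrix.det` commutes with ring homomorphisms: `Int.cast_det` / `RingHom.map_det`).  It is not `0`: otherwise
(`Matrix.exists_mulVec_eq_zero_iff`) there is `v ≠ 0` with `∑ j, B (b i) (b j) v j = 0` for all `i`, so `x = ∑ j, v j • b j ≠ 0` is
orthogonal to all `b i`, so to `V`; `hB.nd` (with symmetry) gives `x = 0`.  `D = M.det.natAbs`. -/
theorem gram_nat {n : ℕ} {B : Frm V} (hB : Nd B) (b : Basis (Fin n) ℚ V)
    (hE : EvL B (AddSubgroup.closure (Set.range b))) :
    ∃ D : ℕ, 0 < D ∧ |(Gram B b).det| = D := by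
  have hZ : ∀ i j, ∃ m : ℤ, B (b i) (b j) = m := fun i j =>
    EvL.isZ hB.symm hE (AddSubgroup.subset_closure (Set.mem_range_self i))
      (AddSubgroup.subset_closure (Set.mem_range_self j))
  choose m hm using hZ
  have h1 : Gram B b = (Matrix.of m).map (Int.cast : ℤ → ℚ) := by
    ext i j
    exact hm i j
  have h2 : (Gram B b).det = ((Matrix.of m).det : ℤ) := by
    rw [h1]
    exact (Int.cast_det _).symm
  refine ⟨(Matrix.of m).det.natAbs, ?_, ?_⟩
  · rw [Int.natAbs_pos]
    intro h0
    rw [h0, Int.cast_zero] at h2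
    obtain ⟨v, hv, hv0⟩ := Matrix.exists_mulVec_eq_zero_iff.2 h2
    apply hv
    have hx : ∑ j, v j • b j = 0 := by
      refine hB.nd _ fun y => ?_
      rw [hB.symm]
      have hker : ∀ i, B (b i) (∑ j, v j • b j) = 0 := by
        intro i
        have h3 := congrFun hv0 i
        simp only [Matrix.mulVec, dotProduct, Gram, Matrix.of_apply, Pi.zero_apply] at h3
        simp only [map_sum, map_smul, smul_eq_mul]
        rw [← h3]
        exact Finset.sum_congr rfl fun j _ => mul_comm _ _
      have hy := b.sum_repr y
      generalize ∑ j, v j • b j = x at hker ⊢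
      rw [← hy, map_sum, LinearMap.sum_apply]
      refine Finset.sum_eq_zero fun i _ => ?_
      rw [map_smul, LinearMap.smul_apply, hker i, smul_zero]
    funext j
    exact (Fintype.linearIndependent_iff.1 b.linearIndependent) v hx j
  · rw [h2, Nat.cast_natAbs, Int.cast_abs]

end Pool.Agent.RFN
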