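import Mathlib
import Pool.Agent.Lib.MP_dcc566_gt_R.LRa

/-!
# Integral forms: nondegeneracy, the standard lattice
-/

set_option autoImplicit false

namespace Pool.Agent.RFN

open Module

/-- PROOF.  Symmetry: `mF_symm hG`.  Nondegenerate: if `mF G x y = 0` for all `y` then with `y = Pi.single j 1` (`mF_apply`):
`∑ i, x i * G i j = 0`, i.e. `x` is in the kernel of the transpose of `G.map Int.cast`, whose determinant is `G.det ≠ 0`, so `x = 0`
(`Matrix.eq_zero_of_mulVec_eq_zero`). -/
theorem Nd_mF {n : ℕ} {G : Matrix (Fin n) (Fin n) ℤ} (hG : G.IsSymm) (hd : G.det ≠ 0) :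
    Nd (mF G) := by
  refine ⟨mF_symm hG, fun x h => ?_⟩
  have hdet : (G.map (Int.cast : ℤ → ℚ)).transpose.det ≠ 0 := by
    rw [Matrix.det_transpose]
    have h1 : (G.map (Int.cast : ℤ → ℚ)).det = ((G.det : ℤ) : ℚ) :=
      (Int.castRingHom ℚ).map_det G |>.symm
    rw [h1]
    exact_mod_cast hd
  refine Matrix.eq_zero_of_mulVec_eq_zero hdet ?_
  funext j
  have h2 := h (Pi.single j 1)
  rw [mF_apply] at h2
  simp only [Pi.single_apply, mul_ite, mul_one, mul_zero, Finset.sum_ite_eq',
    Finset.mem_univ, if_true] at h2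
  simp only [Matrix.mulVec, dotProduct, Matrix.transpose_apply, Matrix.map_apply,
    Pi.zero_apply]
  rw [← h2]
  exact Finset.sum_congr rfl fun i _ => mul_comm _ _

theorem Nd.smul {V : Type} [AddCommGroup V] [Module ℚ V] {B : Frm V} (hB : Nd B) {c : ℚ}
    (hc : c ≠ 0) : Nd (c • B) where
  symm := fun x y => by
    simp only [LinearMap.smul_apply, smul_eq_mul]
    rw [hB.symm]
  nd := fun x h => hB.nd x fun y => by
    have h1 := h y
    simp only [LinearMap.smul_apply, smul_eq_mul, mul_eq_zero] at h1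
    exact h1.resolve_left hc

/-- `Zk n` is generated by the standard basis.

PROOF.  `mem_closure_basis`, `Pi.basisFun_repr`, and the definition of `Zk` (choose the integers). -/
theorem Zk_eq_closure (n : ℕ) :
    Zk n = AddSubgroup.closure (Set.range (Pi.basisFun ℚ (Fin n))) := by
  ext x
  rw [mem_closure_basis]
  constructor
  · rintro ⟨u, rfl⟩ i
    exact ⟨u i, by rw [Pi.basisFun_repr]⟩
  · intro h
    choose u hu using h
    refine ⟨u, ?_⟩
    funext i
    rw [← hu i, Pi.basisFun_repr]

end Pool.Agent.RFN
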