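import Mathlib
import Pool.Agent.Lib.MP_dcc566_gt_R.LRb
import Pool.Agent.Lib.MP_dcc566_gt_R.LRc

/-!
# Reduction to minimal lattices
-/

set_option autoImplicit false

namespace Pool.Agent.RFN

open Module

/-- BLOCK R.

PROOF.  Let `P D` be: there are a basis `b` of `ℚ^n` and `c > 0` with `EvL (c • mF G) (L b)`, `Inv (mF G) (Zk n) (L b)` and
`|(Gram (c • mF G) b).det| = D`, where `L b = AddSubgroup.closure (Set.range b)`.  Some `D` has `P D`: the standard basis, `c = 2`
(`Zk_eq_closure`; `2 * mF G (cz u) (cz u) = 2 * bf G u u`, `mF_cz`; `Inv` is trivial; `gram_nat`).  Let `D` be minimal with `P D`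
(`Nat.find`, classical), `b, c` as in `P D`, `L = L b`, `B = c • mF G`; `Nd B` (`Nd_mF`, `Nd.smul`).  `MinL B L`:
* `even`; `full`: `full_closure`.
* If `L ≤ X` and `Inv B L X` then `Inv (mF G) (Zk n) X`: an isometry `g` of `mF G` with `MapsL g (Zk n) (Zk n)` has `MapsL g L L`, is
  an isometry of `B`, so `MapsL g X X`.  `X` is full because it contains `L`.
* `m1`: `X` even for `B`: `X = L b'` (`exists_basis_closure`).  `gram_index`: `det Gram B b = k² det Gram B b'`, `k = L.relIndex X`,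
  so `D = k² D'` with `D' = |det Gram B b'|` a positive integer (`gram_nat`), `P D'`, so `D ≤ D'` (minimality) and `k² ≤ 1`; `k ≠ 0`;
  `k = 1`, `X ≤ L` (`AddSubgroup.relIndex_eq_one`).
* `mp`: `B' = p • B` (`= (p c) • mF G`, `smul_smul`) is even on `X`; `X = L b'` (`exists_basis_closure` for `B'`); `P D'` for
  `D' = |det Gram B' b'| = p^n |det Gram B b'|` (`gram_smul`; `B' = (p c) • mF G`, `p c > 0`), so `D ≤ D'`, and `D = k² |det Gram B b'|`, `k = L.relIndex X`.
  So `k² |det Gram B b'| ≤ p^n |det Gram B b'|`, `|det Gram B b'| > 0`, `k² ≤ p^n`, `finrank ℚ (Fin n → ℚ) = n`. -/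
theorem reduction {n : ℕ} (G : Matrix (Fin n) (Fin n) ℤ) (hG : G.IsSymm) (hd : G.det ≠ 0) :
    ∃ (L : AddSubgroup (Fin n → ℚ)) (c : ℚ), 0 < c ∧ MinL (c • mF G) L ∧
      Inv (mF G) (Zk n) L := by
  classical
  have hNd : Nd (mF G) := Nd_mF hG hd
  have hNdc : ∀ c : ℚ, 0 < c → Nd (c • mF G) := fun c hc => hNd.smul hc.ne'
  have happ : ∀ (c : ℚ) (x y : Fin n → ℚ), (c • mF G) x y = c * mF G x y := fun c x y => by
    rw [LinearMap.smul_apply, LinearMap.smul_apply, smul_eq_mul]
  have hfin : finrank ℚ (Fin n → ℚ) = n := by simp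
  let P : ℕ → Prop := fun D => ∃ (b : Basis (Fin n) ℚ (Fin n → ℚ)) (c : ℚ), 0 < c ∧
    EvL (c • mF G) (AddSubgroup.closure (Set.range b)) ∧
    Inv (mF G) (Zk n) (AddSubgroup.closure (Set.range b)) ∧
    |(Gram (c • mF G) b).det| = (D : ℚ)
  have hP : ∃ D, P D := by
    have hE0 : EvL ((2 : ℚ) • mF G)
        (AddSubgroup.closure (Set.range (Pi.basisFun ℚ (Fin n)))) := by
      rw [← Zk_eq_closure]
      intro x hx
      obtain ⟨u, rfl⟩ := mem_Zk.1 hx
      refine ⟨MP_dcc566_gt.bf G u u, ?_⟩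
      rw [happ, mF_cz]
      push_cast
      rfl
    obtain ⟨D, -, hDe⟩ := gram_nat (hNdc 2 two_pos) (Pi.basisFun ℚ (Fin n)) hE0
    refine ⟨D, Pi.basisFun ℚ (Fin n), 2, two_pos, hE0, ?_, hDe⟩
    rw [← Zk_eq_closure]
    exact fun g _ hm => hm
  obtain ⟨b, c, hc, hE, hI, hdet⟩ := Nat.find_spec hP
  have hmin : ∀ D', P D' → Nat.find hP ≤ D' := fun D' h => Nat.find_min' hP h
  set D : ℕ := Nat.find hP with hD
  have hDpos : 0 < D := by
    obtain ⟨D0, hD0, hDe0⟩ := gram_nat (hNdc c hc) b hE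
    rw [hdet] at hDe0
    have : D = D0 := by exact_mod_cast hDe0
    omega
  have hInvX : ∀ X : AddSubgroup (Fin n → ℚ),
      Inv (c • mF G) (AddSubgroup.closure (Set.range b)) X → Inv (mF G) (Zk n) X := by
    intro X hIX g hg hmap
    refine hIX g (fun x y => ?_) (hI g hg hmap)
    rw [happ, happ, hg x y]
  have hFX : ∀ X : AddSubgroup (Fin n → ℚ), AddSubgroup.closure (Set.range b) ≤ X → FullL X := by
    intro X hX v
    obtain ⟨m, hm, h⟩ := full_closure b v
    exact ⟨m, hm, hX h⟩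
  refine ⟨AddSubgroup.closure (Set.range b), c, hc, ⟨hE, full_closure b, ?_, ?_⟩, hI⟩
  · intro X hLX hIX hEX
    obtain ⟨b', hb'⟩ := exists_basis_closure (hNdc c hc) hEX (hFX X hLX) hfin
    subst hb'
    obtain ⟨D', hD', hDe'⟩ := gram_nat (hNdc c hc) b' hEX
    have hle : D ≤ D' := hmin D' ⟨b', c, hc, hEX, hInvX _ hIX, hDe'⟩
    have hgi := gram_index (c • mF G) b b' hLX
    set k : ℕ := (AddSubgroup.closure (Set.range b)).relIndex
      (AddSubgroup.closure (Set.range b')) with hk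
    have h1 : (D : ℚ) = (k : ℚ) ^ 2 * D' := by
      rw [← hdet, hgi, abs_mul, hDe', abs_of_nonneg (by positivity)]
    have h2 : D = k ^ 2 * D' := by exact_mod_cast h1
    have hk0 : k ≠ 0 := by
      intro h0
      rw [h0] at h2
      simp at h2
      omega
    have hk1 : k = 1 := by
      by_contra hne
      have hk2 : 2 ≤ k := by omega
      have : 4 ≤ k ^ 2 := by nlinarith
      nlinarith
    exact le_antisymm (AddSubgroup.relIndex_eq_one.1 hk1) hLX
  · intro p hp X hLX hIX hEp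
    have hp0 : (0 : ℚ) < p := by exact_mod_cast hp.pos
    have hpc : 0 < (p : ℚ) * c := mul_pos hp0 hc
    have hEX : EvL (((p : ℚ) * c) • mF G) X := by
      intro x hx
      have h1 := hEp x hx
      rw [happ] at h1
      rw [happ, mul_assoc]
      exact h1
    obtain ⟨b', hb'⟩ := exists_basis_closure (hNdc _ hpc) hEX (hFX X hLX) hfin
    subst hb'
    obtain ⟨D', hD', hDe'⟩ := gram_nat (hNdc _ hpc) b' hEX
    have hle : D ≤ D' := hmin D' ⟨b', (p : ℚ) * c, hpc, hEX, hInvX _ hIX, hDe'⟩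
    have hgi := gram_index (c • mF G) b b' hLX
    set k : ℕ := (AddSubgroup.closure (Set.range b)).relIndex
      (AddSubgroup.closure (Set.range b')) with hk
    have hsm : (((p : ℚ) * c) • mF G) = (p : ℚ) • (c • mF G) := (smul_smul _ _ _).symm
    rw [hsm, gram_smul, abs_mul, abs_of_nonneg (by positivity)] at hDe'
    have h1 : (D : ℚ) = (k : ℚ) ^ 2 * |(Gram (c • mF G) b').det| := by
      rw [← hdet, hgi, abs_mul, abs_of_nonneg (by positivity)]
    set d : ℚ := |(Gram (c • mF G) b').det| with hdd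
    have hd0 : 0 < d := by
      rcases (abs_nonneg (Gram (c • mF G) b').det).eq_or_lt with h0 | h0
      · exfalso
        rw [← hdd] at h0
        rw [← h0, mul_zero] at h1
        have : D = 0 := by exact_mod_cast h1
        omega
      · exact h0
    have hleQ : (D : ℚ) ≤ D' := by exact_mod_cast hle
    rw [h1, ← hDe'] at hleQ
    have h2 : (k : ℚ) ^ 2 ≤ (p : ℚ) ^ n := le_of_mul_le_mul_right hleQ hd0
    rw [hfin]
    exact_mod_cast h2

end Pool.Agent.RFN
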