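import Mathlib
import Pool.Agent.Lib.MP_dcc566_gt_R.CoreB
import Pool.Agent.Lib.MP_dcc566_gt_R.GeoA
import Pool.Agent.Lib.MP_dcc566_gt_R.GeoB
import Pool.Agent.Lib.MP_dcc566_gt_R.GeoC
import Pool.Agent.Lib.MP_dcc566_gt_R.LR
import Pool.Agent.Lib.MP_dcc566_gt_R.LF
import Pool.Agent.Lib.MP_dcc566_gt_R.LK
import Pool.Agent.Lib.MP_dcc566_gt_R.FamB
import Pool.Agent.Lib.MP_dcc566_gt_P1.MainP

/-!
# The classification
-/

set_option autoImplicit false

namespace Pool.Agent.RFN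

open Matrix Module
open Pool.Agent.RFL (J toR Model OR IsMaxRefl cj W)
open MP_dcc566_gt (rv EvenPD)

/-- A bad cusp of the maximal lattice of a family. -/
theorem core_bad {V : Type} [AddCommGroup V] [Module ℚ V] [FiniteDimensional ℚ V] {B : Frm V}
    (hB : Nd B) (hV : finrank ℚ V = 20) {L : AddSubgroup V} (hM : MinL B L) (hnb : ¬ BadR B L)
    {X : Type} [AddCommGroup X] [Module ℚ X] {BX : Frm X} {N : AddSubgroup X}
    (hN : FamOK BX N) (hmax : MaxE (PF BX) (PL N)) {φ : V ≃ₗ[ℚ] PV X} (hφ : IsIso B (PF BX) φ)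
    (hbad : BadS (PF BX) (PL N)) : False := by
  obtain ⟨ψ, hψ, hψm⟩ := core_gen hB hV hM hnb hN hmax hφ
  exact hnb (badR_iso hψ.sym hψm.sym (badR_of_badE hmax.even hmax.full (badE_of_badS hbad)))

/-- The classification of minimal lattices without bad cusps in hyperbolic spaces of dimension 20. -/
theorem rfl19_core {V : Type} [AddCommGroup V] [Module ℚ V] [FiniteDimensional ℚ V] {B : Frm V}
    (hH : Hyp B) (hV : finrank ℚ V = 20) (hiso : ∃ e : V, e ≠ 0 ∧ B e e = 0)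
    {L : AddSubgroup V} (hM : MinL B L) (hnb : ¬ BadR B L) :
    ∃ K : Matrix (Fin 2) (Fin 2) ℤ, (K = !![2, 0; 0, 2] ∨ K = !![2, 1; 1, 2]) ∧
      ∃ φ : V ≃ₗ[ℚ] KV, IsIso B (KF K) φ ∧ MapsL φ L KL := by
  have hB := hH.nd
  rcases families hH hV hiso with h | h | h
  · obtain ⟨K, hK, ⟨y, hy⟩, hmax, φ, hφ⟩ := h
    have hfam : FamOK (sF F8 (mF K)) ((Zk 8).prod (Zk 2)) :=
      fam1 (Pd_mF hK.symm hK.pos) (EvL_mF hK.even) ⟨cz y, cz_mem y, fun hd => hy (by
        rw [mF_cz] at hd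
        exact Dv_int.1 hd)⟩
    obtain ⟨ψ, hψ, hψm⟩ := core_gen hB hV hM hnb hfam hmax hφ
    have hnb' : ¬ BadR (KF K) KL := fun hb => hnb (badR_iso hψ.sym hψm.sym hb)
    obtain ⟨K', hK', η, hη, hηm⟩ := core_K hK hnb'
    refine ⟨K', hK', ψ.trans η, fun x y => ?_, fun x => ?_⟩
    · rw [LinearEquiv.trans_apply, LinearEquiv.trans_apply, hη, hψ]
    · rw [LinearEquiv.trans_apply, hηm, hψm]
  · exfalso
    obtain ⟨T, hT, hmax, φ, hφ⟩ := h
    have hd : finrank ℚ (PV ((Fin 6 → ℚ) × (Fin 4 → ℚ))) = 20 := by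
      rw [← hV]; exact (LinearEquiv.finrank_eq φ).symm
    have hpd : Pd (mF T) := Pd_mF hT.symm hT.pos
    have h18 := rk_max hmax (hB.map hφ) hd (p := 3) (by norm_num) (by norm_num)
    have h8 := rk_N (r := 8) (by norm_num : (3 : ℕ).Prime) h18
    have h3 := rk_T6 h8
    obtain ⟨z, hz, -, hz6, hz3⟩ := chv hpd.symm (EvL_mF hT.even) (by norm_num : (3 : ℕ).Prime)
      (k := 0) h3 (fun _ => 0) (fun i hi => absurd hi (Nat.not_lt_zero i))
    have hzT : ∃ z ∈ Zk 4, Dv 6 (mF T z z) ∧ ∃ n ∈ Zk 4, ¬ Dv 3 (mF T z n) := by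
      refine ⟨z, hz, ?_, ?_⟩
      · have : ((2 : ℤ) * ((3 : ℕ) : ℤ)) = 6 := by norm_num
        rw [this] at hz6
        exact hz6
      · by_contra hcon
        push Not at hcon
        have h1 := hz3 1 (fun _ => 0) (fun w hw => by
          simpa using hcon w hw)
        norm_num at h1
    exact core_bad hB hV hM hnb (fam2 hpd (EvL_mF hT.even) hzT) hmax hφ
      (badF2A hpd (EvL_mF hT.even))
  · exfalso
    obtain ⟨BY, N, hpd, hmax, h7, hno2, hex, φ, hφ⟩ := h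
    have hev : EvL (sF (mF E7) BY) N := by
      intro x hx
      have h1 := hmax.even (((0 : ℚ), (0 : ℚ)), ((0 : Fin 8 → ℚ), x))
        ⟨ZZ.zero_mem, (Zk 8).zero_mem, hx⟩
      simpa [sF_apply, HF_apply] using h1
    have hF3 : F3N BY N := ⟨hpd, hev, h7, hno2, hex⟩
    exact core_bad hB hV hM hnb (fam3 hF3) hmax hφ (badF3A hF3)

end Pool.Agent.RFN
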