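import Mathlib
import Pool.Agent.Lib.MP_dcc566_gt_P1.Defs
import Pool.Agent.Lib.MP_dcc566_gt_R.GeoC
import Pool.Agent.Lib.MP_dcc566_gt.E8F

/-!
# The lattices `U ⊕ E₈ ⊕ E₈ ⊕ K`: generation by roots
-/

set_option autoImplicit false

namespace Pool.Agent.RFN

open Matrix
open MP_dcc566_gt (bf rv mk LG Idx E8)

/-- `e + f`. -/
def e0 : Fin 20 → ℤ := (mk 1 1 0 0 0 : Idx 2 → ℤ) ∘ idx20.symm

/-- PROOF.  Reindexing the sums (`bf`, `Matrix.reindex_apply`, `Matrix.submatrix`, `Equiv.sum_comp`; `MP_dcc566_gt.bf_eq_sum`). -/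
theorem bf_UEE {R : Type} [CommRing R] (A : Matrix (Idx 2) (Idx 2) R) (x y : Idx 2 → R) :
    bf (Matrix.reindex idx20 idx20 A) (x ∘ idx20.symm) (y ∘ idx20.symm) = bf A x y := by
  rw [MP_dcc566_gt.bf_eq_sum, MP_dcc566_gt.bf_eq_sum]
  simp only [Matrix.reindex_apply, Matrix.submatrix_apply, Function.comp_apply]
  rw [Equiv.sum_comp idx20.symm fun i => ∑ j, x i * A i (idx20.symm j) * y (idx20.symm j)]
  refine Finset.sum_congr rfl fun i _ => ?_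
  exact Equiv.sum_comp idx20.symm fun j => x i * A i j * y j

theorem K_vals {K : Matrix (Fin 2) (Fin 2) ℤ} (hK : K = !![2, 0; 0, 2] ∨ K = !![2, 1; 1, 2]) :
    K.IsSymm ∧ K 0 0 = 2 ∧ K 1 1 = 2 ∧ ∀ z, ∃ k : ℤ, bf K z z = 2 * k := by
  rcases hK with rfl | rfl
  · refine ⟨by decide, rfl, rfl, fun z => ⟨z 0 ^ 2 + z 1 ^ 2, ?_⟩⟩
    rw [MP_dcc566_gt.bf_eq_sum]
    simp [Fin.sum_univ_two]
    ring
  · refine ⟨by decide, rfl, rfl, fun z => ⟨z 0 ^ 2 + z 0 * z 1 + z 1 ^ 2, ?_⟩⟩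
    rw [MP_dcc566_gt.bf_eq_sum]
    simp [Fin.sum_univ_two]
    ring

/-- PROOF.  `LG_symm` and reindexing. -/
theorem UEE_symm {K : Matrix (Fin 2) (Fin 2) ℤ} (hK : K.IsSymm) : (UEE K).IsSymm := by
  unfold UEE
  rw [Matrix.reindex_apply]
  exact (MP_dcc566_gt.LG_symm hK).submatrix _

/-- PROOF.  `u = x ∘ idx20.symm`, `exists_mk`, `bf_mk`, `MP_dcc566_gt.E8_even`. -/
theorem UEE_even {K : Matrix (Fin 2) (Fin 2) ℤ} (hK : ∀ z, ∃ k : ℤ, bf K z z = 2 * k)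
    (u : Fin 20 → ℤ) : ∃ k : ℤ, bf (UEE K) u u = 2 * k := by
  obtain ⟨a, b, u₁, u₂, z, hx⟩ := MP_dcc566_gt.exists_mk (u ∘ idx20)
  have hu : u = mk a b u₁ u₂ z ∘ idx20.symm := by
    rw [← hx]
    funext i
    simp
  obtain ⟨k1, h1⟩ := MP_dcc566_gt.E8_even u₁
  obtain ⟨k2, h2⟩ := MP_dcc566_gt.E8_even u₂
  obtain ⟨k3, h3⟩ := hK z
  refine ⟨a * b + k1 + k2 + k3, ?_⟩
  rw [hu]
  unfold UEE
  rw [bf_UEE, MP_dcc566_gt.bf_mk, h1, h2, h3]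
  ring

/-- PROOF.  `bf_UEE`, `bf_mk`. -/
theorem e0_norm (K : Matrix (Fin 2) (Fin 2) ℤ) : bf (UEE K) e0 e0 = 2 := by
  unfold UEE e0
  rw [bf_UEE, MP_dcc566_gt.bf_mk]
  simp only [MP_dcc566_gt.bf_zero_left]
  norm_num

private theorem MXd_comb (u : Fin 8 → ℤ) :
    (mk 0 0 u 0 0 : Idx 2 → ℤ) ∘ idx20.symm =
      ∑ i, u i • ((mk 0 0 (Pi.single i 1) 0 0 : Idx 2 → ℤ) ∘ idx20.symm) := by
  funext j
  simp only [Function.comp_apply, Finset.sum_apply, Pi.smul_apply, smul_eq_mul]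
  rcases idx20.symm j with i | i | i | i
  · fin_cases i <;> simp [mk]
  · simp [mk, Pi.single_apply]
  · simp [mk]
  · simp [mk]

private theorem MXd_comb2 (u : Fin 8 → ℤ) :
    (mk 0 0 0 u 0 : Idx 2 → ℤ) ∘ idx20.symm =
      ∑ i, u i • ((mk 0 0 0 (Pi.single i 1) 0 : Idx 2 → ℤ) ∘ idx20.symm) := by
  funext j
  simp only [Function.comp_apply, Finset.sum_apply, Pi.smul_apply, smul_eq_mul]
  rcases idx20.symm j with i | i | i | i
  · fin_cases i <;> simp [mk]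
  · simp [mk]
  · simp [mk, Pi.single_apply]
  · simp [mk]

private theorem MXd_comb3 (u : Fin 2 → ℤ) :
    (mk 0 0 0 0 u : Idx 2 → ℤ) ∘ idx20.symm =
      ∑ i, u i • ((mk 0 0 0 0 (Pi.single i 1) : Idx 2 → ℤ) ∘ idx20.symm) := by
  funext j
  simp only [Function.comp_apply, Finset.sum_apply, Pi.smul_apply, smul_eq_mul]
  rcases idx20.symm j with i | i | i | i
  · fin_cases i <;> simp [mk]
  · simp [mk]
  · simp [mk]
  · simp [mk, Pi.single_apply]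

/-- The lattice is generated by `e + f` and the vectors `r` of norm 2 with `(r, e + f) = 1`.

PROOF.  All vectors are `x ∘ idx20.symm`, `x = mk a b u₁ u₂ z` (`exists_mk`); write `[a, b, u₁, u₂, z]`.  By `bf_UEE`, `bf_mk` the vectors
`[1, 0, ρ, 0, 0]`, `[1, 0, 0, ρ, 0]` with `bf E8 ρ ρ = 2` and `[1, 0, 0, 0, Pi.single i 1]` (`K i i = 2`) are in `X`.  With
`ρ = Pi.single 0 1`, `Pi.single 2 1` and `Pi.single 0 1 + Pi.single 2 1` (all of norm 2, `decide`):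
`[1, 0, 0, 0, 0] = [1,0,ρ0,0,0] + [1,0,ρ2,0,0] - [1,0,ρ0+ρ2,0,0] ∈ X`, `[0,1,0,0,0] = e0 - [1,0,0,0,0] ∈ X`.  All simple roots
`Pi.single i 1 : Fin 8 → ℤ` have norm 2 (`decide`), so `[0,0,Pi.single i 1,0,0] ∈ X` and sums: `[0,0,u,0,0] ∈ X` for all `u`
(`u = ∑ i, u i • Pi.single i 1`), similarly for the other components. -/
theorem UEE_gen {K : Matrix (Fin 2) (Fin 2) ℤ} (h00 : K 0 0 = 2) (h11 : K 1 1 = 2)
    (X : AddSubgroup (Fin 20 → ℤ)) (h0 : e0 ∈ X)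
    (h : ∀ r, bf (UEE K) r r = 2 → bf (UEE K) r e0 = 1 → r ∈ X) (x : Fin 20 → ℤ) : x ∈ X := by
  have hr : ∀ (u₁ u₂ : Fin 8 → ℤ) (z : Fin 2 → ℤ), bf E8 u₁ u₁ + bf E8 u₂ u₂ + bf K z z = 2 →
      (mk 1 0 u₁ u₂ z : Idx 2 → ℤ) ∘ idx20.symm ∈ X := by
    intro u₁ u₂ z hn
    refine h _ ?_ ?_
    · unfold UEE
      rw [bf_UEE, MP_dcc566_gt.bf_mk]
      linarith
    · unfold UEE e0
      rw [bf_UEE, MP_dcc566_gt.bf_mk]
      simp only [MP_dcc566_gt.bf_zero_right]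
      norm_num
  have hsub : ∀ x y : Idx 2 → ℤ, x ∘ idx20.symm ∈ X → y ∘ idx20.symm ∈ X →
      (x - y) ∘ idx20.symm ∈ X := fun x y hx hy => X.sub_mem hx hy
  have hadd : ∀ x y : Idx 2 → ℤ, x ∘ idx20.symm ∈ X → y ∘ idx20.symm ∈ X →
      (x + y) ∘ idx20.symm ∈ X := fun x y hx hy => X.add_mem hx hy
  have hz : ∀ i : Fin 2, bf K (Pi.single i 1) (Pi.single i 1) = 2 := by
    intro i
    rw [MP_dcc566_gt.bf_single_left]
    fin_cases i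
    · simpa using h00
    · simpa using h11
  have h8 : ∀ i : Fin 8, bf E8 (Pi.single i 1) (Pi.single i 1) = 2 := by decide
  have h8' : bf E8 (Pi.single 0 1 + Pi.single 2 1) (Pi.single 0 1 + Pi.single 2 1) = 2 := by
    decide
  have hE : (mk 1 0 0 0 0 : Idx 2 → ℤ) ∘ idx20.symm ∈ X := by
    have e1 := hr (Pi.single 0 1) 0 0 (by simp only [MP_dcc566_gt.bf_zero_left, h8]; norm_num)
    have e2 := hr (Pi.single 2 1) 0 0 (by simp only [MP_dcc566_gt.bf_zero_left, h8]; norm_num)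
    have e3 := hr (Pi.single 0 1 + Pi.single 2 1) 0 0
      (by simp only [MP_dcc566_gt.bf_zero_left, h8']; norm_num)
    have e4 := hsub _ _ (hadd _ _ e1 e2) e3
    rw [MP_dcc566_gt.mk_add, MP_dcc566_gt.mk_sub] at e4
    simpa using e4
  have hF : (mk 0 1 0 0 0 : Idx 2 → ℤ) ∘ idx20.symm ∈ X := by
    have e4 := hsub _ _ h0 hE
    rw [MP_dcc566_gt.mk_sub] at e4
    simpa using e4
  have g1 : ∀ u : Fin 8 → ℤ, (mk 0 0 u 0 0 : Idx 2 → ℤ) ∘ idx20.symm ∈ X := by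
    intro u
    rw [MXd_comb]
    refine X.sum_mem fun i _ => X.zsmul_mem ?_ _
    have e1 := hr (Pi.single i 1) 0 0 (by simp only [MP_dcc566_gt.bf_zero_left, h8]; norm_num)
    have e4 := hsub _ _ e1 hE
    rw [MP_dcc566_gt.mk_sub] at e4
    simpa using e4
  have g2 : ∀ u : Fin 8 → ℤ, (mk 0 0 0 u 0 : Idx 2 → ℤ) ∘ idx20.symm ∈ X := by
    intro u
    rw [MXd_comb2]
    refine X.sum_mem fun i _ => X.zsmul_mem ?_ _
    have e1 := hr 0 (Pi.single i 1) 0 (by simp only [MP_dcc566_gt.bf_zero_left, h8]; norm_num)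
    have e4 := hsub _ _ e1 hE
    rw [MP_dcc566_gt.mk_sub] at e4
    simpa using e4
  have g3 : ∀ u : Fin 2 → ℤ, (mk 0 0 0 0 u : Idx 2 → ℤ) ∘ idx20.symm ∈ X := by
    intro u
    rw [MXd_comb3]
    refine X.sum_mem fun i _ => X.zsmul_mem ?_ _
    have e1 := hr 0 0 (Pi.single i 1) (by simp only [MP_dcc566_gt.bf_zero_left, hz]; norm_num)
    have e4 := hsub _ _ e1 hE
    rw [MP_dcc566_gt.mk_sub] at e4
    simpa using e4
  obtain ⟨a, b, u₁, u₂, z, hx⟩ := MP_dcc566_gt.exists_mk (x ∘ idx20)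
  have hu : x = mk a b u₁ u₂ z ∘ idx20.symm := by
    rw [← hx]
    funext i
    simp
  have hs : ∀ (c : ℤ) (y : Idx 2 → ℤ), y ∘ idx20.symm ∈ X → (c • y) ∘ idx20.symm ∈ X :=
    fun c y hy => X.zsmul_mem hy c
  have e := hadd _ _ (hadd _ _ (hadd _ _ (hadd _ _ (hs a _ hE) (hs b _ hF)) (g1 u₁)) (g2 u₂))
    (g3 z)
  rw [MP_dcc566_gt.smul_mk, MP_dcc566_gt.smul_mk, MP_dcc566_gt.mk_add, MP_dcc566_gt.mk_add,
    MP_dcc566_gt.mk_add, MP_dcc566_gt.mk_add] at e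
  rw [hu]
  simpa using e

end Pool.Agent.RFN
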