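import Mathlib
import Pool.Agent.Lib.MP_dcc566_gt_R.MXd

/-!
# The lattices `U ⊕ E₈ ⊕ E₈ ⊕ K`: the dual lattice
-/

set_option autoImplicit false

namespace Pool.Agent.RFN

open Matrix
open Pool.Agent.RFL (toR bl)
open MP_dcc566_gt (bf rv mk LG Idx E8)

/-- PROOF.  `Matrix.fromBlocks_map`, `MP_dcc566_gt.bf_fromBlocks` three times. -/
theorem bfR_mk (K : Matrix (Fin 2) (Fin 2) ℤ) (a b a' b' : ℝ) (u₁ u₂ u₁' u₂' : Fin 8 → ℝ)
    (z z' : Fin 2 → ℝ) :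
    bf ((LG K).map (Int.cast : ℤ → ℝ)) (mk a b u₁ u₂ z) (mk a' b' u₁' u₂' z') =
      a * b' + b * a' + bf (E8.map (Int.cast : ℤ → ℝ)) u₁ u₁' +
        bf (E8.map (Int.cast : ℤ → ℝ)) u₂ u₂' + bf (K.map (Int.cast : ℤ → ℝ)) z z' := by
  have h1 : bf (MP_dcc566_gt.UG.map (Int.cast : ℤ → ℝ)) ![a, b] ![a', b'] =
      a * b' + b * a' := by
    simp [bf, MP_dcc566_gt.UG, dotProduct, mulVec, Fin.sum_univ_two]
  unfold LG mk
  rw [Matrix.fromBlocks_map, Matrix.fromBlocks_map, Matrix.fromBlocks_map]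
  simp only [Matrix.map_zero _ Int.cast_zero]
  rw [MP_dcc566_gt.bf_fromBlocks, MP_dcc566_gt.bf_fromBlocks, MP_dcc566_gt.bf_fromBlocks, h1]
  ring

/-- the fundamental weights -/
private def MXe_w : Fin 8 → Fin 8 → ℤ :=
  ![![4, 5, 7, 10, 8, 6, 4, 2], ![5, 8, 10, 15, 12, 9, 6, 3], ![7, 10, 14, 20, 16, 12, 8, 4],
    ![10, 15, 20, 30, 24, 18, 12, 6], ![8, 12, 16, 24, 20, 15, 10, 5],
    ![6, 9, 12, 18, 15, 12, 8, 4], ![4, 6, 8, 12, 10, 8, 6, 3], ![2, 3, 4, 6, 5, 4, 3, 2]]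

private theorem MXe_dual (i j : Fin 8) : (E8.mulVec (MXe_w i)) j = if j = i then 1 else 0 := by
  revert i j
  decide

private theorem MXe_mulVec (A : Matrix (Fin 8) (Fin 8) ℤ) (w : Fin 8 → ℤ) :
    (A.map (Int.cast : ℤ → ℝ)) *ᵥ (rv w) = rv (A *ᵥ w) := by
  funext j
  simp [mulVec, dotProduct, rv]

private theorem MXe_rv_bf (u v : Fin 8 → ℤ) :
    bf (E8.map (Int.cast : ℤ → ℝ)) (rv u) (rv v) = ((bf E8 u v : ℤ) : ℝ) := by
  unfold bf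
  rw [MXe_mulVec]
  simp only [dotProduct, rv]
  push_cast
  rfl

/-- PROOF.  With the rows `w i` of `E8⁻¹`
(`![![4, 5, 7, 10, 8, 6, 4, 2], ![5, 8, 10, 15, 12, 9, 6, 3], ![7, 10, 14, 20, 16, 12, 8, 4],
![10, 15, 20, 30, 24, 18, 12, 6], ![8, 12, 16, 24, 20, 15, 10, 5], ![6, 9, 12, 18, 15, 12, 8, 4],
![4, 6, 8, 12, 10, 8, 6, 3], ![2, 3, 4, 6, 5, 4, 3, 2]]`, `E8 *ᵥ w i = Pi.single i
1` by `decide`) the product of `u` and `rv (w i)` is `u i`. -/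
theorem E8R_dual {u : Fin 8 → ℝ}
    (h : ∀ v : Fin 8 → ℤ, ∃ k : ℤ, bf (E8.map (Int.cast : ℤ → ℝ)) u (rv v) = k) :
    ∃ w : Fin 8 → ℤ, u = rv w := by
  have hw : ∀ i, bf (E8.map (Int.cast : ℤ → ℝ)) u (rv (MXe_w i)) = u i := by
    intro i
    unfold bf
    rw [MXe_mulVec]
    simp only [dotProduct, rv, MXe_dual]
    simp
  choose k hk using fun i => h (MXe_w i)
  refine ⟨k, funext fun i => ?_⟩
  rw [← hw i, hk i]
  rfl

/-- PROOF.  `K = 2 I`: `2 z 0 = p`, `2 z 1 = q` integers, norm `2 z0² + 2 z1² = (p² + q²)/2 = 2 k`: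
`4 ∣ p² + q²`, so `p, q` are even.
`K = !![2,1;1,2]`: `2 z0 + z1 = p`, `z0 + 2 z1 = q`; `3 z0 = 2p - q`, `3 z1 = 2q - p`; norm
`2 (z0² + z0 z1 + z1²) = 2 (p² - p q + q²)/3 = 2 k`:
`3 ∣ p² - p q + q²`, so `3 ∣ p + q` (`(p + q)² = p² - pq + q² + 3pq`), so
`3 ∣ 2p - q = 2 (p + q) - 3 q` and `3 ∣ 2 q - p`. -/
theorem K_dual {K : Matrix (Fin 2) (Fin 2) ℤ} (hK : K = !![2, 0; 0, 2] ∨ K = !![2, 1; 1, 2])
    {z : Fin 2 → ℝ}
    (h : ∀ v : Fin 2 → ℤ, ∃ k : ℤ, bf (K.map (Int.cast : ℤ → ℝ)) z (rv v) = k)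
    (hn : ∃ k : ℤ, bf (K.map (Int.cast : ℤ → ℝ)) z z = 2 * k) : ∃ w : Fin 2 → ℤ, z = rv w := by
  obtain ⟨p, hp⟩ := h ![1, 0]
  obtain ⟨q, hq⟩ := h ![0, 1]
  obtain ⟨k, hk⟩ := hn
  rcases hK with rfl | rfl
  · simp [bf, dotProduct, mulVec, Fin.sum_univ_two, rv] at hp hq hk
    have e1 : (p : ℝ) ^ 2 + (q : ℝ) ^ 2 = 4 * k := by
      rw [← hp, ← hq]
      linear_combination 2 * hk
    have e2 : p ^ 2 + q ^ 2 = 4 * k := by exact_mod_cast e1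
    obtain ⟨a, b, ha, hb⟩ : ∃ a b : ℤ, p = 2 * a ∧ q = 2 * b := by
      obtain ⟨a, ha | ha⟩ := Int.even_or_odd' p <;> obtain ⟨b, hb | hb⟩ := Int.even_or_odd' q
      · exact ⟨a, b, ha, hb⟩
      · rw [ha, hb] at e2
        have h1 : 4 * (a ^ 2 + b ^ 2 + b - k) = -1 := by linear_combination e2
        omega
      · rw [ha, hb] at e2
        have h1 : 4 * (a ^ 2 + b ^ 2 + a - k) = -1 := by linear_combination e2
        omega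
      · rw [ha, hb] at e2
        have h1 : 4 * (a ^ 2 + b ^ 2 + a + b - k) = -2 := by linear_combination e2
        omega
    refine ⟨![a, b], funext fun i => ?_⟩
    fin_cases i
    · show z 0 = ((a : ℤ) : ℝ)
      rw [ha] at hp
      push_cast at hp
      linarith
    · show z 1 = ((b : ℤ) : ℝ)
      rw [hb] at hq
      push_cast at hq
      linarith
  · simp [bf, dotProduct, mulVec, Fin.sum_univ_two, rv] at hp hq hk
    have e1 : (p : ℝ) ^ 2 - p * q + (q : ℝ) ^ 2 = 3 * k := by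
      rw [← hp, ← hq]
      linear_combination (3 / 2) * hk
    have e2 : p ^ 2 - p * q + q ^ 2 = 3 * k := by exact_mod_cast e1
    have e3 : (3 : ℤ) ∣ p + q := by
      have h1 : (3 : ℤ) ∣ (p + q) ^ 2 := ⟨k + p * q, by linear_combination e2⟩
      exact Int.prime_three.dvd_of_dvd_pow h1
    obtain ⟨c, hc⟩ := e3
    have hc' : (p : ℝ) + q = 3 * c := by exact_mod_cast hc
    refine ⟨![2 * c - q, 2 * c - p], funext fun i => ?_⟩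
    fin_cases i
    · show z 0 = ((2 * c - q : ℤ) : ℝ)
      push_cast
      linarith
    · show z 1 = ((2 * c - p : ℤ) : ℝ)
      push_cast
      linarith

private theorem MXe_rv_mk (a b : ℤ) (u₁ u₂ : Fin 8 → ℤ) (z : Fin 2 → ℤ) :
    rv ((mk a b u₁ u₂ z : Idx 2 → ℤ) ∘ idx20.symm) =
      (mk (a : ℝ) (b : ℝ) (rv u₁) (rv u₂) (rv z) : Idx 2 → ℝ) ∘ idx20.symm := by
  have h : ∀ j : Idx 2, ((mk a b u₁ u₂ z j : ℤ) : ℝ) =
      mk (a : ℝ) (b : ℝ) (rv u₁) (rv u₂) (rv z) j := by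
    intro j
    rcases j with j | j | j | j
    · fin_cases j <;> rfl
    · rfl
    · rfl
    · rfl
  funext i
  exact h (idx20.symm i)

/-- PROOF.  `x = y ∘ idx20.symm` with `y = x ∘ idx20 = mk a b u₁ u₂ z` (`exists_mk`);
`bl (toR (UEE K))` is `bf` of the reindexed matrix
(`bf_UEE`, `bfR_mk`; `toR (UEE K) = Matrix.reindex idx20 idx20 ((LG K).map cast)` by `rfl`/`ext`).
Products with `mk 1 0 0 0 0`,
`mk 0 1 0 0 0`: `b`, `a` are integers; with `mk 0 0 v 0 0`, `mk 0 0 0 v 0`: `E8R_dual`; with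
`mk 0 0 0 0 v`: the hypothesis of `K_dual`; the norm of
`x` is `2 a b + (u₁,u₁) + (u₂,u₂) + (z,z)`, the first three terms are even integers (`E8_even`), so
`K_dual` applies. -/
theorem UEE_dual {K : Matrix (Fin 2) (Fin 2) ℤ} (hK : K = !![2, 0; 0, 2] ∨ K = !![2, 1; 1, 2])
    (x : Fin 20 → ℝ) (h : ∀ v : Fin 20 → ℤ, ∃ k : ℤ, bl (toR (UEE K)) x (rv v) = k)
    (hn : ∃ k : ℤ, bl (toR (UEE K)) x x = 2 * k) : ∃ u : Fin 20 → ℤ, x = rv u := by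
  obtain ⟨a, b, u₁, u₂, z, hy⟩ := MP_dcc566_gt.exists_mk (x ∘ idx20)
  have hx : x = (mk a b u₁ u₂ z : Idx 2 → ℝ) ∘ idx20.symm := by
    rw [← hy]
    funext i
    show x i = x (idx20 (idx20.symm i))
    rw [Equiv.apply_symm_apply]
  have hbl : ∀ (a b a' b' : ℝ) (u₁ u₂ u₁' u₂' : Fin 8 → ℝ) (z z' : Fin 2 → ℝ),
      bl (toR (UEE K)) ((mk a b u₁ u₂ z : Idx 2 → ℝ) ∘ idx20.symm)
        ((mk a' b' u₁' u₂' z' : Idx 2 → ℝ) ∘ idx20.symm) =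
      a * b' + b * a' + bf (E8.map (Int.cast : ℤ → ℝ)) u₁ u₁' +
        bf (E8.map (Int.cast : ℤ → ℝ)) u₂ u₂' + bf (K.map (Int.cast : ℤ → ℝ)) z z' := by
    intro a b a' b' u₁ u₂ u₁' u₂' z z'
    rw [← bfR_mk]
    exact bf_UEE ((LG K).map (Int.cast : ℤ → ℝ)) _ _
  have key : ∀ (c d : ℤ) (v₁ v₂ : Fin 8 → ℤ) (w : Fin 2 → ℤ), ∃ k : ℤ,
      a * d + b * c + bf (E8.map (Int.cast : ℤ → ℝ)) u₁ (rv v₁) +
        bf (E8.map (Int.cast : ℤ → ℝ)) u₂ (rv v₂) +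
          bf (K.map (Int.cast : ℤ → ℝ)) z (rv w) = k := by
    intro c d v₁ v₂ w
    obtain ⟨k, hk⟩ := h ((mk c d v₁ v₂ w : Idx 2 → ℤ) ∘ idx20.symm)
    rw [MXe_rv_mk, hx, hbl] at hk
    exact ⟨k, hk⟩
  have hr8 : (rv (0 : Fin 8 → ℤ)) = 0 := MP_dcc566_gt.rv_zero
  have hr2 : (rv (0 : Fin 2 → ℤ)) = 0 := MP_dcc566_gt.rv_zero
  obtain ⟨B, hB⟩ := key 1 0 0 0 0
  obtain ⟨A, hA⟩ := key 0 1 0 0 0
  rw [hr8, hr2, MP_dcc566_gt.bf_zero_right, MP_dcc566_gt.bf_zero_right,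
    MP_dcc566_gt.bf_zero_right] at hA hB
  push_cast at hA hB
  have hA' : a = A := by linarith
  have hB' : b = B := by linarith
  obtain ⟨w₁, hw₁⟩ := E8R_dual (u := u₁) (by
    intro v
    obtain ⟨k, hk⟩ := key 0 0 v 0 0
    rw [hr8, hr2, MP_dcc566_gt.bf_zero_right, MP_dcc566_gt.bf_zero_right] at hk
    push_cast at hk
    exact ⟨k, by linarith⟩)
  obtain ⟨w₂, hw₂⟩ := E8R_dual (u := u₂) (by
    intro v
    obtain ⟨k, hk⟩ := key 0 0 0 v 0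
    rw [hr8, hr2, MP_dcc566_gt.bf_zero_right, MP_dcc566_gt.bf_zero_right] at hk
    push_cast at hk
    exact ⟨k, by linarith⟩)
  obtain ⟨w₃, hw₃⟩ := K_dual hK (z := z) (by
    intro v
    obtain ⟨k, hk⟩ := key 0 0 0 0 v
    rw [hr8, MP_dcc566_gt.bf_zero_right, MP_dcc566_gt.bf_zero_right] at hk
    push_cast at hk
    exact ⟨k, by linarith⟩) (by
    obtain ⟨k, hk⟩ := hn
    rw [hx, hbl, hw₁, hw₂, MXe_rv_bf, MXe_rv_bf, hA', hB'] at hk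
    obtain ⟨m₁, hm₁⟩ := MP_dcc566_gt.E8_even w₁
    obtain ⟨m₂, hm₂⟩ := MP_dcc566_gt.E8_even w₂
    rw [hm₁, hm₂] at hk
    refine ⟨k - A * B - m₁ - m₂, ?_⟩
    push_cast at hk ⊢
    linarith)
  refine ⟨(mk A B w₁ w₂ w₃ : Idx 2 → ℤ) ∘ idx20.symm, ?_⟩
  rw [MXe_rv_mk, hx, hA', hB', hw₁, hw₂, hw₃]

end Pool.Agent.RFN
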