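import Mathlib
import Pool.Agent.Lib.MP_dcc566_gt_P1.Mx
import Pool.Agent.Lib.MP_dcc566_gt_P1.Lor
import Pool.Agent.Lib.MP_dcc566_gt.Defs

/-!
# Integral reflections in vectors of norm 2
-/

set_option autoImplicit false

namespace Pool.Agent.RFN

open Matrix
open Pool.Agent.RFL (toR bl IsRefl OR GLZ OZ W)
open MP_dcc566_gt (bf rv)

variable {n : ℕ} {G : Matrix (Fin n) (Fin n) ℤ}

/-- The reflection in a vector of norm 2 is in `W G`.

PROOF.  `M = 1 - vecMulVec r (G *ᵥ r)` (integral) satisfies `M * M = 1` (`(G *ᵥ r) ⬝ᵥ r = bf G r r = 2`), so `⟨M, M, _, _⟩ : GL (Fin n) ℤ`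
and `g` is its image under `Matrix.GeneralLinearGroup.map (Int.castRingHom ℝ)`; `g ∈ GLZ n`.  `M *ᵥ x = x - ((G *ᵥ r) ⬝ᵥ x) • r`, and
`bl (toR G) (rv r) x = rv r ⬝ᵥ (toR G *ᵥ x) = (toR G *ᵥ rv r) ⬝ᵥ x` (`hG`, `Matrix.dotProduct_mulVec`, `Matrix.vecMul_transpose`).
`IsRefl (toR G) g (rv r)`: `bl (toR G) (rv r) (rv r) = 2` (`bl_toR`) and the formula (`2 * b / 2 = b`); `g ∈ OR (toR G)` by `IsRefl.mem_OR`;
`Subgroup.subset_closure`. -/
theorem refl_mem_W (hG : G.IsSymm) {r : Fin n → ℤ} (hr : bf G r r = 2) :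
    ∃ g ∈ W G, ∀ x : Fin n → ℝ, g.val *ᵥ x = x - bl (toR G) (rv r) x • rv r := by
  obtain ⟨M, hM⟩ : ∃ M : Matrix (Fin n) (Fin n) ℤ, M = 1 - vecMulVec r (G *ᵥ r) := ⟨_, rfl⟩
  have hr' : (G *ᵥ r) ⬝ᵥ r = 2 := by
    rw [dotProduct_comm]
    exact hr
  have hMM : M * M = 1 := by
    have h1 : vecMulVec r (G *ᵥ r) * vecMulVec r (G *ᵥ r) = 2 • vecMulVec r (G *ᵥ r) := by
      ext i j
      rw [Matrix.mul_apply, Matrix.smul_apply]
      simp only [vecMulVec_apply]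
      have h2 : ∑ k, r i * (G *ᵥ r) k * (r k * (G *ᵥ r) j) =
          r i * (G *ᵥ r) j * ((G *ᵥ r) ⬝ᵥ r) := by
        rw [dotProduct, Finset.mul_sum]
        exact Finset.sum_congr rfl fun k _ => by ring
      rw [h2, hr']
      simp only [nsmul_eq_mul, Nat.cast_ofNat]
      ring
    rw [hM, sub_mul, mul_sub, mul_sub, Matrix.one_mul, Matrix.one_mul, Matrix.mul_one, h1]
    rw [two_smul]
    abel
  obtain ⟨g, hg⟩ : ∃ g : GL (Fin n) ℝ, g = Matrix.GeneralLinearGroup.map (n := Fin n)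
      (Int.castRingHom ℝ) ⟨M, M, hMM, hMM⟩ := ⟨_, rfl⟩
  have hgv : g.val = M.map (Int.cast : ℤ → ℝ) := by
    rw [hg]
    rfl
  have hbl : ∀ x : Fin n → ℝ, bl (toR G) (rv r) x = (toR G *ᵥ rv r) ⬝ᵥ x := by
    intro x
    have hs : (toR G)ᵀ = toR G := by
      unfold toR
      rw [← transpose_map, hG.eq]
    rw [bl, dotProduct_mulVec, ← hs, ← mulVec_transpose, transpose_transpose, hs]
  have hGr : toR G *ᵥ rv r = fun i => (((G *ᵥ r) i : ℤ) : ℝ) := by
    funext i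
    simp only [toR, mulVec, dotProduct, Matrix.map_apply, rv]
    push_cast
    rfl
  have hact : ∀ x : Fin n → ℝ, g.val *ᵥ x = x - bl (toR G) (rv r) x • rv r := by
    intro x
    funext i
    rw [hgv, hbl, hGr, Pi.sub_apply, Pi.smul_apply, smul_eq_mul]
    simp only [mulVec, dotProduct, Matrix.map_apply, hM, Matrix.sub_apply, vecMulVec_apply, rv,
      Int.cast_sub, Int.cast_mul, sub_mul, Finset.sum_sub_distrib]
    congr 1
    · rw [Finset.sum_eq_single i]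
      · simp
      · intro j _ hj
        rw [Matrix.one_apply_ne (Ne.symm hj)]
        simp
      · intro h
        exact absurd (Finset.mem_univ _) h
    · rw [Finset.sum_mul]
      exact Finset.sum_congr rfl fun j _ => by ring
  have hbb : bl (toR G) (rv r) (rv r) = 2 := by
    have h1 := Pool.Agent.RFL.bl_toR G r r
    have h2 : (r ⬝ᵥ (G *ᵥ r) : ℤ) = 2 := hr
    rw [h2] at h1
    exact_mod_cast h1
  have hrefl : IsRefl (toR G) g (rv r) := by
    refine ⟨by rw [hbb]; norm_num, fun x => ?_⟩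
    rw [hact x, hbb]
    congr 2
    ring
  refine ⟨g, Subgroup.subset_closure ⟨⟨?_, ?_⟩, rv r, hrefl⟩, hact⟩
  · exact hrefl.mem_OR (by
      unfold toR Matrix.IsSymm
      rw [← transpose_map, hG.eq])
  · exact ⟨_, hg.symm⟩

end Pool.Agent.RFN
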