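import Mathlib
import Pool.Agent.Lib.MP_dcc566_gt_P1.Defs
import Pool.Agent.Lib.MP_dcc566_gt.Defs

/-!
# The lattice `E⁻¹ ℤⁿ`
-/

set_option autoImplicit false

namespace Pool.Agent.RFN

open Matrix
open Pool.Agent.RFL (toR bl GLZ)
open MP_dcc566_gt (bf rv)

variable {n : ℕ}

/-- The lattice `E⁻¹ ℤⁿ`. -/
def LatE (E : GL (Fin n) ℝ) : AddSubgroup (Fin n → ℝ) where
  carrier := {x | ∃ u : Fin n → ℤ, E.val *ᵥ x = rv u}
  add_mem' := by
    rintro a b ⟨u, hu⟩ ⟨v, hv⟩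
    exact ⟨u + v, by rw [mulVec_add, hu, hv, MP_dcc566_gt.rv_add]⟩
  zero_mem' := ⟨0, by rw [mulVec_zero]; funext i; simp [rv]⟩
  neg_mem' := by
    rintro a ⟨u, hu⟩
    exact ⟨-u, by rw [mulVec_neg, hu]; funext i; simp [rv]⟩

private theorem MXb_inv_mulVec (E : GL (Fin n) ℝ) (x : Fin n → ℝ) :
    E⁻¹.val *ᵥ (E.val *ᵥ x) = x := by
  rw [mulVec_mulVec, ← Units.val_mul, inv_mul_cancel, Units.val_one, one_mulVec]

private theorem MXb_map_rv (A : Matrix (Fin n) (Fin n) ℤ) (u : Fin n → ℤ) :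
    A.map (Int.cast : ℤ → ℝ) *ᵥ rv u = rv (A *ᵥ u) := by
  funext i
  simp [rv, mulVec, dotProduct]

private theorem MXb_single (j : Fin n) : (rv (Pi.single j 1) : Fin n → ℝ) = Pi.single j 1 := by
  funext i
  by_cases h : i = j
  · subst h
    simp [rv]
  · simp [rv, h]

private theorem MXb_cols {M : Matrix (Fin n) (Fin n) ℝ}
    (h1 : ∀ u : Fin n → ℤ, ∃ w : Fin n → ℤ, M *ᵥ rv u = rv w) :
    ∃ A : Matrix (Fin n) (Fin n) ℤ, M = A.map (Int.cast : ℤ → ℝ) := by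
  choose w hw using fun j : Fin n => h1 (Pi.single j 1)
  refine ⟨Matrix.of fun i j => w j i, ?_⟩
  ext i j
  have h2 := congrFun (hw j) i
  rw [MXb_single, mulVec_single_one] at h2
  simpa [rv, Matrix.col] using h2

/-- The multiples of `v` in the lattice form a cyclic group.

PROOF.  `E *ᵥ v ≠ 0` (`E` invertible), so some coordinate `b = (E *ᵥ v) i ≠ 0`.  `A = {s | s • v ∈ LatE E}` is an additive subgroup of `ℝ`, and
`s ∈ A` implies `s * b` is an integer.  So the positive elements of `A` are `≥ 1 / |b|`; there is one (`± t`).  Every such subgroup is cyclic: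
`AddSubgroup.dense_or_cyclic` (dense is impossible), or `AddSubgroup.cyclic_of_isolated_zero`, or take the least natural number `m > 0` of the
form `|s b|`, `s ∈ A` (`Nat.find`), and divide with remainder.  Make the generator positive (`|c|`). -/
theorem line_cyclic (E : GL (Fin n) ℝ) {v : Fin n → ℝ} (hv : v ≠ 0) {t : ℝ} (ht : t ≠ 0)
    (h : t • v ∈ LatE E) :
    ∃ c : ℝ, 0 < c ∧ ∀ s : ℝ, s • v ∈ LatE E ↔ ∃ k : ℤ, s = k * c := by
  have hne : E.val *ᵥ v ≠ 0 := by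
    intro h0
    apply hv
    rw [← MXb_inv_mulVec E v, h0, mulVec_zero]
  obtain ⟨i, hi⟩ := Function.ne_iff.1 hne
  rw [Pi.zero_apply] at hi
  set b := (E.val *ᵥ v) i with hb
  let A : AddSubgroup ℝ :=
    { carrier := {s | s • v ∈ LatE E}
      add_mem' := by
        intro s s' hs hs'
        rw [Set.mem_setOf_eq] at hs hs' ⊢
        rw [add_smul]
        exact add_mem hs hs'
      zero_mem' := by
        rw [Set.mem_setOf_eq, zero_smul]
        exact zero_mem _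
      neg_mem' := by
        intro s hs
        rw [Set.mem_setOf_eq] at hs ⊢
        rw [neg_smul]
        exact neg_mem hs }
  have hA : ∀ s : ℝ, s ∈ A ↔ s • v ∈ LatE E := fun s => Iff.rfl
  have hint : ∀ s ∈ A, ∃ m : ℤ, s * b = m := by
    intro s hs
    obtain ⟨u, hu⟩ := (hA s).1 hs
    refine ⟨u i, ?_⟩
    have h1 := congrFun hu i
    rw [mulVec_smul] at h1
    simpa [rv] using h1
  have hbpos : 0 < |b| := abs_pos.2 hi
  have hdis : Disjoint (A : Set ℝ) (Set.Ioo 0 (1 / |b|)) := by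
    rw [Set.disjoint_left]
    intro s hs hs2
    obtain ⟨m, hm⟩ := hint s hs
    have h1 : |s * b| < 1 := by
      rw [abs_mul, abs_of_pos hs2.1]
      have := hs2.2
      rwa [lt_div_iff₀ hbpos] at this
    rw [hm] at h1
    have h2 : |m| < 1 := by exact_mod_cast h1
    have h3 : m = 0 := Int.abs_lt_one_iff.1 h2
    rw [h3, Int.cast_zero] at hm
    rcases mul_eq_zero.1 hm with h4 | h4
    · exact hs2.1.ne' h4
    · exact hi h4
  obtain ⟨c0, hc0⟩ := AddSubgroup.cyclic_of_isolated_zero (one_div_pos.2 hbpos) hdis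
  have hmem : ∀ s : ℝ, s • v ∈ LatE E ↔ ∃ k : ℤ, s = k * c0 := by
    intro s
    rw [← hA, hc0, AddSubgroup.mem_closure_singleton]
    constructor
    · rintro ⟨k, hk⟩
      exact ⟨k, by rw [← hk, zsmul_eq_mul]⟩
    · rintro ⟨k, hk⟩
      exact ⟨k, by rw [hk, zsmul_eq_mul]⟩
  have hc0ne : c0 ≠ 0 := by
    intro h0
    obtain ⟨k, hk⟩ := (hmem t).1 h
    rw [h0, mul_zero] at hk
    exact ht hk
  refine ⟨|c0|, abs_pos.2 hc0ne, fun s => ?_⟩
  rw [hmem]
  rcases abs_choice c0 with h1 | h1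
  · rw [h1]
  · rw [h1]
    constructor
    · rintro ⟨k, hk⟩
      exact ⟨-k, by rw [hk]; push_cast; ring⟩
    · rintro ⟨k, hk⟩
      exact ⟨-k, by rw [hk]; push_cast; ring⟩

/-- PROOF.  Otherwise `bl B v` vanishes on the vectors `E⁻¹ *ᵥ Pi.single i 1 ∈ LatE E`, so `bl B v (E⁻¹ *ᵥ y) = ∑ i, y i * bl B v (E⁻¹ *ᵥ Pi.single i 1) = 0`
for all `y` (linearity), in particular for `y = E *ᵥ v`: `bl B v v = 0`. -/
theorem exists_lat_pair (E : GL (Fin n) ℝ) {B : Matrix (Fin n) (Fin n) ℝ} {v : Fin n → ℝ}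
    (hv : bl B v v ≠ 0) : ∃ x ∈ LatE E, bl B v x ≠ 0 := by
  by_contra hcon
  push Not at hcon
  apply hv
  have hlin : ∀ y : Fin n → ℝ, bl B v (E⁻¹.val *ᵥ y) = ((v ᵥ* B) ᵥ* E⁻¹.val) ⬝ᵥ y := by
    intro y
    unfold bl
    rw [dotProduct_mulVec, dotProduct_mulVec]
  have hz : (v ᵥ* B) ᵥ* E⁻¹.val = 0 := by
    funext i
    have h1 := hlin (Pi.single i 1)
    rw [dotProduct_single, mul_one] at h1
    rw [Pi.zero_apply, ← h1]
    apply hcon
    refine ⟨Pi.single i 1, ?_⟩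
    rw [mulVec_mulVec, ← Units.val_mul, mul_inv_cancel, Units.val_one, one_mulVec, MXb_single]
  have h2 := hlin (E.val *ᵥ v)
  rw [MXb_inv_mulVec, hz, zero_dotProduct] at h2
  exact h2

/-- PROOF.  `E *ᵥ (h *ᵥ x) = (E * h * E⁻¹) *ᵥ (E *ᵥ x)`, an integral matrix (`mem_GLZ`) times an integral vector. -/
theorem LatE_mem {E h : GL (Fin n) ℝ} (hE : E * h * E⁻¹ ∈ GLZ n) {x : Fin n → ℝ}
    (hx : x ∈ LatE E) : h.val *ᵥ x ∈ LatE E := by
  obtain ⟨u, hu⟩ := hx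
  obtain ⟨M, hM⟩ := Pool.Agent.RFL.mem_GLZ.1 hE
  refine ⟨M.val *ᵥ u, ?_⟩
  have h1 : E.val *ᵥ (h.val *ᵥ x) = (E * h * E⁻¹).val *ᵥ (E.val *ᵥ x) := by
    rw [mulVec_mulVec, mulVec_mulVec, ← Units.val_mul, ← Units.val_mul, inv_mul_cancel_right]
  rw [h1, hM, hu, MXb_map_rv]

/-- PROOF.  The columns of `h` and `h⁻¹` are integral (apply to `Pi.single i 1 = rv (Pi.single i 1)`), so `h.val = A.map cast`, `h⁻¹.val = A'.map cast`;
`A * A' = 1` and `A' * A = 1` since the cast is injective; `mem_GLZ`. -/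
theorem mem_GLZ_of_int {h : GL (Fin n) ℝ} (h1 : ∀ u : Fin n → ℤ, ∃ w : Fin n → ℤ, h.val *ᵥ rv u = rv w)
    (h2 : ∀ u : Fin n → ℤ, ∃ w : Fin n → ℤ, h⁻¹.val *ᵥ rv u = rv w) : h ∈ GLZ n := by
  obtain ⟨A, hA⟩ := MXb_cols h1
  obtain ⟨A', hA'⟩ := MXb_cols h2
  have hinj : Function.Injective (fun M : Matrix (Fin n) (Fin n) ℤ => M.map (Int.cast : ℤ → ℝ)) :=
    Matrix.map_injective Int.cast_injective
  have hmul : ∀ M N : Matrix (Fin n) (Fin n) ℤ,
      (M * N).map (Int.cast : ℤ → ℝ) = M.map (Int.cast : ℤ → ℝ) * N.map (Int.cast : ℤ → ℝ) := by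
    intro M N
    exact Matrix.map_mul (f := Int.castRingHom ℝ)
  have hone : (1 : Matrix (Fin n) (Fin n) ℤ).map (Int.cast : ℤ → ℝ) = 1 :=
    Matrix.map_one _ Int.cast_zero Int.cast_one
  have e1 : A * A' = 1 := by
    apply hinj
    simp only
    rw [hmul, hone, ← hA, ← hA', ← Units.val_mul, mul_inv_cancel, Units.val_one]
  have e2 : A' * A = 1 := by
    apply hinj
    simp only
    rw [hmul, hone, ← hA, ← hA', ← Units.val_mul, inv_mul_cancel, Units.val_one]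
  exact Pool.Agent.RFL.mem_GLZ.2 ⟨⟨A, A', e1, e2⟩, hA⟩

end Pool.Agent.RFN
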