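import Mathlib
import Pool.Agent.Lib.MP_dcc566_gt_R.MXa
import Pool.Agent.Lib.MP_dcc566_gt_R.MXb

/-!
# Groups containing the reflection group and preserving some lattice preserve `ℤⁿ`
-/

set_option autoImplicit false

namespace Pool.Agent.RFN

open Matrix
open Pool.Agent.RFL (toR bl IsRefl OR GLZ OZ W)
open MP_dcc566_gt (bf rv)

variable {n : ℕ} {G : Matrix (Fin n) (Fin n) ℤ}

private theorem MXc_bl (x y : Fin n → ℤ) : bl (toR G) (rv x) (rv y) = ((bf G x y : ℤ) : ℝ) :=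
  Pool.Agent.RFL.bl_toR G x y

private theorem MXc_comm (hG : G.IsSymm) (x y : Fin n → ℝ) :
    bl (toR G) x y = bl (toR G) y x :=
  MP_dcc566_gt.bf_comm (toR G) (hG.map _) x y

private theorem MXc_add (x x' y : Fin n → ℝ) :
    bl (toR G) (x + x') y = bl (toR G) x y + bl (toR G) x' y :=
  MP_dcc566_gt.bf_add_left (toR G) x x' y

private theorem MXc_neg (x y : Fin n → ℝ) : bl (toR G) (-x) y = -bl (toR G) x y :=
  MP_dcc566_gt.bf_neg_left (toR G) x y

private theorem MXc_smul (c : ℝ) (x y : Fin n → ℝ) :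
    bl (toR G) x (c • y) = c * bl (toR G) x y :=
  MP_dcc566_gt.bf_smul_right (toR G) c x y

private theorem MXc_one (hG : G.IsSymm) {H : Subgroup (GL (Fin n) ℝ)} (hW : W G ≤ H)
    {E : GL (Fin n) ℝ} (hE : ∀ h ∈ H, E * h * E⁻¹ ∈ GLZ n) {r : Fin n → ℤ} (hr : bf G r r = 2)
    {x : Fin n → ℝ} (hx : x ∈ LatE E) : bl (toR G) (rv r) x • rv r ∈ LatE E := by
  obtain ⟨g, hg, hgx⟩ := refl_mem_W hG hr
  have h1 := LatE_mem (hE g (hW hg)) hx
  rw [hgx] at h1
  have h2 := (LatE E).sub_mem hx h1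
  rwa [sub_sub_cancel] at h2

/-- PROOF.  Write `(x, y) = bl (toR G) x y` (bilinear, symmetric by `hG`), `M = LatE E`; `M` is preserved by `H` (`LatE_mem hE`).
(1) If `bf G r r = 2` and `x ∈ M` then `(rv r, x) • rv r ∈ M`: `refl_mem_W` gives `g ∈ W G ≤ H` with `g x = x - (rv r, x) • rv r ∈ M`.
(2) `(rv r0, rv r0) = 2 ≠ 0` (`bl_toR`), so by `exists_lat_pair` and (1) some `t ≠ 0` has `t • rv r0 ∈ M`; `line_cyclic`: `c > 0` with
    `s • rv r0 ∈ M ↔ ∃ k : ℤ, s = k * c`.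
(3) If `bf G r r = 2` and `bf G r r0 = 1`: `s • rv r ∈ M ↔ s • rv r0 ∈ M`.  With `g`, `g0` the reflections in `r`, `r0`:
    `g0 (g (rv r0)) = g0 (rv r0 - rv r) = - rv r` and `g (g0 (rv r)) = g (rv r - rv r0) = - rv r0`; `M` is a subgroup.
(4) `X = {u | c • rv u ∈ M}` is a subgroup of `ℤⁿ` which contains `r0` and all `r` as in (3), so it is everything (`hgen`).
(5) `X' = {u | ∀ x ∈ M, ∃ k : ℤ, (rv u, x) = k * c}` is a subgroup which contains `r0` ((1), (2)) and all `r` as in (3) ((1), (3), (2)), so it is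
    everything.
(6) Let `h ∈ H` and `u : Fin n → ℤ`; `y = h *ᵥ rv u`.  `c • y = h *ᵥ (c • rv u) ∈ M` by (4), so `(rv v, c • y) = k * c`, `(rv v, y) = k` for all
    `v` ((5)); `(y, y) = (rv u, rv u) = bf G u u` (`hO`: `bl_congr`, `mem_OR`), which is `2 * k` (`hev`).  `hdual`: `y = rv w`.
(7) `mem_GLZ_of_int` with (6) for `h` and `h⁻¹`. -/
theorem le_GLZ_of_roots (hG : G.IsSymm) (hev : ∀ u, ∃ k : ℤ, bf G u u = 2 * k)
    {H : Subgroup (GL (Fin n) ℝ)} (hW : W G ≤ H) (hO : H ≤ OR (toR G)) {E : GL (Fin n) ℝ}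
    (hE : ∀ h ∈ H, E * h * E⁻¹ ∈ GLZ n) {r0 : Fin n → ℤ} (h0 : bf G r0 r0 = 2)
    (hgen : ∀ X : AddSubgroup (Fin n → ℤ), r0 ∈ X →
      (∀ r, bf G r r = 2 → bf G r r0 = 1 → r ∈ X) → ∀ x, x ∈ X)
    (hdual : ∀ x : Fin n → ℝ, (∀ v : Fin n → ℤ, ∃ k : ℤ, bl (toR G) x (rv v) = k) →
      (∃ k : ℤ, bl (toR G) x x = 2 * k) → ∃ u : Fin n → ℤ, x = rv u) : H ≤ GLZ n := by
  have step1 : ∀ r : Fin n → ℤ, bf G r r = 2 → ∀ x ∈ LatE E,
      bl (toR G) (rv r) x • rv r ∈ LatE E := fun r hr x hx => MXc_one hG hW hE hr hx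
  have hr0 : bl (toR G) (rv r0) (rv r0) = 2 := by
    rw [MXc_bl, h0]
    norm_num
  have hr0' : rv r0 ≠ 0 := by
    intro h
    rw [h] at hr0
    have h1 : bl (toR G) 0 0 = 0 := MP_dcc566_gt.bf_zero_left (toR G) 0
    rw [h1] at hr0
    norm_num at hr0
  obtain ⟨x0, hx0, hx0'⟩ := exists_lat_pair E (B := toR G) (v := rv r0) (by
    rw [hr0]
    norm_num)
  obtain ⟨c, hc, hcyc⟩ := line_cyclic E hr0' hx0' (step1 r0 h0 x0 hx0)
  have step3 : ∀ r : Fin n → ℤ, bf G r r = 2 → bf G r r0 = 1 → ∀ s : ℝ,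
      (s • rv r ∈ LatE E ↔ s • rv r0 ∈ LatE E) := by
    intro r hr hrr s
    have e1 : bl (toR G) (rv r) (rv r0) = 1 := by
      rw [MXc_bl, hrr]
      norm_num
    constructor
    · intro h
      have h1 := step1 r0 h0 _ h
      rwa [MXc_smul, MXc_comm hG, e1, mul_one] at h1
    · intro h
      have h1 := step1 r hr _ h
      rwa [MXc_smul, e1, mul_one] at h1
  have hcr0 : c • rv r0 ∈ LatE E := (hcyc c).2 ⟨1, by norm_num⟩
  -- the subgroup of the `u` with `c • rv u` in the lattice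
  have step4 : ∀ u : Fin n → ℤ, c • rv u ∈ LatE E := by
    intro u
    have h1 := hgen
      { carrier := {u | c • rv u ∈ LatE E}
        add_mem' := by
          intro a b ha hb
          have h2 : c • rv a + c • rv b ∈ LatE E := (LatE E).add_mem ha hb
          show c • rv (a + b) ∈ LatE E
          rwa [MP_dcc566_gt.rv_add, smul_add]
        zero_mem' := by
          show c • rv 0 ∈ LatE E
          rw [MP_dcc566_gt.rv_zero, smul_zero]
          exact (LatE E).zero_mem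
        neg_mem' := by
          intro a ha
          have h2 : -(c • rv a) ∈ LatE E := (LatE E).neg_mem ha
          show c • rv (-a) ∈ LatE E
          rwa [MP_dcc566_gt.rv_neg, smul_neg] } hcr0
      (fun r hr hrr => (step3 r hr hrr c).2 hcr0) u
    exact h1
  have step5 : ∀ u : Fin n → ℤ, ∀ x ∈ LatE E, ∃ k : ℤ, bl (toR G) (rv u) x = k * c := by
    intro u
    have h1 := hgen
      { carrier := {u | ∀ x ∈ LatE E, ∃ k : ℤ, bl (toR G) (rv u) x = k * c}
        add_mem' := by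
          intro a b ha hb x hx
          obtain ⟨k, hk⟩ := ha x hx
          obtain ⟨k', hk'⟩ := hb x hx
          refine ⟨k + k', ?_⟩
          rw [MP_dcc566_gt.rv_add, MXc_add, hk, hk']
          push_cast
          ring
        zero_mem' := by
          intro x _
          refine ⟨0, ?_⟩
          rw [MP_dcc566_gt.rv_zero]
          have h1 : bl (toR G) 0 x = 0 := MP_dcc566_gt.bf_zero_left (toR G) x
          rw [h1]
          norm_num
        neg_mem' := by
          intro a ha x hx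
          obtain ⟨k, hk⟩ := ha x hx
          refine ⟨-k, ?_⟩
          rw [MP_dcc566_gt.rv_neg, MXc_neg, hk]
          push_cast
          ring }
      (fun x hx => (hcyc _).1 (step1 r0 h0 x hx))
      (fun r hr hrr x hx => (hcyc _).1 ((step3 r hr hrr _).1 (step1 r hr x hx))) u
    exact h1
  have step6 : ∀ h ∈ H, ∀ u : Fin n → ℤ, ∃ w : Fin n → ℤ, h.val *ᵥ rv u = rv w := by
    intro h hh u
    have h1 : c • (h.val *ᵥ rv u) ∈ LatE E := by
      rw [← mulVec_smul]
      exact LatE_mem (hE h hh) (step4 u)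
    refine hdual _ (fun v => ?_) ?_
    · obtain ⟨k, hk⟩ := step5 v _ h1
      refine ⟨k, ?_⟩
      rw [MXc_smul, mul_comm c] at hk
      rw [MXc_comm hG]
      exact mul_right_cancel₀ hc.ne' hk
    · obtain ⟨k, hk⟩ := hev u
      refine ⟨k, ?_⟩
      have h2 : h.valᵀ * toR G * h.val = toR G := hO hh
      rw [← Pool.Agent.RFL.bl_congr, h2, MXc_bl, hk]
      push_cast
      ring
  intro h hh
  exact mem_GLZ_of_int (step6 h hh) (step6 h⁻¹ (H.inv_mem hh))

end Pool.Agent.RFN
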