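import Mathlib
import Pool.Agent.Lib.MP_dcc566_gt_R.FvD0

/-!
# Symmetries of the Gram matrix are realized by isometries
-/

set_option autoImplicit false

namespace Pool.Agent.RFN

open MP_dcc566_gt (bf)

variable {n M K : ℕ} {G : Matrix (Fin n) (Fin n) ℤ} {e : Fin M → Fin n → ℤ}
  {r : Fin K → Fin n → ℤ}

private theorem FvD1_sum_left (a : Fin M → ℤ) (v : Fin M → Fin n → ℤ) (y : Fin n → ℤ)
    (s : Finset (Fin M)) : bf G (∑ j ∈ s, a j • v j) y = ∑ j ∈ s, a j * bf G (v j) y := by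
  classical
  induction s using Finset.induction_on with
  | empty => rw [Finset.sum_empty, Finset.sum_empty, MP_dcc566_gt.bf_zero_left]
  | insert j s hj ih =>
    rw [Finset.sum_insert hj, Finset.sum_insert hj, MP_dcc566_gt.bf_add_left,
      MP_dcc566_gt.bf_smul_left, ih]

private theorem FvD1_sum_right (a : Fin M → ℤ) (v : Fin M → Fin n → ℤ) (y : Fin n → ℤ)
    (s : Finset (Fin M)) : bf G y (∑ j ∈ s, a j • v j) = ∑ j ∈ s, a j * bf G y (v j) := by
  classical
  induction s using Finset.induction_on with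
  | empty => rw [Finset.sum_empty, Finset.sum_empty, MP_dcc566_gt.bf_zero_right]
  | insert j s hj ih =>
    rw [Finset.sum_insert hj, Finset.sum_insert hj, MP_dcc566_gt.bf_add_right,
      MP_dcc566_gt.bf_smul_right, ih]

/-- PROOF.  If `σ i = σ j`, `i ≠ j`: `0 < bf (e (σ i)) (e (σ i)) = bf (e (σ i)) (e (σ j)) = bf (e i) (e j) ≤ 0`, contradiction.  Injective maps of a finite
type are bijective (`Finite.injective_iff_bijective`). -/
theorem GP.bij (h : Chb G e r) {σ : Fin M → Fin M} (hσ : GP G e σ) : Function.Bijective σ := by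
  refine Finite.injective_iff_bijective.1 fun i j hij => ?_
  by_contra hne
  have h1 := hσ i j
  rw [hij] at h1
  have h2 := h.norm (σ j)
  have h3 := h.obt i j hne
  linarith

/-- PROOF.  The inverse of the bijection `σ` (`Equiv.ofBijective`). -/
theorem GP.inv (h : Chb G e r) {σ : Fin M → Fin M} (hσ : GP G e σ) :
    ∃ τ : Fin M → Fin M, GP G e τ ∧ (∀ i, σ (τ i) = i) ∧ ∀ i, τ (σ i) = i := by
  obtain ⟨E, hE⟩ : ∃ E : Fin M ≃ Fin M, E = Equiv.ofBijective σ (GP.bij h hσ) := ⟨_, rfl⟩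
  have h1 : ∀ i, σ (E.symm i) = i := by
    intro i
    have := E.apply_symm_apply i
    rwa [hE] at this ⊢
  have h2 : ∀ i, E.symm (σ i) = i := by
    intro i
    have := E.symm_apply_apply i
    rwa [hE] at this ⊢
  refine ⟨E.symm, fun i j => ?_, h1, h2⟩
  rw [← hσ, h1, h1]

/-- The vectors `e i` separate points.

PROOF.  `bf G (e i) u = 0` for all `i` gives `bf G x u = 0` for all integral `x` (`span`, linearity), so `G *ᵥ u = 0` (`x` = standard basis vectors,
`bf_single_left`), so `u = 0` (`det`, `Matrix.eq_zero_of_mulVec_eq_zero`). -/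
theorem sep_e (h : Chb G e r) {u : Fin n → ℤ} (hu : ∀ i, bf G (e i) u = 0) : u = 0 := by
  have h1 : ∀ x : Fin n → ℤ, bf G x u = 0 := by
    intro x
    obtain ⟨a, ha⟩ := h.span x
    rw [ha, FvD1_sum_left]
    exact Finset.sum_eq_zero fun j _ => by rw [hu, mul_zero]
  refine Matrix.eq_zero_of_mulVec_eq_zero h.det ?_
  funext i
  rw [← MP_dcc566_gt.bf_single_left, h1]
  rfl

/-- PROOF.  `u = ∑ a j • e j` (`span`).  Let `τ` be the inverse of `σ` (`GP.inv`).  `u' = ∑ a j • e (τ j)`.  `bf (e i) u' = ∑ a j bf (e i) (e (τ j)) =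
∑ a j bf (e (σ i)) (e (σ (τ j))) = ∑ a j bf (e (σ i)) (e j) = bf (e (σ i)) u`.  `bf u' u' = ∑∑ a i a j bf (e (τ i)) (e (τ j)) = ∑∑ a i a j bf (e i) (e j)
= bf u u`. -/
theorem GP.move (h : Chb G e r) {σ : Fin M → Fin M} (hσ : GP G e σ) (u : Fin n → ℤ) :
    ∃ u' : Fin n → ℤ, (∀ i, bf G (e i) u' = bf G (e (σ i)) u) ∧ bf G u' u' = bf G u u := by
  obtain ⟨τ, hτ, h1, _⟩ := GP.inv h hσ
  obtain ⟨a, ha⟩ := h.span u
  refine ⟨∑ j, a j • e (τ j), fun i => ?_, ?_⟩
  · rw [ha, FvD1_sum_right, FvD1_sum_right]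
    refine Finset.sum_congr rfl fun j _ => ?_
    rw [← hσ i (τ j), h1]
  · rw [ha, FvD1_sum_left, FvD1_sum_left]
    refine Finset.sum_congr rfl fun i _ => ?_
    rw [FvD1_sum_right, FvD1_sum_right]
    congr 1
    refine Finset.sum_congr rfl fun j _ => ?_
    rw [hτ]

end Pool.Agent.RFN
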