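import Mathlib
import Pool.Agent.Lib.MP_dcc566_gt_R.FvD1

/-!
# The set of rays is finite
-/

set_option autoImplicit false

namespace Pool.Agent.RFN

open Module
open MP_dcc566_gt (bf)

variable {n M K : ℕ} {G : Matrix (Fin n) (Fin n) ℤ} {e : Fin M → Fin n → ℤ}
  {r : Fin K → Fin n → ℤ}

/-- PROOF.  An element `cz u` of `Rays` is determined by `k` and `σ` (`sep_e` for the difference of two integral vectors with the same
products), and there are finitely many pairs `(k, σ)`: `Rays` is contained in the range of a function on the finite type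
`Fin K × (Fin M → Fin M)` (choose a ray for each pair). -/
theorem rays_finite (h : Chb G e r) : (Rays G e r).Finite := by
  classical
  have hch : ∀ p : Fin K × (Fin M → Fin M), ∃ u : Fin n → ℤ,
      (∃ v : Fin n → ℤ, ∀ i, bf G (e i) v = bf G (e (p.2 i)) (r p.1)) →
        ∀ i, bf G (e i) u = bf G (e (p.2 i)) (r p.1) := by
    intro p
    by_cases hp : ∃ v : Fin n → ℤ, ∀ i, bf G (e i) v = bf G (e (p.2 i)) (r p.1)
    · obtain ⟨v, hv⟩ := hp
      exact ⟨v, fun _ => hv⟩
    · exact ⟨0, fun hp' => absurd hp' hp⟩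
  choose f hf using hch
  refine (Set.finite_range fun p => cz (f p)).subset ?_
  rintro x ⟨u, rfl, k, σ, -, hu⟩
  refine ⟨(k, σ), ?_⟩
  have h1 := hf (k, σ) ⟨u, hu⟩
  have h2 : f (k, σ) - u = 0 := by
    refine sep_e h fun i => ?_
    rw [MP_dcc566_gt.bf_sub_right, h1 i, hu i, sub_self]
  show cz (f (k, σ)) = cz u
  rw [sub_eq_zero.1 h2]

end Pool.Agent.RFN
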