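import Mathlib
import Pool.Agent.Lib.MP_dcc566_gt_R.FvD1

/-!
# Properties of the rays
-/

set_option autoImplicit false

namespace Pool.Agent.RFN

open Module
open MP_dcc566_gt (bf)

variable {n M K : ℕ} {G : Matrix (Fin n) (Fin n) ℤ} {e : Fin M → Fin n → ℤ}
  {r : Fin K → Fin n → ℤ}

private theorem FvD2b_sum {N : ℕ} (G : Matrix (Fin n) (Fin n) ℤ) (u : Fin n → ℤ)
    (c : Fin N → ℤ) (f : Fin N → Fin n → ℤ) :
    bf G u (∑ j, c j • f j) = ∑ j, c j * bf G u (f j) := by
  have h : ∀ s : Finset (Fin N), bf G u (∑ j ∈ s, c j • f j) = ∑ j ∈ s, c j * bf G u (f j) := by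
    intro s
    induction s using Finset.induction_on with
    | empty => simp [MP_dcc566_gt.bf_zero_right]
    | insert a s ha ih =>
      rw [Finset.sum_insert ha, Finset.sum_insert ha, MP_dcc566_gt.bf_add_right, ih,
        MP_dcc566_gt.bf_smul_right]
  exact h Finset.univ

/-- PROOF.  `x = cz u`, `bf (e i) u = bf (e (σ i)) (r k)`.  By `GP.move` (for `r k`) there is `u'`
with the same products as `u`, so `u = u'` (`sep_e` for `u - u'`), and
`bf u u = bf (r k) (r k) ≤ 0`.  `u ≠ 0`: otherwise all `bf (e (σ i)) (r k) = 0`, `σ` is surjective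
(`GP.bij`), so `r k = 0` (`sep_e`).
`bf u q < 0`: `q` satisfies `q = -∑ c j • e j` with `c j > 0` (`hq`), so
`bf u q = -∑ c j bf (e j) u`, all terms are `≥ 0` and not all zero (`u ≠ 0`, `sep_e`). -/
theorem rays_props (h : Chb G e r) {q : Fin n → ℤ} {c : Fin M → ℤ} (hc : ∀ j, 0 < c j)
    (hq : q = -∑ j, c j • e j) {x : Fin n → ℚ} (hx : x ∈ Rays G e r) :
    ∃ u : Fin n → ℤ, x = cz u ∧ u ≠ 0 ∧ bf G u u ≤ 0 ∧ bf G u q < 0 := by
  obtain ⟨u, hxu, k, σ, hσ, hu⟩ := hx
  obtain ⟨u', hu1, hu2⟩ := GP.move h hσ (r k)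
  have huu : u = u' := by
    have h1 : u - u' = 0 := by
      apply sep_e h
      intro i
      rw [MP_dcc566_gt.bf_sub_right, hu i, hu1 i, sub_self]
    exact sub_eq_zero.1 h1
  have hne : u ≠ 0 := by
    intro h0
    apply h.nz k
    apply sep_e h
    intro i
    obtain ⟨j, rfl⟩ := (GP.bij h hσ).2 i
    rw [← hu j, h0, MP_dcc566_gt.bf_zero_right]
  have hpos : ∀ i, 0 ≤ bf G (e i) u := by
    intro i
    rw [hu i]
    exact h.pos k (σ i)
  refine ⟨u, hxu, hne, ?_, ?_⟩
  · rw [huu, hu2]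
    exact h.tl k
  · rw [hq, MP_dcc566_gt.bf_neg_right, FvD2b_sum]
    have hnn : ∀ j ∈ Finset.univ, 0 ≤ c j * bf G u (e j) := by
      intro j _
      rw [MP_dcc566_gt.bf_comm G h.symm]
      exact mul_nonneg (hc j).le (hpos j)
    have hp : 0 < ∑ j, c j * bf G u (e j) := by
      refine lt_of_le_of_ne (Finset.sum_nonneg hnn) (fun h0 => hne ?_)
      have h1 := (Finset.sum_eq_zero_iff_of_nonneg hnn).1 h0.symm
      apply sep_e h
      intro i
      have h2 := h1 i (Finset.mem_univ i)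
      rcases mul_eq_zero.1 h2 with h3 | h3
      · exact absurd h3 (hc i).ne'
      · rw [MP_dcc566_gt.bf_comm G h.symm]
        exact h3
    linarith

end Pool.Agent.RFN
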