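import Mathlib
import Pool.Agent.Lib.MP_dcc566_gt_R.FvD1

/-!
# The local structure at all rays
-/

set_option autoImplicit false

namespace Pool.Agent.RFN

open Module
open MP_dcc566_gt (bf)

variable {n M K : ℕ} {G : Matrix (Fin n) (Fin n) ℤ} {e : Fin M → Fin n → ℤ}
  {r : Fin K → Fin n → ℤ}

private theorem FvD2c_sum (s : Finset (Fin M)) (a : Fin M → ℤ) (w : Fin n → ℤ) :
    bf G (∑ i ∈ s, a i • e i) w = ∑ i ∈ s, a i * bf G (e i) w := by
  induction s using Finset.cons_induction with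
  | empty => rw [Finset.sum_empty, Finset.sum_empty, MP_dcc566_gt.bf_zero_left]
  | cons i s hi ih =>
    rw [Finset.sum_cons, Finset.sum_cons, MP_dcc566_gt.bf_add_left, MP_dcc566_gt.bf_smul_left, ih]

/-- The local structure at all rays.

PROOF.  `x = cz u`, `bf (e i) u = bf (e (σ i)) (r k)` for all `i`, `σ` preserves the Gram matrix; `hl` gives `c, C, m` for `k`.  Take `c`, `C' i = C (σ i)`,
`m' i = m (σ i)`.  `C_zero`: `p i x = mF G (cz (e i)) (cz u) = bf (e i) u` (`mF_cz`).  `surj`, `card`: `σ` is a bijection (`GP.bij`; `finrank ℚ (Fin n → ℚ) = n`).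
`rel`: let `τ` be the inverse of `σ`; both sides are `ℚ`-linear in the vector `y`, so it is enough to treat `y = cz w`, `w` integral (every rational
vector has an integral multiple, `exists_cz`); `∑_{C (σ i) = j} m (σ i) bf (e i) w = ∑_{C i' = j} m i' bf (e (τ i')) w` and by `GP.move` for `τ`:
`bf (e (τ i')) w = bf (e i') w'`, so the sum is `bf (∑_{C i' = j} m i' e i') w'`, independent of `j` by `rel`.
`edge`: let `t` be a choice for `C'`; `σ ∘ t` is a choice for `C`: `k'`, `σ'` from `edge`.  By `GP.move` for `σ'` and then for `σ` there is an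
integral `w` with `bf (e i) w = bf (e (σ' (σ i))) (r k')`: `cz w ∈ Rays` (`GP.comp`), and it has the required zeros and positive values. -/
theorem rays_local (h : Chb G e r) (hl : ∀ k, ∃ c C m, LocR G e r k c C m) {x : Fin n → ℚ}
    (hx : x ∈ Rays G e r) :
    ∃ k C m, LocalOK (fun i => (mF G (cz (e i)) : (Fin n → ℚ) →ₗ[ℚ] ℚ)) (Rays G e r) x k C m := by
  obtain ⟨u, rfl, k, σ, hσ, hu⟩ := hx
  obtain ⟨c, C, m, L⟩ := hl k
  have hbij := GP.bij h hσ
  obtain ⟨τ, hτ, hτ1, hτ2⟩ := GP.inv h hσ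
  refine ⟨c, fun i => C (σ i), fun i => m (σ i), ?_⟩
  have hint : ∀ (j : ℕ) (w : Fin n → ℤ), ∃ w' : Fin n → ℤ, (∀ i, bf G (e i) w = bf G (e (σ i)) w')
      ∧ (∑ i ∈ Finset.univ.filter (fun i => C (σ i) = j),
        (m (σ i) : ℚ) * mF G (cz (e i)) (cz w)) =
        ((bf G (∑ i ∈ Finset.univ.filter (fun i => C i = j), (m i : ℤ) • e i) w' : ℤ) : ℚ) := by
    intro j w
    obtain ⟨w', hw', -⟩ := GP.move h hτ w
    have h1 : ∀ i, bf G (e i) w = bf G (e (σ i)) w' := fun i => by rw [hw', hτ2]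
    refine ⟨w', h1, ?_⟩
    rw [FvD2c_sum, Finset.sum_filter, Finset.sum_filter]
    push_cast
    refine Fintype.sum_bijective σ hbij _ _ fun i => ?_
    rw [mF_cz, h1]
  refine ⟨L.k_pos, fun i => L.C_le (σ i), fun i => ?_, fun j h1 h2 => ?_, ?_, ?_, ?_, ?_⟩
  · show C (σ i) = 0 ↔ mF G (cz (e i)) (cz u) ≠ 0
    rw [mF_cz, Int.cast_ne_zero, hu]
    exact L.C_zero (σ i)
  · obtain ⟨i, hi⟩ := L.surj j h1 h2
    refine ⟨τ i, ?_⟩
    show C (σ (τ i)) = j
    rw [hτ1]
    exact hi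
  · have h1 : (Finset.univ.filter (fun i => C (σ i) ≠ 0)).card =
        (Finset.univ.filter (fun i => C i ≠ 0)).card :=
      Finset.card_bijective σ hbij fun i => by simp
    rw [Module.finrank_fin_fun]
    show (Finset.univ.filter (fun i => C (σ i) ≠ 0)).card + 2 = n + c
    rw [h1]
    exact L.card
  · exact fun i hi => L.m_pos (σ i) hi
  · intro j h1 h2 y
    obtain ⟨N, w, hN, hw⟩ := exists_cz y
    have hN' : (N : ℚ) ≠ 0 := by exact_mod_cast hN.ne'
    have key : ∀ j' : ℕ, (N : ℚ) * ∑ i ∈ Finset.univ.filter (fun i => C (σ i) = j'),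
        (m (σ i) : ℚ) * mF G (cz (e i)) y =
        ∑ i ∈ Finset.univ.filter (fun i => C (σ i) = j'),
          (m (σ i) : ℚ) * mF G (cz (e i)) (cz w) := by
      intro j'
      rw [Finset.mul_sum]
      refine Finset.sum_congr rfl fun i _ => ?_
      rw [← hw, map_smul, smul_eq_mul]
      ring
    have e1 : ∑ i ∈ Finset.univ.filter (fun i => C (σ i) = j),
          (m (σ i) : ℚ) * mF G (cz (e i)) (cz w) =
        ∑ i ∈ Finset.univ.filter (fun i => C (σ i) = 1),
          (m (σ i) : ℚ) * mF G (cz (e i)) (cz w) := by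
      obtain ⟨w', hw1, hw2⟩ := hint j w
      obtain ⟨w'', hw3, hw4⟩ := hint 1 w
      rw [hw2, hw4, ← L.rel j h1 h2]
      have hww : w'' = w' := by
        have h5 : w'' - w' = 0 := by
          refine sep_e h fun i => ?_
          have h6 := hw1 (τ i)
          have h7 := hw3 (τ i)
          rw [hτ1] at h6 h7
          rw [MP_dcc566_gt.bf_sub_right, ← h6, ← h7, sub_self]
        exact sub_eq_zero.1 h5
      rw [hww]
    refine mul_left_cancel₀ hN' ?_
    show (N : ℚ) * ∑ i ∈ Finset.univ.filter (fun i => C (σ i) = j),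
        (m (σ i) : ℚ) * mF G (cz (e i)) y = (N : ℚ) *
      ∑ i ∈ Finset.univ.filter (fun i => C (σ i) = 1), (m (σ i) : ℚ) * mF G (cz (e i)) y
    rw [key, key, e1]
  · intro t ht
    obtain ⟨k', σ', hσ', h0, hpos⟩ := L.edge (fun j => σ (t j)) ht
    obtain ⟨w, hw, -⟩ := GP.move h (hσ'.comp hσ) (r k')
    have hw' : ∀ i, bf G (e i) w = bf G (e (σ' (σ i))) (r k') := hw
    refine ⟨cz w, ⟨w, rfl, k', σ' ∘ σ, hσ'.comp hσ, hw⟩, fun i hi hit => ?_, fun j h1 h2 => ?_⟩
    · show mF G (cz (e i)) (cz w) = 0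
      rw [mF_cz, hw', h0 (σ i) hi fun j h1 h2 h3 => hit j h1 h2 (hbij.injective h3)]
      rfl
    · show 0 < mF G (cz (e (t j))) (cz w)
      rw [mF_cz, hw']
      exact_mod_cast hpos j h1 h2

end Pool.Agent.RFN
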