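import Mathlib
import Pool.Agent.Lib.MP_dcc566_gt_R.FvD2a
import Pool.Agent.Lib.MP_dcc566_gt_R.FvD2b
import Pool.Agent.Lib.MP_dcc566_gt_R.FvD2c

/-!
# The set of rays
-/
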