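import Mathlib
import Pool.Agent.Lib.MP_dcc566_gt_R.FvD2

/-!
# Finite index from the representatives of the rays
-/

set_option autoImplicit false

namespace Pool.Agent.RFN

open Module
open Pool.Agent.RFL (W OZ)
open MP_dcc566_gt (bf rv Lor)

variable {n M K : ℕ} {G : Matrix (Fin n) (Fin n) ℤ} {e : Fin M → Fin n → ℤ}
  {r : Fin K → Fin n → ℤ}

/-- PROOF.  `index_of_chamber` with `he`, `hqe`, and `m` from `bounded_of_cone` for `S = Rays G e r`: `rays_finite`, `rays_props`; `hcone` is `global_cone`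
with `p i = mF G (cz (e i))`: `rays_finite`; nonempty: `cz (r k)` for `k : Fin K` (`hK`), `σ = id`; `hS`: `rays_props` (`cz u ≠ 0`, `cz_eq_zero`), and
`mF G (cz (e i)) (cz u) = bf (e i) u = bf (e (σ i)) (r k) ≥ 0` (`mF_cz`, `Chb.pos`); `hsep`: multiply by an integer (`exists_cz`) and `sep_e`;
`rays_local`. -/
theorem index_of_rays (h : Chb G e r) (hK : 0 < K) (hl : ∀ k, ∃ c C m, LocR G e r k c C m)
    {q : Fin n → ℤ} (hL : Lor G (rv q)) (he : ∀ i, Rt G (e i)) (hqe : ∀ i, 0 < bf G (e i) q)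
    {c : Fin M → ℤ} (hc : ∀ j, 0 < c j) (hq : q = -∑ j, c j • e j) :
    (W G).relIndex (OZ G) ≠ 0 := by
  have hfin : (Rays G e r).Finite := rays_finite h
  have hne : (Rays G e r).Nonempty :=
    ⟨cz (r ⟨0, hK⟩), r ⟨0, hK⟩, rfl, ⟨0, hK⟩, id, GP_id, fun _ => rfl⟩
  have hS : ∀ s ∈ Rays G e r, s ≠ 0 ∧
      ∀ i, 0 ≤ (fun i => (mF G (cz (e i)) : (Fin n → ℚ) →ₗ[ℚ] ℚ)) i s := by
    intro s hs
    refine ⟨?_, fun i => ?_⟩
    · obtain ⟨u, rfl, hu, _, _⟩ := rays_props h hc hq hs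
      exact fun h0 => hu (cz_eq_zero.1 h0)
    · obtain ⟨u, rfl, k, σ, _, hu⟩ := hs
      show 0 ≤ mF G (cz (e i)) (cz u)
      rw [mF_cz, hu i]
      exact_mod_cast h.pos k (σ i)
  have hsep : ∀ x : Fin n → ℚ,
      (∀ i, (fun i => (mF G (cz (e i)) : (Fin n → ℚ) →ₗ[ℚ] ℚ)) i x = 0) → x = 0 := by
    intro x hx
    obtain ⟨N, u, hN, hNu⟩ := exists_cz x
    have hu : u = 0 := by
      refine sep_e h fun i => ?_
      have h1 : mF G (cz (e i)) (cz u) = 0 := by
        rw [← hNu, map_smul]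
        have h2 : mF G (cz (e i)) x = 0 := hx i
        rw [h2, smul_zero]
      rw [mF_cz] at h1
      exact_mod_cast h1
    rw [hu, cz_zero] at hNu
    have hN' : (N : ℚ) ≠ 0 := by exact_mod_cast hN.ne'
    exact (smul_eq_zero.1 hNu).resolve_left hN'
  obtain ⟨m, hm⟩ := bounded_of_cone (e := e) hL hfin (fun s hs => rays_props h hc hq hs)
    (fun φ hφ x hx => global_cone (p := fun i => (mF G (cz (e i)) : (Fin n → ℚ) →ₗ[ℚ] ℚ))
      hfin hne hS hsep (fun s hs => rays_local h hl hs) hφ hx)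
  exact index_of_chamber hL he hqe hm

end Pool.Agent.RFN
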