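import Mathlib
import Pool.Agent.Lib.MP_dcc566_gt_R.Bas
import Pool.Agent.Lib.MP_dcc566_gt_P1.Lor
import Pool.Agent.Lib.MP_dcc566_gt.LorA

/-!
# Lorentzian forms are equivalent to the standard form
-/

set_option autoImplicit false

namespace Pool.Agent.RFN

open Matrix Module
open Pool.Agent.RFL (J toR)
open MP_dcc566_gt (rv rB Lor)

/-- Sylvester.

PROOF.  `B = rB G` is a symmetric bilinear form on `ℝ^{m+1}`.
`LinearMap.BilinForm.exists_orthogonal_basis` gives a basis `v` with `B (v i) (v j) = 0` for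
`i ≠ j`.
`B (v i) (v i) ≠ 0`: otherwise `v i` is orthogonal to everything, but `G.det ≠ 0`.  If
`B (v i) (v i) < 0` and `B (v j) (v j) < 0`, `i ≠ j`: some nonzero
combination `w = s v i + t v j` has `B w p = 0`, so `B w w > 0` (`Lor.pos`), but
`B w w = s² B (v i) (v i) + t² B (v j) (v j) < 0`: contradiction.  If all
`B (v i) (v i) > 0` then `B p p ≥ 0`, against `Lor.neg`.  So exactly one index `i₀` has a negative
norm; reindex (`Equiv.swap i₀ (Fin.last m)`) so that it is the
last one, and divide by `√|B (v i) (v i)|`: a basis `b` with `B (b i) (b j) = J m i j`.  The matrix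
`T` with columns `b j` satisfies
`Tᵀ * toR G * T = J m` (`rB_apply`); `C = T⁻¹`. -/
theorem exists_C_of_lor {m : ℕ} {G : Matrix (Fin (m + 1)) (Fin (m + 1)) ℤ} {p : Fin (m + 1) → ℝ}
    (h : Lor G p) : ∃ C : GL (Fin (m + 1)) ℝ, C.valᵀ * J m * C.val = toR G := by
  have hL := h.alor
  have hsym : ∀ x y, rB G x y = rB G y x := MP_dcc566_gt.rB_symm h.symm
  let _ : Invertible (2 : ℝ) := invertibleOfNonzero two_ne_zero
  obtain ⟨v0, hv0⟩ := LinearMap.BilinForm.exists_orthogonal_basis (K := ℝ)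
    (V := Fin (m + 1) → ℝ) (B := rB G) ⟨fun x y => hsym x y⟩
  have hfr : finrank ℝ (Fin (m + 1) → ℝ) = m + 1 := Module.finrank_fin_fun ℝ
  obtain ⟨v, hv⟩ : ∃ v : Basis (Fin (m + 1)) ℝ (Fin (m + 1) → ℝ),
      ∀ i j, i ≠ j → rB G (v i) (v j) = 0 := by
    refine ⟨v0.reindex (finCongr hfr), fun i j hij => ?_⟩
    rw [Basis.reindex_apply, Basis.reindex_apply]
    exact hv0 (fun e => hij ((finCongr hfr).symm.injective e))
  -- expansion
  have hexp : ∀ x y, rB G x y = ∑ i, v.repr x i * v.repr y i * rB G (v i) (v i) := by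
    intro x y
    conv_lhs => rw [← v.sum_repr x, ← v.sum_repr y]
    simp only [map_sum, map_smul, LinearMap.sum_apply, LinearMap.smul_apply, smul_eq_mul]
    refine Finset.sum_congr rfl fun i _ => ?_
    rw [Finset.sum_eq_single i]
    · ring
    · intro j _ hj
      rw [hv j i hj, mul_zero]
    · intro hi
      exact absurd (Finset.mem_univ i) hi
  have hne : ∀ i, rB G (v i) (v i) ≠ 0 := by
    intro i hi
    have h1 : rB G (v i) p = 0 := by
      rw [hexp]
      refine Finset.sum_eq_zero fun j _ => ?_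
      rcases eq_or_ne j i with hj | hj
      · rw [hj, hi, mul_zero]
      · rw [v.repr_self, Finsupp.single_eq_of_ne hj, zero_mul, zero_mul]
    exact absurd hi (h.pos _ h1 (v.ne_zero i)).ne'
  obtain ⟨i0, hi0⟩ : ∃ i0, rB G (v i0) (v i0) < 0 := by
    by_contra hcon
    push Not at hcon
    have h1 : 0 ≤ rB G p p := by
      rw [hexp]
      exact Finset.sum_nonneg fun i _ => mul_nonneg (mul_self_nonneg _) (hcon i)
    linarith [h.neg]
  have hpos : ∀ i, i ≠ i0 → 0 < rB G (v i) (v i) := by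
    intro i hi
    rcases lt_or_gt_of_ne (hne i) with h1 | h1
    · exact absurd (hv i i0 hi) (hL.time_ne h1 hi0)
    · exact h1
  -- the basis with the negative vector at the end
  set σ : Equiv.Perm (Fin (m + 1)) := Equiv.swap i0 (Fin.last m) with hσ
  have hσ1 : ∀ j, σ j = i0 ↔ j = Fin.last m := by
    intro j
    rw [hσ]
    constructor
    · intro e
      exact (Equiv.swap i0 (Fin.last m)).injective
        (e.trans (Equiv.swap_apply_right i0 (Fin.last m)).symm)
    · rintro rfl
      exact Equiv.swap_apply_right _ _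
  set c : Fin (m + 1) → ℝ := fun j => Real.sqrt |rB G (v (σ j)) (v (σ j))| with hc
  have hc0 : ∀ j, 0 < c j := fun j => Real.sqrt_pos.2 (abs_pos.2 (hne _))
  have hcc : ∀ j, c j * c j = |rB G (v (σ j)) (v (σ j))| := fun j =>
    Real.mul_self_sqrt (abs_nonneg _)
  set b : Fin (m + 1) → Fin (m + 1) → ℝ := fun j => (c j)⁻¹ • v (σ j) with hb
  have hbb : ∀ i j, rB G (b i) (b j) = J m i j := by
    intro i j
    have h1 : rB G (b i) (b j) = (c i)⁻¹ * ((c j)⁻¹ * rB G (v (σ i)) (v (σ j))) := by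
      simp only [hb, map_smul, LinearMap.smul_apply, smul_eq_mul]
      ring
    rw [h1, RFL.J]
    rcases eq_or_ne i j with hij | hij
    · subst hij
      rw [Matrix.diagonal_apply_eq]
      have h2 : (c i)⁻¹ * ((c i)⁻¹ * rB G (v (σ i)) (v (σ i))) =
          rB G (v (σ i)) (v (σ i)) / |rB G (v (σ i)) (v (σ i))| := by
        rw [← hcc i]
        have := (hc0 i).ne'
        field_simp
      rw [h2]
      by_cases hl : i = Fin.last m
      · rw [if_pos hl]
        have h3 : rB G (v (σ i)) (v (σ i)) < 0 := by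
          rw [(hσ1 i).2 hl]
          exact hi0
        rw [abs_of_neg h3, div_neg, div_self h3.ne]
      · rw [if_neg hl]
        have h3 := hpos (σ i) (fun e => hl ((hσ1 i).1 e))
        rw [abs_of_pos h3, div_self h3.ne']
    · rw [Matrix.diagonal_apply_ne _ hij, hv _ _ (fun e => hij (σ.injective e)), mul_zero,
        mul_zero]
  set T : Matrix (Fin (m + 1)) (Fin (m + 1)) ℝ := Matrix.of fun i j => b j i with hT
  have hTT : Tᵀ * toR G * T = J m := by
    ext i j
    rw [← hbb i j, MP_dcc566_gt.rB_apply, Matrix.mul_apply]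
    simp only [Matrix.mul_apply, Matrix.transpose_apply, hT, Matrix.of_apply, Finset.sum_mul]
    rw [Finset.sum_comm]
    rfl
  have hJdet : (J m).det ≠ 0 := by
    rw [RFL.J, Matrix.det_diagonal]
    refine Finset.prod_ne_zero_iff.2 fun i _ => ?_
    split_ifs <;> norm_num
  have hTdet : T.det ≠ 0 := by
    intro e
    rw [← hTT, Matrix.det_mul, e, mul_zero] at hJdet
    exact hJdet rfl
  have hTu : IsUnit T.det := isUnit_iff_ne_zero.2 hTdet
  refine ⟨(Matrix.GeneralLinearGroup.mkOfDetNeZero T hTdet)⁻¹, ?_⟩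
  have hCv : ((Matrix.GeneralLinearGroup.mkOfDetNeZero T hTdet)⁻¹ :
      GL (Fin (m + 1)) ℝ).val = T⁻¹ := by
    rw [Matrix.coe_units_inv]
    rfl
  rw [hCv, ← hTT]
  calc (T⁻¹)ᵀ * (Tᵀ * toR G * T) * T⁻¹ = ((T⁻¹)ᵀ * Tᵀ) * toR G * (T * T⁻¹) := by
        simp only [Matrix.mul_assoc]
    _ = (T * T⁻¹)ᵀ * toR G * (T * T⁻¹) := by rw [Matrix.transpose_mul]
    _ = toR G := by
      rw [Matrix.mul_nonsing_inv _ hTu, Matrix.transpose_one, Matrix.one_mul, Matrix.mul_one]

end Pool.Agent.RFN
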