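import Mathlib
import Pool.Agent.Lib.MP_dcc566_gt_R.DtA

/-!
# Certificate check, lattice A, roots and symmetries
-/

set_option autoImplicit false

namespace Pool.Agent.RFN

theorem rootsOK_A : rootsOK gmA roA lfA grA 36 = true := by
  decide +kernel

theorem rowOK_A : rowOK lfA grA 36 36 = true := by
  decide +kernel

theorem combOK_A : combOK roA 36 0 cbA = true := by
  decide +kernel

theorem genOK_A : geA.all (genOK grA 36) = true := by
  decide +kernel

theorem permOK_A : permOK geA plA 36 1 pdA = true := by
  decide +kernel

theorem idOK_A : idOK plA 36 = true := by
  decide +kernel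

end Pool.Agent.RFN
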