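import Mathlib
import Pool.Agent.Lib.MP_dcc566_gt_R.DtB

/-!
# Certificate check, lattice B, roots and symmetries
-/

set_option autoImplicit false

namespace Pool.Agent.RFN

theorem rootsOK_B : rootsOK gmB roB lfB grB 50 = true := by
  decide +kernel

theorem rowOK_B : rowOK lfB grB 50 50 = true := by
  decide +kernel

theorem combOK_B : combOK roB 50 0 cbB = true := by
  decide +kernel

theorem genOK_B : geB.all (genOK grB 50) = true := by
  decide +kernel

theorem permOK_B : permOK geB plB 50 1 pdB = true := by
  decide +kernel

theorem idOK_B : idOK plB 50 = true := by
  decide +kernel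

end Pool.Agent.RFN
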