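import Mathlib
import Pool.Agent.Lib.MP_dcc566_gt_R.DtA
import Pool.Agent.Lib.MP_dcc566_gt_R.RpA1

/-!
# Certificate check, lattice A, representatives 30 ...
-/

set_option autoImplicit false

namespace Pool.Agent.RFN

theorem ckA1 : repsOK gmA roA lfA 147 72 36 mlA plA 30 rpA1 = true := by
  decide +kernel

end Pool.Agent.RFN
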