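import Mathlib
import Pool.Agent.Lib.MP_dcc566_gt_R.DtB
import Pool.Agent.Lib.MP_dcc566_gt_R.RpB0

/-!
# Certificate check, lattice B, representatives 0 ...
-/

set_option autoImplicit false

namespace Pool.Agent.RFN

theorem ckB0 : repsOK gmB roB lfB 280 120 50 mlB plB 0 rpB0 = true := by
  decide +kernel

end Pool.Agent.RFN
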