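import Mathlib
import Pool.Agent.Lib.MP_dcc566_gt_R.FvE0

/-!
# Lists and vectors
-/

set_option autoImplicit false

namespace Pool.Agent.RFN

open MP_dcc566_gt (bf)

/-- A list as an integral vector. -/
def fv (x : List ℤ) : Fin 20 → ℤ := fun c => x.getD c 0

/-- A list of rows as a matrix. -/
def GM (gm : List (List ℤ)) : Matrix (Fin 20) (Fin 20) ℤ :=
  Matrix.of fun i j => (gm.getD i []).getD j 0

/-- The roots. -/
def eL (roots : List (List ℤ)) (M : ℕ) : Fin M → Fin 20 → ℤ := fun i => fv (roots.getD i [])

/-- The representatives. -/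
def rL (reps : List VRep) (K : ℕ) : Fin K → Fin 20 → ℤ :=
  fun k => fv (reps.getD k ⟨[], [], 0⟩).v

/-- PROOF.  Induction on `n` generalizing the lists (`Fin.sum_univ_succ`, `List.getD_cons_zero`, `List.getD_cons_succ`). -/
theorem dotL_eq : ∀ (n : ℕ) (x y : List ℤ), x.length = n → y.length = n →
    dotL x y = ∑ i : Fin n, x.getD i 0 * y.getD i 0 := by
  intro n
  induction n with
  | zero =>
    intro x y hx hy
    rw [List.length_eq_zero_iff] at hx hy
    rw [hx, hy]
    simp [dotL]
  | succ n ih =>
    intro x y hx hy
    cases x with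
    | nil => simp at hx
    | cons a x =>
      cases y with
      | nil => simp at hy
      | cons b y =>
        rw [Fin.sum_univ_succ]
        have h1 := ih x y (by simpa using hx) (by simpa using hy)
        rw [dotL, h1]
        rfl

private theorem FvE1_getD_len {α : Type} {l : List (List α)} (h' : ∀ x ∈ l, x.length = 20) {i : ℕ}
    (hi : i < l.length) : (l.getD i []).length = 20 := by
  rw [List.getD_eq_getElem _ _ hi]
  exact h' _ (List.getElem_mem hi)

/-- PROOF.  `dotL_eq` twice; `bf_eq_sum` (`MP_dcc566_gt.bf_eq_sum`: `bf G x y = ∑ i, ∑ j, x i * G i j * y j`); the entry `j` of `gm.map f` is `f` of the entry `j` of `gm`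
(`List.getD_map`, or `List.getD_eq_getElem` and `List.getElem_map`, `j < 20 = gm.length`). -/
theorem bf_fv {gm : List (List ℤ)} (h : gm.length = 20) (h' : ∀ l ∈ gm, l.length = 20)
    {x y : List ℤ} (hx : x.length = 20) (hy : y.length = 20) :
    bf (GM gm) (fv x) (fv y) = dotL x (gm.map (fun l => dotL l y)) := by
  rw [dotL_eq 20 x _ hx (by simpa using h)]
  unfold bf
  rw [dotProduct]
  refine Finset.sum_congr rfl fun i _ => ?_
  have hi : (i : ℕ) < gm.length := by
    rw [h]
    exact i.2
  have e1 : (gm.map (fun l => dotL l y)).getD i 0 = dotL (gm.getD i []) y := by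
    rw [List.getD_eq_getElem _ _ (by simpa using hi), List.getD_eq_getElem _ _ hi,
      List.getElem_map]
  rw [e1, dotL_eq 20 _ y (FvE1_getD_len h' hi) hy]
  rfl

private theorem FvE1_addL : ∀ (n : ℕ) (x y : List ℤ), x.length = n → y.length = n →
    (∀ c : ℕ, (addL x y).getD c 0 = x.getD c 0 + y.getD c 0) ∧ (addL x y).length = n := by
  intro n
  induction n with
  | zero =>
    intro x y hx hy
    rw [List.length_eq_zero_iff] at hx hy
    rw [hx, hy]
    simp [addL]
  | succ n ih =>
    intro x y hx hy
    cases x with
    | nil => simp at hx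
    | cons a x =>
      cases y with
      | nil => simp at hy
      | cons b y =>
        obtain ⟨h1, h2⟩ := ih x y (by simpa using hx) (by simpa using hy)
        rw [addL]
        refine ⟨fun c => ?_, by rw [List.length_cons, h2]⟩
        cases c with
        | zero => rfl
        | succ c =>
          rw [List.getD_cons_succ, List.getD_cons_succ, List.getD_cons_succ]
          exact h1 c

/-- PROOF.  Induction on the lists. -/
theorem fv_addL {x y : List ℤ} (h : x.length = 20) (h' : y.length = 20) :
    fv (addL x y) = fv x + fv y ∧ (addL x y).length = 20 := by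
  obtain ⟨h1, h2⟩ := FvE1_addL 20 x y h h'
  exact ⟨funext fun c => h1 c, h2⟩

theorem fv_map_mul (a : ℤ) {x : List ℤ} : fv (x.map (fun b => a * b)) = a • fv x := by
  funext c
  show (x.map (fun b => a * b)).getD c 0 = a * x.getD c 0
  generalize (c : ℕ) = n
  induction x generalizing n with
  | nil => simp
  | cons b x ih =>
    cases n with
    | zero => rfl
    | succ n =>
      rw [List.map_cons, List.getD_cons_succ, List.getD_cons_succ]
      exact ih n

private theorem FvE1_zero : fv (List.replicate 20 0) = 0 := by
  funext c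
  fin_cases c <;> rfl

/-- PROOF.  `rootsOK` gives that `roots` has `M` rows of length 20; induction on the list `C` with `fv_addL`, `fv_map_mul`; `fv (List.replicate 20 0) = 0`. -/
theorem fv_wsum {roots : List (List ℤ)} {M : ℕ} (h : roots.length = M)
    (h' : ∀ l ∈ roots, l.length = 20) (C : List (ℕ × ℕ)) (hC : ∀ x ∈ C, x.1 < M) :
    fv (wsum roots C) = (C.map (fun x => (x.2 : ℤ) • fv (roots.getD x.1 []))).sum ∧
      (wsum roots C).length = 20 := by
  induction C with
  | nil => exact ⟨FvE1_zero, rfl⟩
  | cons x C ih =>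
    obtain ⟨h1, h2⟩ := ih fun y hy => hC y (List.mem_cons_of_mem _ hy)
    have h3 : (roots.getD x.1 []).length = 20 :=
      FvE1_getD_len h' (by
        rw [h]
        exact hC x List.mem_cons_self)
    have h4 := fv_addL (x := (roots.getD x.1 []).map (fun a => (x.2 : ℤ) * a)) (y := wsum roots C)
      (by rw [List.length_map, h3]) h2
    rw [fv_map_mul, h1] at h4
    refine ⟨?_, h4.2⟩
    rw [List.map_cons, List.sum_cons]
    exact h4.1

theorem fv_zsum {roots : List (List ℤ)} {M : ℕ} (h : roots.length = M)
    (h' : ∀ l ∈ roots, l.length = 20) (C : List (ℕ × ℤ)) (hC : ∀ x ∈ C, x.1 < M) :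
    fv (zsum roots C) = (C.map (fun x => x.2 • fv (roots.getD x.1 []))).sum ∧
      (zsum roots C).length = 20 := by
  induction C with
  | nil => exact ⟨FvE1_zero, rfl⟩
  | cons x C ih =>
    obtain ⟨h1, h2⟩ := ih fun y hy => hC y (List.mem_cons_of_mem _ hy)
    have h3 : (roots.getD x.1 []).length = 20 :=
      FvE1_getD_len h' (by
        rw [h]
        exact hC x List.mem_cons_self)
    have h4 := fv_addL (x := (roots.getD x.1 []).map (fun a => x.2 * a)) (y := zsum roots C)
      (by rw [List.length_map, h3]) h2
    rw [fv_map_mul, h1] at h4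
    refine ⟨?_, h4.2⟩
    rw [List.map_cons, List.sum_cons]
    exact h4.1

end Pool.Agent.RFN
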