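import Mathlib
import Pool.Agent.Lib.MP_dcc566_gt_R.FvE1
import Pool.Agent.Lib.MP_dcc566_gt_R.FvE2

/-!
# Soundness of the checks of roots and permutations
-/

set_option autoImplicit false

namespace Pool.Agent.RFN

open MP_dcc566_gt (bf)

/-- A packed permutation as a map. -/
def tS (M s : ℕ) : Fin M → Fin M := fun i => if h : pa s i < M then ⟨pa s i, h⟩ else i

variable {gm roots lf gr : List (List ℤ)} {M : ℕ}

private theorem dotL_comm' : ∀ x y : List ℤ, dotL x y = dotL y x
  | [], [] => rfl
  | [], _ :: _ => rfl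
  | _ :: _, [] => rfl
  | a :: x, b :: y => by rw [dotL, dotL, dotL_comm' x y, mul_comm]

private theorem rootsOK_data (h : rootsOK gm roots lf gr M = true) :
    roots.length = M ∧ (∀ e ∈ roots, e.length = 20) ∧ gm.length = 20 ∧
      (∀ e ∈ gm, e.length = 20) ∧ lf = roots.map (fun e => gm.map (fun l => dotL l e)) ∧
      gr = lf.map (fun l => roots.map (fun e => dotL l e)) := by
  unfold rootsOK at h
  simp only [Bool.and_eq_true, decide_eq_true_eq, List.all_eq_true] at h
  obtain ⟨⟨⟨⟨⟨h1, h2⟩, h3⟩, h4⟩, h5⟩, h6⟩ := h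
  exact ⟨h1, h2, h3, h4, h5, h6⟩

private theorem getD_map' {α β : Type*} (f : α → β) (l : List α) {i : ℕ} (hi : i < l.length)
    (d : α) (d' : β) : (l.map f).getD i d' = f (l.getD i d) := by
  rw [List.getD_eq_getElem _ _ (by rw [List.length_map]; exact hi),
    List.getD_eq_getElem _ _ hi, List.getElem_map]

private theorem root_len (h : rootsOK gm roots lf gr M = true) (i : Fin M) :
    (roots.getD i []).length = 20 := by
  obtain ⟨h1, h2, -, -, -, -⟩ := rootsOK_data h
  have hi : (i : ℕ) < roots.length := by rw [h1]; exact i.2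
  rw [List.getD_eq_getElem _ _ hi]
  exact h2 _ (List.getElem_mem hi)

private theorem lf_aux (h : rootsOK gm roots lf gr M = true) (hs : (GM gm).IsSymm) (i : Fin M)
    {x : List ℤ} (hx : x.length = 20) :
    dotL (lf.getD i []) x = bf (GM gm) (eL roots M i) (fv x) ∧ lf.length = M := by
  obtain ⟨h1, h2, h3, h4, h5, h6⟩ := rootsOK_data h
  have hi : (i : ℕ) < roots.length := by rw [h1]; exact i.2
  refine ⟨?_, by rw [h5, List.length_map, h1]⟩
  rw [h5, getD_map' (fun e => gm.map (fun l => dotL l e)) roots hi [] [], dotL_comm',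
    ← bf_fv h3 h4 hx (root_len h i)]
  exact MP_dcc566_gt.bf_comm _ hs _ _

/-- PROOF.  Unfold `rootsOK`: `roots` has `M` entries of length 20, `gm` 20 entries of length 20, `lf = roots.map ..`, `gr = lf.map ..`.  The entry `i` of `lf` is
`gm.map (fun l => dotL l e)`, `e` the root `i`, and `dotL` of it with the root `j` is `dotL_eq`, commutative, so it is `bf (GM gm) (root j) (root i)`
(`bf_fv`) `= bf (GM gm) (root i) (root j)` by symmetry. -/
theorem gr_eq (h : rootsOK gm roots lf gr M = true) (hs : (GM gm).IsSymm) (i j : Fin M) :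
    (gr.getD i []).getD j 0 = bf (GM gm) (eL roots M i) (eL roots M j) := by
  obtain ⟨h1, h2, h3, h4, h5, h6⟩ := rootsOK_data h
  obtain ⟨h7, h8⟩ := lf_aux h hs i (root_len h j)
  have hi : (i : ℕ) < lf.length := by rw [h8]; exact i.2
  have hj : (j : ℕ) < roots.length := by rw [h1]; exact j.2
  rw [h6, getD_map' (fun l => roots.map (fun e => dotL l e)) lf hi [] [],
    getD_map' (fun e => dotL (lf.getD i []) e) roots hj [] 0, h7]
  rfl

/-- PROOF.  As `gr_eq`. -/
theorem lf_eq (h : rootsOK gm roots lf gr M = true) (hs : (GM gm).IsSymm) (i : Fin M)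
    {x : List ℤ} (hx : x.length = 20) :
    (lf.map (fun l => dotL l x)).getD i 0 = bf (GM gm) (eL roots M i) (fv x) ∧ lf.length = M := by
  obtain ⟨h7, h8⟩ := lf_aux h hs i hx
  have hi : (i : ℕ) < lf.length := by rw [h8]; exact i.2
  refine ⟨?_, h8⟩
  rw [getD_map' (fun l => dotL l x) lf hi [] 0, h7]

/-- PROOF.  `gr_eq`, `genOK`. -/
theorem gen_GP (h : rootsOK gm roots lf gr M = true) (hs : (GM gm).IsSymm) {g : ℕ}
    (hg : genOK gr M g = true) : (∀ i < M, pa g i < M) ∧ GP (GM gm) (eL roots M) (tS M g) := by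
  unfold genOK at hg
  simp only [Bool.and_eq_true, decide_eq_true_eq, List.all_eq_true, List.mem_range,
    Nat.blt_eq] at hg
  refine ⟨fun i hi => (hg i hi).1, fun i j => ?_⟩
  have hi := (hg i i.2).1
  have hj := (hg j j.2).1
  have e1 : tS M g i = ⟨pa g i, hi⟩ := by rw [tS, dif_pos hi]
  have e2 : tS M g j = ⟨pa g j, hj⟩ := by rw [tS, dif_pos hj]
  have h3 := (hg i i.2).2 j j.2
  rw [e1, e2, ← gr_eq h hs, ← gr_eq h hs]
  exact h3

/-- PROOF.  Prove by induction on the list `pd` (generalizing `s`): if the claim holds for all permutations with number `< s` and `permOK gens pl M s pd`, then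
it holds for all numbers `< s + pd.length`: the permutation number `s` is `tS M (gens[b]) ∘ tS M (pl[a])` with `a < s` (`funext`, both values are `< M`), so `GP`
by `GP.comp`.  Start: `s = 1`, number 0 is the identity (`idOK`). -/
theorem perm_GP (h : rootsOK gm roots lf gr M = true) (hs : (GM gm).IsSymm) {gens pl : List ℕ}
    (hg : gens.all (genOK gr M) = true) {pd : List (ℕ × ℕ)} (hp : permOK gens pl M 1 pd = true)
    (hi : idOK pl M = true) : ∀ s < pd.length + 1, (∀ i < M, pa (pl.getD s 0) i < M) ∧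
      GP (GM gm) (eL roots M) (tS M (pl.getD s 0)) := by
  have key : ∀ (pd : List (ℕ × ℕ)) (s : ℕ), 1 ≤ s → permOK gens pl M s pd = true →
      (∀ u < s, (∀ i < M, pa (pl.getD u 0) i < M) ∧
        GP (GM gm) (eL roots M) (tS M (pl.getD u 0))) →
      ∀ u < s + pd.length, (∀ i < M, pa (pl.getD u 0) i < M) ∧
        GP (GM gm) (eL roots M) (tS M (pl.getD u 0)) := by
    intro pd
    induction pd with
    | nil =>
      intro s _ _ hu u hu'
      exact hu u (by simpa using hu')
    | cons x xs ih =>
      intro s hs1 hp hu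
      rw [permOK] at hp
      simp only [Bool.and_eq_true, List.all_eq_true, List.mem_range, Nat.blt_eq,
        Nat.beq_eq] at hp
      obtain ⟨⟨⟨ha, hb⟩, hc⟩, hd⟩ := hp
      have hgx : genOK gr M (gens.getD x.2 0) = true := by
        rw [List.getD_eq_getElem _ _ hb]
        exact List.all_eq_true.mp hg _ (List.getElem_mem hb)
      obtain ⟨g1, g2⟩ := gen_GP h hs hgx
      obtain ⟨a1, a2⟩ := hu x.1 ha
      have hlt : ∀ i < M, pa (pl.getD s 0) i < M := by
        intro i hi
        rw [hc i hi]
        exact g1 _ (a1 i hi)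
      have hcomp : tS M (pl.getD s 0) = tS M (gens.getD x.2 0) ∘ tS M (pl.getD x.1 0) := by
        funext i
        have e1 : tS M (pl.getD s 0) i = ⟨pa (pl.getD s 0) i, hlt i i.2⟩ := by
          rw [tS, dif_pos (hlt i i.2)]
        have e2 : tS M (pl.getD x.1 0) i = ⟨pa (pl.getD x.1 0) i, a1 i i.2⟩ := by
          rw [tS, dif_pos (a1 i i.2)]
        rw [Function.comp_apply, e1, e2, tS, dif_pos (g1 _ (a1 i i.2))]
        exact Fin.ext (hc i i.2)
      have hnew : ∀ u < s + 1, (∀ i < M, pa (pl.getD u 0) i < M) ∧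
          GP (GM gm) (eL roots M) (tS M (pl.getD u 0)) := by
        intro u hu'
        rcases Nat.lt_succ_iff_lt_or_eq.mp hu' with h1 | h1
        · exact hu u h1
        · rw [h1]
          refine ⟨hlt, ?_⟩
          rw [hcomp]
          exact GP.comp g2 a2
      intro u hu'
      exact ih (s + 1) (by omega) hd hnew u (by rw [List.length_cons] at hu'; omega)
  have h0 : ∀ u < 1, (∀ i < M, pa (pl.getD u 0) i < M) ∧
      GP (GM gm) (eL roots M) (tS M (pl.getD u 0)) := by
    intro u hu
    have hu0 : u = 0 := by omega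
    subst hu0
    unfold idOK at hi
    simp only [List.all_eq_true, List.mem_range, Nat.beq_eq] at hi
    have hlt : ∀ i < M, pa (pl.getD 0 0) i < M := fun i hi' => by rw [hi i hi']; exact hi'
    refine ⟨hlt, ?_⟩
    have hid : tS M (pl.getD 0 0) = id := by
      funext i
      rw [tS, dif_pos (hlt i i.2)]
      exact Fin.ext (hi i i.2)
    rw [hid]
    exact GP_id
  intro s hs'
  exact key pd 1 le_rfl hp h0 s (by omega)

end Pool.Agent.RFN
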