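import Mathlib
import Pool.Agent.Lib.MP_dcc566_gt_R.FvE3

/-!
# Soundness of the check of a representative
-/

set_option autoImplicit false

namespace Pool.Agent.RFN

open MP_dcc566_gt (bf)

variable {gm roots lf gr : List (List ℤ)} {M K P : ℕ} {ml pl : List ℕ} {reps : List VRep}

/-- PROOF.  `repsOK_get` gives `repOK ..` for the representative `k` (`0 + k = k`), unfold; `zeroPat_sound` with `lf_eq` (the list has length `M`), `maskPat_sound`;
`bf_fv` for the norm; `r.v.any ..`: some entry of `v` is not zero. -/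
theorem rep_base (h : rootsOK gm roots lf gr M = true) (hs : (GM gm).IsSymm)
    (hr : repsOK gm roots lf K P M ml pl 0 reps = true) (hK : reps.length = K) (k : Fin K) :
    rL reps K k ≠ 0 ∧ bf (GM gm) (rL reps K k) (rL reps K k) ≤ 0 ∧
      (∀ i : Fin M, 0 ≤ bf (GM gm) (eL roots M i) (rL reps K k)) ∧
      (∀ i : Fin M, bf (GM gm) (eL roots M i) (rL reps K k) = 0 ↔
        (i : ℕ) ∈ (reps.getD k ⟨[], [], 0⟩).I) ∧
      (∀ i < M, tb (ml.getD k 0) i = true ↔ i ∈ (reps.getD k ⟨[], [], 0⟩).I) := by
  have hk : (k : ℕ) < reps.length := by rw [hK]; exact k.2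
  have h1 := repsOK_get gm roots lf K P M ml pl 0 reps hr k hk
  unfold repOK at h1
  simp only [Bool.and_eq_true, decide_eq_true_eq] at h1
  obtain ⟨⟨⟨⟨⟨⟨⟨⟨⟨⟨⟨c1, c2⟩, c3⟩, c4⟩, c5⟩, c6⟩, c7⟩, c8⟩, c9⟩, c10⟩, c11⟩, c12⟩ := h1
  have h2 := h
  unfold rootsOK at h2
  simp only [Bool.and_eq_true, decide_eq_true_eq, List.all_eq_true] at h2
  obtain ⟨⟨⟨⟨⟨d1, d2⟩, d3⟩, d4⟩, d5⟩, d6⟩ := h2
  have hz : ∀ i : Fin M, 0 ≤ bf (GM gm) (eL roots M i) (rL reps K k) ∧
      (bf (GM gm) (eL roots M i) (rL reps K k) = 0 ↔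
        (i : ℕ) ∈ (reps.getD k ⟨[], [], 0⟩).I) := by
    intro i
    obtain ⟨e1, e2⟩ := lf_eq h hs i c1
    have e3 := zeroPat_sound _ _ 0 c7 (i : ℕ) (by rw [List.length_map, e2]; exact i.2)
    rw [e1, Nat.zero_add] at e3
    exact e3
  refine ⟨?_, ?_, fun i => (hz i).1, fun i => (hz i).2, ?_⟩
  · intro h0
    rw [List.any_eq_true] at c9
    obtain ⟨a, ha, ha0⟩ := c9
    have ha1 : a ≠ 0 := by simpa using ha0
    obtain ⟨j, hj, hja⟩ := List.getElem_of_mem ha
    have h3 := congrFun h0 ⟨j, by rw [← c1]; exact hj⟩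
    apply ha1
    have h4 : (reps.getD k ⟨[], [], 0⟩).v.getD j 0 = a := by
      rw [List.getD_eq_getElem _ _ hj, hja]
    rw [← h4]
    exact h3
  · have h3 := bf_fv d3 d4 c1 c1
    have h4 : bf (GM gm) (rL reps K k) (rL reps K k) =
        bf (GM gm) (fv (reps.getD k ⟨[], [], 0⟩).v) (fv (reps.getD k ⟨[], [], 0⟩).v) := rfl
    rw [h4, h3]
    exact c10
  · intro i hi
    have e3 := maskPat_sound _ _ M 0 c8 i hi
    rw [Nat.zero_add, Nat.zero_add] at e3
    exact e3

/-- The number (starting with 1) of the first list containing `i`, or 0. -/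
def posL : List (List ℕ) → ℕ → ℕ
  | [], _ => 0
  | C :: Cs, i => if i ∈ C then 1 else if posL Cs i = 0 then 0 else posL Cs i + 1

/-- PROOF.  Induction on `Cs`. -/
theorem posL_le (Cs : List (List ℕ)) (i : ℕ) : posL Cs i ≤ Cs.length ∧
    (posL Cs i ≠ 0 ↔ i ∈ Cs.flatten) := by
  induction Cs with
  | nil => simp [posL]
  | cons C Cs ih =>
    obtain ⟨ih1, ih2⟩ := ih
    unfold posL
    rw [List.length_cons, List.flatten_cons, List.mem_append]
    by_cases hC : i ∈ C
    · rw [if_pos hC]
      exact ⟨by omega, fun _ => Or.inl hC, fun _ => one_ne_zero⟩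
    · rw [if_neg hC]
      by_cases h0 : posL Cs i = 0
      · rw [if_pos h0]
        refine ⟨Nat.zero_le _, fun h => absurd rfl h, fun h => ?_⟩
        rcases h with h | h
        · exact absurd h hC
        · exact absurd h0 (ih2.2 h)
      · rw [if_neg h0]
        exact ⟨by omega, fun _ => Or.inr (ih2.1 h0), fun _ => Nat.succ_ne_zero _⟩

/-- PROOF.  Induction on `Cs`; `Nodup` of the flattened list: `i ∈ C` (the first list) excludes `i` in the other lists. -/
theorem posL_iff (Cs : List (List ℕ)) (hn : Cs.flatten.Nodup) (i j : ℕ) (hj : j < Cs.length) :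
    posL Cs i = j + 1 ↔ i ∈ Cs.getD j [] := by
  induction Cs generalizing j with
  | nil => simp at hj
  | cons C Cs ih =>
    rw [List.flatten_cons] at hn
    have hn2 : Cs.flatten.Nodup := List.Nodup.of_append_right hn
    have hdis := List.disjoint_of_nodup_append hn
    unfold posL
    cases j with
    | zero =>
      rw [List.getD_cons_zero]
      by_cases hC : i ∈ C
      · rw [if_pos hC]
        exact ⟨fun _ => hC, fun _ => rfl⟩
      · rw [if_neg hC]
        refine ⟨fun h => ?_, fun h => absurd h hC⟩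
        by_cases h0 : posL Cs i = 0
        · rw [if_pos h0] at h
          omega
        · rw [if_neg h0] at h
          omega
    | succ j =>
      rw [List.getD_cons_succ]
      have hj' : j < Cs.length := by
        rw [List.length_cons] at hj
        omega
      have ih' := ih hn2 j hj'
      by_cases hC : i ∈ C
      · rw [if_pos hC]
        refine ⟨fun h => by omega, fun h => ?_⟩
        exfalso
        have h1 : i ∈ Cs.flatten := by
          rw [List.getD_eq_getElem _ _ hj'] at h
          exact List.mem_flatten.2 ⟨_, List.getElem_mem hj', h⟩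
        exact hdis hC h1
      · rw [if_neg hC]
        by_cases h0 : posL Cs i = 0
        · rw [if_pos h0]
          refine ⟨fun h => by omega, fun h => ?_⟩
          have := ih'.2 h
          omega
        · rw [if_neg h0, ← ih']
          omega

/-- The weight of `i` in a list of pairs, or 0. -/
def wtL : List (ℕ × ℕ) → ℕ → ℕ
  | [], _ => 0
  | x :: l, i => if x.1 = i then x.2 else wtL l i

/-- PROOF.  Induction on `l`; the first components of `l` have no repetitions. -/
theorem sum_wtL {A : Type} [AddCommGroup A] (f : ℕ → A) (l : List (ℕ × ℕ))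
    (hn : (l.map Prod.fst).Nodup) (hM : ∀ x ∈ l, x.1 < M) :
    (l.map (fun x => (x.2 : ℤ) • f x.1)).sum =
      ∑ i ∈ (Finset.univ : Finset (Fin M)).filter (fun i : Fin M => (i : ℕ) ∈ l.map Prod.fst),
        (wtL l (i : ℕ) : ℤ) • f (i : ℕ) := by
  induction l with
  | nil => simp
  | cons x l ih =>
    rw [List.map_cons, List.nodup_cons] at hn
    have hx : x.1 < M := hM x (List.mem_cons_self ..)
    have ih' := ih hn.2 (fun y hy => hM y (List.mem_cons_of_mem _ hy))
    have hset : (Finset.univ : Finset (Fin M)).filter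
        (fun i : Fin M => (i : ℕ) ∈ (x :: l).map Prod.fst) =
        insert (⟨x.1, hx⟩ : Fin M) ((Finset.univ : Finset (Fin M)).filter
          (fun i : Fin M => (i : ℕ) ∈ l.map Prod.fst)) := by
      ext i
      rw [Finset.mem_insert, Finset.mem_filter, Finset.mem_filter, List.map_cons, List.mem_cons]
      constructor
      · rintro ⟨-, h | h⟩
        · exact Or.inl (Fin.ext h)
        · exact Or.inr ⟨Finset.mem_univ _, h⟩
      · rintro (h | ⟨-, h⟩)
        · rw [h]
          exact ⟨Finset.mem_univ _, Or.inl rfl⟩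
        · exact ⟨Finset.mem_univ _, Or.inr h⟩
    rw [hset, Finset.sum_insert]
    · rw [List.map_cons, List.sum_cons, ih']
      congr 1
      · show (x.2 : ℤ) • f x.1 = ((if x.1 = x.1 then x.2 else wtL l x.1 : ℕ) : ℤ) • f x.1
        rw [if_pos rfl]
      · refine Finset.sum_congr rfl fun i hi => ?_
        have h1 : (i : ℕ) ∈ l.map Prod.fst := (Finset.mem_filter.1 hi).2
        have h2 : x.1 ≠ (i : ℕ) := fun h => hn.1 (by rw [h]; exact h1)
        show (wtL l (i : ℕ) : ℤ) • f (i : ℕ) =
          ((if x.1 = (i : ℕ) then x.2 else wtL l (i : ℕ) : ℕ) : ℤ) • f (i : ℕ)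
        rw [if_neg h2]
    · intro h
      exact hn.1 (Finset.mem_filter.1 h).2

end Pool.Agent.RFN
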