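import Mathlib
import Pool.Agent.Lib.MP_dcc566_gt_R.FvE4

/-!
# The local structure from the check
-/

set_option autoImplicit false

namespace Pool.Agent.RFN

open MP_dcc566_gt (bf)

variable {gm roots lf gr : List (List ℤ)} {M K P : ℕ} {ml pl : List ℕ} {reps : List VRep}

private theorem wtL_append_e5 (l l' : List (ℕ × ℕ)) (i : ℕ) : wtL (l ++ l') i =
    if i ∈ l.map Prod.fst then wtL l i else wtL l' i := by
  induction l with
  | nil => simp
  | cons x l ih =>
    rw [List.cons_append, wtL, ih, wtL, List.map_cons]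
    by_cases h : x.1 = i
    · rw [if_pos h, if_pos h, if_pos (by rw [← h]; exact List.mem_cons_self)]
    · rw [if_neg h, if_neg h]
      have h1 : (i ∈ x.1 :: l.map Prod.fst) ↔ i ∈ l.map Prod.fst := by
        rw [List.mem_cons]
        constructor
        · rintro (h2 | h2)
          · exact absurd h2.symm h
          · exact h2
        · exact Or.inr
      by_cases h3 : i ∈ l.map Prod.fst
      · rw [if_pos h3, if_pos (h1.2 h3)]
      · rw [if_neg h3, if_neg (fun h4 => h3 (h1.1 h4))]

private theorem wtL_pos_e5 (l : List (ℕ × ℕ)) (hl : ∀ x ∈ l, 0 < x.2) (i : ℕ)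
    (hi : i ∈ l.map Prod.fst) : 0 < wtL l i := by
  induction l with
  | nil => simp at hi
  | cons x l ih =>
    rw [wtL]
    by_cases h : x.1 = i
    · rw [if_pos h]
      exact hl x List.mem_cons_self
    · rw [if_neg h]
      rw [List.map_cons, List.mem_cons] at hi
      rcases hi with hi | hi
      · exact absurd hi.symm h
      · exact ih (fun y hy => hl y (List.mem_cons_of_mem _ hy)) hi

private theorem wtL_flatten_e5 (cs : List (List (ℕ × ℕ))) (hn : (cs.flatten.map Prod.fst).Nodup)
    (j i : ℕ) (hi : i ∈ (cs.getD j []).map Prod.fst) :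
    wtL cs.flatten i = wtL (cs.getD j []) i := by
  induction cs generalizing j with
  | nil => simp at hi
  | cons C cs ih =>
    rw [List.flatten_cons, wtL_append_e5]
    rw [List.flatten_cons, List.map_append, List.nodup_append] at hn
    obtain ⟨-, h2, h3⟩ := hn
    cases j with
    | zero =>
      rw [List.getD_cons_zero] at hi ⊢
      rw [if_pos hi]
    | succ j =>
      rw [List.getD_cons_succ] at hi ⊢
      have h4 : i ∈ cs.flatten.map Prod.fst := by
        obtain ⟨x, hx, hxi⟩ := List.mem_map.1 hi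
        refine List.mem_map.2 ⟨x, List.mem_flatten.2 ⟨cs.getD j [], ?_, hx⟩, hxi⟩
        by_cases hj : j < cs.length
        · rw [List.getD_eq_getElem _ _ hj]
          exact List.getElem_mem hj
        · rw [List.getD_eq_default _ _ (by omega)] at hx
          simp at hx
      rw [if_neg (fun h5 => h3 i h5 i h4 rfl)]
      exact ih h2 j hi

private theorem parts_e5 {k : ℕ} {r : VRep} (h : repOK gm roots lf K P M ml pl k r = true) :
    1 ≤ r.comps.length ∧ r.I.length = 18 + r.comps.length ∧ r.I.Nodup ∧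
      (∀ i ∈ r.I, i < M) ∧ (∀ C ∈ r.comps, 1 ≤ C.length ∧ ∀ x ∈ C, 0 < x.2) ∧
      (∀ C ∈ r.comps, wsum roots C = wsum roots (r.comps.getD 0 [])) ∧
      chkT (fun t off => edgeOK K P ml pl r.I t ((r.edges >>> (16 * off)) % 65536)) r.cs [] 0
        = true := by
  simp only [repOK, Bool.and_eq_true, decide_eq_true_eq, List.all_eq_true, Nat.blt_eq] at h
  obtain ⟨⟨⟨⟨⟨⟨⟨⟨⟨⟨⟨-, h1⟩, h2⟩, h3⟩, h4⟩, h5⟩, -⟩, -⟩, -⟩, -⟩, h6⟩, h7⟩ := h
  exact ⟨h1, h2, (nodupL_iff _).1 h3, h4, h5, h6, h7⟩

/-- PROOF.  Let `r` be the representative `k`, `c = r.comps.length`, `C i = posL r.cs i`, `m i = wtL r.comps.flatten i`.  `repOK` (by `repsOK_get`) gives all parts: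
`k_pos`: `1 ≤ r.comps.length`; `C_le`: `posL_le` (`r.cs.length = r.comps.length`); `C_zero`: `posL_le` and `rep_base`; `surj`: the component `j` is nonempty, its
elements are `< M` (they are in `r.I`), `posL_iff` (`nodupL_iff`); `card`: the filter has the elements of `r.I` (`< M`, no repetitions), of length
`18 + c`; `m_pos`: weights are positive; `rel`: for the component `j` (`C i = j` iff `i ∈ r.cs[j-1]`) the sum is `fv (wsum roots r.comps[j-1])` (`fv_wsum`,
`sum_wtL`; on the component `wtL r.comps.flatten i = wtL r.comps[j-1] i` because the facets have no repetitions) and all `wsum` agree with that of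
the first component; `edge`: for `t` let `s` be the list of the `(t (j+1) : ℕ)`, `j < c`: `Forall₂ (· ∈ ·) s r.cs` (`posL_iff`); `chkT_sound` gives a code
`x` with `edgeOK K P ml pl r.I s.reverse x`; `k' = x / 128`, `σ = tS M (pl.getD (x % 128) 0)` (`hσ`); for `i` with `C i ≠ 0`: `i ∈ r.I`, so
`tb (ml.getD k' 0) (pa .. i) = !(memL s.reverse i)`, and `rep_base` for `k'`: `bf (e (σ i)) (r k') = 0` iff `tb (ml.getD k' 0) (σ i)`, iff `i ∉ s`.  If `i` is not a
`t j`: product 0; for `i = t j`: product `≠ 0` and `≥ 0`. -/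
theorem loc_of_ok (h : rootsOK gm roots lf gr M = true) (hs : (GM gm).IsSymm)
    (hr : repsOK gm roots lf K P M ml pl 0 reps = true) (hK : reps.length = K)
    (hσ : ∀ s < P, (∀ i < M, pa (pl.getD s 0) i < M) ∧
      GP (GM gm) (eL roots M) (tS M (pl.getD s 0))) (k : Fin K) :
    ∃ c C m, LocR (GM gm) (eL roots M) (rL reps K) k c C m := by
  classical
  have hbase := rep_base h hs hr hK
  have hk : (k : ℕ) < reps.length := by
    rw [hK]
    exact k.2
  obtain ⟨r, hrr⟩ : ∃ r, r = reps.getD k ⟨[], [], 0⟩ := ⟨_, rfl⟩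
  have hrep : repOK gm roots lf K P M ml pl (0 + k) r = true := by
    rw [hrr]
    exact repsOK_get gm roots lf K P M ml pl 0 reps hr k hk
  obtain ⟨h1, h2, h3, h4, h5, h6, h7⟩ := parts_e5 hrep
  obtain ⟨-, -, -, hb, -⟩ := hbase k
  rw [← hrr] at hb
  have hcs : r.cs.length = r.comps.length := by
    rw [VRep.cs, List.length_map]
  have hcsj : ∀ j, r.cs.getD j [] = (r.comps.getD j []).map Prod.fst := by
    intro j
    by_cases hj : j < r.comps.length
    · rw [List.getD_eq_getElem _ _ hj, List.getD_eq_getElem _ _ (by rw [hcs]; exact hj)]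
      simp [VRep.cs]
    · rw [List.getD_eq_default _ _ (by omega), List.getD_eq_default _ _ (by omega)]
      rfl
  have hmem : ∀ j < r.comps.length, r.comps.getD j [] ∈ r.comps := by
    intro j hj
    rw [List.getD_eq_getElem _ _ hj]
    exact List.getElem_mem hj
  have hflat : r.I = r.comps.flatten.map Prod.fst := by
    rw [VRep.I, VRep.cs, List.map_flatten]
  have hnd : r.cs.flatten.Nodup := h3
  have hpos : ∀ i, posL r.cs i ≠ 0 ↔ i ∈ r.I := fun i => (posL_le r.cs i).2
  have hpj : ∀ i j, j < r.comps.length → (posL r.cs i = j + 1 ↔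
      i ∈ (r.comps.getD j []).map Prod.fst) := by
    intro i j hj
    rw [posL_iff r.cs hnd i j (by rw [hcs]; exact hj), hcsj]
  have hin : ∀ j < r.comps.length, ∀ i ∈ (r.comps.getD j []).map Prod.fst, i ∈ r.I := by
    intro j hj i hi
    rw [hflat]
    obtain ⟨x, hx, hxi⟩ := List.mem_map.1 hi
    exact List.mem_map.2 ⟨x, List.mem_flatten.2 ⟨_, hmem j hj, hx⟩, hxi⟩
  simp only [rootsOK, Bool.and_eq_true, decide_eq_true_eq, List.all_eq_true] at h
  obtain ⟨⟨⟨⟨⟨g1, g2⟩, -⟩, -⟩, -⟩, -⟩ := h
  have hsum : ∀ j < r.comps.length, ∑ i ∈ Finset.univ.filter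
      (fun i : Fin M => posL r.cs i = j + 1), ((wtL r.comps.flatten i : ℕ) : ℤ) • eL roots M i =
      fv (wsum roots (r.comps.getD 0 [])) := by
    intro j hj
    have hCM : ∀ x ∈ r.comps.getD j [], x.1 < M := by
      intro x hx
      exact h4 _ (hin j hj x.1 (List.mem_map.2 ⟨x, hx, rfl⟩))
    have hCn : ((r.comps.getD j []).map Prod.fst).Nodup := by
      have e1 := List.nodup_flatten.1 hnd
      have e2 : r.cs.getD j [] ∈ r.cs := by
        rw [List.getD_eq_getElem _ _ (by rw [hcs]; exact hj)]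
        exact List.getElem_mem _
      have e3 := e1.1 _ e2
      rw [hcsj] at e3
      exact e3
    rw [← h6 _ (hmem j hj), (fv_wsum g1 g2 (r.comps.getD j []) hCM).1,
      sum_wtL (M := M) (fun i => fv (roots.getD i [])) (r.comps.getD j []) hCn hCM]
    refine Finset.sum_congr ?_ ?_
    · ext i
      simp only [Finset.mem_filter, Finset.mem_univ, true_and]
      exact hpj i j hj
    · intro i hi
      rw [Finset.mem_filter] at hi
      rw [wtL_flatten_e5 r.comps (by rw [← hflat]; exact h3) j i hi.2]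
      rfl
  refine ⟨r.comps.length, fun i => posL r.cs i, fun i => wtL r.comps.flatten i, ?_⟩
  refine ⟨h1, ?_, ?_, ?_, ?_, ?_, ?_, ?_⟩
  · intro i
    rw [← hcs]
    exact (posL_le r.cs i).1
  · intro i
    rw [Ne, hb i, ← hpos i, not_not]
  · intro j hj1 hj2
    obtain ⟨j, rfl⟩ : ∃ j', j = j' + 1 := ⟨j - 1, by omega⟩
    have hj : j < r.comps.length := by omega
    have e1 := (h5 _ (hmem j hj)).1
    obtain ⟨x, hx⟩ := List.exists_mem_of_length_pos (l := r.comps.getD j []) (by omega)
    have hxm : x.1 ∈ (r.comps.getD j []).map Prod.fst := List.mem_map.2 ⟨x, hx, rfl⟩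
    exact ⟨⟨x.1, h4 _ (hin j hj _ hxm)⟩, (hpj x.1 j hj).2 hxm⟩
  · have e1 : (Finset.univ.filter (fun i : Fin M => posL r.cs i ≠ 0)).map Fin.valEmbedding =
        r.I.toFinset := by
      ext i
      simp only [Finset.mem_map, Finset.mem_filter, Finset.mem_univ, true_and,
        Fin.valEmbedding_apply, List.mem_toFinset]
      constructor
      · rintro ⟨a, ha, rfl⟩
        exact (hpos a).1 ha
      · intro hi
        exact ⟨⟨i, h4 i hi⟩, (hpos i).2 hi, rfl⟩
    have e2 := congrArg Finset.card e1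
    rw [Finset.card_map, List.toFinset_card_of_nodup h3, h2] at e2
    rw [e2]
    omega
  · intro i hi
    refine wtL_pos_e5 _ ?_ _ ?_
    · intro x hx
      obtain ⟨C, hC, hxC⟩ := List.mem_flatten.1 hx
      exact (h5 C hC).2 x hxC
    · rw [← hflat]
      exact (hpos i).1 hi
  · intro j hj1 hj2
    obtain ⟨j, rfl⟩ : ∃ j', j = j' + 1 := ⟨j - 1, by omega⟩
    rw [hsum j (by omega)]
    exact (hsum 0 (by omega)).symm
  · intro t ht
    have hF : List.Forall₂ (fun i C => i ∈ C)
        ((List.range r.comps.length).map (fun j => (t (j + 1) : ℕ))) r.cs := by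
      rw [List.forall₂_iff_get]
      refine ⟨by rw [List.length_map, List.length_range, hcs], ?_⟩
      intro j hj hj'
      have hj'' : j < r.comps.length := by
        rw [hcs] at hj'
        exact hj'
      have e1 := ht (j + 1) (by omega) (by omega)
      have e2 := (posL_iff r.cs hnd _ j hj').1 e1
      rw [List.getD_eq_getElem _ _ hj'] at e2
      simpa using e2
    obtain ⟨off, hoff⟩ := chkT_sound r.cs [] 0 h7 _ hF
    rw [List.append_nil] at hoff
    obtain ⟨x, hx⟩ : ∃ x, x = (r.edges >>> (16 * off)) % 65536 := ⟨_, rfl⟩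
    rw [← hx] at hoff
    simp only [edgeOK, Bool.and_eq_true, Nat.blt_eq, List.all_eq_true, beq_iff_eq] at hoff
    obtain ⟨⟨k1, k2⟩, k3⟩ := hoff
    obtain ⟨q1, q2⟩ := hσ _ k2
    obtain ⟨-, -, b3, b4, b5⟩ := hbase ⟨x / 128, k1⟩
    have hts : ∀ i : Fin M, ((tS M (pl.getD (x % 128) 0) i : Fin M) : ℕ) =
        pa (pl.getD (x % 128) 0) i := by
      intro i
      rw [tS, dif_pos (q1 i i.2)]
    have key : ∀ i : Fin M, posL r.cs i ≠ 0 →
        (bf (GM gm) (eL roots M (tS M (pl.getD (x % 128) 0) i)) (rL reps K ⟨x / 128, k1⟩) = 0 ↔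
          (i : ℕ) ∉ (List.range r.comps.length).map (fun j => (t (j + 1) : ℕ))) := by
      intro i hi
      have e1 := k3 i ((hpos i).1 hi)
      rw [b4, ← b5 _ (tS M (pl.getD (x % 128) 0) i).2, hts, e1, Bool.not_eq_true',
        ← Bool.not_eq_true, memL_iff, List.mem_reverse]
    refine ⟨⟨x / 128, k1⟩, tS M (pl.getD (x % 128) 0), q2, ?_, ?_⟩
    · intro i hi hit
      rw [key i hi]
      intro hmi
      obtain ⟨j, hj, hji⟩ := List.mem_map.1 hmi
      rw [List.mem_range] at hj
      exact hit (j + 1) (by omega) (by omega) (Fin.ext hji.symm)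
    · intro j hj1 hj2
      refine lt_of_le_of_ne (b3 _) (fun h0 => ?_)
      have e1 : posL r.cs (t j) ≠ 0 := by
        have e2 := ht j hj1 hj2
        have e3 : posL r.cs (t j) = j := e2
        omega
      refine (key (t j) e1).1 h0.symm ?_
      refine List.mem_map.2 ⟨j - 1, List.mem_range.2 (by omega), ?_⟩
      have e4 : j - 1 + 1 = j := by omega
      rw [e4]

end Pool.Agent.RFN
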