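import Mathlib
import Pool.Agent.Lib.MP_dcc566_gt_R.FvE4
import Pool.Agent.Lib.MP_dcc566_gt_R.FvD

/-!
# Roots and spanning from the checks
-/

set_option autoImplicit false

namespace Pool.Agent.RFN

open MP_dcc566_gt (bf)

variable {gm roots lf gr : List (List ℤ)} {M K P : ℕ} {ml pl : List ℕ} {reps : List VRep}

private theorem FvE6_un (h : rootsOK gm roots lf gr M = true) : roots.length = M ∧
    (∀ e ∈ roots, e.length = 20) ∧ gm.length = 20 ∧ (∀ e ∈ gm, e.length = 20) ∧
    lf = roots.map (fun e => gm.map (fun l => dotL l e)) ∧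
    gr = lf.map (fun l => roots.map (fun e => dotL l e)) := by
  unfold rootsOK at h
  simp only [Bool.and_eq_true, decide_eq_true_eq, List.all_eq_true] at h
  obtain ⟨⟨⟨⟨⟨h1, h2⟩, h3⟩, h4⟩, h5⟩, h6⟩ := h
  exact ⟨h1, h2, h3, h4, h5, h6⟩

private theorem FvE6_row : ∀ k : ℕ, rowOK lf gr M k = true → ∀ i < k,
    0 < (gr.getD i []).getD i 0 ∧
    (∀ c ∈ lf.getD i [], (2 * c) % ((gr.getD i []).getD i 0) = 0) ∧
    ∀ j < M, j ≠ i → (gr.getD i []).getD j 0 ≤ 0 := by
  intro k
  induction k with
  | zero => exact fun _ i hi => absurd hi (Nat.not_lt_zero i)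
  | succ k ih =>
    intro h i hi
    rw [rowOK] at h
    simp only [Bool.and_eq_true, decide_eq_true_eq, List.all_eq_true, List.mem_range,
      Bool.or_eq_true, Nat.beq_eq] at h
    obtain ⟨⟨⟨h1, h2⟩, h3⟩, h4⟩ := h
    rcases Nat.lt_succ_iff_lt_or_eq.1 hi with hi' | rfl
    · exact ih h4 i hi'
    · exact ⟨h1, h2, fun j hj hne => (h3 j hj).resolve_left hne⟩

private theorem FvE6_comb : ∀ (cb : List (List (ℕ × ℤ))) (c : ℕ), combOK roots M c cb = true →
    ∀ k < cb.length, ∃ l : List (ℕ × ℤ), (∀ y ∈ l, y.1 < M) ∧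
      zsum roots l = (List.range 20).map (fun j => if Nat.beq j (c + k) then (1 : ℤ) else 0) := by
  intro cb
  induction cb with
  | nil => exact fun _ _ k hk => absurd hk (Nat.not_lt_zero k)
  | cons x xs ih =>
    intro c h k hk
    rw [combOK] at h
    simp only [Bool.and_eq_true, decide_eq_true_eq, List.all_eq_true] at h
    obtain ⟨⟨h1, h2⟩, h3⟩ := h
    cases k with
    | zero => exact ⟨x, fun y hy => by have h4 := h1 y hy; rwa [Nat.blt_eq] at h4, h2⟩
    | succ k =>
      have hk' : k < xs.length := by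
        rw [List.length_cons] at hk
        omega
      obtain ⟨l, hl1, hl2⟩ := ih (c + 1) h3 k hk'
      refine ⟨l, hl1, ?_⟩
      rw [hl2]
      have e : c + 1 + k = c + (k + 1) := by omega
      rw [e]

private theorem FvE6_ofFn (x : Fin 20 → ℤ) : fv (List.ofFn x) = x := by
  funext c
  unfold fv
  rw [List.getD_eq_getElem _ _ (by rw [List.length_ofFn]; exact c.2), List.getElem_ofFn]

private theorem FvE6_sum {l : List ℤ} (h : l.length = M) :
    ∑ j : Fin M, l.getD j 0 = l.sum := by
  subst h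
  rw [← Fin.sum_univ_getElem]
  refine Finset.sum_congr rfl fun j _ => ?_
  rw [List.getD_eq_getElem _ _ j.2]

private theorem FvE6_bfs {m : ℕ} (G : Matrix (Fin 20) (Fin 20) ℤ) (x : Fin 20 → ℤ)
    (f : Fin m → Fin 20 → ℤ) : bf G x (∑ j, f j) = ∑ j, bf G x (f j) := by
  have h : ∀ s : Finset (Fin m), bf G x (∑ j ∈ s, f j) = ∑ j ∈ s, bf G x (f j) := by
    intro s
    induction s using Finset.induction_on with
    | empty => rw [Finset.sum_empty, Finset.sum_empty, MP_dcc566_gt.bf_zero_right]
    | insert a s ha ih => rw [Finset.sum_insert ha, Finset.sum_insert ha,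
        MP_dcc566_gt.bf_add_right, ih]
  exact h _

/-- PROOF.  `rowOK lf gr M M` gives for every `i < M` (induction): norm `N = gr[i][i] > 0`, every entry of `lf[i]` satisfies `2 c % N = 0`, and `gr[i][j] ≤ 0` for `j ≠ i`.
`gr_eq`.  `Rt`: `bf (e i) x = ∑_c (lf[i])_c x_c` for every `x : Fin 20 → ℤ` (`lf[i] = gm.map (dotL · e)` is the vector `GM *ᵥ e i`; symmetry), and `N ∣ 2 (lf[i])_c`. -/
theorem rows_ok (h : rootsOK gm roots lf gr M = true) (hs : (GM gm).IsSymm)
    (hrow : rowOK lf gr M M = true) : (∀ i, Rt (GM gm) (eL roots M i)) ∧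
      ∀ i j, i ≠ j → bf (GM gm) (eL roots M i) (eL roots M j) ≤ 0 := by
  obtain ⟨h1, h2, h3, h4, h5, h6⟩ := FvE6_un h
  have hr := FvE6_row M hrow
  refine ⟨fun i => ⟨?_, fun x => ?_⟩, fun i j hij => ?_⟩
  · rw [← gr_eq h hs]
    exact (hr i i.2).1
  · rw [← gr_eq h hs]
    obtain ⟨-, h7, -⟩ := hr i i.2
    generalize (gr.getD (i : ℕ) []).getD (i : ℕ) 0 = N at h7 ⊢
    have hx : (List.ofFn x).length = 20 := List.length_ofFn
    obtain ⟨h8, h9⟩ := lf_eq h hs i hx
    rw [FvE6_ofFn] at h8
    have hi : (i : ℕ) < lf.length := by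
      rw [h9]
      exact i.2
    have hlen : (lf.getD i []).length = 20 := by
      have hm : lf.getD i [] ∈ lf := by
        rw [List.getD_eq_getElem _ _ hi]
        exact List.getElem_mem hi
      generalize lf.getD (i : ℕ) [] = y at hm
      rw [h5, List.mem_map] at hm
      obtain ⟨e, -, rfl⟩ := hm
      rw [List.length_map, h3]
    have h10 : (lf.map (fun l => dotL l (List.ofFn x))).getD i 0 =
        dotL (lf.getD i []) (List.ofFn x) := by
      rw [List.getD_eq_getElem _ _ (by rw [List.length_map]; exact hi), List.getElem_map,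
        List.getD_eq_getElem _ _ hi]
    rw [← h8, h10, dotL_eq 20 _ _ hlen hx, Finset.mul_sum]
    refine Finset.dvd_sum fun c _ => ?_
    rw [← mul_assoc]
    have key : ∀ y : List ℤ, y.length = 20 → y.getD c 0 ∈ y := fun y hy => by
      rw [List.getD_eq_getElem _ _ (by rw [hy]; exact c.2)]
      exact List.getElem_mem _
    exact Dvd.dvd.mul_right (Int.dvd_of_emod_eq_zero (h7 _ (key _ hlen))) _
  · rw [← gr_eq h hs]
    exact (hr i i.2).2.2 j j.2 (fun hc => hij (Fin.ext hc.symm))

/-- PROOF.  `combOK` gives for every `c < 20` a list with `zsum roots x = unit vector c`, so (`fv_zsum`) the standard basis vector `c` is an integral combination of the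
roots; every `x` is an integral combination of the standard basis vectors.  (The set of all `x` of the form `∑ a j • e j` is a subgroup,
`AddSubgroup`/`Submodule.span ℤ`, containing all standard basis vectors.) -/
theorem span_ok (h : rootsOK gm roots lf gr M = true) {cb : List (List (ℕ × ℤ))}
    (hc : combOK roots M 0 cb = true) (hlen : cb.length = 20) (x : Fin 20 → ℤ) :
    ∃ a : Fin M → ℤ, x = ∑ j, a j • eL roots M j := by
  obtain ⟨h1, h2, h3, h4, h5, h6⟩ := FvE6_un h
  have hS : x ∈ Submodule.span ℤ (Set.range (eL roots M)) := by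
    have hx : x = ∑ c : Fin 20, x c • (Pi.single c 1 : Fin 20 → ℤ) := by
      funext j
      simp [Finset.sum_apply, Pi.single_apply]
    rw [hx]
    refine Submodule.sum_mem _ fun c _ => Submodule.smul_mem _ _ ?_
    obtain ⟨l, hl1, hl2⟩ := FvE6_comb cb 0 hc c (by rw [hlen]; exact c.2)
    obtain ⟨hl3, -⟩ := fv_zsum h1 h2 l hl1
    have h7 : (Pi.single c 1 : Fin 20 → ℤ) = fv (zsum roots l) := by
      rw [hl2]
      funext j
      unfold fv
      rw [List.getD_eq_getElem _ _ (by rw [List.length_map, List.length_range]; exact j.2),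
        List.getElem_map, List.getElem_range, zero_add, Pi.single_apply]
      by_cases hj : j = c
      · subst hj
        simp
      · have : ¬ ((j : ℕ) = c) := fun hh => hj (Fin.ext hh)
        rw [if_neg hj, if_neg]
        intro hh
        rw [Nat.beq_eq] at hh
        exact this hh
    rw [h7, hl3]
    refine list_sum_mem ?_
    intro y hy
    rw [List.mem_map] at hy
    obtain ⟨z, hz, rfl⟩ := hy
    exact Submodule.smul_mem _ _ (Submodule.subset_span ⟨⟨z.1, hl1 z hz⟩, rfl⟩)
  obtain ⟨a, ha⟩ := (Submodule.mem_span_range_iff_exists_fun ℤ).1 hS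
  exact ⟨a, ha.symm⟩

/-- PROOF.  `q = -∑ e j`: `bf (e i) q = -∑_j gr[i][j]` (`gr_eq`), and the row `gr[i]` has length `M` and negative sum. -/
theorem q_pos (h : rootsOK gm roots lf gr M = true) (hs : (GM gm).IsSymm)
    (hsum : gr.all (fun l => decide (l.sum < 0)) = true) (i : Fin M) :
    0 < bf (GM gm) (eL roots M i) (-∑ j, (1 : ℤ) • eL roots M j) := by
  obtain ⟨h1, h2, h3, h4, h5, h6⟩ := FvE6_un h
  have hlf : lf.length = M := by
    rw [h5, List.length_map, h1]
  have hi : (i : ℕ) < gr.length := by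
    rw [h6, List.length_map, hlf]
    exact i.2
  have hm : gr.getD i [] ∈ gr := by
    rw [List.getD_eq_getElem _ _ hi]
    exact List.getElem_mem hi
  have h7 : (gr.getD i []).sum < 0 := by
    rw [List.all_eq_true] at hsum
    exact of_decide_eq_true (hsum _ hm)
  have h8 : (gr.getD i []).length = M := by
    generalize gr.getD (i : ℕ) [] = y at hm
    rw [h6, List.mem_map] at hm
    obtain ⟨e, -, rfl⟩ := hm
    rw [List.length_map, h1]
  rw [MP_dcc566_gt.bf_neg_right, FvE6_bfs]
  have h9 : ∑ j, bf (GM gm) (eL roots M i) ((1 : ℤ) • eL roots M j) = (gr.getD i []).sum := by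
    rw [← FvE6_sum h8]
    refine Finset.sum_congr rfl fun j _ => ?_
    rw [one_smul, gr_eq h hs]
  rw [h9]
  linarith

end Pool.Agent.RFN
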