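import Mathlib
import Pool.Agent.Lib.MP_dcc566_gt_R.GeoC
import Pool.Agent.Lib.MP_dcc566_gt_R.DtA
import Pool.Agent.Lib.MP_dcc566_gt_R.DtB
import Pool.Agent.Lib.MP_dcc566_gt_R.FvE1
import Pool.Agent.Lib.MP_dcc566_gt.LorLG

/-!
# The Gram matrices of the certificates
-/

set_option autoImplicit false

namespace Pool.Agent.RFN

open MP_dcc566_gt (bf rv Lor LG rB EvenPD)

/-- PROOF.  Finite check of 400 entries: `ext i j`, `fin_cases i <;> fin_cases j`, `rfl`/`decide`,
or `decide` for `∀ i j, GM gmA i j = UEE _ i j` (`decide +kernel`). -/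
theorem GM_A : GM gmA = UEE !![2, 1; 1, 2] := by
  have h : ∀ i j, GM gmA i j = UEE !![2, 1; 1, 2] i j := by decide +kernel
  exact Matrix.ext h

/-- PROOF.  As `GM_A`. -/
theorem GM_B : GM gmB = UEE !![2, 0; 0, 2] := by
  have h : ∀ i j, GM gmB i j = UEE !![2, 0; 0, 2] i j := by decide +kernel
  exact Matrix.ext h

private theorem FvE7_rB (K : Matrix (Fin 2) (Fin 2) ℤ) (x y : Fin 20 → ℝ) :
    rB (UEE K) x y = rB (LG K) (x ∘ idx20) (y ∘ idx20) := by
  rw [MP_dcc566_gt.rB_apply, MP_dcc566_gt.rB_apply, ← Equiv.sum_comp idx20]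
  refine Finset.sum_congr rfl fun a _ => ?_
  rw [← Equiv.sum_comp idx20]
  refine Finset.sum_congr rfl fun b _ => ?_
  have h : UEE K (idx20 a) (idx20 b) = LG K a b := by
    unfold UEE
    rw [Matrix.reindex_apply, Matrix.submatrix_apply, Equiv.symm_apply_apply,
      Equiv.symm_apply_apply]
  rw [h]
  rfl

/-- PROOF.  `lor_LG` (`LorLG.lean`; `real_pos_two`) gives `Lor (LG K) (rv (mk 1 (-1) 0 0 0))`.  `UEE
K = reindex idx20 idx20 (LG K)`, so `bf (UEE K) x y = bf (LG K) (x ∘ idx20)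
(y ∘ idx20)` and the same for `rB` (sums over the equivalence), `(UEE K).det = (LG K).det`
(`Matrix.det_reindex_self`), symmetry; so `Lor (UEE K) (rv q₀)` with
`q₀ = mk .. ∘ idx20.symm`.  For `q` of negative norm: `ALor.change` (`LorA.lean`) with `x = rv q`
(`rB_rv`) gives `Lor (UEE K) (rv q)`. -/
theorem lor_UEE {K : Matrix (Fin 2) (Fin 2) ℤ} (hK : EvenPD K) {q : Fin 20 → ℤ}
    (hq : bf (UEE K) q q < 0) : Lor (UEE K) (rv q) := by
  have h1 := MP_dcc566_gt.lor_LG hK.symm (MP_dcc566_gt.real_pos_two hK.symm hK.pos)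
  have hsymm : (UEE K).IsSymm := by
    have h2 := h1.symm.submatrix idx20.symm
    exact h2
  have hdet : (UEE K).det ≠ 0 := by
    unfold UEE
    rw [Matrix.det_reindex_self]
    exact h1.det
  set p : Fin 20 → ℝ := rv (MP_dcc566_gt.mk 1 (-1) 0 0 0) ∘ idx20.symm with hp
  have hpp : p ∘ idx20 = rv (MP_dcc566_gt.mk 1 (-1) 0 0 0) := by
    rw [hp]
    funext a
    simp
  have hL : Lor (UEE K) p := by
    refine ⟨hsymm, hdet, ?_, ?_⟩
    · rw [FvE7_rB, hpp]
      exact h1.neg
    · intro v hv hv0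
      rw [FvE7_rB, hpp] at hv
      rw [FvE7_rB]
      refine h1.pos _ hv fun h => hv0 ?_
      funext i
      have h3 := congrFun h (idx20.symm i)
      simpa using h3
  have hneg : rB (UEE K) (rv q) (rv q) < 0 := by
    rw [MP_dcc566_gt.rB_rv]
    exact_mod_cast hq
  have hA := (MP_dcc566_gt.Lor.alor hL).change hneg
  exact ⟨hsymm, hdet, hA.neg, hA.pos⟩

/-- PROOF.  `bf K z z = 2 z₀² + 2 z₀ z₁ + 2 z₁²` etc.  (`CaseA.lean`, `CaseB.lean` in `MP_dcc566_gt`
contain `EvenPD` for families of binary forms.) -/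
theorem evenPD_two {K : Matrix (Fin 2) (Fin 2) ℤ}
    (hK : K = !![2, 0; 0, 2] ∨ K = !![2, 1; 1, 2]) : EvenPD K := by
  rcases hK with rfl | rfl
  · have h : ∀ z : Fin 2 → ℤ, bf !![2, 0; 0, 2] z z = 2 * (z 0 * z 0 + z 1 * z 1) := by
      intro z
      rw [MP_dcc566_gt.bf_eq_sum]
      simp [Fin.sum_univ_two]
      ring
    refine ⟨by decide, fun z => ?_, fun z hz => ?_⟩
    · rw [h]
      exact even_two_mul _
    · rw [h]
      by_contra hneg
      have h0 := mul_self_nonneg (z 0)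
      have h1 := mul_self_nonneg (z 1)
      apply hz
      funext i
      fin_cases i
      · exact mul_self_eq_zero.mp (by linarith : z 0 * z 0 = 0)
      · exact mul_self_eq_zero.mp (by linarith : z 1 * z 1 = 0)
  · have h : ∀ z : Fin 2 → ℤ, bf !![2, 1; 1, 2] z z =
        2 * (z 0 * z 0 + z 0 * z 1 + z 1 * z 1) := by
      intro z
      rw [MP_dcc566_gt.bf_eq_sum]
      simp [Fin.sum_univ_two]
      ring
    refine ⟨by decide, fun z => ?_, fun z hz => ?_⟩
    · rw [h]
      exact even_two_mul _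
    · rw [h]
      by_contra hneg
      have h0 := mul_self_nonneg (z 0)
      have h1 := mul_self_nonneg (z 1)
      have h2 := mul_self_nonneg (z 0 + z 1)
      apply hz
      funext i
      fin_cases i
      · exact mul_self_eq_zero.mp (by nlinarith : z 0 * z 0 = 0)
      · exact mul_self_eq_zero.mp (by nlinarith : z 1 * z 1 = 0)

end Pool.Agent.RFN
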