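import Mathlib
import Pool.Agent.Lib.MP_dcc566_gt_R.FvE
import Pool.Agent.Lib.MP_dcc566_gt_R.FvE7
import Pool.Agent.Lib.MP_dcc566_gt_R.CgA
import Pool.Agent.Lib.MP_dcc566_gt_R.CgB
import Pool.Agent.Lib.MP_dcc566_gt_R.CkA0
import Pool.Agent.Lib.MP_dcc566_gt_R.CkA1
import Pool.Agent.Lib.MP_dcc566_gt_R.CkA2
import Pool.Agent.Lib.MP_dcc566_gt_R.CkA3
import Pool.Agent.Lib.MP_dcc566_gt_R.CkA4
import Pool.Agent.Lib.MP_dcc566_gt_R.CkB0
import Pool.Agent.Lib.MP_dcc566_gt_R.CkB1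
import Pool.Agent.Lib.MP_dcc566_gt_R.CkB2
import Pool.Agent.Lib.MP_dcc566_gt_R.CkB3
import Pool.Agent.Lib.MP_dcc566_gt_R.CkB4
import Pool.Agent.Lib.MP_dcc566_gt_R.CkB5
import Pool.Agent.Lib.MP_dcc566_gt_R.CkB6
import Pool.Agent.Lib.MP_dcc566_gt_R.CkB7

/-!
# Reflectivity of the two lattices
-/

set_option autoImplicit false

namespace Pool.Agent.RFN

open Pool.Agent.RFL (W OZ)
open MP_dcc566_gt (bf rv Lor)

theorem repsOK_app {gm roots lf : List (List ℤ)} {K P M : ℕ} {ml pl : List ℕ} {k k' : ℕ}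
    {l l' : List VRep} (h : repsOK gm roots lf K P M ml pl k l = true) (hk : k + l.length = k')
    (h' : repsOK gm roots lf K P M ml pl k' l' = true) :
    repsOK gm roots lf K P M ml pl k (l ++ l') = true := by
  subst hk
  exact repsOK_append _ _ _ _ _ _ _ _ _ _ _ h h'

theorem repsOK_A : repsOK gmA roA lfA 147 72 36 mlA plA 0
    (rpA0 ++ (rpA1 ++ (rpA2 ++ (rpA3 ++ rpA4)))) = true :=
  repsOK_app ckA0 (by decide +kernel) (repsOK_app ckA1 (by decide +kernel)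
    (repsOK_app ckA2 (by decide +kernel) (repsOK_app ckA3 (by decide +kernel) ckA4)))

theorem repsOK_B : repsOK gmB roB lfB 280 120 50 mlB plB 0
    (rpB0 ++ (rpB1 ++ (rpB2 ++ (rpB3 ++ (rpB4 ++ (rpB5 ++ (rpB6 ++ rpB7))))))) = true :=
  repsOK_app ckB0 (by decide +kernel) (repsOK_app ckB1 (by decide +kernel)
    (repsOK_app ckB2 (by decide +kernel) (repsOK_app ckB3 (by decide +kernel)
      (repsOK_app ckB4 (by decide +kernel) (repsOK_app ckB5 (by decide +kernel)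
        (repsOK_app ckB6 (by decide +kernel) ckB7))))))

theorem q0_neg {gm : List (List ℤ)} (h : gm.length = 20) (h' : ∀ l ∈ gm, l.length = 20)
    (h1 : dotL (1 :: -1 :: List.replicate 18 0)
      (gm.map (fun l => dotL l (1 :: -1 :: List.replicate 18 0))) < 0) :
    bf (GM gm) (fv (1 :: -1 :: List.replicate 18 0)) (fv (1 :: -1 :: List.replicate 18 0)) < 0 := by
  rw [bf_fv h h' (by simp) (by simp)]
  exact h1

/-- `U ⊕ E₈ ⊕ E₈ ⊕ A₂` is reflective. -/
theorem refl_A : (W (UEE !![2, 1; 1, 2])).relIndex (OZ (UEE !![2, 1; 1, 2])) ≠ 0 := by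
  have hK := evenPD_two (Or.inr rfl : (!![2, 1; 1, 2] : Matrix (Fin 2) (Fin 2) ℤ) = !![2, 0; 0, 2] ∨
    (!![2, 1; 1, 2] : Matrix (Fin 2) (Fin 2) ℤ) = !![2, 1; 1, 2])
  have hq := q0_neg (gm := gmA) (by decide +kernel) (by decide +kernel) (by decide +kernel)
  have hs : (GM gmA).IsSymm := by
    rw [GM_A] at hq ⊢
    exact (lor_UEE hK hq).symm
  rw [← GM_A]
  exact finite_index_of_cert rootsOK_A repsOK_A (by decide +kernel) (by norm_num) genOK_A permOK_A
    idOK_A (by decide +kernel) rowOK_A combOK_A (by decide +kernel) (by decide +kernel) hs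
    (fun q hq => by
      rw [GM_A] at hq ⊢
      exact lor_UEE hK hq) (by norm_num)

/-- `U ⊕ E₈ ⊕ E₈ ⊕ ⟨2⟩ ⊕ ⟨2⟩` is reflective. -/
theorem refl_B : (W (UEE !![2, 0; 0, 2])).relIndex (OZ (UEE !![2, 0; 0, 2])) ≠ 0 := by
  have hK := evenPD_two (Or.inl rfl : (!![2, 0; 0, 2] : Matrix (Fin 2) (Fin 2) ℤ) = !![2, 0; 0, 2] ∨
    (!![2, 0; 0, 2] : Matrix (Fin 2) (Fin 2) ℤ) = !![2, 1; 1, 2])
  have hq := q0_neg (gm := gmB) (by decide +kernel) (by decide +kernel) (by decide +kernel)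
  have hs : (GM gmB).IsSymm := by
    rw [GM_B] at hq ⊢
    exact (lor_UEE hK hq).symm
  rw [← GM_B]
  exact finite_index_of_cert rootsOK_B repsOK_B (by decide +kernel) (by norm_num) genOK_B permOK_B
    idOK_B (by decide +kernel) rowOK_B combOK_B (by decide +kernel) (by decide +kernel) hs
    (fun q hq => by
      rw [GM_B] at hq ⊢
      exact lor_UEE hK hq) (by norm_num)

end Pool.Agent.RFN
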