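import Mathlib
import Pool.Agent.Lib.MP_dcc566_gt_R.MXa
import Pool.Agent.Lib.MP_dcc566_gt_R.MXb
import Pool.Agent.Lib.MP_dcc566_gt_R.MXc

/-!
# A lattice preserved by a reflection group contains a multiple of the standard lattice
-/

set_option autoImplicit false

namespace Pool.Agent.RFN

open Matrix
open Pool.Agent.RFL (J toR W OZ OR GLZ cj bl)
open MP_dcc566_gt (rv bf)

section

variable {n : ℕ} {G : Matrix (Fin n) (Fin n) ℤ}

private theorem GeoN1_bl (x y : Fin n → ℤ) : bl (toR G) (rv x) (rv y) = ((bf G x y : ℤ) : ℝ) :=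
  Pool.Agent.RFL.bl_toR G x y

private theorem GeoN1_comm (hG : G.IsSymm) (x y : Fin n → ℝ) :
    bl (toR G) x y = bl (toR G) y x :=
  MP_dcc566_gt.bf_comm (toR G) (hG.map _) x y

private theorem GeoN1_add (x x' y : Fin n → ℝ) :
    bl (toR G) (x + x') y = bl (toR G) x y + bl (toR G) x' y :=
  MP_dcc566_gt.bf_add_left (toR G) x x' y

private theorem GeoN1_neg (x y : Fin n → ℝ) : bl (toR G) (-x) y = -bl (toR G) x y :=
  MP_dcc566_gt.bf_neg_left (toR G) x y

private theorem GeoN1_smul (c : ℝ) (x y : Fin n → ℝ) :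
    bl (toR G) x (c • y) = c * bl (toR G) x y :=
  MP_dcc566_gt.bf_smul_right (toR G) c x y

private theorem GeoN1_one (hG : G.IsSymm) {H : Subgroup (GL (Fin n) ℝ)} (hW : W G ≤ H)
    {E : GL (Fin n) ℝ} (hE : ∀ h ∈ H, E * h * E⁻¹ ∈ GLZ n) {r : Fin n → ℤ} (hr : bf G r r = 2)
    {x : Fin n → ℝ} (hx : x ∈ LatE E) : bl (toR G) (rv r) x • rv r ∈ LatE E := by
  obtain ⟨g, hg, hgx⟩ := refl_mem_W hG hr
  have h1 := LatE_mem (hE g (hW hg)) hx
  rw [hgx] at h1
  have h2 := (LatE E).sub_mem hx h1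
  rwa [sub_sub_cancel] at h2

end

/-- PROOF.  These are the steps (1) - (4) of the proof in `MXc.lean` with `H = W G` (copy them): `M = LatE E` is preserved by `W G` (`LatE_mem`); the multiples of
`rv r0` in `M` are `ℤ c` (`exists_lat_pair`, `refl_mem_W`, `line_cyclic`); the same for all `r` of norm 2 with `bf G r r0 = 1`; `{u | c • rv u ∈ M}` is a subgroup
containing `r0` and these `r`, so everything (`hgen`). -/
theorem exists_scale {n : ℕ} {G : Matrix (Fin n) (Fin n) ℤ} (hG : G.IsSymm) {r0 : Fin n → ℤ}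
    (h0 : bf G r0 r0 = 2) (hgen : ∀ X : AddSubgroup (Fin n → ℤ), r0 ∈ X →
      (∀ r, bf G r r = 2 → bf G r r0 = 1 → r ∈ X) → ∀ x, x ∈ X)
    {E : GL (Fin n) ℝ} (hE : ∀ h ∈ W G, E * h * E⁻¹ ∈ GLZ n) :
    ∃ c : ℝ, 0 < c ∧ ∀ u : Fin n → ℤ, c • rv u ∈ LatE E := by
  have step1 : ∀ r : Fin n → ℤ, bf G r r = 2 → ∀ x ∈ LatE E,
      bl (toR G) (rv r) x • rv r ∈ LatE E := fun r hr x hx => GeoN1_one hG le_rfl hE hr hx
  have hr0 : bl (toR G) (rv r0) (rv r0) = 2 := by
    rw [GeoN1_bl, h0]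
    norm_num
  have hr0' : rv r0 ≠ 0 := by
    intro h
    rw [h] at hr0
    have h1 : bl (toR G) 0 0 = 0 := MP_dcc566_gt.bf_zero_left (toR G) 0
    rw [h1] at hr0
    norm_num at hr0
  obtain ⟨x0, hx0, hx0'⟩ := exists_lat_pair E (B := toR G) (v := rv r0) (by
    rw [hr0]
    norm_num)
  obtain ⟨c, hc, hcyc⟩ := line_cyclic E hr0' hx0' (step1 r0 h0 x0 hx0)
  have step3 : ∀ r : Fin n → ℤ, bf G r r = 2 → bf G r r0 = 1 → ∀ s : ℝ,
      (s • rv r ∈ LatE E ↔ s • rv r0 ∈ LatE E) := by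
    intro r hr hrr s
    have e1 : bl (toR G) (rv r) (rv r0) = 1 := by
      rw [GeoN1_bl, hrr]
      norm_num
    constructor
    · intro h
      have h1 := step1 r0 h0 _ h
      rwa [GeoN1_smul, GeoN1_comm hG, e1, mul_one] at h1
    · intro h
      have h1 := step1 r hr _ h
      rwa [GeoN1_smul, e1, mul_one] at h1
  have hcr0 : c • rv r0 ∈ LatE E := (hcyc c).2 ⟨1, by norm_num⟩
  -- the subgroup of the `u` with `c • rv u` in the lattice
  have step4 : ∀ u : Fin n → ℤ, c • rv u ∈ LatE E := by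
    intro u
    have h1 := hgen
      { carrier := {u | c • rv u ∈ LatE E}
        add_mem' := by
          intro a b ha hb
          have h2 : c • rv a + c • rv b ∈ LatE E := (LatE E).add_mem ha hb
          show c • rv (a + b) ∈ LatE E
          rwa [MP_dcc566_gt.rv_add, smul_add]
        zero_mem' := by
          show c • rv 0 ∈ LatE E
          rw [MP_dcc566_gt.rv_zero, smul_zero]
          exact (LatE E).zero_mem
        neg_mem' := by
          intro a ha
          have h2 : -(c • rv a) ∈ LatE E := (LatE E).neg_mem ha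
          show c • rv (-a) ∈ LatE E
          rwa [MP_dcc566_gt.rv_neg, smul_neg] } hcr0
      (fun r hr hrr => (step3 r hr hrr c).2 hcr0) u
    exact h1
  exact ⟨c, hc, step4⟩

end Pool.Agent.RFN
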