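import Mathlib
import Pool.Agent.Lib.MP_dcc566_gt_R.GeoN1
import Pool.Agent.Lib.MP_dcc566_gt_R.MXd

/-!
# The two groups are not conjugate
-/

set_option autoImplicit false

namespace Pool.Agent.RFN

open Matrix
open Pool.Agent.RFL (J toR W OZ OR GLZ cj bl)
open MP_dcc566_gt (rv bf)

private theorem GeoN2_det (K : Matrix (Fin 2) (Fin 2) ℤ) : (UEE K).det = -K.det := by
  unfold UEE MP_dcc566_gt.LG
  rw [Matrix.det_reindex_self, det_fromBlocks_zero₂₁, det_fromBlocks_zero₂₁,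
    det_fromBlocks_zero₂₁, CartanMatrix.E₈_det]
  simp [MP_dcc566_gt.UG, det_fin_two]

private theorem GeoN2_map_mul (M N : Matrix (Fin 20) (Fin 20) ℤ) :
    (M * N).map (Int.cast : ℤ → ℝ) = M.map (Int.cast : ℤ → ℝ) * N.map (Int.cast : ℤ → ℝ) :=
  Matrix.map_mul (f := Int.castRingHom ℝ)

private theorem GeoN2_W_le {n : ℕ} (G : Matrix (Fin n) (Fin n) ℤ) : W G ≤ OZ G :=
  (Subgroup.closure_le _).2 fun _ hg => hg.1

private theorem GeoN2_single (j : Fin 20) : (rv (Pi.single j 1) : Fin 20 → ℝ) = Pi.single j 1 := by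
  funext i
  by_cases h : i = j
  · subst h
    simp [rv]
  · simp [rv, h]

/-- `3 x ^ 2 = y ^ 2` has no solution with `y ≠ 0` -/
private theorem GeoN2_three {x y : ℕ} (hy : y ≠ 0) (h : x ^ 2 * 3 = y ^ 2) : False := by
  have hx : x ≠ 0 := by
    rintro rfl
    simp only [ne_eq, OfNat.ofNat_ne_zero, not_false_eq_true, zero_pow, zero_mul] at h
    exact hy (pow_eq_zero_iff (two_ne_zero) |>.1 h.symm)
  have h1 := congrArg (padicValNat 3) h
  rw [padicValNat.mul (pow_ne_zero 2 hx) (by norm_num), padicValNat.pow, padicValNat.pow,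
    padicValNat.self (by norm_num)] at h1
  omega

/-- The matrix statement. -/
private theorem GeoN2_mat {N : Matrix (Fin 20) (Fin 20) ℤ} {q : ℤ} (hq : q ≠ 0)
    (h : Nᵀ * UEE !![2, 1; 1, 2] * N = q • UEE !![2, 0; 0, 2]) : False := by
  have h1 := congrArg Matrix.det h
  rw [det_mul, det_mul, det_transpose, Matrix.det_smul, GeoN2_det, GeoN2_det,
    Fintype.card_fin, det_fin_two_of, det_fin_two_of] at h1
  have h2 : N.det ^ 2 * 3 = (2 * q ^ 10) ^ 2 := by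
    linarith
  have h3 : N.det.natAbs ^ 2 * 3 = (2 * q ^ 10).natAbs ^ 2 := by
    have h4 := congrArg Int.natAbs h2
    rw [Int.natAbs_mul, Int.natAbs_pow, Int.natAbs_pow] at h4
    exact h4
  exact GeoN2_three (Int.natAbs_ne_zero.2 (mul_ne_zero two_ne_zero (pow_ne_zero _ hq))) h3

/-- PROOF.  `G₁ = UEE !![2,0;0,2]`, `G₂ = UEE !![2,1;1,2]`, `D = C⁻¹ * C'`: `D.valᵀ * toR G₁ * D.val = toR G₂`.  For `g ∈ W G₁ = cj C Γ`: `C g C⁻¹ ∈ Γ` (`mem_cj`), so
`D⁻¹ g D = C'⁻¹ (C g C⁻¹) C' ∈ cj C' Γ = W G₂ ≤ GLZ`.  `exists_scale` for `G₁`, `r0 = e0` (`UEE_gen`, `e0_norm`), `E = D⁻¹`: `c > 0` with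
`D⁻¹ (c rv u)` integral for all `u`, so `c D⁻¹ = N.map cast` for an integral matrix `N` (columns).  `toR (Nᵀ G₂ N) = (c D⁻¹)ᵀ toR G₂ (c D⁻¹) = c² toR G₁`.
The entry of `G₁` at the first two basis vectors is 1, so `c² = q` is a positive integer and `Nᵀ G₂ N = q G₁`.  Determinants: `det (UEE K) = det (LG K)
= det UG * (det E8)² * det K` (`Matrix.det_reindex_self`, `Matrix.det_fromBlocks_zero₂₁`/`det_fromBlocks_zero₁₂`), `δ = det UG * (det E8)² ≠ 0`
(`UG`: -1; `det E8 ≠ 0` from the unimodularity `MP_dcc566_gt.E8_unimod` or positivity, or from `(LG K).det ≠ 0`), so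
`(det N)² * 3 = q ^ 20 * 4`.  With `det N`, `q` nonzero the exponent of 3 is odd on the left and even on the right (`padicValInt`/`multiplicity`, or descent). -/
theorem not_both {Γ : Subgroup (GL (Fin (19 + 1)) ℝ)} {C C' : GL (Fin (19 + 1)) ℝ}
    (h : C.valᵀ * J 19 * C.val = toR (UEE !![2, 0; 0, 2])) (hΓ : cj C Γ = W (UEE !![2, 0; 0, 2]))
    (h' : C'.valᵀ * J 19 * C'.val = toR (UEE !![2, 1; 1, 2]))
    (hΓ' : cj C' Γ = W (UEE !![2, 1; 1, 2])) : False := by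
  obtain ⟨hs1, h00, h11, -⟩ := K_vals (K := !![2, 0; 0, 2]) (Or.inl rfl)
  obtain ⟨E, hE⟩ : ∃ E : GL (Fin 20) ℝ, E = C'⁻¹ * C := ⟨_, rfl⟩
  have hCE : C' * E = C := by rw [hE, mul_inv_cancel_left]
  have hform : E.valᵀ * toR (UEE !![2, 1; 1, 2]) * E.val = toR (UEE !![2, 0; 0, 2]) := by
    rw [← h', ← h, ← hCE, Units.val_mul, transpose_mul]
    simp only [Matrix.mul_assoc]
  have hconj : ∀ g ∈ W (UEE !![2, 0; 0, 2]), E * g * E⁻¹ ∈ GLZ 20 := by
    intro g hg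
    rw [← hΓ] at hg
    have h1 := Pool.Agent.RFL.mem_cj.1 hg
    have h2 : E * g * E⁻¹ ∈ cj C' Γ := by
      refine Pool.Agent.RFL.mem_cj.2 ?_
      have e1 : C' * (E * g * E⁻¹) * C'⁻¹ = C * g * C⁻¹ := by
        rw [← hCE]
        simp only [_root_.mul_inv_rev, mul_assoc]
      rw [e1]
      exact h1
    rw [hΓ'] at h2
    exact (GeoN2_W_le _ h2).2
  obtain ⟨c, hc, hcu⟩ := exists_scale (UEE_symm hs1) (e0_norm _)
    (fun X hX0 hX x => UEE_gen h00 h11 X hX0 hX x) hconj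
  choose w hw using fun j : Fin 20 => hcu (Pi.single j 1)
  obtain ⟨N, hN⟩ : ∃ N : Matrix (Fin 20) (Fin 20) ℤ, c • E.val = N.map (Int.cast : ℤ → ℝ) := by
    refine ⟨Matrix.of fun i j => w j i, ?_⟩
    ext i j
    have h2 := congrFun (hw j) i
    rw [GeoN2_single, mulVec_smul, mulVec_single_one] at h2
    simpa [rv, Matrix.col] using h2
  have hmain : (Nᵀ * UEE !![2, 1; 1, 2] * N).map (Int.cast : ℤ → ℝ) =
      (c ^ 2) • toR (UEE !![2, 0; 0, 2]) := by
    have e1 : (Nᵀ).map (Int.cast : ℤ → ℝ) = (N.map (Int.cast : ℤ → ℝ))ᵀ := by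
      rw [transpose_map]
    rw [GeoN2_map_mul, GeoN2_map_mul, e1, ← hN, transpose_smul, smul_mul_assoc, smul_mul_assoc,
      mul_smul_comm, smul_smul, ← pow_two]
    exact congrArg _ hform
  obtain ⟨q, hq⟩ : ∃ q : ℤ, q = (Nᵀ * UEE !![2, 1; 1, 2] * N) (idx20 (Sum.inl 0))
    (idx20 (Sum.inl 1)) := ⟨_, rfl⟩
  have h01 : (UEE !![2, 0; 0, 2]) (idx20 (Sum.inl 0)) (idx20 (Sum.inl 1)) = 1 := by
    unfold UEE
    rw [Matrix.reindex_apply, Matrix.submatrix_apply, Equiv.symm_apply_apply,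
      Equiv.symm_apply_apply]
    rfl
  have hcq : c ^ 2 = (q : ℝ) := by
    have h2 := congrFun (congrFun hmain (idx20 (Sum.inl 0))) (idx20 (Sum.inl 1))
    rw [Matrix.map_apply, ← hq, Matrix.smul_apply] at h2
    rw [h2]
    unfold toR
    rw [Matrix.map_apply, h01]
    simp
  have hq0 : q ≠ 0 := by
    rintro rfl
    rw [Int.cast_zero] at hcq
    exact (pow_pos hc 2).ne' hcq
  refine GeoN2_mat hq0 (N := N) ?_
  apply Matrix.map_injective (f := (Int.cast : ℤ → ℝ)) Int.cast_injective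
  dsimp only
  rw [hmain, hcq]
  ext i j
  unfold toR
  rw [Matrix.smul_apply, Matrix.map_apply, Matrix.map_apply, Matrix.smul_apply]
  simp

end Pool.Agent.RFN
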