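import Mathlib
import Pool.Agent.Lib.MP_dcc566_gt_P1.ExM
import Pool.Agent.Lib.MP_dcc566_gt_R.MXc
import Pool.Agent.Lib.MP_dcc566_gt_R.MXe

/-!
# Maximality
-/

set_option autoImplicit false

namespace Pool.Agent.RFN

open Matrix
open Pool.Agent.RFL (J toR bl IsRefl OR GLZ OZ W cj IsArith IsReflGroup IsMaxRefl Model)
open MP_dcc566_gt (bf rv mk LG Idx)

private theorem MX_cancel {n : ℕ} (B : Matrix (Fin n) (Fin n) ℝ) (C : GL (Fin n) ℝ) :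
    C⁻¹.valᵀ * (C.valᵀ * B * C.val) * C⁻¹.val = B := by
  have h1 : C.val * C⁻¹.val = 1 := by rw [← Units.val_mul, mul_inv_cancel, Units.val_one]
  have h2 : C⁻¹.valᵀ * C.valᵀ = 1 := by rw [← transpose_mul, h1, transpose_one]
  calc C⁻¹.valᵀ * (C.valᵀ * B * C.val) * C⁻¹.val
      = (C⁻¹.valᵀ * C.valᵀ) * B * (C.val * C⁻¹.val) := by simp only [Matrix.mul_assoc]
    _ = B := by rw [h1, h2, Matrix.one_mul, Matrix.mul_one]

theorem isMax_of_model {Γ : Subgroup (GL (Fin (19 + 1)) ℝ)} {K : Matrix (Fin 2) (Fin 2) ℤ}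
    (hK : K = !![2, 0; 0, 2] ∨ K = !![2, 1; 1, 2]) {C : GL (Fin (19 + 1)) ℝ}
    (h : C.valᵀ * J 19 * C.val = toR (UEE K)) (hΓ : cj C Γ = W (UEE K))
    (hfin : (W (UEE K)).relIndex (OZ (UEE K)) ≠ 0) : IsMaxRefl (m := 19) Γ := by
  obtain ⟨hs, h00, h11, hev⟩ := K_vals hK
  have hJ : C⁻¹.valᵀ * toR (UEE K) * C⁻¹.val = J 19 := by
    rw [← h]
    exact MX_cancel (J 19) C
  have hΓ' : Γ = cj C⁻¹ (W (UEE K)) := by
    rw [← hΓ, ← Pool.Agent.RFL.cj_cj, mul_inv_cancel, Pool.Agent.RFL.cj_one]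
  refine ⟨⟨?_, UEE K, C, h, ⟨(mk 1 0 0 0 0 : Idx 2 → ℤ) ∘ idx20.symm, ?_, ?_⟩, ?_, ?_⟩, ?_, ?_⟩
  · rw [hΓ', ← hJ, ← Pool.Agent.RFL.cj_OR]
    exact Pool.Agent.RFL.cj_mono _ ((Pool.Agent.RFL.W_le _).trans inf_le_left)
  · intro h0
    have h1 := congrFun h0 (idx20 (Sum.inl 0))
    simp [mk] at h1
  · change bf (UEE K) _ _ = 0
    unfold UEE
    rw [bf_UEE, MP_dcc566_gt.bf_mk]
    simp [MP_dcc566_gt.bf_zero_right]
  · rw [hΓ, Subgroup.relIndex_eq_one.2 (Pool.Agent.RFL.W_le _)]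
    exact one_ne_zero
  · rw [hΓ]
    exact hfin
  · have h1 := (Pool.Agent.RFL.isReflGroup_W (UEE K)).cj C⁻¹
    rw [hJ] at h1
    rw [hΓ']
    exact h1
  · intro Γ₁ hA hR hle
    obtain ⟨G₁, C₁, hM⟩ := Pool.Agent.RFL.exists_model (by norm_num) hA hR
    have hWH : W (UEE K) ≤ cj C Γ₁ := by
      rw [← hΓ]
      exact Pool.Agent.RFL.cj_mono _ hle
    have hO : cj C Γ₁ ≤ OR (toR (UEE K)) := by
      rw [← h, ← Pool.Agent.RFL.cj_OR]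
      exact Pool.Agent.RFL.cj_mono _ hA.1
    have hE : ∀ g ∈ cj C Γ₁, C₁⁻¹ * C * g * (C₁⁻¹ * C)⁻¹ ∈ GLZ (19 + 1) := by
      intro g hg
      rw [Pool.Agent.RFL.mem_cj] at hg
      refine (hM.2.2.1 ?_ : _ ∈ OZ G₁).2
      rw [Pool.Agent.RFL.mem_cj]
      have e1 : C₁ * (C₁⁻¹ * C * g * (C₁⁻¹ * C)⁻¹) * C₁⁻¹ = C * g * C⁻¹ := by group
      rw [e1]
      exact hg
    have hZ : cj C Γ₁ ≤ GLZ (19 + 1) :=
      le_GLZ_of_roots (UEE_symm hs) (UEE_even hev) hWH hO hE (e0_norm K)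
        (UEE_gen h00 h11) (UEE_dual hK)
    have hR1 := hR.cj C
    rw [h] at hR1
    have hle2 : cj C Γ₁ ≤ W (UEE K) := by
      intro g hg
      unfold IsReflGroup at hR1
      rw [hR1] at hg
      refine Subgroup.closure_mono (fun y hy => ?_) hg
      exact ⟨⟨hO hy.1, hZ hy.1⟩, hy.2⟩
    have h2 : cj C Γ₁ = cj C Γ := by
      rw [hΓ]
      exact le_antisymm hle2 hWH
    have h3 := congrArg (cj C⁻¹) h2
    rwa [← Pool.Agent.RFL.cj_cj, ← Pool.Agent.RFL.cj_cj, mul_inv_cancel,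
      Pool.Agent.RFL.cj_one, Pool.Agent.RFL.cj_one] at h3

end Pool.Agent.RFN
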