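import Mathlib
import Pool.Agent.Lib.MP_dcc566_gt_R.GeoE
import Pool.Agent.Lib.MP_dcc566_gt_R.GeoN2
import Pool.Agent.Lib.MP_dcc566_gt_R.GeoX
import Pool.Agent.Lib.MP_dcc566_gt_R.MX
import Pool.Agent.Lib.MP_dcc566_gt_R.FvF

/-!
# The list of the maximal non-uniform arithmetic reflection groups of hyperbolic 19-space
-/

set_option autoImplicit false

namespace Pool.Agent.RFN

open Matrix
open Pool.Agent.RFL (J toR W OZ OR cj IsMaxRefl)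
open MP_dcc566_gt (rv bf)

private theorem GeoF_cancel {n : ℕ} (B : Matrix (Fin n) (Fin n) ℝ) (C : GL (Fin n) ℝ) :
    C⁻¹.valᵀ * (C.valᵀ * B * C.val) * C⁻¹.val = B := by
  have h1 : C.val * C⁻¹.val = 1 := by rw [← Units.val_mul, mul_inv_cancel, Units.val_one]
  have h2 : C⁻¹.valᵀ * C.valᵀ = 1 := by rw [← transpose_mul, h1, transpose_one]
  calc C⁻¹.valᵀ * (C.valᵀ * B * C.val) * C⁻¹.val
      = (C⁻¹.valᵀ * C.valᵀ) * B * (C.val * C⁻¹.val) := by simp only [Matrix.mul_assoc]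
    _ = B := by rw [h1, h2, Matrix.one_mul, Matrix.mul_one]

theorem refl_K {K : Matrix (Fin 2) (Fin 2) ℤ} (hK : K = !![2, 0; 0, 2] ∨ K = !![2, 1; 1, 2]) :
    (W (UEE K)).relIndex (OZ (UEE K)) ≠ 0 := by
  rcases hK with rfl | rfl
  · exact refl_B
  · exact refl_A

/-- A group is a maximal non-uniform arithmetic reflection group of hyperbolic 19-space if and only
if it is conjugate to the reflection group of one of the two lattices. -/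
theorem isMax_iff {Γ : Subgroup (GL (Fin (19 + 1)) ℝ)} :
    IsMaxRefl (m := 19) Γ ↔ ∃ K : Matrix (Fin 2) (Fin 2) ℤ,
      (K = !![2, 0; 0, 2] ∨ K = !![2, 1; 1, 2]) ∧
      ∃ C : GL (Fin (19 + 1)) ℝ, C.valᵀ * J 19 * C.val = toR (UEE K) ∧ cj C Γ = W (UEE K) := by
  constructor
  · exact forward
  · rintro ⟨K, hK, C, h, hΓ⟩
    exact isMax_of_model hK h hΓ (refl_K hK)

/-- A negative vector of `UEE K`. -/
theorem exists_neg_UEE (K : Matrix (Fin 2) (Fin 2) ℤ) :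
    ∃ q : Fin 20 → ℤ, bf (UEE K) q q < 0 := by
  refine ⟨(MP_dcc566_gt.mk 1 (-1) 0 0 0 : MP_dcc566_gt.Idx 2 → ℤ) ∘ idx20.symm, ?_⟩
  unfold UEE
  rw [bf_UEE, MP_dcc566_gt.bf_mk]
  simp [MP_dcc566_gt.bf_zero_right]

theorem exists_C {K : Matrix (Fin 2) (Fin 2) ℤ} (hK : K = !![2, 0; 0, 2] ∨ K = !![2, 1; 1, 2]) :
    ∃ C : GL (Fin (19 + 1)) ℝ, C.valᵀ * J 19 * C.val = toR (UEE K) := by
  obtain ⟨q, hq⟩ := exists_neg_UEE K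
  exact exists_C_of_lor (lor_UEE (evenPD_two hK) hq)

theorem conj_of_models {G : Matrix (Fin (19 + 1)) (Fin (19 + 1)) ℤ}
    {Γ Γ' : Subgroup (GL (Fin (19 + 1)) ℝ)} {C C' : GL (Fin (19 + 1)) ℝ}
    (h : C.valᵀ * J 19 * C.val = toR G) (hΓ : cj C Γ = W G)
    (h' : C'.valᵀ * J 19 * C'.val = toR G) (hΓ' : cj C' Γ' = W G) :
    ∃ g ∈ OR (J 19), cj g Γ = Γ' := by
  refine ⟨C * C'⁻¹, ?_, ?_⟩
  · rw [Pool.Agent.RFL.mem_OR, Units.val_mul, Matrix.transpose_mul]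
    calc C'⁻¹.valᵀ * C.valᵀ * J 19 * (C.val * C'⁻¹.val)
        = C'⁻¹.valᵀ * (C.valᵀ * J 19 * C.val) * C'⁻¹.val := by simp only [Matrix.mul_assoc]
      _ = C'⁻¹.valᵀ * (C'.valᵀ * J 19 * C'.val) * C'⁻¹.val := by rw [h, h']
      _ = J 19 := GeoF_cancel (J 19) C'
  · rw [Pool.Agent.RFL.cj_cj, hΓ, ← hΓ', ← Pool.Agent.RFL.cj_cj, mul_inv_cancel,
      Pool.Agent.RFL.cj_one]

/-- The complete list. -/
theorem classification :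
    ∃ Γ₁ Γ₂ : Subgroup (GL (Fin (19 + 1)) ℝ),
      IsMaxRefl (m := 19) Γ₁ ∧ IsMaxRefl (m := 19) Γ₂ ∧ (¬ ∃ g ∈ OR (J 19), cj g Γ₁ = Γ₂) ∧
      (∀ Γ : Subgroup (GL (Fin (19 + 1)) ℝ), IsMaxRefl (m := 19) Γ →
        ∃ g ∈ OR (J 19), cj g Γ = Γ₁ ∨ cj g Γ = Γ₂) ∧
      (∃ C : GL (Fin (19 + 1)) ℝ, C.valᵀ * J 19 * C.val = toR (UEE !![2, 0; 0, 2]) ∧
        cj C Γ₁ = W (UEE !![2, 0; 0, 2])) ∧
      (∃ C : GL (Fin (19 + 1)) ℝ, C.valᵀ * J 19 * C.val = toR (UEE !![2, 1; 1, 2]) ∧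
        cj C Γ₂ = W (UEE !![2, 1; 1, 2])) := by
  obtain ⟨C₁, h₁⟩ := exists_C (K := !![2, 0; 0, 2]) (Or.inl rfl)
  obtain ⟨C₂, h₂⟩ := exists_C (K := !![2, 1; 1, 2]) (Or.inr rfl)
  have e₁ : cj C₁ (cj C₁⁻¹ (W (UEE !![2, 0; 0, 2]))) = W (UEE !![2, 0; 0, 2]) := by
    rw [← Pool.Agent.RFL.cj_cj, inv_mul_cancel, Pool.Agent.RFL.cj_one]
  have e₂ : cj C₂ (cj C₂⁻¹ (W (UEE !![2, 1; 1, 2]))) = W (UEE !![2, 1; 1, 2]) := by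
    rw [← Pool.Agent.RFL.cj_cj, inv_mul_cancel, Pool.Agent.RFL.cj_one]
  refine ⟨cj C₁⁻¹ (W (UEE !![2, 0; 0, 2])), cj C₂⁻¹ (W (UEE !![2, 1; 1, 2])),
    isMax_iff.2 ⟨_, Or.inl rfl, C₁, h₁, e₁⟩, isMax_iff.2 ⟨_, Or.inr rfl, C₂, h₂, e₂⟩, ?_, ?_,
    ⟨C₁, h₁, e₁⟩, ⟨C₂, h₂, e₂⟩⟩
  · rintro ⟨g, hg, hgΓ⟩
    refine not_both h₁ e₁ (C' := g * C₂) ?_ ?_
    · rw [Units.val_mul, Matrix.transpose_mul]
      calc C₂.valᵀ * g.valᵀ * J 19 * (g.val * C₂.val)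
          = C₂.valᵀ * (g.valᵀ * J 19 * g.val) * C₂.val := by simp only [Matrix.mul_assoc]
        _ = toR (UEE !![2, 1; 1, 2]) := by
          rw [Pool.Agent.RFL.mem_OR.1 hg, h₂]
    · rw [Pool.Agent.RFL.cj_cj, hgΓ, e₂]
  · intro Γ hΓ
    obtain ⟨K, hK, C, h, hC⟩ := isMax_iff.1 hΓ
    rcases hK with rfl | rfl
    · obtain ⟨g, hg, h3⟩ := conj_of_models h hC h₁ e₁
      exact ⟨g, hg, Or.inl h3⟩
    · obtain ⟨g, hg, h3⟩ := conj_of_models h hC h₂ e₂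
      exact ⟨g, hg, Or.inr h3⟩

end Pool.Agent.RFN
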